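import Pool.Agent.H4.D2.Evt

/-!
# Reading a polynomial in a variable of positive rate

`read_cov`: if a variable of positive rate lies, on an event, in a small set which depends on data with
small information, then the event is not large.

`read_poly`: a polynomial whose coefficients are functions of such data and which is small at the
variable has small coefficients outside an event of small probability.
-/

set_option autoImplicit false

namespace Pool.D2P

open Finset Real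
open Pool.Agent.H49.Ent Pool.Agent.H32.Dense Pool.STK Pool.OWN68

section

open Polynomial

/-- A polynomial which is small at separated points has small coefficients. -/
theorem poly_pts {R r : ℝ} (hR : 0 ≤ R) (hr : 0 < r) (hr1 : r ≤ 1) (D : ℕ) :
    ∀ (f : ℝ[X]) (δ : ℝ) (s : Finset ℝ), f.natDegree ≤ D → D < s.card →
      (∀ x ∈ s, |x| ≤ R) → (∀ x ∈ s, ∀ y ∈ s, x ≠ y → r ≤ |x - y|) → (∀ x ∈ s, |f.eval x| ≤ δ) →
      ∀ n, |f.coeff n| ≤ ((3 + 2 * R) / r) ^ D * δ := by
  induction D with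
  | zero =>
    intro f δ s hf hs _ _ hδ n
    obtain ⟨x, hx⟩ := Finset.card_pos.mp hs
    have h1 := Polynomial.eq_C_of_natDegree_le_zero hf
    have h2 := hδ x hx
    rw [h1, eval_C] at h2
    rw [h1, Polynomial.coeff_C, pow_zero, one_mul]
    split_ifs
    · exact h2
    · rw [abs_zero]
      exact (abs_nonneg _).trans h2
  | succ D ih =>
    intro f δ s hf hs hsR hsep hδ n
    obtain ⟨x, hx⟩ := Finset.card_pos.mp (Nat.zero_lt_of_lt hs)
    have hδ0 : 0 ≤ δ := (abs_nonneg _).trans (hδ x hx)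
    obtain ⟨g, hg⟩ := Polynomial.X_sub_C_dvd_sub_C_eval (a := x) (p := f)
    have hf2 : f = (X - C x) * g + C (f.eval x) := by rw [← hg]; ring
    have hgd : g.natDegree ≤ D := by
      by_contra hcon
      rw [not_le] at hcon
      have hg0 : g ≠ 0 := by
        rintro rfl
        rw [Polynomial.natDegree_zero] at hcon
        exact absurd hcon (Nat.not_lt_zero _)
      have h1 : (f - C (f.eval x)).natDegree = 1 + g.natDegree := by
        rw [hg, Polynomial.natDegree_mul (Polynomial.X_sub_C_ne_zero x) hg0,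
          Polynomial.natDegree_X_sub_C]
      have h2 : (f - C (f.eval x)).natDegree ≤ D + 1 := by
        refine (Polynomial.natDegree_sub_le _ _).trans ?_
        rw [Polynomial.natDegree_C]
        omega
      omega
    have h1 : ∀ y ∈ s.erase x, |g.eval y| ≤ 2 * δ / r := by
      intro y hy
      rw [Finset.mem_erase] at hy
      have h2 := hsep y hy.2 x hx hy.1
      have h3 : f.eval y = (y - x) * g.eval y + f.eval x := by
        conv_lhs => rw [hf2]
        rw [eval_add, eval_mul, eval_sub, eval_X, eval_C, eval_C]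
      have h4 : |y - x| * |g.eval y| ≤ 2 * δ := by
        rw [← abs_mul]
        have h5 : (y - x) * g.eval y = f.eval y - f.eval x := by rw [h3]; ring
        rw [h5]
        have h6 := abs_sub (f.eval y) (f.eval x)
        linarith [hδ y hy.2, hδ x hx]
      rw [le_div_iff₀ hr]
      have h5 := mul_le_mul_of_nonneg_right h2 (abs_nonneg (g.eval y))
      linarith
    have h2 := ih g (2 * δ / r) (s.erase x) hgd (by rw [Finset.card_erase_of_mem hx]; omega)
      (fun y hy => hsR y (Finset.mem_of_mem_erase hy))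
      (fun y hy z hz h => hsep y (Finset.mem_of_mem_erase hy) z (Finset.mem_of_mem_erase hz) h) h1
    obtain ⟨B, hB⟩ : ∃ B, B = ((3 + 2 * R) / r) ^ D * (2 * δ / r) := ⟨_, rfl⟩
    rw [← hB] at h2
    have hB0 : 0 ≤ B := (abs_nonneg _).trans (h2 0)
    have hq1 : 1 ≤ ((3 + 2 * R) / r) ^ D := by
      refine one_le_pow₀ ?_
      rw [le_div_iff₀ hr]
      linarith
    have h3 : ((3 + 2 * R) / r) ^ (D + 1) * δ = (1 + R) * B + δ * ((3 + 2 * R) / r) ^ D / r := by
      rw [hB, pow_succ]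
      field_simp
      ring
    have h4 : δ ≤ δ * ((3 + 2 * R) / r) ^ D / r := by
      rw [le_div_iff₀ hr]
      have h5 := mul_le_mul_of_nonneg_left hq1 hδ0
      have h6 := mul_le_mul_of_nonneg_left hr1 hδ0
      linarith
    have hx1 := hsR x hx
    have h7 : |x| * |g.coeff n| ≤ R * B := mul_le_mul hx1 (h2 n) (abs_nonneg _) hR
    rw [h3, hf2]
    rcases n with _ | n
    · rw [Polynomial.coeff_add, Polynomial.coeff_C_zero, sub_mul, Polynomial.coeff_sub,
        Polynomial.coeff_X_mul_zero, Polynomial.coeff_C_mul, zero_sub]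
      have h8 := abs_add_le (-(x * g.coeff 0)) (f.eval x)
      rw [abs_neg, abs_mul] at h8
      have h9 := hδ x hx
      linarith
    · rw [Polynomial.coeff_add, Polynomial.coeff_C_succ, add_zero, sub_mul, Polynomial.coeff_sub,
        Polynomial.coeff_X_mul, Polynomial.coeff_C_mul]
      have h8 := abs_sub (g.coeff n) (x * g.coeff (n + 1))
      rw [abs_mul] at h8
      have h9 := h2 n
      linarith

/-- The cells at which a polynomial of one variable with a big coefficient is small. -/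
theorem poly_cells {R : ℝ} (hR : 0 ≤ R) {D k : ℕ} {δ μ : ℝ}
    (hμ : ((3 + 2 * R) * 2 ^ k) ^ D * δ < μ) :
    ∀ f : ℝ[X], f.natDegree ≤ D → (∃ n, μ ≤ |f.coeff n|) →
      ∃ F : Finset ℤ, F.card ≤ 3 * D ∧ ∀ (x : ℝ) (e : ℤ), |x| ≤ R → |2 ^ k * x - e| ≤ 1 →
        |f.eval x| ≤ δ → e ∈ F := by
  classical
  intro f hf hbig
  obtain ⟨N, hN⟩ := exists_nat_ge ((2 : ℝ) ^ k * R + 1)
  refine ⟨(Finset.Icc (-(N : ℤ)) N).filter
    (fun e : ℤ => ∃ x : ℝ, |x| ≤ R ∧ |2 ^ k * x - e| ≤ 1 ∧ |f.eval x| ≤ δ), ?_, ?_⟩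
  · by_contra hcon
    rw [not_le] at hcon
    obtain ⟨F, hF⟩ : ∃ F, F = (Finset.Icc (-(N : ℤ)) N).filter
      (fun e : ℤ => ∃ x : ℝ, |x| ≤ R ∧ |2 ^ k * x - e| ≤ 1 ∧ |f.eval x| ≤ δ) := ⟨_, rfl⟩
    rw [← hF] at hcon
    obtain ⟨a, ha, ha2⟩ := Finset.exists_lt_card_fiber_of_mul_lt_card_of_maps_to
      (s := F) (t := Finset.Ico (0 : ℤ) 3) (f := fun e => e % 3) (n := D)
      (fun e _ => by
        rw [Finset.mem_Ico]
        exact ⟨Int.emod_nonneg _ (by norm_num), Int.emod_lt_of_pos _ (by norm_num)⟩)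
      (by rw [Int.card_Ico]; norm_num; exact hcon)
    have hch : ∀ e ∈ F.filter (fun e => e % 3 = a), ∃ x : ℝ, |x| ≤ R ∧ |2 ^ k * x - e| ≤ 1 ∧
        |f.eval x| ≤ δ := by
      intro e he
      rw [Finset.mem_filter, hF, Finset.mem_filter] at he
      exact he.1.2
    choose! x hx using hch
    have hsep : ∀ e ∈ F.filter (fun e => e % 3 = a), ∀ e' ∈ F.filter (fun e => e % 3 = a), e ≠ e' →
        1 / 2 ^ k ≤ |x e - x e'| := by
      intro e he e' he' hne
      have h1 := (hx e he).2.1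
      have h2 := (hx e' he').2.1
      rw [Finset.mem_filter] at he he'
      have h3 : (3 : ℤ) ≤ |e - e'| := by
        have h4 : (3 : ℤ) ∣ e - e' := Int.ModEq.dvd (he'.2.trans he.2.symm)
        exact Int.le_of_dvd (abs_pos.mpr (sub_ne_zero.mpr hne)) ((dvd_abs _ _).mpr h4)
      have h4 : (3 : ℝ) ≤ |(e : ℝ) - e'| := by exact_mod_cast h3
      have h5 : |2 ^ k * x e - 2 ^ k * x e'| = 2 ^ k * |x e - x e'| := by
        rw [← mul_sub, abs_mul, abs_of_pos (by positivity : (0 : ℝ) < 2 ^ k)]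
      have h6 : |(e : ℝ) - e'| ≤ |2 ^ k * x e - e| + |2 ^ k * x e - 2 ^ k * x e'| +
          |2 ^ k * x e' - e'| := by
        have h7 : (e : ℝ) - e' = -(2 ^ k * x e - e) + (2 ^ k * x e - 2 ^ k * x e') +
          (2 ^ k * x e' - e') := by ring
        rw [h7]
        refine (abs_add_le _ _).trans ?_
        have h8 := abs_add_le (-(2 ^ k * x e - (e : ℝ))) (2 ^ k * x e - 2 ^ k * x e')
        rw [abs_neg] at h8
        linarith
      rw [div_le_iff₀ (by positivity : (0 : ℝ) < 2 ^ k)]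
      rw [h5] at h6
      linarith
    have hinj : Set.InjOn x (F.filter (fun e => e % 3 = a) : Finset ℤ) := by
      intro e he e' he' hxx
      by_contra hne
      have h1 := hsep e he e' he' hne
      rw [hxx, sub_self, abs_zero] at h1
      have h2 : (0 : ℝ) < 1 / 2 ^ k := by positivity
      linarith
    obtain ⟨n, hn⟩ := hbig
    have hfin := poly_pts hR (r := 1 / 2 ^ k) (by positivity)
      (by rw [div_le_one (by positivity)]; exact one_le_pow₀ (by norm_num)) D f δ
      ((F.filter (fun e => e % 3 = a)).image x) hf (by rw [Finset.card_image_of_injOn hinj]; exact ha2)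
      (fun y hy => by
        obtain ⟨e, he, rfl⟩ := Finset.mem_image.mp hy
        exact (hx e he).1)
      (fun y hy z hz hyz => by
        obtain ⟨e, he, rfl⟩ := Finset.mem_image.mp hy
        obtain ⟨e', he', rfl⟩ := Finset.mem_image.mp hz
        exact hsep e he e' he' (fun h => hyz (by rw [h])))
      (fun y hy => by
        obtain ⟨e, he, rfl⟩ := Finset.mem_image.mp hy
        exact (hx e he).2.2) n
    have h8 : (3 + 2 * R) / (1 / 2 ^ k) = (3 + 2 * R) * 2 ^ k := by
      rw [div_div_eq_mul_div, div_one]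
    rw [h8] at hfin
    linarith
  · intro x e hx he hfx
    rw [Finset.mem_filter, Finset.mem_Icc]
    refine ⟨?_, x, hx, he, hfx⟩
    have h1 : |(e : ℝ)| ≤ N := by
      have h2 : (e : ℝ) = 2 ^ k * x - (2 ^ k * x - e) := by ring
      have h3 : |2 ^ k * x| ≤ 2 ^ k * R := by
        rw [abs_mul, abs_of_pos (by positivity : (0 : ℝ) < 2 ^ k)]
        exact mul_le_mul_of_nonneg_left hx (by positivity)
      rw [h2]
      have h4 := abs_sub (2 ^ k * x) (2 ^ k * x - e)
      linarith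
    have h2 : |e| ≤ (N : ℤ) := by exact_mod_cast h1
    exact abs_le.mp h2

end

section

variable {Ω : Type} [Fintype Ω] {S T V : Type}

/-- **Reading a variable in small sets.** -/
theorem read_cov {p : Ω → ℝ} (hp : IsLaw p) (E : Ω → V) (W : Ω → S) (Z : Ω → T) (G : Ω → Prop)
    (F : S → T → Finset V) (K : ℕ) {c i r : ℝ} (hc : 0 < c)
    (hI : CH p E Z - i ≤ CH p E (fun ω => (W ω, Z ω)))
    (hE : c ≤ law p G True → r ≤ CH (cond p G True) E Z)
    (hF : ∀ ω, 0 < p ω → G ω → E ω ∈ F (W ω) (Z ω) ∧ (F (W ω) (Z ω)).card ≤ K)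
    (hn : (i + Real.log 2) / c + Real.log K < r) : law p G True < c := by
  by_contra hcon
  rw [not_lt] at hcon
  have hG0 : 0 < law p G True := hc.trans_le hcon
  have hq : IsLaw (cond p G True) := ⟨cond_nonneg hp.nonneg G True, sum_cond p G hG0.ne'⟩
  have h1 := hE hcon
  have h2 := mi_ev hp E W Z G hc hI hcon
  have h3 := CH_card hq E (fun ω => (W ω, Z ω)) (fun z => F z.1 z.2) K
    (fun ω hω => by
      have h4 := (cond_pos_iff hp.nonneg G True ω).mp hω
      exact (hF ω h4.1 (by rw [h4.2]; trivial)).1)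
    (fun ω hω => by
      have h4 := (cond_pos_iff hp.nonneg G True ω).mp hω
      exact (hF ω h4.1 (by rw [h4.2]; trivial)).2)
  linarith

open Polynomial in
/-- **Reading a polynomial.** `E` real with cells `e` of side `2^-k`, of positive rate given `Z` on the
event; the coefficients of the polynomial are functions of `(W, Z)`, where `W` has little information
about `e`. -/
theorem read_poly {p : Ω → ℝ} (hp : IsLaw p) (E : Ω → ℝ) (e : Ω → ℤ) (W : Ω → S) (Z : Ω → T)
    (G : Ω → Prop) (f : S → T → ℝ[X]) {D k : ℕ} {R δ μ c i r : ℝ} (hR : 0 ≤ R) (hc : 0 < c)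
    (hμ : ((3 + 2 * R) * 2 ^ k) ^ D * δ < μ)
    (hI : CH p e Z - i ≤ CH p e (fun ω => (W ω, Z ω)))
    (hE : c ≤ law p G True → r ≤ CH (cond p G True) e Z)
    (hcell : ∀ ω, 0 < p ω → G ω → |E ω| ≤ R ∧ |2 ^ k * E ω - e ω| ≤ 1)
    (hf : ∀ ω, 0 < p ω → G ω → (f (W ω) (Z ω)).natDegree ≤ D ∧ |(f (W ω) (Z ω)).eval (E ω)| ≤ δ ∧
      ∃ n, μ ≤ |(f (W ω) (Z ω)).coeff n|)
    (hn : (i + Real.log 2) / c + Real.log (3 * D : ℕ) < r) : law p G True < c := by
  classical
  obtain ⟨F, hF⟩ : ∃ F : ℝ[X] → Finset ℤ, ∀ g : ℝ[X], g.natDegree ≤ D → (∃ n, μ ≤ |g.coeff n|) →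
      (F g).card ≤ 3 * D ∧ ∀ (x : ℝ) (e : ℤ), |x| ≤ R → |2 ^ k * x - e| ≤ 1 → |g.eval x| ≤ δ →
        e ∈ F g := by
    have h1 : ∀ g : ℝ[X], ∃ F : Finset ℤ, g.natDegree ≤ D → (∃ n, μ ≤ |g.coeff n|) →
        F.card ≤ 3 * D ∧ ∀ (x : ℝ) (e : ℤ), |x| ≤ R → |2 ^ k * x - e| ≤ 1 → |g.eval x| ≤ δ →
          e ∈ F := by
      intro g
      by_cases h : g.natDegree ≤ D ∧ (∃ n, μ ≤ |g.coeff n|)
      · obtain ⟨F, hF⟩ := poly_cells hR hμ g h.1 h.2
        exact ⟨F, fun _ _ => hF⟩
      · exact ⟨∅, fun h1 h2 => absurd ⟨h1, h2⟩ h⟩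
    choose F hF using h1
    exact ⟨F, hF⟩
  refine read_cov hp e W Z G (fun s t => F (f s t)) (3 * D) hc hI hE (fun ω h0 hG => ?_) hn
  obtain ⟨h1, h2, h3⟩ := hf ω h0 hG
  obtain ⟨h4, h5⟩ := hcell ω h0 hG
  obtain ⟨h6, h7⟩ := hF _ h1 h3
  exact ⟨h7 _ _ h4 h5 h2, h6⟩

open Polynomial in
/-- The same with the conclusion in the form `all coefficients are small outside a small event'. -/
theorem read_poly' {p : Ω → ℝ} (hp : IsLaw p) (E : Ω → ℝ) (e : Ω → ℤ) (W : Ω → S) (Z : Ω → T)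
    (H : Ω → Prop) (f : S → T → ℝ[X]) {D k : ℕ} {R δ μ c i r : ℝ} (hR : 0 ≤ R) (hc : 0 < c)
    (hμ : ((3 + 2 * R) * 2 ^ k) ^ D * δ < μ)
    (hI : CH p e Z - i ≤ CH p e (fun ω => (W ω, Z ω)))
    (hE : ∀ G : Ω → Prop, c ≤ law p G True → r ≤ CH (cond p G True) e Z)
    (hcell : ∀ ω, 0 < p ω → H ω → |E ω| ≤ R ∧ |2 ^ k * E ω - e ω| ≤ 1)
    (hf : ∀ ω, 0 < p ω → H ω → (f (W ω) (Z ω)).natDegree ≤ D ∧
      |(f (W ω) (Z ω)).eval (E ω)| ≤ δ)
    (hn : (i + Real.log 2) / c + Real.log (3 * D : ℕ) < r) :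
    law p (fun ω => H ω ∧ ∃ n, μ ≤ |(f (W ω) (Z ω)).coeff n|) True < c :=
  read_poly hp E e W Z _ f hR hc hμ hI (hE _) (fun ω h0 hG => hcell ω h0 hG.1)
    (fun ω h0 hG => ⟨(hf ω h0 hG.1).1, (hf ω h0 hG.1).2, hG.2⟩) hn

end

end Pool.D2P
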