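import Pool.Agent.H28.D2.Geo

/-!
# The shear of the target by the other coordinates

`Dat.shr`: the data with the own path of the target sheared by a combination of the own paths of
the other coordinates; the geometric data of a record and of the hop do not change.
-/

set_option autoImplicit false

namespace Pool.D2F2

open Finset Real MvPolynomial
open Pool.Agent.H49.Ent Pool.Agent.H32.Dense Pool.STK Pool.KA Pool.KSAT Pool.K2S Pool.PB Pool.GEN
open Pool.S6C Pool.LA91
open Pool.OWN68 (opl tw uw natDegree_opl opl_jet uw_abs)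

variable {m J : ℕ}

section shr

variable {F : Fam m J} {κ : Type} {r D : ℕ}

/-- **The shear of the target** by a combination of the other coordinates. -/
noncomputable def Dat.shr (d : Dat F κ r D) (τ : κ → ℕ → ℝ) : Dat F κ r D where
  fc := d.fc
  P := fun l s => if l < r then d.P l s else
    d.P l s - ∑ i ∈ range r, Polynomial.C (τ (d.fc s) i) * d.P i s
  gp := fun l s => d.gp l s - Polynomial.C (τ (d.fc s) l)
  SV := d.SV
  SE := d.SE
  SG := d.SG
  P1 := fun l s => by
    split_ifs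
    · exact d.P1 l s
    · refine (Polynomial.natDegree_sub_le _ _).trans (max_le (d.P1 l s) ?_)
      exact Polynomial.natDegree_sum_le_of_forall_le _ _ fun i _ =>
        (Polynomial.natDegree_C_mul_le _ _).trans (d.P1 i s)
  gD := fun l s => (Polynomial.natDegree_sub_le _ _).trans (max_le (d.gD l s) (by
    rw [Polynomial.natDegree_C]
    exact Nat.zero_le _))

variable (d : Dat F κ r D) (τ : κ → ℕ → ℝ) {W : ℕ}

theorem Dat.shr_P {l : ℕ} (hl : l < r) (s : LnT F) : (d.shr τ).P l s = d.P l s := if_pos hl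

theorem Dat.shr_Pr (s : LnT F) : (d.shr τ).P r s =
    d.P r s - ∑ i ∈ range r, Polynomial.C (τ (d.fc s) i) * d.P i s := if_neg (lt_irrefl r)

theorem Dat.shr_v {l : ℕ} (hl : l < r) (ω : F.Ω) : (d.shr τ).v W l ω = d.v W l ω := by
  unfold Dat.v
  rw [d.shr_P τ hl]

theorem Dat.shr_e {l : ℕ} (hl : l < r) (ω : F.Ω) : (d.shr τ).e W l ω = d.e W l ω := by
  unfold Dat.e
  rw [d.shr_P τ hl]

theorem Dat.shr_vr (ω : F.Ω) : (d.shr τ).v W r ω =
    d.v W r ω - ∑ i ∈ range r, τ (d.fc (slam F W ω)) i * d.v W i ω := by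
  unfold Dat.v
  rw [d.shr_Pr τ, Polynomial.eval_sub, Polynomial.eval_finsetSum]
  congr 1
  exact Finset.sum_congr rfl fun i _ => by rw [Polynomial.eval_mul, Polynomial.eval_C]

theorem Dat.shr_er (ω : F.Ω) : (d.shr τ).e W r ω =
    d.e W r ω - ∑ i ∈ range r, τ (d.fc (slam F W ω)) i * d.e W i ω := by
  unfold Dat.e
  rw [d.shr_Pr τ, Polynomial.coeff_sub, Polynomial.finsetSum_coeff]
  congr 1
  exact Finset.sum_congr rfl fun i _ => by rw [Polynomial.coeff_C_mul]

theorem Dat.shr_g (l : ℕ) (s : LnT F) (u : ℝ) :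
    ((d.shr τ).gp l s).eval u = (d.gp l s).eval u - τ (d.fc s) l := by
  change (d.gp l s - Polynomial.C (τ (d.fc s) l)).eval u = _
  rw [Polynomial.eval_sub, Polynomial.eval_C]

theorem Dat.shr_dg (l : ℕ) (s : LnT F) :
    ((d.shr τ).gp l s).derivative = (d.gp l s).derivative := by
  change (d.gp l s - Polynomial.C (τ (d.fc s) l)).derivative = _
  rw [Polynomial.derivative_sub, Polynomial.derivative_C, sub_zero]

theorem Dat.shr_cof (l : ℕ) (s : LnT F) {j : ℕ} (hj : 1 ≤ j) :
    ((d.shr τ).gp l s).coeff j = (d.gp l s).coeff j := by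
  change (d.gp l s - Polynomial.C (τ (d.fc s) l)).coeff j = _
  rw [Polynomial.coeff_sub, Polynomial.coeff_C, if_neg (by omega), sub_zero]

theorem Dat.shr_cof0 (l : ℕ) (s : LnT F) :
    ((d.shr τ).gp l s).coeff 0 = (d.gp l s).coeff 0 - τ (d.fc s) l := by
  change (d.gp l s - Polynomial.C (τ (d.fc s) l)).coeff 0 = _
  rw [Polynomial.coeff_sub, Polynomial.coeff_C, if_pos rfl]

variable {d} {A : F.Ω → Prop} {σ : ℝ} {K Q : ℕ} {γ : Type} {Y : F.Ω → γ}

/-- The geometric data of a record do not change. -/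
theorem HopP.shr (H : HopP d A W σ K Y) (τ : κ → ℕ → ℝ) : HopP (d.shr τ) A W σ K Y where
  hW := H.hW
  SV0 := H.SV0
  SG0 := H.SG0
  SVE := H.SVE
  σ0 := H.σ0
  σG := H.σG
  TZ := H.TZ
  pos := fun ω ω' hω hω' e l hl => by
    rw [d.shr_v τ hl, d.shr_v τ hl]
    exact H.pos ω ω' hω hω' e l hl
  vel := fun ω ω' hω hω' e l hl => by
    rw [d.shr_e τ hl, d.shr_e τ hl]
    exact H.vel ω ω' hω hω' e l hl
  grd := fun ω ω' hω hω' e l hl j hj => by
    have h1 := H.grd ω ω' hω hω' e l hl j hj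
    have e1 : ((d.shr τ).gp l (slam F W ω)).coeff j - ((d.shr τ).gp l (slam F W ω')).coeff j =
        (d.gp l (slam F W ω)).coeff j - (d.gp l (slam F W ω')).coeff j := by
      rcases Nat.eq_zero_or_pos j with h | h
      · rw [h, d.shr_cof0, d.shr_cof0, (H.TZ ω ω' hω hω' e).2.2]
        ring
      · rw [d.shr_cof τ l _ h, d.shr_cof τ l _ h]
    rw [e1]
    exact h1
  hei := fun ω ω' hω hω' e => by
    have h1 := H.hei ω ω' hω hω' e
    have hf := (H.TZ ω ω' hω hω' e).2.2
    have e1 : ((d.shr τ).v W r ω' - (d.shr τ).v W r ω) - ∑ l ∈ range r,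
        ((d.shr τ).gp l (slam F W ω)).eval (uw F W ω) *
          ((d.shr τ).v W l ω' - (d.shr τ).v W l ω) =
        (d.v W r ω' - d.v W r ω) - ∑ l ∈ range r,
        (d.gp l (slam F W ω)).eval (uw F W ω) * (d.v W l ω' - d.v W l ω) := by
      have e2 : ∑ l ∈ range r, ((d.shr τ).gp l (slam F W ω)).eval (uw F W ω) *
          ((d.shr τ).v W l ω' - (d.shr τ).v W l ω) =
          ∑ l ∈ range r, (d.gp l (slam F W ω)).eval (uw F W ω) * (d.v W l ω' - d.v W l ω) -
          (∑ l ∈ range r, τ (d.fc (slam F W ω)) l * d.v W l ω' -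
            ∑ l ∈ range r, τ (d.fc (slam F W ω)) l * d.v W l ω) := by
        rw [← Finset.sum_sub_distrib, ← Finset.sum_sub_distrib]
        refine Finset.sum_congr rfl fun l hl => ?_
        have hl' := Finset.mem_range.1 hl
        rw [d.shr_v τ hl', d.shr_v τ hl', d.shr_g]
        ring
      rw [e2, d.shr_vr, d.shr_vr, ← hf]
      ring
    rw [e1]
    exact h1

/-- The geometric data of the hop do not change. -/
theorem HopN.shr (H : HopN d A W Q σ K Y) (τ : κ → ℕ → ℝ) : HopN (d.shr τ) A W Q σ K Y where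
  toHopP := H.toHopP.shr τ
  nco := fun ω hω l hl j hj => by
    rw [d.shr_cof τ l _ hj]
    exact H.nco ω hω l hl j hj
  nvl := fun ω ω' hω hω' e => by
    have h1 := H.nvl ω ω' hω hω' e
    have hf := (H.TZ ω ω' hω hω' e).2.2
    have e1 : ((d.shr τ).e W r ω' - (d.shr τ).e W r ω) - ∑ l ∈ range r,
        (((d.shr τ).gp l (slam F W ω)).derivative.eval (uw F W ω) *
            ((d.shr τ).v W l ω' - (d.shr τ).v W l ω) +
          ((d.shr τ).gp l (slam F W ω)).eval (uw F W ω) *
            ((d.shr τ).e W l ω' - (d.shr τ).e W l ω)) =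
        (d.e W r ω' - d.e W r ω) - ∑ l ∈ range r,
        ((d.gp l (slam F W ω)).derivative.eval (uw F W ω) * (d.v W l ω' - d.v W l ω) +
          (d.gp l (slam F W ω)).eval (uw F W ω) * (d.e W l ω' - d.e W l ω)) := by
      have e2 : ∑ l ∈ range r, (((d.shr τ).gp l (slam F W ω)).derivative.eval (uw F W ω) *
            ((d.shr τ).v W l ω' - (d.shr τ).v W l ω) +
          ((d.shr τ).gp l (slam F W ω)).eval (uw F W ω) *
            ((d.shr τ).e W l ω' - (d.shr τ).e W l ω)) =
          ∑ l ∈ range r, ((d.gp l (slam F W ω)).derivative.eval (uw F W ω) *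
            (d.v W l ω' - d.v W l ω) +
          (d.gp l (slam F W ω)).eval (uw F W ω) * (d.e W l ω' - d.e W l ω)) -
          (∑ l ∈ range r, τ (d.fc (slam F W ω)) l * d.e W l ω' -
            ∑ l ∈ range r, τ (d.fc (slam F W ω)) l * d.e W l ω) := by
        rw [← Finset.sum_sub_distrib, ← Finset.sum_sub_distrib]
        refine Finset.sum_congr rfl fun l hl => ?_
        have hl' := Finset.mem_range.1 hl
        rw [d.shr_v τ hl', d.shr_v τ hl', d.shr_e τ hl', d.shr_e τ hl', d.shr_g, d.shr_dg]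
        ring
      rw [e2, d.shr_er, d.shr_er, ← hf]
      ring
    rw [e1]
    exact h1

end shr

end Pool.D2F2
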