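import Pool.Agent.H28.D2.FrR

/-!
# The frame with a weighted bound

`FrW`: the own paths of the context are the coordinates `c l` in a frame, with the bound
`2 ^ w l * |φ j| ≤ E₀ * 2 ^ J` on the slopes: what is needed at the digit `w l` of the place `l`.
`FrD.toW`: the bound `|φ j| ≤ E₀` is a special case.
-/

set_option autoImplicit false

namespace Pool.D2F2

open Finset Real MvPolynomial
open Pool.Agent.H49.Ent Pool.Agent.H32.Dense Pool.STK Pool.KA Pool.KSAT Pool.K2S Pool.PB Pool.GEN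
open Pool.S6C Pool.LA91
open Pool.D2H (of_floor_mul)

variable {m J : ℕ}

/-- **The frame of the own paths, weighted.** -/
structure FrW {F : Fam m J} {κ : Type} {r D : ℕ} (d : Dat F κ r D) (A : F.Ω → Prop) (W : ℕ)
    (c : ℕ → Fin m) (w : ℕ → ℕ) (E₀ : ℕ) : Prop where
  frm : ∀ ω ω', A ω → A ω' → F.T ω = F.T ω' → d.fc (slam F W ω) = d.fc (slam F W ω') →
    ∀ l ≤ r, ∃ φ : ℕ → ℝ, (∀ j < l, 2 ^ w l * |φ j| ≤ E₀ * 2 ^ J) ∧
      d.v W l ω' - d.v W l ω = (F.x ω' (c l) - F.x ω (c l)) -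
        ∑ j ∈ range l, φ j * (F.x ω' (c j) - F.x ω (c j))

section

variable {F : Fam m J} {κ : Type} {r D : ℕ} {d : Dat F κ r D} {A B : F.Ω → Prop} {W : ℕ}
  {c : ℕ → Fin m} {w : ℕ → ℕ} {E₀ : ℕ}

theorem FrW.sub (H : FrW d A W c w E₀) (hB : Sub B A) : FrW d B W c w E₀ :=
  ⟨fun ω ω' h h' => H.frm ω ω' (hB ω h) (hB ω' h')⟩

/-- Smaller weights. -/
theorem FrW.mono (H : FrW d A W c w E₀) {w' : ℕ → ℕ} (hw : ∀ l ≤ r, w' l ≤ w l) {E₁ : ℕ}
    (hE : E₀ ≤ E₁) : FrW d A W c w' E₁ := by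
  refine ⟨fun ω ω' h h' hT hf l hl => ?_⟩
  obtain ⟨φ, p1, p2⟩ := H.frm ω ω' h h' hT hf l hl
  refine ⟨φ, fun j hj => ?_, p2⟩
  refine (mul_le_mul_of_nonneg_right (pow_le_pow_right₀ (by norm_num) (hw l hl))
    (abs_nonneg _)).trans ((p1 j hj).trans ?_)
  exact mul_le_mul_of_nonneg_right (by exact_mod_cast hE) (by positivity)

/-- The plain bound is a special case. -/
theorem FrD.toW (H : FrD d A W c E₀) (hw : ∀ l ≤ r, w l ≤ J) : FrW d A W c w E₀ := by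
  refine ⟨fun ω ω' h h' hT hf l hl => ?_⟩
  obtain ⟨φ, p1, p2⟩ := H.frm ω ω' h h' hT hf l hl
  refine ⟨φ, fun j hj => ?_, p2⟩
  have h1 : (2 : ℝ) ^ w l * |φ j| ≤ 2 ^ J * E₀ :=
    mul_le_mul (pow_le_pow_right₀ (by norm_num) (hw l hl)) (p1 j hj) (abs_nonneg _)
      (by positivity)
  linarith

/-- **The coordinate of the frame and the coordinate.** -/
theorem FrW.dif (H : FrW d A W c w E₀) {l u : ℕ} (hl : l ≤ r) (hu : u ≤ w l) {ω ω' : F.Ω}
    (hω : A ω) (hω' : A ω') (hT : F.T ω = F.T ω')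
    (hf : d.fc (slam F W ω) = d.fc (slam F W ω'))
    (hx : ∀ j < l, F.X J ω (c j) = F.X J ω' (c j)) :
    |(2 : ℝ) ^ u * ((d.v W l ω - d.v W l ω') - (F.x ω (c l) - F.x ω' (c l)))| ≤
      ((r * E₀ : ℕ) : ℝ) := by
  have hE0 : (0 : ℝ) ≤ E₀ := Nat.cast_nonneg _
  have hJ0 : (0 : ℝ) < 2 ^ J := by positivity
  have hu0 : (0 : ℝ) < 2 ^ u := by positivity
  obtain ⟨φ, p1, p2⟩ := H.frm ω' ω hω' hω hT.symm hf.symm l hl
  have e1 : (d.v W l ω - d.v W l ω') - (F.x ω (c l) - F.x ω' (c l)) =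
      -(∑ j ∈ range l, φ j * (F.x ω (c j) - F.x ω' (c j))) := by
    rw [p2]
    ring
  rw [e1, mul_neg, abs_neg, Finset.mul_sum]
  have key : ∀ j ∈ range l, |(2 : ℝ) ^ u * (φ j * (F.x ω (c j) - F.x ω' (c j)))| ≤ E₀ := by
    intro j hj
    have hj' := Finset.mem_range.1 hj
    have q1 : |F.x ω (c j) - F.x ω' (c j)| ≤ 1 / 2 ^ J := of_floor_mul hJ0 (hx j hj')
    have q2 : (2 : ℝ) ^ u * |φ j| ≤ E₀ * 2 ^ J :=
      (mul_le_mul_of_nonneg_right (pow_le_pow_right₀ (by norm_num) hu) (abs_nonneg _)).trans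
        (p1 j hj')
    rw [← mul_assoc, abs_mul, abs_mul, abs_of_pos hu0]
    calc (2 : ℝ) ^ u * |φ j| * |F.x ω (c j) - F.x ω' (c j)| ≤ E₀ * 2 ^ J * (1 / 2 ^ J) :=
          mul_le_mul q2 q1 (abs_nonneg _) (by positivity)
      _ = E₀ := by field_simp
  refine (Finset.abs_sum_le_sum_abs _ _).trans ((Finset.sum_le_sum key).trans ?_)
  rw [Finset.sum_const, Finset.card_range, nsmul_eq_mul]
  push_cast
  exact mul_le_mul_of_nonneg_right (by exact_mod_cast hl) hE0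

end

end Pool.D2F2
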