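import Pool.Agent.H28.D2.FrR
import Pool.Agent.H4.D2.Frw

/-!
# The rows of the target over the near digits of the frame coordinates

`oth_few`: the frame digits (to `u l`), the code of the frame and the digits behind `u l` determine
the exact other coordinates up to few values. `stg_rows`: the rows of the target given the frame
digits to `u l`, from the rows given all the digits of the other coordinates and from the fullness
of all the digits of the other coordinates behind `o l` given a record.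
-/

set_option autoImplicit false

namespace Pool.D2F2

open Finset Real MvPolynomial
open Pool.Agent.H49.Ent Pool.Agent.H32.Dense Pool.STK Pool.KA Pool.KSAT Pool.K2S Pool.PB Pool.GEN
open Pool.S6C Pool.LA91
open Pool.OWN68 (opl tw uw CH_pair CH_pis natDegree_opl opl_jet uw_abs tw_abs floor_sub_le
  of_floor_div nf_swap CH_le_Hu)
open Pool.GEN.N83 (oth)
open Pool.D2H (of_floor_mul eval_small uw_eq CH_step Vdg H_Vdg CH_pi_le)

variable {m J : ℕ}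

section

variable {F : Fam m J} {κ : Type} {r D : ℕ} {d : Dat F κ r D} {A : F.Ω → Prop} {W : ℕ}
  {c : ℕ → Fin m} {E₀ : ℕ} {w : ℕ → ℕ}

/-- The frame digits, the code of the frame and the digits behind determine the exact first
coordinates up to few values. -/
theorem vx_few_n_w (hF : FrW d A W c w E₀) {n : ℕ} (hnr : n ≤ r) {u : ℕ → ℕ}
    (hu : ∀ l < n, u l ≤ J) (hw : ∀ l < n, u l ≤ w l)
    {p : F.Ω → ℝ} (hp : IsLaw p) (hpA : ∀ ω, 0 < p ω → A ω) {γ : Type}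
    (Z : F.Ω → γ) (hZ : ∀ ω ω', 0 < p ω → 0 < p ω' → Z ω = Z ω' → F.T ω = F.T ω' ∧
      d.fc (slam F W ω) = d.fc (slam F W ω') ∧
      (∀ l < n, ⌊(2 : ℝ) ^ u l * d.v W l ω⌋ = ⌊(2 : ℝ) ^ u l * d.v W l ω'⌋) ∧
      ∀ l < n, F.X J ω (c l) % 2 ^ (J - u l) = F.X J ω' (c l) % 2 ^ (J - u l)) :
    CH p (fun ω (l : Fin n) => F.X J ω (c l)) Z ≤ n * Real.log (2 * (2 + r * E₀ : ℕ) + 1) := by
  have h0 := hp.nonneg
  have hE0 : (0 : ℝ) ≤ E₀ := Nat.cast_nonneg _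
  have hJ0 : (0 : ℝ) < 2 ^ J := by positivity
  have hcast : (((2 + r * E₀ : ℕ)) : ℝ) = 2 + r * E₀ := by push_cast; ring
  -- one step
  have step : ∀ l < n, CH p (fun ω => F.X J ω (c l))
      (fun ω => ((fun j : Fin l => F.X J ω (c j)), Z ω)) ≤
      Real.log (2 * (2 + r * E₀ : ℕ) + 1) := by
    intro l hln
    have hl : l < r := by omega
    refine CH_mod (n := 2 ^ (J - u l)) hp _ _ fun ω ω' hω hω' e => ?_
    obtain ⟨e0, ez⟩ := Prod.ext_iff.1 e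
    dsimp only at e0 ez
    obtain ⟨hT, hfc', e2, e3⟩ := hZ ω ω' hω hω' ez
    have e4 := e3 l hln
    refine ⟨e4, ?_⟩
    have hfc : d.fc (slam F W ω') = d.fc (slam F W ω) := hfc'.symm
    have f5 : |d.v W l ω - d.v W l ω'| ≤ 1 / 2 ^ u l :=
      of_floor_mul (by positivity : (0 : ℝ) < 2 ^ u l) (e2 l hln)
    -- the coordinate
    have f6 : |(2 : ℝ) ^ u l * (F.x ω (c l) - F.x ω' (c l))| ≤ 1 + r * E₀ := by
      have p3 := hF.dif hl.le (hw l hln) (hpA ω hω) (hpA ω' hω') hT hfc'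
        fun j hj => congrFun e0 ⟨j, hj⟩
      have p4 : |(2 : ℝ) ^ u l * (d.v W l ω - d.v W l ω')| ≤ 1 := by
        rw [abs_mul, abs_of_pos (by positivity : (0 : ℝ) < 2 ^ u l)]
        refine (mul_le_mul_of_nonneg_left f5 (by positivity)).trans (le_of_eq ?_)
        field_simp
      push_cast at p3
      rw [abs_le] at p3 p4 ⊢
      constructor <;> linarith [p3.1, p3.2, p4.1, p4.2]
    have h2p : (1 : ℝ) ≤ 2 ^ (J - u l) := one_le_pow₀ (by norm_num)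
    have f7 : |((F.X J ω (c l) - F.X J ω' (c l) : ℤ) : ℝ)| ≤ 2 ^ (J - u l) * (2 + r * E₀) := by
      have c1 := Int.floor_le ((2 : ℝ) ^ J * F.x ω (c l))
      have c2 := Int.lt_floor_add_one ((2 : ℝ) ^ J * F.x ω (c l))
      have c3 := Int.floor_le ((2 : ℝ) ^ J * F.x ω' (c l))
      have c4 := Int.lt_floor_add_one ((2 : ℝ) ^ J * F.x ω' (c l))
      have c5 : F.X J ω (c l) = ⌊(2 : ℝ) ^ J * F.x ω (c l)⌋ := rfl
      have c6 : F.X J ω' (c l) = ⌊(2 : ℝ) ^ J * F.x ω' (c l)⌋ := rfl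
      have c7 : |(2 : ℝ) ^ J * F.x ω (c l) - 2 ^ J * F.x ω' (c l)| ≤
          2 ^ (J - u l) * (1 + r * E₀) := by
        have h8 : (2 : ℝ) ^ J = 2 ^ (J - u l) * 2 ^ u l := by
          rw [← pow_add]
          congr 1
          have := hu l hln
          omega
        rw [← mul_sub, h8, mul_assoc, abs_mul,
          abs_of_pos (by positivity : (0 : ℝ) < 2 ^ (J - u l))]
        exact mul_le_mul_of_nonneg_left f6 (by positivity)
      rw [c5, c6]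
      push_cast
      have c9 : (2 : ℝ) ^ (J - u l) * (2 + r * E₀) =
          2 ^ (J - u l) * (1 + r * E₀) + 2 ^ (J - u l) := by ring
      rw [c9]
      rw [abs_le] at c7 ⊢
      constructor <;> linarith [c7.1, c7.2]
    -- the quotient
    have f8 : F.X J ω (c l) - F.X J ω' (c l) =
        2 ^ (J - u l) * (F.X J ω (c l) / 2 ^ (J - u l) - F.X J ω' (c l) / 2 ^ (J - u l)) := by
      have a1 := Int.emod_add_mul_ediv (F.X J ω (c l)) (2 ^ (J - u l))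
      have a2 := Int.emod_add_mul_ediv (F.X J ω' (c l)) (2 ^ (J - u l))
      linarith
    rw [f8] at f7
    push_cast at f7
    rw [abs_mul, abs_of_pos (by positivity : (0 : ℝ) < 2 ^ (J - u l))] at f7
    have f9 := le_of_mul_le_mul_left f7 (by positivity)
    rw [← hcast] at f9
    exact_mod_cast f9
  -- all coordinates
  have key : ∀ n' ≤ n, CH p (fun ω (l : Fin n') => F.X J ω (c l)) Z ≤
      n' * Real.log (2 * (2 + r * E₀ : ℕ) + 1) := by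
    intro n'
    induction n' with
    | zero =>
      intro _
      rw [CH_eq_zero h0 (fun ω ω' _ _ _ => _root_.funext fun l => l.elim0)]
      simp
    | succ n' ih =>
      intro hn
      have h1 := ih (by omega)
      have h2 := step n' (by omega)
      have h3 := CH_chain h0 (fun ω => F.X J ω (c n')) (fun ω (l : Fin n') => F.X J ω (c l)) Z
      have h4 : CH p (fun ω (l : Fin (n' + 1)) => F.X J ω (c l)) Z ≤
          CH p (fun ω => (F.X J ω (c n'), fun l : Fin n' => F.X J ω (c l))) Z := by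
        refine CH_mono_left h0 fun ω ω' _ _ e => _root_.funext fun l => ?_
        simp only [Prod.mk.injEq] at e
        rcases Nat.lt_succ_iff_lt_or_eq.1 l.2 with h5 | h5
        · exact congrFun e.1.2 ⟨l, h5⟩
        · rw [h5]
          exact e.1.1
      have h5 : ((n' + 1 : ℕ) : ℝ) * Real.log (2 * (2 + r * E₀ : ℕ) + 1) =
          n' * Real.log (2 * (2 + r * E₀ : ℕ) + 1) + Real.log (2 * (2 + r * E₀ : ℕ) + 1) := by
        rw [Nat.cast_succ, add_mul, one_mul]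
      rw [h5]
      linarith
  exact key n le_rfl

/-- The frame digits, the code of the frame and the digits behind determine the exact first
coordinates up to few values. -/
theorem vx_few_n (hF : FrD d A W c E₀) {n : ℕ} (hnr : n ≤ r) {u : ℕ → ℕ} (hu : ∀ l < n, u l ≤ J)
    {p : F.Ω → ℝ} (hp : IsLaw p) (hpA : ∀ ω, 0 < p ω → A ω) {γ : Type}
    (Z : F.Ω → γ) (hZ : ∀ ω ω', 0 < p ω → 0 < p ω' → Z ω = Z ω' → F.T ω = F.T ω' ∧
      d.fc (slam F W ω) = d.fc (slam F W ω') ∧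
      (∀ l < n, ⌊(2 : ℝ) ^ u l * d.v W l ω⌋ = ⌊(2 : ℝ) ^ u l * d.v W l ω'⌋) ∧
      ∀ l < n, F.X J ω (c l) % 2 ^ (J - u l) = F.X J ω' (c l) % 2 ^ (J - u l)) :
    CH p (fun ω (l : Fin n) => F.X J ω (c l)) Z ≤ n * Real.log (2 * (2 + r * E₀ : ℕ) + 1) :=
  vx_few_n_w (hF.toW (w := fun _ => J) fun _ _ => le_rfl) hnr hu hu hp hpA Z hZ

/-- The frame digits, the code of the frame and the digits behind determine the exact other
coordinates up to few values. -/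
theorem vx_few_w (hF : FrW d A W c w E₀) {u : ℕ → ℕ} (hu : ∀ l < r, u l ≤ J)
    (hw : ∀ l < r, u l ≤ w l)
    {p : F.Ω → ℝ} (hp : IsLaw p) (hpA : ∀ ω, 0 < p ω → A ω) {γ : Type}
    (Z : F.Ω → γ) (hZ : ∀ ω ω', 0 < p ω → 0 < p ω' → Z ω = Z ω' → F.T ω = F.T ω' ∧
      d.fc (slam F W ω) = d.fc (slam F W ω') ∧
      (∀ l < r, ⌊(2 : ℝ) ^ u l * d.v W l ω⌋ = ⌊(2 : ℝ) ^ u l * d.v W l ω'⌋) ∧
      Vdg F c r u ω = Vdg F c r u ω') :
    CH p (fun ω (l : Fin r) => F.X J ω (c l)) Z ≤ r * Real.log (2 * (2 + r * E₀ : ℕ) + 1) :=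
  vx_few_n_w hF le_rfl hu hw hp hpA Z fun ω ω' hω hω' e => by
    obtain ⟨h1, h2, h3, h4⟩ := hZ ω ω' hω hω' e
    exact ⟨h1, h2, h3, fun l hl => congrFun h4 ⟨l, hl⟩⟩

/-- The frame digits, the code of the frame and the digits behind determine the exact other
coordinates up to few values. -/
theorem vx_few (hF : FrD d A W c E₀) {u : ℕ → ℕ} (hu : ∀ l < r, u l ≤ J)
    {p : F.Ω → ℝ} (hp : IsLaw p) (hpA : ∀ ω, 0 < p ω → A ω) {γ : Type}
    (Z : F.Ω → γ) (hZ : ∀ ω ω', 0 < p ω → 0 < p ω' → Z ω = Z ω' → F.T ω = F.T ω' ∧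
      d.fc (slam F W ω) = d.fc (slam F W ω') ∧
      (∀ l < r, ⌊(2 : ℝ) ^ u l * d.v W l ω⌋ = ⌊(2 : ℝ) ^ u l * d.v W l ω'⌋) ∧
      Vdg F c r u ω = Vdg F c r u ω') :
    CH p (fun ω (l : Fin r) => F.X J ω (c l)) Z ≤ r * Real.log (2 * (2 + r * E₀ : ℕ) + 1) :=
  vx_few_n hF le_rfl hu hp hpA Z fun ω ω' hω hω' e => by
    obtain ⟨h1, h2, h3, h4⟩ := hZ ω ω' hω hω' e
    exact ⟨h1, h2, h3, fun l hl => congrFun h4 ⟨l, hl⟩⟩

/-- The exact other coordinates and the context of the point. -/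
theorem oth_of (hc : ∀ j, j ≠ c r → ∃ l < r, c l = j) {p : F.Ω → ℝ} (h0 : ∀ ω, 0 ≤ p ω)
    {γ : Type} (Z : F.Ω → γ) (hZ : ∀ ω ω', 0 < p ω → 0 < p ω' → Z ω = Z ω' → F.W ω = F.W ω') :
    CH p (fun ω => oth (c r) J F (ptr F J ω)) Z ≤
      CH p (fun ω (l : Fin r) => F.X J ω (c l)) Z := by
  refine CH_mono_left h0 fun ω ω' hω hω' e => ?_
  obtain ⟨e1, e2⟩ := Prod.ext_iff.1 e
  have g1 := hZ ω ω' hω hω' e2
  unfold oth ptr
  refine Prod.ext (_root_.funext fun j => ?_) g1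
  change Function.update (F.X J ω) (c r) 0 j = Function.update (F.X J ω') (c r) 0 j
  by_cases hj : j = c r
  · rw [hj, Function.update_self, Function.update_self]
  · rw [Function.update_of_ne hj, Function.update_of_ne hj]
    obtain ⟨l, hl, rfl⟩ := hc j hj
    exact congrFun e1 ⟨l, hl⟩

/-- The coarse digits of the target are a function of the fine digits. -/
theorem X_coarse {ω ω' : F.Ω} {j : Fin m} {n₁ n₃ : ℕ} (hn : n₁ ≤ n₃)
    (e : F.X n₃ ω j = F.X n₃ ω' j) : F.X n₁ ω j = F.X n₁ ω' j := by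
  have key : ∀ ω'', F.X n₁ ω'' j = F.X n₃ ω'' j / ((2 ^ (n₃ - n₁) : ℕ) : ℤ) := by
    intro ω''
    have h1 : F.X n₃ ω'' j = ⌊(2 : ℝ) ^ n₃ * F.x ω'' j⌋ := rfl
    have h2 : F.X n₁ ω'' j = ⌊(2 : ℝ) ^ n₁ * F.x ω'' j⌋ := rfl
    rw [h1, h2, ← Int.floor_div_natCast]
    congr 1
    have h3 : (2 : ℝ) ^ n₃ = 2 ^ n₁ * 2 ^ (n₃ - n₁) := by
      rw [← pow_add]
      congr 1
      omega
    rw [h3]
    push_cast
    field_simp
  rw [key, key, e]

/-- **The rows of the target given the near frame digits** of the other coordinates. -/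
theorem stg_rows {B : F.Ω → Prop} (hF : FrD d A W c E₀) (hBA : Sub B A) (hB : 0 < Pe F.p B)
    {u o : ℕ → ℕ} (hu : ∀ l < r, u l ≤ J) (hou : ∀ l < r, o l ≤ u l)
    (hc : ∀ j, j ≠ c r → ∃ l < r, c l = j) {n₁ n₃ : ℕ} (hn : n₁ ≤ n₃) {K : ℕ} {eV : ℝ}
    {β γ' : Type} {Yv : F.Ω → β} {G : F.Ω → γ'}
    (hY : ∀ ω ω', B ω → B ω' → (∀ l < r, F.X J ω (c l) = F.X J ω' (c l)) → Yv ω = Yv ω')
    (hGW : ∀ ω ω', B ω → B ω' → G ω = G ω' → F.W ω = F.W ω')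
    (hGf : ∀ ω ω', B ω → B ω' → G ω = G ω' → d.fc (slam F W ω) = d.fc (slam F W ω'))
    (hGN : ∀ ω ω', B ω → B ω' → G ω = G ω' →
      |(2 : ℝ) ^ n₃ * F.x ω (c r) - 2 ^ n₃ * F.x ω' (c r)| ≤ K)
    (hGV : CH (Pool.Agent.H49.Ent.cond F.p B True)
      (fun ω (l : Fin r) => ⌊(2 : ℝ) ^ u l * d.v W l ω⌋) G ≤
      ∑ l ∈ range r, ((u l - o l : ℕ) : ℝ) * Real.log 2 + eV) :
    CH (Pool.Agent.H49.Ent.cond F.p B True) (fun ω => F.X n₃ ω (c r))
      (fun ω => (F.X n₁ ω (c r), ((fun l : Fin r => ⌊(2 : ℝ) ^ u l * d.v W l ω⌋),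
        (d.fc (slam F W ω), F.W ω)))) ≤
    CH (Pool.Agent.H49.Ent.cond F.p B True) (fun ω => F.X n₃ ω (c r))
      (fun ω => (F.X n₁ ω (c r), oth (c r) J F (ptr F J ω))) +
    (∑ l ∈ range r, ((J - o l : ℕ) : ℝ) * Real.log 2 -
      CH (Pool.Agent.H49.Ent.cond F.p B True) Yv G) +
    (eV + 2 * (r * Real.log (2 * (2 + r * E₀ : ℕ) + 1)) +
      Real.log (2 * (K + 1 : ℕ) + 1)) := by
  have hp := isLaw_cond F.isLaw hB
  have h0 := hp.nonneg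
  have hBp : ∀ ω, 0 < Pool.Agent.H49.Ent.cond F.p B True ω → B ω := fun ω hω => of_cond_pos hω
  obtain ⟨X, hX⟩ : ∃ X : F.Ω → ℤ, X = fun ω => F.X n₃ ω (c r) := ⟨_, rfl⟩
  obtain ⟨Vu, hVu⟩ : ∃ Vu : F.Ω → Fin r → ℤ,
    Vu = fun ω (l : Fin r) => ⌊(2 : ℝ) ^ u l * d.v W l ω⌋ := ⟨_, rfl⟩
  obtain ⟨C, hC⟩ : ∃ C : F.Ω → ℤ × ((Fin r → ℤ) × (κ × (ℕ × F.ζ))),
    C = fun ω => (F.X n₁ ω (c r), (Vu ω, (d.fc (slam F W ω), F.W ω))) := ⟨_, rfl⟩
  obtain ⟨VJ, hVJ⟩ : ∃ VJ : F.Ω → Fin r → ℤ, VJ = fun ω (l : Fin r) => F.X J ω (c l) := ⟨_, rfl⟩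
  have hu' : ∀ ω ω', Vu ω = Vu ω' → ∀ l < r,
      ⌊(2 : ℝ) ^ u l * d.v W l ω⌋ = ⌊(2 : ℝ) ^ u l * d.v W l ω'⌋ := by
    intro ω ω' e l hl
    rw [hVu] at e
    exact congrFun e ⟨l, hl⟩
  -- the swap
  have hVd : CH (Pool.Agent.H49.Ent.cond F.p B True) (Vdg F c r u) C ≤
      ∑ l ∈ range r, ((J - u l : ℕ) : ℝ) * Real.log 2 := (CH_le_Hu hp _ _).trans (H_Vdg F c r u hp)
  have s1 := nf_swap h0 X (Vdg F c r u) C (fun ω => (Vu ω, G ω)) hVd
  -- the exact coordinates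
  have s2 := CH_step h0 X (fun ω => oth (c r) J F (ptr F J ω)) (fun ω => (Vdg F c r u ω, C ω))
  have hZC : ∀ ω ω', 0 < Pool.Agent.H49.Ent.cond F.p B True ω →
      0 < Pool.Agent.H49.Ent.cond F.p B True ω' →
      (Vdg F c r u ω, C ω) = (Vdg F c r u ω', C ω') → F.W ω = F.W ω' := by
    intro ω ω' _ _ e
    rw [hC] at e
    simp only [Prod.mk.injEq] at e
    exact e.2.2.2.2
  have s3 := (oth_of hc h0 (fun ω => (Vdg F c r u ω, C ω)) hZC).trans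
    (vx_few (hF.sub hBA) hu hp hBp (fun ω => (Vdg F c r u ω, C ω)) fun ω ω' hω hω' e => by
      have e' := hZC ω ω' hω hω' e
      rw [hC] at e
      simp only [Prod.mk.injEq] at e
      exact ⟨(Prod.ext_iff.1 e').1, e.2.2.2.1, hu' ω ω' e.2.2.1, e.1⟩)
  have s4 : CH (Pool.Agent.H49.Ent.cond F.p B True) X
      (fun ω => (oth (c r) J F (ptr F J ω), (Vdg F c r u ω, C ω))) ≤
      CH (Pool.Agent.H49.Ent.cond F.p B True) X
      (fun ω => (F.X n₁ ω (c r), oth (c r) J F (ptr F J ω))) :=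
    CH_mono_cond h0 fun ω ω' _ _ e => by
      rw [hC] at e
      simp only [Prod.mk.injEq] at e
      exact Prod.ext e.2.2.1 e.1
  -- the target given the record
  have s5 : CH (Pool.Agent.H49.Ent.cond F.p B True) (fun ω => (X ω, C ω))
      (fun ω => (Vu ω, G ω)) ≤ Real.log (2 * (K + 1 : ℕ) + 1) := by
    refine le_trans ?_ (CH_pair hp X (fun ω => (Vu ω, G ω)) (D := K + 1) fun ω ω' hω hω' e => ?_)
    · refine CH_mono_left h0 fun ω ω' hω hω' e => ?_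
      simp only [Prod.mk.injEq] at e
      obtain ⟨e1, e2, e3⟩ := e
      have g1 := hGW ω ω' (hBp ω hω) (hBp ω' hω') e3
      have g2 := hGf ω ω' (hBp ω hω) (hBp ω' hω') e3
      rw [hX] at e1
      rw [hX, hC]
      dsimp only at e1 ⊢
      rw [X_coarse hn e1, e1, e2, g1, g2]
    · have e3 := (Prod.ext_iff.1 e).2
      have g1 := floor_sub_le (hGN ω ω' (hBp ω hω) (hBp ω' hω') e3)
      rw [hX]
      dsimp only
      push_cast at g1 ⊢
      exact g1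
  -- the digits behind
  have s6 : CH (Pool.Agent.H49.Ent.cond F.p B True) Yv G ≤
      CH (Pool.Agent.H49.Ent.cond F.p B True) VJ G := by
    refine CH_mono_left h0 fun ω ω' hω hω' e => ?_
    obtain ⟨e1, e2⟩ := Prod.ext_iff.1 e
    dsimp only at e1 e2
    refine hY ω ω' (hBp ω hω) (hBp ω' hω') fun l hl => ?_
    rw [hVJ] at e1
    exact congrFun e1 ⟨l, hl⟩
  have s7 := CH_step h0 VJ (fun ω => (Vdg F c r u ω, Vu ω)) G
  have s8 := CH_chain h0 (Vdg F c r u) Vu G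
  have s9 : CH (Pool.Agent.H49.Ent.cond F.p B True) VJ
      (fun ω => ((Vdg F c r u ω, Vu ω), G ω)) ≤
      r * Real.log (2 * (2 + r * E₀ : ℕ) + 1) := by
    rw [hVJ]
    refine vx_few (hF.sub hBA) hu hp hBp _ fun ω ω' hω hω' e => ?_
    simp only [Prod.mk.injEq] at e
    have g1 := hGW ω ω' (hBp ω hω) (hBp ω' hω') e.2
    exact ⟨(Prod.ext_iff.1 g1).1, hGf ω ω' (hBp ω hω) (hBp ω' hω') e.2, hu' ω ω' e.1.2, e.1.1⟩
  have s10 : ∑ l ∈ range r, ((J - u l : ℕ) : ℝ) * Real.log 2 +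
      ∑ l ∈ range r, ((u l - o l : ℕ) : ℝ) * Real.log 2 =
      ∑ l ∈ range r, ((J - o l : ℕ) : ℝ) * Real.log 2 := by
    rw [← Finset.sum_add_distrib]
    refine Finset.sum_congr rfl fun l hl => ?_
    have h1 := hu l (Finset.mem_range.1 hl)
    have h2 := hou l (Finset.mem_range.1 hl)
    rw [Nat.cast_sub h1, Nat.cast_sub h2, Nat.cast_sub (h2.trans h1)]
    ring
  rw [← hVu] at hGV
  rw [← hX]
  have e2 : (fun ω => (F.X n₁ ω (c r), ((fun l : Fin r => ⌊(2 : ℝ) ^ u l * d.v W l ω⌋),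
        (d.fc (slam F W ω), F.W ω)))) = C := by
    rw [hC, hVu]
  rw [e2]
  linarith

/-- Coarse digits are a function of the fine digits. -/
theorem fl_coarse {x x' : ℝ} {n₁ n₃ : ℕ} (hn : n₁ ≤ n₃)
    (e : ⌊(2 : ℝ) ^ n₃ * x⌋ = ⌊(2 : ℝ) ^ n₃ * x'⌋) : ⌊(2 : ℝ) ^ n₁ * x⌋ = ⌊(2 : ℝ) ^ n₁ * x'⌋ := by
  have key : ∀ y : ℝ, ⌊(2 : ℝ) ^ n₁ * y⌋ = ⌊(2 : ℝ) ^ n₃ * y⌋ / ((2 ^ (n₃ - n₁) : ℕ) : ℤ) := by
    intro y
    rw [← Int.floor_div_natCast]
    congr 1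
    have h3 : (2 : ℝ) ^ n₃ = 2 ^ n₁ * 2 ^ (n₃ - n₁) := by
      rw [← pow_add]
      congr 1
      omega
    rw [h3]
    push_cast
    field_simp
  rw [key, key, e]

/-- Given the exact other coordinates, the target and its frame coordinate are the same. -/
theorem tgt_frame_w (hF : FrW d A W c w E₀) (hcr : ∀ l < r, c l ≠ c r) {n : ℕ} (hn : n ≤ w r)
    {ω ω' : F.Ω} (hω : A ω) (hω' : A ω') (hO : oth (c r) J F (ptr F J ω) = oth (c r) J F (ptr F J ω'))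
    (hfc : d.fc (slam F W ω) = d.fc (slam F W ω')) :
    |((2 : ℝ) ^ n * d.v W r ω - 2 ^ n * d.v W r ω') -
      (2 ^ n * F.x ω (c r) - 2 ^ n * F.x ω' (c r))| ≤ ((r * E₀ : ℕ) : ℝ) := by
  have hT : F.T ω = F.T ω' := (Prod.ext_iff.1 (Prod.ext_iff.1 hO).2).1
  have p3 := hF.dif le_rfl hn hω hω' hT hfc fun l hl => by
    have h1 : Function.update (F.X J ω) (c r) 0 (c l) = Function.update (F.X J ω') (c r) 0 (c l) :=
      congrFun (Prod.ext_iff.1 hO).1 (c l)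
    rwa [Function.update_of_ne (hcr l hl), Function.update_of_ne (hcr l hl)] at h1
  have e1 : ((2 : ℝ) ^ n * d.v W r ω - 2 ^ n * d.v W r ω') -
      (2 ^ n * F.x ω (c r) - 2 ^ n * F.x ω' (c r)) =
      (2 : ℝ) ^ n * ((d.v W r ω - d.v W r ω') - (F.x ω (c r) - F.x ω' (c r))) := by ring
  rw [e1]
  exact p3

/-- Given the exact other coordinates, the target and its frame coordinate are the same. -/
theorem tgt_frame (hF : FrD d A W c E₀) (hcr : ∀ l < r, c l ≠ c r) {n : ℕ} (hn : n ≤ J)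
    {ω ω' : F.Ω} (hω : A ω) (hω' : A ω') (hO : oth (c r) J F (ptr F J ω) = oth (c r) J F (ptr F J ω'))
    (hfc : d.fc (slam F W ω) = d.fc (slam F W ω')) :
    |((2 : ℝ) ^ n * d.v W r ω - 2 ^ n * d.v W r ω') -
      (2 ^ n * F.x ω (c r) - 2 ^ n * F.x ω' (c r))| ≤ ((r * E₀ : ℕ) : ℝ) :=
  tgt_frame_w (hF.toW (w := fun _ => J) fun _ _ => le_rfl) hcr hn hω hω' hO hfc

/-- **The rows of the frame coordinate of the target given the near frame digits** of the other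
coordinates. -/
theorem stg_frame_w {B : F.Ω → Prop} (hF : FrW d A W c w E₀) (hBA : Sub B A) (hB : 0 < Pe F.p B)
    (hcr : ∀ l < r, c l ≠ c r)
    {u o : ℕ → ℕ} (hu : ∀ l < r, u l ≤ J) (hw : ∀ l < r, u l ≤ w l) (hou : ∀ l < r, o l ≤ u l)
    (hc : ∀ j, j ≠ c r → ∃ l < r, c l = j) {n₁ n₃ : ℕ} (hn : n₁ ≤ n₃) (hn3 : n₃ ≤ w r) {K : ℕ}
    {eV : ℝ} {β γ' : Type} {Yv : F.Ω → β} {G : F.Ω → γ'}
    (hY : ∀ ω ω', B ω → B ω' → (∀ l < r, F.X J ω (c l) = F.X J ω' (c l)) → Yv ω = Yv ω')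
    (hGW : ∀ ω ω', B ω → B ω' → G ω = G ω' → F.W ω = F.W ω')
    (hGf : ∀ ω ω', B ω → B ω' → G ω = G ω' → d.fc (slam F W ω) = d.fc (slam F W ω'))
    (hGN : ∀ ω ω', B ω → B ω' → G ω = G ω' →
      (∀ l < r, ⌊(2 : ℝ) ^ u l * d.v W l ω⌋ = ⌊(2 : ℝ) ^ u l * d.v W l ω'⌋) →
      |(2 : ℝ) ^ n₃ * d.v W r ω - 2 ^ n₃ * d.v W r ω'| ≤ K)
    (hGV : CH (Pool.Agent.H49.Ent.cond F.p B True)
      (fun ω (l : Fin r) => ⌊(2 : ℝ) ^ u l * d.v W l ω⌋) G ≤
      ∑ l ∈ range r, ((u l - o l : ℕ) : ℝ) * Real.log 2 + eV) :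
    CH (Pool.Agent.H49.Ent.cond F.p B True) (fun ω => ⌊(2 : ℝ) ^ n₃ * d.v W r ω⌋)
      (fun ω => (⌊(2 : ℝ) ^ n₁ * d.v W r ω⌋, ((fun l : Fin r => ⌊(2 : ℝ) ^ u l * d.v W l ω⌋),
        (d.fc (slam F W ω), F.W ω)))) ≤
    CH (Pool.Agent.H49.Ent.cond F.p B True) (fun ω => F.X n₃ ω (c r))
      (fun ω => (F.X n₁ ω (c r), oth (c r) J F (ptr F J ω))) +
    (∑ l ∈ range r, ((J - o l : ℕ) : ℝ) * Real.log 2 -
      CH (Pool.Agent.H49.Ent.cond F.p B True) Yv G) +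
    (eV + (2 * r + 2) * Real.log (2 * (2 + r * E₀ : ℕ) + 1) +
      Real.log (2 * (K + 1 : ℕ) + 1)) := by
  have hp := isLaw_cond F.isLaw hB
  have h0 := hp.nonneg
  have hBp : ∀ ω, 0 < Pool.Agent.H49.Ent.cond F.p B True ω → B ω := fun ω hω => of_cond_pos hω
  obtain ⟨X, hX⟩ : ∃ X : F.Ω → ℤ, X = fun ω => ⌊(2 : ℝ) ^ n₃ * d.v W r ω⌋ := ⟨_, rfl⟩
  obtain ⟨Vu, hVu⟩ : ∃ Vu : F.Ω → Fin r → ℤ,
    Vu = fun ω (l : Fin r) => ⌊(2 : ℝ) ^ u l * d.v W l ω⌋ := ⟨_, rfl⟩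
  obtain ⟨C, hC⟩ : ∃ C : F.Ω → ℤ × ((Fin r → ℤ) × (κ × (ℕ × F.ζ))),
    C = fun ω => (⌊(2 : ℝ) ^ n₁ * d.v W r ω⌋, (Vu ω, (d.fc (slam F W ω), F.W ω))) := ⟨_, rfl⟩
  obtain ⟨VJ, hVJ⟩ : ∃ VJ : F.Ω → Fin r → ℤ, VJ = fun ω (l : Fin r) => F.X J ω (c l) := ⟨_, rfl⟩
  have hu' : ∀ ω ω', Vu ω = Vu ω' → ∀ l < r,
      ⌊(2 : ℝ) ^ u l * d.v W l ω⌋ = ⌊(2 : ℝ) ^ u l * d.v W l ω'⌋ := by
    intro ω ω' e l hl
    rw [hVu] at e
    exact congrFun e ⟨l, hl⟩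
  -- the swap
  have hVd : CH (Pool.Agent.H49.Ent.cond F.p B True) (Vdg F c r u) C ≤
      ∑ l ∈ range r, ((J - u l : ℕ) : ℝ) * Real.log 2 := (CH_le_Hu hp _ _).trans (H_Vdg F c r u hp)
  have s1 := nf_swap h0 X (Vdg F c r u) C (fun ω => (Vu ω, G ω)) hVd
  -- the exact coordinates
  have s2 := CH_step h0 X (fun ω => oth (c r) J F (ptr F J ω)) (fun ω => (Vdg F c r u ω, C ω))
  have hZC : ∀ ω ω', 0 < Pool.Agent.H49.Ent.cond F.p B True ω →
      0 < Pool.Agent.H49.Ent.cond F.p B True ω' →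
      (Vdg F c r u ω, C ω) = (Vdg F c r u ω', C ω') → F.W ω = F.W ω' := by
    intro ω ω' _ _ e
    rw [hC] at e
    simp only [Prod.mk.injEq] at e
    exact e.2.2.2.2
  have s3 := (oth_of hc h0 (fun ω => (Vdg F c r u ω, C ω)) hZC).trans
    (vx_few_w (hF.sub hBA) hu hw hp hBp (fun ω => (Vdg F c r u ω, C ω)) fun ω ω' hω hω' e => by
      have e' := hZC ω ω' hω hω' e
      rw [hC] at e
      simp only [Prod.mk.injEq] at e
      exact ⟨(Prod.ext_iff.1 e').1, e.2.2.2.1, hu' ω ω' e.2.2.1, e.1⟩)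
  -- the target in the frame and the target
  have t1 : CH (Pool.Agent.H49.Ent.cond F.p B True) X
      (fun ω => (F.X n₃ ω (c r), (oth (c r) J F (ptr F J ω), (Vdg F c r u ω, C ω)))) ≤
      Real.log (2 * (2 + r * E₀ : ℕ) + 1) := by
    refine CH_pair hp _ _ fun ω ω' hω hω' e => ?_
    rw [hC] at e
    simp only [Prod.mk.injEq] at e
    obtain ⟨e0, e1, -, -, -, e3, -⟩ := e
    have g1 := tgt_frame_w hF hcr hn3 (hBA ω (hBp ω hω)) (hBA ω' (hBp ω' hω')) e1 e3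
    have g2 : |F.x ω (c r) - F.x ω' (c r)| ≤ 1 / 2 ^ n₃ :=
      of_floor_mul (by positivity : (0 : ℝ) < 2 ^ n₃) e0
    have g3 : |(2 : ℝ) ^ n₃ * F.x ω (c r) - 2 ^ n₃ * F.x ω' (c r)| ≤ 1 := by
      rw [← mul_sub, abs_mul, abs_of_pos (by positivity : (0 : ℝ) < 2 ^ n₃)]
      refine (mul_le_mul_of_nonneg_left g2 (by positivity)).trans (le_of_eq ?_)
      field_simp
    have g4 : |(2 : ℝ) ^ n₃ * d.v W r ω - 2 ^ n₃ * d.v W r ω'| ≤ ((1 + r * E₀ : ℕ) : ℝ) := by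
      push_cast at g1 ⊢
      rw [abs_le] at g1 g3 ⊢
      constructor <;> linarith [g1.1, g1.2, g3.1, g3.2]
    have g5 := floor_sub_le g4
    rw [hX]
    dsimp only
    push_cast at g5 ⊢
    linarith
  have t2 : CH (Pool.Agent.H49.Ent.cond F.p B True) (fun ω => F.X n₁ ω (c r))
      (fun ω => (oth (c r) J F (ptr F J ω), (Vdg F c r u ω, C ω))) ≤
      Real.log (2 * (2 + r * E₀ : ℕ) + 1) := by
    refine CH_pair hp _ _ fun ω ω' hω hω' e => ?_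
    rw [hC] at e
    simp only [Prod.mk.injEq] at e
    obtain ⟨e1, -, e0, -, e3, -⟩ := e
    have g1 := tgt_frame_w hF hcr (hn.trans hn3) (hBA ω (hBp ω hω)) (hBA ω' (hBp ω' hω')) e1 e3
    have g2 : |d.v W r ω - d.v W r ω'| ≤ 1 / 2 ^ n₁ :=
      of_floor_mul (by positivity : (0 : ℝ) < 2 ^ n₁) e0
    have g3 : |(2 : ℝ) ^ n₁ * d.v W r ω - 2 ^ n₁ * d.v W r ω'| ≤ 1 := by
      rw [← mul_sub, abs_mul, abs_of_pos (by positivity : (0 : ℝ) < 2 ^ n₁)]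
      refine (mul_le_mul_of_nonneg_left g2 (by positivity)).trans (le_of_eq ?_)
      field_simp
    have g4 : |(2 : ℝ) ^ n₁ * F.x ω (c r) - 2 ^ n₁ * F.x ω' (c r)| ≤ ((1 + r * E₀ : ℕ) : ℝ) := by
      push_cast at g1 ⊢
      rw [abs_le] at g1 g3 ⊢
      constructor <;> linarith [g1.1, g1.2, g3.1, g3.2]
    have g5 := floor_sub_le g4
    have c5 : F.X n₁ ω (c r) = ⌊(2 : ℝ) ^ n₁ * F.x ω (c r)⌋ := rfl
    have c6 : F.X n₁ ω' (c r) = ⌊(2 : ℝ) ^ n₁ * F.x ω' (c r)⌋ := rfl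
    rw [c5, c6]
    push_cast at g5 ⊢
    linarith
  have t3 := CH_step h0 X (fun ω => F.X n₃ ω (c r))
    (fun ω => (oth (c r) J F (ptr F J ω), (Vdg F c r u ω, C ω)))
  have t4 := CH_step h0 (fun ω => F.X n₃ ω (c r)) (fun ω => F.X n₁ ω (c r))
    (fun ω => (oth (c r) J F (ptr F J ω), (Vdg F c r u ω, C ω)))
  have t5 : CH (Pool.Agent.H49.Ent.cond F.p B True) (fun ω => F.X n₃ ω (c r))
      (fun ω => (F.X n₁ ω (c r), (oth (c r) J F (ptr F J ω), (Vdg F c r u ω, C ω)))) ≤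
      CH (Pool.Agent.H49.Ent.cond F.p B True) (fun ω => F.X n₃ ω (c r))
      (fun ω => (F.X n₁ ω (c r), oth (c r) J F (ptr F J ω))) :=
    CH_mono_cond h0 fun ω ω' _ _ e => by
      simp only [Prod.mk.injEq] at e
      exact Prod.ext e.1 e.2.1
  -- the target given the record
  have s5 : CH (Pool.Agent.H49.Ent.cond F.p B True) (fun ω => (X ω, C ω))
      (fun ω => (Vu ω, G ω)) ≤ Real.log (2 * (K + 1 : ℕ) + 1) := by
    refine le_trans ?_ (CH_pair hp X (fun ω => (Vu ω, G ω)) (D := K + 1) fun ω ω' hω hω' e => ?_)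
    · refine CH_mono_left h0 fun ω ω' hω hω' e => ?_
      simp only [Prod.mk.injEq] at e
      obtain ⟨e1, e2, e3⟩ := e
      have g1 := hGW ω ω' (hBp ω hω) (hBp ω' hω') e3
      have g2 := hGf ω ω' (hBp ω hω) (hBp ω' hω') e3
      rw [hX] at e1
      rw [hX, hC]
      dsimp only at e1 ⊢
      rw [fl_coarse hn e1, e1, e2, g1, g2]
    · obtain ⟨e2, e3⟩ := Prod.ext_iff.1 e
      have g1 := floor_sub_le (hGN ω ω' (hBp ω hω) (hBp ω' hω') e3 (hu' ω ω' e2))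
      rw [hX]
      dsimp only
      push_cast at g1 ⊢
      exact g1
  -- the digits behind
  have s6 : CH (Pool.Agent.H49.Ent.cond F.p B True) Yv G ≤
      CH (Pool.Agent.H49.Ent.cond F.p B True) VJ G := by
    refine CH_mono_left h0 fun ω ω' hω hω' e => ?_
    obtain ⟨e1, e2⟩ := Prod.ext_iff.1 e
    dsimp only at e1 e2
    refine hY ω ω' (hBp ω hω) (hBp ω' hω') fun l hl => ?_
    rw [hVJ] at e1
    exact congrFun e1 ⟨l, hl⟩
  have s7 := CH_step h0 VJ (fun ω => (Vdg F c r u ω, Vu ω)) G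
  have s8 := CH_chain h0 (Vdg F c r u) Vu G
  have s9 : CH (Pool.Agent.H49.Ent.cond F.p B True) VJ
      (fun ω => ((Vdg F c r u ω, Vu ω), G ω)) ≤
      r * Real.log (2 * (2 + r * E₀ : ℕ) + 1) := by
    rw [hVJ]
    refine vx_few_w (hF.sub hBA) hu hw hp hBp _ fun ω ω' hω hω' e => ?_
    simp only [Prod.mk.injEq] at e
    have g1 := hGW ω ω' (hBp ω hω) (hBp ω' hω') e.2
    exact ⟨(Prod.ext_iff.1 g1).1, hGf ω ω' (hBp ω hω) (hBp ω' hω') e.2, hu' ω ω' e.1.2, e.1.1⟩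
  have s10 : ∑ l ∈ range r, ((J - u l : ℕ) : ℝ) * Real.log 2 +
      ∑ l ∈ range r, ((u l - o l : ℕ) : ℝ) * Real.log 2 =
      ∑ l ∈ range r, ((J - o l : ℕ) : ℝ) * Real.log 2 := by
    rw [← Finset.sum_add_distrib]
    refine Finset.sum_congr rfl fun l hl => ?_
    have h1 := hu l (Finset.mem_range.1 hl)
    have h2 := hou l (Finset.mem_range.1 hl)
    rw [Nat.cast_sub h1, Nat.cast_sub h2, Nat.cast_sub (h2.trans h1)]
    ring
  rw [← hVu] at hGV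
  rw [← hX]
  have e2 : (fun ω => (⌊(2 : ℝ) ^ n₁ * d.v W r ω⌋, ((fun l : Fin r => ⌊(2 : ℝ) ^ u l * d.v W l ω⌋),
        (d.fc (slam F W ω), F.W ω)))) = C := by
    rw [hC, hVu]
  rw [e2]
  linarith

/-- **The rows of the frame coordinate of the target given the near frame digits** of the other
coordinates. -/
theorem stg_frame {B : F.Ω → Prop} (hF : FrD d A W c E₀) (hBA : Sub B A) (hB : 0 < Pe F.p B)
    (hcr : ∀ l < r, c l ≠ c r)
    {u o : ℕ → ℕ} (hu : ∀ l < r, u l ≤ J) (hou : ∀ l < r, o l ≤ u l)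
    (hc : ∀ j, j ≠ c r → ∃ l < r, c l = j) {n₁ n₃ : ℕ} (hn : n₁ ≤ n₃) (hn3 : n₃ ≤ J) {K : ℕ}
    {eV : ℝ} {β γ' : Type} {Yv : F.Ω → β} {G : F.Ω → γ'}
    (hY : ∀ ω ω', B ω → B ω' → (∀ l < r, F.X J ω (c l) = F.X J ω' (c l)) → Yv ω = Yv ω')
    (hGW : ∀ ω ω', B ω → B ω' → G ω = G ω' → F.W ω = F.W ω')
    (hGf : ∀ ω ω', B ω → B ω' → G ω = G ω' → d.fc (slam F W ω) = d.fc (slam F W ω'))
    (hGN : ∀ ω ω', B ω → B ω' → G ω = G ω' →
      (∀ l < r, ⌊(2 : ℝ) ^ u l * d.v W l ω⌋ = ⌊(2 : ℝ) ^ u l * d.v W l ω'⌋) →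
      |(2 : ℝ) ^ n₃ * d.v W r ω - 2 ^ n₃ * d.v W r ω'| ≤ K)
    (hGV : CH (Pool.Agent.H49.Ent.cond F.p B True)
      (fun ω (l : Fin r) => ⌊(2 : ℝ) ^ u l * d.v W l ω⌋) G ≤
      ∑ l ∈ range r, ((u l - o l : ℕ) : ℝ) * Real.log 2 + eV) :
    CH (Pool.Agent.H49.Ent.cond F.p B True) (fun ω => ⌊(2 : ℝ) ^ n₃ * d.v W r ω⌋)
      (fun ω => (⌊(2 : ℝ) ^ n₁ * d.v W r ω⌋, ((fun l : Fin r => ⌊(2 : ℝ) ^ u l * d.v W l ω⌋),
        (d.fc (slam F W ω), F.W ω)))) ≤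
    CH (Pool.Agent.H49.Ent.cond F.p B True) (fun ω => F.X n₃ ω (c r))
      (fun ω => (F.X n₁ ω (c r), oth (c r) J F (ptr F J ω))) +
    (∑ l ∈ range r, ((J - o l : ℕ) : ℝ) * Real.log 2 -
      CH (Pool.Agent.H49.Ent.cond F.p B True) Yv G) +
    (eV + (2 * r + 2) * Real.log (2 * (2 + r * E₀ : ℕ) + 1) +
      Real.log (2 * (K + 1 : ℕ) + 1)) :=
  stg_frame_w (w := fun _ => J) (hF.toW fun _ _ => le_rfl) hBA hB hcr hu hu hou hc hn hn3 hY hGW hGf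
    hGN hGV

end

end Pool.D2F2
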