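import Pool.Agent.H28.D2.FrU
import Pool.Agent.H4.D2.Stg

/-!
# The rows of the own height, the target in the frame

`rows_fr`, `nfg_fr`: as `rows_u`, `nfg_u`, with the digits of the coordinate of the target in the
frame instead of the digits of the target itself.
-/

set_option autoImplicit false

namespace Pool.D2P

open Finset Real MvPolynomial
open Pool.Agent.H49.Ent Pool.Agent.H32.Dense Pool.STK Pool.KA Pool.KSAT Pool.K2S Pool.PB Pool.GEN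
open Pool.S6C Pool.LA91
open Pool.OWN68 (opl tw uw CH_pair CH_pis natDegree_opl opl_jet uw_abs tw_abs floor_sub_le
  of_floor_div nf_swap CH_le_Hu pj)
open Pool.GEN.N83 (oth)
open Pool.D2H (of_floor_mul eval_small uw_eq CH_step num)
open Pool.D2F2

variable {m J : ℕ}

section

variable {F : Fam m J} {κ : Type} {r D : ℕ} {d : Dat F κ r D} {A : F.Ω → Prop} {W : ℕ}
  {σ : ℝ} {K : ℕ} {γ : Type} {Y : F.Ω → γ}

/-- Two samples with the same context and time: the change of the own height is the change of the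
target, up to the change of the other coordinates. -/
theorem hL_diffr (hσ : 0 ≤ σ) {u : ℕ → ℕ} {K₁ : ℕ}
    (hlip : ∀ ω, A ω → ∀ l < r, ∀ j ≤ D, σ * |(d.gp l (slam F W ω)).coeff j| ≤ K₁ * 2 ^ u l)
    {ω ω' : F.Ω} (hω : A ω) (hT : F.T ω = F.T ω')
    (e : d.cx (slam F W ω) = d.cx (slam F W ω')) (hx : Vfu d W u ω = Vfu d W u ω') :
    |σ * (d.hL W A (slam F W ω')).eval (uw F W ω') - σ * (d.hL W A (slam F W ω)).eval (uw F W ω) -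
      σ * (d.v W r ω' - d.v W r ω)| ≤ ((r * ((D + 1) * K₁) : ℕ) : ℝ) := by
  obtain ⟨ω₀, g1, g2, g3⟩ := d.hL_ref (W := W) (A := A) hω
  rw [g3 _ rfl, g3 _ e.symm, ← uw_eq hT]
  have h1 := d.hR_eval (W := W) ω₀ hT
  have hK1 : (0 : ℝ) ≤ K₁ := Nat.cast_nonneg _
  have hr0 : (0 : ℝ) ≤ r := Nat.cast_nonneg _
  have hD0 : (0 : ℝ) ≤ D := Nat.cast_nonneg _
  have h2 : ∀ l < r, |d.v W l ω' - d.v W l ω| ≤ 1 / 2 ^ u l := by
    intro l hl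
    rw [abs_sub_comm]
    exact of_floor_mul (by positivity : (0 : ℝ) < 2 ^ u l) (congrFun hx ⟨l, hl⟩)
  have e2 : σ * (d.hR W ω₀ (slam F W ω')).eval (uw F W ω) -
      σ * (d.hR W ω₀ (slam F W ω)).eval (uw F W ω) - σ * (d.v W r ω' - d.v W r ω) =
      -(σ * ∑ l ∈ range r, (d.gp l (slam F W ω₀)).eval (uw F W ω) *
        (d.v W l ω' - d.v W l ω)) := by
    have h3 : σ * ((d.hR W ω₀ (slam F W ω')).eval (uw F W ω) -
      (d.hR W ω₀ (slam F W ω)).eval (uw F W ω)) = _ := congrArg (fun x => σ * x) h1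
    linarith
  rw [e2, abs_neg, Finset.mul_sum]
  refine (Finset.abs_sum_le_sum_abs _ _).trans ?_
  refine (Finset.sum_le_sum (g := fun _ => (D + 1) * (K₁ : ℝ)) fun l hl => ?_).trans (le_of_eq ?_)
  · have hl' := Finset.mem_range.1 hl
    have h5 : (Polynomial.C σ * d.gp l (slam F W ω₀)).natDegree ≤ D :=
      (Polynomial.natDegree_C_mul_le _ _).trans (d.gD l _)
    have h6 := eval_small h5 (uw_abs F W ω) (B := K₁ * 2 ^ u l) fun j hj => by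
      rw [Polynomial.coeff_C_mul, abs_mul, abs_of_nonneg hσ]
      exact hlip ω₀ g1 l hl' j hj
    rw [Polynomial.eval_mul, Polynomial.eval_C] at h6
    rw [← mul_assoc, abs_mul]
    refine (mul_le_mul h6 (h2 l hl') (abs_nonneg _) (by positivity)).trans (le_of_eq ?_)
    field_simp
  · rw [Finset.sum_const, Finset.card_range, nsmul_eq_mul]
    push_cast
    ring

/-- **The rows of the own height between two levels**, in frame digits. -/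
theorem rows_fr {B : F.Ω → Prop} (hBA : Sub B A) (hB : 0 < Pe F.p B)
    {u v : ℕ → ℕ} (huv : ∀ l < r, v l ≤ u l) (hSV : ∀ l < r, d.SV l = 2 ^ v l) {K₁ : ℕ}
    (hlip : ∀ ω, A ω → ∀ l < r, ∀ j ≤ D, σ * |(d.gp l (slam F W ω)).coeff j| ≤ K₁ * 2 ^ u l)
    {n₁ n₂ n₃ : ℕ} (hσ : σ = 2 ^ n₂) {x y : ℝ} (hx : 0 ≤ x)
    (hn : (n₁ : ℝ) + x ≤ n₂) (hy : 0 ≤ y) (hny : (n₂ : ℝ) ≤ n₃ + y)
    {γ' : Type} {G : F.Ω → γ'} (HG : HopP d B W σ K G) :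
    CH (Pool.Agent.H49.Ent.cond F.p B True)
      (fun ω => ⌊σ * (d.hL W A (slam F W ω)).eval (uw F W ω) / 2 ^ y⌋)
      (fun ω => (⌊σ * (d.hL W A (slam F W ω)).eval (uw F W ω) / 2 ^ x⌋,
        (d.cx (slam F W ω), F.W ω))) ≤
    CH (Pool.Agent.H49.Ent.cond F.p B True) (fun ω => ⌊(2 : ℝ) ^ n₃ * d.v W r ω⌋)
      (fun ω => (⌊(2 : ℝ) ^ n₁ * d.v W r ω⌋, (Vfu d W u ω, (d.fc (slam F W ω), F.W ω)))) +
    (∑ l ∈ range r, ((u l - v l : ℕ) : ℝ) * Real.log 2 -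
      CH (Pool.Agent.H49.Ent.cond F.p B True) (Vfd d W u v) G) +
    (r * Real.log (2 * (3 : ℕ) + 1) +
      2 * Real.log (2 * (r * ((D + 1) * K₁) + 2 : ℕ) + 1) +
      ((r * (D + 3)) * Real.log (2 * ((2 * K : ℕ) + 1) + 1) +
        2 * Real.log (2 * (K * (1 + r * (D + 1) ^ 2) + 1 : ℕ) + 1))) := by
  have hp := isLaw_cond F.isLaw hB
  have h0 := hp.nonneg
  have hBp : ∀ ω, 0 < Pool.Agent.H49.Ent.cond F.p B True ω → B ω := fun ω hω => of_cond_pos hω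
  have hσ0 : 0 ≤ σ := by
    rw [hσ]
    positivity
  have hx1 : (1 : ℝ) ≤ 2 ^ x := Real.one_le_rpow (by norm_num) hx
  have hy1 : (1 : ℝ) ≤ 2 ^ y := Real.one_le_rpow (by norm_num) hy
  have hfew := HopP.few2 hBA hB hx hy HG
  obtain ⟨M, hM⟩ : ∃ M : ℕ, M = r * ((D + 1) * K₁) := ⟨_, rfl⟩
  rw [← hM]
  -- the pairs
  have key : ∀ ω ω', B ω → B ω' → Vfu d W u ω = Vfu d W u ω' → F.W ω = F.W ω' →
      d.cx (slam F W ω) = d.cx (slam F W ω') →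
      |σ * (d.hL W A (slam F W ω')).eval (uw F W ω') -
        σ * (d.hL W A (slam F W ω)).eval (uw F W ω) -
        σ * (d.v W r ω' - d.v W r ω)| ≤ M := by
    intro ω ω' hω hω' hO hW e
    have hT : F.T ω = F.T ω' := (Prod.ext_iff.1 hW).1
    rw [hM]
    exact hL_diffr hσ0 hlip (hBA ω hω) hT e hO
  have hM0 : (0 : ℝ) ≤ M := Nat.cast_nonneg _
  have f1 : ∀ ω ω', 0 < Pool.Agent.H49.Ent.cond F.p B True ω →
      0 < Pool.Agent.H49.Ent.cond F.p B True ω' →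
      (Vfu d W u ω, (Vfd d W u v ω,
        (⌊σ * (d.hL W A (slam F W ω)).eval (uw F W ω) / 2 ^ x⌋,
        (d.cx (slam F W ω), F.W ω)))) =
      (Vfu d W u ω', (Vfd d W u v ω',
        (⌊σ * (d.hL W A (slam F W ω')).eval (uw F W ω') / 2 ^ x⌋,
        (d.cx (slam F W ω'), F.W ω')))) →
      |⌊(2 : ℝ) ^ n₁ * d.v W r ω⌋ - ⌊(2 : ℝ) ^ n₁ * d.v W r ω'⌋| ≤ ((M + 2 : ℕ) : ℤ) := by
    intro ω ω' hω hω' e
    simp only [Prod.mk.injEq] at e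
    obtain ⟨e1, -, e2, e3, e9⟩ := e
    have h1 := key ω ω' (hBp ω hω) (hBp ω' hω') e1 e9 e3
    have h2 := of_floor_div (by linarith : (0 : ℝ) < 2 ^ x) e2
    have h3 : |(2 : ℝ) ^ n₁ * d.v W r ω - 2 ^ n₁ * d.v W r ω'| ≤ ((M + 1 : ℕ) : ℝ) := by
      rw [← mul_sub, abs_mul, abs_of_pos (by positivity : (0 : ℝ) < 2 ^ n₁)]
      have h4 : σ * |d.v W r ω - d.v W r ω'| ≤ 2 ^ x + M := by
        have h5 : σ * |d.v W r ω - d.v W r ω'| = |σ * (d.v W r ω' - d.v W r ω)| := by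
          rw [abs_mul, abs_of_nonneg hσ0, abs_sub_comm]
        rw [h5]
        rw [abs_le] at h1 h2 ⊢
        constructor <;> linarith [h1.1, h1.2, h2.1, h2.2]
      have h6 : (2 : ℝ) ^ n₁ * 2 ^ x ≤ σ := by
        rw [hσ, ← Real.rpow_natCast 2 n₁, ← Real.rpow_natCast 2 n₂, ← Real.rpow_add (by norm_num)]
        exact Real.rpow_le_rpow_of_exponent_le (by norm_num) hn
      have h8 : (2 : ℝ) ^ x * (2 ^ n₁ * |d.v W r ω - d.v W r ω'|) ≤ 2 ^ x * (M + 1) := by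
        have h9 : (2 : ℝ) ^ x * (2 ^ n₁ * |d.v W r ω - d.v W r ω'|) ≤
            σ * |d.v W r ω - d.v W r ω'| := by
          rw [← mul_assoc, mul_comm ((2 : ℝ) ^ x)]
          exact mul_le_mul_of_nonneg_right h6 (abs_nonneg _)
        have h10 : (M : ℝ) ≤ 2 ^ x * M := le_mul_of_one_le_left hM0 hx1
        linarith
      have h11 := le_of_mul_le_mul_left h8 (by linarith)
      push_cast
      exact h11
    have h4 := floor_sub_le h3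
    push_cast at h4 ⊢
    linarith
  have f2 : ∀ ω ω', 0 < Pool.Agent.H49.Ent.cond F.p B True ω →
      0 < Pool.Agent.H49.Ent.cond F.p B True ω' →
      (⌊(2 : ℝ) ^ n₃ * d.v W r ω⌋, (⌊(2 : ℝ) ^ n₁ * d.v W r ω⌋, (Vfu d W u ω, (Vfd d W u v ω,
        (⌊σ * (d.hL W A (slam F W ω)).eval (uw F W ω) / 2 ^ x⌋,
        (d.cx (slam F W ω), F.W ω)))))) =
      (⌊(2 : ℝ) ^ n₃ * d.v W r ω'⌋, (⌊(2 : ℝ) ^ n₁ * d.v W r ω'⌋, (Vfu d W u ω', (Vfd d W u v ω',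
        (⌊σ * (d.hL W A (slam F W ω')).eval (uw F W ω') / 2 ^ x⌋,
        (d.cx (slam F W ω'), F.W ω')))))) →
      |⌊σ * (d.hL W A (slam F W ω)).eval (uw F W ω) / 2 ^ y⌋ -
        ⌊σ * (d.hL W A (slam F W ω')).eval (uw F W ω') / 2 ^ y⌋| ≤ ((M + 2 : ℕ) : ℤ) := by
    intro ω ω' hω hω' e
    simp only [Prod.mk.injEq] at e
    obtain ⟨e0, -, e1, -, -, e3, e9⟩ := e
    have h1 := key ω ω' (hBp ω hω) (hBp ω' hω') e1 e9 e3
    have h2 : |d.v W r ω - d.v W r ω'| ≤ 1 / 2 ^ n₃ :=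
      of_floor_mul (by positivity : (0 : ℝ) < 2 ^ n₃) e0
    have h3 : |σ * (d.hL W A (slam F W ω)).eval (uw F W ω) / 2 ^ y -
        σ * (d.hL W A (slam F W ω')).eval (uw F W ω') / 2 ^ y| ≤ ((M + 1 : ℕ) : ℝ) := by
      have h5 : |σ * (d.v W r ω' - d.v W r ω)| ≤ 2 ^ y := by
        rw [abs_mul, abs_of_nonneg hσ0, abs_sub_comm]
        calc σ * |d.v W r ω - d.v W r ω'| ≤ σ * (1 / 2 ^ n₃) :=
              mul_le_mul_of_nonneg_left h2 hσ0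
          _ ≤ 2 ^ y := by
            rw [hσ, mul_one_div, div_le_iff₀ (by positivity), ← Real.rpow_natCast 2 n₂,
              ← Real.rpow_natCast 2 n₃, ← Real.rpow_add (by norm_num)]
            exact Real.rpow_le_rpow_of_exponent_le (by norm_num) (by linarith)
      rw [← sub_div, abs_div, abs_of_pos (by linarith : (0 : ℝ) < 2 ^ y),
        div_le_iff₀ (by linarith)]
      push_cast
      have h6 : (M : ℝ) ≤ M * 2 ^ y := le_mul_of_one_le_right hM0 hy1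
      rw [abs_le] at h1 h5 ⊢
      constructor <;> nlinarith [h1.1, h1.2, h5.1, h5.2]
    have h4 := floor_sub_le h3
    push_cast at h4 ⊢
    linarith
  have g1 := CH_pair hp _ _ f1
  have g2 := CH_pair hp _ _ f2
  have hVd : CH (Pool.Agent.H49.Ent.cond F.p B True) (Vfd d W u v)
      (fun ω => (⌊σ * (d.hL W A (slam F W ω)).eval (uw F W ω) / 2 ^ x⌋,
        (d.cx (slam F W ω), F.W ω))) ≤
      ∑ l ∈ range r, ((u l - v l : ℕ) : ℝ) * Real.log 2 :=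
    (CH_le_Hu hp _ _).trans (H_Vfd d W u v hp)
  have s1 := nf_swap h0
    (fun ω => ⌊σ * (d.hL W A (slam F W ω)).eval (uw F W ω) / 2 ^ y⌋) (Vfd d W u v)
    (fun ω => (⌊σ * (d.hL W A (slam F W ω)).eval (uw F W ω) / 2 ^ x⌋,
        (d.cx (slam F W ω), F.W ω))) G hVd
  have s2 := CH_step h0
    (fun ω => ⌊σ * (d.hL W A (slam F W ω)).eval (uw F W ω) / 2 ^ y⌋)
    (Vfu d W u)
    (fun ω => (Vfd d W u v ω,
      (⌊σ * (d.hL W A (slam F W ω)).eval (uw F W ω) / 2 ^ x⌋, (d.cx (slam F W ω), F.W ω))))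
  have s3 := CH_step h0
    (fun ω => ⌊σ * (d.hL W A (slam F W ω)).eval (uw F W ω) / 2 ^ y⌋)
    (fun ω => ⌊(2 : ℝ) ^ n₁ * d.v W r ω⌋)
    (fun ω => (Vfu d W u ω, (Vfd d W u v ω,
      (⌊σ * (d.hL W A (slam F W ω)).eval (uw F W ω) / 2 ^ x⌋, (d.cx (slam F W ω), F.W ω)))))
  have s4 := CH_step h0
    (fun ω => ⌊σ * (d.hL W A (slam F W ω)).eval (uw F W ω) / 2 ^ y⌋)
    (fun ω => ⌊(2 : ℝ) ^ n₃ * d.v W r ω⌋)
    (fun ω => (⌊(2 : ℝ) ^ n₁ * d.v W r ω⌋, (Vfu d W u ω, (Vfd d W u v ω,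
      (⌊σ * (d.hL W A (slam F W ω)).eval (uw F W ω) / 2 ^ x⌋,
        (d.cx (slam F W ω), F.W ω))))))
  have s5 : CH (Pool.Agent.H49.Ent.cond F.p B True) (fun ω => ⌊(2 : ℝ) ^ n₃ * d.v W r ω⌋)
      (fun ω => (⌊(2 : ℝ) ^ n₁ * d.v W r ω⌋, (Vfu d W u ω, (Vfd d W u v ω,
      (⌊σ * (d.hL W A (slam F W ω)).eval (uw F W ω) / 2 ^ x⌋,
        (d.cx (slam F W ω), F.W ω)))))) ≤
      CH (Pool.Agent.H49.Ent.cond F.p B True) (fun ω => ⌊(2 : ℝ) ^ n₃ * d.v W r ω⌋)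
      (fun ω => (⌊(2 : ℝ) ^ n₁ * d.v W r ω⌋, (Vfu d W u ω, (d.fc (slam F W ω), F.W ω)))) :=
    CH_mono_cond h0 fun ω ω' _ _ e => by
      simp only [Prod.mk.injEq] at e
      obtain ⟨f1, f2, -, -, f3, f4⟩ := e
      have f5 : d.fc (slam F W ω) = d.fc (slam F W ω') := by
        unfold Dat.cx at f3
        exact (Prod.ext_iff.1 (Prod.ext_iff.1 f3).1).2
      exact Prod.ext f1 (Prod.ext f2 (Prod.ext f5 f4))
  have s6 := CH_vfu huv hSV HG.SVE hp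
    (fun ω => (Vfd d W u v ω,
      (⌊σ * (d.hL W A (slam F W ω)).eval (uw F W ω) / 2 ^ x⌋,
        (d.cx (slam F W ω), F.W ω)))) fun ω ω' _ _ e => by
      simp only [Prod.mk.injEq] at e
      exact ⟨e.2.2.2, e.2.2.1, e.1⟩
  linarith

/-- **The rows at the levels of a grid**, in the form of the law on all jets. -/
theorem nfg_fr (hA : 0 < Pe F.p A)
    {u v : ℕ → ℕ} (huv : ∀ l < r, v l ≤ u l) (hSV : ∀ l < r, d.SV l = 2 ^ v l) {K₁ : ℕ} {n₂ : ℕ}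
    (hlip : ∀ ω, A ω → ∀ l < r, ∀ j ≤ D,
      (2 : ℝ) ^ n₂ * |(d.gp l (slam F W ω)).coeff j| ≤ K₁ * 2 ^ u l)
    {q h c₀ e e' : ℝ} {N₀ : ℕ} (hq : 0 ≤ q) (hqn : q * J ≤ n₂) (hh1 : h ≤ 1)
    (hh : 0 ≤ h) (hc₀ : 0 < c₀) (hN₀ : 0 < N₀)
    (he : 2 * (e * J) + 2 * Real.log 2 +
      (r * Real.log (2 * (3 : ℕ) + 1) +
      2 * Real.log (2 * (r * ((D + 1) * K₁) + 2 : ℕ) + 1) +
      ((r * (D + 3)) * Real.log (2 * ((2 * K : ℕ) + 1) + 1) +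
        2 * Real.log (2 * (K * (1 + r * (D + 1) ^ 2) + 1 : ℕ) + 1))) ≤ e' * J)
    (hrow : ∀ B : F.Ω → Prop, Sub B A → c₀ * Pe F.p A ≤ Pe F.p B →
      (∀ n₁ n₃ : ℕ, n₁ ≤ n₃ → n₃ ≤ n₂ → (n₂ : ℝ) - n₁ ≤ q * J + 1 →
        CH (Pool.Agent.H49.Ent.cond F.p B True) (fun ω => ⌊(2 : ℝ) ^ n₃ * d.v W r ω⌋)
          (fun ω => (⌊(2 : ℝ) ^ n₁ * d.v W r ω⌋, (Vfu d W u ω, (d.fc (slam F W ω), F.W ω)))) ≤
          (1 - h) * ((n₃ : ℝ) - n₁) * Real.log 2 + e * J) ∧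
      ∃ (γ' : Type) (G : F.Ω → γ'), HopP d B W (2 ^ n₂) K G ∧
        ∑ l ∈ range r, ((u l - v l : ℕ) : ℝ) * Real.log 2 - e * J ≤
          CH (Pool.Agent.H49.Ent.cond F.p B True) (Vfd d W u v) G) :
    Pool.AJ18.NFg F A (fun s => Polynomial.C ((2 : ℝ) ^ n₂) * d.hL W A s) (fun s => d.cx s) W q h
      e' c₀ N₀ := by
  intro B hBA hBc i j hij hj
  obtain ⟨hr1, γ', G, HG, hfull⟩ := hrow B hBA hBc
  have hJr : (0 : ℝ) ≤ J := Nat.cast_nonneg J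
  have hl2 : 0 < Real.log 2 := Real.log_pos (by norm_num)
  have hB : 0 < Pe F.p B := lt_of_lt_of_le (mul_pos hc₀ hA) hBc
  have hN0 : (0 : ℝ) < N₀ := by exact_mod_cast hN₀
  have hi0 : (0 : ℝ) ≤ i := Nat.cast_nonneg i
  have hij' : (i : ℝ) ≤ j := by exact_mod_cast hij
  have hj' : (j : ℝ) ≤ N₀ := by exact_mod_cast hj
  obtain ⟨y, hy⟩ : ∃ y : ℝ, y = (q * i / N₀) * J := ⟨_, rfl⟩
  obtain ⟨x, hx⟩ : ∃ x : ℝ, x = (q * j / N₀) * J := ⟨_, rfl⟩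
  have hy0 : 0 ≤ y := by
    rw [hy]
    positivity
  have hyx : y ≤ x := by
    rw [hy, hx]
    gcongr
  have hxq : x ≤ q * J := by
    rw [hx]
    refine mul_le_mul_of_nonneg_right ?_ hJr
    rw [div_le_iff₀ hN0]
    exact mul_le_mul_of_nonneg_left hj' hq
  rw [← hy, ← hx]
  obtain ⟨n₁, hn₁⟩ : ∃ n₁ : ℕ, n₁ = ⌊(n₂ : ℝ) - x⌋₊ := ⟨_, rfl⟩
  obtain ⟨n₃, hn₃⟩ : ∃ n₃ : ℕ, n₃ = ⌈(n₂ : ℝ) - y⌉₊ := ⟨_, rfl⟩
  have hnx : 0 ≤ (n₂ : ℝ) - x := by linarith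
  have hny : 0 ≤ (n₂ : ℝ) - y := by linarith
  have a1 : (n₁ : ℝ) + x ≤ n₂ := by
    have := Nat.floor_le hnx
    rw [← hn₁] at this
    linarith
  have a2 : (n₂ : ℝ) < n₁ + x + 1 := by
    have := Nat.lt_floor_add_one ((n₂ : ℝ) - x)
    rw [← hn₁] at this
    linarith
  have a3 : (n₂ : ℝ) ≤ n₃ + y := by
    have := Nat.le_ceil ((n₂ : ℝ) - y)
    rw [← hn₃] at this
    linarith
  have a4 : (n₃ : ℝ) + y < n₂ + 1 := by
    have := Nat.ceil_lt_add_one hny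
    rw [← hn₃] at this
    linarith
  have a5 : n₁ ≤ n₃ := by
    have : (n₁ : ℝ) ≤ n₃ := by linarith
    exact_mod_cast this
  have a6 : n₃ ≤ n₂ := by
    rw [hn₃]
    exact Nat.ceil_le.2 (by linarith)
  have s1 := rows_fr (W := W) hBA hB huv hSV hlip rfl (hy0.trans hyx) a1 hy0 a3 HG
  have s2 := hr1 n₁ n₃ a5 a6 (by linarith)
  have e1 : ∀ ω, pj F (fun s => Polynomial.C ((2 : ℝ) ^ n₂) * d.hL W A s) W 0 ω =
      (2 : ℝ) ^ n₂ * (d.hL W A (slam F W ω)).eval (uw F W ω) := fun ω => by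
    unfold pj
    rw [Function.iterate_zero, id]
    dsimp only
    rw [Polynomial.eval_mul, Polynomial.eval_C]
  simp only [e1]
  refine s1.trans ?_
  have b1 : (1 - h) * ((n₃ : ℝ) - n₁) * Real.log 2 ≤
      (1 - h) * (q * j / N₀ - q * i / N₀) * Real.log 2 * J + 2 * Real.log 2 := by
    have c1 : (1 - h) * ((n₃ : ℝ) - n₁) ≤ (1 - h) * (x - y + 2) :=
      mul_le_mul_of_nonneg_left (by linarith) (by linarith)
    have c2 : (1 - h) * (x - y + 2) ≤ (1 - h) * (x - y) + 2 := by nlinarith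
    have c3 := mul_le_mul_of_nonneg_right (c1.trans c2) hl2.le
    have c4 : (1 - h) * (x - y) = (1 - h) * (q * j / N₀ - q * i / N₀) * J := by
      rw [hx, hy]
      ring
    rw [add_mul, c4] at c3
    linarith
  have e2 : ((1 - h) * (q * j / N₀ - q * i / N₀) * Real.log 2 + e') * J =
      (1 - h) * (q * j / N₀ - q * i / N₀) * Real.log 2 * J + e' * J := by ring
  rw [e2]
  obtain ⟨R, hR⟩ : ∃ R : ℝ, R = (r * Real.log (2 * (3 : ℕ) + 1) +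
      2 * Real.log (2 * (r * ((D + 1) * K₁) + 2 : ℕ) + 1) +
      ((r * (D + 3)) * Real.log (2 * ((2 * K : ℕ) + 1) + 1) +
        2 * Real.log (2 * (K * (1 + r * (D + 1) ^ 2) + 1 : ℕ) + 1))) := ⟨_, rfl⟩
  rw [← hR] at he ⊢
  have s3 := s2.trans (add_le_add b1 le_rfl)
  have s4 := add_le_add s3 (sub_le_comm.1 hfull)
  refine (add_le_add s4 (le_refl R)).trans ?_
  linarith


/-- **The rows at the levels of a grid, from the rows of the coordinate of the target given the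
other coordinates exactly**, and from the fullness of the frame digits given two records. -/
theorem nfg_frm_w {c : ℕ → Fin m} {E₀ : ℕ} {w : ℕ → ℕ} (hA : 0 < Pe F.p A)
    (hF : FrW d A W c w E₀)
    (hcr : ∀ l < r, c l ≠ c r) (hc : ∀ j, j ≠ c r → ∃ l < r, c l = j)
    {u v o : ℕ → ℕ} (hu : ∀ l < r, u l ≤ J) (hw : ∀ l < r, u l ≤ w l) (hou : ∀ l < r, o l ≤ u l)
    (huv : ∀ l < r, v l ≤ u l) (hSV : ∀ l < r, d.SV l = 2 ^ v l) {K₁ : ℕ} {n₂ : ℕ} (hn2 : n₂ ≤ w r)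
    (hlip : ∀ ω, A ω → ∀ l < r, ∀ j ≤ D,
      (2 : ℝ) ^ n₂ * |(d.gp l (slam F W ω)).coeff j| ≤ K₁ * 2 ^ u l)
    {q h c₀ e e' : ℝ} {N₀ K₂ : ℕ} (hq : 0 ≤ q) (hqn : q * J ≤ n₂) (hh1 : h ≤ 1)
    (hh : 0 ≤ h) (hc₀ : 0 < c₀) (hN₀ : 0 < N₀)
    (he : 4 * (e * J) + 2 * Real.log 2 +
      ((2 * r + 2) * Real.log (2 * (2 + r * E₀ : ℕ) + 1) + Real.log (2 * (K₂ + 1 : ℕ) + 1)) +
      (r * Real.log (2 * (3 : ℕ) + 1) +
      2 * Real.log (2 * (r * ((D + 1) * K₁) + 2 : ℕ) + 1) +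
      ((r * (D + 3)) * Real.log (2 * ((2 * K : ℕ) + 1) + 1) +
        2 * Real.log (2 * (K * (1 + r * (D + 1) ^ 2) + 1 : ℕ) + 1))) ≤ e' * J)
    (hrow : ∀ B : F.Ω → Prop, Sub B A → c₀ * Pe F.p A ≤ Pe F.p B →
      (∀ n₁ n₃ : ℕ, n₁ ≤ n₃ → n₃ ≤ n₂ → (n₂ : ℝ) - n₁ ≤ q * J + 1 →
        CH (Pool.Agent.H49.Ent.cond F.p B True) (fun ω => F.X n₃ ω (c r))
          (fun ω => (F.X n₁ ω (c r), oth (c r) J F (ptr F J ω))) ≤
          (1 - h) * ((n₃ : ℝ) - n₁) * Real.log 2 + e * J) ∧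
      (∃ (β γ₁ : Type) (Yv : F.Ω → β) (G₁ : F.Ω → γ₁),
        (∀ ω ω', B ω → B ω' → (∀ l < r, F.X J ω (c l) = F.X J ω' (c l)) → Yv ω = Yv ω') ∧
        (∀ ω ω', B ω → B ω' → G₁ ω = G₁ ω' → F.W ω = F.W ω') ∧
        (∀ ω ω', B ω → B ω' → G₁ ω = G₁ ω' → d.fc (slam F W ω) = d.fc (slam F W ω')) ∧
        (∀ ω ω', B ω → B ω' → G₁ ω = G₁ ω' →
          (∀ l < r, ⌊(2 : ℝ) ^ u l * d.v W l ω⌋ = ⌊(2 : ℝ) ^ u l * d.v W l ω'⌋) →
          |(2 : ℝ) ^ n₂ * d.v W r ω - 2 ^ n₂ * d.v W r ω'| ≤ K₂) ∧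
        CH (Pool.Agent.H49.Ent.cond F.p B True) (Vfu d W u) G₁ ≤
          ∑ l ∈ range r, ((u l - o l : ℕ) : ℝ) * Real.log 2 + e * J ∧
        ∑ l ∈ range r, ((J - o l : ℕ) : ℝ) * Real.log 2 - e * J ≤
          CH (Pool.Agent.H49.Ent.cond F.p B True) Yv G₁) ∧
      ∃ (γ' : Type) (G : F.Ω → γ'), HopP d B W (2 ^ n₂) K G ∧
        ∑ l ∈ range r, ((u l - v l : ℕ) : ℝ) * Real.log 2 - e * J ≤
          CH (Pool.Agent.H49.Ent.cond F.p B True) (Vfd d W u v) G) :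
    Pool.AJ18.NFg F A (fun s => Polynomial.C ((2 : ℝ) ^ n₂) * d.hL W A s) (fun s => d.cx s) W q h
      e' c₀ N₀ := by
  have hJr : (0 : ℝ) ≤ J := Nat.cast_nonneg J
  have hl2 : 0 < Real.log 2 := Real.log_pos (by norm_num)
  obtain ⟨R₁, hR₁⟩ : ∃ R : ℝ, R = (2 * r + 2) * Real.log (2 * (2 + r * E₀ : ℕ) + 1) +
      Real.log (2 * (K₂ + 1 : ℕ) + 1) := ⟨_, rfl⟩
  rw [← hR₁] at he
  intro B hBA hBc i j hij hj
  obtain ⟨hr1, ⟨β, γ₁, Yv, G₁, y1, y2, y3, y4, y5, y6⟩, γ', G, HG, hfull⟩ := hrow B hBA hBc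
  have hB : 0 < Pe F.p B := lt_of_lt_of_le (mul_pos hc₀ hA) hBc
  have hN0 : (0 : ℝ) < N₀ := by exact_mod_cast hN₀
  have hi0 : (0 : ℝ) ≤ i := Nat.cast_nonneg i
  have hij' : (i : ℝ) ≤ j := by exact_mod_cast hij
  have hj' : (j : ℝ) ≤ N₀ := by exact_mod_cast hj
  obtain ⟨y, hy⟩ : ∃ y : ℝ, y = (q * i / N₀) * J := ⟨_, rfl⟩
  obtain ⟨x, hx⟩ : ∃ x : ℝ, x = (q * j / N₀) * J := ⟨_, rfl⟩
  have hy0 : 0 ≤ y := by
    rw [hy]
    positivity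
  have hyx : y ≤ x := by
    rw [hy, hx]
    gcongr
  have hxq : x ≤ q * J := by
    rw [hx]
    refine mul_le_mul_of_nonneg_right ?_ hJr
    rw [div_le_iff₀ hN0]
    exact mul_le_mul_of_nonneg_left hj' hq
  rw [← hy, ← hx]
  obtain ⟨n₁, hn₁⟩ : ∃ n₁ : ℕ, n₁ = ⌊(n₂ : ℝ) - x⌋₊ := ⟨_, rfl⟩
  obtain ⟨n₃, hn₃⟩ : ∃ n₃ : ℕ, n₃ = ⌈(n₂ : ℝ) - y⌉₊ := ⟨_, rfl⟩
  have hnx : 0 ≤ (n₂ : ℝ) - x := by linarith
  have a1 : (n₁ : ℝ) + x ≤ n₂ := by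
    have := Nat.floor_le hnx
    rw [← hn₁] at this
    linarith
  have a2 : (n₂ : ℝ) < n₁ + x + 1 := by
    have := Nat.lt_floor_add_one ((n₂ : ℝ) - x)
    rw [← hn₁] at this
    linarith
  have a3 : (n₂ : ℝ) ≤ n₃ + y := by
    have := Nat.le_ceil ((n₂ : ℝ) - y)
    rw [← hn₃] at this
    linarith
  have a4 : (n₃ : ℝ) + y < n₂ + 1 := by
    have := Nat.ceil_lt_add_one (by linarith : 0 ≤ (n₂ : ℝ) - y)
    rw [← hn₃] at this
    linarith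
  have a5 : n₁ ≤ n₃ := by
    have : (n₁ : ℝ) ≤ n₃ := by linarith
    exact_mod_cast this
  have a6 : n₃ ≤ n₂ := by
    rw [hn₃]
    exact Nat.ceil_le.2 (by linarith)
  have s1 := rows_fr (W := W) hBA hB huv hSV hlip rfl (hy0.trans hyx) a1 hy0 a3 HG
  have s0 := stg_frame_w (u := u) (o := o) hF hBA hB hcr hu hw hou hc a5 (a6.trans hn2) (K := K₂)
    (eV := e * J) y1 y2 y3 (fun ω ω' hω hω' e1 e2 => by
      have b1 := y4 ω ω' hω hω' e1 e2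
      rw [← mul_sub, abs_mul, abs_of_pos (by positivity : (0 : ℝ) < 2 ^ n₂)] at b1
      rw [← mul_sub, abs_mul, abs_of_pos (by positivity : (0 : ℝ) < 2 ^ n₃)]
      refine le_trans (mul_le_mul_of_nonneg_right ?_ (abs_nonneg _)) b1
      exact pow_le_pow_right₀ (by norm_num) a6) y5
  have s2 := hr1 n₁ n₃ a5 a6 (by linarith)
  have e1 : ∀ ω, pj F (fun s => Polynomial.C ((2 : ℝ) ^ n₂) * d.hL W A s) W 0 ω =
      (2 : ℝ) ^ n₂ * (d.hL W A (slam F W ω)).eval (uw F W ω) := fun ω => by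
    unfold pj
    rw [Function.iterate_zero, id]
    dsimp only
    rw [Polynomial.eval_mul, Polynomial.eval_C]
  simp only [e1]
  refine s1.trans ?_
  have b1 : (1 - h) * ((n₃ : ℝ) - n₁) * Real.log 2 ≤
      (1 - h) * (q * j / N₀ - q * i / N₀) * Real.log 2 * J + 2 * Real.log 2 := by
    have c1 : (1 - h) * ((n₃ : ℝ) - n₁) ≤ (1 - h) * (x - y + 2) :=
      mul_le_mul_of_nonneg_left (by linarith) (by linarith)
    have c2 : (1 - h) * (x - y + 2) ≤ (1 - h) * (x - y) + 2 := by nlinarith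
    have c3 := mul_le_mul_of_nonneg_right (c1.trans c2) hl2.le
    have c4 : (1 - h) * (x - y) = (1 - h) * (q * j / N₀ - q * i / N₀) * J := by
      rw [hx, hy]
      ring
    rw [add_mul, c4] at c3
    linarith
  have e2 : ((1 - h) * (q * j / N₀ - q * i / N₀) * Real.log 2 + e') * J =
      (1 - h) * (q * j / N₀ - q * i / N₀) * Real.log 2 * J + e' * J := by ring
  rw [e2]
  obtain ⟨R, hR⟩ : ∃ R : ℝ, R = (r * Real.log (2 * (3 : ℕ) + 1) +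
      2 * Real.log (2 * (r * ((D + 1) * K₁) + 2 : ℕ) + 1) +
      ((r * (D + 3)) * Real.log (2 * ((2 * K : ℕ) + 1) + 1) +
        2 * Real.log (2 * (K * (1 + r * (D + 1) ^ 2) + 1 : ℕ) + 1))) := ⟨_, rfl⟩
  rw [← hR] at he ⊢
  have s0' : CH (Pool.Agent.H49.Ent.cond F.p B True) (fun ω => ⌊(2 : ℝ) ^ n₃ * d.v W r ω⌋)
      (fun ω => (⌊(2 : ℝ) ^ n₁ * d.v W r ω⌋, (Vfu d W u ω, (d.fc (slam F W ω), F.W ω)))) ≤ _ := s0
  have s3 := s2.trans (add_le_add b1 le_rfl)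
  linarith

/-- **The rows at the levels of a grid, from the rows of the coordinate of the target given the
other coordinates exactly**, and from the fullness of the frame digits given two records. -/
theorem nfg_frm {c : ℕ → Fin m} {E₀ : ℕ} (hA : 0 < Pe F.p A) (hF : FrD d A W c E₀)
    (hcr : ∀ l < r, c l ≠ c r) (hc : ∀ j, j ≠ c r → ∃ l < r, c l = j)
    {u v o : ℕ → ℕ} (hu : ∀ l < r, u l ≤ J) (hou : ∀ l < r, o l ≤ u l)
    (huv : ∀ l < r, v l ≤ u l) (hSV : ∀ l < r, d.SV l = 2 ^ v l) {K₁ : ℕ} {n₂ : ℕ} (hn2 : n₂ ≤ J)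
    (hlip : ∀ ω, A ω → ∀ l < r, ∀ j ≤ D,
      (2 : ℝ) ^ n₂ * |(d.gp l (slam F W ω)).coeff j| ≤ K₁ * 2 ^ u l)
    {q h c₀ e e' : ℝ} {N₀ K₂ : ℕ} (hq : 0 ≤ q) (hqn : q * J ≤ n₂) (hh1 : h ≤ 1)
    (hh : 0 ≤ h) (hc₀ : 0 < c₀) (hN₀ : 0 < N₀)
    (he : 4 * (e * J) + 2 * Real.log 2 +
      ((2 * r + 2) * Real.log (2 * (2 + r * E₀ : ℕ) + 1) + Real.log (2 * (K₂ + 1 : ℕ) + 1)) +
      (r * Real.log (2 * (3 : ℕ) + 1) +
      2 * Real.log (2 * (r * ((D + 1) * K₁) + 2 : ℕ) + 1) +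
      ((r * (D + 3)) * Real.log (2 * ((2 * K : ℕ) + 1) + 1) +
        2 * Real.log (2 * (K * (1 + r * (D + 1) ^ 2) + 1 : ℕ) + 1))) ≤ e' * J)
    (hrow : ∀ B : F.Ω → Prop, Sub B A → c₀ * Pe F.p A ≤ Pe F.p B →
      (∀ n₁ n₃ : ℕ, n₁ ≤ n₃ → n₃ ≤ n₂ → (n₂ : ℝ) - n₁ ≤ q * J + 1 →
        CH (Pool.Agent.H49.Ent.cond F.p B True) (fun ω => F.X n₃ ω (c r))
          (fun ω => (F.X n₁ ω (c r), oth (c r) J F (ptr F J ω))) ≤
          (1 - h) * ((n₃ : ℝ) - n₁) * Real.log 2 + e * J) ∧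
      (∃ (β γ₁ : Type) (Yv : F.Ω → β) (G₁ : F.Ω → γ₁),
        (∀ ω ω', B ω → B ω' → (∀ l < r, F.X J ω (c l) = F.X J ω' (c l)) → Yv ω = Yv ω') ∧
        (∀ ω ω', B ω → B ω' → G₁ ω = G₁ ω' → F.W ω = F.W ω') ∧
        (∀ ω ω', B ω → B ω' → G₁ ω = G₁ ω' → d.fc (slam F W ω) = d.fc (slam F W ω')) ∧
        (∀ ω ω', B ω → B ω' → G₁ ω = G₁ ω' →
          (∀ l < r, ⌊(2 : ℝ) ^ u l * d.v W l ω⌋ = ⌊(2 : ℝ) ^ u l * d.v W l ω'⌋) →
          |(2 : ℝ) ^ n₂ * d.v W r ω - 2 ^ n₂ * d.v W r ω'| ≤ K₂) ∧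
        CH (Pool.Agent.H49.Ent.cond F.p B True) (Vfu d W u) G₁ ≤
          ∑ l ∈ range r, ((u l - o l : ℕ) : ℝ) * Real.log 2 + e * J ∧
        ∑ l ∈ range r, ((J - o l : ℕ) : ℝ) * Real.log 2 - e * J ≤
          CH (Pool.Agent.H49.Ent.cond F.p B True) Yv G₁) ∧
      ∃ (γ' : Type) (G : F.Ω → γ'), HopP d B W (2 ^ n₂) K G ∧
        ∑ l ∈ range r, ((u l - v l : ℕ) : ℝ) * Real.log 2 - e * J ≤
          CH (Pool.Agent.H49.Ent.cond F.p B True) (Vfd d W u v) G) :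
    Pool.AJ18.NFg F A (fun s => Polynomial.C ((2 : ℝ) ^ n₂) * d.hL W A s) (fun s => d.cx s) W q h
      e' c₀ N₀ :=
  nfg_frm_w (w := fun _ => J) hA (hF.toW fun _ _ => le_rfl) hcr hc hu hu hou huv hSV hn2 hlip hq hqn
    hh1 hh hc₀ hN₀ he hrow

end

end Pool.D2P
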