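import Pool.Agent.H4.D2.Shr
import Pool.Agent.H4.D2.Rfr

/-!
# The rows of the own height over a ball with natural charts

`hds`: the data of the context with the target in the frame. `hds_frd`, `hds_lip`: the own paths
are coordinates in a frame and the gradients are natural. `Gb.rec`, `Gb.tgt`: in a ball the frame
digits determine the coordinate of the target in the frame. `nfg_gb`: the rows of the own height.
-/

set_option autoImplicit false

namespace Pool.D2F2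

open Finset Real MvPolynomial
open Pool.Agent.H49.Ent Pool.Agent.H32.Dense Pool.STK Pool.KA Pool.KSAT Pool.K2S Pool.PB Pool.GEN
open Pool.S6C Pool.LA91 Pool.CHT Pool.CHX
open Pool.OWN68 (opl tw uw CH_pair natDegree_opl opl_jet uw_abs floor_sub_le)
open Pool.GEN.N83 (oth)
open Pool.D2R (dd hs co)
open Pool.D2F (cv CvC eta dvn nc grd cv_grd cv_nc cv_eq cv_congr cv_sub eta_dvn dvn_none FrOK)
open Pool.D2Z (cvc_grd en en_eq en_succ en_zero en_nonneg en_mono)
open Pool.D2H (uw_eq of_floor_mul eval_small)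
open Pool.D2S (Pr Sg NtB yk en_rec)
open Pool.F5 (NatH)
open Pool.D2P (nfg_frm)

variable {m J : ℕ}

/-- **A triangular chain.** -/
theorem CH_tri {Ω S T : Type} [Fintype Ω] {p : Ω → ℝ} (h0 : ∀ ω, 0 ≤ p ω) (X : ℕ → Ω → S)
    (Z : Ω → T) {b : ℕ → ℝ} {n : ℕ}
    (h : ∀ l < n, CH p (X l) (fun ω => ((fun j : Fin l => X j ω), Z ω)) ≤ b l) :
    CH p (fun ω (l : Fin n) => X l ω) Z ≤ ∑ l ∈ range n, b l := by
  induction n with
  | zero =>
    rw [CH_eq_zero h0 (fun ω ω' _ _ _ => _root_.funext fun l => l.elim0)]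
    simp
  | succ n ih =>
    have h1 := ih fun l hl => h l (by omega)
    have h2 := h n (by omega)
    have h3 := CH_chain h0 (X n) (fun ω (l : Fin n) => X l ω) Z
    have h4 : CH p (fun ω (l : Fin (n + 1)) => X l ω) Z ≤
        CH p (fun ω => (X n ω, fun l : Fin n => X l ω)) Z := by
      refine CH_mono_left h0 fun ω ω' _ _ e => _root_.funext fun l => ?_
      simp only [Prod.mk.injEq] at e
      rcases Nat.lt_succ_iff_lt_or_eq.1 l.2 with h5 | h5
      · exact congrFun e.1.2 ⟨l, h5⟩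
      · rw [h5]
        exact e.1.1
    rw [Finset.sum_range_succ]
    linarith

/-- A covector in frame components. -/
theorem cv_fvs {c : ℕ → Fin m} {r : ℕ} (hc : Set.InjOn c (Set.Iio r)) (g : ℕ → ℕ) (W : ℕ)
    {ψ : ℕ → Option (Fin m) → ℝ} (hψ : ∀ l, CvC c l (ψ l)) {V : Option (Fin m) → ℝ}
    (h0 : V none = 0) :
    cv (ψ r) V = ∑ l ∈ range r, cv (ψ r) (fv c g W r ψ l) * (V (some (c l)) - cv (ψ l) V) := by
  rw [cv_nc hc g W hψ (hψ r), Finset.sum_range_succ']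
  have e0 : eta c g W ψ V 0 = 0 := by
    simp only [eta]
    rw [h0, mul_zero]
  rw [e0, mul_zero, add_zero]
  refine Finset.sum_congr rfl fun l _ => ?_
  rw [cv_fv]
  simp only [eta]
  ring

/-- **The data of the context, the target in the frame.** -/
noncomputable def hds (F : Fam m J) (c : ℕ → Fin m) (g : ℕ → ℕ) (W n r D q sg : ℕ)
    (ψH : LnT F → ℕ → Option (Fin m) → ℝ) (Ht : LnT F → MvPolynomial (Option (Fin m)) ℝ)
    (hD : ∀ s, (Ht s).totalDegree ≤ D) : Dat F (ℕ → Option (Fin m) → ℝ) r D :=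
  (hdt F c g W n r D q sg ψH Ht hD).shr fun ψ l => cv (ψ r) (fv c g W r ψ l)

section

variable {F : Fam m J} {c : ℕ → Fin m} {g ga : ℕ → ℕ} {W n a k r D sg M : ℕ}
    {ψH : LnT F → ℕ → Option (Fin m) → ℝ} {Ht : LnT F → MvPolynomial (Option (Fin m)) ℝ}
    {G : PtT F → ℕ → MvPolynomial (Option (Fin m)) ℝ} {A B : F.Ω → Prop} {q : ℕ}
    {hD : ∀ s, (Ht s).totalDegree ≤ D}

/-- The coordinates in the frame. -/
theorem hds_dv (hW : W ≤ J) (hc : Set.InjOn c (Set.Iio r)) (hψ : ∀ s l, CvC c l (ψH s l))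
    {l : ℕ} (hl : l ≤ r) {ω ω' : F.Ω} (hT : F.T ω = F.T ω')
    (e : ψH (slam F W ω) = ψH (slam F W ω')) :
    (hds F c g W n r D q sg ψH Ht hD).v W l ω' - (hds F c g W n r D q sg ψH Ht hD).v W l ω =
      (bt F ω' - bt F ω) (some (c l)) - cv (ψH (slam F W ω) l) (bt F ω' - bt F ω) := by
  rcases Nat.lt_or_eq_of_le hl with h | h
  · unfold hds
    rw [Dat.shr_v _ _ h, Dat.shr_v _ _ h, hdt_dv hW l e, if_pos h]
  · subst h
    have h0 : (bt F ω' - bt F ω) none = 0 := by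
      have e0 : ∀ ν : F.Ω, bt F ν none = F.t ν := fun _ => rfl
      rw [Pi.sub_apply, e0, e0]
      unfold Fam.t
      rw [hT, sub_self]
    unfold hds
    rw [Dat.shr_vr, Dat.shr_vr]
    have ef : (hdt F c g W n l D q sg ψH Ht hD).fc (slam F W ω') =
        (hdt F c g W n l D q sg ψH Ht hD).fc (slam F W ω) := e.symm
    rw [ef]
    change (hdt F c g W n l D q sg ψH Ht hD).v W l ω' -
      (∑ i ∈ range l, cv (ψH (slam F W ω) l) (fv c g W l (ψH (slam F W ω)) i) *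
        (hdt F c g W n l D q sg ψH Ht hD).v W i ω') -
      ((hdt F c g W n l D q sg ψH Ht hD).v W l ω -
      ∑ i ∈ range l, cv (ψH (slam F W ω) l) (fv c g W l (ψH (slam F W ω)) i) *
        (hdt F c g W n l D q sg ψH Ht hD).v W i ω) = _
    have h1 := hdt_dv (q := q) (sg := sg) (g := g) (n := n) (hD := hD) (r := l) (c := c) hW l e
    rw [if_neg (lt_irrefl l), sub_zero] at h1
    rw [cv_fvs hc g W (hψ (slam F W ω)) h0, ← h1]
    have e2 : ∑ i ∈ range l, cv (ψH (slam F W ω) l) (fv c g W l (ψH (slam F W ω)) i) *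
        ((bt F ω' - bt F ω) (some (c i)) - cv (ψH (slam F W ω) i) (bt F ω' - bt F ω)) =
        (∑ i ∈ range l, cv (ψH (slam F W ω) l) (fv c g W l (ψH (slam F W ω)) i) *
        (hdt F c g W n l D q sg ψH Ht hD).v W i ω') -
        ∑ i ∈ range l, cv (ψH (slam F W ω) l) (fv c g W l (ψH (slam F W ω)) i) *
        (hdt F c g W n l D q sg ψH Ht hD).v W i ω := by
      rw [← Finset.sum_sub_distrib]
      refine Finset.sum_congr rfl fun i hi => ?_
      have h2 := hdt_dv (q := q) (sg := sg) (g := g) (n := n) (hD := hD) (r := l) (c := c) hW i e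
      rw [if_pos (Finset.mem_range.1 hi)] at h2
      rw [← h2]
      ring
    rw [e2]
    ring

/-- **The own paths are coordinates in a frame.** -/
theorem hds_frd {E₀ : ℕ} (hW : W ≤ J) (hc : Set.InjOn c (Set.Iio r))
    (hψ : ∀ s l, CvC c l (ψH s l))
    (hlip : ∀ ω, A ω → ∀ l ≤ r, ∀ j < l, |ψH (slam F W ω) l (some (c j))| ≤ E₀) :
    FrD (hds F c g W n r D q sg ψH Ht hD) A W c E₀ := by
  refine ⟨fun ω ω' hω hω' hT hfc l hl => ?_⟩
  change ψH (slam F W ω) = ψH (slam F W ω') at hfc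
  have ht : (bt F ω' - bt F ω) none = 0 := by
    have e0 : ∀ ν : F.Ω, bt F ν none = F.t ν := fun _ => rfl
    rw [Pi.sub_apply, e0, e0]
    unfold Fam.t
    rw [hT, sub_self]
  refine ⟨fun j => ψH (slam F W ω) l (some (c j)), fun j hj => hlip ω hω l hl j hj, ?_⟩
  rw [hds_dv hW hc hψ hl hT hfc, cv_eq (hc.mono (Set.Iio_subset_Iio hl)) (hψ _ l), ht, mul_zero,
    zero_add]
  rfl

/-- **The gradients are natural.** -/
theorem hds_lip (H : Gb F c g ga W n a k r D sg M ψH Ht G A)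
    (hfr : ∀ ω, A ω → ∀ V : Option (Fin m) → ℝ, V none = 0 →
      |cv (ψH (slam F W ω) r) V - dd (G (ptr F J ω) r) (bt F ω) V| ≤
        2 ^ k / 2 ^ g r * en c g W (ψH (slam F W ω)) r V)
    (siz : ∀ ω, A ω → ∀ l < r, ∀ j, 1 ≤ j →
      |((hdt F c g W n r D q sg ψH Ht hD).gp l (slam F W ω)).coeff j| ≤
        2 ^ k * (2 ^ g l / 2 ^ g r)) {ω : F.Ω} (hω : A ω) {l : ℕ} (hl : l < r) {j : ℕ} :
    (2 : ℝ) ^ (g r + q + sg) * |((hds F c g W n r D q sg ψH Ht hD).gp l (slam F W ω)).coeff j| ≤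
      (((D + 2) * 2 ^ k : ℕ) : ℝ) * 2 ^ (g l + q + sg) := by
  obtain ⟨β, hβ⟩ : ∃ β : ℝ, β = 2 ^ k * (2 ^ g l / 2 ^ g r) := ⟨_, rfl⟩
  have hβ0 : 0 ≤ β := by
    rw [hβ]
    positivity
  have hD0 : (0 : ℝ) ≤ D := Nat.cast_nonneg D
  have key : |((hds F c g W n r D q sg ψH Ht hD).gp l (slam F W ω)).coeff j| ≤ (D + 2) * β := by
    rcases Nat.eq_zero_or_pos j with h | h
    · rw [h]
      have h1 := cof_zero ((hds F c g W n r D q sg ψH Ht hD).gD l (slam F W ω))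
        (uw_abs F W ω) (V := 2 * β) (B := β) ?_ ?_
      · linarith
      · -- the value
        unfold hds
        rw [Dat.shr_g]
        have e1 : ((hdt F c g W n r D q sg ψH Ht hD).gp l (slam F W ω)).eval (uw F W ω) =
            dd (Ht (co n (slam F W ω))) (bt F ω) (fv c g W r (ψH (slam F W ω)) l) :=
          fdat_g H.hW l ω
        rw [e1]
        change |dd (Ht (co n (slam F W ω))) (bt F ω) (fv c g W r (ψH (slam F W ω)) l) -
          cv (ψH (slam F W ω) r) (fv c g W r (ψH (slam F W ω)) l)| ≤ 2 * β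
        have h0 := fv_none c g W r (ψH (slam F W ω)) l
        have h2 := H.win ω hω _ h0
        have h3 := hfr ω hω _ h0
        rw [en_fv H.inj (H.cvH _) hl] at h2 h3
        have e2 : dd (Ht (co n (slam F W ω)) - G (ptr F J ω) r) (bt F ω)
            (fv c g W r (ψH (slam F W ω)) l) =
            dd (Ht (co n (slam F W ω))) (bt F ω) (fv c g W r (ψH (slam F W ω)) l) -
            dd (G (ptr F J ω) r) (bt F ω) (fv c g W r (ψH (slam F W ω)) l) := by
          unfold dd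
          rw [← Finset.sum_sub_distrib]
          refine Finset.sum_congr rfl fun o _ => ?_
          rw [map_sub, map_sub]
          ring
        rw [e2] at h2
        have h4 : (2 : ℝ) ^ k / 2 ^ (g r + sg) * 2 ^ g l ≤ β := by
          rw [hβ, div_mul_eq_mul_div, ← mul_div_assoc]
          refine div_le_div_of_nonneg_left (by positivity) (by positivity) ?_
          exact pow_le_pow_right₀ (by norm_num) (by omega)
        have h5 : (2 : ℝ) ^ k / 2 ^ g r * 2 ^ g l = β := by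
          rw [hβ]
          ring
        rw [h5] at h3
        have e3 : dd (Ht (co n (slam F W ω))) (bt F ω) (fv c g W r (ψH (slam F W ω)) l) -
          cv (ψH (slam F W ω) r) (fv c g W r (ψH (slam F W ω)) l) =
          (dd (Ht (co n (slam F W ω))) (bt F ω) (fv c g W r (ψH (slam F W ω)) l) -
            dd (G (ptr F J ω) r) (bt F ω) (fv c g W r (ψH (slam F W ω)) l)) -
          (cv (ψH (slam F W ω) r) (fv c g W r (ψH (slam F W ω)) l) -
            dd (G (ptr F J ω) r) (bt F ω) (fv c g W r (ψH (slam F W ω)) l)) := by ring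
        rw [e3]
        refine (abs_sub _ _).trans ?_
        linarith
      · intro i hi _
        unfold hds
        rw [Dat.shr_cof _ _ _ _ hi, hβ]
        exact siz ω hω l hl i hi
    · unfold hds
      rw [Dat.shr_cof _ _ _ _ h]
      have h1 := siz ω hω l hl j h
      rw [← hβ] at h1
      exact h1.trans (le_mul_of_one_le_left hβ0 (by linarith))
  refine (mul_le_mul_of_nonneg_left key (by positivity)).trans (le_of_eq ?_)
  rw [hβ]
  push_cast
  simp only [pow_add]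
  field_simp

/-- **In a ball the frame digits of the first coordinates determine the next coordinate in the
frame**, up to the digits of the ball. -/
theorem Gb.vfew (H : Gb F c g ga W n a k r D sg M ψH Ht G A)
    (hfr : ∀ ω, A ω → ∀ V : Option (Fin m) → ℝ, V none = 0 →
      |cv (ψH (slam F W ω) r) V - dd (G (ptr F J ω) r) (bt F ω) V| ≤
        2 ^ k / 2 ^ g r * en c g W (ψH (slam F W ω)) r V)
    {Y : ℝ} (hY : (2 * r + 2) * 2 ^ k ≤ Y) {ω ω' : F.Ω} (hω : A ω) (hω' : A ω')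
    (hT : F.T ω = F.T ω') (hψ : ψH (slam F W ω) = ψH (slam F W ω'))
    (hG : ∀ l ≤ r, G (ptr F J ω) l = G (ptr F J ω') l) {l : ℕ} (hl : l ≤ r) {q' : ℕ}
    (hq : ∀ j < l, |(hds F c g W n r D q sg ψH Ht hD).v W j ω' -
      (hds F c g W n r D q sg ψH Ht hD).v W j ω| ≤ 1 / 2 ^ (g j + q')) {N : ℕ} (h1 : N ≤ ga l)
    (h2 : N ≤ g l + q') :
    |(hds F c g W n r D q sg ψH Ht hD).v W l ω' - (hds F c g W n r D q sg ψH Ht hD).v W l ω| ≤
      2 * Y ^ (r + 4) / 2 ^ N := by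
  obtain ⟨y2, yk1, yr, yr2, yk2, yk3, -⟩ := yk hY
  have hp := H.pr hω hω' hT hG
  have h0 : (bt F ω' - bt F ω) none = 0 := by
    have e0 : ∀ ν : F.Ω, bt F ν none = F.t ν := fun _ => rfl
    rw [Pi.sub_apply, e0, e0]
    unfold Fam.t
    rw [hT, sub_self]
  obtain ⟨x, hx⟩ : ∃ x : Option (Fin m) → ℝ, x = bt F ω' - bt F ω := ⟨_, rfl⟩
  have hen : ∀ j ≤ l, en c g W (ψH (slam F W ω)) j x ≤ j * (1 / 2 ^ q') := by
    intro j
    induction j with
    | zero =>
      intro _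
      rw [en_zero, hx, h0, abs_zero, mul_zero]
      simp
    | succ j ih =>
      intro hj
      have b1 := ih (by omega)
      have b2 := hq j (by omega)
      rw [hds_dv H.hW H.inj H.cvH (by omega) hT hψ, ← hx] at b2
      rw [en_succ]
      have b3 : (2 : ℝ) ^ g j * |x (some (c j)) - cv (ψH (slam F W ω) j) x| ≤ 1 / 2 ^ q' := by
        refine (mul_le_mul_of_nonneg_left b2 (by positivity)).trans (le_of_eq ?_)
        rw [pow_add]
        field_simp
      push_cast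
      linarith
  rw [hds_dv H.hW H.inj H.cvH hl hT hψ, ← hx]
  have c1 := hp.lin hY hl
  rw [← hx] at c1
  have c2 : |cv (ψH (slam F W ω) l) x - dd (G (ptr F J ω) l) (bt F ω) x| ≤
      2 ^ k / 2 ^ g l * en c g W (ψH (slam F W ω)) l x := by
    rcases Nat.lt_or_eq_of_le hl with h | h
    · exact H.frm ω hω l h x
    · subst h
      exact hfr ω hω x (by rw [hx]; exact h0)
  have c3 : (2 : ℝ) ^ k / 2 ^ g l * en c g W (ψH (slam F W ω)) l x ≤ Y ^ (r + 4) / 2 ^ N := by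
    refine (mul_le_mul_of_nonneg_left (hen l le_rfl) (by positivity)).trans ?_
    have d1 : (2 : ℝ) ^ k / 2 ^ g l * (l * (1 / 2 ^ q')) = (2 ^ k * l) / 2 ^ (g l + q') := by
      rw [pow_add]
      field_simp
    rw [d1]
    have hl' : (l : ℝ) ≤ r := by exact_mod_cast hl
    have d2 : (2 : ℝ) ^ k * l ≤ Y ^ (r + 4) := by
      have d3 : (2 : ℝ) ^ k * l ≤ Y * Y :=
        mul_le_mul yk1 (hl'.trans yr) (Nat.cast_nonneg l) (by linarith)
      have d4 : Y * Y = Y ^ 2 := by ring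
      have d5 : Y ^ 2 ≤ Y ^ (r + 4) := pow_le_pow_right₀ (by linarith) (by omega)
      linarith
    have d6 : (2 : ℝ) ^ N ≤ 2 ^ (g l + q') := pow_le_pow_right₀ (by norm_num) h2
    exact div_le_div₀ (by positivity) d2 (by positivity) d6
  have c4 : Y ^ (r + 4) / 2 ^ ga l ≤ Y ^ (r + 4) / 2 ^ N :=
    div_le_div_of_nonneg_left (by positivity) (by positivity)
      (pow_le_pow_right₀ (by norm_num) h1)
  have e1 : x (some (c l)) - cv (ψH (slam F W ω) l) x =
      (x (some (c l)) - dd (G (ptr F J ω) l) (bt F ω) x) -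
      (cv (ψH (slam F W ω) l) x - dd (G (ptr F J ω) l) (bt F ω) x) := by ring
  rw [e1]
  refine (abs_sub _ _).trans ?_
  have e2 : 2 * Y ^ (r + 4) / 2 ^ N = Y ^ (r + 4) / 2 ^ N + Y ^ (r + 4) / 2 ^ N := by ring
  rw [e2]
  linarith

/-- **The number of the values of the frame digits over a ball.** -/
theorem Gb.vcount (H : Gb F c g ga W n a k r D sg M ψH Ht G A)
    (hfr : ∀ ω, A ω → ∀ V : Option (Fin m) → ℝ, V none = 0 →
      |cv (ψH (slam F W ω) r) V - dd (G (ptr F J ω) r) (bt F ω) V| ≤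
        2 ^ k / 2 ^ g r * en c g W (ψH (slam F W ω)) r V)
    {p : F.Ω → ℝ} (hp : IsLaw p) (hpA : ∀ ω, 0 < p ω → A ω) {γ : Type} (G₁ : F.Ω → γ)
    (hG₁ : ∀ ω ω', 0 < p ω → 0 < p ω' → G₁ ω = G₁ ω' → F.W ω = F.W ω' ∧
      ψH (slam F W ω) = ψH (slam F W ω') ∧ ∀ l ≤ r, G (ptr F J ω) l = G (ptr F J ω') l)
    {o : ℕ → ℕ} {q' : ℕ} (ho : ∀ l < r, o l ≤ ga l) (hou : ∀ l < r, o l ≤ g l + q') :
    CH p (Vfu (hds F c g W n r D q sg ψH Ht hD) W fun l => g l + q') G₁ ≤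
      ∑ l ∈ range r, ((g l + q' - o l : ℕ) : ℝ) * Real.log 2 +
      r * Real.log (2 * (2 * ((2 * r + 2) * 2 ^ k) ^ (r + 4) + 1 : ℕ) + 1) := by
  have h0 := hp.nonneg
  obtain ⟨d, hd⟩ : ∃ d : Dat F (ℕ → Option (Fin m) → ℝ) r D,
    d = hds F c g W n r D q sg ψH Ht hD := ⟨_, rfl⟩
  obtain ⟨K, hK⟩ : ∃ K : ℕ, K = 2 * ((2 * r + 2) * 2 ^ k) ^ (r + 4) := ⟨_, rfl⟩
  have hKr : (K : ℝ) = 2 * ((2 * r + 2) * 2 ^ k) ^ (r + 4) := by
    rw [hK]
    push_cast
    ring
  rw [← hd, ← hK]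
  have h1 := CH_tri h0 (fun l ω => ⌊(2 : ℝ) ^ (g l + q') * d.v W l ω⌋) G₁ (n := r)
    (b := fun l => ((g l + q' - o l : ℕ) : ℝ) * Real.log 2 +
      Real.log (2 * (K + 1 : ℕ) + 1)) ?_
  · refine h1.trans (le_of_eq ?_)
    rw [Finset.sum_add_distrib, Finset.sum_const, Finset.card_range, nsmul_eq_mul]
  · intro l hl
    have h2 : CH p (fun ω => ⌊(2 : ℝ) ^ (g l + q') * d.v W l ω⌋)
        (fun ω => ((fun j : Fin l => ⌊(2 : ℝ) ^ (g j + q') * d.v W j ω⌋), G₁ ω)) ≤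
        Real.log (2 * (K * 2 ^ (g l + q' - o l) + 1 : ℕ) + 1) := by
      refine CH_pair hp _ _ fun ω ω' hω hω' e => ?_
      obtain ⟨e1, e2⟩ := Prod.ext_iff.1 e
      dsimp only at e1 e2
      obtain ⟨f1, f2, f3⟩ := hG₁ ω ω' hω hω' e2
      have f4 := H.vfew hfr (le_of_eq rfl) (hpA ω hω) (hpA ω' hω') (Prod.ext_iff.1 f1).1 f2 f3
        hl.le (q := q) (hD := hD) (q' := q') (fun j hj => by
          rw [← hd, abs_sub_comm]
          exact of_floor_mul (by positivity : (0 : ℝ) < 2 ^ (g j + q')) (congrFun e1 ⟨j, hj⟩))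
        (ho l hl) (hou l hl)
      rw [← hd, ← hKr, abs_sub_comm] at f4
      have f5 : |(2 : ℝ) ^ (g l + q') * d.v W l ω - 2 ^ (g l + q') * d.v W l ω'| ≤
          ((K * 2 ^ (g l + q' - o l) : ℕ) : ℝ) := by
        rw [← mul_sub, abs_mul, abs_of_pos (by positivity : (0 : ℝ) < 2 ^ (g l + q'))]
        refine (mul_le_mul_of_nonneg_left f4 (by positivity)).trans (le_of_eq ?_)
        have f6 : (2 : ℝ) ^ (g l + q') = 2 ^ (g l + q' - o l) * 2 ^ o l := by
          rw [← pow_add]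
          congr 1
          have := hou l hl
          omega
        rw [f6]
        push_cast
        field_simp
      have f7 := floor_sub_le f5
      exact_mod_cast f7
    refine h2.trans ?_
    have h3 : (2 : ℝ) * ((K * 2 ^ (g l + q' - o l) + 1 : ℕ) : ℝ) + 1 ≤
        2 ^ (g l + q' - o l) * (2 * ((K + 1 : ℕ) : ℝ) + 1) := by
      push_cast
      have := one_le_pow₀ (by norm_num : (1 : ℝ) ≤ 2) (n := g l + q' - o l)
      nlinarith
    have h4 := Real.log_le_log (by positivity) h3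
    rw [Real.log_mul (by positivity) (by positivity), Real.log_pow] at h4
    exact h4

/-- **The rows of the own height over a ball with natural charts.** -/
theorem nfg_gb (H : Gb F c g ga W n a k r D sg M ψH Ht G A) (hA : 0 < Pe F.p A)
    (hfr : ∀ ω, A ω → ∀ V : Option (Fin m) → ℝ, V none = 0 →
      |cv (ψH (slam F W ω) r) V - dd (G (ptr F J ω) r) (bt F ω) V| ≤
        2 ^ k / 2 ^ g r * en c g W (ψH (slam F W ω)) r V)
    (siz : ∀ ω, A ω → ∀ l < r, ∀ j, 1 ≤ j →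
      |((hdt F c g W n r D q sg ψH Ht hD).gp l (slam F W ω)).coeff j| ≤
        2 ^ k * (2 ^ g l / 2 ^ g r)) {E₀ : ℕ}
    (hE : ∀ ω, A ω → ∀ l ≤ r, ∀ j < l, |ψH (slam F W ω) l (some (c j))| ≤ E₀)
    (hcr : ∀ l < r, c l ≠ c r) (hc : ∀ j, j ≠ c r → ∃ l < r, c l = j)
    {o : ℕ → ℕ} (ho : ∀ l < r, o l ≤ ga l) (hou : ∀ l < r, o l ≤ g l + (q + sg))
    (hu : ∀ l < r, g l + (q + sg) ≤ J) (hr1 : g r + (q + sg) ≤ J) (hr2 : g r + (q + sg) ≤ ga r)
    {x h c₀ e e' : ℝ} {N₀ K : ℕ} (hx : 0 ≤ x) (hxn : x * J ≤ (g r + (q + sg) : ℕ))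
    (hh1 : h ≤ 1) (hh : 0 ≤ h) (hc₀ : 0 < c₀) (hN₀ : 0 < N₀)
    (he0 : r * Real.log (2 * (2 * ((2 * r + 2) * 2 ^ k) ^ (r + 4) + 1 : ℕ) + 1) ≤ e * J)
    (he : 4 * (e * J) + 2 * Real.log 2 +
      ((2 * r + 2) * Real.log (2 * (2 + r * E₀ : ℕ) + 1) +
        Real.log (2 * (2 * ((2 * r + 2) * 2 ^ k) ^ (r + 4) + 1 : ℕ) + 1)) +
      (r * Real.log (2 * (3 : ℕ) + 1) +
      2 * Real.log (2 * (r * ((D + 1) * ((D + 2) * 2 ^ k)) + 2 : ℕ) + 1) +
      ((r * (D + 3)) * Real.log (2 * ((2 * K : ℕ) + 1) + 1) +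
        2 * Real.log (2 * (K * (1 + r * (D + 1) ^ 2) + 1 : ℕ) + 1))) ≤ e' * J)
    (hrow : ∀ B : F.Ω → Prop, Sub B A → c₀ * Pe F.p A ≤ Pe F.p B →
      (∀ n₁ n₃ : ℕ, n₁ ≤ n₃ → n₃ ≤ g r + (q + sg) →
        ((g r + (q + sg) : ℕ) : ℝ) - n₁ ≤ x * J + 1 →
        CH (Pool.Agent.H49.Ent.cond F.p B True) (fun ω => F.X n₃ ω (c r))
          (fun ω => (F.X n₁ ω (c r), oth (c r) J F (ptr F J ω))) ≤
          (1 - h) * ((n₃ : ℝ) - n₁) * Real.log 2 + e * J) ∧
      (∃ (β γ₁ : Type) (Yv : F.Ω → β) (G₁ : F.Ω → γ₁),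
        (∀ ω ω', B ω → B ω' → (∀ l < r, F.X J ω (c l) = F.X J ω' (c l)) → Yv ω = Yv ω') ∧
        (∀ ω ω', B ω → B ω' → G₁ ω = G₁ ω' → F.W ω = F.W ω' ∧
          ψH (slam F W ω) = ψH (slam F W ω') ∧
          ∀ l ≤ r, G (ptr F J ω) l = G (ptr F J ω') l) ∧
        ∑ l ∈ range r, ((J - o l : ℕ) : ℝ) * Real.log 2 - e * J ≤
          CH (Pool.Agent.H49.Ent.cond F.p B True) Yv G₁) ∧
      ∃ (γ' : Type) (G' : F.Ω → γ'),
        HopP (hdt F c g W n r D q sg ψH Ht hD) B W (2 ^ (g r + (q + sg))) K G' ∧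
        r * sg * Real.log 2 - e * J ≤ CH (Pool.Agent.H49.Ent.cond F.p B True)
          (Vfd (hds F c g W n r D q sg ψH Ht hD) W (fun l => g l + (q + sg)) fun l => g l + q)
          G') :
    Pool.AJ18.NFg F A (fun s => Polynomial.C ((2 : ℝ) ^ (g r + (q + sg))) *
      (hds F c g W n r D q sg ψH Ht hD).hL W A s)
      (fun s => (hds F c g W n r D q sg ψH Ht hD).cx s) W x h e' c₀ N₀ := by
  have hKr : ((2 * ((2 * r + 2) * 2 ^ k) ^ (r + 4) : ℕ) : ℝ) =
      2 * ((2 * r + 2) * 2 ^ k) ^ (r + 4) := by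
    push_cast
    ring
  refine nfg_frm (c := c) (E₀ := E₀) (u := fun l => g l + (q + sg)) (v := fun l => g l + q)
    (o := o) (K₁ := (D + 2) * 2 ^ k) (K₂ := 2 * ((2 * r + 2) * 2 ^ k) ^ (r + 4)) (K := K)
    (e := e) hA (hds_frd H.hW H.inj H.cvH hE) hcr hc hu hou (fun l _ => by omega)
    (fun l _ => rfl) hr1 (fun ω hω l hl j _ => ?_) hx hxn hh1 hh hc₀ hN₀ he
    fun B hBA hBc => ?_
  · have h1 := hds_lip H hfr siz hω hl (j := j)
    rw [add_assoc, add_assoc] at h1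
    exact h1
  · obtain ⟨r1, ⟨β, γ₁, Yv, G₁, y1, y2, y3⟩, γ', G', r4, r5⟩ := hrow B hBA hBc
    have hB : 0 < Pe F.p B := lt_of_lt_of_le (mul_pos hc₀ hA) hBc
    have hp := isLaw_cond F.isLaw hB
    have hBp : ∀ ω, 0 < Pool.Agent.H49.Ent.cond F.p B True ω → B ω :=
      fun ω hω => of_cond_pos hω
    refine ⟨r1, ⟨β, γ₁, Yv, G₁, y1, fun ω ω' a b e1 => (y2 ω ω' a b e1).1,
      fun ω ω' a b e1 => (y2 ω ω' a b e1).2.1, ?_, ?_, y3⟩, γ', G', r4.shr _, ?_⟩
    · intro ω ω' hω hω' e1 e2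
      obtain ⟨f1, f2, f3⟩ := y2 ω ω' hω hω' e1
      have f4 := H.vfew hfr (le_of_eq rfl) (hBA ω hω) (hBA ω' hω') (Prod.ext_iff.1 f1).1 f2 f3
        le_rfl (q := q) (hD := hD) (q' := q + sg) (fun j hj => by
          rw [abs_sub_comm]
          exact of_floor_mul (by positivity : (0 : ℝ) < 2 ^ (g j + (q + sg))) (e2 j hj))
        hr2 le_rfl
      rw [abs_sub_comm] at f4
      rw [← mul_sub, abs_mul, abs_of_pos (by positivity : (0 : ℝ) < 2 ^ (g r + (q + sg))), hKr]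
      refine (mul_le_mul_of_nonneg_left f4 (by positivity)).trans (le_of_eq ?_)
      field_simp
    · have h1 := H.vcount hfr hp (fun ω hω => hBA ω (hBp ω hω)) G₁ (fun ω ω' a b e1 =>
        y2 ω ω' (hBp ω a) (hBp ω' b) e1) (q := q) (hD := hD) ho hou
      exact h1.trans (add_le_add le_rfl he0)
    · refine le_trans (le_of_eq ?_) r5
      have e1 : ∀ l ∈ range r, ((g l + (q + sg) - (g l + q) : ℕ) : ℝ) * Real.log 2 =
          sg * Real.log 2 := by
        intro l _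
        congr 2
        omega
      rw [Finset.sum_congr rfl e1, Finset.sum_const, Finset.card_range, nsmul_eq_mul]
      ring

end

end Pool.D2F2
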