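import Pool.Agent.H4.D2.Vnf

/-!
# Near frame digits are full given the record of the hop: the rough coordinates as one block

`vfd_blk`: as `vfd_full`, with one condition `Y` (exact data of the slowest coordinates, velocities and
cells of the rough coordinates) for all rough coordinates together.
-/

set_option autoImplicit false

namespace Pool.D2F2

open Finset Real MvPolynomial
open Pool.Agent.H49.Ent Pool.Agent.H32.Dense Pool.STK Pool.KA Pool.KSAT Pool.K2S Pool.PB Pool.GEN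
open Pool.S6C Pool.LA91
open Pool.OWN68 (opl tw uw CH_pair CH_pis natDegree_opl opl_jet uw_abs tw_abs floor_sub_le
  of_floor_div nf_swap CH_le_Hu)
open Pool.D2H (of_floor_mul eval_small uw_eq CH_step CH_pi_le)
open Pool.D2P (vn_zero vn_step CH_ctx)

variable {m J : ℕ} {F : Fam m J} {κ : Type} {r D : ℕ} {d : Dat F κ r D} {A : F.Ω → Prop} {W : ℕ}
  {c : ℕ → Fin m} {E₀ : ℕ} {w : ℕ → ℕ}

/-- Near frame digits of the first coordinates are few bits given their exact digits. -/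
theorem Nfd_exact_w (hF : FrW d A W c w E₀) {n : ℕ} (hnr : n ≤ r) {u v : ℕ → ℕ}
    (hu : ∀ l < n, u l ≤ J) (hw : ∀ l < n, u l ≤ w l)
    {p : F.Ω → ℝ} (hp : IsLaw p) (hpA : ∀ ω, 0 < p ω → A ω)
    {T : Type} (Z : F.Ω → T)
    (hZ : ∀ ω ω', 0 < p ω → 0 < p ω' → Z ω = Z ω' → F.T ω = F.T ω' ∧
      d.fc (slam F W ω) = d.fc (slam F W ω') ∧ ∀ i < n, F.X J ω (c i) = F.X J ω' (c i)) :
    CH p (fun ω (l : Fin n) => Nfd d W u v l ω) Z ≤ n * Real.log (2 * (2 + r * E₀ : ℕ) + 1) := by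
  have b2 := Nfd_few hp (d := d) (W := W) (u := u) (v := v) Z (n := n) (K := 1 + r * E₀)
    fun ω ω' a b e j hj => by
      obtain ⟨z1, z2, z3⟩ := hZ ω ω' a b e
      have hj' : j < r := by omega
      have hu0 : (0 : ℝ) < 2 ^ u j := by positivity
      have p3 := hF.dif hj'.le (hw j hj) (hpA ω a) (hpA ω' b) z1 z2 fun i hi => z3 i (by omega)
      have p4 : |(2 : ℝ) ^ u j * (F.x ω (c j) - F.x ω' (c j))| ≤ 1 := by
        rw [abs_mul, abs_of_pos hu0]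
        have p5 := (of_floor_mul (by positivity : (0 : ℝ) < 2 ^ J) (z3 j hj)).trans
          (one_div_le_one_div_of_le hu0 (pow_le_pow_right₀ (by norm_num) (hu j hj)))
        refine (mul_le_mul_of_nonneg_left p5 hu0.le).trans (le_of_eq ?_)
        field_simp
      rw [← mul_sub]
      push_cast at p3 ⊢
      rw [abs_le] at p3 p4 ⊢
      constructor <;> linarith [p3.1, p3.2, p4.1, p4.2]
  refine b2.trans (le_of_eq ?_)
  have : 1 + r * E₀ + 1 = 2 + r * E₀ := by ring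
  rw [this]

/-- Near frame digits of the first coordinates are few bits given their exact digits. -/
theorem Nfd_exact (hF : FrD d A W c E₀) {n : ℕ} (hnr : n ≤ r) {u v : ℕ → ℕ} {n₀ : ℕ}
    (hn₀ : ∀ l < n, u l ≤ n₀) {p : F.Ω → ℝ} (hp : IsLaw p) (hpA : ∀ ω, 0 < p ω → A ω)
    {T : Type} (Z : F.Ω → T)
    (hZ : ∀ ω ω', 0 < p ω → 0 < p ω' → Z ω = Z ω' → F.T ω = F.T ω' ∧
      d.fc (slam F W ω) = d.fc (slam F W ω') ∧ ∀ i < n, F.X n₀ ω (c i) = F.X n₀ ω' (c i)) :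
    CH p (fun ω (l : Fin n) => Nfd d W u v l ω) Z ≤ n * Real.log (2 * (2 + r * E₀ : ℕ) + 1) := by
  have hE0 : (0 : ℝ) ≤ E₀ := Nat.cast_nonneg _
  have b2 := Nfd_few hp (d := d) (W := W) (u := u) (v := v) Z (n := n) (K := 1 + r * E₀)
    fun ω ω' a b e j hj => by
      obtain ⟨z1, z2, z3⟩ := hZ ω ω' a b e
      have hj' : j < r := by omega
      have hu0 : (0 : ℝ) < 2 ^ u j := by positivity
      obtain ⟨φ, p1, p2⟩ := hF.frm ω' ω (hpA ω' b) (hpA ω a) z1.symm z2.symm j hj'.le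
      have hx : ∀ i ≤ j, |F.x ω (c i) - F.x ω' (c i)| ≤ 1 / 2 ^ u j := fun i hi =>
        (of_floor_mul (by positivity : (0 : ℝ) < 2 ^ n₀) (z3 i (by omega))).trans
          (one_div_le_one_div_of_le hu0 (pow_le_pow_right₀ (by norm_num) (hn₀ j hj)))
      have p3 := sum_small (n := j) (f := φ) (g := fun i => F.x ω (c i) - F.x ω' (c i)) p1
        (fun i hi => hx i hi.le) hE0
      rw [← mul_sub, abs_mul, abs_of_pos hu0, p2]
      have p6 : |F.x ω (c j) - F.x ω' (c j) -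
          ∑ i ∈ range j, φ i * (F.x ω (c i) - F.x ω' (c i))| ≤
          1 / 2 ^ u j + j * (E₀ * (1 / 2 ^ u j)) :=
        (abs_sub _ _).trans (add_le_add (hx j le_rfl) p3)
      refine (mul_le_mul_of_nonneg_left p6 hu0.le).trans ?_
      have p7 : (2 : ℝ) ^ u j * (1 / 2 ^ u j + j * (E₀ * (1 / 2 ^ u j))) = 1 + j * E₀ := by
        field_simp
      rw [p7]
      push_cast
      have p8 : (j : ℝ) * E₀ ≤ r * E₀ :=
        mul_le_mul_of_nonneg_right (by exact_mod_cast hj'.le) hE0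
      linarith
  refine b2.trans (le_of_eq ?_)
  have : 1 + r * E₀ + 1 = 2 + r * E₀ := by ring
  rw [this]

/-- **The near frame digits are full given the record of the hop.** `za`, `za'`: records with the
time at the far windows; `zo`, `zo'`: records with the direction and the time; `Gm`: the record of
the hop without the gradients `hh`; `Y`: exact data of the first `k₀` coordinates and what is known of
the other ones. -/
theorem vfd_blk {B : F.Ω → Prop} (hF : FrD d A W c E₀) (hBA : Sub B A) (hB : 0 < Pe F.p B)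
    {k₀ : ℕ} (hk : k₀ ≤ r) {u v : ℕ → ℕ} (hu : ∀ l < k₀, u l ≤ J) (huv : ∀ l < k₀, v l ≤ u l)
    {n₀ : ℕ} (hn₀ : ∀ l < k₀, u l ≤ n₀)
    {ε 𝓐 𝓑 𝓒 𝓗 𝓨 𝓔 𝓔' 𝓖 β : Type} (G : F.Ω → 𝓖) (e : F.Ω → ε) (za : F.Ω → 𝓐) (za' : F.Ω → 𝓑)
    (hh : F.Ω → 𝓗) (zo : F.Ω → 𝓔) (zo' : F.Ω → 𝓔') (Gm : F.Ω → 𝓒) (Y : F.Ω → 𝓨)
    {Yv : F.Ω → β} {K : ℕ}
    (hza : ∀ ω ω', B ω → B ω' → za ω = za ω' → F.T ω = F.T ω' ∧
      d.fc (slam F W ω) = d.fc (slam F W ω') ∧
      ∀ l < k₀, |(2 : ℝ) ^ v l * d.v W l ω - 2 ^ v l * d.v W l ω'| ≤ K)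
    (hYv : ∀ ω ω', B ω → B ω' → (∀ l < k₀, F.X J ω (c l) = F.X J ω' (c l)) → Yv ω = Yv ω')
    (hza' : ∀ ω ω', B ω → B ω' → za' ω = za' ω' →
      ∀ l < k₀, |(2 : ℝ) ^ u l * d.v W l ω - 2 ^ u l * d.v W l ω'| ≤ K)
    (hY : ∀ ω ω', B ω → B ω' → Y ω = Y ω' → F.T ω = F.T ω' ∧
      d.fc (slam F W ω) = d.fc (slam F W ω') ∧ ∀ i < k₀, F.X n₀ ω (c i) = F.X n₀ ω' (c i))
    (hzo' : ∀ ω ω', B ω → B ω' → zo' ω = zo' ω' →
      ∀ l < r, |(2 : ℝ) ^ u l * d.v W l ω - 2 ^ u l * d.v W l ω'| ≤ K)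
    (hGz : Det (Pool.Agent.H49.Ent.cond F.p B True) Gm zo) {η : ℝ}
    (hex : ∑ l ∈ range k₀, ((J - v l : ℕ) : ℝ) * Real.log 2 - η ≤
      CH (Pool.Agent.H49.Ent.cond F.p B True) Yv za)
    (hfr : CH (Pool.Agent.H49.Ent.cond F.p B True) e za ≤
      CH (Pool.Agent.H49.Ent.cond F.p B True) e za' + η)
    (hzz : CH (Pool.Agent.H49.Ent.cond F.p B True) za za' ≤ η)
    (hGe : CH (Pool.Agent.H49.Ent.cond F.p B True) G (fun ω => (e ω, za ω)) ≤ η)
    (hnv : ∑ l ∈ Finset.Ico k₀ r, ((u l - v l : ℕ) : ℝ) * Real.log 2 - η ≤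
      CH (Pool.Agent.H49.Ent.cond F.p B True)
        (fun ω (l : Fin (r - k₀)) => Nfd d W u v (k₀ + l) ω) Y)
    (hGY : CH (Pool.Agent.H49.Ent.cond F.p B True) Gm Y ≤ η)
    (hfh : CH (Pool.Agent.H49.Ent.cond F.p B True) hh zo ≤
      CH (Pool.Agent.H49.Ent.cond F.p B True) hh zo' + η)
    (hGo : CH (Pool.Agent.H49.Ent.cond F.p B True) Gm zo' ≤ η)
    (hGh : CH (Pool.Agent.H49.Ent.cond F.p B True) G (fun ω => (hh ω, Gm ω)) ≤ η) :
    ∑ l ∈ range r, ((u l - v l : ℕ) : ℝ) * Real.log 2 - (9 * η + 4 * (r *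
      (Real.log (2 * (2 + r * E₀ : ℕ) + 1) + Real.log (2 * (K + 1 : ℕ) + 1)))) ≤
      CH (Pool.Agent.H49.Ent.cond F.p B True) (Vfd d W u v) G := by
  have hp := isLaw_cond F.isLaw hB
  have h0 := hp.nonneg
  have hBp : ∀ ω, 0 < Pool.Agent.H49.Ent.cond F.p B True ω → B ω := fun ω hω => of_cond_pos hω
  have hF' := hF.sub hBA
  obtain ⟨c₁, hc₁⟩ : ∃ c₁ : ℝ, c₁ = Real.log (2 * (2 + r * E₀ : ℕ) + 1) := ⟨_, rfl⟩
  obtain ⟨c₂, hc₂⟩ : ∃ c₂ : ℝ, c₂ = Real.log (2 * (K + 1 : ℕ) + 1) := ⟨_, rfl⟩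
  have hc₁0 : 0 ≤ c₁ := by
    rw [hc₁]
    refine Real.log_nonneg ?_
    have : (0 : ℝ) ≤ ((2 + r * E₀ : ℕ) : ℝ) := Nat.cast_nonneg _
    linarith
  have hc₂0 : 0 ≤ c₂ := by
    rw [hc₂]
    refine Real.log_nonneg ?_
    have : (0 : ℝ) ≤ ((K + 1 : ℕ) : ℝ) := Nat.cast_nonneg _
    linarith
  have hkr : (k₀ : ℝ) ≤ r := by exact_mod_cast hk
  have hk0 : (0 : ℝ) ≤ k₀ := Nat.cast_nonneg _
  have hr0 : (0 : ℝ) ≤ r := Nat.cast_nonneg _
  -- the first coordinates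
  have a1 := near_exact hF' hk (u := u) (v := v) hu huv hp hBp za
    (fun ω ω' a b e => hza ω ω' (hBp ω a) (hBp ω' b) e)
    (Yv := Yv) fun ω ω' a b e => hYv ω ω' (hBp ω a) (hBp ω' b) e
  rw [← hc₁, ← hc₂] at a1
  have a2 : CH (Pool.Agent.H49.Ent.cond F.p B True)
      (fun ω => ((fun j : Fin k₀ => Nfd d W u v j ω), za ω)) za' ≤ η + k₀ * c₂ := by
    have b1 := CH_subadd h0 (fun ω (j : Fin k₀) => Nfd d W u v j ω) za za'
    have b2 := Nfd_few hp (d := d) (W := W) (u := u) (v := v) za' (n := k₀) (K := K)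
      fun ω ω' a b e => hza' ω ω' (hBp ω a) (hBp ω' b) e
    rw [← hc₂] at b2
    linarith
  have z1 := vn_zero h0 (fun ω (j : Fin k₀) => Nfd d W u v j ω) e za za' G a1 hfr a2 hGe
  -- the block
  have a4 : CH (Pool.Agent.H49.Ent.cond F.p B True)
      (fun ω => ((fun j : Fin k₀ => Nfd d W u v j ω), Gm ω)) Y ≤ η + k₀ * c₁ := by
    have b1 := CH_subadd h0 (fun ω (j : Fin k₀) => Nfd d W u v j ω) Gm Y
    have b2 := Nfd_exact hF' hk (u := u) (v := v) hn₀ hp hBp Y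
      fun ω ω' a b e => hY ω ω' (hBp ω a) (hBp ω' b) e
    rw [← hc₁] at b2
    linarith
  have a6 : CH (Pool.Agent.H49.Ent.cond F.p B True) (fun ω (j : Fin r) => Nfd d W u v j ω) zo' ≤
      r * c₂ := by
    have b2 := Nfd_few hp (d := d) (W := W) (u := u) (v := v) zo' (n := r) (K := K)
      fun ω ω' a b e => hzo' ω ω' (hBp ω a) (hBp ω' b) e
    rwa [← hc₂] at b2
  have a5 : CH (Pool.Agent.H49.Ent.cond F.p B True)
      (fun ω => ((fun l : Fin (r - k₀) => Nfd d W u v (k₀ + l) ω),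
        ((fun j : Fin k₀ => Nfd d W u v j ω), Gm ω))) zo' ≤ η + r * c₂ := by
    have b1 := CH_subadd h0 (fun ω (j : Fin r) => Nfd d W u v j ω) Gm zo'
    refine le_trans (CH_mono_left h0 fun ω ω' _ _ e => ?_) (b1.trans (by linarith))
    simp only [Prod.mk.injEq] at e
    obtain ⟨⟨e1, e2⟩, -⟩ := e
    refine Prod.ext (_root_.funext fun l => ?_) (Prod.ext (_root_.funext fun j => ?_) e2)
    · exact congrFun e1 ⟨k₀ + l, by omega⟩
    · exact congrFun e1 ⟨j, by omega⟩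
  have z2 := vn_step h0 (fun ω (l : Fin (r - k₀)) => Nfd d W u v (k₀ + l) ω)
    (fun ω => ((fun j : Fin k₀ => Nfd d W u v j ω), Gm ω)) hh Y zo zo'
    (fun ω => ((fun j : Fin k₀ => Nfd d W u v j ω), G ω)) (f₄ := η) hnv a4
    (fun ω ω' a b e => hGz ω ω' a b (Prod.ext_iff.1 e).2) hfh a5 (by
      refine le_trans ?_ hGh
      have g1 : CH (Pool.Agent.H49.Ent.cond F.p B True)
          (fun ω => ((fun j : Fin k₀ => Nfd d W u v j ω), G ω))
          (fun ω => (hh ω, ((fun j : Fin k₀ => Nfd d W u v j ω), Gm ω))) ≤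
          CH (Pool.Agent.H49.Ent.cond F.p B True) G
            (fun ω => (hh ω, ((fun j : Fin k₀ => Nfd d W u v j ω), Gm ω))) := by
        refine CH_mono_left h0 fun ω ω' _ _ e => ?_
        simp only [Prod.mk.injEq] at e
        exact Prod.ext e.2.2.1 e.1
      have g2 : CH (Pool.Agent.H49.Ent.cond F.p B True) G
            (fun ω => (hh ω, ((fun j : Fin k₀ => Nfd d W u v j ω), Gm ω))) ≤
          CH (Pool.Agent.H49.Ent.cond F.p B True) G (fun ω => (hh ω, Gm ω)) := by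
        refine CH_mono_cond h0 fun ω ω' _ _ e => ?_
        simp only [Prod.mk.injEq] at e
        exact Prod.ext e.1 e.2.2
      exact g1.trans g2)
  have z3 := CH_chain h0 (fun ω (l : Fin (r - k₀)) => Nfd d W u v (k₀ + l) ω)
    (fun ω (j : Fin k₀) => Nfd d W u v j ω) G
  have z4 : CH (Pool.Agent.H49.Ent.cond F.p B True)
      (fun ω => ((fun l : Fin (r - k₀) => Nfd d W u v (k₀ + l) ω),
        (fun j : Fin k₀ => Nfd d W u v j ω))) G ≤
      CH (Pool.Agent.H49.Ent.cond F.p B True) (Vfd d W u v) G := by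
    refine CH_mono_left h0 fun ω ω' _ _ e => ?_
    obtain ⟨e1, e2⟩ := Prod.ext_iff.1 e
    dsimp only at e1 e2
    refine Prod.ext (_root_.funext fun l => ?_) (_root_.funext fun j => ?_)
    · exact congrFun e1 ⟨k₀ + l, by omega⟩
    · exact congrFun e1 ⟨j, by omega⟩
  -- the sums
  have g2 : ∑ l ∈ range k₀, ((J - v l : ℕ) : ℝ) * Real.log 2 -
      ∑ l ∈ range k₀, ((J - u l : ℕ) : ℝ) * Real.log 2 =
      ∑ l ∈ range k₀, ((u l - v l : ℕ) : ℝ) * Real.log 2 := by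
    rw [← Finset.sum_sub_distrib]
    refine Finset.sum_congr rfl fun l hl => ?_
    have h1 := Finset.mem_range.1 hl
    have h2 := hu l h1
    have h3 := huv l h1
    rw [Nat.cast_sub h2, Nat.cast_sub h3, Nat.cast_sub (h3.trans h2)]
    ring
  have g3 := Finset.sum_range_add_sum_Ico (fun l => ((u l - v l : ℕ) : ℝ) * Real.log 2) hk
  have g4 : (k₀ : ℝ) * c₁ ≤ r * c₁ := mul_le_mul_of_nonneg_right hkr hc₁0
  have g5 : (k₀ : ℝ) * c₂ ≤ r * c₂ := mul_le_mul_of_nonneg_right hkr hc₂0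
  have g6 : 0 ≤ (r : ℝ) * c₁ := mul_nonneg hr0 hc₁0
  have g7 : 0 ≤ (r : ℝ) * c₂ := mul_nonneg hr0 hc₂0
  have hη : 0 ≤ η := (CH_nonneg h0 za za').trans hzz
  rw [← hc₁, ← hc₂, ← g3]
  linarith

/-- **The near frame digits are full given the record of the hop.** `za`, `za'`: records with the
time at the far windows; `zo`, `zo'`: records with the direction and the time; `Gm`: the record of
the hop without the gradients `hh`; `Y`: exact data of the first `k₀` coordinates and what is known of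
the other ones. -/
theorem vfd_blk_w {B : F.Ω → Prop} (hF : FrW d A W c w E₀) (hBA : Sub B A) (hB : 0 < Pe F.p B)
    {k₀ : ℕ} (hk : k₀ ≤ r) {u v : ℕ → ℕ} (hu : ∀ l < k₀, u l ≤ J) (hw : ∀ l < k₀, u l ≤ w l)
    (huv : ∀ l < k₀, v l ≤ u l)
    {ε 𝓐 𝓑 𝓒 𝓗 𝓨 𝓔 𝓔' 𝓖 β : Type} (G : F.Ω → 𝓖) (e : F.Ω → ε) (za : F.Ω → 𝓐) (za' : F.Ω → 𝓑)
    (hh : F.Ω → 𝓗) (zo : F.Ω → 𝓔) (zo' : F.Ω → 𝓔') (Gm : F.Ω → 𝓒) (Y : F.Ω → 𝓨)
    {Yv : F.Ω → β} {K : ℕ}
    (hza : ∀ ω ω', B ω → B ω' → za ω = za ω' → F.T ω = F.T ω' ∧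
      d.fc (slam F W ω) = d.fc (slam F W ω') ∧
      ∀ l < k₀, |(2 : ℝ) ^ v l * d.v W l ω - 2 ^ v l * d.v W l ω'| ≤ K)
    (hYv : ∀ ω ω', B ω → B ω' → (∀ l < k₀, F.X J ω (c l) = F.X J ω' (c l)) → Yv ω = Yv ω')
    (hza' : ∀ ω ω', B ω → B ω' → za' ω = za' ω' →
      ∀ l < k₀, |(2 : ℝ) ^ u l * d.v W l ω - 2 ^ u l * d.v W l ω'| ≤ K)
    (hY : ∀ ω ω', B ω → B ω' → Y ω = Y ω' → F.T ω = F.T ω' ∧
      d.fc (slam F W ω) = d.fc (slam F W ω') ∧ ∀ i < k₀, F.X J ω (c i) = F.X J ω' (c i))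
    (hzo' : ∀ ω ω', B ω → B ω' → zo' ω = zo' ω' →
      ∀ l < r, |(2 : ℝ) ^ u l * d.v W l ω - 2 ^ u l * d.v W l ω'| ≤ K)
    (hGz : Det (Pool.Agent.H49.Ent.cond F.p B True) Gm zo) {η : ℝ}
    (hex : ∑ l ∈ range k₀, ((J - v l : ℕ) : ℝ) * Real.log 2 - η ≤
      CH (Pool.Agent.H49.Ent.cond F.p B True) Yv za)
    (hfr : CH (Pool.Agent.H49.Ent.cond F.p B True) e za ≤
      CH (Pool.Agent.H49.Ent.cond F.p B True) e za' + η)
    (hzz : CH (Pool.Agent.H49.Ent.cond F.p B True) za za' ≤ η)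
    (hGe : CH (Pool.Agent.H49.Ent.cond F.p B True) G (fun ω => (e ω, za ω)) ≤ η)
    (hnv : ∑ l ∈ Finset.Ico k₀ r, ((u l - v l : ℕ) : ℝ) * Real.log 2 - η ≤
      CH (Pool.Agent.H49.Ent.cond F.p B True)
        (fun ω (l : Fin (r - k₀)) => Nfd d W u v (k₀ + l) ω) Y)
    (hGY : CH (Pool.Agent.H49.Ent.cond F.p B True) Gm Y ≤ η)
    (hfh : CH (Pool.Agent.H49.Ent.cond F.p B True) hh zo ≤
      CH (Pool.Agent.H49.Ent.cond F.p B True) hh zo' + η)
    (hGo : CH (Pool.Agent.H49.Ent.cond F.p B True) Gm zo' ≤ η)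
    (hGh : CH (Pool.Agent.H49.Ent.cond F.p B True) G (fun ω => (hh ω, Gm ω)) ≤ η) :
    ∑ l ∈ range r, ((u l - v l : ℕ) : ℝ) * Real.log 2 - (9 * η + 4 * (r *
      (Real.log (2 * (2 + r * E₀ : ℕ) + 1) + Real.log (2 * (K + 1 : ℕ) + 1)))) ≤
      CH (Pool.Agent.H49.Ent.cond F.p B True) (Vfd d W u v) G := by
  have hp := isLaw_cond F.isLaw hB
  have h0 := hp.nonneg
  have hBp : ∀ ω, 0 < Pool.Agent.H49.Ent.cond F.p B True ω → B ω := fun ω hω => of_cond_pos hω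
  have hF' := hF.sub hBA
  obtain ⟨c₁, hc₁⟩ : ∃ c₁ : ℝ, c₁ = Real.log (2 * (2 + r * E₀ : ℕ) + 1) := ⟨_, rfl⟩
  obtain ⟨c₂, hc₂⟩ : ∃ c₂ : ℝ, c₂ = Real.log (2 * (K + 1 : ℕ) + 1) := ⟨_, rfl⟩
  have hc₁0 : 0 ≤ c₁ := by
    rw [hc₁]
    refine Real.log_nonneg ?_
    have : (0 : ℝ) ≤ ((2 + r * E₀ : ℕ) : ℝ) := Nat.cast_nonneg _
    linarith
  have hc₂0 : 0 ≤ c₂ := by
    rw [hc₂]
    refine Real.log_nonneg ?_
    have : (0 : ℝ) ≤ ((K + 1 : ℕ) : ℝ) := Nat.cast_nonneg _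
    linarith
  have hkr : (k₀ : ℝ) ≤ r := by exact_mod_cast hk
  have hk0 : (0 : ℝ) ≤ k₀ := Nat.cast_nonneg _
  have hr0 : (0 : ℝ) ≤ r := Nat.cast_nonneg _
  -- the first coordinates
  have a1 := near_exact_w hF' hk (u := u) (v := v) hu hw huv hp hBp za
    (fun ω ω' a b e => hza ω ω' (hBp ω a) (hBp ω' b) e)
    (Yv := Yv) fun ω ω' a b e => hYv ω ω' (hBp ω a) (hBp ω' b) e
  rw [← hc₁, ← hc₂] at a1
  have a2 : CH (Pool.Agent.H49.Ent.cond F.p B True)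
      (fun ω => ((fun j : Fin k₀ => Nfd d W u v j ω), za ω)) za' ≤ η + k₀ * c₂ := by
    have b1 := CH_subadd h0 (fun ω (j : Fin k₀) => Nfd d W u v j ω) za za'
    have b2 := Nfd_few hp (d := d) (W := W) (u := u) (v := v) za' (n := k₀) (K := K)
      fun ω ω' a b e => hza' ω ω' (hBp ω a) (hBp ω' b) e
    rw [← hc₂] at b2
    linarith
  have z1 := vn_zero h0 (fun ω (j : Fin k₀) => Nfd d W u v j ω) e za za' G a1 hfr a2 hGe
  -- the block
  have a4 : CH (Pool.Agent.H49.Ent.cond F.p B True)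
      (fun ω => ((fun j : Fin k₀ => Nfd d W u v j ω), Gm ω)) Y ≤ η + k₀ * c₁ := by
    have b1 := CH_subadd h0 (fun ω (j : Fin k₀) => Nfd d W u v j ω) Gm Y
    have b2 := Nfd_exact_w hF' hk (u := u) (v := v) hu hw hp hBp Y
      fun ω ω' a b e => hY ω ω' (hBp ω a) (hBp ω' b) e
    rw [← hc₁] at b2
    linarith
  have a6 : CH (Pool.Agent.H49.Ent.cond F.p B True) (fun ω (j : Fin r) => Nfd d W u v j ω) zo' ≤
      r * c₂ := by
    have b2 := Nfd_few hp (d := d) (W := W) (u := u) (v := v) zo' (n := r) (K := K)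
      fun ω ω' a b e => hzo' ω ω' (hBp ω a) (hBp ω' b) e
    rwa [← hc₂] at b2
  have a5 : CH (Pool.Agent.H49.Ent.cond F.p B True)
      (fun ω => ((fun l : Fin (r - k₀) => Nfd d W u v (k₀ + l) ω),
        ((fun j : Fin k₀ => Nfd d W u v j ω), Gm ω))) zo' ≤ η + r * c₂ := by
    have b1 := CH_subadd h0 (fun ω (j : Fin r) => Nfd d W u v j ω) Gm zo'
    refine le_trans (CH_mono_left h0 fun ω ω' _ _ e => ?_) (b1.trans (by linarith))
    simp only [Prod.mk.injEq] at e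
    obtain ⟨⟨e1, e2⟩, -⟩ := e
    refine Prod.ext (_root_.funext fun l => ?_) (Prod.ext (_root_.funext fun j => ?_) e2)
    · exact congrFun e1 ⟨k₀ + l, by omega⟩
    · exact congrFun e1 ⟨j, by omega⟩
  have z2 := vn_step h0 (fun ω (l : Fin (r - k₀)) => Nfd d W u v (k₀ + l) ω)
    (fun ω => ((fun j : Fin k₀ => Nfd d W u v j ω), Gm ω)) hh Y zo zo'
    (fun ω => ((fun j : Fin k₀ => Nfd d W u v j ω), G ω)) (f₄ := η) hnv a4
    (fun ω ω' a b e => hGz ω ω' a b (Prod.ext_iff.1 e).2) hfh a5 (by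
      refine le_trans ?_ hGh
      have g1 : CH (Pool.Agent.H49.Ent.cond F.p B True)
          (fun ω => ((fun j : Fin k₀ => Nfd d W u v j ω), G ω))
          (fun ω => (hh ω, ((fun j : Fin k₀ => Nfd d W u v j ω), Gm ω))) ≤
          CH (Pool.Agent.H49.Ent.cond F.p B True) G
            (fun ω => (hh ω, ((fun j : Fin k₀ => Nfd d W u v j ω), Gm ω))) := by
        refine CH_mono_left h0 fun ω ω' _ _ e => ?_
        simp only [Prod.mk.injEq] at e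
        exact Prod.ext e.2.2.1 e.1
      have g2 : CH (Pool.Agent.H49.Ent.cond F.p B True) G
            (fun ω => (hh ω, ((fun j : Fin k₀ => Nfd d W u v j ω), Gm ω))) ≤
          CH (Pool.Agent.H49.Ent.cond F.p B True) G (fun ω => (hh ω, Gm ω)) := by
        refine CH_mono_cond h0 fun ω ω' _ _ e => ?_
        simp only [Prod.mk.injEq] at e
        exact Prod.ext e.1 e.2.2
      exact g1.trans g2)
  have z3 := CH_chain h0 (fun ω (l : Fin (r - k₀)) => Nfd d W u v (k₀ + l) ω)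
    (fun ω (j : Fin k₀) => Nfd d W u v j ω) G
  have z4 : CH (Pool.Agent.H49.Ent.cond F.p B True)
      (fun ω => ((fun l : Fin (r - k₀) => Nfd d W u v (k₀ + l) ω),
        (fun j : Fin k₀ => Nfd d W u v j ω))) G ≤
      CH (Pool.Agent.H49.Ent.cond F.p B True) (Vfd d W u v) G := by
    refine CH_mono_left h0 fun ω ω' _ _ e => ?_
    obtain ⟨e1, e2⟩ := Prod.ext_iff.1 e
    dsimp only at e1 e2
    refine Prod.ext (_root_.funext fun l => ?_) (_root_.funext fun j => ?_)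
    · exact congrFun e1 ⟨k₀ + l, by omega⟩
    · exact congrFun e1 ⟨j, by omega⟩
  -- the sums
  have g2 : ∑ l ∈ range k₀, ((J - v l : ℕ) : ℝ) * Real.log 2 -
      ∑ l ∈ range k₀, ((J - u l : ℕ) : ℝ) * Real.log 2 =
      ∑ l ∈ range k₀, ((u l - v l : ℕ) : ℝ) * Real.log 2 := by
    rw [← Finset.sum_sub_distrib]
    refine Finset.sum_congr rfl fun l hl => ?_
    have h1 := Finset.mem_range.1 hl
    have h2 := hu l h1
    have h3 := huv l h1
    rw [Nat.cast_sub h2, Nat.cast_sub h3, Nat.cast_sub (h3.trans h2)]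
    ring
  have g3 := Finset.sum_range_add_sum_Ico (fun l => ((u l - v l : ℕ) : ℝ) * Real.log 2) hk
  have g4 : (k₀ : ℝ) * c₁ ≤ r * c₁ := mul_le_mul_of_nonneg_right hkr hc₁0
  have g5 : (k₀ : ℝ) * c₂ ≤ r * c₂ := mul_le_mul_of_nonneg_right hkr hc₂0
  have g6 : 0 ≤ (r : ℝ) * c₁ := mul_nonneg hr0 hc₁0
  have g7 : 0 ≤ (r : ℝ) * c₂ := mul_nonneg hr0 hc₂0
  have hη : 0 ≤ η := (CH_nonneg h0 za za').trans hzz
  rw [← hc₁, ← hc₂, ← g3]
  linarith

end Pool.D2F2
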