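import Pool.Agent.H4.D2.Afl
import Pool.Agent.H4.D2.Vnv
import Pool.Agent.H4.D2.Gst
import Pool.Agent.H28.D2.Geo2

/-!
# Near frame digits and heights over labels, over exact slow coordinates

`hnv_law`: the digits of heights are few given the near frame digits, one law. `Fdl`: the own paths
and their velocities are coordinates in a frame. `Ex0`: two samples with the same slow coordinates.
`hnv_one`, `hnv_two`: one and two rough coordinates over exact slow coordinates: heights over the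
chart of the first one, and over the label of the second one which is affine in the first one.
-/

set_option autoImplicit false

namespace Pool.D2F2

open Finset Real MvPolynomial
open Pool.Agent.H49.Ent Pool.Agent.H32.Dense Pool.STK Pool.KA Pool.KSAT Pool.K2S Pool.PB Pool.GEN
open Pool.S6C Pool.LA91 Pool.CHT Pool.CHX
open Pool.OWN68 (CH_pair floor_sub_le)
open Pool.D2R (dd hs co)
open Pool.D2F (cv CvC cv_congr cv_eq cv_sub)
open Pool.D2H (of_floor_mul CH_step CH_pi_le)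

variable {m J : ℕ}

section

variable {F : Fam m J} {κ : Type} {r D : ℕ} {d : Dat F κ r D} {W : ℕ}

/-- **The digits of heights are few given the near frame digits**, one law: `Z` is the condition of
the heights, `Y` the condition of the near frame digits. -/
theorem hnv_law {p : F.Ω → ℝ} (hp : IsLaw p) {T T' : Type} (Z : F.Ω → T) (Y : F.Ω → T')
    {k₀ n : ℕ} {u v : ℕ → ℕ} (huv : ∀ l < n, v (k₀ + l) ≤ u (k₀ + l)) (h : ℕ → F.Ω → ℝ)
    (β : ℕ → ℝ) (hβ0 : ∀ l < n, 0 ≤ β l) (hβ : ∀ l < n, β l ≤ 2 ^ u (k₀ + l)) {K : ℕ} {η : ℝ}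
    (hc : ∀ ω ω', 0 < p ω → 0 < p ω' → Z ω = Z ω' → ∀ l < n,
      (∀ i < l, 2 ^ u (k₀ + i) * |d.v W (k₀ + i) ω - d.v W (k₀ + i) ω'| ≤ 1) →
      2 ^ v (k₀ + l) * |d.v W (k₀ + l) ω - d.v W (k₀ + l) ω'| ≤ K)
    (hh : ∀ ω ω', 0 < p ω → 0 < p ω' → Z ω = Z ω' → ∀ l < n,
      (∀ i ≤ l, 2 ^ u (k₀ + i) * |d.v W (k₀ + i) ω - d.v W (k₀ + i) ω'| ≤ 1) →
      2 ^ u (k₀ + l) * |h l ω - h l ω'| ≤ K)
    (hY : CH p Y Z ≤ η) :
    CH p (fun ω (l : Fin n) => ⌊β l * h l ω⌋) Z ≤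
      CH p (fun ω (l : Fin n) => Nfd d W u v (k₀ + l) ω) Y + η +
        2 * (n * Real.log (2 * (K + 1 : ℕ) + 1)) := by
  have h0 := hp.nonneg
  obtain ⟨N, hN⟩ : ∃ N : F.Ω → Fin n → ℤ,
    N = fun ω (l : Fin n) => Nfd d W u v (k₀ + l) ω := ⟨_, rfl⟩
  obtain ⟨V, hV⟩ : ∃ N : F.Ω → Fin n → ℤ,
    N = fun ω (l : Fin n) => ⌊(2 : ℝ) ^ u (k₀ + l) * d.v W (k₀ + l) ω⌋ := ⟨_, rfl⟩
  obtain ⟨b, hb⟩ : ∃ N : F.Ω → Fin n → ℤ,
    N = fun ω (l : Fin n) => ⌊β l * h l ω⌋ := ⟨_, rfl⟩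
  rw [← hN, ← hb]
  have one : ∀ {ω ω' : F.Ω} {l : ℕ}, ⌊(2 : ℝ) ^ u (k₀ + l) * d.v W (k₀ + l) ω⌋ =
      ⌊(2 : ℝ) ^ u (k₀ + l) * d.v W (k₀ + l) ω'⌋ →
      2 ^ u (k₀ + l) * |d.v W (k₀ + l) ω - d.v W (k₀ + l) ω'| ≤ 1 := by
    intro ω ω' l e
    have hu0 : (0 : ℝ) < 2 ^ u (k₀ + l) := by positivity
    refine (mul_le_mul_of_nonneg_left (of_floor_mul hu0 e) hu0.le).trans (le_of_eq ?_)
    field_simp
  -- the condition
  have s1 : CH p N Z ≤ CH p N Y + η := by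
    have a1 := CH_step h0 N Y Z
    have a2 : CH p N (fun ω => (Y ω, Z ω)) ≤ CH p N Y :=
      CH_mono_cond h0 fun _ _ _ _ e => (Prod.ext_iff.1 e).1
    linarith
  -- the frame digits
  have s2 : CH p V (fun ω => (N ω, Z ω)) ≤ n * Real.log (2 * (K + 1 : ℕ) + 1) := by
    have a1 := CH_tri h0 (fun l ω => ⌊(2 : ℝ) ^ u (k₀ + l) * d.v W (k₀ + l) ω⌋)
      (fun ω => (N ω, Z ω)) (n := n) (b := fun _ => Real.log (2 * (K + 1 : ℕ) + 1))
      fun l hl => by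
        refine mod_few hp (fun ω => d.v W (k₀ + l) ω) _ (huv l hl) fun ω ω' hω hω' e => ?_
        simp only [Prod.mk.injEq] at e
        obtain ⟨e1, e2, e3⟩ := e
        have e4 := congrFun e2 ⟨l, hl⟩
        rw [hN] at e4
        refine ⟨e4, ?_⟩
        have a2 := hc ω ω' hω hω' e3 l hl fun i hi => one (congrFun e1 ⟨i, hi⟩)
        rw [← mul_sub, abs_mul, abs_of_pos (by positivity : (0 : ℝ) < 2 ^ v (k₀ + l))]
        exact a2
    rw [Finset.sum_const, Finset.card_range, nsmul_eq_mul] at a1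
    rw [hV]
    exact a1
  -- the heights
  have s3 : CH p b (fun ω => (V ω, (N ω, Z ω))) ≤ n * Real.log (2 * (K + 1 : ℕ) + 1) := by
    have a1 := CH_pi_le h0 b (fun ω => (V ω, (N ω, Z ω)))
      (B := Real.log (2 * (K + 1 : ℕ) + 1)) fun l => by
        rw [hb]
        refine CH_pair hp _ _ fun ω ω' hω hω' e => ?_
        simp only [Prod.mk.injEq] at e
        obtain ⟨e1, -, e3⟩ := e
        rw [hV] at e1
        have a2 := hh ω ω' hω hω' e3 l l.2 fun i hi => one (congrFun e1 ⟨i, by omega⟩)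
        have a3 : |β l * h l ω - β l * h l ω'| ≤ (K : ℕ) := by
          rw [← mul_sub, abs_mul, abs_of_nonneg (hβ0 l l.2)]
          exact (mul_le_mul_of_nonneg_right (hβ l l.2) (abs_nonneg _)).trans a2
        have a4 := floor_sub_le a3
        push_cast at a4 ⊢
        exact a4
    rwa [Fintype.card_fin] at a1
  have s4 := CH_step h0 b N Z
  have s5 := CH_step h0 b V (fun ω => (N ω, Z ω))
  linarith

end

/-- **The own paths and their velocities are coordinates in a frame.** -/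
structure Fdl (F : Fam m J) {r D : ℕ} (d : Dat F (ℕ → Option (Fin m) → ℝ) r D) (c : ℕ → Fin m)
    (W : ℕ) (ψH : LnT F → ℕ → Option (Fin m) → ℝ) : Prop where
  fc : d.fc = ψH
  v : ∀ l < r, ∀ ω ω', F.T ω = F.T ω' → ψH (slam F W ω) = ψH (slam F W ω') →
    d.v W l ω' - d.v W l ω = (bt F ω' - bt F ω) (some (c l)) -
      cv (ψH (slam F W ω) l) (bt F ω' - bt F ω)
  e : ∀ l < r, ∀ ω ω', F.T ω = F.T ω' → ψH (slam F W ω) = ψH (slam F W ω') →
    d.e W l ω' - d.e W l ω = 1 / 2 ^ (W + 1) * ((bd F ω' - bd F ω) (some (c l)) -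
      cv (ψH (slam F W ω) l) (bd F ω' - bd F ω))

section

variable {F : Fam m J} {c : ℕ → Fin m} {g : ℕ → ℕ} {W n r D : ℕ}
  {ψH : LnT F → ℕ → Option (Fin m) → ℝ} {Ht : LnT F → MvPolynomial (Option (Fin m)) ℝ}
  {hD : ∀ s, (Ht s).totalDegree ≤ D} {SV SE SG : ℕ → ℝ}

theorem fdat_fdl (hW : W ≤ J) : Fdl F (fdat F c g W n r D ψH Ht hD SV SE SG) c W ψH := by
  refine ⟨rfl, fun l hl ω ω' _ hψ => ?_, fun l hl ω ω' _ hψ => ?_⟩
  · rw [fdat_v hW, fdat_v hW, if_pos hl, if_pos hl, ← hψ, Pi.sub_apply, cv_sub]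
    ring
  · rw [fdat_e hW, fdat_e hW, if_pos hl, if_pos hl, ← hψ, Pi.sub_apply, cv_sub]
    ring

theorem hdt2_fdl {q₀ q sg : ℕ} (hW : W ≤ J) :
    Fdl F (hdt2 F c g W n r D q₀ q sg ψH Ht hD) c W ψH := by
  have h := fdat_fdl (F := F) (c := c) (g := g) (n := n) (r := r) (ψH := ψH) (Ht := Ht)
    (hD := hD) (SV := fun l => 2 ^ (g l + q)) (SE := fun l => 2 ^ (g l + q))
    (SG := fun l => 2 ^ (g r + sg) / 2 ^ g l) hW
  exact ⟨h.fc, h.v, h.e⟩

end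

/-- **Two samples with the same slow coordinates.** -/
def Ex0 (F : Fam m J) (c : ℕ → Fin m) (i : ℕ) (ω ω' : F.Ω) : Prop :=
  F.T ω = F.T ω' ∧ ∀ l < i, F.x ω (c l) = F.x ω' (c l) ∧ F.d ω (c l) = F.d ω' (c l)

section

variable {F : Fam m J} {c : ℕ → Fin m} {g : ℕ → ℕ} {W i r D : ℕ}
  {ψH : LnT F → ℕ → Option (Fin m) → ℝ} {d : Dat F (ℕ → Option (Fin m) → ℝ) r D} {ω ω' : F.Ω}

theorem Ex0.t (h : Ex0 F c i ω ω') : bt F ω none = bt F ω' none := by
  change F.t ω = F.t ω'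
  unfold Fam.t
  rw [h.1]

theorem Ex0.bt (h : Ex0 F c i ω ω') {l : ℕ} (hl : l < i) :
    Pool.GEN.bt F ω (some (c l)) = Pool.GEN.bt F ω' (some (c l)) := (h.2 l hl).1

theorem Ex0.bd (h : Ex0 F c i ω ω') {l : ℕ} (hl : l < i) :
    Pool.GEN.bd F ω (some (c l)) = Pool.GEN.bd F ω' (some (c l)) := (h.2 l hl).2

/-- The chart at the two samples. -/
theorem Ex0.ev (h : Ex0 F c i ω ω') {l : ℕ} (hl : l ≤ i) {Q : MvPolynomial (Option (Fin m)) ℝ}
    (hQ : DepC c l Q) : eval (Pool.GEN.bt F ω) Q = eval (Pool.GEN.bt F ω') Q :=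
  hQ _ _ h.t fun j hj => h.bt (by omega)

/-- The derivative of the chart along the two samples. -/
theorem Ex0.dv (h : Ex0 F c i ω ω') {l : ℕ} (hl : l ≤ i) {Q : MvPolynomial (Option (Fin m)) ℝ}
    (hQ : DepC c l Q) : dd Q (Pool.GEN.bt F ω) (Pool.GEN.bd F ω) =
      dd Q (Pool.GEN.bt F ω') (Pool.GEN.bd F ω') :=
  Pool.D2Z.dd_dep hQ h.t (fun j hj => h.bt (by omega)) rfl fun j hj => h.bd (by omega)

/-- A covector of a slow place. -/
theorem Ex0.cv0 (h : Ex0 F c i ω ω') {l : ℕ} (hl : l ≤ i) {φ : Option (Fin m) → ℝ}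
    (hφ : CvC c l φ) : cv φ (Pool.GEN.bt F ω' - Pool.GEN.bt F ω) = 0 ∧
      cv φ (Pool.GEN.bd F ω' - Pool.GEN.bd F ω) = 0 := by
  have e0 : cv φ (0 : Option (Fin m) → ℝ) = 0 := by
    unfold cv
    simp
  constructor
  · rw [cv_congr hφ (W' := 0) (by rw [Pi.sub_apply, h.t, sub_self]; rfl) fun j hj => by
      rw [Pi.sub_apply, h.bt (by omega), sub_self]; rfl, e0]
  · rw [cv_congr hφ (W' := 0) (by rw [Pi.sub_apply]; exact sub_self _) fun j hj => by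
      rw [Pi.sub_apply, h.bd (by omega), sub_self]; rfl, e0]

/-- A covector of the place after the first rough one. -/
theorem Ex0.cv1 (h : Ex0 F c i ω ω') (hc : Set.InjOn c (Set.Iio (i + 1)))
    {φ : Option (Fin m) → ℝ} (hφ : CvC c (i + 1) φ) :
    cv φ (Pool.GEN.bt F ω' - Pool.GEN.bt F ω) =
      φ (some (c i)) * (F.x ω' (c i) - F.x ω (c i)) ∧
    cv φ (Pool.GEN.bd F ω' - Pool.GEN.bd F ω) =
      φ (some (c i)) * (F.d ω' (c i) - F.d ω (c i)) := by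
  constructor
  · rw [cv_eq hc hφ, Finset.sum_range_succ, Finset.sum_eq_zero fun j hj => ?_, zero_add]
    · rw [Pi.sub_apply, h.t, sub_self, mul_zero, zero_add]
      rfl
    · rw [Pi.sub_apply, h.bt (Finset.mem_range.1 hj), sub_self, mul_zero]
  · rw [cv_eq hc hφ, Finset.sum_range_succ, Finset.sum_eq_zero fun j hj => ?_, zero_add]
    · have e1 : (Pool.GEN.bd F ω' - Pool.GEN.bd F ω) none = 0 := sub_self _
      rw [e1, mul_zero, zero_add]
      rfl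
    · rw [Pi.sub_apply, h.bd (Finset.mem_range.1 hj), sub_self, mul_zero]

/-- The slow places. -/
theorem Fdl.slow (hd : Fdl F d c W ψH) (hψ : ∀ s l, CvC c l (ψH s l)) (h : Ex0 F c i ω ω')
    (hf : ψH (slam F W ω) = ψH (slam F W ω')) (hir : i ≤ r) {l : ℕ} (hl : l < i) :
    d.v W l ω' = d.v W l ω ∧ d.e W l ω' = d.e W l ω := by
  obtain ⟨a1, a2⟩ := h.cv0 hl.le (hψ (slam F W ω) l)
  have b1 := hd.v l (by omega) ω ω' h.1 hf
  have b2 := hd.e l (by omega) ω ω' h.1 hf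
  rw [a1, Pi.sub_apply, h.bt hl, sub_self, sub_zero] at b1
  rw [a2, Pi.sub_apply, h.bd hl, sub_self, sub_zero, mul_zero] at b2
  exact ⟨by linarith, by linarith⟩

/-- The first rough place. -/
theorem Fdl.fst (hd : Fdl F d c W ψH) (hψ : ∀ s l, CvC c l (ψH s l)) (h : Ex0 F c i ω ω')
    (hf : ψH (slam F W ω) = ψH (slam F W ω')) (hir : i < r) :
    d.v W i ω' - d.v W i ω = F.x ω' (c i) - F.x ω (c i) ∧
      d.e W i ω' - d.e W i ω = 1 / 2 ^ (W + 1) * (F.d ω' (c i) - F.d ω (c i)) := by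
  obtain ⟨a1, a2⟩ := h.cv0 le_rfl (hψ (slam F W ω) i)
  have b1 := hd.v i hir ω ω' h.1 hf
  have b2 := hd.e i hir ω ω' h.1 hf
  rw [a1, sub_zero] at b1
  rw [a2, sub_zero] at b2
  exact ⟨b1, b2⟩

/-- The second rough place. -/
theorem Fdl.snd (hd : Fdl F d c W ψH) (hc : Set.InjOn c (Set.Iio r))
    (hψ : ∀ s l, CvC c l (ψH s l)) (h : Ex0 F c i ω ω')
    (hf : ψH (slam F W ω) = ψH (slam F W ω')) (hir : i + 1 < r) :
    d.v W (i + 1) ω' - d.v W (i + 1) ω = (F.x ω' (c (i + 1)) - F.x ω (c (i + 1))) -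
      ψH (slam F W ω) (i + 1) (some (c i)) * (F.x ω' (c i) - F.x ω (c i)) ∧
    d.e W (i + 1) ω' - d.e W (i + 1) ω =
      1 / 2 ^ (W + 1) * ((F.d ω' (c (i + 1)) - F.d ω (c (i + 1))) -
      ψH (slam F W ω) (i + 1) (some (c i)) * (F.d ω' (c i) - F.d ω (c i))) := by
  obtain ⟨a1, a2⟩ := h.cv1 (hc.mono (Set.Iio_subset_Iio hir.le)) (hψ (slam F W ω) (i + 1))
  have b1 := hd.v (i + 1) hir ω ω' h.1 hf
  have b2 := hd.e (i + 1) hir ω ω' h.1 hf
  rw [a1] at b1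
  rw [a2] at b2
  exact ⟨b1, b2⟩

end

/-! ### Heights and velocities over the labels -/

/-- The height over a polynomial. -/
noncomputable def hgp (F : Fam m J) (k : Fin m) (Q : MvPolynomial (Option (Fin m)) ℝ)
    (ω : F.Ω) : ℝ := F.x ω k - eval (bt F ω) Q

/-- The velocity over a polynomial. -/
noncomputable def vlp (F : Fam m J) (k : Fin m) (Q : MvPolynomial (Option (Fin m)) ℝ)
    (ω : F.Ω) : ℝ := F.d ω k - dd Q (bt F ω) (bd F ω)

theorem ojet_hgp (F : Fam m J) (k : Fin m) (Q : MvPolynomial (Option (Fin m)) ℝ) (ω : F.Ω) :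
    ojet F k 0 Q ω = hgp F k Q ω := by
  unfold ojet hgp
  rw [jet_zero', map_sub, eval_X]
  rfl

theorem ojet_vlp (F : Fam m J) (k : Fin m) (Q : MvPolynomial (Option (Fin m)) ℝ) (ω : F.Ω) :
    ojet F k 1 Q ω = vlp F k Q ω := by
  have e1 : ∀ b V : Option (Fin m) → ℝ, jet 1 (X (some k) - Q) b V = V (some k) - dd Q b V := by
    intro b V
    rw [jet_one]
    have e2 := dd_X (some k) b V
    unfold dd at e2 ⊢
    rw [← e2, ← Finset.sum_sub_distrib]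
    refine Finset.sum_congr rfl fun o _ => ?_
    rw [map_sub, map_sub]
    ring
  unfold ojet vlp
  rw [e1]
  rfl

section

variable {F : Fam m J} {c : ℕ → Fin m} {i : ℕ} {Q : ℕ → MvPolynomial (Option (Fin m)) ℝ}
  {s : ℝ} {ω ω' : F.Ω}

theorem Ex0.hgp0 (h : Ex0 F c i ω ω') (hQ : DepC c i (Q i)) :
    hgp F (c i) (Q i) ω' - hgp F (c i) (Q i) ω = F.x ω' (c i) - F.x ω (c i) := by
  unfold hgp
  rw [h.ev le_rfl hQ]
  ring

theorem Ex0.vlp0 (h : Ex0 F c i ω ω') (hQ : DepC c i (Q i)) :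
    vlp F (c i) (Q i) ω' - vlp F (c i) (Q i) ω = F.d ω' (c i) - F.d ω (c i) := by
  unfold vlp
  rw [h.dv le_rfl hQ]
  ring

theorem Ex0.prj (h : Ex0 F c i ω ω') (hc : ∀ l < i, c l ≠ c i) (hQ : DepC c i (Q i)) :
    D2F2.prj c Q i (Pool.GEN.bt F ω) none = D2F2.prj c Q i (Pool.GEN.bt F ω') none ∧
    ∀ j < i + 1, D2F2.prj c Q i (Pool.GEN.bt F ω) (some (c j)) =
      D2F2.prj c Q i (Pool.GEN.bt F ω') (some (c j)) := by
  refine ⟨by rw [prj_none, prj_none, h.t], fun j hj => ?_⟩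
  rcases Nat.lt_succ_iff_lt_or_eq.1 hj with h1 | h1
  · rw [prj_ne (hc j h1), prj_ne (hc j h1), h.bt h1]
  · rw [h1, prj_self, prj_self, h.ev le_rfl hQ]

theorem Ex0.hgp1 (h : Ex0 F c i ω ω') (hc : ∀ l < i, c l ≠ c i) (hQ : DepC c i (Q i))
    (hQ' : DepC c (i + 1) (Q (i + 1))) :
    hgp F (c (i + 1)) (afl c Q i s) ω' - hgp F (c (i + 1)) (afl c Q i s) ω =
      (F.x ω' (c (i + 1)) - F.x ω (c (i + 1))) - s * (F.x ω' (c i) - F.x ω (c i)) := by
  have e1 : eval (D2F2.prj c Q i (Pool.GEN.bt F ω)) (Q (i + 1)) =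
      eval (D2F2.prj c Q i (Pool.GEN.bt F ω')) (Q (i + 1)) :=
    hQ' _ _ (h.prj hc hQ).1 (h.prj hc hQ).2
  unfold hgp
  rw [eval_afl, eval_afl, e1, h.ev le_rfl hQ]
  have e2 : ∀ ν : F.Ω, Pool.GEN.bt F ν (some (c i)) = F.x ν (c i) := fun _ => rfl
  rw [e2, e2]
  ring

theorem Ex0.vlp1 (h : Ex0 F c i ω ω') (hc : ∀ l < i, c l ≠ c i) (hQ : DepC c i (Q i))
    (hQ' : DepC c (i + 1) (Q (i + 1))) :
    vlp F (c (i + 1)) (afl c Q i s) ω' - vlp F (c (i + 1)) (afl c Q i s) ω =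
      (F.d ω' (c (i + 1)) - F.d ω (c (i + 1))) - s * (F.d ω' (c i) - F.d ω (c i)) := by
  have e0 : ∀ (x V : Option (Fin m) → ℝ), prv c Q i x V none = V none := fun x V => by
    unfold prv
    rw [Function.update_of_ne (by simp)]
  have e1 : dd (Q (i + 1)) (D2F2.prj c Q i (Pool.GEN.bt F ω))
      (prv c Q i (Pool.GEN.bt F ω) (Pool.GEN.bd F ω)) =
      dd (Q (i + 1)) (D2F2.prj c Q i (Pool.GEN.bt F ω'))
      (prv c Q i (Pool.GEN.bt F ω') (Pool.GEN.bd F ω')) := by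
    refine Pool.D2Z.dd_dep hQ' (h.prj hc hQ).1 (h.prj hc hQ).2 (by rw [e0, e0]; rfl)
      fun j hj => ?_
    unfold prv
    rcases Nat.lt_succ_iff_lt_or_eq.1 hj with h1 | h1
    · rw [Function.update_of_ne (fun e => hc j h1 (Option.some.inj e)),
        Function.update_of_ne (fun e => hc j h1 (Option.some.inj e)), h.bd h1]
    · rw [h1, Function.update_self, Function.update_self, h.dv le_rfl hQ]
  unfold vlp
  rw [dd_afl, dd_afl, e1, h.dv le_rfl hQ]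
  have e2 : ∀ ν : F.Ω, Pool.GEN.bd F ν (some (c i)) = F.d ν (c i) := fun _ => rfl
  rw [e2, e2]
  ring

end

end Pool.D2F2
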