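import Pool.Agent.H4.D2.Nvq
import Pool.Agent.H3.D2G.RecH

/-!
# The joint of the cells with the near digits of a pair

`aePG_fa_nv`: free velocities and near digits at almost every window, in one subclass.
`lCellA_of_ghz`: the joint `lCellA_of_gh` for a property which uses the statements of lower
dimension.
-/

set_option autoImplicit false

namespace Pool.D2F2

open Pool.STK Pool.GEN Pool.PKG Pool.LA91

/-- **Free velocities and near digits**, in one subclass. -/
theorem aePG_fa_nv {n : ℕ} (hn4 : 4 ≤ n) (hZ : ∀ k, 1 ≤ k → k < n → FZX k) :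
    AePG n (sumQ (FaQ : PropG n (ℕ × ℕ × ℚ × ℚ)) (NvQ : PropG n Unit)) :=
  aePG_sum (aePG_fa n) (her_fa n) (aePG_nv hn4 fun k h1 h3 => hZ k h1 (by omega))

theorem her_fa_nv (n : ℕ) :
    HerQ (sumQ (FaQ : PropG n (ℕ × ℕ × ℚ × ℚ)) (NvQ : PropG n Unit)) :=
  her_sum (her_fa n) (her_nv n)

end Pool.D2F2

namespace Pool.ASM

open MeasureTheory Set Filter Topology
open Pool.GEN Pool.PKG Pool.SW
open Pool.ONE (Ext0 Ext)
open Pool.MIC6

/-- **A cell for all classes from its class theorem**, with the rate, the slopes and a property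
which uses the statements of lower dimension. -/
theorem lCellA_of_ghz {n : ℕ} {ι : Type} [Countable ι] {Q : PropG n ι}
    (hQ : (∀ k, 1 ≤ k → k < n → FZX k) → AePG n Q) {κ : List Kd} (hκn : κ.length ≤ n - 1)
    (hcls : ∀ h : ℝ, 0 < h → h ≤ 1 → ∀ Sl : ℕ → ℝ, (∀ (l : ℕ) (hl : l < κ.length), 
      (κ[l] = .one → Sl l = 1) ∧ (κ[l] = .thin → 1 < Sl l) ∧ (κ[l] = .sta → 2 ≤ Sl l)) →
      2 < Sl κ.length → (∀ l < n, 1 ≤ Sl l) → CelQH n κ.length h Sl (kgL κ) Q) :
    LCellA n κ := fun _ => by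
  refine (Tol.le (1 / 2) (by norm_num)).mono fun η hη => ?_
  intro hn hZ hF hTop D hD hD1 _ S P r P' Λ PB H
  have h1 := hη D hD
  exact cell_of_gh (hQ hZ) H hTop hF _ hκn (hcls _ (mul_pos (by linarith) hD) (by nlinarith))

end Pool.ASM
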