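import Pool.Agent.H4.D2.Vfc
import Pool.Agent.H4.D2.Nvj

/-!
# The moved place is full, as a property of the windows

`VuAt.cong`: only the values and the slopes of the profiles matter. `VuQ`: the property, for the
joints; `her_vu`, `aePG_vu`, `aePG_nv_vu`.
-/

set_option autoImplicit false

namespace Pool.D2F2

open Finset Real MvPolynomial Filter Topology MeasureTheory
open Pool.Agent.H49.Ent Pool.Agent.H32.Dense Pool.STK Pool.KA Pool.KSAT Pool.K2S Pool.PB Pool.S6C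
  Pool.GEN Pool.RCD Pool.LA91 Pool.PKG Pool.CHT Pool.GRW
open Pool.TOP (TopS)
open Pool.OWN72 (epo cc_epo cc_inj3 gs_exa gs_vs vs_img vse_one nlw_lo1 nlw_lo2 nlw_tie gs_act img)

/-- **Only the values and the slopes of the profiles matter.** -/
theorem VuAt.cong {m : ℕ} {S : PCl m} {c : ℕ → Fin m} {L₁ L₂ M₁ M₂ : ℝ → ℝ} {g s₁ s₂ : ℝ}
    (h : VuAt S c L₁ L₂ g) (a1 : HasDerivAt L₁ s₁ g) (b1 : HasDerivAt M₁ s₁ g)
    (e1 : L₁ g = M₁ g) (a2 : HasDerivAt L₂ s₂ g) (b2 : HasDerivAt M₂ s₂ g) (e2 : L₂ g = M₂ g) :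
    VuAt S c M₁ M₂ g := by
  intro C e μ hC he hμ
  obtain ⟨κ, hκ, i₀, h⟩ := h (C + 1) e (μ / 2) (by linarith) he (by positivity)
  refine ⟨κ / 4, by positivity, i₀, fun i hi => ?_⟩
  obtain ⟨ρ, hρ, h⟩ := h i hi
  obtain ⟨ε, hε0, hε1, hε2, hε3⟩ : ∃ ε : ℝ, 0 < ε ∧ ε ≤ κ / 16 ∧ ε ≤ 1 / 4 ∧ ε ≤ μ / 16 :=
    ⟨min (min (κ / 16) (1 / 4)) (μ / 16),
      lt_min (lt_min (by positivity) (by norm_num)) (by positivity),
      (min_le_left _ _).trans (min_le_left _ _), (min_le_left _ _).trans (min_le_right _ _),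
      min_le_right _ _⟩
  obtain ⟨r1, hr1, k1⟩ := lin_near a1 hε0
  obtain ⟨r2, hr2, k2⟩ := lin_near b1 hε0
  obtain ⟨r3, hr3, k3⟩ := lin_near a2 hε0
  obtain ⟨r4, hr4, k4⟩ := lin_near b2 hε0
  obtain ⟨d, hd0, d0, d1, d2, d3, d4⟩ : ∃ d : ℝ, 0 < d ∧ d ≤ ρ ∧ d ≤ r1 ∧ d ≤ r2 ∧ d ≤ r3 ∧
      d ≤ r4 := by
    refine ⟨min ρ (min (min r1 r2) (min r3 r4)), by positivity, min_le_left _ _, ?_, ?_, ?_, ?_⟩
    · exact (min_le_right _ _).trans ((min_le_left _ _).trans (min_le_left _ _))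
    · exact (min_le_right _ _).trans ((min_le_left _ _).trans (min_le_right _ _))
    · exact (min_le_right _ _).trans ((min_le_right _ _).trans (min_le_left _ _))
    · exact (min_le_right _ _).trans ((min_le_right _ _).trans (min_le_right _ _))
  refine ⟨d, hd0, fun R hR hRd w j hw hwj hj pv Nv q p N₁ N₁' Na Nb Nd v1 v2 v3 v4 c1 c2 c3 c4 c5
    c6 c7 c8 c9 c10 c₀ hc₀ => ?_⟩
  have hεκ : ε * R ≤ κ / 16 * R := mul_le_mul_of_nonneg_right hε1 hR.le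
  have hεR : ε * R ≤ 1 / 4 * R := mul_le_mul_of_nonneg_right hε2 hR.le
  have hεμ : ε * R ≤ μ / 16 * R := mul_le_mul_of_nonneg_right hε3 hR.le
  have key1 : ∀ x : ℝ, |x - g| ≤ R → L₁ x - 2 * (ε * R) ≤ M₁ x ∧ M₁ x ≤ L₁ x + 2 * (ε * R) := by
    intro x hx
    have x1 := abs_le.1 (k1 R hR (by linarith) x hx)
    have x2 := abs_le.1 (k2 R hR (by linarith) x hx)
    rw [← e1] at x2
    constructor <;> linarith [x1.1, x1.2, x2.1, x2.2]
  have key2 : ∀ x : ℝ, |x - g| ≤ R → L₂ x - 2 * (ε * R) ≤ M₂ x ∧ M₂ x ≤ L₂ x + 2 * (ε * R) := by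
    intro x hx
    have x1 := abs_le.1 (k3 R hR (by linarith) x hx)
    have x2 := abs_le.1 (k4 R hR (by linarith) x hx)
    rw [← e2] at x2
    constructor <;> linarith [x1.1, x1.2, x2.1, x2.2]
  have w1 := key1 w (by rw [abs_le]; constructor <;> linarith)
  have w2 := key2 w (by rw [abs_le]; constructor <;> linarith)
  have j2 := key2 j (by rw [abs_le]; constructor <;> linarith)
  have hCR : (C + 1) * R = C * R + R := by ring
  have hκR : κ / 4 * R = κ * R / 4 := by ring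
  have hκR' : κ / 16 * R = κ * R / 16 := by ring
  have hμR : μ / 2 * R = μ * R / 2 := by ring
  have hμR' : μ / 16 * R = μ * R / 16 := by ring
  have hκ0 : 0 < κ * R := mul_pos hκ hR
  have hμ0 : 0 < μ * R := mul_pos hμ hR
  rw [hκR] at c2 c6
  rw [hκR'] at hεκ
  rw [hμR'] at hεμ
  refine h R hR (by linarith) w j hw hwj hj pv Nv q p N₁ N₁' Na Nb Nd v1 v2 v3 v4 ?_ ?_ ?_ ?_ ?_
    ?_ c7 ?_ ?_ ?_ c₀ hc₀
  · rw [hCR]
    linarith [w1.1, w1.2]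
  · linarith [w2.1, w2.2]
  · rw [hCR]
    linarith [w1.1, w1.2]
  · rw [hCR]
    linarith [w1.1, w1.2]
  · rw [hμR]
    linarith [w1.1, w1.2]
  · linarith [j2.1, j2.2]
  · rw [hμR]
    linarith [w1.1, w1.2, w2.1, w2.2]
  · rw [hμR]
    linarith [w1.1, w1.2, w2.1, w2.2]
  · rw [hμR]
    linarith [w1.1, w1.2, w2.1, w2.2]

/-- **The place 2 is full given the near path of the place 1** at a window, when their diagonals
have the same slope larger than one. -/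
def VuQ {n : ℕ} (_ : Unit) (_ : ℕ) (S : PCl n) (_ : List (Fin n) × Fin n → ℝ → ℝ → ℝ) (_ : ℝ)
    (c : ℕ → Fin n) (_ : ℝ → ℝ → ℝ) (_ : ℝ → ℝ) (L _ : ℕ → ℝ → ℝ → ℝ) (_ : ℕ → Kg) (_ : Set ℝ)
    (x : ℝ) : Prop :=
  ∀ Sl : ℝ, 1 < Sl → HasDerivAt (fun w => L 1 w w) Sl x → HasDerivAt (fun w => L 2 w w) Sl x →
    VuAt S c (fun w => L 1 w w) (fun w => L 2 w w) x

theorem her_vu (n : ℕ) : HerQ (VuQ : PropG n Unit) :=
  fun _ _ _ _ _ _ _ _ _ _ _ _ _ _ hs h Sl h1 h2 h3 => (h Sl h1 h2 h3).sub hs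

/-- **The property `VuQ` holds at almost every window**, in a subclass. -/
theorem aePG_vu {n : ℕ} (hn4 : 4 ≤ n) (hFn : ∀ k, 1 ≤ k → k ≤ 3 → FZX k) :
    AePG n (VuQ : PropG n Unit) := by
  intro hn S P r P' Λ PB PQ H hTop hF o G hG hGs
  obtain ⟨al, g₀, s, d', e', K₁, N₁, hal, hg₀, hC⟩ := H.cl
  have htm : TmC S 6 := Pool.GEN.N83.clx_tmc hC
  have hM : Bas S (fun J F A => (cnt F.p (ptr F J) A : ℝ) ≤ Real.exp ((4 * n + 1) * J)) :=
    Bas.mono 0 hC.cnt fun J _ F A h => h J le_rfl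
  have hB : ActB N₁ S (cc hn o.1.1 0) := by
    have h1 : cc hn o.1.1 0 = bse (o.1.1 ⟨0, by omega⟩) := cc_lt hn _ (by omega)
    rw [h1]
    exact hC.actb _ (o.1.2 _ rfl)
  have ne : ∀ i j : ℕ, i < n → j < n → i ≠ j → cc hn o.1.1 i ≠ cc hn o.1.1 j :=
    fun i j hi hj hij h => hij (cc_inj' hn o.1.1 hi hj h)
  obtain ⟨S', a1, a2, a3⟩ := vu_cls hFn hC.ne (by norm_num : (0 : ℝ) ≤ 6) htm hC.pos H.toPk.lam
    hal hg₀ hC.actm (c := cc hn o.1.1) hB (ne 0 1 (by omega) (by omega) (by norm_num))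
    (ne 0 2 (by omega) (by omega) (by norm_num)) (ne 1 2 (by omega) (by omega) (by norm_num)) hM
  refine ⟨S', a1, a2, ?_⟩
  filter_upwards [a3, den2_ae G] with g h1 h2 hg κ _ p
  refine ⟨0, fun Sl hSl d1 d2 => ?_⟩
  have hP := gs_ptv H.toPk hTop hF hn4 hGs hg (h2 hg) hSl d1 d2
  refine (h1 _ _ _ hP).cong hP.d1.2 d1 hP.d1.1 hP.d2.2 d2 ?_
  show Λ {cc hn o.1.1 0, cc hn o.1.1 1} (cc hn o.1.1 2) g g = LvL hn P P' o 2 g g
  rw [hP.d2.1]
  ring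

/-- **Both properties of the pair of the places 1, 2**, in one subclass. -/
theorem aePG_nv_vu {n : ℕ} (hn4 : 4 ≤ n) (hZ : ∀ k, 1 ≤ k → k < n → FZX k) :
    AePG n (sumQ (NvQ : PropG n Unit) (VuQ : PropG n Unit)) :=
  aePG_sum (aePG_nv hn4 fun k h1 h3 => hZ k h1 (by omega)) (her_nv n)
    (aePG_vu hn4 fun k h1 h3 => hZ k h1 (by omega))

theorem her_nv_vu (n : ℕ) : HerQ (sumQ (NvQ : PropG n Unit) (VuQ : PropG n Unit)) :=
  her_sum (her_nv n) (her_vu n)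

end Pool.D2F2
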