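import Pool.Agent.H4.D2.Vfq
import Pool.Agent.H57.AVG.C1s

/-!
# The moved place 2 is full: the input of the closed gradient

`VuAt.vfc`: `VfC` of the moved place `2` over the place `1`, for a closed function `y` of the near
data of the place `0`.
-/

set_option autoImplicit false

namespace Pool.D2F2

open Finset Real MvPolynomial
open Pool.Agent.H49.Ent Pool.Agent.H32.Dense Pool.STK Pool.KA Pool.KSAT Pool.K2S Pool.PB Pool.S6C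
  Pool.GEN Pool.RCD Pool.LA91 Pool.AVG57 Pool.AVG96
open Pool.OWN17 (yF)

variable {m : ℕ} {γ : ∀ J : ℕ, Fam m J → Type}

/-- `VfC` from the near digits given the near path. -/
theorem vfc_of {S : PCl m} {γ' : ∀ J : ℕ, Fam m J → Type}
    (hpos : ∀ (τ : ℝ) (J : ℕ) (F : Fam m J) (A : F.Ω → Prop), S.St τ J F A → 0 < Pe F.p A)
    {c : ℕ → Fin m} {w x : ℝ} {p n n' : ℕ → ℝ} {Na Nb Nd θ : ℝ}
    {y : ∀ (J : ℕ) (F : Fam m J), F.Ω → γ J F} {y' : ∀ (J : ℕ) (F : Fam m J), F.Ω → γ' J F}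
    (hy : ∀ (J : ℕ) (F : Fam m J) (ω ω' : F.Ω), y' J F ω = y' J F ω' → y J F ω = y J F ω')
    (h : VfP S (fun J F => ptr F J) y' (qJets m c 1 2 1 (fun _ _ => w) (fun l _ => p l)
      (nd n n' w)) (qJet m ((range 2).image c) (c 2) 0 w (p 2) Na)
      (qJet m ((range 2).image c) (c 2) 0 w (p 2) Nb)
      (qJet m ((range 2).image c) (c 2) 1 w (p 2) Nd) w x ((Nb - Na) * Real.log 2 - θ) 1) :
    VfC S y c 1 2 w x p n n' Na Nb Nd θ := by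
  obtain ⟨k, hk, e₀, he₀, H⟩ := h
  refine ⟨k, hk, e₀, he₀, fun K => Bas.mono 0 ((H K).and (pos_bas hpos)) ?_⟩
  rintro J - F A ⟨H, hA⟩ V₁ V₂ z zx hz hzx u₀ a b d hu ha hb hd
  have h1 := H V₁ V₂ z zx hz hzx u₀ a b d hu ha hb hd A (fun _ h => h) (one_mul _).le
  refine h1.trans (CH_mono_cond (isLaw_cond F.isLaw hA).nonneg fun ω ω' _ _ hh => ?_)
  simp only [Prod.mk.injEq] at hh ⊢
  exact ⟨hh.1, hh.2.1, hh.2.2.1, hh.2.2.2.1, hh.2.2.2.2.1, hy J F ω ω' hh.2.2.2.2.2⟩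

/-- **The moved place 2 is full**, near a window: `L₁`, `L₂` the precisions of the labels of the
places `1`, `2`, `μ` the room. -/
theorem VuAt.vfc {S : PCl m}
    (hpos : ∀ (τ : ℝ) (J : ℕ) (F : Fam m J) (A : F.Ω → Prop), S.St τ J F A → 0 < Pe F.p A)
    {c : ℕ → Fin m} {L₁ L₂ : ℝ → ℝ} {g : ℝ} (h : VuAt S c L₁ L₂ g) {C e μ : ℝ} (hC : 0 ≤ C)
    (he : 0 < e) (hμ : 0 < μ) : ∃ κ : ℝ, 0 < κ ∧ ∃ i₀ : ℕ, ∀ i ≥ i₀, ∃ ρ : ℝ, 0 < ρ ∧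
    ∀ R : ℝ, 0 < R → R < ρ → ∀ w x : ℝ, g - R ≤ w → w ≤ x → x ≤ g + R →
    ∀ (p n n' : ℕ → ℝ) (Na Nb Nd : ℝ), L₁ w - C * R ≤ p 1 → L₂ w - κ * R ≤ p 2 →
    n 1 ≤ L₁ w + C * R → n' 1 ≤ L₁ w + C * R → L₁ w + μ * R ≤ n' 1 → L₂ x ≤ Na + κ * R →
    Na ≤ Nb → Nb + μ * R ≤ L₂ w + (n 1 - L₁ w) → Nd + w + μ * R ≤ L₂ w + (n 1 - L₁ w) →
    Nd + w + μ * R ≤ L₂ w + (n' 1 - L₁ w) →
    ∀ y : (∀ (J : ℕ) (F : Fam m J), F.Ω → γ J F), (∀ (J : ℕ) (F : Fam m J) (ω ω' : F.Ω),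
      yF F (c 0) ⌊(1 / 2 : ℝ) ^ i * J⌋₊ ω = yF F (c 0) ⌊(1 / 2 : ℝ) ^ i * J⌋₊ ω' →
      y J F ω = y J F ω') → VfC S y c 1 2 w x p n n' Na Nb Nd (e * R) := by
  obtain ⟨κ, hκ, i₀, h⟩ := h C e μ hC he hμ
  refine ⟨κ, hκ, i₀, fun i hi => ?_⟩
  obtain ⟨ρ, hρ, h⟩ := h i hi
  refine ⟨ρ, hρ, fun R hR hRρ w x h1 h2 h3 p n n' Na Nb Nd a1 a2 a3 a4 a5 a6 a7 a8 a9 a10 y hy
    => ?_⟩
  have e0 : nd n n' w 1 0 = n 1 := by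
    unfold nd
    exact if_pos rfl
  have e1 : nd n n' w 1 1 = n' 1 - w := by
    unfold nd
    rw [if_neg one_ne_zero]
    push_cast
    ring
  exact vfc_of hpos hy (h R hR hRρ w x h1 h2 h3 (fun l _ => p l) (nd n n' w) (p 1) (p 2) (n 1)
    (n' 1 - w) Na Nb Nd rfl rfl e0 e1 a1 a2 a3 (by linarith) (by linarith) a6 a7 a8 a9
    (by linarith) 1 one_pos)

end Pool.D2F2
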