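import Pool.Agent.H4.D2.Flc
import Pool.Agent.H4.D2.Nvj
import Pool.Agent.H3.D2G.Afq
import Pool.Agent.H95.VF.Lit

/-!
# The places 1 and 2 are full behind their own paths, at a tie of their slopes

`fulG_of`: `FulG` from `FlAt` and the affine labels. `aePG_flt`: the property `FulQ` at almost every
window, in a subclass, when the slopes of the places 1 and 2 are equal. `aePG_ful_all`: all slopes,
from the case of different slopes.
-/

set_option autoImplicit false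

namespace Pool.D2F2

open Finset Real MvPolynomial Filter Topology MeasureTheory
open Pool.Agent.H49.Ent Pool.Agent.H32.Dense Pool.STK Pool.KA Pool.KSAT Pool.K2S Pool.PB Pool.S6C
  Pool.GEN Pool.RCD Pool.LA91 Pool.PKG Pool.CHT Pool.GRW
open Pool.TOP (TopS)
open Pool.OWN72 (epo cc_epo cc_inj3 gs_exa gs_vs vs_img vse_one nlw_lo1 nlw_lo2 nlw_tie gs_act img)
open Pool.CDX (AfG AffL)
open Pool.FUL95 (FulP FulG FulQ)
open Pool.OWN17 (yF)
open Pool.OWN83 (YkV yX dT)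

theorem yF_ykv {m : ℕ} {x : Fin m} {k : ℕ} {γ : ∀ J : ℕ, Fam m J → Type}
    {y : ∀ (J : ℕ) (F : Fam m J), F.Ω → γ J F} (hy : YkV {x} ((1 / 8) ^ k) y) (J : ℕ) (F : Fam m J)
    (ω ω' : F.Ω) (h : yF F x ⌊(1 / 2 : ℝ) ^ (3 * k) * J⌋₊ ω =
      yF F x ⌊(1 / 2 : ℝ) ^ (3 * k) * J⌋₊ ω') : y J F ω = y J F ω' := by
  obtain ⟨ψ, hψ⟩ := hy J F
  have e1 : (1 / 2 : ℝ) ^ (3 * k) = (1 / 8) ^ k := by
    rw [pow_mul]
    norm_num
  rw [e1] at h
  unfold yF at h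
  simp only [Prod.mk.injEq] at h
  obtain ⟨h1, h2, h3, h4⟩ := h
  rw [hψ, hψ]
  have e2 : yX {x} J F ω = yX {x} J F ω' := by
    refine Prod.ext (funext fun i => ?_) (Prod.ext h1 h4)
    show (if i ∈ ({x} : Finset (Fin m)) then _ else _) = if i ∈ ({x} : Finset (Fin m)) then _ else _
    by_cases hi : i ∈ ({x} : Finset (Fin m))
    · rw [if_pos hi, if_pos hi, Finset.mem_singleton.1 hi]
      exact h2
    · rw [if_neg hi, if_neg hi]
  have e3 : dT {x} ((1 / 8) ^ k) J F ω = dT {x} ((1 / 8) ^ k) J F ω' := by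
    funext i
    show (if i ∈ ({x} : Finset (Fin m)) then _ else _) = if i ∈ ({x} : Finset (Fin m)) then _ else _
    by_cases hi : i ∈ ({x} : Finset (Fin m))
    · rw [if_pos hi, if_pos hi, Finset.mem_singleton.1 hi]
      exact h3
    · rw [if_neg hi, if_neg hi]
  rw [e2, e3]

/-- **`FulG`** from the fullness near the window and the affine labels. -/
theorem fulG_of {m : ℕ} {S₀ S : PCl m} {c : ℕ → Fin m} {sn : ℝ → ℕ → ℝ} {L₁ L₂ : ℝ → ℝ}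
    {G : Set ℝ} {g s₁ s₂ : ℝ} (h : FlAt S₀ S c L₁ L₂ g) (hA1 : AfG S₀ c sn G g 1)
    (hA2 : AfG S₀ c sn G g 2) (a1 : HasDerivAt L₁ s₁ g)
    (b1 : HasDerivAt (fun w => sn w 1) s₁ g) (e1 : L₁ g = sn g 1) (a2 : HasDerivAt L₂ s₂ g)
    (b2 : HasDerivAt (fun w => sn w 2) s₂ g) (e2 : L₂ g = sn g 2) (hd : Den2 G g) :
    FulG S c sn G g := by
  intro K e C he hC
  obtain ⟨C', hC'⟩ : ∃ C' : ℝ, C' = C + e + 1 := ⟨_, rfl⟩
  have hC'0 : 0 < C' := by rw [hC']; linarith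
  obtain ⟨i₀, κ, hκ, h⟩ := h K e C' he hC'0
  refine ⟨i₀, κ, hκ, fun γ y hy => ?_⟩
  obtain ⟨ρ, hρ, h⟩ := h (3 * i₀) (by omega)
  obtain ⟨ε, hε0, hε1⟩ : ∃ ε : ℝ, 0 < ε ∧ 2 * (ε * C') ≤ κ :=
    ⟨κ / (2 * C'), by positivity, le_of_eq (by field_simp)⟩
  obtain ⟨r1, hr1, k1⟩ := lin_near a1 hε0
  obtain ⟨r2, hr2, k2⟩ := lin_near b1 hε0
  obtain ⟨r3, hr3, k3⟩ := lin_near a2 hε0
  obtain ⟨r4, hr4, k4⟩ := lin_near b2 hε0
  obtain ⟨κ', hκ'0, hκ'1⟩ : ∃ κ' : ℝ, 0 < κ' ∧ κ' * C' = κ :=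
    ⟨κ / C', by positivity, div_mul_cancel₀ _ hC'0.ne'⟩
  obtain ⟨r5, hr5, A1⟩ := hA1 κ' hκ'0
  obtain ⟨r6, hr6, A2⟩ := hA2 κ' hκ'0
  obtain ⟨τ, hτ0, hτ1⟩ : ∃ τ : ℝ, 0 < τ ∧ τ * C' = e :=
    ⟨e / C', by positivity, div_mul_cancel₀ _ hC'0.ne'⟩
  obtain ⟨r7, hr7, hd⟩ := hd τ hτ0
  obtain ⟨d, hd0, d0, d1, d2, d3, d4, d5, d6, d7⟩ : ∃ d : ℝ, 0 < d ∧ d ≤ ρ * C' ∧ d ≤ r1 ∧
      d ≤ r2 ∧ d ≤ r3 ∧ d ≤ r4 ∧ d ≤ r5 ∧ d ≤ r6 ∧ d ≤ r7 := by
    refine ⟨min (min (min (ρ * C') r1) (min r2 r3)) (min (min r4 r5) (min r6 r7)),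
      by positivity, ?_, ?_, ?_, ?_, ?_, ?_, ?_, ?_⟩
    · exact (min_le_left _ _).trans ((min_le_left _ _).trans (min_le_left _ _))
    · exact (min_le_left _ _).trans ((min_le_left _ _).trans (min_le_right _ _))
    · exact (min_le_left _ _).trans ((min_le_right _ _).trans (min_le_left _ _))
    · exact (min_le_left _ _).trans ((min_le_right _ _).trans (min_le_right _ _))
    · exact (min_le_right _ _).trans ((min_le_left _ _).trans (min_le_left _ _))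
    · exact (min_le_right _ _).trans ((min_le_left _ _).trans (min_le_right _ _))
    · exact (min_le_right _ _).trans ((min_le_right _ _).trans (min_le_left _ _))
    · exact (min_le_right _ _).trans ((min_le_right _ _).trans (min_le_right _ _))
  refine ⟨d / C', by positivity, fun R hR hRd b₀ b1' b2' => ?_⟩
  have hR' : C' * R < d := by
    rw [lt_div_iff₀ hC'0] at hRd
    linarith
  have hRρ : R < ρ := by
    have : C' * R < C' * ρ := by linarith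
    exact lt_of_mul_lt_mul_left this hC'0.le
  have hCR : C' * R = C * R + e * R + R := by rw [hC']; ring
  have heR : 0 < e * R := mul_pos he hR
  have hCR0 : 0 < C * R := mul_pos hC hR
  have hC'R0 : 0 < C' * R := mul_pos hC'0 hR
  obtain ⟨-, b, hb, c1, c2⟩ := hd (C' * R) hC'R0 (by linarith) b₀ (by
    rw [abs_le]
    constructor <;> linarith)
  have hτR : τ * (C' * R) = e * R := by rw [← mul_assoc, hτ1]
  rw [hτR] at c1
  refine ⟨b, hb, c1, c2.le, fun p P N₁ N₂ f1 f2 f3 f4 f5 f6 => ?_⟩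
  obtain ⟨v₁, q₁, hv1, hq1, hL1⟩ := A1 (C' * R) hC'R0 (by linarith) b hb (by linarith)
    (by linarith)
  obtain ⟨v₂, q₂, hv2, hq2, hL2⟩ := A2 (C' * R) hC'R0 (by linarith) b hb (by linarith)
    (by linarith)
  have hκR : κ' * (C' * R) = κ * R := by rw [← mul_assoc, hκ'1]
  rw [hκR] at hq1 hq2
  have hεR : 2 * (ε * (C' * R)) ≤ κ * R := by
    have := mul_le_mul_of_nonneg_right hε1 hR.le
    have e3 : 2 * (ε * (C' * R)) = 2 * (ε * C') * R := by ring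
    rw [e3]
    exact this
  have hbg : |b - g| ≤ C' * R := by
    rw [abs_le]
    constructor <;> linarith
  have key1 : |sn b 1 - L₁ b| ≤ κ * R := by
    have x1 := abs_le.1 (k1 (C' * R) hC'R0 (by linarith) b hbg)
    have x2 := abs_le.1 (k2 (C' * R) hC'R0 (by linarith) b hbg)
    rw [← e1] at x2
    rw [abs_le]
    constructor <;> linarith [x1.1, x1.2, x2.1, x2.2]
  have key2 : |sn b 2 - L₂ b| ≤ κ * R := by
    have x1 := abs_le.1 (k3 (C' * R) hC'R0 (by linarith) b hbg)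
    have x2 := abs_le.1 (k4 (C' * R) hC'R0 (by linarith) b hbg)
    rw [← e2] at x2
    rw [abs_le]
    constructor <;> linarith [x1.1, x1.2, x2.1, x2.2]
  have hy' : YkV {c 0} ((1 / 8) ^ i₀) y := by
    rw [← img_one]
    exact hy
  exact h R hR hRρ b (by linarith) (by linarith) p (sn b) P N₁ N₂ v₁ q₁ v₂ q₂ f1 f2 f3
    (by linarith) (by linarith) key1 key2 (f6 1 le_rfl (by norm_num)) (f6 2 (by norm_num) le_rfl)
    hv1 hv2 hq1 hq2 hL1 hL2 γ y (yF_ykv hy')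

theorem her_fulq (n : ℕ) (Φ : (ℕ → ℝ) → Prop) : HerQ (FulQ Φ : PropG n Unit) :=
  fun _ _ _ _ _ _ _ _ _ _ _ _ _ _ hs h Sl h1 h2 h3 => (h Sl h1 h2 h3).sub hs

/-- **The places 1 and 2 are full behind their own paths**, at almost every window where their
slopes are equal. -/
theorem aePG_flt {n : ℕ} (hn4 : 4 ≤ n) (hFn : ∀ k, 1 ≤ k → k ≤ 3 → FZX k) :
    AePG n (FulQ (fun Sl => Sl 1 = Sl 2) : PropG n Unit) := by
  intro hn S₀ P r P' Λ PB PQ H₀ hTop hF o G hG hGs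
  obtain ⟨S, s1, s2, s3⟩ := aePG_af n hn S₀ P r P' Λ PB PQ H₀ hTop hF o G hG hGs
  have H := H₀.sub s1 s2
  obtain ⟨al, g₀, s, d', e', K₁, N₁, hal, hg₀, hC⟩ := H.cl
  have htm : TmC S 6 := Pool.GEN.N83.clx_tmc hC
  have hM : Bas S (fun J F A => (cnt F.p (ptr F J) A : ℝ) ≤ Real.exp ((4 * n + 1) * J)) :=
    Bas.mono 0 hC.cnt fun J _ F A h => h J le_rfl
  have hB : ActB N₁ S (cc hn o.1.1 0) := by
    have h1 : cc hn o.1.1 0 = bse (o.1.1 ⟨0, by omega⟩) := cc_lt hn _ (by omega)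
    rw [h1]
    exact hC.actb _ (o.1.2 _ rfl)
  have ne : ∀ i j : ℕ, i < n → j < n → i ≠ j → cc hn o.1.1 i ≠ cc hn o.1.1 j :=
    fun i j hi hj hij h => hij (cc_inj' hn o.1.1 hi hj h)
  obtain ⟨S', a1, a2, a3⟩ := fl_cls hFn hC.ne (by norm_num : (0 : ℝ) ≤ 6) htm hC.pos H.toPk.lam
    hal hg₀ hC.actm (c := cc hn o.1.1) hB (ne 0 1 (by omega) (by omega) (by norm_num))
    (ne 0 2 (by omega) (by omega) (by norm_num)) (ne 1 2 (by omega) (by omega) (by norm_num)) hM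
  refine ⟨S', a1, fun τ J F A h => s2 τ J F A (a2 τ J F A h), ?_⟩
  filter_upwards [a3, den2_ae G, s3] with g h1 h2 h3 hg κ hκ p
  refine ⟨0, fun Sl hd hΦ hgt => ?_⟩
  obtain ⟨k₀, hk₀⟩ := h3 hg κ hκ ()
  have d1 := hd 1 le_rfl (by norm_num)
  have d2 := hd 2 (by norm_num) (by norm_num)
  have hS1 := hgt 1 le_rfl (by norm_num)
  have hΦ' : Sl 1 = Sl 2 := hΦ
  obtain ⟨f1, f2⟩ := hk₀ (by omega) (by rw [d1.deriv]; exact hS1)
  rw [← hΦ'] at d2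
  have hP := gs_ptv H.toPk hTop hF hn4 hGs hg (h2 hg) hS1 d1 d2
  refine fulG_of (h1 _ _ _ hP) f1 f2 hP.d1.2 d1 hP.d1.1 hP.d2.2 d2 ?_ (h2 hg)
  show Λ {cc hn o.1.1 0, cc hn o.1.1 1} (cc hn o.1.1 2) g g = LvL hn P P' o 2 g g
  rw [hP.d2.1]
  ring

/-- **All slopes**, from the case of different slopes. -/
theorem aePG_ful_all {n : ℕ} (hn4 : 4 ≤ n) (hFn : ∀ k, 1 ≤ k → k ≤ 3 → FZX k)
    (h : AePG n (FulQ (fun Sl => Sl 1 ≠ Sl 2) : PropG n Unit)) :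
    AePG n (FulQ (fun _ => True) : PropG n Unit) := by
  intro hn S P r P' Λ PB PQ H hTop hF o G hG hGs
  obtain ⟨S', a1, a2, a3⟩ := aePG_sum h (her_fulq n _) (aePG_flt hn4 hFn) hn S P r P' Λ PB PQ H
    hTop hF o G hG hGs
  refine ⟨S', a1, a2, ?_⟩
  filter_upwards [a3] with g ha hg κ hκ p
  obtain ⟨k₁, h1⟩ := ha hg κ hκ (Sum.inl p)
  obtain ⟨k₂, h2⟩ := ha hg κ hκ (Sum.inr p)
  refine ⟨0, fun Sl hd _ hgt => ?_⟩
  by_cases hS : Sl 1 = Sl 2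
  · exact h2 Sl hd hS hgt
  · exact h1 Sl hd hS hgt

end Pool.D2F2
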