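import Pool.Agent.H4.D2.Two

/-!
# Entropy on events: small sets and deficits
-/

set_option autoImplicit false

namespace Pool.D2P

open Finset Real
open Pool.Agent.H49.Ent Pool.Agent.H32.Dense Pool.STK Pool.OWN68

section

variable {W : Type} [Fintype W] {q : W → ℝ} {S T R : Type}

/-- Fibres of small diameter. -/
theorem CH_dia (hq : IsLaw q) (X : W → ℤ) (Z : W → T) (D : ℕ)
    (h : ∀ w w', 0 < q w → 0 < q w' → Z w = Z w' → |X w - X w'| ≤ (D : ℤ)) :
    CH q X Z ≤ Real.log (2 * D + 1) := by
  classical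
  refine CH_fn hq.nonneg hq.sum_one X Z
    (fun z => if h : ∃ w, 0 < q w ∧ Z w = z then X h.choose else 0) D fun w hw => ?_
  have h1 : ∃ w', 0 < q w' ∧ Z w' = Z w := ⟨w, hw, rfl⟩
  rw [dif_pos h1]
  exact h w _ hw h1.choose_spec.1 h1.choose_spec.2.symm

/-- A variable in small sets. -/
theorem CH_card (hq : IsLaw q) (X : W → S) (Z : W → T) (F : T → Finset S) (N : ℕ)
    (hF : ∀ w, 0 < q w → X w ∈ F (Z w)) (hN : ∀ w, 0 < q w → (F (Z w)).card ≤ N) :
    CH q X Z ≤ Real.log N := by
  refine (CH_le_card hq.nonneg hq.sum_one X Z F hF).trans ?_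
  refine (Ex_mono (g := fun _ => Real.log N) hq.nonneg fun w hw => ?_).trans
    (le_of_eq (Ex_const hq.sum_one _))
  have h1 : 0 < (F (Z w)).card := Finset.card_pos.mpr ⟨X w, hF w hw⟩
  exact Real.log_le_log (by exact_mod_cast h1) (by exact_mod_cast hN w hw)

/-- Two bounds, on an event and everywhere. -/
theorem CH_two (hq : IsLaw q) (X : W → S) (Z : W → T) (G : W → Prop) {L M : ℝ}
    (hL : ∀ q' : W → ℝ, IsLaw q' → (∀ w, 0 < q' w → 0 < q w) → CH q' X Z ≤ L)
    (hM : 0 < law q G True → CH (cond q G True) X Z ≤ M) :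
    CH q X Z ≤ Real.log 2 + (law q G True * M + (1 - law q G True) * L) := by
  classical
  have h0 := hq.nonneg
  have h1 := CH_le_add h0 X G Z
  have h2 : CH q G Z ≤ Real.log 2 := by
    have h3 := CH_card hq G Z (fun _ => (univ : Finset Prop)) 2 (fun _ _ => Finset.mem_univ _)
      (fun _ _ => by rw [Finset.card_univ, Fintype.card_prop])
    exact_mod_cast h3
  have h3 : CH q X (fun w => (G w, Z w)) = CH q X (fun w => (Z w, G w)) := by
    refine CH_congr h0 ?_ ?_ ?_ ?_ <;>
    · intro w w' _ _ h
      simp only [Prod.mk.injEq] at h ⊢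
      tauto
  rw [h3, CH_split h0 X Z G] at h1
  have hs := sum_law_one hq.sum_one G
  have h4 : ∀ j ∈ univ.image G, law q G j * CH (cond q G j) X Z ≤
      law q G j * L + (if j = True then law q G True * (M - L) else 0) := by
    intro j _
    have hj0 := law_nonneg h0 G j
    by_cases hj : j = True
    · rw [if_pos hj, hj]
      rcases (law_nonneg h0 G True).eq_or_lt with hz | hz
      · rw [← hz]
        simp
      · have h6 := mul_le_mul_of_nonneg_left (hM hz) hz.le
        linarith
    · rw [if_neg hj, add_zero]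
      rcases hj0.eq_or_lt with hz | hz
      · rw [← hz]
        simp
      · exact mul_le_mul_of_nonneg_left (hL _ ⟨cond_nonneg h0 G j, sum_cond q G hz.ne'⟩
          fun w hw => ((cond_pos_iff h0 G j w).mp hw).1) hz.le
  have h5 := Finset.sum_le_sum h4
  rw [Finset.sum_add_distrib, ← Finset.sum_mul, hs, one_mul] at h5
  have h6 : (∑ j ∈ univ.image G, if j = True then law q G True * (M - L) else 0) =
      law q G True * (M - L) := by
    by_cases hm : True ∈ univ.image G
    · rw [Finset.sum_eq_single_of_mem True hm (fun j _ hj => if_neg hj), if_pos rfl]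
    · rw [Finset.sum_eq_zero fun j hj => if_neg (fun e => hm (by rw [← e]; exact hj)),
        law_eq_zero_of_notMem q G hm, zero_mul]
  rw [h6] at h5
  linarith

/-- **Deficit on an event.** -/
theorem deficit2 (hq : IsLaw q) (X : W → S) (Z : W → T) (G : W → Prop) {L e c : ℝ} (hc : 0 < c)
    (hL : ∀ q' : W → ℝ, IsLaw q' → (∀ w, 0 < q' w → 0 < q w) → CH q' X Z ≤ L)
    (h : L - e ≤ CH q X Z) (hG : c ≤ law q G True) :
    L - (e + Real.log 2) / c ≤ CH (cond q G True) X Z := by
  have hG0 : 0 < law q G True := hc.trans_le hG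
  have h1 := CH_two hq X Z G hL (M := CH (cond q G True) X Z) fun _ => le_rfl
  have h2 := hL q hq fun _ h => h
  have hl2 : 0 ≤ Real.log 2 := Real.log_nonneg (by norm_num)
  have h3 : law q G True * (L - CH (cond q G True) X Z) ≤ e + Real.log 2 := by linarith
  have h4 : L - CH (cond q G True) X Z ≤ (e + Real.log 2) / law q G True := by
    rw [le_div_iff₀ hG0]
    linarith
  have h5 : (e + Real.log 2) / law q G True ≤ (e + Real.log 2) / c :=
    div_le_div_of_nonneg_left (by linarith) hc hG
  linarith

/-- **Small sets.** -/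
theorem prob_small (hq : IsLaw q) (X : W → S) (Z : W → T) (G : W → Prop) {L M e : ℝ}
    (hL : ∀ q' : W → ℝ, IsLaw q' → (∀ w, 0 < q' w → 0 < q w) → CH q' X Z ≤ L)
    (hM : 0 < law q G True → CH (cond q G True) X Z ≤ M)
    (h : L - e ≤ CH q X Z) : law q G True * (L - M) ≤ e + Real.log 2 := by
  have h1 := CH_two hq X Z G hL hM
  linarith

theorem law_not (hq : IsLaw q) (G : W → Prop) :
    law q (fun w => ¬ G w) True = 1 - law q G True := by
  classical
  have h1 := hq.sum_one
  have h2 : law q (fun w => ¬ G w) True + law q G True = ∑ w, q w := by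
    unfold law
    rw [← Finset.sum_add_distrib]
    refine Finset.sum_congr rfl fun w _ => ?_
    by_cases h : G w
    · simp [h]
    · simp [h]
  linarith

/-- Mutual information on an event. -/
theorem mi_ev (hq : IsLaw q) (X : W → S) (Y : W → R) (Z : W → T) (G : W → Prop) {e c : ℝ}
    (hc : 0 < c) (h : CH q X Z - e ≤ CH q X (fun w => (Y w, Z w))) (hG : c ≤ law q G True) :
    CH (cond q G True) X Z - (e + Real.log 2) / c ≤
      CH (cond q G True) X (fun w => (Y w, Z w)) := by
  classical
  have h0 := hq.nonneg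
  have hG0 : 0 < law q G True := hc.trans_le hG
  have hl2 : 0 ≤ Real.log 2 := Real.log_nonneg (by norm_num)
  have h1 : CH q X (fun w => (Z w, G w)) ≤ CH q X Z :=
    CH_mono_cond h0 fun _ _ _ _ hh => (Prod.ext_iff.mp hh).1
  have h2 : CH q X (fun w => (Y w, Z w)) - Real.log 2 ≤ CH q X (fun w => ((Y w, Z w), G w)) := by
    have h3 := CH_le_add h0 X G (fun w => (Y w, Z w))
    have h4 : CH q G (fun w => (Y w, Z w)) ≤ Real.log 2 := by
      have h3 := CH_card hq G (fun w => (Y w, Z w)) (fun _ => (univ : Finset Prop)) 2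
        (fun _ _ => Finset.mem_univ _) (fun _ _ => by rw [Finset.card_univ, Fintype.card_prop])
      exact_mod_cast h3
    have h5 : CH q X (fun w => (G w, (Y w, Z w))) = CH q X (fun w => ((Y w, Z w), G w)) := by
      refine CH_congr h0 ?_ ?_ ?_ ?_ <;>
      · intro w w' _ _ h
        simp only [Prod.mk.injEq] at h ⊢
        tauto
    linarith
  rw [CH_split h0 X Z G] at h1
  rw [CH_split h0 X (fun w => (Y w, Z w)) G] at h2
  have h3 : ∀ j ∈ univ.image G, law q G j * CH (cond q G j) X (fun w => (Y w, Z w)) ≤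
      law q G j * CH (cond q G j) X Z := fun j _ =>
    mul_le_mul_of_nonneg_left (CH_mono_cond (cond_nonneg h0 G j)
      fun _ _ _ _ hh => (Prod.ext_iff.mp hh).2) (law_nonneg h0 G j)
  have hm : True ∈ univ.image G := by
    by_contra hcon
    rw [law_eq_zero_of_notMem q G hcon] at hG0
    exact absurd hG0 (lt_irrefl _)
  have h4 : law q G True * (CH (cond q G True) X Z - CH (cond q G True) X (fun w => (Y w, Z w))) ≤
      ∑ j ∈ univ.image G, (law q G j * CH (cond q G j) X Z -
        law q G j * CH (cond q G j) X (fun w => (Y w, Z w))) := by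
    have := Finset.single_le_sum (f := fun j => law q G j * CH (cond q G j) X Z -
        law q G j * CH (cond q G j) X (fun w => (Y w, Z w)))
      (fun j hj => sub_nonneg.mpr (h3 j hj)) hm
    linarith
  rw [Finset.sum_sub_distrib] at h4
  have h5 : law q G True * (CH (cond q G True) X Z -
      CH (cond q G True) X (fun w => (Y w, Z w))) ≤ e + Real.log 2 := by linarith
  have h6 : CH q X (fun w => (Y w, Z w)) ≤ CH q X Z :=
    CH_mono_cond h0 fun _ _ _ _ hh => (Prod.ext_iff.mp hh).2
  have h7 : CH (cond q G True) X Z - CH (cond q G True) X (fun w => (Y w, Z w)) ≤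
      (e + Real.log 2) / law q G True := by
    rw [le_div_iff₀ hG0]
    linarith
  have h8 : 0 ≤ e + Real.log 2 := by
    refine le_trans (mul_nonneg hG0.le (sub_nonneg.mpr ?_)) h5
    exact CH_mono_cond (cond_nonneg h0 G True) fun _ _ _ _ hh => (Prod.ext_iff.mp hh).2
  have h9 : (e + Real.log 2) / law q G True ≤ (e + Real.log 2) / c :=
    div_le_div_of_nonneg_left h8 hc hG
  linarith

end

end Pool.D2P
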