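import Pool.Agent.H4.D2.Gd
import Pool.Agent.H28.D2.Geo2

/-!
# The rows of the own height over a ball, general precisions

`Gd.vcount2`, `Gd.recS2`: the record of stage 1 over a deep ball, for general digits. `nfg_cls2`:
the rows of the own height for the large events of a class, the deep ball of stage 1 separate from
the data of the hop. `hds2`: the data with two precisions, the target in the frame.
-/

set_option autoImplicit false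

namespace Pool.D2F2

open Finset Real MvPolynomial
open Pool.Agent.H49.Ent Pool.Agent.H32.Dense Pool.STK Pool.KA Pool.KSAT Pool.K2S Pool.PB Pool.GEN
open Pool.S6C Pool.LA91 Pool.CHT Pool.CHX Pool.KM7 Pool.M3F
open Pool.ALL (RateOf)
open Pool.ISO (Clsd)
open Pool.OWN68 (opl tw uw CH_pair floor_sub_le)
open Pool.GEN.N83 (oth)
open Pool.D2R (dd hs co co_slam)
open Pool.D2F (cv CvC grd cv_grd cv_eq)
open Pool.D2Z (en)
open Pool.D2H (uw_eq of_floor_mul)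
open Pool.D2S (Pr Sg NtB yk)
open Pool.F5 (NatH)
open Pool.D2P (nfg_frm_w)

variable {m J : ℕ}

section

variable {F : Fam m J} {c : ℕ → Fin m} {g ga : ℕ → ℕ} {W a k r D : ℕ}
    {ψH : LnT F → ℕ → Option (Fin m) → ℝ} {G : PtT F → ℕ → MvPolynomial (Option (Fin m)) ℝ}
    {A B : F.Ω → Prop} {d : Dat F (ℕ → Option (Fin m) → ℝ) r D}

/-- The own paths are coordinates in a frame. -/
theorem Fdv.frd (hd : Fdv F d c W ψH) (hc : Set.InjOn c (Set.Iio r))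
    (hψ : ∀ s l, CvC c l (ψH s l)) {E₀ : ℕ}
    (hlip : ∀ ω, A ω → ∀ l ≤ r, ∀ j < l, |ψH (slam F W ω) l (some (c j))| ≤ E₀) :
    FrD d A W c E₀ := by
  refine ⟨fun ω ω' hω hω' hT hfc l hl => ?_⟩
  rw [hd.1] at hfc
  have ht : (bt F ω' - bt F ω) none = 0 := by
    have e0 : ∀ ν : F.Ω, bt F ν none = F.t ν := fun _ => rfl
    rw [Pi.sub_apply, e0, e0]
    unfold Fam.t
    rw [hT, sub_self]
  refine ⟨fun j => ψH (slam F W ω) l (some (c j)), fun j hj => hlip ω hω l hl j hj, ?_⟩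
  rw [hd.2 l hl ω ω' hT hfc, cv_eq (hc.mono (Set.Iio_subset_Iio hl)) (hψ _ l), ht, mul_zero,
    zero_add]
  rfl

/-- The own paths are coordinates in a frame, weighted bound. -/
theorem Fdv.frw (hd : Fdv F d c W ψH) (hc : Set.InjOn c (Set.Iio r))
    (hψ : ∀ s l, CvC c l (ψH s l)) {w : ℕ → ℕ} {E₀ : ℕ}
    (hlip : ∀ ω, A ω → ∀ l ≤ r, ∀ j < l,
      2 ^ w l * |ψH (slam F W ω) l (some (c j))| ≤ E₀ * 2 ^ J) :
    FrW d A W c w E₀ := by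
  refine ⟨fun ω ω' hω hω' hT hfc l hl => ?_⟩
  rw [hd.1] at hfc
  have ht : (bt F ω' - bt F ω) none = 0 := by
    have e0 : ∀ ν : F.Ω, bt F ν none = F.t ν := fun _ => rfl
    rw [Pi.sub_apply, e0, e0]
    unfold Fam.t
    rw [hT, sub_self]
  refine ⟨fun j => ψH (slam F W ω) l (some (c j)), fun j hj => hlip ω hω l hl j hj, ?_⟩
  rw [hd.2 l hl ω ω' hT hfc, cv_eq (hc.mono (Set.Iio_subset_Iio hl)) (hψ _ l), ht, mul_zero,
    zero_add]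
  rfl

/-- **The number of the values of the frame digits over a ball**, general digits. -/
theorem Gd.vcount2 (H : Gd F c g ga W a k r ψH G A) (hd : Fdv F d c W ψH)
    {p : F.Ω → ℝ} (hp : IsLaw p) (hpA : ∀ ω, 0 < p ω → A ω) {γ : Type} (G₁ : F.Ω → γ)
    (hG₁ : ∀ ω ω', 0 < p ω → 0 < p ω' → G₁ ω = G₁ ω' → F.W ω = F.W ω' ∧
      ψH (slam F W ω) = ψH (slam F W ω') ∧ ∀ l ≤ r, G (ptr F J ω) l = G (ptr F J ω') l)
    {o u : ℕ → ℕ} {q' : ℕ} (ho : ∀ l < r, o l ≤ ga l) (hou : ∀ l < r, o l ≤ g l + q')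
    (hu : ∀ l < r, g l + q' ≤ u l) :
    CH p (Vfu d W u) G₁ ≤ ∑ l ∈ range r, ((u l - o l : ℕ) : ℝ) * Real.log 2 +
      r * Real.log (2 * (2 * ((2 * r + 2) * 2 ^ k) ^ (r + 4) + 1 : ℕ) + 1) := by
  have h0 := hp.nonneg
  obtain ⟨K, hK⟩ : ∃ K : ℕ, K = 2 * ((2 * r + 2) * 2 ^ k) ^ (r + 4) := ⟨_, rfl⟩
  have hKr : (K : ℝ) = 2 * ((2 * r + 2) * 2 ^ k) ^ (r + 4) := by
    rw [hK]
    push_cast
    ring
  rw [← hK]
  have h1 := CH_tri h0 (fun l ω => ⌊(2 : ℝ) ^ u l * d.v W l ω⌋) G₁ (n := r)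
    (b := fun l => ((u l - o l : ℕ) : ℝ) * Real.log 2 + Real.log (2 * (K + 1 : ℕ) + 1)) ?_
  · refine h1.trans (le_of_eq ?_)
    rw [Finset.sum_add_distrib, Finset.sum_const, Finset.card_range, nsmul_eq_mul]
  · intro l hl
    have h2 : CH p (fun ω => ⌊(2 : ℝ) ^ u l * d.v W l ω⌋)
        (fun ω => ((fun j : Fin l => ⌊(2 : ℝ) ^ u j * d.v W j ω⌋), G₁ ω)) ≤
        Real.log (2 * (K * 2 ^ (u l - o l) + 1 : ℕ) + 1) := by
      refine CH_pair hp _ _ fun ω ω' hω hω' e => ?_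
      obtain ⟨e1, e2⟩ := Prod.ext_iff.1 e
      dsimp only at e1 e2
      obtain ⟨f1, f2, f3⟩ := hG₁ ω ω' hω hω' e2
      have f4 := H.vfew hd (le_of_eq rfl) (hpA ω hω) (hpA ω' hω') (Prod.ext_iff.1 f1).1 f2 f3
        hl.le (q' := q') (fun j hj => by
          rw [abs_sub_comm]
          refine (of_floor_mul (by positivity : (0 : ℝ) < 2 ^ u j) (congrFun e1 ⟨j, hj⟩)).trans ?_
          exact one_div_le_one_div_of_le (by positivity)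
            (pow_le_pow_right₀ (by norm_num) (hu j (by omega))))
        (ho l hl) (hou l hl)
      rw [← hKr, abs_sub_comm] at f4
      have f5 : |(2 : ℝ) ^ u l * d.v W l ω - 2 ^ u l * d.v W l ω'| ≤
          ((K * 2 ^ (u l - o l) : ℕ) : ℝ) := by
        rw [← mul_sub, abs_mul, abs_of_pos (by positivity : (0 : ℝ) < 2 ^ u l)]
        refine (mul_le_mul_of_nonneg_left f4 (by positivity)).trans (le_of_eq ?_)
        have f6 : (2 : ℝ) ^ u l = 2 ^ (u l - o l) * 2 ^ o l := by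
          rw [← pow_add]
          congr 1
          have := hou l hl
          have := hu l hl
          omega
        rw [f6]
        push_cast
        field_simp
      have f7 := floor_sub_le f5
      exact_mod_cast f7
    refine h2.trans ?_
    have h3 : (2 : ℝ) * ((K * 2 ^ (u l - o l) + 1 : ℕ) : ℝ) + 1 ≤
        2 ^ (u l - o l) * (2 * ((K + 1 : ℕ) : ℝ) + 1) := by
      push_cast
      have := one_le_pow₀ (by norm_num : (1 : ℝ) ≤ 2) (n := u l - o l)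
      nlinarith
    have h4 := Real.log_le_log (by positivity) h3
    rw [Real.log_mul (by positivity) (by positivity), Real.log_pow] at h4
    exact h4

/-- **The record of stage 1 over a deep ball**, general digits. -/
theorem Gd.recS2 (H : Gd F c g ga W a k r ψH G A) (hd : Fdv F d c W ψH) (hBA : Sub B A)
    (hB : 0 < Pe F.p B) {o u : ℕ → ℕ} {q' n₂ : ℕ} (ho : ∀ l < r, o l ≤ ga l)
    (hou : ∀ l < r, o l ≤ g l + q') (hu : ∀ l < r, g l + q' ≤ u l) (hn1 : n₂ ≤ ga r)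
    (hn2 : n₂ ≤ g r + q') {η : ℝ}
    (hη : r * Real.log (2 * (2 * ((2 * r + 2) * 2 ^ k) ^ (r + 4) + 1 : ℕ) + 1) ≤ η)
    {β γ₁ : Type} (Yv : F.Ω → β) (G₁ : F.Ω → γ₁)
    (y1 : ∀ ω ω', B ω → B ω' → (∀ l < r, F.X J ω (c l) = F.X J ω' (c l)) → Yv ω = Yv ω')
    (y2 : ∀ ω ω', B ω → B ω' → G₁ ω = G₁ ω' → F.W ω = F.W ω' ∧
      ψH (slam F W ω) = ψH (slam F W ω') ∧ ∀ l ≤ r, G (ptr F J ω) l = G (ptr F J ω') l)
    (y3 : ∑ l ∈ range r, ((J - o l : ℕ) : ℝ) * Real.log 2 - η ≤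
      CH (Pool.Agent.H49.Ent.cond F.p B True) Yv G₁) :
    RecS F d W c u o n₂ (2 * ((2 * r + 2) * 2 ^ k) ^ (r + 4)) η B := by
  have hp := isLaw_cond F.isLaw hB
  have hBp : ∀ ω, 0 < Pool.Agent.H49.Ent.cond F.p B True ω → B ω := fun ω hω => of_cond_pos hω
  have hKr : ((2 * ((2 * r + 2) * 2 ^ k) ^ (r + 4) : ℕ) : ℝ) =
      2 * ((2 * r + 2) * 2 ^ k) ^ (r + 4) := by
    push_cast
    ring
  refine ⟨β, γ₁, Yv, G₁, y1, fun ω ω' a b e1 => (y2 ω ω' a b e1).1, fun ω ω' a b e1 => ?_,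
    ?_, ?_, y3⟩
  · rw [hd.1]
    exact (y2 ω ω' a b e1).2.1
  · intro ω ω' hω hω' e1 e2
    obtain ⟨f1, f2, f3⟩ := y2 ω ω' hω hω' e1
    have f4 := H.vfew hd (le_of_eq rfl) (hBA ω hω) (hBA ω' hω') (Prod.ext_iff.1 f1).1 f2 f3
      le_rfl (q' := q') (fun j hj => by
        rw [abs_sub_comm]
        refine (of_floor_mul (by positivity : (0 : ℝ) < 2 ^ u j) (e2 j hj)).trans ?_
        exact one_div_le_one_div_of_le (by positivity)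
          (pow_le_pow_right₀ (by norm_num) (hu j hj)))
      hn1 hn2
    rw [abs_sub_comm] at f4
    rw [← mul_sub, abs_mul, abs_of_pos (by positivity : (0 : ℝ) < 2 ^ n₂), hKr]
    refine (mul_le_mul_of_nonneg_left f4 (by positivity)).trans (le_of_eq ?_)
    field_simp
  · have h1 := H.vcount2 hd hp (fun ω hω => hBA ω (hBp ω hω)) G₁ (fun ω ω' a b e1 =>
      y2 ω ω' (hBp ω a) (hBp ω' b) e1) ho hou hu
    exact h1.trans (add_le_add le_rfl hη)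

end

/-- **The record of stage 1**, for the large events of a class, general digits. -/
theorem recS_cls2 {S : PCl m} {c : ℕ → Fin m} {r : ℕ}
    (hpos : Bas S (fun _ F A => 0 < Pe F.p A))
    {a : ℝ} {I : Finset (Fin m)} (hI : ∀ i ∈ I, ∃ l < r, c l = i) {cV : ℝ}
    (hex : ExvY S a (fun J F ω (i : {x // x ∈ I}) => F.X J ω i) cV)
    {c₀ c₁ : ℝ} (hc₀ : 0 < c₀) (hc₁ : 0 < c₁) :
    Bas S (fun J F A => ∀ A₁ : F.Ω → Prop, Sub A₁ A → c₁ * Pe F.p A ≤ Pe F.p A₁ →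
      ∀ (g ga : ℕ → ℕ) (W k D q' n₂ : ℕ) (ψH : LnT F → ℕ → Option (Fin m) → ℝ)
        (d : Dat F (ℕ → Option (Fin m) → ℝ) r D)
        (G : PtT F → ℕ → MvPolynomial (Option (Fin m)) ℝ)
        (HG : LnT F → ℕ → MvPolynomial (Option (Fin m)) ℝ)
        (zψ : PtT F → ℕ → Option (Fin m) → ℝ) (o u : ℕ → ℕ) (η : ℝ),
      Gd F c g ga W ⌊a * J⌋₊ k r ψH G A₁ → Fdv F d c W ψH →
      W ≤ ⌊a * J⌋₊ → ⌊a * J⌋₊ ≤ J →
      (∀ ω, A₁ ω → zψ (ptr F J ω) = ψH (slam F W ω)) →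
      Clsd F (r + 1) ⌊a * J⌋₊ A₁ G HG →
      (∀ l < r, o l ≤ ga l) → (∀ l < r, o l ≤ g l + q') → (∀ l < r, g l + q' ≤ u l) →
      n₂ ≤ ga r → n₂ ≤ g r + q' →
      ∑ l ∈ range r, ((J - o l : ℕ) : ℝ) * Real.log 2 - η ≤ cV * Real.log 2 * J →
      r * Real.log (2 * (2 * ((2 * r + 2) * 2 ^ k) ^ (r + 4) + 1 : ℕ) + 1) ≤ η →
      ∀ B : F.Ω → Prop, Sub B A₁ → c₀ * Pe F.p A₁ ≤ Pe F.p B →
      RecS F d W c u o n₂ (2 * ((2 * r + 2) * 2 ^ k) ^ (r + 4)) η B) := by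
  have hcc : 0 < c₀ * c₁ := mul_pos hc₀ hc₁
  refine ((Pool.LBK.Bas.ev hex hcc).and hpos).mono 0 ?_
  rintro J - F A ⟨h2, hA⟩ A₁ hA₁ hPA g ga W k D q' n₂ ψH d G HG zψ o u η
    H hd hWa haJ hψc hGc ho hou hu hn1 hn2 hsum hη B hBA hBc
  have hA₁0 : 0 < Pe F.p A₁ := lt_of_lt_of_le (mul_pos hc₁ hA) hPA
  have hB : 0 < Pe F.p B := lt_of_lt_of_le (mul_pos hc₀ hA₁0) hBc
  have hBA' : Sub B A := fun ω hω => hA₁ ω (hBA ω hω)
  have hBc' : c₀ * c₁ * Pe F.p A ≤ Pe F.p B := by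
    refine le_trans ?_ hBc
    rw [mul_assoc]
    exact mul_le_mul_of_nonneg_left hPA hc₀.le
  obtain ⟨z, hz⟩ : ∃ z : PtT F → (ℕ → Option (Fin m) → ℝ) ×
      (ℕ → MvPolynomial (Option (Fin m)) ℝ),
      z = fun y => (zψ y, fun l => if l ≤ r then G y l else 0) := ⟨_, rfl⟩
  obtain ⟨z', hz'⟩ : ∃ z' : LnT F → (ℕ → Option (Fin m) → ℝ) ×
      (ℕ → MvPolynomial (Option (Fin m)) ℝ),
      z' = fun s => (ψH (co (⌊a * J⌋₊ - W) s), fun l => if l ≤ r then HG s l else 0) :=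
    ⟨_, rfl⟩
  have e1 : ∀ ω, A₁ ω → z (ptr F J ω) = z' (slam F ⌊a * J⌋₊ ω) := by
    intro ω hω
    rw [hz, hz']
    refine Prod.ext ?_ (_root_.funext fun l => ?_)
    · dsimp only
      rw [co_slam F hWa haJ]
      exact hψc ω hω
    · dsimp only
      split_ifs with hl
      · exact hGc ω hω l (by omega)
      · rfl
  have h3 := h2 B hBA' hBc' _ z z' fun ω hω => e1 ω (hBA ω hω)
  refine H.recS2 hd hBA hB ho hou hu hn1 hn2 hη (fun ω (i : {x // x ∈ I}) => F.X J ω i)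
    (fun ω => (z' (slam F ⌊a * J⌋₊ ω), F.W ω)) (fun ω ω' _ _ e2 => ?_)
    (fun ω ω' hω hω' e2 => ?_) (hsum.trans h3)
  · refine _root_.funext fun i => ?_
    obtain ⟨l, hl, hl'⟩ := hI i i.2
    rw [← hl']
    exact e2 l hl
  · obtain ⟨e3, e4⟩ := Prod.ext_iff.1 e2
    dsimp only at e3 e4
    rw [hz'] at e3
    obtain ⟨e5, e6⟩ := Prod.ext_iff.1 e3
    dsimp only at e5 e6
    rw [co_slam F hWa haJ, co_slam F hWa haJ] at e5
    refine ⟨e4, e5, fun l hl => ?_⟩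
    have e7 := congrFun e6 l
    rw [if_pos hl, if_pos hl] at e7
    rw [hGc ω (hBA ω hω) l (by omega), hGc ω' (hBA ω' hω') l (by omega)]
    exact e7

/-- **The rows of the own height for the large events of a class**: the deep ball of stage 1 is
separate from the data of the hop. -/
theorem nfg_cls2_w {S : PCl m} {c : ℕ → Fin m} {r : ℕ} {rt : ℝ → ℝ} (hr : RateOf S (c r) rt)
    (hpos : Bas S (fun _ F A => 0 < Pe F.p A)) {α β h δ e : ℝ} (hδe : δ < e) (hδ : 0 ≤ δ)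
    (hrt : ∀ y₁ y₃ : ℝ, α ≤ y₁ → y₁ ≤ y₃ → y₃ ≤ β → rt y₃ - rt y₁ ≤ (1 - h) * (y₃ - y₁) + δ)
    (hcr : ∀ l < r, c l ≠ c r) (hc : ∀ j, j ≠ c r → ∃ l < r, c l = j)
    {a : ℝ} {I : Finset (Fin m)} (hI : ∀ i ∈ I, ∃ l < r, c l = i) {cV : ℝ}
    (hex : ExvY S a (fun J F ω (i : {x // x ∈ I}) => F.X J ω i) cV)
    {c₀ c₁ : ℝ} (hc₀ : 0 < c₀) (hc₁ : 0 < c₁) (hh : 0 ≤ h) (hh1 : h ≤ 1) :
    Bas S (fun J F A => ∀ A₁ : F.Ω → Prop, Sub A₁ A → c₁ * Pe F.p A ≤ Pe F.p A₁ →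
      ∀ (g ga : ℕ → ℕ) (W k D q' n₂ E₀ N₀ K K₁ : ℕ) (ψH : LnT F → ℕ → Option (Fin m) → ℝ)
        (d : Dat F (ℕ → Option (Fin m) → ℝ) r D)
        (G : PtT F → ℕ → MvPolynomial (Option (Fin m)) ℝ)
        (HG : LnT F → ℕ → MvPolynomial (Option (Fin m)) ℝ)
        (zψ : PtT F → ℕ → Option (Fin m) → ℝ) (o u v w : ℕ → ℕ) (x e' : ℝ),
      Gd F c g ga W ⌊a * J⌋₊ k r ψH G A₁ → Fdv F d c W ψH → FrW d A₁ W c w E₀ →
      W ≤ ⌊a * J⌋₊ → ⌊a * J⌋₊ ≤ J →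
      (∀ ω, A₁ ω → zψ (ptr F J ω) = ψH (slam F W ω)) → Clsd F (r + 1) ⌊a * J⌋₊ A₁ G HG →
      (∀ ω, A₁ ω → ∀ l < r, ∀ j ≤ D,
        (2 : ℝ) ^ n₂ * |(d.gp l (slam F W ω)).coeff j| ≤ K₁ * 2 ^ u l) →
      (∀ l < r, o l ≤ ga l) → (∀ l < r, o l ≤ g l + q') → (∀ l < r, g l + q' ≤ u l) →
      (∀ l < r, u l ≤ J) → (∀ l < r, u l ≤ w l) → (∀ l < r, v l ≤ u l) → (∀ l < r, d.SV l = 2 ^ v l) →
      n₂ ≤ J → n₂ ≤ w r → n₂ ≤ ga r → n₂ ≤ g r + q' → 0 ≤ x → x * J ≤ n₂ → 0 < N₀ →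
      α * J ≤ n₂ - (x * J + 1) → n₂ ≤ β * J →
      ∑ l ∈ range r, ((J - o l : ℕ) : ℝ) * Real.log 2 - e * J ≤ cV * Real.log 2 * J →
      r * Real.log (2 * (2 * ((2 * r + 2) * 2 ^ k) ^ (r + 4) + 1 : ℕ) + 1) ≤ e * J →
      4 * (e * J) + 2 * Real.log 2 +
        ((2 * r + 2) * Real.log (2 * (2 + r * E₀ : ℕ) + 1) +
          Real.log (2 * (2 * ((2 * r + 2) * 2 ^ k) ^ (r + 4) + 1 : ℕ) + 1)) +
        (r * Real.log (2 * (3 : ℕ) + 1) +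
        2 * Real.log (2 * (r * ((D + 1) * K₁) + 2 : ℕ) + 1) +
        ((r * (D + 3)) * Real.log (2 * ((2 * K : ℕ) + 1) + 1) +
          2 * Real.log (2 * (K * (1 + r * (D + 1) ^ 2) + 1 : ℕ) + 1))) ≤ e' * J →
      (∀ B : F.Ω → Prop, Sub B A₁ → c₀ * Pe F.p A₁ ≤ Pe F.p B →
        ∃ (γ' : Type) (G' : F.Ω → γ'), HopP d B W (2 ^ n₂) K G' ∧
          ∑ l ∈ range r, ((u l - v l : ℕ) : ℝ) * Real.log 2 - e * J ≤
            CH (Pool.Agent.H49.Ent.cond F.p B True) (Vfd d W u v) G') →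
      Pool.AJ18.NFg F A₁ (fun s => Polynomial.C ((2 : ℝ) ^ n₂) * d.hL W A₁ s)
        (fun s => d.cx s) W x h e' c₀ N₀) := by
  have hcc : 0 < c₀ * c₁ := mul_pos hc₀ hc₁
  refine (((Pool.LBK.Bas.ev (row_cls hr hpos hδe hrt hδ) hcc).and
    (recS_cls2 hpos hI hex hc₀ hc₁)).and hpos).mono 0 ?_
  rintro J - F A ⟨⟨h1, h2⟩, hA⟩ A₁ hA₁ hPA g ga W k D q' n₂ E₀ N₀ K K₁ ψH d G HG zψ o u v w x e'
    H hd hfr hWa haJ hψc hGc hlip ho hou hqu hu hw huv hSV hr1 hr1' hr2 hr3 hx hxn hN₀ hα hβ hsum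
    he0 he hP5
  have hA₁0 : 0 < Pe F.p A₁ := lt_of_lt_of_le (mul_pos hc₁ hA) hPA
  refine nfg_frm_w (c := c) (E₀ := E₀) (u := u) (v := v) (o := o) (K₁ := K₁)
    (K₂ := 2 * ((2 * r + 2) * 2 ^ k) ^ (r + 4)) (K := K) (e := e) hA₁0 hfr hcr hc hu hw
    (fun l hl => (hou l hl).trans (hqu l hl)) huv hSV hr1' hlip hx hxn hh1 hh hc₀ hN₀ he
    fun B hBA hBc => ?_
  have hBA' : Sub B A := fun ω hω => hA₁ ω (hBA ω hω)
  have hBc' : c₀ * c₁ * Pe F.p A ≤ Pe F.p B := by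
    refine le_trans ?_ hBc
    rw [mul_assoc]
    exact mul_le_mul_of_nonneg_left hPA hc₀.le
  refine ⟨fun n₁ n₃ a1 a2 a3 => ?_, ?_, hP5 B hBA hBc⟩
  · refine h1 B hBA' hBc' n₁ n₃ a1 (a2.trans hr1) (by linarith) (le_trans ?_ hβ)
    exact_mod_cast a2
  · exact h2 A₁ hA₁ hPA g ga W k D q' n₂ ψH d G HG zψ o u (e * J) H hd hWa haJ hψc hGc ho hou
      hqu hr2 hr3 hsum he0 B hBA hBc

/-- **The rows of the own height for the large events of a class**: the deep ball of stage 1 is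
separate from the data of the hop. -/
theorem nfg_cls2 {S : PCl m} {c : ℕ → Fin m} {r : ℕ} {rt : ℝ → ℝ} (hr : RateOf S (c r) rt)
    (hpos : Bas S (fun _ F A => 0 < Pe F.p A)) {α β h δ e : ℝ} (hδe : δ < e) (hδ : 0 ≤ δ)
    (hrt : ∀ y₁ y₃ : ℝ, α ≤ y₁ → y₁ ≤ y₃ → y₃ ≤ β → rt y₃ - rt y₁ ≤ (1 - h) * (y₃ - y₁) + δ)
    (hcr : ∀ l < r, c l ≠ c r) (hc : ∀ j, j ≠ c r → ∃ l < r, c l = j)
    {a : ℝ} {I : Finset (Fin m)} (hI : ∀ i ∈ I, ∃ l < r, c l = i) {cV : ℝ}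
    (hex : ExvY S a (fun J F ω (i : {x // x ∈ I}) => F.X J ω i) cV)
    {c₀ c₁ : ℝ} (hc₀ : 0 < c₀) (hc₁ : 0 < c₁) (hh : 0 ≤ h) (hh1 : h ≤ 1) :
    Bas S (fun J F A => ∀ A₁ : F.Ω → Prop, Sub A₁ A → c₁ * Pe F.p A ≤ Pe F.p A₁ →
      ∀ (g ga : ℕ → ℕ) (W k D q' n₂ E₀ N₀ K K₁ : ℕ) (ψH : LnT F → ℕ → Option (Fin m) → ℝ)
        (d : Dat F (ℕ → Option (Fin m) → ℝ) r D)
        (G : PtT F → ℕ → MvPolynomial (Option (Fin m)) ℝ)
        (HG : LnT F → ℕ → MvPolynomial (Option (Fin m)) ℝ)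
        (zψ : PtT F → ℕ → Option (Fin m) → ℝ) (o u v : ℕ → ℕ) (x e' : ℝ),
      Gd F c g ga W ⌊a * J⌋₊ k r ψH G A₁ → Fdv F d c W ψH → FrD d A₁ W c E₀ →
      W ≤ ⌊a * J⌋₊ → ⌊a * J⌋₊ ≤ J →
      (∀ ω, A₁ ω → zψ (ptr F J ω) = ψH (slam F W ω)) → Clsd F (r + 1) ⌊a * J⌋₊ A₁ G HG →
      (∀ ω, A₁ ω → ∀ l < r, ∀ j ≤ D,
        (2 : ℝ) ^ n₂ * |(d.gp l (slam F W ω)).coeff j| ≤ K₁ * 2 ^ u l) →
      (∀ l < r, o l ≤ ga l) → (∀ l < r, o l ≤ g l + q') → (∀ l < r, g l + q' ≤ u l) →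
      (∀ l < r, u l ≤ J) → (∀ l < r, v l ≤ u l) → (∀ l < r, d.SV l = 2 ^ v l) →
      n₂ ≤ J → n₂ ≤ ga r → n₂ ≤ g r + q' → 0 ≤ x → x * J ≤ n₂ → 0 < N₀ →
      α * J ≤ n₂ - (x * J + 1) → n₂ ≤ β * J →
      ∑ l ∈ range r, ((J - o l : ℕ) : ℝ) * Real.log 2 - e * J ≤ cV * Real.log 2 * J →
      r * Real.log (2 * (2 * ((2 * r + 2) * 2 ^ k) ^ (r + 4) + 1 : ℕ) + 1) ≤ e * J →
      4 * (e * J) + 2 * Real.log 2 +
        ((2 * r + 2) * Real.log (2 * (2 + r * E₀ : ℕ) + 1) +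
          Real.log (2 * (2 * ((2 * r + 2) * 2 ^ k) ^ (r + 4) + 1 : ℕ) + 1)) +
        (r * Real.log (2 * (3 : ℕ) + 1) +
        2 * Real.log (2 * (r * ((D + 1) * K₁) + 2 : ℕ) + 1) +
        ((r * (D + 3)) * Real.log (2 * ((2 * K : ℕ) + 1) + 1) +
          2 * Real.log (2 * (K * (1 + r * (D + 1) ^ 2) + 1 : ℕ) + 1))) ≤ e' * J →
      (∀ B : F.Ω → Prop, Sub B A₁ → c₀ * Pe F.p A₁ ≤ Pe F.p B →
        ∃ (γ' : Type) (G' : F.Ω → γ'), HopP d B W (2 ^ n₂) K G' ∧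
          ∑ l ∈ range r, ((u l - v l : ℕ) : ℝ) * Real.log 2 - e * J ≤
            CH (Pool.Agent.H49.Ent.cond F.p B True) (Vfd d W u v) G') →
      Pool.AJ18.NFg F A₁ (fun s => Polynomial.C ((2 : ℝ) ^ n₂) * d.hL W A₁ s)
        (fun s => d.cx s) W x h e' c₀ N₀) := by
  refine (nfg_cls2_w hr hpos hδe hδ hrt hcr hc hI hex hc₀ hc₁ hh hh1).mono 0 ?_
  rintro J - F A h1 A₁ hA₁ hPA g ga W k D q' n₂ E₀ N₀ K K₁ ψH d G HG zψ o u v x e'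
    H hd hfr hWa haJ hψc hGc hlip ho hou hqu hu huv hSV hr1 hr2 hr3 hx hxn hN₀ hα hβ hsum he0 he
    hP5
  exact h1 A₁ hA₁ hPA g ga W k D q' n₂ E₀ N₀ K K₁ ψH d G HG zψ o u v (fun _ => J) x e'
    H hd (hfr.toW fun _ _ => le_rfl) hWa haJ hψc hGc hlip ho hou hqu hu hu huv hSV hr1 hr1 hr2 hr3
    hx hxn hN₀ hα hβ hsum he0 he hP5

/-- **The data of the context with two precisions, the target in the frame.** -/
noncomputable def hds2 (F : Fam m J) (c : ℕ → Fin m) (g : ℕ → ℕ) (W n r D q₀ q sg : ℕ)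
    (ψH : LnT F → ℕ → Option (Fin m) → ℝ) (Ht : LnT F → MvPolynomial (Option (Fin m)) ℝ)
    (hD : ∀ s, (Ht s).totalDegree ≤ D) : Dat F (ℕ → Option (Fin m) → ℝ) r D :=
  (hdt2 F c g W n r D q₀ q sg ψH Ht hD).shr fun ψ l => cv (ψ r) (fv c g W r ψ l)

section

variable {F : Fam m J} {c : ℕ → Fin m} {g ga : ℕ → ℕ} {W n a k r D q₀ q sg M : ℕ}
    {ψH : LnT F → ℕ → Option (Fin m) → ℝ} {Ht : LnT F → MvPolynomial (Option (Fin m)) ℝ}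
    {G : PtT F → ℕ → MvPolynomial (Option (Fin m)) ℝ} {A B : F.Ω → Prop}
    {hD : ∀ s, (Ht s).totalDegree ≤ D}

theorem hds2_fdv (hW : W ≤ J) (hc : Set.InjOn c (Set.Iio r))
    (hψ : ∀ s l, CvC c l (ψH s l)) : Fdv F (hds2 F c g W n r D q₀ q sg ψH Ht hD) c W ψH :=
  ⟨rfl, fun _ hl _ _ hT e => hds_dv (q := q) (sg := sg) (n := n) (hD := hD) hW hc hψ hl hT e⟩

theorem hds2_SV (l : ℕ) :
    (hds2 F c g W n r D q₀ q sg ψH Ht hD).SV l = 2 ^ (g l + qv q₀ q l) := rfl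

/-- **The gradients are natural.** -/
theorem hds2_lip (H : Gb F c g ga W n a k r D sg M ψH Ht G A)
    (hfr : ∀ ω, A ω → ∀ V : Option (Fin m) → ℝ, V none = 0 →
      |cv (ψH (slam F W ω) r) V - dd (G (ptr F J ω) r) (bt F ω) V| ≤
        2 ^ k / 2 ^ g r * en c g W (ψH (slam F W ω)) r V)
    (siz : ∀ ω, A ω → ∀ l < r, ∀ j, 1 ≤ j →
      |((hdt2 F c g W n r D q₀ q sg ψH Ht hD).gp l (slam F W ω)).coeff j| ≤
        2 ^ k * (2 ^ g l / 2 ^ g r)) {u : ℕ → ℕ} (hu : ∀ l < r, g l + (q + sg) ≤ u l) :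
    ∀ ω, A ω → ∀ l < r, ∀ j ≤ D,
      (2 : ℝ) ^ (g r + (q + sg)) *
        |((hds2 F c g W n r D q₀ q sg ψH Ht hD).gp l (slam F W ω)).coeff j| ≤
      (((D + 2) * 2 ^ k : ℕ) : ℝ) * 2 ^ u l := by
  intro ω hω l hl j _
  have h1 := hds_lip (q := q) (hD := hD) H hfr siz hω hl (j := j)
  rw [add_assoc, add_assoc] at h1
  refine h1.trans (mul_le_mul_of_nonneg_left ?_ (Nat.cast_nonneg _))
  exact pow_le_pow_right₀ (by norm_num) (hu l hl)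

end

end Pool.D2F2
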