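import Mathlib

/-!
# The near frame digits on the grid: the numbers

`hnn_r`: the numbers of `hnv_at`; `hnn_l`, `hnn_w`: the levels, digits and windows.
-/

set_option autoImplicit false

namespace Pool.D2N

/-- The real numbers of the near digits. -/
theorem hnn_r {K₀ q t gg a₁ o Lo1 Lo2 Eb u y m₀ : ℝ} (hK : 0 < K₀) (hq : 0 < q) (hqt : q ≤ t)
    (htq : t + 2 * q < 1) (h1 : -(K₀ * q) ≤ t - gg) (h2 : t - gg ≤ K₀ * q) (ha : 0 ≤ a₁)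
    (ha' : a₁ ≤ q) (ho : o = t + a₁) (l1 : o ≤ Lo1) (l1' : Lo1 + Eb + q ≤ 1) (l2 : o ≤ Lo2)
    (l2' : Lo2 + Eb + q ≤ 1) (hE : 0 ≤ Eb) (hy : 0 < y * q) (hyu : 2000 * (y * q) ≤ u * q)
    (hu : u * q ≤ 1 / 4 * q) (hm : m₀ * q ≤ 1 / 32 * q) :
    (gg - (K₀ + 2) * q ≤ o ∧ o ≤ gg + (K₀ + 2) * q ∧ 0 ≤ o ∧ o ≤ 1) ∧
    (0 < Lo2 - m₀ * q ∧ Lo1 ≤ Lo1 + u * q - 400 * (y * q) ∧ Lo2 ≤ Lo2 + u * q - 400 * (y * q) ∧
      Lo1 + u * q - 400 * (y * q) ≤ Lo1 + 1 * ((K₀ + 2) * q)) ∧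
    (Lo1 - o + q + o ≤ Lo1 + 1 * ((K₀ + 2) * q) ∧ Lo2 - o + q + o ≤ Lo2 + 1 * ((K₀ + 2) * q)) ∧
    (Lo1 + u * q - 400 * (y * q) ≤ 1 ∧ Lo2 + u * q - 400 * (y * q) ≤ 1 ∧ Lo1 - o + q ≤ 1 ∧
      Lo2 - o + q ≤ 1) := by
  have e : (K₀ + 2) * q = K₀ * q + 2 * q := by ring
  have hKq : 0 < K₀ * q := by positivity
  rw [e]
  subst ho
  refine ⟨⟨?_, ?_, ?_, ?_⟩, ⟨?_, ?_, ?_, ?_⟩, ⟨?_, ?_⟩, ?_, ?_, ?_, ?_⟩ <;> linarith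

/-- The windows: the difference of the two windows. -/
theorem hnn_d {κ a₀ a₁ oM r w O t q J : ℝ} (hκ : 0 < κ)
    (w1 : -r ≤ w - ((t + q / 4) * J + 0 * oM)) (w2 : w - ((t + q / 4) * J + 0 * oM) ≤ r)
    (o1 : -r ≤ O - ((t + q / 4) * J + oM)) (o2 : O - ((t + q / 4) * J + oM) ≤ r)
    (w3 : -1 ≤ w - (t + a₀) * J) (w4 : w - (t + a₀) * J ≤ 1)
    (o3 : -1 ≤ O - (t + a₁) * J) (o4 : O - (t + a₁) * J ≤ 1) :
    (oM - 2 * r - 2 ≤ a₁ * J - a₀ * J ∧ a₁ * J - a₀ * J ≤ oM + 2 * r + 2) ∧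
    (κ * oM - 2 * (κ * r) - 2 * κ ≤ κ * a₁ * J - κ * a₀ * J ∧
      κ * a₁ * J - κ * a₀ * J ≤ κ * oM + 2 * (κ * r) + 2 * κ) ∧ oM - 2 * r ≤ O - w := by
  have h1 : oM - 2 * r - 2 ≤ a₁ * J - a₀ * J := by linarith
  have h2 : a₁ * J - a₀ * J ≤ oM + 2 * r + 2 := by linarith
  have h3 := mul_le_mul_of_nonneg_left h1 hκ.le
  have h4 := mul_le_mul_of_nonneg_left h2 hκ.le
  refine ⟨⟨h1, h2⟩, ⟨by linarith, by linarith⟩, by linarith⟩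

/-- The numbers of one height `l = 1, 2` : `gw` at the base, `go` at the window. -/
theorem hnn_l {κ q t y ε u a₀ a₁ M oM x r J L Lo w gw go nq sg k K₀ : ℝ} (hJ : 0 ≤ J)
    (hK₀ : 0 < K₀) (hq : 0 < q)
    (hx : x ≤ y * q * J) (hx1 : 64 ≤ x) (hκr : κ * r ≤ x) (hκx : κ ≤ κ * r) (hrx : r ≤ κ * r)
    (hM : M = u * q * J) (hεJ : ε * q * J ≤ y * q * J) (hyq : y * q * J ≤ q * J / 6400)
    (hOM : oM ≤ q * J / 2)
    (d2 : a₁ * J - a₀ * J ≤ oM + 2 * r + 2)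
    (d3 : κ * oM - 2 * (κ * r) - 2 * κ ≤ κ * a₁ * J - κ * a₀ * J)
    (d4 : κ * a₁ * J - κ * a₀ * J ≤ κ * oM + 2 * (κ * r) + 2 * κ) (w3 : -1 ≤ w - (t + a₀) * J)
    (b1 : (L + κ * a₀) * J - x / 16 ≤ gw) (b2 : gw ≤ (L + κ * a₀) * J + x / 16)
    (b3 : (L + κ * a₁) * J - x / 16 ≤ go)
    (l1 : (L + κ * a₁ - ε * q) * J ≤ Lo * J) (l2 : Lo * J ≤ (L + κ * a₁ + ε * q) * J)
    (n1 : κ * oM + M - 307 * x ≤ nq + sg) (n2 : nq ≤ κ * oM - 305 * x) (k0 : 0 ≤ k) :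
    gw + nq ≤ go ∧ (Lo - 1 * ((K₀ + 2) * q)) * J ≤ go ∧ gw + nq ≤ w + 1 + k + (Lo - (t + a₁) + q) * J
    ∧ (Lo + u * q - 400 * (y * q)) * J ≤ gw + (nq + sg) := by
  have hq0 : 0 ≤ q * J := by positivity
  have hKq : 0 ≤ K₀ * q * J := by positivity
  refine ⟨?_, ?_, ?_, ?_⟩
  · linarith only [b2, b3, n2, d3, hκr, hκx, hx1]
  · have e : (Lo - 1 * ((K₀ + 2) * q)) * J = Lo * J - K₀ * q * J - 2 * (q * J) := by ring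
    rw [e]
    linarith only [b3, l2, hεJ, hyq, hKq, hq0, hx]
  · have e : (Lo - (t + a₁) + q) * J = Lo * J - (t + a₁) * J + q * J := by ring
    rw [e]
    linarith only [b2, l1, n2, d3, d2, w3, hκr, hκx, hrx, hx1, hx, hεJ, hyq, hOM, k0]
  · have e : (Lo + u * q - 400 * (y * q)) * J = Lo * J + M - 400 * (y * q * J) := by
      rw [hM]; ring
    rw [e]
    linarith only [b1, l2, n1, d4, hκr, hκx, hx1, hx, hεJ]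

/-- The lower bounds of the ball at the second place. -/
theorem hnn_p {κ q y ε a₀ a₁ x J L1 L2 Lo2 gw1 gw2 go1 go2 k m₀ : ℝ}
    (hx : x ≤ y * q * J) (hx1 : 64 ≤ x) (hεJ : ε * q * J ≤ y * q * J)
    (hym : 200 * (y * q) * J ≤ m₀ * q * J) (hk : k ≤ 14 * x)
    (b3 : (L2 + κ * a₁) * J - x / 16 ≤ go2) (b4 : (L2 + κ * a₀) * J - x / 16 ≤ gw2)
    (b5 : (L1 + κ * a₁) * J - x / 16 ≤ go1) (b6 : gw1 ≤ (L1 + κ * a₀) * J + x / 16)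
    (l2 : Lo2 * J ≤ (L2 + κ * a₁ + ε * q) * J) :
    (Lo2 - m₀ * q) * J + 4 * k ≤ go2 ∧ (Lo2 - m₀ * q) * J + 4 * k + gw1 ≤ go1 + gw2 := by
  have e : (Lo2 - m₀ * q) * J = Lo2 * J - m₀ * q * J := by ring
  rw [e]
  constructor
  · linarith only [b3, l2, hx, hx1, hεJ, hym, hk]
  · linarith only [b4, b5, b6, l2, hx, hx1, hεJ, hym, hk]

/-- The place 0 and the windows. -/
theorem hnn_w {κ q t y Eb a₀ a₁ M oM x J L0 w O gw0 go0 nq nq0 sg pw : ℝ} (hJ : 0 ≤ J) (hκ : 1 < κ)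
    (hq : 0 < q) (hq1 : q < 1) (hE : 0 ≤ Eb) (hx : x ≤ y * q * J) (hx1 : 64 ≤ x)
    (hyq : y * q * J ≤ q * J / 6400) (hM : M ≤ q * J / 4) (hκM : κ * oM ≤ κ * (q * J / 2))
    (ha₀ : 0 ≤ a₀) (ha₀' : a₀ ≤ q) (ha₁ : 0 ≤ a₁) (ha₁' : a₁ ≤ q)
    (hL : L0 + Eb + 3 * (2 * κ + 8) * q ≤ 1) (hL0 : L0 ≤ t + q)
    (w3 : -1 ≤ w - (t + a₀) * J) (o4 : O - (t + a₁) * J ≤ 1)
    (b1 : gw0 ≤ (L0 + a₀) * J + x / 16) (b2 : go0 ≤ (L0 + a₁) * J + x / 16)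
    (n1 : nq + sg ≤ κ * oM + M) (n2 : nq ≤ κ * oM - 305 * x) (hs : sg ≤ M)
    (hn0 : nq0 ≤ κ * (q * J / 2)) (hp : (κ + 8) * q * J - 1 ≤ pw) :
    (gw0 + (nq + sg) ≤ J ∧ go0 + sg ≤ J) ∧ (gw0 + nq0 ≤ w + 1 + pw ∧ gw0 + nq ≤ w + 1 + pw ∧
      go0 ≤ w + 1 + pw) ∧ go0 + O ≤ w + 1 + J ∧ 13 * (x + 1) ≤ J := by
  have e1 : (κ + 8) * q * J = κ * (q * J) + 8 * (q * J) := by ring
  have hL' : L0 * J + Eb * J + 3 * (2 * (κ * (q * J)) + 8 * (q * J)) ≤ J := by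
    have := mul_le_mul_of_nonneg_right hL hJ
    linarith
  have hEJ : 0 ≤ Eb * J := by positivity
  have hqJ : 0 ≤ q * J := by positivity
  have hq1J : q * J ≤ J := by
    have := mul_le_mul_of_nonneg_right hq1.le hJ
    linarith
  have hκq : q * J ≤ κ * (q * J) := le_mul_of_one_le_left hqJ hκ.le
  have hL0J : L0 * J ≤ t * J + q * J := by
    have := mul_le_mul_of_nonneg_right hL0 hJ
    linarith
  have h1 : 0 ≤ a₀ * J := by positivity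
  have h2 : 0 ≤ a₁ * J := by positivity
  have h3 : a₀ * J ≤ q * J := mul_le_mul_of_nonneg_right ha₀' hJ
  have h4 : a₁ * J ≤ q * J := mul_le_mul_of_nonneg_right ha₁' hJ
  have b1' : gw0 ≤ L0 * J + a₀ * J + x / 16 := by linarith
  have b2' : go0 ≤ L0 * J + a₁ * J + x / 16 := by linarith
  have w3' : t * J + a₀ * J - 1 ≤ w := by linarith
  have o4' : O ≤ t * J + a₁ * J + 1 := by linarith
  rw [e1] at hp
  refine ⟨⟨?_, ?_⟩, ⟨?_, ?_, ?_⟩, ?_, ?_⟩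
  · linarith only [hL', hEJ, hqJ, hκq, h3, b1', n1, hκM, hM, hx, hyq]
  · linarith only [hL', hEJ, hqJ, hκq, h4, b2', hs, hM, hx, hyq]
  · linarith only [hL0J, hqJ, hκq, b1', w3', hn0, hp, hx, hx1, hyq]
  · linarith only [hL0J, hqJ, hκq, b1', w3', n2, hκM, hp, hx, hx1, hyq]
  · linarith only [hL0J, hqJ, hκq, b2', w3', h1, h4, hp, hx, hx1, hyq]
  · linarith only [hL', hEJ, hqJ, hκq, h1, h4, b2', w3', o4', hx, hx1, hyq]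
  · linarith only [hq1J, hqJ, hx, hx1, hyq]

/-- The error of one block. -/
theorem hnn_e {η u₀ u y q J l₂ A₁ A₂ k M S₀ : ℝ} (hl1 : l₂ ≤ 1)
    (hM : M = u * q * J) (h0 : 0 ≤ y * q * J) (h8 : 40000 * (y * q) * J ≤ η * u₀ * q * J)
    (h9 : η * u₀ * q * J ≤ η * u * q * J) (hk : k ≤ 14 * (y * q * J))
    (hS : S₀ ≤ 2 * M * l₂) :
    S₀ - η * u * q * J ≤ (((A₁ + u * q - 400 * (y * q) - A₁) + (A₂ + u * q - 400 * (y * q) - A₂)) *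
      l₂ - η * u₀ * q / 16) * J - 700 * k := by
  have e : (((A₁ + u * q - 400 * (y * q) - A₁) + (A₂ + u * q - 400 * (y * q) - A₂)) *
      l₂ - η * u₀ * q / 16) * J =
      2 * (u * q * J) * l₂ - 800 * (y * q * J * l₂) - η * u₀ * q * J / 16 := by ring
  have h7 : y * q * J * l₂ ≤ y * q * J * 1 := mul_le_mul_of_nonneg_left hl1 h0
  rw [e, ← hM]
  linarith only [hS, h7, h8, h9, hk, h0]

end Pool.D2N
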