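import Pool.Agent.H4.D2.Nvs

/-!
# The near frame digits of the hop at real windows

`nrp_at`: the near digits of a pair at one window. `hnv_at`: the near frame digits of the hop are
full, at the windows near a point where the pair has near digits (`NvAt`).
-/

set_option autoImplicit false

namespace Pool.D2F2

open Finset Real MvPolynomial
open Pool.Agent.H49.Ent Pool.Agent.H32.Dense Pool.STK Pool.KA Pool.KSAT Pool.K2S Pool.PB Pool.GEN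
open Pool.S6C Pool.LA91 Pool.RCD Pool.CHT Pool.CHX
open Pool.OWN17 (yF kn_yF)
open Pool.ISO (Clsd)

variable {m : ℕ}

/-- The near digits of a pair at one window. -/
theorem nrp_at {S : PCl m} {α γ' : ∀ J : ℕ, Fam m J → Type}
    {f : ∀ (J : ℕ) (F : Fam m J), F.Ω → α J F} {y : ∀ (J : ℕ) (F : Fam m J), F.Ω → γ' J F}
    (hpos : ∀ (τ : ℝ) (J : ℕ) (F : Fam m J) (A : F.Ω → Prop), S.St τ J F A → 0 < Pe F.p A)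
    {V₁ V₂ V₃ V₄ : Type} {QA : Qt m V₁} {QB₁ : Qt m V₂} {QB₂ : Qt m V₃} {QD : Qt m V₄}
    {x θ c1 c2 c₀ : ℝ} (hc₀ : 0 < c₀) (h : Nv3 S f y QA QB₁ QB₂ QD x x θ c1 c2 c₀) :
    NrP S f y (Qt.fn (fun _ _ _ => () : ∀ (J : ℕ) (F : Fam m J), F.Ω → Unit)) QA
      (QB₁.prod QB₂) QD x θ c₀ := by
  obtain ⟨k, hk, e₀, he₀, H⟩ := h
  refine nrp_unit hpos hc₀ ⟨k, hk, e₀, he₀, fun K => Bas.mono 0 (H K) ?_⟩
  intro J _ F A H R₁ R₂ z zj hz hzj a b d ha hb hd B hB hBc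
  exact (H R₁ R₂ z zj hz hzj a (fun ω => (b ω).1) (fun ω => (b ω).2) d ha hb.1 hb.2 hd B hB
    hBc).1

/-- **The near frame digits of the hop are full at real windows**: `o` the window of the ball, `Nb`,
`Mb` the last digits of the two heights, `Nd`, `Md` the digits of the velocities. -/
theorem hnv_at {S : PCl m}
    (hpos : ∀ (τ : ℝ) (J : ℕ) (F : Fam m J) (A : F.Ω → Prop), S.St τ J F A → 0 < Pe F.p A)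
    {c : ℕ → Fin m} {L₁ L₂ : ℝ → ℝ} {g₀ : ℝ} (hN : NvAt S (c 0) (c 1) (c 2) L₁ L₂ g₀)
    {C e κ : ℝ} (hC : 0 ≤ C) (he : 0 < e) (hκ : 0 < κ) (hκe : κ < min (e / 2) 1 / 16) :
    ∃ i₀ : ℕ, ∀ i ≥ i₀, ∃ ρ : ℝ, 0 < ρ ∧ ∀ R : ℝ, 0 < R → R < ρ →
    ∀ o : ℝ, g₀ - R ≤ o → o ≤ g₀ + R → 0 ≤ o → o ≤ 1 →
    ∀ q' p' Nb Mb Nd Md : ℝ, L₁ o - C * R ≤ q' → L₂ o - κ * R ≤ p' → 0 < p' → L₁ o ≤ Nb →
    L₂ o ≤ Mb → Nb ≤ L₁ o + C * R → |Mb - Nb - (L₂ o - L₁ o)| ≤ κ * R →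
    Nd + o ≤ L₁ o + C * R → Md + o ≤ L₂ o + C * R → Nb ≤ 1 → Mb ≤ 1 → Nd ≤ 1 → Md ≤ 1 →
    ∀ c₀ : ℝ, 0 < c₀ → ∃ κ' : ℝ, 0 < κ' ∧ ∃ e₁ : ℝ, 0 < e₁ ∧ ∀ D' : ℕ, Bas S (fun J F A₁ =>
      ∀ (D W n k q₀ q sg Mo : ℕ) (g go : ℕ → ℕ) (ψH : LnT F → ℕ → Option (Fin m) → ℝ)
        (zψ : PtT F → ℕ → Option (Fin m) → ℝ) (Ht : LnT F → MvPolynomial (Option (Fin m)) ℝ)
        (hD : ∀ s, (Ht s).totalDegree ≤ D) (Go : PtT F → ℕ → MvPolynomial (Option (Fin m)) ℝ)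
        (Ho : LnT F → ℕ → MvPolynomial (Option (Fin m)) ℝ) (V : Type) (zo : F.Ω → V),
      Gb F c g go W n ⌊o * J⌋₊ k 3 D sg Mo ψH Ht Go A₁ → Clsd F 3 ⌊o * J⌋₊ A₁ Go Ho →
      (∀ ω, A₁ ω → ∀ l < 3, (Go (ptr F J ω) l).totalDegree ≤ D') →
      (∀ ω, A₁ ω → zψ (ptr F J ω) = ψH (slam F W ω)) → W ≤ ⌊o * J⌋₊ →
      (∀ l < 3, l ≠ 0 → g l + q ≤ go l) → g 0 + (q + sg) ≤ J → go 0 + sg ≤ J →
      g 0 + q₀ ≤ W + 1 + ⌊(1 / 2 : ℝ) ^ i * J⌋₊ → g 0 + q ≤ W + 1 + ⌊(1 / 2 : ℝ) ^ i * J⌋₊ →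
      go 0 ≤ W + 1 + ⌊(1 / 2 : ℝ) ^ i * J⌋₊ → go 0 + ⌊o * J⌋₊ ≤ W + 1 + J → k ≤ J →
      (q' - e₁) * J ≤ go 1 → (p' - e₁) * J + 4 * k ≤ go 2 →
      (p' - e₁) * J + 4 * k + g 1 ≤ go 1 + g 2 →
      (g 1 : ℝ) + q ≤ W + 1 + k + Nd * J → (g 2 : ℝ) + q ≤ W + 1 + k + Md * J →
      Nb * J ≤ g 1 + (q + sg) → Mb * J ≤ g 2 + (q + sg) →
      Mx (fun J F => ptr F J) (vg o) κ' F A₁ zo → KeyZ F W 3 ψH Go A₁ zo →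
      ∀ B : F.Ω → Prop, Sub B A₁ → c₀ * Pe F.p A₁ ≤ Pe F.p B →
      (((Nb - L₁ o) + (Mb - L₂ o)) * Real.log 2 - e * R) * J - 700 * k ≤
        CH (Pool.Agent.H49.Ent.cond F.p B True)
        (fun ω (l : Fin (3 - 1)) =>
          Nfd (hdt2 F c g W n 3 D q₀ q sg ψH Ht hD) W (uu g q₀ q sg)
            (fun l => g l + qv q₀ q l) (1 + l) ω)
        (fun ω => (zo ω, (F.W ω, (F.X J ω (c 0),
          cE (hdt2 F c g W n 3 D q₀ q sg ψH Ht hD) W ω))))) := by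
  obtain ⟨i₀, h⟩ := hN C (e / 2) κ hC (by positivity) hκ hκe
  refine ⟨i₀, fun i hi => ?_⟩
  obtain ⟨ρ, hρ, h⟩ := h i hi
  refine ⟨ρ, hρ, fun R hR hRρ o o1 o2 o3 o4 q' p' Nb Mb Nd Md a1 a2 a3 a4 a5 a6 a7 a8 a9 b1 b2 b3
    b4 c₀ hc₀ => ?_⟩
  have hκR : 0 ≤ κ * R := by positivity
  have h3 := h R hR hRρ o o o1 le_rfl o2 q' p' (L₁ o) (L₂ o) Nb Mb Nd Md a1 a2 (by linarith)
    (by linarith) a4 a5 a6 a7 (by linarith) a8 a9 c₀ hc₀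
  have n1 := nrp_at hpos hc₀ h3
  have heR : 0 < e / 2 * R := by positivity
  obtain ⟨κ', hκ', e₁, he₁, K⟩ := hnv_p8 (c := c) (f := fun J F => ptr F J)
    (y := fun J F => yF F (c 0) ⌊(1 / 2 : ℝ) ^ i * J⌋₊) hpos (Finset.mem_singleton_self (c 0))
    (kn_yF (c 0) ((1 / 2 : ℝ) ^ i)) (fun J F ω ω' hh => by
      unfold yF at hh
      simp only [Prod.mk.injEq] at hh
      exact ⟨Prod.ext hh.1 hh.2.2.2, hh.2.1⟩) exs_unit hc₀ a3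
    ⟨by linarith, b1, b3, by linarith, b2, b4⟩ n1 heR
  refine ⟨κ', hκ', e₁, he₁, fun D' => Bas.mono 0 (K D') ?_⟩
  intro J _ F A₁ hh D W n k q₀ q sg Mo g go ψH zψ Ht hD Go Ho V zo a1 a2 a3 a4 a5 a6 a7 a8 a9 b1 b2
    b3 b4 b5 b6 b7 b8 b9 c1 c2 c3 c4 B hB hBc
  have hx : ⌊o * J⌋₊ ≤ J := Nat.floor_le_of_le (by
    have : (0 : ℝ) ≤ J := Nat.cast_nonneg J
    nlinarith)
  have h5 := hh D W n k q₀ q sg Mo g go ψH zψ Ht hD Go Ho V zo a1 a2 a3 a4 a5 hx a6 a7 a8 a9 b1 b2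
    b3 b4 b5 b6 b7 b8 b9 c1 c2 c3 c4 B hB hBc
  refine le_trans (le_of_eq ?_) h5
  ring

end Pool.D2F2
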