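import Pool.Agent.H90.D2.Hie
import Pool.Agent.H4.D2.Nvh
import Pool.Agent.H4.D2.Hnn

/-!
# The near frame digits of the hop on the grid

`hnv_key`: a record knows the frame and the balls. `hnv_grid`: `HnvB` for all blocks of the grid,
from the near digits of the pair (`NvAt`).
-/

set_option autoImplicit false

namespace Pool.D2N

open Finset Real MvPolynomial
open Pool.Agent.H49.Ent Pool.Agent.H32.Dense Pool.STK Pool.KA Pool.KSAT Pool.K2S Pool.PB Pool.S6C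
open Pool.GEN Pool.CHT Pool.CHX Pool.LA91
open Pool.RCD
open Pool.LBT (ThrOf)
open Pool.ALL (RateOf)
open Pool.D2F Pool.D2Z Pool.D2F2
open Pool.D2R (dd hs co co_slam ROutB ROut1)
open Pool.PKG (RecG Kg kgL)
open Pool.M3F (ExvY)
open Pool.ISO (Clsd)

/-- **A record knows the frame and the balls** of its window. -/
theorem hnv_key {m J : ℕ} {F : Fam m J} {B : F.Ω → Prop} {W O : ℕ} {V : Type} {z : PtT F → V}
    {zH : LnT F → V} (h : Rcd F B O z zH) (hW : W ≤ O) (hO : O ≤ J)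
    {ψ : PtT F → ℕ → Option (Fin m) → ℝ} {ψH : LnT F → ℕ → Option (Fin m) → ℝ}
    (hψ : ∀ ω, B ω → ψ (ptr F J ω) = ψH (slam F W ω))
    {G : PtT F → ℕ → MvPolynomial (Option (Fin m)) ℝ}
    {H : LnT F → ℕ → MvPolynomial (Option (Fin m)) ℝ}
    (hG : ∀ ω, B ω → ∀ l ≤ 3, G (ptr F J ω) l = H (slam F O ω) l) :
    KeyZ F W 3 ψH G B (fun ω => z (ptr F J ω)) := by
  intro ω ω' hω hω' e
  refine ⟨h.max _ (fun ω => ψH (slam F W ω)) (fun a b ha hb hab => ?_) (fun a b ha hb hab => ?_)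
    ω ω' hω hω' e, fun l hl => h.max _ (fun ω => G (ptr F J ω) l) (fun a b _ _ hab => ?_)
    (fun a b ha hb hab => ?_) ω ω' hω hω' e⟩
  · change ψH (slam F W a) = ψH (slam F W b)
    rw [← hψ a ha, ← hψ b hb, hab]
  · change ψH (slam F W a) = ψH (slam F W b)
    rw [← co_slam F hW hO a, ← co_slam F hW hO b, hab]
  · change G (ptr F J a) l = G (ptr F J b) l
    rw [hab]
  · change G (ptr F J a) l = G (ptr F J b) l
    rw [hG a ha l hl, hG b hb l hl, hab]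

/-- The digits `q₀` of the first coordinate, from above. -/
theorem nQ₀_le {κ M : ℝ} {x i : ℕ} (h1 : 0 ≤ κ * oO κ i * M) (h2 : 0 ≤ oA κ i * M)
    {E : ℝ} (h3 : κ * oO κ i * M ≤ E) (h4 : oA κ i * M ≤ E) : (nQ₀ κ x i M : ℝ) ≤ E := by
  have e1 : (nQ κ x i M : ℝ) ≤ E := by
    refine le_trans ?_ ((Nat.floor_le h1).trans h3)
    unfold nQ
    exact_mod_cast Nat.sub_le _ _
  have e2 : ((⌊oA κ i * M⌋₊ - 305 * x : ℕ) : ℝ) ≤ E := by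
    refine le_trans ?_ ((Nat.floor_le h2).trans h4)
    exact_mod_cast Nat.sub_le _ _
  unfold nQ₀
  rw [Nat.cast_max]
  exact max_le e1 e2

/-- The length of the near frame digits. -/
theorem hnv_sum {g : ℕ → ℕ} {q₀ q : ℕ} {M : ℝ} (hM : 0 ≤ M) :
    ∑ l ∈ Finset.Ico 1 3, ((uu g q₀ q ⌊M⌋₊ l - (g l + D2F2.qv q₀ q l) : ℕ) : ℝ) * Real.log 2 ≤
      2 * M * Real.log 2 := by
  have h1 : ∀ l ∈ Finset.Ico 1 3, ((uu g q₀ q ⌊M⌋₊ l - (g l + D2F2.qv q₀ q l) : ℕ) : ℝ) *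
      Real.log 2 ≤ M * Real.log 2 := by
    intro l hl
    have hl1 : l ≠ 0 := by
      have := (Finset.mem_Ico.1 hl).1
      omega
    refine mul_le_mul_of_nonneg_right ?_ (Real.log_pos one_lt_two).le
    refine le_trans ?_ (Nat.floor_le hM)
    have h2 : uu g q₀ q ⌊M⌋₊ l - (g l + D2F2.qv q₀ q l) ≤ ⌊M⌋₊ := by
      unfold uu
      rw [qv_pos hl1]
      omega
    exact_mod_cast h2
  refine (Finset.sum_le_sum h1).trans (le_of_eq ?_)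
  rw [Finset.sum_const, Nat.card_Ico, nsmul_eq_mul]
  push_cast
  ring

/-- **The near frame digits on the grid**, one block. -/
theorem hnv_grid1 {κ : ℝ} (hκ : 1 < κ) {D : ℕ} {K₀ η u₀ m₀ : ℝ} (hK₀ : 0 < K₀)
    (hη : 0 < η) (hu₀ : 0 < u₀) (hm₀ : m₀ = min (η * u₀ / (16 * (K₀ + 2)) / 2) 1 / 32) {n : ℕ}
    {y ε : ℝ} {nd : ℕ} (hy : 0 < y) (hy1 : 200 * y ≤ m₀) (hy2 : 40000 * y ≤ η * u₀)
    (hy3 : 2000 * y ≤ u₀) (hεy : ε ≤ y) (hnd : 0 < nd)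
    {m : ℕ} {S : PCl m}
    (hpos : ∀ (τ : ℝ) (J : ℕ) (F : Fam m J) (A : F.Ω → Prop), S.St τ J F A → 0 < Pe F.p A)
    {P : List (Fin m) × Fin m → ℝ → ℝ → ℝ} {θ : ℝ} {c : ℕ → Fin m} {L : ℕ → ℝ → ℝ → ℝ}
    {Sl : ℕ → ℝ} {gg : ℝ} (hc : Set.InjOn c (Set.Iio 4))
    {i₁ : ℕ} {ρ : ℝ} (hN : ∀ R : ℝ, 0 < R → R < ρ →
    ∀ o : ℝ, gg - R ≤ o → o ≤ gg + R → 0 ≤ o → o ≤ 1 →
    ∀ q' p' Nb Mb Nd Md : ℝ, L 1 o o - 1 * R ≤ q' → L 2 o o - m₀ / (K₀ + 2) * R ≤ p' → 0 < p' →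
    L 1 o o ≤ Nb → L 2 o o ≤ Mb → Nb ≤ L 1 o o + 1 * R →
    |Mb - Nb - (L 2 o o - L 1 o o)| ≤ m₀ / (K₀ + 2) * R →
    Nd + o ≤ L 1 o o + 1 * R → Md + o ≤ L 2 o o + 1 * R → Nb ≤ 1 → Mb ≤ 1 → Nd ≤ 1 → Md ≤ 1 →
    ∀ c₀ : ℝ, 0 < c₀ → ∃ κ' : ℝ, 0 < κ' ∧ ∃ e₁ : ℝ, 0 < e₁ ∧ ∀ D' : ℕ, Bas S (fun J F A₁ =>
      ∀ (D W n k q₀ q sg Mo : ℕ) (g go : ℕ → ℕ) (ψH : LnT F → ℕ → Option (Fin m) → ℝ)
        (zψ : PtT F → ℕ → Option (Fin m) → ℝ) (Ht : LnT F → MvPolynomial (Option (Fin m)) ℝ)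
        (hD : ∀ s, (Ht s).totalDegree ≤ D) (Go : PtT F → ℕ → MvPolynomial (Option (Fin m)) ℝ)
        (Ho : LnT F → ℕ → MvPolynomial (Option (Fin m)) ℝ) (V : Type) (zo : F.Ω → V),
      Gb F c g go W n ⌊o * J⌋₊ k 3 D sg Mo ψH Ht Go A₁ → Clsd F 3 ⌊o * J⌋₊ A₁ Go Ho →
      (∀ ω, A₁ ω → ∀ l < 3, (Go (ptr F J ω) l).totalDegree ≤ D') →
      (∀ ω, A₁ ω → zψ (ptr F J ω) = ψH (slam F W ω)) → W ≤ ⌊o * J⌋₊ →
      (∀ l < 3, l ≠ 0 → g l + q ≤ go l) → g 0 + (q + sg) ≤ J → go 0 + sg ≤ J →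
      g 0 + q₀ ≤ W + 1 + ⌊(1 / 2 : ℝ) ^ i₁ * J⌋₊ → g 0 + q ≤ W + 1 + ⌊(1 / 2 : ℝ) ^ i₁ * J⌋₊ →
      go 0 ≤ W + 1 + ⌊(1 / 2 : ℝ) ^ i₁ * J⌋₊ → go 0 + ⌊o * J⌋₊ ≤ W + 1 + J → k ≤ J →
      (q' - e₁) * J ≤ go 1 → (p' - e₁) * J + 4 * k ≤ go 2 →
      (p' - e₁) * J + 4 * k + g 1 ≤ go 1 + g 2 →
      (g 1 : ℝ) + q ≤ W + 1 + k + Nd * J → (g 2 : ℝ) + q ≤ W + 1 + k + Md * J →
      Nb * J ≤ g 1 + (q + sg) → Mb * J ≤ g 2 + (q + sg) →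
      Mx (fun J F => ptr F J) (vg o) κ' F A₁ zo → KeyZ F W 3 ψH Go A₁ zo →
      ∀ B : F.Ω → Prop, Sub B A₁ → c₀ * Pe F.p A₁ ≤ Pe F.p B →
      (((Nb - L 1 o o) + (Mb - L 2 o o)) * Real.log 2 - η * u₀ / (16 * (K₀ + 2)) * R) * J -
        700 * k ≤
        CH (Pool.Agent.H49.Ent.cond F.p B True)
        (fun ω (l : Fin (3 - 1)) =>
          Nfd (hdt2 F c g W n 3 D q₀ q sg ψH Ht hD) W (uu g q₀ q sg)
            (fun l => g l + D2F2.qv q₀ q l) (1 + l) ω)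
        (fun ω => (zo ω, (F.W ω, (F.X J ω (c 0),
          cE (hdt2 F c g W n 3 D q₀ q sg ψH Ht hD) W ω))))))
    {A' Eb e q t u : ℝ} (hqρ : (K₀ + 2) * q < ρ) (hqi : (κ + 8) * q ≤ (1 / 2 : ℝ) ^ i₁)
    (htg : |t - gg| ≤ K₀ * q) (RL : RcL P θ c L Sl κ t q A' Eb e ε nd)
    (hrm : ∀ l ≤ 3, L l t t + Eb + 3 * (2 * κ + 8) * q < 1) (hL0 : L 0 t t ≤ t + q)
    (hu : u₀ ≤ u) (hu1 : oO κ n * u ≤ 1 / 2) {i : ℕ} (hi : i < n)
    {c₀ c₁ : ℝ} (hc₀ : 0 < c₀) (hc₁ : 0 < c₁) :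
    Bas S (fun J F A => ∀ B : F.Ω → Prop, Sub B A →
      c₁ * Pe F.p A ≤ Pe F.p B → ∀ (x e₀ : ℕ) (g : ℕ → ℕ → ℕ)
      (ψ : ℕ → PtT F → ℕ → Option (Fin m) → ℝ) (ψH : ℕ → LnT F → ℕ → Option (Fin m) → ℝ)
      (Sv : PtT F → ℕ → Option (Fin m) → ℝ) (G : ℕ → PtT F → ℕ → MvPolynomial (Option (Fin m)) ℝ)
      (H : ℕ → LnT F → ℕ → MvPolynomial (Option (Fin m)) ℝ)
      (Ht : LnT F → MvPolynomial (Option (Fin m)) ℝ) (hD : ∀ s, (Ht s).totalDegree ≤ D),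
      16 * (κ + 1) + 64 ≤ x → (x : ℝ) ≤ y * q * J → κ * (q * J / nd + 1) ≤ x →
      (∀ k ≤ nd, ∀ l ≤ 3, 16 * |(g k l : ℝ) - (L l t t + Sl l * (k / nd * q)) * J| ≤ x) →
      HopD F c D nd x e₀ (wG t q nd J) B g ψ ψH Sv G H Ht →
      ∀ (Vo : Type) (zo : PtT F → Vo) (zoH : LnT F → Vo),
      Rcd F B (wG t q nd J (gP u nd (oO κ i))) zo zoH →
      HnvB F c κ u t q nd D x i g ψH Ht hD (η * u * q) c₀ B zo) := by
  have hq := RL.q0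
  have hqt := RL.qt
  have ht0 : 0 < t := hq.trans_le hqt
  have hκ0 : 0 < κ := one_pos.trans hκ
  have hu0 : 0 < u := hu₀.trans_le hu
  have hndR : (0 : ℝ) < nd := by exact_mod_cast hnd
  have hoff := off_le hκ hu0.le hi hu1
  have hu4 : u ≤ 1 / 4 := by
    have := mul_le_mul_of_nonneg_right (oO_ge hκ n) hu0.le
    linarith only [this, hu1]
  have hK2 : 0 < K₀ + 2 := by positivity
  have hm1 : m₀ ≤ 1 / 32 := by
    rw [hm₀]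
    have := min_le_right (η * u₀ / (16 * (K₀ + 2)) / 2) 1
    linarith only [this]
  have hm0 : 0 < m₀ := by
    rw [hm₀]
    have : 0 < min (η * u₀ / (16 * (K₀ + 2)) / 2) 1 := lt_min (by positivity) one_pos
    positivity
  have hfr : ∀ k ≤ nd, 0 ≤ (k : ℝ) / nd * q ∧ (k : ℝ) / nd * q ≤ q := fun k hk => by
    refine ⟨by positivity, ?_⟩
    have h1 : (k : ℝ) / nd ≤ 1 := by
      rw [div_le_one hndR]
      exact_mod_cast hk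
    have := mul_le_mul_of_nonneg_right h1 hq.le
    rwa [one_mul] at this
  have hgw : gP u nd 0 ≤ nd := gP_le1 (by rw [zero_mul]; norm_num)
  have hgO : gP u nd (oO κ i) ≤ nd := gP_le1 (hoff.1.trans (by norm_num))
  have htq : t + 2 * q < 1 := by
    have h1 := RL.At
    have h2 := mul_le_mul_of_nonneg_right RL.A3 hq.le
    linarith only [h1, h2, hq]
  have hq1 : q < 1 := by linarith only [htq, hqt, hq]
  obtain ⟨a₀, ha₀⟩ : ∃ a₀ : ℝ, a₀ = (gP u nd 0 : ℕ) / nd * q := ⟨_, rfl⟩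
  obtain ⟨a₁, ha₁⟩ : ∃ a₁ : ℝ, a₁ = (gP u nd (oO κ i) : ℕ) / nd * q := ⟨_, rfl⟩
  have hfa₀ := hfr _ hgw
  have hfa₁ := hfr _ hgO
  rw [← ha₀] at hfa₀
  rw [← ha₁] at hfa₁
  obtain ⟨o, ho⟩ : ∃ o : ℝ, o = t + a₁ := ⟨_, rfl⟩
  have h2nd : gP u nd (oO κ i) ≤ 2 * nd := by omega
  have lo1 := RL.lo 1 (by norm_num) _ h2nd
  have lo2 := RL.lo 2 (by norm_num) _ h2nd
  have hl1 := RL.hlv (show 1 ≤ 3 by norm_num) h2nd
  have hl2 := RL.hlv (show 2 ≤ 3 by norm_num) h2nd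
  rw [← ha₁, ← ho] at lo1 lo2 hl1 hl2
  rw [RL.s1] at hl1
  rw [RL.s2] at hl2
  have hEb := RL.Eb0
  have hyq0 : 0 < y * q := by positivity
  have hεq : ε * q ≤ y * q := mul_le_mul_of_nonneg_right hεy hq.le
  have hyu : 2000 * (y * q) ≤ u * q := by
    have := mul_le_mul_of_nonneg_right (hy3.trans hu) hq.le
    linarith only [this]
  have hym : 200 * (y * q) ≤ m₀ * q := by
    have := mul_le_mul_of_nonneg_right hy1 hq.le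
    linarith only [this]
  have hyη : 40000 * (y * q) ≤ η * u₀ * q := by
    have := mul_le_mul_of_nonneg_right hy2 hq.le
    linarith only [this]
  have huq : u * q ≤ 1 / 4 * q := mul_le_mul_of_nonneg_right hu4 hq.le
  have hmq : m₀ * q ≤ 1 / 32 * q := mul_le_mul_of_nonneg_right hm1 hq.le
  have hmR : m₀ / (K₀ + 2) * ((K₀ + 2) * q) = m₀ * q := by
    field_simp
  have heR : η * u₀ / (16 * (K₀ + 2)) * ((K₀ + 2) * q) = η * u₀ * q / 16 := by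
    field_simp
  obtain ⟨tg1, tg2⟩ := abs_le.1 htg
  obtain ⟨⟨r1, r2, r3, r4⟩, ⟨r5, r6, r7, r8⟩, ⟨r9, r10⟩, r11, r12, r13, r14⟩ :=
    hnn_r hK₀ hq hqt htq tg1 tg2 hfa₁.1 hfa₁.2 ho lo1.1 lo1.2 lo2.1 lo2.2 hEb hyq0 hyu huq hmq
  obtain ⟨κ', hκ', e₁, he₁, hB⟩ := hN ((K₀ + 2) * q) (mul_pos hK2 hq) hqρ o r1 r2 r3 r4
    (L 1 o o - 1 * ((K₀ + 2) * q)) (L 2 o o - m₀ * q)
    (L 1 o o + u * q - 400 * (y * q)) (L 2 o o + u * q - 400 * (y * q)) (L 1 o o - o + q)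
    (L 2 o o - o + q) le_rfl (by rw [hmR]) r5 r6 r7 r8 (by
      rw [hmR, show L 2 o o + u * q - 400 * (y * q) - (L 1 o o + u * q - 400 * (y * q)) -
        (L 2 o o - L 1 o o) = 0 by ring, abs_zero]
      exact (mul_pos hm0 hq).le) r9 r10 r11 r12 r13 r14 c₀ hc₀
  have hpB : Bas S (fun _ F A => 0 < Pe F.p A) := ⟨1, one_pos, 0, fun J _ F A h => hpos _ _ _ _ h⟩
  refine Bas.mono 0 (bas_ev ((hB D).and hpB) hc₁) ?_
  intro J _ F A hA B hBA hcB x e₀ g ψ ψH Sv G H Ht hD hX hx hmesh hlv HD Vo zo zoH hzo B' hB' hcB'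
  obtain ⟨hA, hB0⟩ := hA B hBA hcB
  have hJ0 : (0 : ℝ) ≤ J := Nat.cast_nonneg J
  have hx64 : (64 : ℝ) ≤ x := by linarith only [hX, hκ0]
  have hx1 : 1 ≤ x := by
    have : (1 : ℝ) ≤ x := by linarith only [hx64]
    exact_mod_cast this
  obtain ⟨M, hM⟩ : ∃ M : ℝ, M = u * q * J := ⟨_, rfl⟩
  have mJ : ∀ {a b : ℝ}, a ≤ b → a * J ≤ b * J := fun h => mul_le_mul_of_nonneg_right h hJ0
  have hMx : 1300 * (x : ℝ) ≤ M := by
    have := mJ hyu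
    rw [hM]
    linarith only [this, hx, hx64]
  have hx₀ : 8 * ((x : ℝ) / 16 + (κ + 1)) ≤ x := by linarith only [hX]
  have hx₀' : 0 ≤ (x : ℝ) / 16 + (κ + 1) := by positivity
  have hLv := fun k (hk : k ≤ nd) => lvh_of (x := x) RL.s0 RL.s1 RL.s2 RL.s3 hκ hq ht0.le (hlv k hk)
  have hlv1 : ∀ k ≤ nd, ∀ l ≤ 3, (L l t t + Sl l * (k / nd * q)) * J - x / 16 ≤ g k l ∧
      (g k l : ℝ) ≤ (L l t t + Sl l * (k / nd * q)) * J + x / 16 := fun k hk l hl => by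
    have h1 := hlv k hk l hl
    have h2 : |(g k l : ℝ) - (L l t t + Sl l * (k / nd * q)) * J| ≤ x / 16 := by
      linarith only [h1]
    obtain ⟨h3, h4⟩ := abs_le.1 h2
    exact ⟨by linarith only [h3], by linarith only [h4]⟩
  -- the windows
  obtain ⟨r, hr⟩ : ∃ r : ℝ, r = q * J / nd + 1 := ⟨_, rfl⟩
  have hr1 : 1 ≤ r := by
    rw [hr]
    have : 0 ≤ q * J / nd := by positivity
    linarith only [this]
  rw [← hr] at hmesh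
  have hrκ : r ≤ κ * r := le_mul_of_one_le_left (by linarith only [hr1]) hκ.le
  have hκr : κ ≤ κ * r := le_mul_of_one_le_right hκ0.le hr1
  obtain ⟨w, hw⟩ : ∃ w, w = wG t q nd J (gP u nd 0) := ⟨_, rfl⟩
  obtain ⟨O, hO⟩ : ∃ O, O = wG t q nd J (gP u nd (oO κ i)) := ⟨_, rfl⟩
  have hOo : O = ⌊o * J⌋₊ := by rw [hO, ho, ha₁]; rfl
  have ww : |(w : ℝ) - ((t + q / 4) * J + 0 * M)| ≤ r := by
    have := gP_win (u := u) (t := t) (q := q) (J := J) hu0.le (r := 0) le_rfl hnd hq.le hJ0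
      (wG_near ht0.le hq.le nd J (gP u nd 0))
    rw [← hw, ← hM, ← hr] at this
    exact this
  have oo : |(O : ℝ) - ((t + q / 4) * J + oO κ i * M)| ≤ r := by
    have := gP_win (u := u) (t := t) (q := q) (J := J) hu0.le (r := oO κ i)
      ((by norm_num : (0 : ℝ) ≤ 2).trans (oO_ge hκ i)) hnd hq.le hJ0
      (wG_near ht0.le hq.le nd J (gP u nd (oO κ i)))
    rw [← hO, ← hM, ← hr] at this
    exact this
  have wn := wG_near ht0.le hq.le nd J (gP u nd 0)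
  have on := wG_near ht0.le hq.le nd J (gP u nd (oO κ i))
  have dn := wG_near ht0.le hq.le nd J nd
  rw [← hw, ← ha₀] at wn
  rw [← hO, ← ha₁] at on
  rw [div_self hndR.ne', one_mul] at dn
  obtain ⟨w1, w2⟩ := abs_le.1 ww
  obtain ⟨o1, o2⟩ := abs_le.1 oo
  obtain ⟨w3, w4⟩ := abs_le.1 wn
  obtain ⟨o3, o4⟩ := abs_le.1 on
  obtain ⟨d3, d4⟩ := abs_le.1 dn
  have hqJ : 0 ≤ q * J := by positivity
  have hOM : oO κ i * M ≤ q * J / 2 := by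
    have h1 := mul_le_mul_of_nonneg_right hoff.1 hqJ
    rw [hM]
    linarith only [h1]
  have hAM : oA κ i * M ≤ q * J / 2 := by
    have h1 := mul_le_mul_of_nonneg_right hoff.2.1 hqJ
    rw [hM]
    linarith only [h1]
  have hM0 : 0 < M := by linarith only [hMx, hx64]
  have hO2 : 2 * M ≤ oO κ i * M := mul_le_mul_of_nonneg_right (oO_ge hκ i) hM0.le
  have hκM : κ * (oO κ i * M) ≤ κ * (q * J / 2) := mul_le_mul_of_nonneg_left hOM hκ0.le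
  have hMq : M ≤ q * J / 4 := by
    have := mJ huq
    rw [hM]
    linarith only [this]
  have hyq1 : y * q * J ≤ q * J / 6400 := by
    have h1 : y ≤ 1 / 6400 := by linarith only [hy1, hm1]
    have h2 := mJ (mul_le_mul_of_nonneg_right h1 hq.le)
    linarith only [h2]
  obtain ⟨⟨D1, D2⟩, ⟨D3, D4⟩, D5⟩ := hnn_d (oM := oO κ i * M) hκ0
    (by linarith only [w1]) (by linarith only [w2]) o1 o2 w3 w4 o3 o4
  have wO : w ≤ O := by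
    have : (w : ℝ) ≤ O := by linarith only [D5, hmesh, hrκ, hMx, hO2, hx64]
    exact_mod_cast this
  have hOJ : O ≤ J := by
    rw [hO]
    exact wG_le hnd hq.le (by linarith only [htq, hq]) hgO
  -- the digits
  obtain ⟨nq1, nq2, nq3, nq4⟩ := nQ_bd (i := i) hκ hMx hx1
  have e0 : κ * oO κ i * M = κ * (oO κ i * M) := by ring
  rw [e0] at nq1 nq2 nq3 nq4
  have hsg := Nat.floor_le hM0.le
  have hq0 : (nQ₀ κ x i M : ℝ) ≤ κ * (q * J / 2) := by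
    have h0 : 0 ≤ oO κ i * M := by linarith only [hO2, hM0]
    have h1 : q * J / 2 ≤ κ * (q * J / 2) := le_mul_of_one_le_left (by positivity) hκ.le
    exact nQ₀_le (by rw [e0]; exact mul_nonneg hκ0.le h0) (by
      have := mul_le_mul_of_nonneg_right (oA_ge hκ i) hM0.le
      linarith only [this, h0]) (by rw [e0]; exact hκM) (hAM.trans h1)
  -- the levels
  have L0w := hlv1 _ hgw 0 (by norm_num)
  have L1w := hlv1 _ hgw 1 (by norm_num)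
  have L2w := hlv1 _ hgw 2 (by norm_num)
  have L0o := hlv1 _ hgO 0 (by norm_num)
  have L1o := hlv1 _ hgO 1 (by norm_num)
  have L2o := hlv1 _ hgO 2 (by norm_num)
  rw [RL.s0, ← ha₀, one_mul] at L0w
  rw [RL.s1, ← ha₀] at L1w
  rw [RL.s2, ← ha₀] at L2w
  rw [RL.s0, ← ha₁, one_mul] at L0o
  rw [RL.s1, ← ha₁] at L1o
  rw [RL.s2, ← ha₁] at L2o
  have hl1a := mJ hl1.1
  have hl1b := mJ hl1.2
  have hl2a := mJ hl2.1
  have hl2b := mJ hl2.2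
  have hpw : (κ + 8) * q * J - 1 ≤ (⌊(1 / 2 : ℝ) ^ i₁ * J⌋₊ : ℝ) := by
    have h1 := (Nat.sub_one_lt_floor ((1 / 2 : ℝ) ^ i₁ * J)).le
    have h2 := mJ hqi
    linarith only [h1, h2]
  have hεJ : ε * q * J ≤ y * q * J := mJ hεq
  have hkx : ((13 * (x + 1) : ℕ) : ℝ) ≤ 14 * x := by
    push_cast
    linarith only [hx64]
  have hk0 : (0 : ℝ) ≤ ((13 * (x + 1) : ℕ) : ℝ) := Nat.cast_nonneg _
  obtain ⟨A1, A2, A3, A4⟩ := hnn_l (k := ((13 * (x + 1) : ℕ) : ℝ)) hJ0 hK₀ hq hx hx64 hmesh hκr hrκ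
    hM hεJ hyq1 hOM D2 D3 D4 w3 L1w.1 L1w.2 L1o.1 hl1a hl1b nq1 nq4 hk0
  obtain ⟨B1, -, B3, B4⟩ := hnn_l (k := ((13 * (x + 1) : ℕ) : ℝ)) hJ0 hK₀ hq hx hx64 hmesh hκr hrκ
    hM hεJ hyq1 hOM D2 D3 D4 w3 L2w.1 L2w.2 L2o.1 hl2a hl2b nq1 nq4 hk0
  obtain ⟨C1, C2⟩ := hnn_p hx hx64 hεJ (mJ hym) hkx L2o.1 L2w.1 L1o.1 L1w.2 hl2b
  obtain ⟨⟨E1, E2⟩, ⟨E3, E4, E5⟩, E6, E7⟩ := hnn_w hJ0 hκ hq hq1 hEb hx hx64 hyq1 hMq hκM hfa₀.1
    hfa₀.2 hfa₁.1 hfa₁.2 (hrm 0 (by norm_num)).le hL0 w3 o4 L0w.2 L0o.2 nq2 nq4 hsg hq0 hpw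
  -- the structure
  obtain ⟨v, v', e'', p, gT, U, T', TH, hdp⟩ := HD.dp
  have hc3 : Set.InjOn c (Set.Iio 3) := hc.mono fun j hj => by
    rw [Set.mem_Iio] at hj ⊢
    omega
  have h0w : wG t q nd J 0 ≤ w := by
    rw [hw]
    refine Nat.floor_le_floor (mul_le_mul_of_nonneg_right ?_ hJ0)
    have : ((0 : ℕ) : ℝ) / nd * q = 0 := by simp
    rw [this, ← ha₀]
    linarith only [hfa₀.1]
  have LW := hLv _ hgw
  have LO := hLv _ hgO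
  have LD := hLv _ le_rfl
  rw [← hw] at LW
  rw [← hO] at LO
  have hwn := HD.wn _ hgw
  have hon := HD.wn _ hgO
  rw [← hw] at hwn
  rw [← hO] at hon hzo
  have hS1 : ((⌊M⌋₊ : ℕ) : ℝ) + 4 * ((x : ℝ) / 16 + (κ + 1)) + 1 ≤ O - w := by
    linarith only [D5, hsg, hO2, hMx, hx₀, hx64, hmesh, hrκ]
  have hS2 : ((⌊M⌋₊ : ℕ) : ℝ) + 4 * ((x : ℝ) / 16 + (κ + 1)) + 1 ≤
      (wG t q nd J nd : ℕ) - (w : ℝ) := by
    have h1 : (t + q / 4) * J = t * J + q * J / 4 := by ring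
    have h2 : (t + q) * J = t * J + q * J := by ring
    linarith only [d3, w2, h1, h2, hsg, hx₀, hx64, hmesh, hrκ, hMx, hMq, hyq1, hx]
  obtain ⟨Mo, mo1, mo2⟩ := lv_mx (S := ⌊M⌋₊) RL.s0 RL.s1 RL.s2 RL.s3 hκ.le hx₀' LW LO hS1
  obtain ⟨Md, md1, md2⟩ := lv_mx (S := ⌊M⌋₊) RL.s0 RL.s1 RL.s2 RL.s3 hκ.le hx₀' LW LD hS2
  have hx4 : 4 * ((x : ℝ) / 16 + (κ + 1)) ≤ x := by linarith only [hx₀, hx₀']
  have hGb := gb_sv (K := 13 * (x + 1)) hc3 h0w hwn.bl.wf (hon.cw wO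
    (lv_up RL.s0 RL.s1 RL.s2 RL.s3 hκ.le hx4 LW LO wO)
    (lv_upj RL.s0 RL.s1 RL.s2 RL.s3 hκ.le hx4 LW LO wO)) HD.hQ hdp mo1 mo2 md1 md2 le_rfl
  rw [hOo] at hGb
  have nat1 : g (gP u nd 0) 1 + nQ κ x i M ≤ g (gP u nd (oO κ i)) 1 := by exact_mod_cast A1
  have nat2 : g (gP u nd 0) 2 + nQ κ x i M ≤ g (gP u nd (oO κ i)) 2 := by exact_mod_cast B1
  have nat3 : g (gP u nd 0) 0 + (nQ κ x i M + ⌊M⌋₊) ≤ J := by exact_mod_cast E1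
  have nat4 : g (gP u nd (oO κ i)) 0 + ⌊M⌋₊ ≤ J := by exact_mod_cast E2
  have nat5 : g (gP u nd 0) 0 + nQ₀ κ x i M ≤ w + 1 + ⌊(1 / 2 : ℝ) ^ i₁ * J⌋₊ := by
    exact_mod_cast E3
  have nat6 : g (gP u nd 0) 0 + nQ κ x i M ≤ w + 1 + ⌊(1 / 2 : ℝ) ^ i₁ * J⌋₊ := by
    exact_mod_cast E4
  have nat7 : g (gP u nd (oO κ i)) 0 ≤ w + 1 + ⌊(1 / 2 : ℝ) ^ i₁ * J⌋₊ := by
    exact_mod_cast E5
  have nat8 : g (gP u nd (oO κ i)) 0 + O ≤ w + 1 + J := by exact_mod_cast E6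
  have nat9 : 13 * (x + 1) ≤ J := by exact_mod_cast E7
  have hpm : (L 2 o o - m₀ * q - e₁) * J ≤ (L 2 o o - m₀ * q) * J :=
    mJ (by linarith only [he₁])
  have F1 : (L 1 o o - 1 * ((K₀ + 2) * q) - e₁) * J ≤ g (gP u nd (oO κ i)) 1 :=
    (mJ (by linarith only [he₁])).trans A2
  have F2 : (L 2 o o - m₀ * q - e₁) * J + 4 * ((13 * (x + 1) : ℕ) : ℝ) ≤
      g (gP u nd (oO κ i)) 2 := by linarith only [hpm, C1]
  have F3 : (L 2 o o - m₀ * q - e₁) * J + 4 * ((13 * (x + 1) : ℕ) : ℝ) + g (gP u nd 0) 1 ≤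
      g (gP u nd (oO κ i)) 1 + g (gP u nd 0) 2 := by linarith only [hpm, C2]
  rw [← ho] at A3 B3
  have key := hA D w (w - wG t q nd J 0) (13 * (x + 1)) (nQ₀ κ x i M) (nQ κ x i M) ⌊M⌋₊ Mo
    (g (gP u nd 0)) (g (gP u nd (oO κ i))) (ψH (gP u nd 0)) (ψ (gP u nd 0)) Ht hD
    (G (gP u nd (oO κ i))) (H (gP u nd (oO κ i))) Vo (fun ω => zo (ptr F J ω)) hGb
    (fun ω hω l hl => by
      rw [← hOo]
      exact hon.cl ω hω l (by omega))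
    (fun ω hω l hl => hon.ch.degG _ _) hwn.bl.wf.fr.cls (by rw [← hOo]; exact wO)
    (fun l hl hl0 => by
      interval_cases l
      · exact absurd rfl hl0
      · exact nat1
      · exact nat2)
    nat3 nat4 nat5 nat6 nat7 (by rw [← hOo]; exact nat8) nat9 F1 F2 F3 A3 B3 A4 B4
    ((by
      rw [hOo] at hzo
      exact hzo.mx hB0 hκ'.le))
    (hnv_key hzo wO hOJ hwn.bl.wf.fr.cls hon.bl.cls) B' hB' hcB'
  rw [heR] at key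
  have hsum := hnv_sum (g := g (gP u nd 0)) (q₀ := nQ₀ κ x i M) (q := nQ κ x i M) hM0.le
  unfold dG
  rw [← hM, ← hw]
  refine le_trans ?_ key
  have hl2 : Real.log 2 ≤ 1 := by
    have := Real.log_two_lt_d9
    linarith only [this]
  have hl0 : 0 < Real.log 2 := Real.log_pos one_lt_two
  have h9 : η * u₀ * q * J ≤ η * u * q * J := by
    have := mul_le_mul_of_nonneg_left hu hη.le
    exact mJ (mul_le_mul_of_nonneg_right this hq.le)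
  have h11 : (0 : ℝ) ≤ y * q * J := by positivity
  exact hnn_e hl2 hM h11 (mJ hyη) h9 (hkx.trans (by linarith only [hx])) hsum

/-- **The near frame digits on the grid.** -/
theorem hnv_grid {κ : ℝ} (hκ : 1 < κ) {D : ℕ} {K₀ η u₀ : ℝ} (hK₀ : 0 < K₀)
    (hη : 0 < η) (hu₀ : 0 < u₀) (n : ℕ) :
    ∃ y₀ : ℝ, 0 < y₀ ∧ ∃ X₀ : ℕ, ∀ {y ε : ℝ} {nd : ℕ}, 0 < y → y ≤ y₀ → 0 ≤ ε → ε ≤ y → 0 < nd →
    ∀ {m : ℕ} {S : PCl m},
    (∀ (τ : ℝ) (J : ℕ) (F : Fam m J) (A : F.Ω → Prop), S.St τ J F A → 0 < Pe F.p A) →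
    ∀ {P : List (Fin m) × Fin m → ℝ → ℝ → ℝ} {θ : ℝ} {c : ℕ → Fin m} {L : ℕ → ℝ → ℝ → ℝ}
      {Sl : ℕ → ℝ} {gg : ℝ}, Set.InjOn c (Set.Iio 4) →
    NvAt S (c 0) (c 1) (c 2) (fun x => L 1 x x) (fun x => L 2 x x) gg →
    ∃ q₂ : ℝ, 0 < q₂ ∧ ∀ {A' Eb e q t u : ℝ}, q < q₂ → |t - gg| ≤ K₀ * q →
    RcL P θ c L Sl κ t q A' Eb e ε nd → (∀ l ≤ 3, L l t t + Eb + 3 * (2 * κ + 8) * q < 1) →
    L 0 t t ≤ t + q → u₀ ≤ u → oO κ n * u ≤ 1 / 2 →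
    ∀ {c₀ c₁ : ℝ}, 0 < c₀ → 0 < c₁ → Bas S (fun J F A => ∀ B : F.Ω → Prop, Sub B A →
      c₁ * Pe F.p A ≤ Pe F.p B → ∀ (x e₀ i : ℕ) (g : ℕ → ℕ → ℕ)
      (ψ : ℕ → PtT F → ℕ → Option (Fin m) → ℝ) (ψH : ℕ → LnT F → ℕ → Option (Fin m) → ℝ)
      (Sv : PtT F → ℕ → Option (Fin m) → ℝ) (G : ℕ → PtT F → ℕ → MvPolynomial (Option (Fin m)) ℝ)
      (H : ℕ → LnT F → ℕ → MvPolynomial (Option (Fin m)) ℝ)
      (Ht : LnT F → MvPolynomial (Option (Fin m)) ℝ) (hD : ∀ s, (Ht s).totalDegree ≤ D),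
      X₀ ≤ x → (x : ℝ) ≤ y * q * J → κ * (q * J / nd + 1) ≤ x →
      (e₀ : ℝ) ≤ (Eb + 2 * y * q) * J →
      (∀ k ≤ nd, ∀ l ≤ 3, 16 * |(g k l : ℝ) - (L l t t + Sl l * (k / nd * q)) * J| ≤ x) →
      HopD F c D nd x e₀ (wG t q nd J) B g ψ ψH Sv G H Ht → i < n →
      ∀ (Vo : Type) (zo : PtT F → Vo) (zoH : LnT F → Vo),
      Rcd F B (wG t q nd J (gP u nd (oO κ i))) zo zoH →
      HnvB F c κ u t q nd D x i g ψH Ht hD (η * u * q) c₀ B zo) := by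
  obtain ⟨m₀, hm₀⟩ : ∃ m₀ : ℝ, m₀ = min (η * u₀ / (16 * (K₀ + 2)) / 2) 1 / 32 := ⟨_, rfl⟩
  have hK2 : 0 < K₀ + 2 := by positivity
  have hmin : 0 < min (η * u₀ / (16 * (K₀ + 2)) / 2) 1 := lt_min (by positivity) one_pos
  have hm0 : 0 < m₀ := by
    rw [hm₀]
    positivity
  have hmK : m₀ / (K₀ + 2) < min (η * u₀ / (16 * (K₀ + 2)) / 2) 1 / 16 := by
    have h1 : m₀ / (K₀ + 2) ≤ m₀ / 1 :=
      div_le_div_of_nonneg_left hm0.le one_pos (by linarith only [hK₀])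
    rw [div_one] at h1
    refine h1.trans_lt ?_
    rw [hm₀]
    linarith only [hmin]
  have hηu : 0 < η * u₀ := mul_pos hη hu₀
  obtain ⟨y₀, hy₀⟩ : ∃ y₀ : ℝ, y₀ = min m₀ (min (η * u₀) u₀) / 40000 := ⟨_, rfl⟩
  have hym : 0 < min m₀ (min (η * u₀) u₀) := lt_min hm0 (lt_min hηu hu₀)
  have y1 : 40000 * y₀ ≤ m₀ := by
    rw [hy₀]
    linarith only [min_le_left m₀ (min (η * u₀) u₀)]
  have y2 : 40000 * y₀ ≤ η * u₀ := by
    rw [hy₀]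
    linarith only [min_le_right m₀ (min (η * u₀) u₀), min_le_left (η * u₀) u₀]
  have y3 : 40000 * y₀ ≤ u₀ := by
    rw [hy₀]
    linarith only [min_le_right m₀ (min (η * u₀) u₀), min_le_right (η * u₀) u₀]
  refine ⟨y₀, by rw [hy₀]; positivity, ⌈16 * (κ + 1) + 64⌉₊, ?_⟩
  intro y ε nd hy hyy _ hεy hnd m S hpos P θ c L Sl gg hc hN
  obtain ⟨i₀, hi₀⟩ := hnv_at hpos hN zero_le_one
    (show 0 < η * u₀ / (16 * (K₀ + 2)) by positivity) (div_pos hm0 hK2) hmK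
  obtain ⟨ρ, hρ, hN1⟩ := hi₀ i₀ le_rfl
  have hκ8 : 0 < κ + 8 := by linarith only [hκ]
  refine ⟨min (ρ / (K₀ + 2)) ((1 / 2 : ℝ) ^ i₀ / (κ + 8)), lt_min (by positivity) (by positivity),
    ?_⟩
  intro A' Eb e q t u hq htg RL hrm hL0 hu hu1 c₀ c₁ hc₀ hc₁
  have hqρ : (K₀ + 2) * q < ρ := by
    have := hq.trans_le (min_le_left _ _)
    rw [lt_div_iff₀ hK2] at this
    linarith only [this]
  have hqi : (κ + 8) * q ≤ (1 / 2 : ℝ) ^ i₀ := by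
    have := (hq.trans_le (min_le_right _ _)).le
    rw [le_div_iff₀ hκ8] at this
    linarith only [this]
  have hall := Bas.all n (fun i hi => hnv_grid1 (D := D) (n := n) (c₀ := c₀) (c₁ := c₁) hκ hK₀ hη hu₀
    hm₀ hy (by linarith only [y1, hyy, hm0, hy]) (by linarith only [y2, hyy])
    (by linarith only [y3, hyy, hy]) hεy hnd hpos hc hN1 hqρ hqi htg RL hrm hL0 hu hu1 hi hc₀ hc₁)
  refine Bas.mono 0 hall ?_
  intro J _ F A hA B hBA hcB x e₀ i g ψ ψH Sv G H Ht hD hX hx hmesh _ hlv HD hi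
  refine hA i hi B hBA hcB x e₀ g ψ ψH Sv G H Ht hD ?_ hx hmesh hlv HD
  exact (Nat.le_ceil _).trans (by exact_mod_cast hX)

end Pool.D2N
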