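import Pool.Agent.H4.D2.C6g

/-!
# D2, `(1,2,2;3)`, case [1]: parallel coefficient vectors

`two_cop`: an event of the own sample and one copy holds for two copies with probability at least the
square. `c61`: if the coefficient vectors of the own sample and of a copy are large and nearly parallel
with probability at least `c₁`, then for one index `l` and one selection `f` of copies (functions of
the record) the labels `U l + ρ U (1 - l)`, `ρ = a (1 - l) / a l`, of the two samples agree with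
probability at least `c₁ ^ 4 / 2 - 9 c`.
-/

set_option autoImplicit false

namespace Pool.D2P

open Finset Real
open Pool.Agent.H49.Ent Pool.Agent.H32.Dense Pool.STK
open Pool.K2S
open Pool.KM7 (P2 P2_isLaw P2_pos)
open Pool.D2A Pool.D2N
open Pool.D2G (w2)

section two

variable {Ω σ ζ' : Type} [Fintype Ω]

open Classical in
/-- Independent copies with a property. -/
theorem ind_pow (ν : Ω → ℝ) (B : Ω → Prop) (M : ℕ) :
    ∑ g : Fin M → Ω, (∏ k, ν (g k)) *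
      @ite ℝ (∀ k, B (g k)) (Classical.propDecidable _) 1 0 =
      (∑ x, ν x * (if B x then (1 : ℝ) else 0)) ^ M := by
  have h1 : (∑ x, ν x * (if B x then (1 : ℝ) else 0)) ^ M =
      ∏ _k : Fin M, ∑ x, ν x * (if B x then (1 : ℝ) else 0) := by
    rw [Finset.prod_const, Finset.card_univ, Fintype.card_fin]
  rw [h1, Finset.prod_univ_sum, Fintype.piFinset_univ]
  refine Finset.sum_congr rfl fun g _ => ?_
  rw [Finset.prod_mul_distrib, Finset.prod_boole]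
  congr 1
  by_cases h : ∀ k, B (g k)
  · rw [if_pos h, if_pos fun k _ => h k]
  · rw [if_neg h, if_neg fun h' => h fun k => h' k (Finset.mem_univ k)]

theorem jen {p : Ω → ℝ} (hp : IsLaw p) (φ : Ω → ℝ) :
    (∑ ω, p ω * φ ω) ^ 2 ≤ ∑ ω, p ω * φ ω ^ 2 := by
  obtain ⟨T, hT⟩ : ∃ T, T = ∑ ω, p ω * φ ω := ⟨_, rfl⟩
  have h1 : 0 ≤ ∑ ω, p ω * (φ ω - T) ^ 2 :=
    Finset.sum_nonneg fun ω _ => mul_nonneg (hp.nonneg ω) (sq_nonneg _)
  have h2 : ∑ ω, p ω * (φ ω - T) ^ 2 = ∑ ω, p ω * φ ω ^ 2 - 2 * T * (∑ ω, p ω * φ ω) +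
      T ^ 2 * ∑ ω, p ω := by
    rw [Finset.mul_sum, Finset.mul_sum, ← Finset.sum_sub_distrib, ← Finset.sum_add_distrib]
    exact Finset.sum_congr rfl fun ω _ => by ring
  rw [h2, hp.sum_one, ← hT] at h1
  rw [← hT]
  nlinarith

/-- **Two copies** of the first sample. -/
theorem two_cop {N : ℕ} {p : Ω → ℝ} (hp : IsLaw p) (S : Ω → σ) (z' : Ω → ζ')
    (sd : Fin N → Bool) (js : Fin 2 → Fin N) (hjs : Function.Injective js)
    (hsd : ∀ k, sd (js k) = true) (B : Ω → Ω → Prop) :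
    law (PL p S z' sd) (fun w => B (cp sd (js 0) w) w.1.1) True ^ 2 ≤
      law (PL p S z' sd) (fun w => ∀ k, B (cp sd (js k) w) w.1.1) True := by
  classical
  have h1 := Pool.D2Con.own_eq (M := 1) hp S z' sd true (fun _ => js 0)
    (fun a b _ => Subsingleton.elim a b) (fun _ => hsd 0) (fun g ω => ∀ k, B (g k) ω)
  have h2 := Pool.D2Con.own_eq (M := 2) hp S z' sd true js hjs hsd (fun g ω => ∀ k, B (g k) ω)
  have e1 : law (PL p S z' sd) (fun w => B (cp sd (js 0) w) w.1.1) True =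
      law (PL p S z' sd) (fun w => ∀ _ : Fin 1, B (cp sd (js 0) w) w.1.1) True := by
    congr 1
    funext w
    exact propext ⟨fun h _ => h, fun h => h 0⟩
  have e2 : ∀ M : ℕ, ∑ ω, p ω * ∑ g : Fin M → Ω, (∏ k, cond p z' (z' ω) (g k)) *
      @ite ℝ (∀ k, B (g k) ω) (Classical.propDecidable _) 1 0 =
        ∑ ω, p ω * (∑ x, cond p z' (z' ω) x *
        (if B x ω then (1 : ℝ) else 0)) ^ M := by
    intro M
    refine Finset.sum_congr rfl fun ω _ => ?_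
    rw [ind_pow (cond p z' (z' ω)) (fun x => B x ω) M]
  have h3 : law (PL p S z' sd) (fun w => ∀ _ : Fin 1, B (cp sd (js 0) w) w.1.1) True =
      ∑ ω, p ω * (∑ x, cond p z' (z' ω) x * (if B x ω then (1 : ℝ) else 0)) := by
    have h4 := e2 1
    simp only [pow_one] at h4
    rw [← h4]
    exact h1
  have h5 : law (PL p S z' sd) (fun w => ∀ k, B (cp sd (js k) w) w.1.1) True =
      ∑ ω, p ω * (∑ x, cond p z' (z' ω) x * (if B x ω then (1 : ℝ) else 0)) ^ 2 := by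
    rw [← e2 2]
    exact h2
  rw [e1, h3, h5]
  exact jen hp _

end two

variable {Ω σ ζ ζ' ε : Type} [Fintype Ω]

/-- Two copies of the first sample. -/
def ca (k : Fin 2) : Fin 10 := ja (Fin.castLE (by norm_num) k)

/-- Two copies of the second sample. -/
def cb (k : Fin 2) : Fin 10 := jb (Fin.castLE (by norm_num) k)

theorem ca_inj : Function.Injective ca := fun a b h =>
  Fin.castLE_injective (by norm_num) (ja_inj h)

theorem cb_inj : Function.Injective cb := fun a b h =>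
  Fin.castLE_injective (by norm_num) (jb_inj h)

omit [Fintype Ω] in
theorem sm_ca (k : Fin 2) (v : Ω × Ω) : sm sd10 (ca k) v = v.1 := by
  unfold sm ca
  rw [sd_ja]
  rfl

omit [Fintype Ω] in
theorem sm_cb (k : Fin 2) (v : Ω × Ω) : sm sd10 (cb k) v = v.2 := by
  unfold sm cb
  rw [sd_jb]
  rfl

/-- **The labels of the two samples agree.** -/
structure Lbl (l : Fin 2) (μ μ₁ th : ℝ) (a a' : Fin 2 → ℝ) (U U' : Fin 2 → Fin 2 → ℤ) : Prop where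
  big : μ / 2 ≤ |a l|
  big' : μ / 2 ≤ |a' l|
  half : |a (1 - l)| ≤ 2 * |a l|
  half' : |a' (1 - l)| ≤ 2 * |a' l|
  rat : |a' (1 - l) / a' l - a (1 - l) / a l| ≤ 4 * μ₁ / μ ^ 2
  lab : ∀ j, |cmb l (a' (1 - l) / a' l) (fun i j => U' i j) j -
    cmb l (a (1 - l) / a l) (fun i j => U i j) j| ≤ th

/-- The event of one side. -/
def Bs (z : Ω → ζ) (e : Ω → ε) (A0 : ζ → ε → Fin 2 → ℝ) (μ μ₁ : ℝ) (x ω : Ω) : Prop :=
  Pll μ μ₁ (A0 (z ω) (e ω)) (A0 (z ω) (e x))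

/-- The event of both sides, with the index. -/
structure Gl (p : Ω → ℝ) (S : Ω → σ) (z : Ω → ζ) (z' : Ω → ζ') (e : Ω → ε) (E0 : ζ → ε → ℝ)
    (A0 : ζ → ε → Fin 2 → ℝ) (k : ℕ) (μ μ₁ : ℝ) (l : Fin 2)
    (w : (Ω × Ω) × (Fin 10 → Ω × Ω)) : Prop where
  c1 : ∀ i, Pll μ μ₁ (A0 (z w.1.1) (e w.1.1)) (A0 (z w.1.1) (e (cp sd10 (ca i) w)))
  c2 : ∀ i, Pll μ μ₁ (A0 (z w.1.1) (e w.1.1)) (A0 (z w.1.1) (e (cp sd10 (cb i) w)))
  mx : ∀ i, |A0 (z w.1.1) (e w.1.1) i| ≤ |A0 (z w.1.1) (e w.1.1) l|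
  s1 : 1 / 2 ^ k ≤ |E0 (z w.1.1) (e (cp sd10 (ca 1) w)) - E0 (z w.1.1) (e (cp sd10 (ca 0) w))|
  s2 : 1 / 2 ^ k ≤ |E0 (z w.1.1) (e (cp sd10 (cb 1) w)) - E0 (z w.1.1) (e (cp sd10 (cb 0) w))|

variable {p : Ω → ℝ} {S : Ω → σ} {z : Ω → ζ} {z' : Ω → ζ'} {e : Ω → ε} {E0 : ζ → ε → ℝ}
  {A0 T0 : ζ → ε → Fin 2 → ℝ} {b ek : Ω → ℤ} {P : Ω → Fin 2 → ℤ} {U : Ω → Fin 2 → Fin 2 → ℤ}
  {A s k K₀ : ℕ} {L K cE eF eH eP : ℝ}

/-- The event of both sides is large. -/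
theorem Gl_large (D : PrD p S z z' e E0 A0 T0 b ek P U A s k K₀ L K cE eF eH eP)
    {μ μ₁ c c₁ : ℝ} (hc : 0 < c) (hc₁ : 0 ≤ c₁)
    (hpar : c₁ ≤ law (PL p S z' sd10) (fun w =>
      Pll μ μ₁ (A0 (z w.1.1) (e w.1.1)) (A0 (z w.1.1) (e (cp sd10 (ja 0) w)))) True)
    (hn : Real.log 2 / c + Real.log (5 : ℕ) < (1 - cE / c) * Real.log K₀) :
    ∃ l : Fin 2, c₁ ^ 4 / 2 - 2 * c ≤ law (PL p S z' sd10) (Gl p S z z' e E0 A0 k μ μ₁ l) True := by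
  classical
  have hp := D.isLaw
  have hq := PL_isLaw hp S z' sd10
  have h1 := two_cop hp S z' sd10 ca ca_inj (fun k => sd_ja _) (Bs z e A0 μ μ₁)
  have h2 := both (M := 2) hp S z' sd10 ca cb ca_inj cb_inj (fun k => sd_ja _) (fun k => sd_jb _)
    (fun g ω => ∀ i, Bs z e A0 μ μ₁ (g i) ω)
  have h3 : c₁ ^ 4 ≤ law (PL p S z' sd10) (fun w => (∀ i, Bs z e A0 μ μ₁ (cp sd10 (ca i) w) w.1.1) ∧
      ∀ i, Bs z e A0 μ μ₁ (cp sd10 (cb i) w) w.1.2) True := by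
    have k1 : c₁ ≤ law (PL p S z' sd10) (fun w => Bs z e A0 μ μ₁ (cp sd10 (ca 0) w) w.1.1) True :=
      hpar
    have k2 : c₁ ^ 2 ≤ law (PL p S z' sd10)
        (fun w => ∀ i, Bs z e A0 μ μ₁ (cp sd10 (ca i) w) w.1.1) True :=
      (pow_le_pow_left₀ hc₁ k1 2).trans h1
    have k3 := (pow_le_pow_left₀ (by positivity) k2 2).trans h2
    calc c₁ ^ 4 = (c₁ ^ 2) ^ 2 := by ring
      _ ≤ _ := k3
  -- the index
  obtain ⟨H, hH⟩ : ∃ H : Fin 2 → (Ω × Ω) × (Fin 10 → Ω × Ω) → Prop, H = fun l w =>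
    ((∀ i, Bs z e A0 μ μ₁ (cp sd10 (ca i) w) w.1.1) ∧
      ∀ i, Bs z e A0 μ μ₁ (cp sd10 (cb i) w) w.1.2) ∧
      ∀ i, |A0 (z w.1.1) (e w.1.1) i| ≤ |A0 (z w.1.1) (e w.1.1) l| := ⟨_, rfl⟩
  have h4 := Pool.D2Con.law_or hq.nonneg (fun w => (∀ i, Bs z e A0 μ μ₁ (cp sd10 (ca i) w) w.1.1) ∧
      ∀ i, Bs z e A0 μ μ₁ (cp sd10 (cb i) w) w.1.2) (H 0) (H 1) (fun w _ hw => by
    rw [hH]
    rcases le_total |A0 (z w.1.1) (e w.1.1) 0| |A0 (z w.1.1) (e w.1.1) 1| with h | h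
    · exact Or.inr ⟨hw, Fin.forall_fin_two.mpr ⟨h, le_rfl⟩⟩
    · exact Or.inl ⟨hw, Fin.forall_fin_two.mpr ⟨le_rfl, h⟩⟩)
  have h5 : ∃ l, c₁ ^ 4 / 2 ≤ law (PL p S z' sd10) (H l) True := by
    rcases le_total (law (PL p S z' sd10) (H 0) True) (law (PL p S z' sd10) (H 1) True) with h | h
    · exact ⟨1, by linarith⟩
    · exact ⟨0, by linarith⟩
  obtain ⟨l, hl⟩ := h5
  refine ⟨l, ?_⟩
  have t1 := D.sepc hc hn (r := ca 1) (r' := ca 0) (fun h => by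
    have := ca_inj h
    exact absurd this (by decide))
  have t2 := D.sepc hc hn (r := cb 1) (r' := cb 0) (fun h => by
    have := cb_inj h
    exact absurd this (by decide))
  have h6 := Pool.D2Con.law_or hq.nonneg (H l) (Gl p S z z' e E0 A0 k μ μ₁ l)
    (fun w => (|E0 (z w.1.1) (e (cp sd10 (ca 1) w)) - E0 (z w.1.1) (e (cp sd10 (ca 0) w))| <
      1 / 2 ^ k) ∨ |E0 (z w.1.1) (e (cp sd10 (cb 1) w)) -
        E0 (z w.1.1) (e (cp sd10 (cb 0) w))| < 1 / 2 ^ k) (fun w hw hG => by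
    rw [hH] at hG
    obtain ⟨⟨g1, g2⟩, g3⟩ := hG
    obtain ⟨-, -, z2, -, -, e2⟩ := D.cpz hw (ca 0)
    by_cases hs : (|E0 (z w.1.1) (e (cp sd10 (ca 1) w)) - E0 (z w.1.1) (e (cp sd10 (ca 0) w))| <
      1 / 2 ^ k) ∨ |E0 (z w.1.1) (e (cp sd10 (cb 1) w)) -
        E0 (z w.1.1) (e (cp sd10 (cb 0) w))| < 1 / 2 ^ k
    · exact Or.inr hs
    · rw [not_or, not_lt, not_lt] at hs
      refine Or.inl ⟨g1, fun i => ?_, g3, hs.1, hs.2⟩
      have := g2 i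
      unfold Bs at this
      rw [z2, e2] at this
      exact this)
  have h7 := Pool.D2Con.law_or hq.nonneg
    (fun w => (|E0 (z w.1.1) (e (cp sd10 (ca 1) w)) - E0 (z w.1.1) (e (cp sd10 (ca 0) w))| <
      1 / 2 ^ k) ∨ |E0 (z w.1.1) (e (cp sd10 (cb 1) w)) -
        E0 (z w.1.1) (e (cp sd10 (cb 0) w))| < 1 / 2 ^ k) _ _ (fun w _ h => h)
  linarith

/-! ### The germs of the copies -/

/-- The constant part of the germ, read from the copies `j 0`, `j 1`. -/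
noncomputable def m0 (l : Fin 2) (E0 : ζ → ε → ℝ) (A0 : ζ → ε → Fin 2 → ℝ) (j : Fin 2 → Fin 10)
    (W : Fin 10 → ε × ℤ) (x : ζ) (i : Fin 2) : ℝ :=
  gr (fun k => E0 x (W (j k)).1) (fun k => ((W (j k)).2 : ℝ) / A0 x (W (j k)).1 l) i

/-- The linear part of the germ. -/
noncomputable def m1 (l : Fin 2) (E0 : ζ → ε → ℝ) (A0 T0 : ζ → ε → Fin 2 → ℝ)
    (j : Fin 2 → Fin 10) (W : Fin 10 → ε × ℤ) (x : ζ) (i t : Fin 2) : ℝ :=
  gr (fun k => E0 x (W (j k)).1) (fun k => -(T0 x (W (j k)).1 t / A0 x (W (j k)).1 l)) i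

/-- The ratio of a copy. -/
noncomputable def rt (l : Fin 2) (z : Ω → ζ) (e : Ω → ε) (A0 : ζ → ε → Fin 2 → ℝ) (r : Fin 10)
    (w : (Ω × Ω) × (Fin 10 → Ω × Ω)) : ℝ :=
  A0 (z w.1.1) (e (cp sd10 r w)) (1 - l) / A0 (z w.1.1) (e (cp sd10 r w)) l

/-- The digits of the combination. -/
noncomputable def dg (l : Fin 2) (ρ : ℝ) (U : Fin 2 → Fin 2 → ℤ) (j : Fin 2) : ℤ :=
  ⌊cmb l ρ (fun i j => (U i j : ℝ)) j⌋

theorem dg_le (l : Fin 2) (ρ : ℝ) (U : Fin 2 → Fin 2 → ℤ) (j : Fin 2) :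
    |(dg l ρ U j : ℝ) - cmb l ρ (fun i j => (U i j : ℝ)) j| ≤ 1 := by
  unfold dg
  have h1 := Int.floor_le (cmb l ρ (fun i j => (U i j : ℝ)) j)
  have h2 := Int.lt_floor_add_one (cmb l ρ (fun i j => (U i j : ℝ)) j)
  rw [abs_le]
  constructor <;> linarith

section germs

variable (D : PrD p S z z' e E0 A0 T0 b ek P U A s k K₀ L K cE eF eH eP)
  {μ μ₁ : ℝ} {l : Fin 2} (hμ : 0 < μ) (hμ1 : μ ≤ 1) (hμ₁ : 0 ≤ μ₁) (hμμ : 2 * μ₁ ≤ μ ^ 2)
include D hμ hμμ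

/-- The germ of one side, with the error `3 L 2^k (..)`. -/
theorem side {w : (Ω × Ω) × (Fin 10 → Ω × Ω)} (hw : 0 < PL p S z' sd10 w) {j : Fin 2 → Fin 10}
    {ω : Ω} (hω : 0 < p ω) (hj : ∀ i, sm sd10 (j i) w.1 = ω)
    (hA : μ ≤ |A0 (z w.1.1) (e w.1.1) l|)
    (hmx : ∀ i, |A0 (z w.1.1) (e w.1.1) i| ≤ |A0 (z w.1.1) (e w.1.1) l|)
    (hc : ∀ i, Pll μ μ₁ (A0 (z w.1.1) (e w.1.1)) (A0 (z w.1.1) (e (cp sd10 (j i) w))))
    (hs : 1 / 2 ^ k ≤ |E0 (z w.1.1) (e (cp sd10 (j 1) w)) -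
      E0 (z w.1.1) (e (cp sd10 (j 0) w))|) (i : Fin 2) :
    |(dg l (rt l z e A0 (j 0) w) (U ω) i : ℝ) - m0 l E0 A0 j (Wc e b w) (z w.1.1) i -
      ∑ t, m1 l E0 A0 T0 j (Wc e b w) (z w.1.1) i t * P ω t| ≤
      3 * L * 2 ^ k * (2 * (K + 4 * L ^ 2 * (2 * L * μ₁ / μ) * 2 ^ s / μ) / μ + 2 * L) := by
  have hL := D.hL
  have hbd := fun i => D.cpb hw (j i)
  have hbig := fun i => (hc i).big hμ hμμ hmx
  refine side1 (l := l) (a := fun i => A0 (z w.1.1) (Wc e b w (j i)).1)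
    (T := fun i => T0 (z w.1.1) (Wc e b w (j i)).1) (E := fun i => E0 (z w.1.1) (Wc e b w (j i)).1)
    (b := fun i => ((Wc e b w (j i)).2 : ℝ)) (P := fun t => (P ω t : ℝ))
    (U := fun i j => (U ω i j : ℝ)) (r := fun i => (dg l (rt l z e A0 (j 0) w) (U ω) i : ℝ))
    hL (one_le_pow₀ (by norm_num)) hμ D.hK (fun i => (hbig i).2.1) ?_ (fun i => (hbd i).1) hs
    (by positivity) (fun i t => D.bU _ hω i t) (fun i => ?_) (fun t => dg_le _ _ _ _) i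
  · exact par_two hμ hA ((hbd 0).2.1 l) ((hbd 1).2.1 l) (hc 0).2.2 (hc 1).2.2
  · have h := D.cpn hw (j i)
    rw [hj i] at h
    exact h

include hμ1 hμ₁

/-- The join of case [1] on the law of the pair with its copies. -/
theorem join_c61 {μ₃ c : ℝ} {g : ℕ} (hc : 0 < c)
    (hn : (10 * (eF + eH) + Real.log 2) / c + Real.log (3 * 2 : ℕ) < (1 - cE / c) * Real.log K₀)
    (hμ₃ : ((3 + 2 * L) * 2 ^ k) ^ 2 * (3 * ((2 * A : ℕ) : ℝ) / 2 ^ g +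
      eC L μ μ₁ K (2 ^ k) (2 ^ s) * (3 + 2 * L) / 2 ^ s) < μ₃)
    (hpos : 0 < ((s : ℝ) - g) * Real.log 2 - Real.log (2 * (2 * ((1 + 2 * L) *
      (eC L μ μ₁ K (2 ^ k) (2 ^ s) * (3 + 2 * L))) + 3 * ((2 * A : ℕ) : ℝ) + 1) + 1))
    (hN : (2 * eP + eF + 10 * (eF + eH)) + eH + Real.log 4 +
      3 * Real.log (2 * ((2 * A : ℕ) : ℝ) + 1) ≤ c * (((s : ℝ) - g) * Real.log 2 -
        Real.log (2 * (2 * ((1 + 2 * L) * (eC L μ μ₁ K (2 ^ k) (2 ^ s) * (3 + 2 * L))) +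
          3 * ((2 * A : ℕ) : ℝ) + 1) + 1))) :
    law (PL p S z' sd10) (fun w => Gl p S z z' e E0 A0 k μ μ₁ l w ∧ ∃ j,
      th1 (2 * A) s g L L (eC L μ μ₁ K (2 ^ k) (2 ^ s)) 2 μ₃ <
        (2 + 1) * |A0 (z w.1.1) (e w.1.1) l| *
          |(dg l (rt l z e A0 (cb 0) w) (U w.1.2) j : ℝ) -
            dg l (rt l z e A0 (ca 0) w) (U w.1.1) j|) True ≤ 6 * c := by
  have hp := D.isLaw
  have hL := D.hL
  have hL0 : 0 ≤ L := by linarith
  have hK := D.hK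
  have hM : (1 : ℝ) ≤ 2 ^ k := one_le_pow₀ (by norm_num)
  have hZ : (0 : ℝ) ≤ 2 ^ s := by positivity
  have hKs := eC_side (M := 2 ^ k) (Z := 2 ^ s) hL hμ hμ₁ hK hM hZ
  have hKg := eC_ge (M := 2 ^ k) (Z := 2 ^ s) hL hμ hμ1 hμ₁ hK hM hZ
  obtain ⟨Kj, hKj⟩ : ∃ Kj : ℝ, Kj = eC L μ μ₁ K (2 ^ k) (2 ^ s) := ⟨_, rfl⟩
  rw [← hKj] at hKs hKg hμ₃ hpos hN ⊢
  obtain ⟨Y, hY⟩ : ∃ Y : ℝ, Y = μ₁ * 2 ^ s / μ ^ 2 := ⟨_, rfl⟩
  rw [← hY] at hKg
  have hY0 : 0 ≤ Y := by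
    rw [hY]
    positivity
  have hL1 : L ≤ L ^ 2 := by nlinarith
  have hL2 : 1 ≤ L ^ 2 := by nlinarith
  have hKj0 : 0 ≤ Kj := le_trans (by positivity) hKg
  have hYμ : μ₁ / μ * 2 ^ s ≤ Y := by
    rw [hY, div_mul_eq_mul_div, div_le_div_iff₀ hμ (by positivity)]
    have : 0 ≤ μ₁ * 2 ^ s * μ * (1 - μ) := mul_nonneg (by positivity) (by linarith)
    nlinarith
  -- the facts of one point
  have key : ∀ w, 0 < PL p S z' sd10 w → Gl p S z z' e E0 A0 k μ μ₁ l w →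
      0 < p w.1.1 ∧ 0 < p w.1.2 ∧ S w.1.1 = S w.1.2 ∧ z w.1.2 = z w.1.1 ∧ e w.1.2 = e w.1.1 ∧
      μ ≤ |A0 (z w.1.1) (e w.1.1) l| ∧ |A0 (z w.1.1) (e w.1.1) l| ≤ L ∧
      |E0 (z w.1.1) (e w.1.1)| ≤ L ∧ |rt l z e A0 (ca 0) w| ≤ 2 ∧
      |A0 (z w.1.1) (e w.1.1) (1 - l) - A0 (z w.1.1) (e w.1.1) l * rt l z e A0 (ca 0) w| ≤
        2 * μ₁ / μ ∧
      |rt l z e A0 (cb 0) w - rt l z e A0 (ca 0) w| ≤ 4 * μ₁ / μ ^ 2 := by
    intro w hw hG
    obtain ⟨a1, a2, a3, -⟩ := PL_pos hp S z' sd10 hw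
    obtain ⟨-, -, z2, -, -, e2⟩ := D.cpz hw (ca 0)
    obtain ⟨b1, b2, b3⟩ := (hG.c1 0).big hμ hμμ hG.mx
    obtain ⟨-, b5, b6⟩ := (hG.c2 0).big hμ hμμ hG.mx
    obtain ⟨r1, r2⟩ := rat_le hμ b1 b2 (hG.c1 0).2.2
    obtain ⟨-, r4⟩ := rat_le hμ b1 b5 (hG.c2 0).2.2
    refine ⟨a1, a2, a3, z2, e2, b1, D.bA _ a1 l, D.bE _ a1, ?_, r1, ?_⟩
    · unfold rt
      rw [abs_div, div_le_iff₀ ((half_pos hμ).trans_le b2)]
      exact b3
    · unfold rt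
      have h1 : ∀ x y u : ℝ, |x - u| ≤ 2 * μ₁ / μ ^ 2 → |y - u| ≤ 2 * μ₁ / μ ^ 2 →
          |x - y| ≤ 4 * μ₁ / μ ^ 2 := by
        intro x y u h1 h2
        have e : 4 * μ₁ / μ ^ 2 = 2 * μ₁ / μ ^ 2 + 2 * μ₁ / μ ^ 2 := by ring
        rw [e]
        rw [abs_le] at h1 h2 ⊢
        constructor <;> linarith [h1.1, h1.2, h2.1, h2.2]
      exact h1 _ _ _ r4 r2
  have hj := join1 (PL_isLaw hp S z' sd10) (fun w => z w.1.1) (fun w => Wc e b w)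
    (fun w => (z w.1.1, e w.1.1)) (fun w => ek w.1.1) (fun x => E0 x.1 x.2)
    (fun _ x => A0 x.1 x.2 l) (fun _ x t => 2 * T0 x.1 x.2 t) (fun w => 2 * b w.1.1)
    (m0 l E0 A0 ca) (m0 l E0 A0 cb) (m1 l E0 A0 T0 ca) (m1 l E0 A0 T0 cb)
    (fun w => P w.1.1) (fun w => dg l (rt l z e A0 (ca 0) w) (U w.1.1))
    (fun w => dg l (rt l z e A0 (cb 0) w) (U w.1.2)) (fun w => tq P w.1)
    (Gl p S z z' e E0 A0 k μ μ₁ l) (A := 2 * A) (s := s) (g := g) (k := k) (R := L) (B := L)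
    (K := Kj) (m := 2) (μ := μ₃) (c := c) (e1 := 2 * eP + eF + 10 * (eF + eH)) (eH := eH)
    (i := 10 * (eF + eH)) (ρ := (1 - cE / c) * Real.log K₀)
    (by have := D.hA; omega) hL0 hL0 hKj0 (by norm_num) hc (fun w hw => D.hP hw)
    (fun w hw hG => ⟨(key w hw hG).2.2.2.2.2.2.2.1, D.cell _ (key w hw hG).1⟩)
    (fun w hw hG => (key w hw hG).2.2.2.2.2.2.1)
    ?_ ?_ ?_ ?_ ?_ D.hfull ?_ (D.hI (fun v => ek v.1)) (fun G' hG' => D.hE hc G' hG') hn hμ₃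
    hpos hN
  · rw [law_Pb]
    exact hj
  · -- the first germ
    intro w hw hG i
    obtain ⟨a1, a2, a3, z2, e2, b1, b2, b3, b4, b5, b6⟩ := key w hw hG
    have h := side D hμ hμμ hw a1 (fun i => sm_ca i w.1) b1 hG.mx hG.c1 hG.s1 i
    have h2 : 0 ≤ 3 * L * 2 ^ k * (2 * L / μ) * K := by positivity
    exact h.trans (by linarith)
  · -- the second germ
    intro w hw hG i
    obtain ⟨a1, a2, a3, z2, e2, b1, b2, b3, b4, b5, b6⟩ := key w hw hG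
    have h := side D hμ hμμ hw a2 (fun i => sm_cb i w.1) b1 hG.mx hG.c2 hG.s2 i
    have hN1 : |m1 l E0 A0 T0 cb (Wc e b w) (z w.1.1) i 1| ≤ 3 * L * 2 ^ k * (2 * L / μ) := by
      refine gr_le hL hM (D.cpb hw (cb 0)).1 hG.s2 (fun t => ?_) i
      have h3 := ((hG.c2 t).big hμ hμμ hG.mx).2.1
      have h4 := (D.cpb hw (cb t)).2.2 1
      have h5 : 0 < |A0 (z w.1.1) (Wc e b w (cb t)).1 l| := (half_pos hμ).trans_le h3
      rw [abs_neg, abs_div, div_le_div_iff₀ h5 hμ]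
      have h6 := mul_le_mul h4 (le_refl μ) hμ.le hL0
      have h7 := mul_le_mul_of_nonneg_left h3 (by positivity : (0 : ℝ) ≤ 2 * L)
      have h8 : 2 * L * |A0 (z w.1.1) (e (cp sd10 (cb t) w)) l| =
        2 * L * |A0 (z w.1.1) (Wc e b w (cb t)).1 l| := rfl
      rw [h8] at h7
      linarith
    have hmv := D.mov _ _ a1 a2 a3
    have h3 : |m1 l E0 A0 T0 cb (Wc e b w) (z w.1.1) i 1 *
        ((P w.1.2 1 : ℝ) - P w.1.1 1 - ((P w.1.2 0 : ℝ) - P w.1.1 0) *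
          E0 (z w.1.1) (e w.1.1))| ≤ 3 * L * 2 ^ k * (2 * L / μ) * K := by
      rw [abs_mul]
      exact mul_le_mul hN1 hmv (abs_nonneg _) (by positivity)
    have x0 : XE (E0 (z w.1.1) (e w.1.1)) 0 = 1 := by simp [XE]
    have x1 : XE (E0 (z w.1.1) (e w.1.1)) 1 = E0 (z w.1.1) (e w.1.1) := by simp [XE]
    have ht : (tq P w.1 : ℝ) = (P w.1.2 0 : ℝ) - P w.1.1 0 := by
      unfold tq
      push_cast
      ring
    rw [Fin.sum_univ_two] at h ⊢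
    dsimp only
    rw [x0, x1, ht]
    rw [abs_le] at h h3 ⊢
    constructor <;> linarith [h.1, h.2, h3.1, h3.2]
  · -- the own relation
    intro w hw hG
    obtain ⟨a1, a2, a3, z2, e2, b1, b2, b3, b4, b5, b6⟩ := key w hw hG
    have h := rel3 (l := l) (U := fun i j => (U w.1.1 i j : ℝ)) (U' := fun i j => (U w.1.2 i j : ℝ))
      (r := fun i => (dg l (rt l z e A0 (ca 0) w) (U w.1.1) i : ℝ))
      (r' := fun i => (dg l (rt l z e A0 (cb 0) w) (U w.1.2) i : ℝ)) hL hZ b4 b6 b3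
      (fun i j => D.bU _ a2 i j) (fun i => D.vel _ _ a1 a2 a3 i) (fun j => dg_le _ _ _ _)
      (fun j => dg_le _ _ _ _)
    have h2 : 2 * L ^ 2 * (4 * μ₁ / μ ^ 2) * 2 ^ s = 8 * L ^ 2 * Y := by
      rw [hY]
      ring
    rw [h2] at h
    exact h.trans (by linarith)
  · -- the own number
    intro w hw hG
    obtain ⟨a1, a2, a3, z2, e2, b1, b2, b3, b4, b5, b6⟩ := key w hw hG
    have h := rel4 (l := l) (U := fun i j => (U w.1.1 i j : ℝ)) (P := fun t => (P w.1.1 t : ℝ))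
      (T := T0 (z w.1.1) (e w.1.1)) (A := A0 (z w.1.1) (e w.1.1)) (b := (b w.1.1 : ℝ))
      (r := fun i => (dg l (rt l z e A0 (ca 0) w) (U w.1.1) i : ℝ)) hL hZ b5 b3 b2
      (fun i j => D.bU _ a1 i j) (D.num _ a1) (fun j => dg_le _ _ _ _)
    have h2 : 4 * L ^ 2 * (2 * μ₁ / μ) * 2 ^ s = 8 * L ^ 2 * (μ₁ / μ * 2 ^ s) := by ring
    have h3 : L ^ 2 * (μ₁ / μ * 2 ^ s) ≤ L ^ 2 * Y := mul_le_mul_of_nonneg_left hYμ (by positivity)
    rw [h2] at h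
    push_cast
    exact h.trans (by linarith)
  · -- the two-time relation
    intro w hw hG j
    obtain ⟨a1, a2, a3, z2, e2, b1, b2, b3, b4, b5, b6⟩ := key w hw hG
    have ht : (tq P w.1 : ℝ) = (P w.1.2 0 : ℝ) - P w.1.1 0 := by
      unfold tq
      push_cast
      ring
    have h := rel5 (l := l) (U := fun i j => (U w.1.1 i j : ℝ)) (U' := fun i j => (U w.1.2 i j : ℝ))
      (T := T0 (z w.1.1) (e w.1.1)) (A := A0 (z w.1.1) (e w.1.1)) (τ := (tq P w.1 : ℝ))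
      (r := fun i => (dg l (rt l z e A0 (ca 0) w) (U w.1.1) i : ℝ))
      (r' := fun i => (dg l (rt l z e A0 (cb 0) w) (U w.1.2) i : ℝ)) (K := K) (Z := 2 ^ s)
      hL b5 b6 b2
      (fun i j => D.bU _ a1 i j) (fun i j => D.bU _ a2 i j) (fun j => by
        rw [ht]
        exact D.rel _ _ a1 a2 a3 j) (fun j => dg_le _ _ _ _) (fun j => dg_le _ _ _ _) j
    have h2 : 2 * L * (2 * μ₁ / μ) * 2 ^ s = 4 * L * (μ₁ / μ * 2 ^ s) := by ring
    have h3 : L ^ 2 * (4 * μ₁ / μ ^ 2) * 2 ^ s = 4 * L ^ 2 * Y := by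
      rw [hY]
      ring
    have h4 : L * (μ₁ / μ * 2 ^ s) ≤ L ^ 2 * Y := mul_le_mul hL1 hYμ (by positivity) (by positivity)
    rw [h2, h3] at h
    exact h.trans (by linarith)
  · -- few bits
    refine le_trans (CH_mono_left (PL_isLaw hp S z' sd10).nonneg ?_) D.hb0
    intro w w' _ _ h
    simp only [Prod.mk.injEq] at h ⊢
    rw [h.1]

/-- **Case [1].** The labels of the two samples agree, with copies which are functions of the record. -/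
theorem c61 {μ₃ c c₁ : ℝ} {g : ℕ} (hc : 0 < c) (hc₁ : 0 ≤ c₁)
    (hpar : c₁ ≤ law (PL p S z' sd10) (fun w =>
      Pll μ μ₁ (A0 (z w.1.1) (e w.1.1)) (A0 (z w.1.1) (e (cp sd10 (ja 0) w)))) True)
    (hn : (10 * (eF + eH) + Real.log 2) / c + Real.log (3 * 2 : ℕ) < (1 - cE / c) * Real.log K₀)
    (hμ₃ : ((3 + 2 * L) * 2 ^ k) ^ 2 * (3 * ((2 * A : ℕ) : ℝ) / 2 ^ g +
      eC L μ μ₁ K (2 ^ k) (2 ^ s) * (3 + 2 * L) / 2 ^ s) < μ₃)
    (hpos : 0 < ((s : ℝ) - g) * Real.log 2 - Real.log (2 * (2 * ((1 + 2 * L) *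
      (eC L μ μ₁ K (2 ^ k) (2 ^ s) * (3 + 2 * L))) + 3 * ((2 * A : ℕ) : ℝ) + 1) + 1))
    (hN : (2 * eP + eF + 10 * (eF + eH)) + eH + Real.log 4 +
      3 * Real.log (2 * ((2 * A : ℕ) : ℝ) + 1) ≤ c * (((s : ℝ) - g) * Real.log 2 -
        Real.log (2 * (2 * ((1 + 2 * L) * (eC L μ μ₁ K (2 ^ k) (2 ^ s) * (3 + 2 * L))) +
          3 * ((2 * A : ℕ) : ℝ) + 1) + 1)))
    (hτ0 : 0 < s * Real.log 2 - Real.log 3)
    (hτ : eP + Real.log (2 * A + 1) + Real.log 2 ≤ c * (s * Real.log 2 - Real.log 3)) :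
    ∃ (l : Fin 2) (f : ζ' → Ω), (∀ ω, 0 < p ω → 0 < p (f (z' ω)) ∧ z' (f (z' ω)) = z' ω) ∧
      c₁ ^ 4 / 2 - 9 * c ≤ law (P2 p S) (fun v => Lbl l μ μ₁
        (th1 (2 * A) s g L L (eC L μ μ₁ K (2 ^ k) (2 ^ s)) 2 μ₃ / (3 * μ) + 2)
        (A0 (z v.1) (e (f (z' v.1)))) (A0 (z v.2) (e (f (z' v.2)))) (U v.1) (U v.2)) True := by
  classical
  have hp := D.isLaw
  have hq := PL_isLaw hp S z' sd10
  have heH : 0 ≤ eH := (CH_nonneg hp.nonneg _ _).trans D.few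
  have heF : 0 ≤ eF := by
    have h1 : CH p e z' ≤ CH p e z := CH_mono_cond hp.nonneg fun _ _ a a' h => D.dz _ _ a a' h
    linarith [D.free]
  have hn5 : Real.log 2 / c + Real.log (5 : ℕ) < (1 - cE / c) * Real.log K₀ := by
    refine lt_of_le_of_lt (add_le_add ?_ ?_) hn
    · exact div_le_div_of_nonneg_right (by linarith) hc.le
    · exact Real.log_le_log (by norm_num) (by norm_num)
  obtain ⟨l, hl⟩ := Gl_large (μ := μ) (μ₁ := μ₁) D hc hc₁ hpar hn5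
  refine ⟨l, ?_⟩
  have hj := join_c61 D hμ hμ1 hμ₁ hμμ (l := l) hc hn hμ₃ hpos hN
  obtain ⟨T, hT⟩ : ∃ T : ℝ, T = th1 (2 * A) s g L L (eC L μ μ₁ K (2 ^ k) (2 ^ s)) 2 μ₃ := ⟨_, rfl⟩
  rw [← hT] at hj ⊢
  -- the event of the pair and its copies
  obtain ⟨B, hB⟩ : ∃ B : Ω × Ω → (Fin 10 → Ω) → Prop, B = fun v g => ¬ Lbl l μ μ₁ (T / (3 * μ) + 2)
    (A0 (z v.1) (e (g (ja 0)))) (A0 (z v.2) (e (g (jb 0)))) (U v.1) (U v.2) := ⟨_, rfl⟩
  have hgood : c₁ ^ 4 / 2 - 8 * c ≤ law (PL p S z' sd10) (fun w => ¬ B w.1 (fun r => cp sd10 r w))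
      True := by
    have h1 := Pool.D2Con.law_or hq.nonneg (Gl p S z z' e E0 A0 k μ μ₁ l)
      (fun w => ¬ B w.1 (fun r => cp sd10 r w))
      (fun w => Gl p S z z' e E0 A0 k μ μ₁ l w ∧ ∃ j, T <
        (2 + 1) * |A0 (z w.1.1) (e w.1.1) l| *
          |(dg l (rt l z e A0 (cb 0) w) (U w.1.2) j : ℝ) -
            dg l (rt l z e A0 (ca 0) w) (U w.1.1) j|) (fun w hw hG => by
      by_cases hex : ∃ j, T < (2 + 1) * |A0 (z w.1.1) (e w.1.1) l| *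
          |(dg l (rt l z e A0 (cb 0) w) (U w.1.2) j : ℝ) -
            dg l (rt l z e A0 (ca 0) w) (U w.1.1) j|
      · exact Or.inr ⟨hG, hex⟩
      · refine Or.inl ?_
        push Not at hex
        obtain ⟨-, -, z2, -, -, e2⟩ := D.cpz hw (ca 0)
        obtain ⟨b1, b2, b3⟩ := (hG.c1 0).big hμ hμμ hG.mx
        obtain ⟨-, b5, b6⟩ := (hG.c2 0).big hμ hμμ hG.mx
        obtain ⟨-, r2⟩ := rat_le hμ b1 b2 (hG.c1 0).2.2
        obtain ⟨-, r4⟩ := rat_le hμ b1 b5 (hG.c2 0).2.2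
        have hr : |rt l z e A0 (cb 0) w - rt l z e A0 (ca 0) w| ≤ 4 * μ₁ / μ ^ 2 := by
          have h1 : ∀ x y u : ℝ, |x - u| ≤ 2 * μ₁ / μ ^ 2 → |y - u| ≤ 2 * μ₁ / μ ^ 2 →
              |x - y| ≤ 4 * μ₁ / μ ^ 2 := by
            intro x y u h1 h2
            have e : 4 * μ₁ / μ ^ 2 = 2 * μ₁ / μ ^ 2 + 2 * μ₁ / μ ^ 2 := by ring
            rw [e]
            rw [abs_le] at h1 h2 ⊢
            constructor <;> linarith [h1.1, h1.2, h2.1, h2.2]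
          exact h1 _ _ _ r4 r2
        rw [hB]
        dsimp only
        rw [not_not, z2]
        refine ⟨b2, b5, b3, b6, hr, fun j => ?_⟩
        have h2 := hex j
        have h3 : |(dg l (rt l z e A0 (cb 0) w) (U w.1.2) j : ℝ) -
            dg l (rt l z e A0 (ca 0) w) (U w.1.1) j| ≤ T / (3 * μ) := by
          rw [le_div_iff₀ (by positivity)]
          have h4 := mul_le_mul_of_nonneg_right b1 (abs_nonneg
            ((dg l (rt l z e A0 (cb 0) w) (U w.1.2) j : ℝ) -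
              dg l (rt l z e A0 (ca 0) w) (U w.1.1) j))
          linarith
        have h4 := dg_le l (rt l z e A0 (cb 0) w) (U w.1.2) j
        have h5 := dg_le l (rt l z e A0 (ca 0) w) (U w.1.1) j
        show |cmb l (rt l z e A0 (cb 0) w) (fun i j => (U w.1.2 i j : ℝ)) j -
          cmb l (rt l z e A0 (ca 0) w) (fun i j => (U w.1.1 i j : ℝ)) j| ≤ T / (3 * μ) + 2
        rw [abs_le] at h3 h4 h5 ⊢
        constructor <;> linarith [h3.1, h3.2, h4.1, h4.2, h5.1, h5.2])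
    linarith
  -- the selection
  obtain ⟨f, hf1, hf2⟩ := Pool.D2S.sel_copy (κ := Fin 5) hp S z' sd10
    (fun r => ⟨r.1 % 5, Nat.mod_lt _ (by norm_num)⟩) (by decide) B
  refine ⟨f 0, fun ω hω => hf1 0 ω hω, ?_⟩
  have h1 : law (PL p S z' sd10) (fun w => B w.1 (fun r => cp sd10 r w)) True =
      1 - law (PL p S z' sd10) (fun w => ¬ B w.1 (fun r => cp sd10 r w)) True := by
    have := law_not hq (fun w => B w.1 (fun r => cp sd10 r w))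
    linarith
  have h2 : law (P2 p S) (fun v => z' v.1 = z' v.2) True ≤ c := by
    have k1 := D.tau (g := s) le_rfl
    have k2 : law (P2 p S) (fun v => z' v.1 = z' v.2) True ≤
        law (PL p S z' sd10) (fun w => |(tq P w.1 : ℝ)| < 2 ^ s / 2 ^ s) True := by
      have k3 : law (P2 p S) (fun v => z' v.1 = z' v.2) True =
          law (PL p S z' sd10) (fun w => z' w.1.1 = z' w.1.2) True :=
        ((PL_base hp S z' sd10).law (fun v => z' v.1 = z' v.2) True).symm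
      rw [k3]
      refine Pool.D2Con.law_mono' hq.nonneg fun w hw h => ?_
      obtain ⟨a1, a2, -, -⟩ := PL_pos hp S z' sd10 hw
      have k4 := D.dP _ _ a1 a2 h
      unfold tq
      rw [k4]
      simp
    have k5 : law (PL p S z' sd10) (fun w => |(tq P w.1 : ℝ)| < 2 ^ s / 2 ^ s) True ≤ c := by
      refine le_of_mul_le_mul_right (k1.trans hτ) hτ0
    exact k2.trans k5
  have h3 : law (P2 p S) (fun v => B v (fun r => f ⟨r.1 % 5, Nat.mod_lt _ (by norm_num)⟩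
      (z' (sm sd10 r v)))) True ≤ 1 - (c₁ ^ 4 / 2 - 8 * c) + c := by
    refine hf2.trans (add_le_add ?_ h2)
    have : Pe (PL p S z' sd10) (fun w => B w.1 (fun r => cp sd10 r w)) =
      law (PL p S z' sd10) (fun w => B w.1 (fun r => cp sd10 r w)) True := rfl
    rw [this, h1]
    linarith
  have h4 := law_not (P2_isLaw hp S) (fun v => Lbl l μ μ₁ (T / (3 * μ) + 2)
    (A0 (z v.1) (e (f 0 (z' v.1)))) (A0 (z v.2) (e (f 0 (z' v.2)))) (U v.1) (U v.2))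
  have h5 : law (P2 p S) (fun v => B v (fun r => f ⟨r.1 % 5, Nat.mod_lt _ (by norm_num)⟩
      (z' (sm sd10 r v)))) True = law (P2 p S) (fun v => ¬ Lbl l μ μ₁ (T / (3 * μ) + 2)
    (A0 (z v.1) (e (f 0 (z' v.1)))) (A0 (z v.2) (e (f 0 (z' v.2)))) (U v.1) (U v.2)) True := by
    rw [hB]
    have e1 : ∀ v : Ω × Ω, sm sd10 (ja 0) v = v.1 := fun v => sm_ca 0 v
    have e2 : ∀ v : Ω × Ω, sm sd10 (jb 0) v = v.2 := fun v => sm_cb 0 v
    simp only [e1, e2]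
    rfl
  rw [← h5] at h4
  linarith

end germs

end Pool.D2P
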