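import Pool.Agent.H4.D2.C61p
import Pool.Agent.H90.D2.Cas

/-!
# D2, `(1,2,2;3)`, both rough: all cases in one form

`c6_all`: for a law with `PrD` and functionals which are not small there are directions
`al : ζ' → Fin 2 → ℝ`, bounded and not small, such that for two samples of one line with
probability at least `2^(-34)` the slopes agree in the directions `al` of both samples.
-/

set_option autoImplicit false

namespace Pool.D2P

open Finset Real
open Pool.Agent.H49.Ent Pool.Agent.H32.Dense Pool.STK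
open Pool.K2S
open Pool.KM7 (P2 P2_isLaw P2_pos)
open Pool.D2A Pool.D2N
open Pool.D2G (w2)

/-- The slopes agree in the direction `a`, if the labels agree. -/
theorem al_dif {l : Fin 2} {a : Fin 2 → ℝ} {ρ' : ℝ} {u u' : Fin 2 → Fin 2 → ℝ} {j : Fin 2}
    {L M th η : ℝ} (hL : 0 ≤ L) (ha0 : a l ≠ 0) (ha : |a l| ≤ L) (hu : |u' (1 - l) j| ≤ M)
    (hη : |ρ' - a (1 - l) / a l| ≤ η)
    (hlab : |cmb l ρ' u' j - cmb l (a (1 - l) / a l) u j| ≤ th) :
    |∑ i, a i * (u' i j - u i j)| ≤ L * (th + η * M) := by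
  have e1 : ∑ i, a i * (u' i j - u i j) = a l * ((cmb l ρ' u' j - cmb l (a (1 - l) / a l) u j) -
      (ρ' - a (1 - l) / a l) * u' (1 - l) j) := by
    rw [sum_l l]
    unfold cmb
    field_simp
    ring
  rw [e1, abs_mul]
  have h1 : |(cmb l ρ' u' j - cmb l (a (1 - l) / a l) u j) -
      (ρ' - a (1 - l) / a l) * u' (1 - l) j| ≤ th + η * M := by
    refine (abs_sub _ _).trans ?_
    refine add_le_add hlab ?_
    rw [abs_mul]
    exact mul_le_mul hη hu (abs_nonneg _) ((abs_nonneg _).trans hη)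
  exact mul_le_mul ha h1 (abs_nonneg _) hL

/-- The slopes agree in the directions of both samples, if the labels agree. -/
theorem Lbl.al {l : Fin 2} {μ μ₁ th L M : ℝ} {a a' : Fin 2 → ℝ} {U U' : Fin 2 → Fin 2 → ℤ}
    (h : Lbl l μ μ₁ th a a' U U') (hμ : 0 < μ) (hL : 0 ≤ L) (ha : ∀ i, |a i| ≤ L)
    (ha' : ∀ i, |a' i| ≤ L) (hU : ∀ i j, |(U i j : ℝ)| ≤ M) (hU' : ∀ i j, |(U' i j : ℝ)| ≤ M)
    (j : Fin 2) :
    |∑ i, a i * ((U' i j : ℝ) - U i j)| ≤ L * (th + 4 * μ₁ / μ ^ 2 * M) ∧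
      |∑ i, a' i * ((U' i j : ℝ) - U i j)| ≤ L * (th + 4 * μ₁ / μ ^ 2 * M) := by
  have h0 : a l ≠ 0 := fun h0 => by
    have := h.big
    rw [h0, abs_zero] at this
    linarith
  have h0' : a' l ≠ 0 := fun h0' => by
    have := h.big'
    rw [h0', abs_zero] at this
    linarith
  constructor
  · exact al_dif (u := fun i j => (U i j : ℝ)) (u' := fun i j => (U' i j : ℝ)) hL h0 (ha l)
      (hU' _ _) h.rat (h.lab j)
  · have h1 := al_dif (l := l) (a := a') (ρ' := a (1 - l) / a l) (u := fun i j => (U' i j : ℝ))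
      (u' := fun i j => (U i j : ℝ)) (j := j) (L := L) (M := M) (th := th)
      (η := 4 * μ₁ / μ ^ 2) hL h0' (ha' l) (hU _ _) (by
        rw [abs_sub_comm]
        exact h.rat) (by
        rw [abs_sub_comm]
        exact h.lab j)
    refine le_trans (le_of_eq ?_) h1
    rw [← abs_neg, ← Finset.sum_neg_distrib]
    congr 1
    refine Finset.sum_congr rfl fun i _ => ?_
    ring

/-- The error in powers of two. -/
theorem al_pow {L : ℝ} {l x x₁ y s : ℕ} (hL0 : 0 ≤ L) (hL2 : L ≤ 2 ^ l)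
    (hx : 2 * l + 2 * x + y + 3 ≤ x₁) :
    L * (2 ^ s / 2 ^ (y + l + 1) + 4 * (1 / 2 ^ x₁) / (1 / 2 ^ x) ^ 2 * (L * 2 ^ s)) ≤
      2 ^ s / 2 ^ y := by
  have hS : (0 : ℝ) < 2 ^ s := by positivity
  have h1 : L * (2 ^ s / 2 ^ (y + l + 1)) ≤ 2 ^ s / 2 ^ y / 2 := by
    have h2 : L * (2 ^ s / 2 ^ (y + l + 1)) ≤ 2 ^ l * (2 ^ s / 2 ^ (y + l + 1)) :=
      mul_le_mul_of_nonneg_right hL2 (by positivity)
    refine h2.trans (le_of_eq ?_)
    rw [pow_add, pow_add, pow_one]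
    field_simp
  have h3 : L * (4 * (1 / 2 ^ x₁) / (1 / 2 ^ x) ^ 2 * (L * 2 ^ s)) ≤ 2 ^ s / 2 ^ y / 2 := by
    have h4 : L ^ 2 ≤ (2 ^ l) ^ 2 := pow_le_pow_left₀ hL0 hL2 2
    have e1 : L * (4 * (1 / 2 ^ x₁) / (1 / 2 ^ x) ^ 2 * (L * 2 ^ s)) =
        L ^ 2 * (4 * (2 ^ x) ^ 2 / 2 ^ x₁ * 2 ^ s) := by
      field_simp
    rw [e1]
    have h5 : L ^ 2 * (4 * (2 ^ x) ^ 2 / 2 ^ x₁ * 2 ^ s) ≤
        (2 ^ l) ^ 2 * (4 * (2 ^ x) ^ 2 / 2 ^ x₁ * 2 ^ s) :=
      mul_le_mul_of_nonneg_right h4 (by positivity)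
    refine h5.trans ?_
    have h6 : (2 : ℝ) ^ (2 * l + 2 * x + y + 3) ≤ 2 ^ x₁ :=
      pow_le_pow_right₀ (by norm_num) hx
    have e2 : (2 : ℝ) ^ (2 * l + 2 * x + y + 3) =
        8 * ((2 ^ l) ^ 2 * (2 ^ x) ^ 2 * 2 ^ y) := by
      rw [pow_add, pow_add, pow_add, mul_comm 2 l, mul_comm 2 x, pow_mul, pow_mul]
      ring
    rw [e2] at h6
    have e3 : (2 ^ l : ℝ) ^ 2 * (4 * (2 ^ x) ^ 2 / 2 ^ x₁ * 2 ^ s) =
        2 ^ s * (4 * ((2 ^ l) ^ 2 * (2 ^ x) ^ 2)) / 2 ^ x₁ := by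
      ring
    rw [e3, div_le_iff₀ (by positivity)]
    have e4 : (2 : ℝ) ^ s / 2 ^ y / 2 * 2 ^ x₁ = 2 ^ s * (2 ^ x₁ / (2 * 2 ^ y)) := by
      field_simp
    rw [e4]
    refine mul_le_mul_of_nonneg_left ?_ hS.le
    rw [le_div_iff₀ (by positivity)]
    linarith
  rw [mul_add]
  linarith

variable {Ω σ ζ ζ' ε : Type} [Fintype Ω]
  {p : Ω → ℝ} {S : Ω → σ} {z : Ω → ζ} {z' : Ω → ζ'} {e : Ω → ε} {E0 : ζ → ε → ℝ}
  {A0 T0 : ζ → ε → Fin 2 → ℝ} {b ek : Ω → ℤ} {P : Ω → Fin 2 → ℤ} {U : Ω → Fin 2 → Fin 2 → ℤ}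
  {A s k K₀ : ℕ} {L K cE eF eH eP : ℝ}

/-- The own functional of the larger space. -/
theorem own_small (D : PrD p S z z' e E0 A0 T0 b ek P U A s k K₀ L K cE eF eH eP) (μA : ℝ) :
    law (PL p S z' sd10) (fun w => ∀ i, |A0 (z w.1.1) (e w.1.1) i| < μA) True =
      law p (fun ω => ∀ i, |A0 (z ω) (e ω) i| < μA) True := by
  have h4 := (PL_base D.isLaw S z' sd10).law (fun v => ∀ i, |A0 (z v.1) (e v.1) i| < μA) True
  have h5 := (Pool.D2Con.P2_side D.isLaw S true).law (fun ω => ∀ i, |A0 (z ω) (e ω) i| < μA) True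
  exact h4.trans h5

/-- The functional of a copy. -/
theorem cop_small (D : PrD p S z z' e E0 A0 T0 b ek P U A s k K₀ L K cE eF eH eP) (μA : ℝ) :
    law (PL p S z' sd10) (fun w => ∀ i, |A0 (z w.1.1) (e (cp sd10 (ja 0) w)) i| < μA) True =
      law p (fun ω => ∀ i, |A0 (z ω) (e ω) i| < μA) True := by
  rw [← own_small D μA]
  have e1 := D.xo (M := 0) (Fin.elim0) (fun a => a.elim0) (fun y _ x => ∀ i, |A0 y x i| < μA)
  have e2 := D.xc (M := 0) (Fin.elim0) 0 (fun a a' _ => Subsingleton.elim (α := Fin 1) a a')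
    (fun y _ x => ∀ i, |A0 y x i| < μA)
  exact e2.trans e1.symm

/-- If nearly parallel large pairs are rare then nearly parallel pairs are rare. -/
theorem w2_small (D : PrD p S z z' e E0 A0 T0 b ek P U A s k K₀ L K cE eF eH eP)
    {μA μ₁ c₀ c₁ : ℝ} (h0 : law p (fun ω => ∀ i, |A0 (z ω) (e ω) i| < μA) True ≤ c₀)
    (h1 : law (PL p S z' sd10) (fun w => Pll μA μ₁
      (A0 (z w.1.1) (e w.1.1)) (A0 (z w.1.1) (e (cp sd10 (ja 0) w)))) True ≤ c₁) :
    law (PL p S z' sd10) (fun w => |w2 (A0 (z w.1.1) (e w.1.1))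
      (A0 (z w.1.1) (Wc e b w (ja 0)).1)| < μ₁) True ≤ c₁ + (c₀ + c₀) := by
  have hQ := PL_isLaw D.isLaw S z' sd10
  have hq := hQ.nonneg
  have h2 := own_small D μA
  have h3 := cop_small D μA
  obtain ⟨F0, hF0⟩ : ∃ F : (Ω × Ω) × (Fin 10 → Ω × Ω) → Prop, F = fun w => Pll μA μ₁
      (A0 (z w.1.1) (e w.1.1)) (A0 (z w.1.1) (e (cp sd10 (ja 0) w))) := ⟨_, rfl⟩
  obtain ⟨F1, hF1⟩ : ∃ F : (Ω × Ω) × (Fin 10 → Ω × Ω) → Prop, F = fun w =>
    ∀ i, |A0 (z w.1.1) (e w.1.1) i| < μA := ⟨_, rfl⟩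
  obtain ⟨F2, hF2⟩ : ∃ F : (Ω × Ω) × (Fin 10 → Ω × Ω) → Prop, F = fun w =>
    ∀ i, |A0 (z w.1.1) (e (cp sd10 (ja 0) w)) i| < μA := ⟨_, rfl⟩
  rw [← hF0] at h1
  rw [← hF1] at h2
  rw [← hF2] at h3
  have o1 := Pb_or hq F0 (fun w => F1 w ∨ F2 w)
  have o2 := Pb_or hq F1 F2
  rw [← law_Pb, ← law_Pb, ← law_Pb] at o1 o2
  have h4 := law_le hq (A := fun w => |w2 (A0 (z w.1.1) (e w.1.1))
      (A0 (z w.1.1) (Wc e b w (ja 0)).1)| < μ₁) (B := fun w => F0 w ∨ (F1 w ∨ F2 w))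
    (fun w _ h => by
      by_cases c1 : F1 w
      · exact Or.inr (Or.inl c1)
      by_cases c2 : F2 w
      · exact Or.inr (Or.inr c2)
      left
      rw [hF1] at c1
      rw [hF2] at c2
      rw [hF0]
      refine ⟨?_, ?_, le_of_lt h⟩
      · by_contra hcon
        exact c1 fun i => not_le.mp fun h' => hcon ⟨i, h'⟩
      · by_contra hcon
        exact c2 fun i => not_le.mp fun h' => hcon ⟨i, h'⟩)
  linarith

/-- **All cases in one form.** -/
theorem c6_all (D : PrD p S z z' e E0 A0 T0 b ek P U A s k K₀ L K cE eF eH eP)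
    {l x x₁ y : ℕ} (hL2 : L ≤ 2 ^ l) (hA2 : (A : ℝ) ≤ 2 ^ l) (hK2 : K ≤ 2 ^ l)
    (hx₁ : 2 * (14 * l + 36 + 4 * x + 3 * k + y) ≤ x₁) (hs : 600 * x₁ ≤ s)
    (heF : 0 ≤ eF) (heH : 0 ≤ eH) (heP : 0 ≤ eP)
    (hn : 2 ^ 38 * (10 * (eF + eH) + Real.log 2) + Real.log 9 < (1 - 2 ^ 38 * cE) * Real.log K₀)
    (hN : 2 ^ 38 * (2 * eP + 11 * eF + 11 * eH + (3 * l + 11) * Real.log 2) ≤
      x₁ / 2 * Real.log 2)
    (h0 : law p (fun ω => ∀ i, |A0 (z ω) (e ω) i| < 1 / 2 ^ x) True ≤ 1 / 512) :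
    ∃ al : ζ' → Fin 2 → ℝ, (∀ w, (∀ i, |al w i| ≤ L) ∧ ∃ i, 1 / 2 ^ x / 2 ≤ |al w i|) ∧
      1 / 2 ^ 34 ≤ law (P2 p S) (fun v => ∀ j,
        |∑ i, al (z' v.1) i * ((U v.2 i j : ℝ) - U v.1 i j)| ≤ 2 ^ s / 2 ^ y ∧
        |∑ i, al (z' v.2) i * ((U v.2 i j : ℝ) - U v.1 i j)| ≤ 2 ^ s / 2 ^ y) True := by
  have hp := D.isLaw
  have hL1 := D.hL
  have hL0 : 0 ≤ L := by linarith
  have hl2 : 0 < Real.log 2 := Real.log_pos (by norm_num)
  have hl0 : (0 : ℝ) ≤ l := Nat.cast_nonneg _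
  have hx1' : (72 : ℝ) ≤ x₁ := by
    have : 72 ≤ x₁ := by omega
    exact_mod_cast this
  have hlK : 0 ≤ Real.log K₀ := Real.log_nonneg (by exact_mod_cast D.hK₀)
  have hcE := D.hcE
  have hxh : (1 : ℝ) / 2 ^ x / 2 ≤ 1 := by
    have h1 : (1 : ℝ) / 2 ^ x ≤ 1 := by
      rw [div_le_one (by positivity)]
      exact one_le_pow₀ (by norm_num)
    linarith
  have h9 : Real.log (3 * 2 : ℕ) ≤ Real.log 9 := Real.log_le_log (by norm_num) (by norm_num)
  rcases le_or_gt (1 / 2 ^ 8 : ℝ) (law (PL p S z' sd10) (fun w => Pll (1 / 2 ^ x) (1 / 2 ^ x₁)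
      (A0 (z w.1.1) (e w.1.1)) (A0 (z w.1.1) (e (cp sd10 (ja 0) w)))) True) with hm | hm
  · -- nearly parallel functionals
    have hsx : (x₁ : ℝ) * 600 ≤ s := by
      have : x₁ * 600 ≤ s := by omega
      exact_mod_cast this
    obtain ⟨i, f, hf, hlaw⟩ := c61_pow D (l := l) (x := x) (x₁ := x₁) (y := y + l + 1)
      (c := 1 / 2 ^ 38) (c₁ := 1 / 2 ^ 8) hL2 hA2 hK2 (by omega) (by omega) (by positivity)
      (by positivity) hm (by
        have e1 : (10 * (eF + eH) + Real.log 2) / (1 / 2 ^ 38) =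
          2 ^ 38 * (10 * (eF + eH) + Real.log 2) := by ring
        have e2 : cE / (1 / 2 ^ 38) = 2 ^ 38 * cE := by ring
        rw [e1, e2]
        linarith)
      (by
        rw [div_mul_eq_mul_div, le_div_iff₀ (by positivity), mul_comm, one_mul]
        exact hN)
      (by
        rw [div_mul_eq_mul_div, le_div_iff₀ (by positivity), mul_comm, one_mul]
        have h1 : eP + (l + 3) * Real.log 2 ≤
            2 * eP + 11 * eF + 11 * eH + (3 * l + 11) * Real.log 2 := by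
          have h2 : (l + 3 : ℝ) * Real.log 2 ≤ (3 * l + 11) * Real.log 2 :=
            mul_le_mul_of_nonneg_right (by linarith) hl2.le
          linarith
        have h3 := mul_le_mul_of_nonneg_left h1 (by positivity : (0 : ℝ) ≤ 2 ^ 38)
        have h4 : (x₁ : ℝ) / 2 * Real.log 2 ≤ (s - 2) * Real.log 2 :=
          mul_le_mul_of_nonneg_right (by linarith) hl2.le
        linarith)
    classical
    obtain ⟨a, ha⟩ : ∃ a : ζ' → Fin 2 → ℝ, a = fun w => A0 (z (f w)) (e (f w)) := ⟨_, rfl⟩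
    obtain ⟨al, hal⟩ : ∃ al : ζ' → Fin 2 → ℝ, al = fun w =>
      if (∀ i, |a w i| ≤ L) ∧ ∃ i, 1 / 2 ^ x / 2 ≤ |a w i| then a w else ![1, 0] := ⟨_, rfl⟩
    refine ⟨al, fun w => ?_, ?_⟩
    · rw [hal]
      dsimp only
      split_ifs with hc
      · exact hc
      · refine ⟨Fin.forall_fin_two.mpr ⟨?_, ?_⟩, 0, ?_⟩
        · show |(1 : ℝ)| ≤ L
          rw [abs_one]
          exact hL1
        · show |(0 : ℝ)| ≤ L
          rw [abs_zero]
          exact hL0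
        · show 1 / 2 ^ x / 2 ≤ |(1 : ℝ)|
          rw [abs_one]
          exact hxh
    · have hnum : (1 : ℝ) / 2 ^ 34 ≤ (1 / 2 ^ 8) ^ 4 / 2 - 9 * (1 / 2 ^ 38) := by norm_num
      refine hnum.trans (hlaw.trans ?_)
      refine law_le (P2_isLaw hp S).nonneg fun v hv h => ?_
      obtain ⟨a1, a2, -⟩ := (P2_pos hp v).mp hv
      have hz : ∀ ω, 0 < p ω → a (z' ω) = A0 (z ω) (e (f (z' ω))) := by
        intro ω h1
        obtain ⟨b1, b2⟩ := hf ω h1
        rw [ha]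
        show A0 (z (f (z' ω))) (e (f (z' ω))) = A0 (z ω) (e (f (z' ω)))
        rw [D.dz _ _ b1 h1 b2]
      have hb : ∀ ω, 0 < p ω → ∀ j, |a (z' ω) j| ≤ L := by
        intro ω h1 j
        rw [ha]
        exact D.bA _ (hf ω h1).1 j
      have hb1 := hb v.1 a1
      have hb2 := hb v.2 a2
      have g1 : al (z' v.1) = a (z' v.1) := by
        rw [hal]
        dsimp only
        rw [if_pos]
        refine ⟨hb1, i, ?_⟩
        rw [hz _ a1]
        exact h.big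
      have g2 : al (z' v.2) = a (z' v.2) := by
        rw [hal]
        dsimp only
        rw [if_pos]
        refine ⟨hb2, i, ?_⟩
        rw [hz _ a2]
        exact h.big'
      rw [g1, g2]
      rw [← hz _ a1, ← hz _ a2] at h
      intro j
      have h5 := h.al (L := L) (M := L * 2 ^ s) (by positivity) hL0 hb1 hb2 (D.bU _ a1)
        (D.bU _ a2) j
      have h6 := al_pow (s := s) (x := x) (x₁ := x₁) (y := y) hL0 hL2 (by omega)
      exact ⟨h5.1.trans h6, h5.2.trans h6⟩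
  · -- transversal functionals
    have hw := w2_small D h0 hm.le
    have hlx : l + 1 ≤ x₁ := by omega
    have hA1 : ((2 * A : ℕ) : ℝ) ≤ 2 ^ (l + 1) := by
      push_cast
      rw [pow_succ]
      linarith
    have hl1 : (1 : ℝ) ≤ 2 ^ l := one_le_pow₀ (by norm_num)
    have hlx2 : (2 : ℝ) ^ l ≤ 2 ^ x₁ := pow_le_pow_right₀ (by norm_num) (by omega)
    have hlog1 : Real.log (2 * A + 1) ≤ (l + 2) * Real.log 2 := by
      have h1 : Real.log (2 * A + 1) ≤ Real.log (2 ^ (l + 2)) := by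
        refine Real.log_le_log (by positivity) ?_
        rw [pow_add]
        linarith
      rw [Real.log_pow] at h1
      push_cast at h1
      exact h1
    have hlog2 : Real.log (2 * ((2 * A : ℕ) : ℝ) + 1) ≤ (l + 3) * Real.log 2 := by
      have h1 : Real.log (2 * ((2 * A : ℕ) : ℝ) + 1) ≤ Real.log (2 ^ (l + 3)) := by
        refine Real.log_le_log (by positivity) ?_
        rw [pow_succ] at hA1
        rw [pow_add]
        linarith
      rw [Real.log_pow] at h1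
      push_cast at h1
      push_cast
      exact h1
    have hl3 : Real.log 3 ≤ 2 * Real.log 2 := by
      have h1 : Real.log 3 ≤ Real.log (2 ^ 2) := Real.log_le_log (by norm_num) (by norm_num)
      rw [Real.log_pow] at h1
      push_cast at h1
      exact h1
    have hl4 : Real.log 4 = 2 * Real.log 2 := by
      rw [show (4 : ℝ) = 2 ^ 2 by norm_num, Real.log_pow]
      push_cast
      ring
    have hxl : 72 * Real.log 2 ≤ x₁ * Real.log 2 := mul_le_mul_of_nonneg_right hx1' hl2.le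
    have hll : 0 ≤ l * Real.log 2 := mul_nonneg hl0 hl2.le
    have hab := c6_ab D (μA := 1 / 2 ^ x) (μ₁ := 1 / 2 ^ x₁) (v := x₁) (gt := x₁) (by omega)
      (hL2.trans hlx2) (hA1.trans (pow_le_pow_right₀ (by norm_num) hlx)) (hK2.trans hlx2)
      (by omega) le_rfl
      (one_div_le_one_div_of_le (by positivity) (pow_le_pow_right₀ (by norm_num) (by omega)))
      le_rfl (by omega) heF heH (by linarith)
      (by linarith)
      (by
        have h1 : (1 - 2 ^ 38 * cE) * Real.log K₀ ≤ (1 - cE * 1024) * Real.log K₀ :=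
          mul_le_mul_of_nonneg_right (by linarith) hlK
        have h2 : 0 ≤ 10 * (eF + eH) + Real.log 2 := by positivity
        linarith)
      (by linarith) (h0.trans (by norm_num)) (hw.trans (by norm_num))
    refine ⟨fun _ => ![1, 0], fun w => ⟨Fin.forall_fin_two.mpr ⟨?_, ?_⟩, 0, ?_⟩, ?_⟩
    · show |(1 : ℝ)| ≤ L
      rw [abs_one]
      exact hL1
    · show |(0 : ℝ)| ≤ L
      rw [abs_zero]
      exact hL0
    · show 1 / 2 ^ x / 2 ≤ |(1 : ℝ)|
      rw [abs_one]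
      exact hxh
    · have hnum : (1 : ℝ) / 2 ^ 34 ≤ 1 / 32 := by norm_num
      refine hnum.trans (hab.trans ?_)
      refine law_le (P2_isLaw hp S).nonneg fun v _ h j => ?_
      have e1 : ∑ i, (![1, 0] : Fin 2 → ℝ) i * ((U v.2 i j : ℝ) - U v.1 i j) =
          (U v.2 0 j : ℝ) - U v.1 0 j := by
        rw [Fin.sum_univ_two]
        show 1 * _ + 0 * _ = _
        ring
      rw [e1]
      have h1 : (2 : ℝ) ^ s / 2 ^ x₁ ≤ 2 ^ s / 2 ^ y :=
        div_le_div_of_nonneg_left (by positivity) (by positivity)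
          (pow_le_pow_right₀ (by norm_num) (by omega))
      exact ⟨(h 0 j).trans h1, (h 0 j).trans h1⟩

end Pool.D2P
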