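import Pool.Agent.H28.D2.FrR

/-!
# Near digits of the base coordinates are full given the context of the hop

`vn_zero`: the near digits of the slowest coordinates given the context `G`, from exactness at the
window `a` and from the freeness of `e` between `a` and `a'`. `vn_step`: the near digits of one rough
coordinate given the near digits of the others and the context, from its fullness given exact data
of the others and from the freeness of the gradients `hh` between `o` and `a'`. `vn_all`: together.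
-/

set_option autoImplicit false

namespace Pool.D2P

open Finset Real
open Pool.Agent.H49.Ent Pool.Agent.H32.Dense Pool.STK
open Pool.K2S

variable {Ω : Type} [Fintype Ω] {p : Ω → ℝ}

/-- Fewer bits given more, with a context which is few bits given the larger condition. -/
theorem CH_ctx {𝓧 𝓖 𝓦 : Type} (h0 : ∀ ω, 0 ≤ p ω) (X : Ω → 𝓧) (G : Ω → 𝓖) (W : Ω → 𝓦) :
    CH p X W - CH p G W ≤ CH p X G := by
  have h1 := CH_le_add h0 X G W
  have h2 : CH p X (fun ω => (G ω, W ω)) ≤ CH p X G :=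
    CH_mono_cond h0 fun ω ω' _ _ e => (Prod.ext_iff.mp e).1
  linarith

/-- A free variable `e` costs little in the condition. -/
theorem CH_free {𝓧 ε 𝓐 𝓑 : Type} (h0 : ∀ ω, 0 ≤ p ω) (X : Ω → 𝓧) (e : Ω → ε) (z : Ω → 𝓐)
    (z' : Ω → 𝓑) {eF f : ℝ} (hfree : CH p e z ≤ CH p e z' + eF)
    (hf : CH p (fun ω => (X ω, z ω)) z' ≤ f) :
    CH p X z - (eF + f) ≤ CH p X (fun ω => (e ω, z ω)) := by
  have h1 := CH_chain h0 X e z
  have h2 := CH_chain h0 e X z
  have h3 : CH p (fun ω => (X ω, e ω)) z = CH p (fun ω => (e ω, X ω)) z :=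
    CH_congr h0 (fun ω ω' _ _ h => by
      simp only [Prod.mk.injEq] at h ⊢
      tauto) (fun ω ω' _ _ h => by
      simp only [Prod.mk.injEq] at h ⊢
      tauto) (fun _ _ _ _ h => h) (fun _ _ _ _ h => h)
  have h4 := CH_ctx h0 e (fun ω => (X ω, z ω)) z'
  linarith

/-- **The slowest coordinates.** -/
theorem vn_zero {𝓧 ε 𝓐 𝓑 𝓖 : Type} (h0 : ∀ ω, 0 ≤ p ω) (N0 : Ω → 𝓧) (e : Ω → ε) (za : Ω → 𝓐)
    (za' : Ω → 𝓑) (G : Ω → 𝓖) {F₀ eF f₁ f₂ : ℝ} (hfull : F₀ ≤ CH p N0 za)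
    (hfree : CH p e za ≤ CH p e za' + eF) (hf₁ : CH p (fun ω => (N0 ω, za ω)) za' ≤ f₁)
    (hf₂ : CH p G (fun ω => (e ω, za ω)) ≤ f₂) : F₀ - (eF + f₁ + f₂) ≤ CH p N0 G := by
  have h1 := CH_free h0 N0 e za za' hfree hf₁
  have h2 := CH_ctx h0 N0 G (fun ω => (e ω, za ω))
  linarith

/-- **One rough coordinate.** `C`: the condition without the gradients `hh`; `Y`: exact data. -/
theorem vn_step {𝓧 𝓒 𝓗 𝓨 𝓔 𝓔' 𝓖 : Type} (h0 : ∀ ω, 0 ≤ p ω) (N : Ω → 𝓧) (C : Ω → 𝓒)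
    (hh : Ω → 𝓗) (Y : Ω → 𝓨) (zo : Ω → 𝓔) (za' : Ω → 𝓔') (G : Ω → 𝓖) {F₁ eF f₃ f₄ f₅ : ℝ}
    (hfull : F₁ ≤ CH p N Y) (hY : CH p C Y ≤ f₃) (hC : Det p C zo)
    (hfree : CH p hh zo ≤ CH p hh za' + eF) (hf : CH p (fun ω => (N ω, C ω)) za' ≤ f₅)
    (hG : CH p G (fun ω => (hh ω, C ω)) ≤ f₄) : F₁ - (f₃ + eF + f₅ + f₄) ≤ CH p N G := by
  have h1 := CH_ctx h0 N C Y
  have h2 : CH p hh C ≤ CH p hh za' + eF :=
    (CH_mono_cond h0 fun ω ω' a a' e => hC ω ω' a a' e).trans hfree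
  have h3 := CH_free h0 N hh C za' h2 hf
  have h4 := CH_ctx h0 N G (fun ω => (hh ω, C ω))
  linarith

/-- **Coordinate by coordinate.** -/
theorem vn_sum {𝓝 𝓖 : Type} (h0 : ∀ ω, 0 ≤ p ω) {k : ℕ} (N : ℕ → Ω → 𝓝) (G : Ω → 𝓖)
    {F : ℕ → ℝ} (h : ∀ l < k, F l ≤ CH p (N l) (fun ω => ((fun j : Fin l => N j ω), G ω))) :
    ∑ l ∈ range k, F l ≤ CH p (fun ω (j : Fin k) => N j ω) G := by
  induction k with
  | zero =>
    rw [Finset.sum_range_zero]
    exact CH_nonneg h0 _ _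
  | succ k ih =>
    have h1 := ih fun l hl => h l (by omega)
    have h2 := h k (by omega)
    have h3 := CH_chain h0 (N k) (fun ω (j : Fin k) => N j ω) G
    have h4 : CH p (fun ω => (N k ω, fun j : Fin k => N j ω)) G ≤
        CH p (fun ω (j : Fin (k + 1)) => N j ω) G := by
      refine CH_mono_left h0 fun ω ω' _ _ e => ?_
      obtain ⟨e1, e2⟩ := Prod.ext_iff.1 e
      dsimp only at e1 e2
      refine Prod.ext (congrFun e1 (Fin.last k)) (_root_.funext fun j => ?_)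
      exact congrFun e1 j.castSucc
    rw [Finset.sum_range_succ]
    linarith

/-- **Near digits of all base coordinates given the context of the hop.** `N l`, `l < k`: near digits
of the coordinates, the first `k₀` are the slowest ones. -/
theorem vn_all {𝓝 ε 𝓐 𝓑 𝓒 𝓗 𝓨 𝓔 𝓔' 𝓖 : Type} (h0 : ∀ ω, 0 ≤ p ω) {k₀ k : ℕ} (hk : k₀ ≤ k)
    (N : ℕ → Ω → 𝓝) (G : Ω → 𝓖) (e : Ω → ε) (za : Ω → 𝓐) (za' : Ω → 𝓑) (hh : Ω → 𝓗)
    (zo : Ω → 𝓔) (zo' : Ω → 𝓔') (Gm : Ω → 𝓒) (Y : ℕ → Ω → 𝓨) {F₀ eF f₁ f₂ : ℝ}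
    (hfull : F₀ ≤ CH p (fun ω (j : Fin k₀) => N j ω) za)
    (hfree : CH p e za ≤ CH p e za' + eF)
    (hf₁ : CH p (fun ω => ((fun j : Fin k₀ => N j ω), za ω)) za' ≤ f₁)
    (hf₂ : CH p G (fun ω => (e ω, za ω)) ≤ f₂)
    {F : ℕ → ℝ} {eH f₃ f₄ f₅ : ℝ} (hY : ∀ l, k₀ ≤ l → l < k → F l ≤ CH p (N l) (Y l))
    (hYC : ∀ l, k₀ ≤ l → l < k → CH p (fun ω => ((fun j : Fin l => N j ω), Gm ω)) (Y l) ≤ f₃)
    (hGz : Det p Gm zo) (hfreeH : CH p hh zo ≤ CH p hh zo' + eH)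
    (hf₅ : CH p (fun ω => ((fun j : Fin k => N j ω), Gm ω)) zo' ≤ f₅)
    (hG : CH p G (fun ω => (hh ω, Gm ω)) ≤ f₄) :
    F₀ - (eF + f₁ + f₂) + ∑ l ∈ Finset.Ico k₀ k, (F l - (f₃ + eH + f₅ + f₄)) ≤
      CH p (fun ω (j : Fin k) => N j ω) G := by
  have hz := vn_zero h0 (fun ω (j : Fin k₀) => N j ω) e za za' G hfull hfree hf₁ hf₂
  have hs : ∀ l, k₀ ≤ l → l < k → F l - (f₃ + eH + f₅ + f₄) ≤
      CH p (N l) (fun ω => ((fun j : Fin l => N j ω), G ω)) := by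
    intro l h1 h2
    refine vn_step h0 (N l) (fun ω => ((fun j : Fin l => N j ω), Gm ω)) hh (Y l) zo zo'
      (fun ω => ((fun j : Fin l => N j ω), G ω)) (hY l h1 h2) (hYC l h1 h2)
      (fun ω ω' a a' e => hGz ω ω' a a' (Prod.ext_iff.mp e).2) hfreeH ?_ ?_
    · refine le_trans (CH_mono_left h0 fun ω ω' _ _ e => ?_) hf₅
      obtain ⟨e1, e2⟩ := Prod.ext_iff.1 e
      obtain ⟨e3, e4⟩ := Prod.ext_iff.1 e1
      dsimp only at e3 e4
      refine Prod.ext (congrFun e3 ⟨l, h2⟩) (Prod.ext (_root_.funext fun j => ?_) e4)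
      exact congrFun e3 ⟨j, j.2.trans h2⟩
    · refine le_trans ?_ hG
      have g1 : CH p (fun ω => ((fun j : Fin l => N j ω), G ω))
          (fun ω => (hh ω, ((fun j : Fin l => N j ω), Gm ω))) ≤
          CH p G (fun ω => (hh ω, ((fun j : Fin l => N j ω), Gm ω))) := by
        refine CH_mono_left h0 fun ω ω' _ _ e => ?_
        simp only [Prod.mk.injEq] at e
        exact Prod.ext e.2.2.1 e.1
      have g2 : CH p G (fun ω => (hh ω, ((fun j : Fin l => N j ω), Gm ω))) ≤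
          CH p G (fun ω => (hh ω, Gm ω)) := by
        refine CH_mono_cond h0 fun ω ω' _ _ e => ?_
        simp only [Prod.mk.injEq] at e
        exact Prod.ext e.1 e.2.2
      exact g1.trans g2
  -- the sum
  have key : ∀ n, k₀ ≤ n → n ≤ k → F₀ - (eF + f₁ + f₂) +
      ∑ l ∈ Finset.Ico k₀ n, (F l - (f₃ + eH + f₅ + f₄)) ≤
      CH p (fun ω (j : Fin n) => N j ω) G := by
    intro n hn
    induction n, hn using Nat.le_induction with
    | base =>
      intro _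
      rw [Finset.Ico_self, Finset.sum_empty, add_zero]
      exact hz
    | succ n hn ih =>
      intro hk'
      have h1 := ih (by omega)
      have h2 := hs n hn (by omega)
      have h3 := CH_chain h0 (N n) (fun ω (j : Fin n) => N j ω) G
      have h4 : CH p (fun ω => (N n ω, fun j : Fin n => N j ω)) G ≤
          CH p (fun ω (j : Fin (n + 1)) => N j ω) G := by
        refine CH_mono_left h0 fun ω ω' _ _ e => ?_
        obtain ⟨e1, e2⟩ := Prod.ext_iff.1 e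
        dsimp only at e1 e2
        refine Prod.ext (congrFun e1 (Fin.last n)) (_root_.funext fun j => ?_)
        exact congrFun e1 j.castSucc
      rw [Finset.sum_Ico_succ_top hn]
      linarith
  exact key k hk le_rfl

end Pool.D2P
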