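import Pool.Agent.H4.D2.Stg
import Pool.Agent.H4.D2.Vcl
import Pool.Agent.H28.D2.FrU

/-!
# Near frame digits are full given the record of the hop

`near_exact`: near frame digits of the first coordinates from exactness. `near_frame`: near frame
digits of one coordinate from its own digits, given exact digits of the coordinates before it.
`vfd_full`: the near frame digits `Vfd` are full given the record `G` of the hop.
-/

set_option autoImplicit false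

namespace Pool.D2F2

open Finset Real MvPolynomial
open Pool.Agent.H49.Ent Pool.Agent.H32.Dense Pool.STK Pool.KA Pool.KSAT Pool.K2S Pool.PB Pool.GEN
open Pool.S6C Pool.LA91
open Pool.OWN68 (opl tw uw CH_pair CH_pis natDegree_opl opl_jet uw_abs tw_abs floor_sub_le
  of_floor_div nf_swap CH_le_Hu)
open Pool.D2H (of_floor_mul eval_small uw_eq CH_step CH_pi_le)
open Pool.D2P (vn_all CH_ctx)

variable {m J : ℕ}

/-- Digits between two levels and a cell at the upper level determine the digits up to few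
values. -/
theorem mod_few {Ω T : Type} [Fintype Ω] {p : Ω → ℝ} (hp : IsLaw p) (X : Ω → ℝ) (Z : Ω → T)
    {u v K : ℕ} (huv : v ≤ u) (h : ∀ ω ω', 0 < p ω → 0 < p ω' → Z ω = Z ω' →
      ⌊(2 : ℝ) ^ u * X ω⌋ % 2 ^ (u - v) = ⌊(2 : ℝ) ^ u * X ω'⌋ % 2 ^ (u - v) ∧
      |(2 : ℝ) ^ v * X ω - 2 ^ v * X ω'| ≤ K) :
    CH p (fun ω => ⌊(2 : ℝ) ^ u * X ω⌋) Z ≤ Real.log (2 * (K + 1 : ℕ) + 1) := by
  refine CH_mod (n := 2 ^ (u - v)) hp _ _ fun ω ω' hω hω' e => ?_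
  obtain ⟨e1, e2⟩ := h ω ω' hω hω' e
  refine ⟨e1, ?_⟩
  have h2p : (1 : ℝ) ≤ 2 ^ (u - v) := one_le_pow₀ (by norm_num)
  obtain ⟨x, hx⟩ : ∃ x : ℤ, x = ⌊(2 : ℝ) ^ u * X ω⌋ := ⟨_, rfl⟩
  obtain ⟨x', hx'⟩ : ∃ x : ℤ, x = ⌊(2 : ℝ) ^ u * X ω'⌋ := ⟨_, rfl⟩
  rw [← hx, ← hx'] at e1 ⊢
  have f7 : |((x - x' : ℤ) : ℝ)| ≤ 2 ^ (u - v) * (K + 1) := by
    have c1 := Int.floor_le ((2 : ℝ) ^ u * X ω)
    have c2 := Int.lt_floor_add_one ((2 : ℝ) ^ u * X ω)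
    have c3 := Int.floor_le ((2 : ℝ) ^ u * X ω')
    have c4 := Int.lt_floor_add_one ((2 : ℝ) ^ u * X ω')
    have c7 : |(2 : ℝ) ^ u * X ω - 2 ^ u * X ω'| ≤ 2 ^ (u - v) * K := by
      have h8 : (2 : ℝ) ^ u = 2 ^ (u - v) * 2 ^ v := by
        rw [← pow_add]
        congr 1
        omega
      rw [h8, mul_assoc, mul_assoc, ← mul_sub, abs_mul, abs_of_pos (by positivity)]
      exact mul_le_mul_of_nonneg_left e2 (by positivity)
    rw [← hx] at c1 c2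
    rw [← hx'] at c3 c4
    push_cast
    rw [abs_le] at c7 ⊢
    constructor <;> nlinarith [c7.1, c7.2]
  have f8 : x - x' = 2 ^ (u - v) * (x / 2 ^ (u - v) - x' / 2 ^ (u - v)) := by
    have a1 := Int.emod_add_mul_ediv x (2 ^ (u - v))
    have a2 := Int.emod_add_mul_ediv x' (2 ^ (u - v))
    linarith
  rw [f8] at f7
  push_cast at f7
  rw [abs_mul, abs_of_pos (by positivity : (0 : ℝ) < 2 ^ (u - v))] at f7
  have f9 := le_of_mul_le_mul_left f7 (by positivity)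
  have f10 : |((x / 2 ^ (u - v) - x' / 2 ^ (u - v) : ℤ) : ℝ)| ≤ ((K + 1 : ℕ) : ℤ) := by
    push_cast
    exact f9
  exact_mod_cast f10

section

variable {F : Fam m J} {κ : Type} {r D : ℕ} {d : Dat F κ r D} {A : F.Ω → Prop} {W : ℕ}
  {c : ℕ → Fin m} {E₀ : ℕ} {w : ℕ → ℕ}

/-- The near frame digits of the coordinate `l`. -/
noncomputable def Nfd (d : Dat F κ r D) (W : ℕ) (u v : ℕ → ℕ) (l : ℕ) (ω : F.Ω) : ℤ :=
  ⌊(2 : ℝ) ^ u l * d.v W l ω⌋ % 2 ^ (u l - v l)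

theorem Nfd_few {p : F.Ω → ℝ} (hp : IsLaw p) {u v : ℕ → ℕ} {T : Type} (Z : F.Ω → T) {n K : ℕ}
    (h : ∀ ω ω', 0 < p ω → 0 < p ω' → Z ω = Z ω' → ∀ l < n,
      |(2 : ℝ) ^ u l * d.v W l ω - 2 ^ u l * d.v W l ω'| ≤ K) :
    CH p (fun ω (l : Fin n) => Nfd d W u v l ω) Z ≤ n * Real.log (2 * (K + 1 : ℕ) + 1) := by
  have h0 := hp.nonneg
  have h1 := CH_pi_le h0 (fun ω (l : Fin n) => Nfd d W u v l ω) Z
    (B := Real.log (2 * (K + 1 : ℕ) + 1)) fun l => by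
      refine le_trans (CH_mono_left h0 (X' := fun ω => ⌊(2 : ℝ) ^ u l * d.v W l ω⌋)
        fun ω ω' _ _ e => ?_) (CH_pair hp _ Z fun ω ω' hω hω' e => ?_)
      · have e1 : ⌊(2 : ℝ) ^ u l * d.v W l ω⌋ = ⌊(2 : ℝ) ^ u l * d.v W l ω'⌋ :=
          (Prod.ext_iff.1 e).1
        unfold Nfd
        rw [e1]
      · have := floor_sub_le (h ω ω' hω hω' e l l.2)
        push_cast at this ⊢
        exact this
  rwa [Fintype.card_fin] at h1

/-- **Near frame digits of the first coordinates**, from the entropy of all their digits. -/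
theorem near_exact_w (hF : FrW d A W c w E₀) {n : ℕ} (hnr : n ≤ r) {u v : ℕ → ℕ}
    (hu : ∀ l < n, u l ≤ J) (hw : ∀ l < n, u l ≤ w l) (huv : ∀ l < n, v l ≤ u l) {p : F.Ω → ℝ} (hp : IsLaw p)
    (hpA : ∀ ω, 0 < p ω → A ω) {T β : Type} (Z : F.Ω → T) {K : ℕ}
    (hZ : ∀ ω ω', 0 < p ω → 0 < p ω' → Z ω = Z ω' → F.T ω = F.T ω' ∧
      d.fc (slam F W ω) = d.fc (slam F W ω') ∧
      ∀ l < n, |(2 : ℝ) ^ v l * d.v W l ω - 2 ^ v l * d.v W l ω'| ≤ K) {Yv : F.Ω → β}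
    (hY : ∀ ω ω', 0 < p ω → 0 < p ω' → (∀ l < n, F.X J ω (c l) = F.X J ω' (c l)) →
      Yv ω = Yv ω') :
    CH p Yv Z - ∑ l ∈ range n, ((J - u l : ℕ) : ℝ) * Real.log 2 -
      n * (Real.log (2 * (2 + r * E₀ : ℕ) + 1) + Real.log (2 * (K + 1 : ℕ) + 1)) ≤
      CH p (fun ω (l : Fin n) => Nfd d W u v l ω) Z := by
  have h0 := hp.nonneg
  obtain ⟨Nn, hNn⟩ : ∃ N : F.Ω → Fin n → ℤ,
    N = fun ω (l : Fin n) => Nfd d W u v l ω := ⟨_, rfl⟩
  obtain ⟨Vf, hVf⟩ : ∃ N : F.Ω → Fin n → ℤ,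
    N = fun ω (l : Fin n) => ⌊(2 : ℝ) ^ u l * d.v W l ω⌋ := ⟨_, rfl⟩
  obtain ⟨Vd, hVd⟩ : ∃ N : F.Ω → Fin n → ℤ,
    N = fun ω (l : Fin n) => F.X J ω (c l) % 2 ^ (J - u l) := ⟨_, rfl⟩
  rw [← hNn]
  -- frame digits
  have s1 : CH p Vf (fun ω => (Nn ω, Z ω)) ≤ n * Real.log (2 * (K + 1 : ℕ) + 1) := by
    have h1 := CH_pi_le h0 Vf (fun ω => (Nn ω, Z ω)) (B := Real.log (2 * (K + 1 : ℕ) + 1))
      fun l => by
        rw [hVf]
        refine mod_few hp (fun ω => d.v W l ω) (fun ω => (Nn ω, Z ω)) (huv l l.2)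
          fun ω ω' hω hω' e => ?_
        obtain ⟨e1, e2⟩ := Prod.ext_iff.1 e
        rw [hNn] at e1
        exact ⟨congrFun e1 l, (hZ ω ω' hω hω' e2).2.2 l l.2⟩
    rwa [Fintype.card_fin] at h1
  -- the digits behind
  have s2 : CH p Vd (fun ω => (Vf ω, (Nn ω, Z ω))) ≤
      ∑ l ∈ range n, ((J - u l : ℕ) : ℝ) * Real.log 2 := by
    refine (CH_pis h0 Vd _).trans ?_
    rw [← Fin.sum_univ_eq_sum_range (fun l => ((J - u l : ℕ) : ℝ) * Real.log 2)]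
    refine Finset.sum_le_sum fun l _ => ?_
    have h1 := CH_le_card h0 hp.sum_one (fun ω => Vd ω l) (fun ω => (Vf ω, (Nn ω, Z ω)))
      (fun _ => Finset.Ico (0 : ℤ) (2 ^ (J - u l))) (fun ω _ => by
        rw [Finset.mem_Ico, hVd]
        exact ⟨Int.emod_nonneg _ (by positivity), Int.emod_lt_of_pos _ (by positivity)⟩)
    refine h1.trans (le_of_eq ?_)
    rw [Ex_const hp.sum_one, Int.card_Ico, sub_zero]
    have e2 : ((2 : ℤ) ^ (J - u l)).toNat = 2 ^ (J - u l) := by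
      have : (2 : ℤ) ^ (J - u l) = ((2 ^ (J - u l) : ℕ) : ℤ) := by push_cast; rfl
      rw [this, Int.toNat_natCast]
    rw [e2]
    push_cast
    rw [Real.log_pow]
  -- the exact digits
  have s3 := vx_few_n_w hF hnr hu hw hp hpA (fun ω => (Vd ω, (Vf ω, (Nn ω, Z ω))))
    fun ω ω' hω hω' e => by
      simp only [Prod.mk.injEq] at e
      obtain ⟨e1, e2, -, e4⟩ := e
      obtain ⟨z1, z2, -⟩ := hZ ω ω' hω hω' e4
      rw [hVf] at e2
      rw [hVd] at e1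
      exact ⟨z1, z2, fun l hl => congrFun e2 ⟨l, hl⟩, fun l hl => congrFun e1 ⟨l, hl⟩⟩
  have s4 : CH p Yv Z ≤ CH p (fun ω (l : Fin n) => F.X J ω (c l)) Z := by
    refine CH_mono_left h0 fun ω ω' hω hω' e => ?_
    obtain ⟨e1, e2⟩ := Prod.ext_iff.1 e
    dsimp only at e1 e2
    exact hY ω ω' hω hω' fun l hl => congrFun e1 ⟨l, hl⟩
  have s5 := CH_step h0 (fun ω (l : Fin n) => F.X J ω (c l)) Nn Z
  have s6 := CH_step h0 (fun ω (l : Fin n) => F.X J ω (c l)) Vf (fun ω => (Nn ω, Z ω))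
  have s7 := CH_step h0 (fun ω (l : Fin n) => F.X J ω (c l)) Vd
    (fun ω => (Vf ω, (Nn ω, Z ω)))
  linarith

/-- **Near frame digits of the first coordinates**, from the entropy of all their digits. -/
theorem near_exact (hF : FrD d A W c E₀) {n : ℕ} (hnr : n ≤ r) {u v : ℕ → ℕ}
    (hu : ∀ l < n, u l ≤ J) (huv : ∀ l < n, v l ≤ u l) {p : F.Ω → ℝ} (hp : IsLaw p)
    (hpA : ∀ ω, 0 < p ω → A ω) {T β : Type} (Z : F.Ω → T) {K : ℕ}
    (hZ : ∀ ω ω', 0 < p ω → 0 < p ω' → Z ω = Z ω' → F.T ω = F.T ω' ∧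
      d.fc (slam F W ω) = d.fc (slam F W ω') ∧
      ∀ l < n, |(2 : ℝ) ^ v l * d.v W l ω - 2 ^ v l * d.v W l ω'| ≤ K) {Yv : F.Ω → β}
    (hY : ∀ ω ω', 0 < p ω → 0 < p ω' → (∀ l < n, F.X J ω (c l) = F.X J ω' (c l)) →
      Yv ω = Yv ω') :
    CH p Yv Z - ∑ l ∈ range n, ((J - u l : ℕ) : ℝ) * Real.log 2 -
      n * (Real.log (2 * (2 + r * E₀ : ℕ) + 1) + Real.log (2 * (K + 1 : ℕ) + 1)) ≤
      CH p (fun ω (l : Fin n) => Nfd d W u v l ω) Z :=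
  near_exact_w (w := fun _ => J) (hF.toW fun _ _ => le_rfl) hnr hu hu huv hp hpA Z hZ hY

/-- **Near frame digits of one coordinate**, from its own digits. -/
theorem near_frame (hF : FrD d A W c E₀) {l : ℕ} (hl : l < r) {u v : ℕ → ℕ} (huv : v l ≤ u l)
    {n₀ : ℕ} (hn₀ : u l ≤ n₀) {p : F.Ω → ℝ} (hp : IsLaw p) (hpA : ∀ ω, 0 < p ω → A ω)
    {T : Type} (Z : F.Ω → T) {K : ℕ}
    (hZ : ∀ ω ω', 0 < p ω → 0 < p ω' → Z ω = Z ω' → F.T ω = F.T ω' ∧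
      d.fc (slam F W ω) = d.fc (slam F W ω') ∧ (∀ i < l, F.X n₀ ω (c i) = F.X n₀ ω' (c i)) ∧
      |(2 : ℝ) ^ v l * d.v W l ω - 2 ^ v l * d.v W l ω'| ≤ K) :
    CH p (fun ω => F.X (u l) ω (c l)) Z -
      (Real.log (2 * (2 + r * E₀ : ℕ) + 1) + Real.log (2 * (K + 1 : ℕ) + 1)) ≤
      CH p (Nfd d W u v l) Z := by
  have h0 := hp.nonneg
  have hE0 : (0 : ℝ) ≤ E₀ := Nat.cast_nonneg _
  obtain ⟨Vf, hVf⟩ : ∃ N : F.Ω → ℤ, N = fun ω => ⌊(2 : ℝ) ^ u l * d.v W l ω⌋ := ⟨_, rfl⟩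
  have s1 : CH p Vf (fun ω => (Nfd d W u v l ω, Z ω)) ≤ Real.log (2 * (K + 1 : ℕ) + 1) := by
    rw [hVf]
    refine mod_few hp (fun ω => d.v W l ω) _ huv fun ω ω' hω hω' e => ?_
    obtain ⟨e1, e2⟩ := Prod.ext_iff.1 e
    exact ⟨e1, (hZ ω ω' hω hω' e2).2.2.2⟩
  have s2 : CH p (fun ω => F.X (u l) ω (c l)) (fun ω => (Vf ω, (Nfd d W u v l ω, Z ω))) ≤
      Real.log (2 * (2 + r * E₀ : ℕ) + 1) := by
    refine CH_pair hp _ _ fun ω ω' hω hω' e => ?_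
    simp only [Prod.mk.injEq] at e
    obtain ⟨e1, -, e3⟩ := e
    obtain ⟨z1, z2, z3, -⟩ := hZ ω ω' hω hω' e3
    rw [hVf] at e1
    have hu0 : (0 : ℝ) < 2 ^ u l := by positivity
    have f5 : |d.v W l ω - d.v W l ω'| ≤ 1 / 2 ^ u l := of_floor_mul hu0 e1
    obtain ⟨φ, p1, p2⟩ := hF.frm ω' ω (hpA ω' hω') (hpA ω hω) z1.symm z2.symm l hl.le
    have hx : ∀ j < l, |F.x ω (c j) - F.x ω' (c j)| ≤ 1 / 2 ^ u l := fun j hj =>
      (of_floor_mul (by positivity : (0 : ℝ) < 2 ^ n₀) (z3 j hj)).trans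
        (one_div_le_one_div_of_le hu0 (pow_le_pow_right₀ (by norm_num) hn₀))
    have p3 := sum_small (n := l) (f := φ) (g := fun j => F.x ω (c j) - F.x ω' (c j)) p1 hx hE0
    have p4 : F.x ω (c l) - F.x ω' (c l) = (d.v W l ω - d.v W l ω') +
        ∑ j ∈ range l, φ j * (F.x ω (c j) - F.x ω' (c j)) := by linarith
    have p5 : |(2 : ℝ) ^ u l * F.x ω (c l) - 2 ^ u l * F.x ω' (c l)| ≤ ((1 + r * E₀ : ℕ) : ℝ) := by
      rw [← mul_sub, abs_mul, abs_of_pos hu0, p4]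
      have p6 : |(d.v W l ω - d.v W l ω') +
          ∑ j ∈ range l, φ j * (F.x ω (c j) - F.x ω' (c j))| ≤
          1 / 2 ^ u l + l * (E₀ * (1 / 2 ^ u l)) :=
        (abs_add_le _ _).trans (add_le_add f5 p3)
      refine (mul_le_mul_of_nonneg_left p6 hu0.le).trans ?_
      have p7 : (2 : ℝ) ^ u l * (1 / 2 ^ u l + l * (E₀ * (1 / 2 ^ u l))) = 1 + l * E₀ := by
        field_simp
      rw [p7]
      push_cast
      have p8 : (l : ℝ) * E₀ ≤ r * E₀ :=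
        mul_le_mul_of_nonneg_right (by exact_mod_cast hl.le) hE0
      linarith
    have p9 := floor_sub_le p5
    have c5 : F.X (u l) ω (c l) = ⌊(2 : ℝ) ^ u l * F.x ω (c l)⌋ := rfl
    have c6 : F.X (u l) ω' (c l) = ⌊(2 : ℝ) ^ u l * F.x ω' (c l)⌋ := rfl
    rw [c5, c6]
    push_cast at p9 ⊢
    linarith
  have s3 := CH_step h0 (fun ω => F.X (u l) ω (c l)) (Nfd d W u v l) Z
  have s4 := CH_step h0 (fun ω => F.X (u l) ω (c l)) Vf (fun ω => (Nfd d W u v l ω, Z ω))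
  linarith

/-- **The near frame digits are full given the record of the hop.** `za`, `za'`: records with the
time at the far windows; `zo`, `zo'`: records with the direction and the time; `Gm`: the record of
the hop without the gradients `hh`; `Y l`: exact data of the coordinates before and after `l`, cell
and velocity of `l`. -/
theorem vfd_full {B : F.Ω → Prop} (hF : FrD d A W c E₀) (hBA : Sub B A) (hB : 0 < Pe F.p B)
    {k₀ : ℕ} (hk : k₀ ≤ r) {u v : ℕ → ℕ} (hu : ∀ l < r, u l ≤ J) (huv : ∀ l < r, v l ≤ u l)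
    {n₀ : ℕ} (hn₀ : ∀ l < r, u l ≤ n₀)
    {ε 𝓐 𝓑 𝓒 𝓗 𝓨 𝓔 𝓔' 𝓖 β : Type} (G : F.Ω → 𝓖) (e : F.Ω → ε) (za : F.Ω → 𝓐) (za' : F.Ω → 𝓑)
    (hh : F.Ω → 𝓗) (zo : F.Ω → 𝓔) (zo' : F.Ω → 𝓔') (Gm : F.Ω → 𝓒) (Y : ℕ → F.Ω → 𝓨)
    {Yv : F.Ω → β} {K : ℕ}
    (hza : ∀ ω ω', B ω → B ω' → za ω = za ω' → F.T ω = F.T ω' ∧
      d.fc (slam F W ω) = d.fc (slam F W ω') ∧
      ∀ l < k₀, |(2 : ℝ) ^ v l * d.v W l ω - 2 ^ v l * d.v W l ω'| ≤ K)
    (hYv : ∀ ω ω', B ω → B ω' → (∀ l < k₀, F.X J ω (c l) = F.X J ω' (c l)) → Yv ω = Yv ω')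
    (hza' : ∀ ω ω', B ω → B ω' → za' ω = za' ω' →
      ∀ l < k₀, |(2 : ℝ) ^ u l * d.v W l ω - 2 ^ u l * d.v W l ω'| ≤ K)
    (hY : ∀ ω ω', B ω → B ω' → ∀ l, k₀ ≤ l → l < r → Y l ω = Y l ω' → F.T ω = F.T ω' ∧
      d.fc (slam F W ω) = d.fc (slam F W ω') ∧ (∀ i < l, F.X n₀ ω (c i) = F.X n₀ ω' (c i)) ∧
      |(2 : ℝ) ^ v l * d.v W l ω - 2 ^ v l * d.v W l ω'| ≤ K)
    (hzo' : ∀ ω ω', B ω → B ω' → zo' ω = zo' ω' →
      ∀ l < r, |(2 : ℝ) ^ u l * d.v W l ω - 2 ^ u l * d.v W l ω'| ≤ K)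
    (hGz : Det (Pool.Agent.H49.Ent.cond F.p B True) Gm zo)
    {η : ℝ}
    (hex : ∑ l ∈ range k₀, ((J - v l : ℕ) : ℝ) * Real.log 2 - η ≤
      CH (Pool.Agent.H49.Ent.cond F.p B True) Yv za)
    (hfr : CH (Pool.Agent.H49.Ent.cond F.p B True) e za ≤
      CH (Pool.Agent.H49.Ent.cond F.p B True) e za' + η)
    (hzz : CH (Pool.Agent.H49.Ent.cond F.p B True) za za' ≤ η)
    (hGe : CH (Pool.Agent.H49.Ent.cond F.p B True) G (fun ω => (e ω, za ω)) ≤ η)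
    (hnv : ∀ l, k₀ ≤ l → l < r → ((u l - v l : ℕ) : ℝ) * Real.log 2 - η ≤
      CH (Pool.Agent.H49.Ent.cond F.p B True) (fun ω => F.X (u l) ω (c l)) (Y l))
    (hGY : ∀ l, k₀ ≤ l → l < r → CH (Pool.Agent.H49.Ent.cond F.p B True) Gm (Y l) ≤ η)
    (hfh : CH (Pool.Agent.H49.Ent.cond F.p B True) hh zo ≤
      CH (Pool.Agent.H49.Ent.cond F.p B True) hh zo' + η)
    (hGo : CH (Pool.Agent.H49.Ent.cond F.p B True) Gm zo' ≤ η)
    (hGh : CH (Pool.Agent.H49.Ent.cond F.p B True) G (fun ω => (hh ω, Gm ω)) ≤ η) :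
    ∑ l ∈ range r, ((u l - v l : ℕ) : ℝ) * Real.log 2 - ((5 * r + 4) * η + r * (r + 1) *
      (Real.log (2 * (2 + r * E₀ : ℕ) + 1) + Real.log (2 * (K + 1 : ℕ) + 1))) ≤
      CH (Pool.Agent.H49.Ent.cond F.p B True) (Vfd d W u v) G := by
  have hp := isLaw_cond F.isLaw hB
  have h0 := hp.nonneg
  have hBp : ∀ ω, 0 < Pool.Agent.H49.Ent.cond F.p B True ω → B ω := fun ω hω => of_cond_pos hω
  have hF' := hF.sub hBA
  have hE0 : (0 : ℝ) ≤ E₀ := Nat.cast_nonneg _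
  obtain ⟨c₁, hc₁⟩ : ∃ c₁ : ℝ, c₁ = Real.log (2 * (2 + r * E₀ : ℕ) + 1) := ⟨_, rfl⟩
  obtain ⟨c₂, hc₂⟩ : ∃ c₂ : ℝ, c₂ = Real.log (2 * (K + 1 : ℕ) + 1) := ⟨_, rfl⟩
  have hc₁0 : 0 ≤ c₁ := by
    rw [hc₁]
    refine Real.log_nonneg ?_
    have : (0 : ℝ) ≤ ((2 + r * E₀ : ℕ) : ℝ) := Nat.cast_nonneg _
    linarith
  have hc₂0 : 0 ≤ c₂ := by
    rw [hc₂]
    refine Real.log_nonneg ?_
    have : (0 : ℝ) ≤ ((K + 1 : ℕ) : ℝ) := Nat.cast_nonneg _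
    linarith
  have hkr : (k₀ : ℝ) ≤ r := by exact_mod_cast hk
  have hk0 : (0 : ℝ) ≤ k₀ := Nat.cast_nonneg _
  -- the first coordinates
  have a1 := near_exact hF' hk (u := u) (v := v) (fun l hl => hu l (by omega))
    (fun l hl => huv l (by omega)) hp hBp za
    (fun ω ω' a b e => hza ω ω' (hBp ω a) (hBp ω' b) e)
    (Yv := Yv) fun ω ω' a b e => hYv ω ω' (hBp ω a) (hBp ω' b) e
  rw [← hc₁, ← hc₂] at a1
  have a2 : CH (Pool.Agent.H49.Ent.cond F.p B True) (fun ω => ((fun j : Fin k₀ => Nfd d W u v j ω), za ω)) za' ≤ η + k₀ * c₂ := by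
    have b1 := CH_subadd h0 (fun ω (j : Fin k₀) => Nfd d W u v j ω) za za'
    have b2 := Nfd_few hp (d := d) (u := u) (v := v) za' (n := k₀) (K := K)
      fun ω ω' a b e => hza' ω ω' (hBp ω a) (hBp ω' b) e
    rw [← hc₂] at b2
    linarith
  -- the other coordinates
  have a3 : ∀ l, k₀ ≤ l → l < r → ((u l - v l : ℕ) : ℝ) * Real.log 2 - η - (c₁ + c₂) ≤
      CH (Pool.Agent.H49.Ent.cond F.p B True) (Nfd d W u v l) (Y l) := by
    intro l h1 h2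
    have b1 := near_frame hF' h2 (u := u) (v := v) (huv l h2) (hn₀ l h2) hp hBp (Y l)
      fun ω ω' a b e => hY ω ω' (hBp ω a) (hBp ω' b) l h1 h2 e
    rw [← hc₁, ← hc₂] at b1
    have b2 := hnv l h1 h2
    linarith
  have a4 : ∀ l, k₀ ≤ l → l < r →
      CH (Pool.Agent.H49.Ent.cond F.p B True) (fun ω => ((fun j : Fin l => Nfd d W u v j ω), Gm ω)) (Y l) ≤ η + r * c₁ := by
    intro l h1 h2
    have b1 := CH_subadd h0 (fun ω (j : Fin l) => Nfd d W u v j ω) Gm (Y l)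
    have b2 := Nfd_few hp (d := d) (u := u) (v := v) (Y l) (n := l) (K := 1 + r * E₀)
      fun ω ω' a b e j hj => by
        obtain ⟨z1, z2, z3, -⟩ := hY ω ω' (hBp ω a) (hBp ω' b) l h1 h2 e
        have hj' : j < r := by omega
        have hu0 : (0 : ℝ) < 2 ^ u j := by positivity
        obtain ⟨φ, p1, p2⟩ := hF'.frm ω' ω (hBp ω' b) (hBp ω a) z1.symm z2.symm j hj'.le
        have hx : ∀ i ≤ j, |F.x ω (c i) - F.x ω' (c i)| ≤ 1 / 2 ^ u j := fun i hi =>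
          (of_floor_mul (by positivity : (0 : ℝ) < 2 ^ n₀) (z3 i (by omega))).trans
            (one_div_le_one_div_of_le hu0 (pow_le_pow_right₀ (by norm_num) (hn₀ j hj')))
        have p3 := sum_small (n := j) (f := φ) (g := fun i => F.x ω (c i) - F.x ω' (c i)) p1
          (fun i hi => hx i hi.le) hE0
        rw [← mul_sub, abs_mul, abs_of_pos hu0, p2]
        have p6 : |F.x ω (c j) - F.x ω' (c j) -
            ∑ i ∈ range j, φ i * (F.x ω (c i) - F.x ω' (c i))| ≤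
            1 / 2 ^ u j + j * (E₀ * (1 / 2 ^ u j)) :=
          (abs_sub _ _).trans (add_le_add (hx j le_rfl) p3)
        refine (mul_le_mul_of_nonneg_left p6 hu0.le).trans ?_
        have p7 : (2 : ℝ) ^ u j * (1 / 2 ^ u j + j * (E₀ * (1 / 2 ^ u j))) = 1 + j * E₀ := by
          field_simp
        rw [p7]
        push_cast
        have p8 : (j : ℝ) * E₀ ≤ r * E₀ :=
          mul_le_mul_of_nonneg_right (by exact_mod_cast hj'.le) hE0
        linarith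
    have b3 : Real.log (2 * ((1 + r * E₀ + 1 : ℕ) : ℝ) + 1) = c₁ := by
      rw [hc₁]
      congr 3
      have : 1 + r * E₀ + 1 = 2 + r * E₀ := by ring
      rw [this]
    rw [b3] at b2
    have b4 : (l : ℝ) * c₁ ≤ r * c₁ := mul_le_mul_of_nonneg_right (by exact_mod_cast h2.le) hc₁0
    have b5 := hGY l h1 h2
    linarith
  have a5 : CH (Pool.Agent.H49.Ent.cond F.p B True) (fun ω => ((fun j : Fin r => Nfd d W u v j ω), Gm ω)) zo' ≤ η + r * c₂ := by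
    have b1 := CH_subadd h0 (fun ω (j : Fin r) => Nfd d W u v j ω) Gm zo'
    have b2 := Nfd_few hp (d := d) (u := u) (v := v) zo' (n := r) (K := K)
      fun ω ω' a b e => hzo' ω ω' (hBp ω a) (hBp ω' b) e
    rw [← hc₂] at b2
    linarith
  have key := vn_all h0 hk (Nfd d W u v) G e za za' hh zo zo' Gm Y a1 hfr a2 hGe a3 a4 hGz hfh a5
    hGh
  have hV : (fun ω (j : Fin r) => Nfd d W u v j ω) = Vfd d W u v := rfl
  rw [hV] at key
  refine le_trans ?_ key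
  -- the sums
  have g1 : ∑ l ∈ Finset.Ico k₀ r, (((u l - v l : ℕ) : ℝ) * Real.log 2 - η - (c₁ + c₂) -
      (η + r * c₁ + η + (η + r * c₂) + η)) =
      ∑ l ∈ Finset.Ico k₀ r, ((u l - v l : ℕ) : ℝ) * Real.log 2 -
      (r - k₀) * (5 * η + (r + 1) * (c₁ + c₂)) := by
    have e1 : ∀ l, (((u l - v l : ℕ) : ℝ) * Real.log 2 - η - (c₁ + c₂) -
      (η + r * c₁ + η + (η + r * c₂) + η)) = ((u l - v l : ℕ) : ℝ) * Real.log 2 -
        (5 * η + (r + 1) * (c₁ + c₂)) := fun l => by ring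
    rw [Finset.sum_congr rfl fun l _ => e1 l, Finset.sum_sub_distrib, Finset.sum_const,
      Nat.card_Ico, nsmul_eq_mul, Nat.cast_sub hk]
  have g2 : ∑ l ∈ range k₀, ((J - v l : ℕ) : ℝ) * Real.log 2 -
      ∑ l ∈ range k₀, ((J - u l : ℕ) : ℝ) * Real.log 2 =
      ∑ l ∈ range k₀, ((u l - v l : ℕ) : ℝ) * Real.log 2 := by
    rw [← Finset.sum_sub_distrib]
    refine Finset.sum_congr rfl fun l hl => ?_
    have h1 := Finset.mem_range.1 hl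
    have h2 := hu l (by omega)
    have h3 := huv l (by omega)
    rw [Nat.cast_sub h2, Nat.cast_sub h3, Nat.cast_sub (h3.trans h2)]
    ring
  have g3 := Finset.sum_range_add_sum_Ico (fun l => ((u l - v l : ℕ) : ℝ) * Real.log 2) hk
  have g4 : (r : ℝ) * (r + 1) * (c₁ + c₂) ≥ k₀ * (c₁ + c₂) + k₀ * c₂ +
      (r - k₀) * ((r + 1) * (c₁ + c₂)) := by
    rcases Nat.eq_zero_or_pos k₀ with h | h
    · rw [h]
      push_cast
      nlinarith
    · have h1 : (1 : ℝ) ≤ r := by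
        have : 1 ≤ r := by omega
        exact_mod_cast this
      have h2 : (k₀ : ℝ) * c₂ ≤ k₀ * (c₁ + c₂) := mul_le_mul_of_nonneg_left (by linarith) hk0
      have h3 : 0 ≤ (k₀ : ℝ) * (c₁ + c₂) := by positivity
      have h4 : 0 ≤ (k₀ : ℝ) * (c₁ + c₂) * (r - 1) := mul_nonneg h3 (by linarith)
      nlinarith
  rw [← hc₁, ← hc₂, ← g3, g1]
  have g5 : 0 ≤ η * k₀ ∨ η * k₀ ≤ 0 := le_total _ _
  have g6 := hzz
  have hη : 0 ≤ η := (CH_nonneg h0 za za').trans hzz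
  have g7 : 0 ≤ η * k₀ := mul_nonneg hη hk0
  linarith

end

end Pool.D2F2
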