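import Pool.Agent.H4.D2.Stg
import Pool.Agent.H28.D2.FrU
import Pool.Agent.H4.D2.Vnf
import Pool.Agent.H33.PTH.PC

/-!
# The rows of the coordinate of the target in the frame, given near digits

`RecS`: the record of stage 1. `row_ad`: the rows between two levels of the digits of the coordinate
of the target in the frame, given the near digits of the other coordinates and a context, for all
events of a law.
-/

set_option autoImplicit false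

namespace Pool.D2F2

open Finset Real MvPolynomial
open Pool.Agent.H49.Ent Pool.Agent.H32.Dense Pool.STK Pool.KA Pool.KSAT Pool.K2S Pool.PB Pool.GEN
open Pool.S6C Pool.LA91
open Pool.OWN68 (opl tw uw CH_pair CH_pis natDegree_opl opl_jet uw_abs tw_abs floor_sub_le
  of_floor_div nf_swap CH_le_Hu)
open Pool.GEN.N83 (oth)
open Pool.D2H (of_floor_mul eval_small uw_eq CH_step CH_pi_le)
open Pool.KAF (rs Pr)

variable {m J : ℕ}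

/-- Digits of digits. -/
theorem floor_div2 (x : ℝ) {n s : ℕ} (h : s ≤ n) :
    ⌊(2 : ℝ) ^ n * x⌋ / 2 ^ s = ⌊(2 : ℝ) ^ (n - s) * x⌋ := by
  have h1 : (2 : ℤ) ^ s = ((2 ^ s : ℕ) : ℤ) := by push_cast; rfl
  rw [h1, ← Int.floor_div_natCast]
  congr 1
  have h3 : (2 : ℝ) ^ n = 2 ^ (n - s) * 2 ^ s := by
    rw [← pow_add]
    congr 1
    omega
  rw [h3]
  push_cast
  field_simp

/-- The probability of a part. -/
theorem Pr_cond {Ω : Type} [Fintype Ω] {p : Ω → ℝ} {A : Ω → Prop}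
    (E : Set Ω) :
    Pr (Pool.Agent.H49.Ent.cond p A True) E =
      Pe p (fun ω => A ω ∧ ω ∈ E) / Pe p A := by
  classical
  unfold Pr Pe law
  rw [Finset.sum_div]
  refine Finset.sum_congr rfl fun ω _ => ?_
  unfold Pool.Agent.H49.Ent.cond
  by_cases h1 : A ω <;> by_cases h2 : ω ∈ E <;> simp [h1, h2, law]

/-- **The record of stage 1** on an event. -/
def RecS (F : Fam m J) {κ : Type} {r D : ℕ} (d : Dat F κ r D) (W : ℕ) (c : ℕ → Fin m)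
    (u o : ℕ → ℕ) (n₂ K₂ : ℕ) (η : ℝ) (B : F.Ω → Prop) : Prop :=
  ∃ (β γ₁ : Type) (Yv : F.Ω → β) (G₁ : F.Ω → γ₁),
    (∀ ω ω', B ω → B ω' → (∀ l < r, F.X J ω (c l) = F.X J ω' (c l)) → Yv ω = Yv ω') ∧
    (∀ ω ω', B ω → B ω' → G₁ ω = G₁ ω' → F.W ω = F.W ω') ∧
    (∀ ω ω', B ω → B ω' → G₁ ω = G₁ ω' → d.fc (slam F W ω) = d.fc (slam F W ω')) ∧
    (∀ ω ω', B ω → B ω' → G₁ ω = G₁ ω' →
      (∀ l < r, ⌊(2 : ℝ) ^ u l * d.v W l ω⌋ = ⌊(2 : ℝ) ^ u l * d.v W l ω'⌋) →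
      |(2 : ℝ) ^ n₂ * d.v W r ω - 2 ^ n₂ * d.v W r ω'| ≤ K₂) ∧
    CH (Pool.Agent.H49.Ent.cond F.p B True) (Vfu d W u) G₁ ≤
      ∑ l ∈ range r, ((u l - o l : ℕ) : ℝ) * Real.log 2 + η ∧
    ∑ l ∈ range r, ((J - o l : ℕ) : ℝ) * Real.log 2 - η ≤
      CH (Pool.Agent.H49.Ent.cond F.p B True) Yv G₁

section

variable {F : Fam m J} {κ : Type} {r D : ℕ} {d : Dat F κ r D} {A : F.Ω → Prop} {W : ℕ}
  {c : ℕ → Fin m} {E₀ : ℕ} {w : ℕ → ℕ}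

/-- **The rows of the coordinate of the target in the frame** between two levels, from stage 1. -/
theorem RecS.row_w {B : F.Ω → Prop} {u o : ℕ → ℕ} {n₂ K₂ : ℕ} {η : ℝ}
    (HR : RecS F d W c u o n₂ K₂ η B) (hF : FrW d A W c w E₀) (hBA : Sub B A) (hB : 0 < Pe F.p B)
    (hcr : ∀ l < r, c l ≠ c r) (hu : ∀ l < r, u l ≤ J) (hw : ∀ l < r, u l ≤ w l)
    (hou : ∀ l < r, o l ≤ u l)
    (hc : ∀ j, j ≠ c r → ∃ l < r, c l = j) {n₁ n₃ : ℕ} (hn : n₁ ≤ n₃) (hn3 : n₃ ≤ n₂)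
    (hn2 : n₂ ≤ w r) :
    CH (Pool.Agent.H49.Ent.cond F.p B True) (fun ω => ⌊(2 : ℝ) ^ n₃ * d.v W r ω⌋)
      (fun ω => (⌊(2 : ℝ) ^ n₁ * d.v W r ω⌋, (Vfu d W u ω,
        (d.fc (slam F W ω), F.W ω)))) ≤
    CH (Pool.Agent.H49.Ent.cond F.p B True) (fun ω => F.X n₃ ω (c r))
      (fun ω => (F.X n₁ ω (c r), oth (c r) J F (ptr F J ω))) +
    (2 * η + ((2 * r + 2) * Real.log (2 * (2 + r * E₀ : ℕ) + 1) +
      Real.log (2 * (K₂ + 1 : ℕ) + 1))) := by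
  obtain ⟨β, γ₁, Yv, G₁, y1, y2, y3, y4, y5, y6⟩ := HR
  have s0 := stg_frame_w (u := u) (o := o) hF hBA hB hcr hu hw hou hc hn (hn3.trans hn2) (K := K₂)
    (eV := η) y1 y2 y3 (fun ω ω' hω hω' e1 e2 => by
      have b1 := y4 ω ω' hω hω' e1 e2
      rw [← mul_sub, abs_mul, abs_of_pos (by positivity : (0 : ℝ) < 2 ^ n₂)] at b1
      rw [← mul_sub, abs_mul, abs_of_pos (by positivity : (0 : ℝ) < 2 ^ n₃)]
      refine le_trans (mul_le_mul_of_nonneg_right ?_ (abs_nonneg _)) b1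
      exact pow_le_pow_right₀ (by norm_num) hn3) y5
  have s0' : CH (Pool.Agent.H49.Ent.cond F.p B True) (fun ω => ⌊(2 : ℝ) ^ n₃ * d.v W r ω⌋)
      (fun ω => (⌊(2 : ℝ) ^ n₁ * d.v W r ω⌋, (Vfu d W u ω, (d.fc (slam F W ω), F.W ω)))) ≤ _ := s0
  linarith

/-- **The rows of the coordinate of the target in the frame** between two levels, from stage 1. -/
theorem RecS.row {B : F.Ω → Prop} {u o : ℕ → ℕ} {n₂ K₂ : ℕ} {η : ℝ}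
    (HR : RecS F d W c u o n₂ K₂ η B) (hF : FrD d A W c E₀) (hBA : Sub B A) (hB : 0 < Pe F.p B)
    (hcr : ∀ l < r, c l ≠ c r) (hu : ∀ l < r, u l ≤ J) (hou : ∀ l < r, o l ≤ u l)
    (hc : ∀ j, j ≠ c r → ∃ l < r, c l = j) {n₁ n₃ : ℕ} (hn : n₁ ≤ n₃) (hn3 : n₃ ≤ n₂)
    (hn2 : n₂ ≤ J) :
    CH (Pool.Agent.H49.Ent.cond F.p B True) (fun ω => ⌊(2 : ℝ) ^ n₃ * d.v W r ω⌋)
      (fun ω => (⌊(2 : ℝ) ^ n₁ * d.v W r ω⌋, (Vfu d W u ω,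
        (d.fc (slam F W ω), F.W ω)))) ≤
    CH (Pool.Agent.H49.Ent.cond F.p B True) (fun ω => F.X n₃ ω (c r))
      (fun ω => (F.X n₁ ω (c r), oth (c r) J F (ptr F J ω))) +
    (2 * η + ((2 * r + 2) * Real.log (2 * (2 + r * E₀ : ℕ) + 1) +
      Real.log (2 * (K₂ + 1 : ℕ) + 1))) :=
  HR.row_w (w := fun _ => J) (hF.toW fun _ _ => le_rfl) hBA hB hcr hu hu hou hc hn hn3 hn2

/-- **The rows for the average of the lines** (the field `row`): `Z` is the context with the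
time. -/
theorem row_ad_w {B₀ : F.Ω → Prop} (hF : FrW d B₀ W c w E₀) (hB₀ : 0 < Pe F.p B₀)
    (hcr : ∀ l < r, c l ≠ c r) (hc : ∀ j, j ≠ c r → ∃ l < r, c l = j)
    {u v o : ℕ → ℕ} (hu : ∀ l < r, u l ≤ J) (hw : ∀ l < r, u l ≤ w l) (hou : ∀ l < r, o l ≤ u l)
    (huv : ∀ l < r, v l ≤ u l) {n₂ X h K K₂ : ℕ} (hX : X ≤ n₂) (hn2 : n₂ ≤ w r)
    {Θ : Type} (Z : F.Ω → Θ) (hZ : ∀ ω ω', B₀ ω → B₀ ω' → Z ω = Z ω' → F.W ω = F.W ω' ∧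
      d.fc (slam F W ω) = d.fc (slam F W ω') ∧
      ∀ l < r, |(2 : ℝ) ^ v l * d.v W l ω - 2 ^ v l * d.v W l ω'| ≤ K)
    {π₀ cc η U : ℝ} (hπ : 0 < π₀)
    (hU : (1 - cc) * h * Real.log 2 + (3 * η + ((2 * r + 2) * Real.log (2 * (2 + r * E₀ : ℕ) + 1) +
      Real.log (2 * (K₂ + 1 : ℕ) + 1)) + r * Real.log (2 * (K + 1 : ℕ) + 1)) ≤ U)
    (hrow : ∀ B : F.Ω → Prop, Sub B B₀ → π₀ * Pe F.p B₀ ≤ Pe F.p B →
      (∀ n₁ n₃ : ℕ, n₁ ≤ n₃ → n₃ ≤ n₂ → n₂ - X ≤ n₁ →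
        CH (Pool.Agent.H49.Ent.cond F.p B True) (fun ω => F.X n₃ ω (c r))
          (fun ω => (F.X n₁ ω (c r), oth (c r) J F (ptr F J ω))) ≤
          (1 - cc) * ((n₃ : ℝ) - n₁) * Real.log 2 + η) ∧
      RecS F d W c u o n₂ K₂ η B) :
    ∀ j : ℕ, (j + 1) * h ≤ X → ∀ E : Set F.Ω,
      π₀ ≤ Pr (Pool.Agent.H49.Ent.cond F.p B₀ True) E →
      CH (rs (Pool.Agent.H49.Ent.cond F.p B₀ True) E)
        (fun ω => ⌊(2 : ℝ) ^ n₂ * d.v W r ω⌋ / 2 ^ (X - (j + 1) * h))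
        (fun ω => (⌊(2 : ℝ) ^ n₂ * d.v W r ω⌋ / 2 ^ (X - j * h), (Vfd d W u v ω, Z ω))) ≤ U := by
  intro j hj E hE
  have hjh : (j + 1) * h = j * h + h := by ring
  rw [Pool.PTH.rs_cond F.isLaw.nonneg (isLaw_cond F.isLaw hB₀) E]
  obtain ⟨B, hBd⟩ : ∃ B : F.Ω → Prop, B = fun ω => B₀ ω ∧ ω ∈ E := ⟨_, rfl⟩
  rw [← hBd]
  have hBs : Sub B B₀ := fun ω hω => by
    rw [hBd] at hω
    exact hω.1
  have hPB : π₀ * Pe F.p B₀ ≤ Pe F.p B := by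
    rw [Pr_cond, le_div_iff₀ hB₀] at hE
    rw [hBd]
    exact hE
  have hB : 0 < Pe F.p B := lt_of_lt_of_le (mul_pos hπ hB₀) hPB
  obtain ⟨h1, h2⟩ := hrow B hBs hPB
  have hp := isLaw_cond F.isLaw hB
  have h0 := hp.nonneg
  have hBp : ∀ ω, 0 < Pool.Agent.H49.Ent.cond F.p B True ω → B₀ ω :=
    fun ω hω => hBs ω (of_cond_pos hω)
  -- the digits
  obtain ⟨n₃, hn₃⟩ : ∃ n₃ : ℕ, n₃ = n₂ - (X - (j + 1) * h) := ⟨_, rfl⟩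
  obtain ⟨n₁, hn₁⟩ : ∃ n₁ : ℕ, n₁ = n₂ - (X - j * h) := ⟨_, rfl⟩
  have e3 : ∀ ω, ⌊(2 : ℝ) ^ n₂ * d.v W r ω⌋ / 2 ^ (X - (j + 1) * h) =
      ⌊(2 : ℝ) ^ n₃ * d.v W r ω⌋ := fun ω => by
    rw [hn₃]
    exact floor_div2 _ (by omega)
  have e1 : ∀ ω, ⌊(2 : ℝ) ^ n₂ * d.v W r ω⌋ / 2 ^ (X - j * h) =
      ⌊(2 : ℝ) ^ n₁ * d.v W r ω⌋ := fun ω => by
    rw [hn₁]
    exact floor_div2 _ (by omega)
  simp only [e1, e3]
  have a1 : n₁ ≤ n₃ := by omega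
  have a2 : n₃ ≤ n₂ := by omega
  have a3 : n₂ - X ≤ n₁ := by omega
  have a4 : (n₃ : ℝ) - n₁ = h := by
    have : n₃ = n₁ + h := by omega
    rw [this]
    push_cast
    ring
  have s1 := h2.row_w hF hBs hB hcr hu hw hou hc a1 a2 hn2
  have s2 := h1 n₁ n₃ a1 a2 a3
  rw [a4] at s2
  -- the positions in the frame
  have s3 : CH (Pool.Agent.H49.Ent.cond F.p B True) (Vfu d W u)
      (fun ω => (⌊(2 : ℝ) ^ n₁ * d.v W r ω⌋, (Vfd d W u v ω, Z ω))) ≤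
      r * Real.log (2 * (K + 1 : ℕ) + 1) := by
    have b1 := CH_pi_le h0 (Vfu d W u)
      (fun ω => (⌊(2 : ℝ) ^ n₁ * d.v W r ω⌋, (Vfd d W u v ω, Z ω)))
      (B := Real.log (2 * (K + 1 : ℕ) + 1)) fun l => ?_
    · rwa [Fintype.card_fin] at b1
    · refine mod_few hp (fun ω => d.v W l ω) _ (u := u l) (v := v l) (K := K) (huv l l.2)
        fun ω ω' hω hω' e => ?_
      simp only [Prod.mk.injEq] at e
      obtain ⟨-, e5, e6⟩ := e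
      exact ⟨congrFun e5 l, (hZ ω ω' (hBp ω hω) (hBp ω' hω') e6).2.2 l l.2⟩
  have s4 := CH_step h0 (fun ω => ⌊(2 : ℝ) ^ n₃ * d.v W r ω⌋) (Vfu d W u)
    (fun ω => (⌊(2 : ℝ) ^ n₁ * d.v W r ω⌋, (Vfd d W u v ω, Z ω)))
  have s5 : CH (Pool.Agent.H49.Ent.cond F.p B True) (fun ω => ⌊(2 : ℝ) ^ n₃ * d.v W r ω⌋)
      (fun ω => (Vfu d W u ω, (⌊(2 : ℝ) ^ n₁ * d.v W r ω⌋, (Vfd d W u v ω, Z ω)))) ≤
      CH (Pool.Agent.H49.Ent.cond F.p B True) (fun ω => ⌊(2 : ℝ) ^ n₃ * d.v W r ω⌋)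
      (fun ω => (⌊(2 : ℝ) ^ n₁ * d.v W r ω⌋, (Vfu d W u ω,
        (d.fc (slam F W ω), F.W ω)))) :=
    CH_mono_cond h0 fun ω ω' hω hω' e => by
      simp only [Prod.mk.injEq] at e
      obtain ⟨f1, f2, -, f3⟩ := e
      obtain ⟨g1, g2, -⟩ := hZ ω ω' (hBp ω hω) (hBp ω' hω') f3
      exact Prod.ext f2 (Prod.ext f1 (Prod.ext g2 g1))
  linarith

/-- **The rows for the average of the lines** (the field `row`): `Z` is the context with the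
time. -/
theorem row_ad {B₀ : F.Ω → Prop} (hF : FrD d B₀ W c E₀) (hB₀ : 0 < Pe F.p B₀)
    (hcr : ∀ l < r, c l ≠ c r) (hc : ∀ j, j ≠ c r → ∃ l < r, c l = j)
    {u v o : ℕ → ℕ} (hu : ∀ l < r, u l ≤ J) (hou : ∀ l < r, o l ≤ u l)
    (huv : ∀ l < r, v l ≤ u l) {n₂ X h K K₂ : ℕ} (hX : X ≤ n₂) (hn2 : n₂ ≤ J)
    {Θ : Type} (Z : F.Ω → Θ) (hZ : ∀ ω ω', B₀ ω → B₀ ω' → Z ω = Z ω' → F.W ω = F.W ω' ∧
      d.fc (slam F W ω) = d.fc (slam F W ω') ∧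
      ∀ l < r, |(2 : ℝ) ^ v l * d.v W l ω - 2 ^ v l * d.v W l ω'| ≤ K)
    {π₀ cc η U : ℝ} (hπ : 0 < π₀)
    (hU : (1 - cc) * h * Real.log 2 + (3 * η + ((2 * r + 2) * Real.log (2 * (2 + r * E₀ : ℕ) + 1) +
      Real.log (2 * (K₂ + 1 : ℕ) + 1)) + r * Real.log (2 * (K + 1 : ℕ) + 1)) ≤ U)
    (hrow : ∀ B : F.Ω → Prop, Sub B B₀ → π₀ * Pe F.p B₀ ≤ Pe F.p B →
      (∀ n₁ n₃ : ℕ, n₁ ≤ n₃ → n₃ ≤ n₂ → n₂ - X ≤ n₁ →
        CH (Pool.Agent.H49.Ent.cond F.p B True) (fun ω => F.X n₃ ω (c r))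
          (fun ω => (F.X n₁ ω (c r), oth (c r) J F (ptr F J ω))) ≤
          (1 - cc) * ((n₃ : ℝ) - n₁) * Real.log 2 + η) ∧
      RecS F d W c u o n₂ K₂ η B) :
    ∀ j : ℕ, (j + 1) * h ≤ X → ∀ E : Set F.Ω,
      π₀ ≤ Pr (Pool.Agent.H49.Ent.cond F.p B₀ True) E →
      CH (rs (Pool.Agent.H49.Ent.cond F.p B₀ True) E)
        (fun ω => ⌊(2 : ℝ) ^ n₂ * d.v W r ω⌋ / 2 ^ (X - (j + 1) * h))
        (fun ω => (⌊(2 : ℝ) ^ n₂ * d.v W r ω⌋ / 2 ^ (X - j * h), (Vfd d W u v ω, Z ω))) ≤ U :=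
  row_ad_w (w := fun _ => J) (hF.toW fun _ _ => le_rfl) hB₀ hcr hc hu hu hou huv hX hn2 Z hZ hπ hU
    hrow

end

end Pool.D2F2
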