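import Pool.Agent.H4.D2.Dif
import Pool.Agent.H23.D2.Fib
import Pool.Agent.H60.D2.Crw
import Pool.Agent.H60.D2.Box
import Pool.Agent.H91.LA.Afn

/-!
# Labels which are affine in one coordinate, from natural charts and a frame

`afl`: the label of the place `i + 1`, affine in the coordinate of the place `i`, whose slope is
the entry of the frame. `Pw.afl_pos`: it is natural. `Pw.afl_dif`: for two points of one natural
box whose first coordinates are near, the height over it and the coordinate in the frame are the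
same thing.
-/

set_option autoImplicit false

namespace Pool.D2F2

open Finset Real MvPolynomial
open Pool.Agent.H49.Ent Pool.Agent.H32.Dense Pool.STK Pool.KA Pool.KSAT Pool.K2S Pool.PB Pool.GEN
open Pool.S6C Pool.LA91 Pool.CHT Pool.CHX
open Pool.D2R (dd hs co nrm nrm_nonneg)
open Pool.D2F (cv CvC cv_congr cv_eq grd cv_grd cv_sub)
open Pool.D2Z (en en_eq en_succ en_zero en_nonneg en_mono Nc nrm_en cv_subl pow1)
open Pool.D2S (Pr Sg NtB yk dst dst_nonneg dst_le)
open Pool.F5 (NatH)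

variable {m J : ℕ}

/-- The point with the coordinate of the place `i` on its chart. -/
noncomputable def prj (c : ℕ → Fin m) (G : ℕ → MvPolynomial (Option (Fin m)) ℝ) (i : ℕ)
    (x : Option (Fin m) → ℝ) : Option (Fin m) → ℝ :=
  Function.update x (some (c i)) (eval x (G i))

/-- **The label of the place `i + 1`, affine in the coordinate of the place `i`**, with the slope
`s`. -/
noncomputable def afl (c : ℕ → Fin m) (G : ℕ → MvPolynomial (Option (Fin m)) ℝ) (i : ℕ)
    (s : ℝ) : MvPolynomial (Option (Fin m)) ℝ :=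
  bind₁ (fun o => if o = some (c i) then G i else X o) (G (i + 1)) +
    C s * (X (some (c i)) - G i)

section

variable {c : ℕ → Fin m} {G : ℕ → MvPolynomial (Option (Fin m)) ℝ} {i : ℕ} {s : ℝ}

theorem prj_none (x : Option (Fin m) → ℝ) : prj c G i x none = x none := by
  unfold prj
  rw [Function.update_of_ne (by simp)]

theorem prj_self (x : Option (Fin m) → ℝ) : prj c G i x (some (c i)) = eval x (G i) := by
  unfold prj
  rw [Function.update_self]

theorem prj_ne {k : Fin m} (hk : k ≠ c i) (x : Option (Fin m) → ℝ) :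
    prj c G i x (some k) = x (some k) := by
  unfold prj
  rw [Function.update_of_ne (fun h => hk (Option.some.inj h))]

theorem eval_afl (b : Option (Fin m) → ℝ) : eval b (afl c G i s) =
    eval (prj c G i b) (G (i + 1)) + s * (b (some (c i)) - eval b (G i)) := by
  have e1 : (fun o => eval b (if o = some (c i) then G i else X o)) = prj c G i b := by
    funext o
    unfold prj
    by_cases h : o = some (c i)
    · rw [if_pos h, h, Function.update_self]
    · rw [if_neg h, Function.update_of_ne h, eval_X]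
  unfold afl
  rw [map_add, map_mul, map_sub, eval_C, eval_X, Pool.D2R.ev_bind, e1]

/-- The chart at a point which differs in a later coordinate. -/
theorem eval_prj {j : ℕ} (hj : j ≤ i) (hc : ∀ l < i, c l ≠ c i) (hG : DepC c j (G j))
    (x : Option (Fin m) → ℝ) : eval (prj c G i x) (G j) = eval x (G j) :=
  hG _ _ (prj_none x) fun l hl => prj_ne (hc l (by omega)) x

theorem afl_afi (hc : ∀ l < i, c l ≠ c i) (hG : DepC c i (G i)) : AfI (c i) s (afl c G i s) := by
  intro b s'
  have e1 : eval (Function.update b (some (c i)) s') (G i) = eval b (G i) :=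
    hG _ _ (Function.update_of_ne (by simp) _ _) fun l hl =>
      Function.update_of_ne (fun h => hc l hl (Option.some.inj h)) _ _
  have e2 : prj c G i (Function.update b (some (c i)) s') = prj c G i b := by
    unfold prj
    rw [e1, Function.update_idem]
  rw [eval_afl, eval_afl, e1, e2, Function.update_self]
  ring

theorem afl_dep (hc : ∀ l < i, c l ≠ c i) (hG : DepC c i (G i))
    (hG' : DepC c (i + 1) (G (i + 1))) : DepC c (i + 1) (afl c G i s) := by
  intro b b' h0 h1
  have e1 : eval b (G i) = eval b' (G i) := hG _ _ h0 fun l hl => h1 l (by omega)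
  have e2 : eval (prj c G i b) (G (i + 1)) = eval (prj c G i b') (G (i + 1)) := by
    refine hG' _ _ (by rw [prj_none, prj_none, h0]) fun l hl => ?_
    rcases Nat.lt_succ_iff_lt_or_eq.1 hl with h | h
    · rw [prj_ne (hc l h), prj_ne (hc l h)]
      exact h1 l hl
    · rw [h, prj_self, prj_self, e1]
  rw [eval_afl, eval_afl, e1, e2, h1 i (Nat.lt_succ_self i)]

theorem afl_deg {D : ℕ} (hD : 1 ≤ D) (h0 : (G i).totalDegree ≤ D)
    (h1 : (G (i + 1)).totalDegree ≤ D) : (afl c G i s).totalDegree ≤ D * D := by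
  have hDD : D ≤ D * D := Nat.le_mul_self D
  unfold afl
  refine (totalDegree_add _ _).trans (max_le ?_ ?_)
  · refine Pool.D2R.deg_bind (fun o => ?_) h1
    split_ifs
    · exact h0
    · rw [totalDegree_X]
      exact hD
  · refine (totalDegree_mul _ _).trans ?_
    rw [totalDegree_C, zero_add]
    refine (totalDegree_sub _ _).trans (max_le ?_ (h0.trans hDD))
    rw [totalDegree_X]
    omega

/-- The direction with the component of the place `i` on the chart. -/
noncomputable def prv (c : ℕ → Fin m) (G : ℕ → MvPolynomial (Option (Fin m)) ℝ) (i : ℕ)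
    (x V : Option (Fin m) → ℝ) : Option (Fin m) → ℝ :=
  Function.update V (some (c i)) (dd (G i) x V)

theorem dd_X (o : Option (Fin m)) (x V : Option (Fin m) → ℝ) :
    dd (X o : MvPolynomial (Option (Fin m)) ℝ) x V = V o := by
  classical
  unfold dd
  rw [Finset.sum_eq_single o]
  · rw [pderiv_X_self, map_one, one_mul]
  · intro o' _ ho
    rw [pderiv_X_of_ne (Ne.symm ho), map_zero, zero_mul]
  · intro h
    exact absurd (Finset.mem_univ _) h

/-- The derivative of the affine label. -/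
theorem dd_afl (x V : Option (Fin m) → ℝ) : dd (afl c G i s) x V =
    dd (G (i + 1)) (prj c G i x) (prv c G i x V) + s * (V (some (c i)) - dd (G i) x V) := by
  have e1 : (fun o => eval x (if o = some (c i) then G i else X o)) = prj c G i x := by
    funext o
    unfold prj
    by_cases h : o = some (c i)
    · rw [if_pos h, h, Function.update_self]
    · rw [if_neg h, Function.update_of_ne h, eval_X]
  have e2 : (fun o => dd (if o = some (c i) then G i else X o) x V) = prv c G i x V := by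
    funext o
    unfold prv
    by_cases h : o = some (c i)
    · rw [if_pos h, h, Function.update_self]
    · rw [if_neg h, Function.update_of_ne h, dd_X]
  have e3 : dd (X (some (c i)) - G i : MvPolynomial (Option (Fin m)) ℝ) x V =
      V (some (c i)) - dd (G i) x V := by
    have h1 : ∀ P Q : MvPolynomial (Option (Fin m)) ℝ, dd (P - Q) x V = dd P x V - dd Q x V := by
      intro P Q
      unfold dd
      rw [← Finset.sum_sub_distrib]
      exact Finset.sum_congr rfl fun o _ => by rw [map_sub, map_sub]; ring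
    rw [h1, dd_X]
  unfold afl
  rw [Pool.D2R.dd_padd, Pool.D2R.dd_bind, e1, e2, Pool.D2R.dd_mul, Pool.D2R.dd_C, e3, eval_C]
  ring

end

section

variable {c : ℕ → Fin m} {g : ℕ → ℕ} {W k r : ℕ}
  {G : ℕ → MvPolynomial (Option (Fin m)) ℝ} {t : ℝ} {ψ : ℕ → Option (Fin m) → ℝ}
  {x x' : Option (Fin m) → ℝ} {Y : ℝ}

theorem ntb_mono {l k' : ℕ} (h : NtB c g W G t k l) (hk : k ≤ k') : NtB c g W G t k' l :=
  fun b hb V V' => (h b hb V V').trans (mul_le_mul_of_nonneg_right
    (div_le_div_of_nonneg_right (pow_le_pow_right₀ (by norm_num) hk) (by positivity))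
    (mul_nonneg (nrm_nonneg _ _ _ _ _ _ _) (nrm_nonneg _ _ _ _ _ _ _)))

/-- The new constant. -/
def kp (k i : ℕ) : ℕ := k + (k + 1) * (2 * i + 3) + 1

theorem Pw.ne {i l : ℕ} (H : Pw c g W k r G t ψ x x') (hi : i < r) (hl : l < r) (h : l ≠ i) :
    c l ≠ c i := fun e => h (H.inj hl hi e)

/-- The segment to the point on the chart. -/
theorem Pw.sgp (H : Pw c g W k r G t ψ x x') {i : ℕ} (hi : i + 1 < r) :
    Sg c g W k (i + 1) G t x (prj c G i x) ∧ dst c g W G (i + 1) x (prj c G i x) ≤ 1 ∧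
    dst c g W G (i + 1) x (prj c G i x) = 2 ^ g i * |x (some (c i)) - eval x (G i)| := by
  have hc : ∀ l < i, c l ≠ c i := fun l hl => H.ne (by omega) (by omega) (by omega)
  have e1 : ∀ j ≤ i, eval (prj c G i x) (G j) = eval x (G j) := fun j hj =>
    eval_prj hj hc (H.dep j) x
  have e2 : dst c g W G (i + 1) x (prj c G i x) =
      2 ^ g i * |x (some (c i)) - eval x (G i)| := by
    unfold dst
    rw [prj_none, sub_self, abs_zero, mul_zero, zero_add, Finset.sum_range_succ,
      Finset.sum_eq_zero fun l hl => ?_, zero_add, prj_self, e1 i le_rfl, sub_self, zero_sub,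
      abs_neg]
    have hl' := Finset.mem_range.1 hl
    rw [prj_ne (hc l hl'), e1 l hl'.le, sub_self, abs_zero, mul_zero]
  refine ⟨⟨H.inj.mono (Set.Iio_subset_Iio hi.le), H.dep, fun l hl => H.nat l (by omega),
    ⟨H.t0, fun l hl => H.px l (by omega)⟩, ⟨by rw [prj_none]; exact H.t0, fun l hl => ?_⟩⟩, ?_,
    e2⟩
  · rcases Nat.lt_succ_iff_lt_or_eq.1 hl with h | h
    · rw [prj_ne (hc l h), e1 l h.le]
      exact H.px l (by omega)
    · rw [h, prj_self, e1 i le_rfl, sub_self, abs_zero]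
      positivity
  · rw [e2]
    have h1 := H.px i (by omega)
    rw [le_div_iff₀ (by positivity), mul_comm] at h1
    exact h1

/-- **The frame at the point on the chart.** -/
theorem Pw.frp (H : Pw c g W k r G t ψ x x') {i : ℕ} (hi : i + 1 < r) {j : ℕ} (hj : j ≤ i + 1)
    (V : Option (Fin m) → ℝ) :
    |cv (ψ j) V - dd (G j) (prj c G i x) V| ≤ 2 ^ kp k i / 2 ^ g j * en c g W ψ j V := by
  obtain ⟨hs, hd1, -⟩ := H.sgp hi
  have hd0 := dst_nonneg c g W G (i + 1) x (prj c G i x)
  obtain ⟨d, hd⟩ : ∃ d, d = dst c g W G (i + 1) x (prj c G i x) := ⟨_, rfl⟩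
  have h1 := hs.main.1 j hj V
  rw [← hd] at h1 hd1 hd0
  have hk0 : (0 : ℝ) < 2 ^ k := by positivity
  have hg : (0 : ℝ) < 2 ^ g j := by positivity
  have hen := en_nonneg c g W ψ j V
  -- the norms
  have hnc : Nc c g W (i + 2) (2 ^ k) ψ (fun j => grd (G j) x) := by
    intro l hl V
    rw [cv_subl, cv_grd, abs_sub_comm]
    exact H.frm l (by omega) V
  have h2 : nrm c G g W j x V ≤ 2 ^ ((k + 1) * (i + 2)) * en c g W ψ j V := by
    rw [nrm_en]
    exact (hnc.en_le hk0.le (by omega) V).trans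
      (mul_le_mul_of_nonneg_right (pow1 k (i + 2)) hen)
  have h3 : (1 + 2 ^ k * d) ^ j ≤ 2 ^ ((k + 1) * (i + 1)) := by
    have a1 : 1 + 2 ^ k * d ≤ 1 + 2 ^ k := by
      have := mul_le_mul_of_nonneg_left hd1 hk0.le
      linarith
    refine (pow_le_pow_left₀ (by positivity) a1 j).trans ((pow1 k j).trans ?_)
    exact pow_le_pow_right₀ (by norm_num) (Nat.mul_le_mul_left _ hj)
  have h4 : 2 ^ k / 2 ^ g j * d * ((1 + 2 ^ k * d) ^ j * nrm c G g W j x V) ≤
      2 ^ (k + (k + 1) * (2 * i + 3)) / 2 ^ g j * en c g W ψ j V := by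
    have a1 : 2 ^ k / 2 ^ g j * d ≤ 2 ^ k / 2 ^ g j * 1 :=
      mul_le_mul_of_nonneg_left hd1 (by positivity)
    have a2 : (1 + 2 ^ k * d) ^ j * nrm c G g W j x V ≤
        2 ^ ((k + 1) * (i + 1)) * (2 ^ ((k + 1) * (i + 2)) * en c g W ψ j V) :=
      mul_le_mul h3 h2 (nrm_nonneg _ _ _ _ _ _ _) (by positivity)
    refine (mul_le_mul a1 a2 (mul_nonneg (by positivity) (nrm_nonneg _ _ _ _ _ _ _))
      (by positivity)).trans (le_of_eq ?_)
    have e1 : k + (k + 1) * (2 * i + 3) = k + (k + 1) * (i + 1) + (k + 1) * (i + 2) := by ring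
    rw [e1, pow_add, pow_add]
    ring
  have h5 := H.frm j (by omega) V
  have e1 : cv (ψ j) V - dd (G j) (prj c G i x) V = (cv (ψ j) V - dd (G j) x V) -
      (dd (G j) (prj c G i x) V - dd (G j) x V) := by ring
  rw [e1]
  refine (abs_sub _ _).trans ?_
  have h6 : 2 ^ k / 2 ^ g j * en c g W ψ j V ≤
      2 ^ (k + (k + 1) * (2 * i + 3)) / 2 ^ g j * en c g W ψ j V :=
    mul_le_mul_of_nonneg_right (div_le_div_of_nonneg_right
      (pow_le_pow_right₀ (by norm_num) (Nat.le_add_right _ _)) hg.le) hen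
  have e2 : (2 : ℝ) ^ kp k i / 2 ^ g j * en c g W ψ j V =
      2 ^ (k + (k + 1) * (2 * i + 3)) / 2 ^ g j * en c g W ψ j V +
      2 ^ (k + (k + 1) * (2 * i + 3)) / 2 ^ g j * en c g W ψ j V := by
    unfold kp
    rw [pow_succ]
    ring
  rw [e2]
  linarith

/-- **The affine label is natural.** -/
theorem Pw.afl_pos (H : Pw c g W k r G t ψ x x') (hψ : ∀ l, CvC c l (ψ l)) {i : ℕ}
    (hi : i + 1 < r) :
    |x (some (c (i + 1))) - eval x (afl c G i (ψ (i + 1) (some (c i))))| ≤
      2 ^ ((k + 1) * (i + 3)) / 2 ^ g (i + 1) := by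
  obtain ⟨hs, hd1, hde⟩ := H.sgp hi
  have hc : ∀ l < i, c l ≠ c i := fun l hl => H.ne (by omega) (by omega) (by omega)
  have hd0 := dst_nonneg c g W G (i + 1) x (prj c G i x)
  obtain ⟨d, hd⟩ : ∃ d, d = dst c g W G (i + 1) x (prj c G i x) := ⟨_, rfl⟩
  obtain ⟨V, hV⟩ : ∃ V : Option (Fin m) → ℝ, V = prj c G i x - x := ⟨_, rfl⟩
  have h1 := hs.main.2.2 (i + 1) le_rfl
  rw [← hd] at h1 hd1 hd0 hde
  rw [← hV] at h1
  have hk0 : (0 : ℝ) < 2 ^ k := by positivity
  have hg : (0 : ℝ) < 2 ^ g (i + 1) := by positivity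
  -- the direction
  have v0 : V none = 0 := by
    rw [hV, Pi.sub_apply, prj_none, sub_self]
  have vl : ∀ l < i, V (some (c l)) = 0 := fun l hl => by
    rw [hV, Pi.sub_apply, prj_ne (hc l hl), sub_self]
  have vi : V (some (c i)) = -(x (some (c i)) - eval x (G i)) := by
    rw [hV, Pi.sub_apply, prj_self]
    ring
  have c0 : ∀ l ≤ i, cv (ψ l) V = 0 := fun l hl => by
    have := cv_congr (hψ l) (W := V) (W' := 0) (by rw [v0]; rfl)
      (fun j hj => by rw [vl j (by omega)]; rfl)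
    rw [this]
    unfold cv
    simp
  have c1 : cv (ψ (i + 1)) V = ψ (i + 1) (some (c i)) * V (some (c i)) := by
    rw [cv_eq (H.inj.mono (Set.Iio_subset_Iio hi.le)) (hψ (i + 1)), v0, mul_zero, zero_add,
      Finset.sum_range_succ, Finset.sum_eq_zero fun j hj => ?_, zero_add]
    rw [vl j (Finset.mem_range.1 hj), mul_zero]
  have h2 : en c g W ψ (i + 1) V ≤ 1 := by
    rw [en_eq, v0, abs_zero, mul_zero, zero_add, Finset.sum_range_succ,
      Finset.sum_eq_zero fun j hj => ?_, zero_add, c0 i le_rfl, sub_zero, vi, abs_neg, ← hde]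
    · exact hd1
    · have hj' := Finset.mem_range.1 hj
      rw [vl j hj', c0 j hj'.le, sub_zero, abs_zero, mul_zero]
  have h3 := H.frm (i + 1) hi V
  have h4 := H.px (i + 1) hi
  have h5 : 2 ^ k / 2 ^ g (i + 1) * en c g W ψ (i + 1) V ≤ 2 ^ k / 2 ^ g (i + 1) * 1 :=
    mul_le_mul_of_nonneg_left h2 (by positivity)
  have h6 : (1 + 2 ^ k * d) ^ (i + 1) ≤ 2 ^ ((k + 1) * (i + 1)) := by
    have a1 : 1 + 2 ^ k * d ≤ 1 + 2 ^ k := by
      have := mul_le_mul_of_nonneg_left hd1 hk0.le
      linarith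
    exact (pow_le_pow_left₀ (by positivity) a1 (i + 1)).trans (pow1 k (i + 1))
  have h7 : 2 ^ k / 2 ^ g (i + 1) * d * ((1 + 2 ^ k * d) ^ (i + 1) * d) ≤
      2 ^ k / 2 ^ g (i + 1) * 1 * (2 ^ ((k + 1) * (i + 1)) * 1) :=
    mul_le_mul (mul_le_mul_of_nonneg_left hd1 (by positivity))
      (mul_le_mul h6 hd1 hd0 (by positivity)) (by positivity) (by positivity)
  have e1 : x (some (c (i + 1))) - eval x (afl c G i (ψ (i + 1) (some (c i)))) =
      (x (some (c (i + 1))) - eval x (G (i + 1))) -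
      (eval (prj c G i x) (G (i + 1)) - eval x (G (i + 1)) - dd (G (i + 1)) x V) +
      (cv (ψ (i + 1)) V - dd (G (i + 1)) x V) := by
    rw [eval_afl, c1, vi]
    ring
  rw [e1]
  have e2 : (1 : ℝ) / 2 ^ g (i + 1) + 2 ^ k / 2 ^ g (i + 1) * 1 * (2 ^ ((k + 1) * (i + 1)) * 1) +
      2 ^ k / 2 ^ g (i + 1) * 1 ≤ 2 ^ ((k + 1) * (i + 3)) / 2 ^ g (i + 1) := by
    rw [mul_one, mul_one, div_mul_eq_mul_div, ← add_div, ← add_div]
    refine div_le_div_of_nonneg_right ?_ hg.le
    have f1 : (2 : ℝ) ^ ((k + 1) * (i + 3)) =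
        2 ^ (k + 1) * (2 ^ (k + 1) * 2 ^ ((k + 1) * (i + 1))) := by
      rw [← pow_add, ← pow_add]
      congr 1
      ring
    have f2 : (1 : ℝ) ≤ 2 ^ ((k + 1) * (i + 1)) := one_le_pow₀ (by norm_num)
    have f3 : (1 : ℝ) ≤ 2 ^ k := one_le_pow₀ (by norm_num)
    rw [f1, pow_succ]
    have f4 : ∀ P Q : ℝ, 1 ≤ P → 1 ≤ Q → 1 + Q * P + Q ≤ Q * 2 * (Q * 2 * P) := by
      intro P Q hP hQ
      have g1 : Q * P ≤ Q * (Q * P) := le_mul_of_one_le_left (by positivity) hQ
      have g2 : 1 ≤ Q * P := one_le_mul_of_one_le_of_one_le hQ hP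
      have g3 : Q ≤ Q * (Q * P) := le_mul_of_one_le_right (by positivity) g2
      have e : Q * 2 * (Q * 2 * P) = 4 * (Q * (Q * P)) := by ring
      linarith
    exact f4 _ _ f2 f3
  have t1 := abs_add_le ((x (some (c (i + 1))) - eval x (G (i + 1))) -
    (eval (prj c G i x) (G (i + 1)) - eval x (G (i + 1)) - dd (G (i + 1)) x V))
    (cv (ψ (i + 1)) V - dd (G (i + 1)) x V)
  have t2 := abs_sub (x (some (c (i + 1))) - eval x (G (i + 1)))
    (eval (prj c G i x) (G (i + 1)) - eval x (G (i + 1)) - dd (G (i + 1)) x V)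
  linarith

/-- **The velocity over the affine label is natural.** -/
theorem Pw.afl_vel (H : Pw c g W k r G t ψ x x') (hψ : ∀ l, CvC c l (ψ l)) {i : ℕ}
    (hi : i + 1 < r) {V : Option (Fin m) → ℝ} {E : ℝ} (h0 : 2 ^ W * |V none| ≤ E)
    (hV : ∀ l ≤ i + 1, 2 ^ g l * |V (some (c l)) - dd (G l) x V| ≤ E) :
    2 ^ g (i + 1) * |V (some (c (i + 1))) - dd (afl c G i (ψ (i + 1) (some (c i)))) x V| ≤
      (i + 3 : ℕ) * 2 ^ ((k + 1) * (i + 2)) * E := by
  obtain ⟨hs, hd1, -⟩ := H.sgp hi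
  have hc : ∀ l < i, c l ≠ c i := fun l hl => H.ne (by omega) (by omega) (by omega)
  have hE : 0 ≤ E := le_trans (by positivity) h0
  have hd0 := dst_nonneg c g W G (i + 1) x (prj c G i x)
  obtain ⟨d, hd⟩ : ∃ d, d = dst c g W G (i + 1) x (prj c G i x) := ⟨_, rfl⟩
  obtain ⟨V', hV'⟩ : ∃ V' : Option (Fin m) → ℝ, V' = prv c G i x V := ⟨_, rfl⟩
  have h1 := hs.main.1 (i + 1) le_rfl V'
  rw [← hd] at h1 hd1 hd0
  have hk0 : (0 : ℝ) < 2 ^ k := by positivity
  have hk1 : (1 : ℝ) ≤ 2 ^ k := one_le_pow₀ (by norm_num)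
  have hg : (0 : ℝ) < 2 ^ g (i + 1) := by positivity
  have w0 : V' none = V none := by
    rw [hV']
    unfold prv
    rw [Function.update_of_ne (by simp)]
  have wl : ∀ l < i, V' (some (c l)) = V (some (c l)) := fun l hl => by
    rw [hV']
    unfold prv
    rw [Function.update_of_ne (fun h => hc l hl (Option.some.inj h))]
  have wi : V' (some (c i)) = dd (G i) x V := by
    rw [hV']
    unfold prv
    rw [Function.update_self]
  have wd : ∀ l ≤ i, dd (G l) x V' = dd (G l) x V := fun l hl =>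
    Pool.D2Z.dd_dep (H.dep l) rfl (fun _ _ => rfl) w0 fun j hj => wl j (by omega)
  -- the norm
  have n1 : nrm c G g W (i + 1) x V' ≤ (i + 1 : ℕ) * E := by
    unfold nrm
    rw [w0, Finset.sum_range_succ, wi, wd i le_rfl, sub_self, abs_zero, mul_zero, add_zero]
    have a1 : ∑ l ∈ range i, 2 ^ g l * |V' (some (c l)) - dd (G l) x V'| ≤ i * E := by
      refine (Finset.sum_le_card_nsmul _ _ E fun l hl => ?_).trans (le_of_eq ?_)
      · have hl' := Finset.mem_range.1 hl
        rw [wl l hl', wd l hl'.le]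
        exact hV l (by omega)
      · rw [Finset.card_range, nsmul_eq_mul]
    push_cast
    linarith
  have n0 : 0 ≤ nrm c G g W (i + 1) x V' := nrm_nonneg _ _ _ _ _ _ _
  -- the third term
  have h3 : (1 + 2 ^ k * d) ^ (i + 1) ≤ 2 ^ ((k + 1) * (i + 1)) := by
    have a1 : 1 + 2 ^ k * d ≤ 1 + 2 ^ k := by
      have := mul_le_mul_of_nonneg_left hd1 hk0.le
      linarith
    exact (pow_le_pow_left₀ (by positivity) a1 (i + 1)).trans (pow1 k (i + 1))
  obtain ⟨P, hP⟩ : ∃ P : ℝ, P = 2 ^ ((k + 1) * (i + 2)) := ⟨_, rfl⟩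
  have hP1 : 1 ≤ P := by
    rw [hP]
    exact one_le_pow₀ (by norm_num)
  have hPk : (2 : ℝ) ^ k ≤ P := by
    rw [hP]
    refine pow_le_pow_right₀ (by norm_num) ?_
    nlinarith
  have hPP : (2 : ℝ) ^ k * 2 ^ ((k + 1) * (i + 1)) ≤ P := by
    rw [hP, ← pow_add]
    refine pow_le_pow_right₀ (by norm_num) ?_
    nlinarith
  have t3 : 2 ^ g (i + 1) * |dd (G (i + 1)) (prj c G i x) V' - dd (G (i + 1)) x V'| ≤
      (i + 1 : ℕ) * P * E := by
    have a1 : 2 ^ k / 2 ^ g (i + 1) * d * ((1 + 2 ^ k * d) ^ (i + 1) *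
        nrm c G g W (i + 1) x V') ≤
        2 ^ k / 2 ^ g (i + 1) * 1 * (2 ^ ((k + 1) * (i + 1)) * ((i + 1 : ℕ) * E)) :=
      mul_le_mul (mul_le_mul_of_nonneg_left hd1 (by positivity))
        (mul_le_mul h3 n1 n0 (by positivity)) (mul_nonneg (by positivity) n0) (by positivity)
    refine (mul_le_mul_of_nonneg_left (h1.trans a1) hg.le).trans ?_
    have e1 : (2 : ℝ) ^ g (i + 1) * (2 ^ k / 2 ^ g (i + 1) * 1 *
        (2 ^ ((k + 1) * (i + 1)) * ((i + 1 : ℕ) * E))) =
        2 ^ k * 2 ^ ((k + 1) * (i + 1)) * ((i + 1 : ℕ) * E) := by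
      field_simp
    rw [e1]
    calc 2 ^ k * 2 ^ ((k + 1) * (i + 1)) * ((i + 1 : ℕ) * E) ≤ P * ((i + 1 : ℕ) * E) :=
          mul_le_mul_of_nonneg_right hPP (by positivity)
      _ = (i + 1 : ℕ) * P * E := by ring
  -- the second term
  obtain ⟨U, hU⟩ : ∃ U : Option (Fin m) → ℝ, U = V - V' := ⟨_, rfl⟩
  have u0 : U none = 0 := by
    rw [hU, Pi.sub_apply, w0, sub_self]
  have ul : ∀ l < i, U (some (c l)) = 0 := fun l hl => by
    rw [hU, Pi.sub_apply, wl l hl, sub_self]
  have ui : U (some (c i)) = V (some (c i)) - dd (G i) x V := by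
    rw [hU, Pi.sub_apply, wi]
  have c0 : ∀ l ≤ i, cv (ψ l) U = 0 := fun l hl => by
    have := cv_congr (hψ l) (W := U) (W' := 0) (by rw [u0]; rfl)
      (fun j hj => by rw [ul j (by omega)]; rfl)
    rw [this]
    unfold cv
    simp
  have c1 : cv (ψ (i + 1)) U = ψ (i + 1) (some (c i)) * U (some (c i)) := by
    rw [cv_eq (H.inj.mono (Set.Iio_subset_Iio hi.le)) (hψ (i + 1)), u0, mul_zero, zero_add,
      Finset.sum_range_succ, Finset.sum_eq_zero fun j hj => ?_, zero_add]
    rw [ul j (Finset.mem_range.1 hj), mul_zero]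
  have h2 : en c g W ψ (i + 1) U ≤ E := by
    rw [en_eq, u0, abs_zero, mul_zero, zero_add, Finset.sum_range_succ,
      Finset.sum_eq_zero fun j hj => ?_, zero_add, c0 i le_rfl, sub_zero, ui]
    · exact hV i (by omega)
    · have hj' := Finset.mem_range.1 hj
      rw [ul j hj', c0 j hj'.le, sub_zero, abs_zero, mul_zero]
  have t2 : 2 ^ g (i + 1) * |cv (ψ (i + 1)) U - dd (G (i + 1)) x U| ≤ P * E := by
    refine (mul_le_mul_of_nonneg_left (H.frm (i + 1) hi U) hg.le).trans ?_
    have e1 : (2 : ℝ) ^ g (i + 1) * (2 ^ k / 2 ^ g (i + 1) * en c g W ψ (i + 1) U) =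
        2 ^ k * en c g W ψ (i + 1) U := by
      field_simp
    rw [e1]
    exact mul_le_mul hPk h2 (en_nonneg _ _ _ _ _ _) (by positivity)
  have t1 := hV (i + 1) le_rfl
  have hEP : E ≤ P * E := le_mul_of_one_le_left hE hP1
  have dU : dd (G (i + 1)) x U = dd (G (i + 1)) x V - dd (G (i + 1)) x V' := by
    rw [hU]
    unfold dd
    rw [← Finset.sum_sub_distrib]
    exact Finset.sum_congr rfl fun o _ => by rw [Pi.sub_apply]; ring
  have e1 : V (some (c (i + 1))) - dd (afl c G i (ψ (i + 1) (some (c i)))) x V =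
      (V (some (c (i + 1))) - dd (G (i + 1)) x V) -
      (cv (ψ (i + 1)) U - dd (G (i + 1)) x U) -
      (dd (G (i + 1)) (prj c G i x) V' - dd (G (i + 1)) x V') := by
    rw [dd_afl, c1, ui, dU, ← hV']
    ring
  rw [e1, ← hP]
  have f1 := abs_sub ((V (some (c (i + 1))) - dd (G (i + 1)) x V) -
      (cv (ψ (i + 1)) U - dd (G (i + 1)) x U))
      (dd (G (i + 1)) (prj c G i x) V' - dd (G (i + 1)) x V')
  have f2 := abs_sub (V (some (c (i + 1))) - dd (G (i + 1)) x V)
      (cv (ψ (i + 1)) U - dd (G (i + 1)) x U)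
  have f3 := mul_le_mul_of_nonneg_left (f1.trans (add_le_add f2 le_rfl)) hg.le
  refine f3.trans ?_
  rw [mul_add, mul_add]
  have e2 : ((i + 3 : ℕ) : ℝ) * P * E = P * E + P * E + (i + 1 : ℕ) * P * E := by
    push_cast
    ring
  rw [e2]
  linarith

/-- The point with the coordinates of the places `i` and `i + 1` on their charts. -/
noncomputable def prj2 (c : ℕ → Fin m) (G : ℕ → MvPolynomial (Option (Fin m)) ℝ) (i : ℕ)
    (x : Option (Fin m) → ℝ) : Option (Fin m) → ℝ :=
  prj c G (i + 1) (prj c G i x)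

/-- The two points on the charts. -/
theorem Pw.prj2 (H : Pw c g W k r G t ψ x x') {i : ℕ} (hi : i + 1 < r) :
    Pw c g W (kp k i) (i + 2) G t ψ (prj2 c G i x) (prj2 c G i x') := by
  have hc : ∀ l < i, c l ≠ c i := fun l hl => H.ne (by omega) (by omega) (by omega)
  have hc' : ∀ l < i + 1, c l ≠ c (i + 1) := fun l hl => H.ne (by omega) (by omega) (by omega)
  have e0 : ∀ z : Option (Fin m) → ℝ, D2F2.prj2 c G i z none = z none := fun z => by
    unfold D2F2.prj2
    rw [prj_none, prj_none]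
  have e1 : ∀ z : Option (Fin m) → ℝ, ∀ l < i, D2F2.prj2 c G i z (some (c l)) =
      z (some (c l)) := fun z l hl => by
    unfold D2F2.prj2
    rw [prj_ne (hc' l (by omega)), prj_ne (hc l hl)]
  have e2 : ∀ z : Option (Fin m) → ℝ, D2F2.prj2 c G i z (some (c i)) = eval z (G i) :=
    fun z => by
    unfold D2F2.prj2
    rw [prj_ne (hc' i (by omega)), prj_self]
  have e3 : ∀ z : Option (Fin m) → ℝ, D2F2.prj2 c G i z (some (c (i + 1))) =
      eval (prj c G i z) (G (i + 1)) := fun z => by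
    unfold D2F2.prj2
    rw [prj_self]
  have e4 : ∀ z : Option (Fin m) → ℝ, ∀ l ≤ i + 1, eval (D2F2.prj2 c G i z) (G l) =
      eval (prj c G i z) (G l) := fun z l hl => by
    unfold D2F2.prj2
    exact eval_prj hl hc' (H.dep l) _
  have e5 : ∀ z : Option (Fin m) → ℝ, ∀ l ≤ i, eval (prj c G i z) (G l) = eval z (G l) :=
    fun z l hl => eval_prj hl hc (H.dep l) z
  have hk : k ≤ kp k i := by
    unfold kp
    omega
  have hpx : ∀ z : Option (Fin m) → ℝ, (∀ l < r, |z (some (c l)) - eval z (G l)| ≤ 1 / 2 ^ g l) →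
      ∀ l < i + 2, |D2F2.prj2 c G i z (some (c l)) - eval (D2F2.prj2 c G i z) (G l)| ≤
        1 / 2 ^ g l := by
    intro z hz l hl
    rw [e4 z l (by omega)]
    rcases Nat.lt_or_ge l i with h | h
    · rw [e1 z l h, e5 z l h.le]
      exact hz l (by omega)
    · rcases Nat.eq_or_lt_of_le h with h' | h'
      · rw [← h', e2, e5 z i le_rfl, sub_self, abs_zero]
        positivity
      · have h'' : l = i + 1 := by omega
        rw [h'', e3, sub_self, abs_zero]
        positivity
  refine ⟨H.inj.mono (Set.Iio_subset_Iio (by omega)), H.dep,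
    fun l hl => ntb_mono (H.nat l (by omega)) hk, by rw [e0]; exact H.t0, by rw [e0, e0, H.t1],
    hpx x H.px, hpx x' H.px', fun l hl V => ?_⟩
  have h1 := H.frp hi (j := l) (by omega) V
  have h2 : dd (G l) (D2F2.prj2 c G i x) V = dd (G l) (prj c G i x) V :=
    Pool.D2Z.dd_dep (H.dep l) (by unfold D2F2.prj2; rw [prj_none]) (fun j hj => by
      unfold D2F2.prj2
      rw [prj_ne (hc' j (by omega))]) rfl (fun _ _ => rfl)
  rw [h2]
  exact h1

/-- **The height over the affine label and the coordinate in the frame.** -/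
theorem Pw.afl_dif (H : Pw c g W k r G t ψ x x') (hψ : ∀ l, CvC c l (ψ l)) {i : ℕ}
    (hi : i + 1 < r) (hY : (2 * (i + 2 : ℕ) + 2) * 2 ^ kp k i ≤ Y) {M : ℝ} (hM : 0 ≤ M)
    (h : ∀ j < i, 2 ^ g j * |(x' - x) (some (c j)) - cv (ψ j) (x' - x)| ≤ M ∨
      2 ^ g j * |(x' (some (c j)) - eval x' (G j)) - (x (some (c j)) - eval x (G j))| ≤ M) :
    2 ^ g (i + 1) * |((x' - x) (some (c (i + 1))) - cv (ψ (i + 1)) (x' - x)) -
      ((x' (some (c (i + 1))) - eval x' (afl c G i (ψ (i + 1) (some (c i))))) -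
      (x (some (c (i + 1))) - eval x (afl c G i (ψ (i + 1) (some (c i))))))| ≤
      Y ^ ((i + 2 + 4) * (i + 2)) * M := by
  have hc : ∀ l < i, c l ≠ c i := fun l hl => H.ne (by omega) (by omega) (by omega)
  have hc' : ∀ l < i + 1, c l ≠ c (i + 1) := fun l hl => H.ne (by omega) (by omega) (by omega)
  have hp := H.prj2 hi
  have e0 : ∀ z : Option (Fin m) → ℝ, D2F2.prj2 c G i z none = z none := fun z => by
    unfold D2F2.prj2
    rw [prj_none, prj_none]
  have e1 : ∀ z : Option (Fin m) → ℝ, ∀ l < i, D2F2.prj2 c G i z (some (c l)) =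
      z (some (c l)) := fun z l hl => by
    unfold D2F2.prj2
    rw [prj_ne (hc' l (by omega)), prj_ne (hc l hl)]
  have e2 : ∀ z : Option (Fin m) → ℝ, D2F2.prj2 c G i z (some (c i)) = eval z (G i) :=
    fun z => by
    unfold D2F2.prj2
    rw [prj_ne (hc' i (by omega)), prj_self]
  have e4 : ∀ z : Option (Fin m) → ℝ, ∀ l ≤ i + 1, eval (D2F2.prj2 c G i z) (G l) =
      eval (prj c G i z) (G l) := fun z l hl => by
    unfold D2F2.prj2
    exact eval_prj hl hc' (H.dep l) _
  have e5 : ∀ z : Option (Fin m) → ℝ, ∀ l ≤ i, eval (prj c G i z) (G l) = eval z (G l) :=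
    fun z l hl => eval_prj hl hc (H.dep l) z
  have k1 := hp.dif hY hM (l := i + 1) (by omega) fun j hj => by
    rcases Nat.lt_succ_iff_lt_or_eq.1 hj with h1 | h1
    · rcases h j h1 with h2 | h2
      · left
        have e6 : cv (ψ j) (D2F2.prj2 c G i x' - D2F2.prj2 c G i x) = cv (ψ j) (x' - x) :=
          cv_congr (hψ j) (by rw [Pi.sub_apply, Pi.sub_apply, e0, e0]) fun l hl => by
            rw [Pi.sub_apply, Pi.sub_apply, e1 _ l (by omega), e1 _ l (by omega)]
        rw [e6, Pi.sub_apply, e1 _ j h1, e1 _ j h1]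
        exact h2
      · right
        rw [e4 x' j (by omega), e4 x j (by omega), e5 x' j h1.le, e5 x j h1.le, e1 _ j h1,
          e1 _ j h1]
        exact h2
    · right
      rw [h1, e4 x' i (by omega), e4 x i (by omega), e5 x' i le_rfl, e5 x i le_rfl, e2, e2,
        sub_self, sub_self, sub_self, abs_zero, mul_zero]
      exact hM
  rw [e4 x' (i + 1) le_rfl, e4 x (i + 1) le_rfl] at k1
  have e7 : cv (ψ (i + 1)) (x' - x) = cv (ψ (i + 1)) (D2F2.prj2 c G i x' - D2F2.prj2 c G i x) +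
      ψ (i + 1) (some (c i)) * ((x' (some (c i)) - eval x' (G i)) -
        (x (some (c i)) - eval x (G i))) := by
    rw [cv_eq (H.inj.mono (Set.Iio_subset_Iio hi.le)) (hψ (i + 1)),
      cv_eq (H.inj.mono (Set.Iio_subset_Iio hi.le)) (hψ (i + 1)), Finset.sum_range_succ,
      Finset.sum_range_succ]
    have e8 : ∑ j ∈ range i, ψ (i + 1) (some (c j)) * (x' - x) (some (c j)) =
        ∑ j ∈ range i, ψ (i + 1) (some (c j)) *
          (D2F2.prj2 c G i x' - D2F2.prj2 c G i x) (some (c j)) := by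
      refine Finset.sum_congr rfl fun j hj => ?_
      have hj' := Finset.mem_range.1 hj
      rw [Pi.sub_apply, Pi.sub_apply, e1 _ j hj', e1 _ j hj']
    rw [e8, Pi.sub_apply, Pi.sub_apply, Pi.sub_apply, Pi.sub_apply, e0, e0, e2, e2]
    ring
  have e9 : ((x' - x) (some (c (i + 1))) - cv (ψ (i + 1)) (x' - x)) -
      ((x' (some (c (i + 1))) - eval x' (afl c G i (ψ (i + 1) (some (c i))))) -
      (x (some (c (i + 1))) - eval x (afl c G i (ψ (i + 1) (some (c i)))))) =
      -(cv (ψ (i + 1)) (D2F2.prj2 c G i x' - D2F2.prj2 c G i x) -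
        (eval (prj c G i x') (G (i + 1)) - eval (prj c G i x) (G (i + 1)))) := by
    rw [eval_afl, eval_afl, e7, Pi.sub_apply]
    ring
  rw [e9, abs_neg]
  exact k1

end

end Pool.D2F2
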