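import Pool.Agent.H4.D2.Afl

/-!
# Velocities over charts and over affine labels, and velocities in the frame

`Pw.vdif`: for two points of one natural box and two velocities, the velocity over the chart and the
velocity in the frame are the same thing, if the first places are near. `Pw.afl_vdif`: the same for
the label which is affine in the place before.
-/

set_option autoImplicit false

namespace Pool.D2F2

open Finset Real MvPolynomial
open Pool.Agent.H49.Ent Pool.Agent.H32.Dense Pool.STK Pool.KA Pool.KSAT Pool.K2S Pool.PB Pool.GEN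
open Pool.S6C Pool.LA91 Pool.CHT Pool.CHX
open Pool.D2R (dd hs co nrm nrm_nonneg)
open Pool.D2F (cv CvC cv_congr cv_eq grd cv_grd cv_sub)
open Pool.D2Z (en en_eq en_succ en_zero en_nonneg en_mono Nc nrm_en cv_subl pow1)
open Pool.D2S (Pr Sg NtB yk dst dst_nonneg dst_le dst_comm)

variable {m J : ℕ} {c : ℕ → Fin m} {g : ℕ → ℕ} {W k r : ℕ}
  {G : ℕ → MvPolynomial (Option (Fin m)) ℝ} {t : ℝ} {ψ : ℕ → Option (Fin m) → ℝ}
  {x x' : Option (Fin m) → ℝ} {Y : ℝ}

theorem dd_sub_dir (Q : MvPolynomial (Option (Fin m)) ℝ) (x V V' : Option (Fin m) → ℝ) :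
    dd Q x (V' - V) = dd Q x V' - dd Q x V := by
  unfold dd
  rw [← Finset.sum_sub_distrib]
  exact Finset.sum_congr rfl fun o _ => by rw [Pi.sub_apply]; ring

/-- **The velocity over the chart and the velocity in the frame.** -/
theorem Pw.vdif (H : Pw c g W k r G t ψ x x') (hY : (2 * r + 2) * 2 ^ k ≤ Y) {l : ℕ} (hl : l < r)
    {V V' : Option (Fin m) → ℝ} {E M N : ℝ} (hE0 : 2 ^ W * |V' none| ≤ E)
    (hE : ∀ j < l, 2 ^ g j * |V' (some (c j)) - dd (G j) x' V'| ≤ E)
    (hM : en c g W ψ l (V' - V) ≤ M) (hN : dst c g W G l x x' ≤ N) :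
    2 ^ g l * |cv (ψ l) (V' - V) - (dd (G l) x' V' - dd (G l) x V)| ≤
      Y * M + Y ^ (2 * r + 2) * (N * E) := by
  obtain ⟨y2, yk1, yr, yr2, yk2, yk3, -⟩ := yk hY
  have hk0 : (0 : ℝ) < 2 ^ k := by positivity
  have hY0 : 0 < Y := by linarith
  have hlr : (l : ℝ) ≤ r := by exact_mod_cast hl.le
  have hg : (0 : ℝ) < 2 ^ g l := by positivity
  have hE00 : 0 ≤ E := le_trans (by positivity) hE0
  have hD0 := dst_nonneg c g W G l x x'
  have hN0 : 0 ≤ N := hD0.trans hN
  have hen0 := en_nonneg c g W ψ l (V' - V)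
  have hD2 : dst c g W G l x x' ≤ r * 2 := by
    have h1 := dst_le (c := c) (g := g) (a := W) (G := G) (r := l) (x := x) (x' := x') (U := 1)
      H.t1 (fun j hj => H.px j (by omega)) (fun j hj => H.px' j (by omega))
    rw [mul_one] at h1
    linarith
  have h1 : 1 + 2 ^ k * dst c g W G l x x' ≤ Y := by
    have := mul_le_mul_of_nonneg_left hD2 hk0.le
    linarith
  have h2 : (1 + 2 ^ k * dst c g W G l x x') ^ l ≤ Y ^ r :=
    (pow_le_pow_left₀ (by positivity) h1 l).trans (pow_le_pow_right₀ (by linarith) hl.le)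
  -- the norm
  have n1 : nrm c G g W l x' V' ≤ Y * E := by
    have a1 : ∑ j ∈ range l, 2 ^ g j * |V' (some (c j)) - dd (G j) x' V'| ≤ l * E := by
      refine (Finset.sum_le_card_nsmul _ _ E fun j hj => hE j (Finset.mem_range.1 hj)).trans
        (le_of_eq ?_)
      rw [Finset.card_range, nsmul_eq_mul]
    unfold nrm
    have a2 : (1 + (l : ℝ)) * E ≤ Y * E := by
      refine mul_le_mul_of_nonneg_right ?_ hE00
      have : (1 : ℝ) + r * 2 ≤ 1 + 2 ^ k * (r * 2) := by
        have : (1 : ℝ) * (r * 2) ≤ 2 ^ k * (r * 2) :=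
          mul_le_mul_of_nonneg_right (one_le_pow₀ (by norm_num)) (by positivity)
        linarith
      have hr0 : (0 : ℝ) ≤ r := Nat.cast_nonneg r
      linarith
    linarith
  have n2 : nrm c G g W l x V' ≤ Y ^ r * (Y * E) := by
    have a1 := (H.sg hl).symm.main.2.1 l le_rfl V'
    rw [dst_comm c g W G l x' x] at a1
    exact a1.trans (mul_le_mul h2 n1 (nrm_nonneg _ _ _ _ _ _ _) (by positivity))
  have n0 : 0 ≤ nrm c G g W l x V' := nrm_nonneg _ _ _ _ _ _ _
  have t2 : 2 ^ g l * |dd (G l) x' V' - dd (G l) x V'| ≤ Y ^ (2 * r + 2) * (N * E) := by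
    refine (mul_le_mul_of_nonneg_left ((H.sg hl).main.1 l le_rfl V') hg.le).trans ?_
    have e1 : (2 : ℝ) ^ g l * (2 ^ k / 2 ^ g l * dst c g W G l x x' *
        ((1 + 2 ^ k * dst c g W G l x x') ^ l * nrm c G g W l x V')) =
        2 ^ k * dst c g W G l x x' *
        ((1 + 2 ^ k * dst c g W G l x x') ^ l * nrm c G g W l x V') := by
      field_simp
    have e2 : Y ^ (2 * r + 2) * (N * E) = Y * N * (Y ^ r * (Y ^ r * (Y * E))) := by
      have : 2 * r + 2 = 1 + (r + (r + 1)) := by ring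
      rw [this, pow_add, pow_add, pow_add, pow_one]
      ring
    rw [e1, e2]
    exact mul_le_mul (mul_le_mul yk1 hN hD0 hY0.le) (mul_le_mul h2 n2 n0 (by positivity))
      (by positivity) (by positivity)
  have t1 : 2 ^ g l * |cv (ψ l) (V' - V) - dd (G l) x (V' - V)| ≤ Y * M := by
    refine (mul_le_mul_of_nonneg_left (H.frm l hl (V' - V)) hg.le).trans ?_
    have e1 : (2 : ℝ) ^ g l * (2 ^ k / 2 ^ g l * en c g W ψ l (V' - V)) =
        2 ^ k * en c g W ψ l (V' - V) := by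
      field_simp
    rw [e1]
    exact mul_le_mul yk1 hM hen0 hY0.le
  have e1 : cv (ψ l) (V' - V) - (dd (G l) x' V' - dd (G l) x V) =
      (cv (ψ l) (V' - V) - dd (G l) x (V' - V)) - (dd (G l) x' V' - dd (G l) x V') := by
    rw [dd_sub_dir]
    ring
  rw [e1]
  refine (mul_le_mul_of_nonneg_left (abs_sub _ _) hg.le).trans ?_
  rw [mul_add]
  linarith

theorem afv_num {i : ℕ} {M Q : ℝ} (y2 : 2 ≤ Y) (hM0 : 0 ≤ M) (hQ : 0 ≤ Q) :
    Y * (M + (Y * M + Y ^ (2 * i + 6) * Q)) + Y ^ (2 * i + 6) * Q ≤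
      Y ^ (2 * i + 8) * (M + Q) := by
  have y1 : (1 : ℝ) ≤ Y := by linarith
  have q2 : Y ^ (2 * i + 8) = Y * Y * (Y * Y) * Y ^ (2 * i + 4) := by ring
  have q3 : Y ^ (2 * i + 6) = Y * Y * Y ^ (2 * i + 4) := by ring
  have q4 : (1 : ℝ) ≤ Y ^ (2 * i + 4) := one_le_pow₀ y1
  rw [q2, q3]
  obtain ⟨P, hP⟩ : ∃ P, P = Y ^ (2 * i + 4) := ⟨_, rfl⟩
  rw [← hP] at q4 ⊢
  have a0 : 4 ≤ Y * Y := by nlinarith
  have a3 : Y ≤ Y * Y / 2 := by nlinarith
  have a4 : Y * Y * 4 ≤ Y * Y * (Y * Y) := mul_le_mul_of_nonneg_left a0 (by linarith)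
  have a5 : Y * Y * (Y * Y) * 1 ≤ Y * Y * (Y * Y) * P :=
    mul_le_mul_of_nonneg_left q4 (by nlinarith)
  have a1 : (Y + Y * Y) * M ≤ Y * Y * (Y * Y) * P * M :=
    mul_le_mul_of_nonneg_right (by linarith) hM0
  have a6 : Y + 1 ≤ Y * Y := by nlinarith
  have a7 : Y * Y * (Y + 1) ≤ Y * Y * (Y * Y) := mul_le_mul_of_nonneg_left a6 (by linarith)
  have a8 : Y * Y * (Y + 1) * (P * Q) ≤ Y * Y * (Y * Y) * (P * Q) :=
    mul_le_mul_of_nonneg_right a7 (mul_nonneg (by linarith) hQ)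
  calc Y * (M + (Y * M + Y * Y * P * Q)) + Y * Y * P * Q =
        (Y + Y * Y) * M + Y * Y * (Y + 1) * (P * Q) := by ring
    _ ≤ Y * Y * (Y * Y) * P * M + Y * Y * (Y * Y) * (P * Q) := add_le_add a1 a8
    _ = Y * Y * (Y * Y) * P * (M + Q) := by ring

/-- **The velocity over the affine label and the velocity in the frame.** -/
theorem Pw.afl_vdif (H : Pw c g W k r G t ψ x x') (hψ : ∀ l, CvC c l (ψ l)) {i : ℕ}
    (hi : i + 1 < r) (hY : (2 * (i + 2 : ℕ) + 2) * 2 ^ kp k i ≤ Y)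
    {V V' : Option (Fin m) → ℝ} {E M N : ℝ}
    (hE0 : 2 ^ W * |V' none| ≤ E)
    (hE : ∀ j < i, 2 ^ g j * |V' (some (c j)) - dd (G j) x' V'| ≤ E)
    (hM : en c g W ψ i (V' - V) ≤ M) (hN : dst c g W G i x x' ≤ N) :
    2 ^ g (i + 1) * |((V' - V) (some (c (i + 1))) - cv (ψ (i + 1)) (V' - V)) -
      ((V' (some (c (i + 1))) - dd (afl c G i (ψ (i + 1) (some (c i)))) x' V') -
      (V (some (c (i + 1))) - dd (afl c G i (ψ (i + 1) (some (c i)))) x V))| ≤
      Y ^ (2 * i + 8) * (M + N * E) := by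
  have hp := H.prj2 hi
  have hY' : (2 * ((i + 2 : ℕ) : ℝ) + 2) * 2 ^ kp k i ≤ Y := hY
  obtain ⟨y2, yk1, yr, yr2, yk2, yk3, -⟩ := yk hY'
  have hY0 : 0 < Y := by linarith
  have hc : ∀ l < i, c l ≠ c i := fun l hl => H.ne (by omega) (by omega) (by omega)
  have hc' : ∀ l < i + 1, c l ≠ c (i + 1) := fun l hl => H.ne (by omega) (by omega) (by omega)
  have hE00 : 0 ≤ E := le_trans (by positivity) hE0
  have hN0 : 0 ≤ N := (dst_nonneg c g W G i x x').trans hN
  have hM0 : 0 ≤ M := (en_nonneg c g W ψ i (V' - V)).trans hM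
  -- the directions
  obtain ⟨R, hR⟩ : ∃ R : (Option (Fin m) → ℝ) → (Option (Fin m) → ℝ) → Option (Fin m) → ℝ,
    R = fun x V => prv c G i x V := ⟨_, rfl⟩
  have r0 : ∀ y U, R y U none = U none := fun y U => by
    rw [hR]
    show Function.update U (some (c i)) (dd (G i) y U) none = U none
    rw [Function.update_of_ne (by simp)]
  have rl : ∀ y U, ∀ l < i, R y U (some (c l)) = U (some (c l)) := fun y U l hl => by
    rw [hR]
    show Function.update U (some (c i)) (dd (G i) y U) (some (c l)) = U (some (c l))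
    rw [Function.update_of_ne (fun h => hc l hl (Option.some.inj h))]
  have ri : ∀ y U, R y U (some (c i)) = dd (G i) y U := fun y U => by
    rw [hR]
    show Function.update U (some (c i)) (dd (G i) y U) (some (c i)) = dd (G i) y U
    rw [Function.update_self]
  have p0 : ∀ y : Option (Fin m) → ℝ, D2F2.prj2 c G i y none = y none := fun y => by
    unfold D2F2.prj2
    rw [prj_none, prj_none]
  have pl : ∀ y : Option (Fin m) → ℝ, ∀ l < i, D2F2.prj2 c G i y (some (c l)) =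
      y (some (c l)) := fun y l hl => by
    unfold D2F2.prj2
    rw [prj_ne (hc' l (by omega)), prj_ne (hc l hl)]
  -- derivatives of the first charts at the projected points
  have dl : ∀ y U, ∀ l ≤ i, dd (G l) (D2F2.prj2 c G i y) (R y U) = dd (G l) y U :=
    fun y U l hl => Pool.D2Z.dd_dep (H.dep l) (p0 y) (fun j hj => pl y j (by omega)) (r0 y U)
      fun j hj => rl y U j (by omega)
  have di : ∀ y U, dd (G (i + 1)) (D2F2.prj2 c G i y) (R y U) =
      dd (G (i + 1)) (prj c G i y) (R y U) := fun y U =>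
    Pool.D2Z.dd_dep (H.dep (i + 1)) (by rw [p0, prj_none]) (fun j hj => by
      unfold D2F2.prj2
      rw [prj_ne (hc' j hj)]) rfl (fun _ _ => rfl)
  -- the distance
  have ev : ∀ y : Option (Fin m) → ℝ, ∀ l ≤ i, eval (D2F2.prj2 c G i y) (G l) = eval y (G l) :=
    fun y l hl => H.dep l _ _ (p0 y) fun j hj => pl y j (by omega)
  have dsti : dst c g W G i (D2F2.prj2 c G i x) (D2F2.prj2 c G i x') = dst c g W G i x x' := by
    unfold dst
    rw [p0, p0]
    congr 1
    refine Finset.sum_congr rfl fun l hl => ?_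
    have hl' := Finset.mem_range.1 hl
    rw [ev x' l hl'.le, ev x l hl'.le, pl x' l hl', pl x l hl']
  have pi' : ∀ y : Option (Fin m) → ℝ, D2F2.prj2 c G i y (some (c i)) = eval y (G i) :=
    fun y => by
    unfold D2F2.prj2
    rw [prj_ne (hc' i (by omega)), prj_self]
  have dsti1 : dst c g W G (i + 1) (D2F2.prj2 c G i x) (D2F2.prj2 c G i x') ≤ N := by
    have a1 : dst c g W G (i + 1) (D2F2.prj2 c G i x) (D2F2.prj2 c G i x') =
        dst c g W G i (D2F2.prj2 c G i x) (D2F2.prj2 c G i x') := by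
      unfold dst
      rw [Finset.sum_range_succ, ← add_assoc, ev x' i le_rfl, ev x i le_rfl, pi', pi', sub_self,
        sub_self, sub_self, abs_zero, mul_zero, add_zero]
    rw [a1, dsti]
    exact hN
  -- the frame velocities of the first places
  have rd : (R x' V' - R x V) none = (V' - V) none := by
    rw [Pi.sub_apply, Pi.sub_apply, r0, r0]
  have rdl : ∀ l < i, (R x' V' - R x V) (some (c l)) = (V' - V) (some (c l)) := fun l hl => by
    rw [Pi.sub_apply, Pi.sub_apply, rl _ _ l hl, rl _ _ l hl]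
  have cvl : ∀ l ≤ i, cv (ψ l) (R x' V' - R x V) = cv (ψ l) (V' - V) := fun l hl =>
    cv_congr (hψ l) rd fun j hj => rdl j (by omega)
  have eni : en c g W ψ i (R x' V' - R x V) = en c g W ψ i (V' - V) := by
    rw [en_eq, en_eq, rd]
    congr 1
    refine Finset.sum_congr rfl fun l hl => ?_
    have hl' := Finset.mem_range.1 hl
    rw [rdl l hl', cvl l hl'.le]
  have hEp : ∀ j < i, 2 ^ g j * |R x' V' (some (c j)) -
      dd (G j) (D2F2.prj2 c G i x') (R x' V')| ≤ E := fun j hj => by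
    rw [rl _ _ j hj, dl _ _ j hj.le]
    exact hE j hj
  have hEi : ∀ j < i + 1, 2 ^ g j * |R x' V' (some (c j)) -
      dd (G j) (D2F2.prj2 c G i x') (R x' V')| ≤ E := fun j hj => by
    rcases Nat.lt_succ_iff_lt_or_eq.1 hj with h | h
    · exact hEp j h
    · rw [h, ri, dl _ _ i le_rfl, sub_self, abs_zero, mul_zero]
      exact hE00
  have s1 := hp.vdif hY' (l := i) (by omega) (V := R x V) (V' := R x' V') (E := E) (M := M)
    (N := N) (by rw [r0]; exact hE0) hEp (by rw [eni]; exact hM) (by rw [dsti]; exact hN)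
  rw [dl _ _ i le_rfl, dl _ _ i le_rfl, ← ri, ← ri] at s1
  have s2 : 2 ^ g i * |(R x' V' - R x V) (some (c i)) - cv (ψ i) (R x' V' - R x V)| ≤
      Y * M + Y ^ (2 * (i + 2) + 2) * (N * E) := by
    rw [Pi.sub_apply, abs_sub_comm]
    exact s1
  have s3 : en c g W ψ (i + 1) (R x' V' - R x V) ≤
      M + (Y * M + Y ^ (2 * (i + 2) + 2) * (N * E)) := by
    rw [en_succ, eni]
    exact add_le_add hM s2
  have s4 := hp.vdif hY' (l := i + 1) (by omega) (V := R x V) (V' := R x' V') (E := E)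
    (M := M + (Y * M + Y ^ (2 * (i + 2) + 2) * (N * E))) (N := N) (by rw [r0]; exact hE0) hEi s3
    dsti1
  rw [di, di] at s4
  -- the affine label
  obtain ⟨s, hs⟩ : ∃ s, s = ψ (i + 1) (some (c i)) := ⟨_, rfl⟩
  have c1 : cv (ψ (i + 1)) (R x' V' - R x V) = cv (ψ (i + 1)) (V' - V) -
      s * ((V' (some (c i)) - dd (G i) x' V') - (V (some (c i)) - dd (G i) x V)) := by
    rw [cv_eq (H.inj.mono (Set.Iio_subset_Iio hi.le)) (hψ (i + 1)),
      cv_eq (H.inj.mono (Set.Iio_subset_Iio hi.le)) (hψ (i + 1)), Finset.sum_range_succ,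
      Finset.sum_range_succ, rd, ← hs]
    have e1 : ∑ j ∈ range i, ψ (i + 1) (some (c j)) * (R x' V' - R x V) (some (c j)) =
        ∑ j ∈ range i, ψ (i + 1) (some (c j)) * (V' - V) (some (c j)) :=
      Finset.sum_congr rfl fun j hj => by rw [rdl j (Finset.mem_range.1 hj)]
    rw [e1, Pi.sub_apply, Pi.sub_apply, Pi.sub_apply, ri, ri]
    ring
  have e9 : ((V' - V) (some (c (i + 1))) - cv (ψ (i + 1)) (V' - V)) -
      ((V' (some (c (i + 1))) - dd (afl c G i (ψ (i + 1) (some (c i)))) x' V') -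
      (V (some (c (i + 1))) - dd (afl c G i (ψ (i + 1) (some (c i)))) x V)) =
      -(cv (ψ (i + 1)) (R x' V' - R x V) -
        (dd (G (i + 1)) (prj c G i x') (R x' V') - dd (G (i + 1)) (prj c G i x) (R x V))) := by
    rw [dd_afl, dd_afl, c1, ← hs, Pi.sub_apply, hR]
    ring
  rw [e9, abs_neg]
  refine s4.trans ?_
  have q3 : Y ^ (2 * (i + 2) + 2) = Y ^ (2 * i + 6) := by
    congr 1
  rw [q3]
  exact afv_num y2 hM0 (mul_nonneg hN0 hE00)

end Pool.D2F2
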