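import Pool.Agent.H88.TIE.L1A
import Pool.Agent.H68.OWN.Hop2

/-!
# The hypotheses of L1 (law with contexts) from conditional entropies

`h2_of`: the height is nearly independent of the deeper digits (record of a small ball `Rx`, deeper
digits `W` which belong to the context, deeper digits `Y` which do not). `h3_of`: the block of the base
coordinates is full given the context. `h5_of`: the rows given the exact base coordinates are rows given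
the context.
-/

set_option autoImplicit false

namespace Pool.D2P

open Finset Real
open Pool.Agent.H49.Ent Pool.Agent.H32.Dense Pool.STK Pool.OWN68 Pool.KAF

section

variable {Ω Τ γ 𝒩 𝒴 𝒲 𝓡 𝒱 𝒵 : Type} [Fintype Ω]

/-- **The height does not see the deeper digits.** `W` = base and the deeper digits in the context
`G = (T, g)`, `Y` = the deeper digits outside the context, `Rx` = record of the small ball. -/
theorem mi_of_la {p : Ω → ℝ} (h0 : ∀ ω, 0 ≤ p ω) (N : Ω → 𝒩) (Y : Ω → 𝒴) (G : Ω → γ) (W : Ω → 𝒲)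
    (Rx : Ω → 𝓡) {ε e₁ e₂ e₃ : ℝ}
    (hla : CH p Y W - ε ≤ CH p Y (fun ω => (Rx ω, W ω)))
    (hN : CH p N (fun ω => (Rx ω, G ω)) ≤ e₁)
    (hG : CH p G (fun ω => (Rx ω, W ω)) ≤ e₂) (hW : CH p W G ≤ e₃) :
    Pool.KVA.MI p N Y G ≤ ε + e₁ + e₂ + e₃ := by
  have h1 : Pool.KVA.MI p N Y G = CH p Y G - CH p Y (fun ω => (N ω, G ω)) := by
    have e := CH_chain2 h0 N Y G
    unfold Pool.KVA.MI
    linarith
  have h2 := CH_le_add h0 Y W G
  have h3 : CH p Y (fun ω => (W ω, G ω)) ≤ CH p Y W :=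
    CH_mono_cond h0 fun ω ω' _ _ h => (Prod.ext_iff.mp h).1
  have h4 := CH_le_add h0 Y G (fun ω => (Rx ω, W ω))
  have h5 : CH p Y (fun ω => (G ω, (Rx ω, W ω))) ≤ CH p Y (fun ω => (Rx ω, G ω)) :=
    CH_mono_cond h0 fun ω ω' _ _ h => by
      simp only [Prod.mk.injEq] at h ⊢
      tauto
  have h6 := CH_le_add h0 Y N (fun ω => (Rx ω, G ω))
  have h7 : CH p Y (fun ω => (N ω, (Rx ω, G ω))) ≤ CH p Y (fun ω => (N ω, G ω)) :=
    CH_mono_cond h0 fun ω ω' _ _ h => by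
      simp only [Prod.mk.injEq] at h ⊢
      tauto
  rw [h1]
  linarith

/-- The form with one number: the pair of the deeper digits inside and outside the context. -/
theorem la_split {p : Ω → ℝ} (h0 : ∀ ω, 0 ≤ p ω) (Y₁ : Ω → 𝒲) (Y₂ : Ω → 𝒴) (b : Ω → 𝒵)
    (Rx : Ω → 𝓡) {ε : ℝ}
    (h : CH p (fun ω => (Y₁ ω, Y₂ ω)) b - ε ≤ CH p (fun ω => (Y₁ ω, Y₂ ω)) (fun ω => (Rx ω, b ω))) :
    CH p Y₂ (fun ω => (Y₁ ω, b ω)) - ε ≤ CH p Y₂ (fun ω => (Rx ω, (Y₁ ω, b ω))) := by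
  have h1 := CH_chain2 h0 Y₁ Y₂ b
  have h2 := CH_chain2 h0 Y₁ Y₂ (fun ω => (Rx ω, b ω))
  have h3 : CH p Y₁ (fun ω => (Rx ω, b ω)) ≤ CH p Y₁ b :=
    CH_mono_cond h0 fun ω ω' _ _ h => (Prod.ext_iff.mp h).2
  have h4 : CH p Y₂ (fun ω => (Y₁ ω, (Rx ω, b ω))) ≤ CH p Y₂ (fun ω => (Rx ω, (Y₁ ω, b ω))) :=
    CH_mono_cond h0 fun ω ω' _ _ h => by
      simp only [Prod.mk.injEq] at h ⊢
      tauto
  linarith

/-- **The block is full given the context** (`y` is the block `V` up to few bits given the context). -/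
theorem full_of {p : Ω → ℝ} (h0 : ∀ ω, 0 ≤ p ω) (V : Ω → 𝒱) (y : Ω → 𝒴) (T : Ω → Τ) (g : Ω → γ)
    (Z : Ω → 𝒵) {F e₀ e₁ e₂ : ℝ} (hV : F - e₀ ≤ CH p V Z)
    (hG : CH p (fun ω => (T ω, g ω)) Z ≤ e₁)
    (hy : CH p V (fun ω => (y ω, (T ω, g ω))) ≤ e₂) :
    F - (e₀ + e₁ + e₂) ≤ CH p y g := by
  have h1 := CH_le_add h0 V (fun ω => (T ω, g ω)) Z
  have h2 : CH p V (fun ω => ((T ω, g ω), Z ω)) ≤ CH p V (fun ω => (T ω, g ω)) :=
    CH_mono_cond h0 fun ω ω' _ _ h => (Prod.ext_iff.mp h).1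
  have h3 := CH_le_add h0 V y (fun ω => (T ω, g ω))
  have h4 : CH p y (fun ω => (T ω, g ω)) ≤ CH p y g :=
    CH_mono_cond h0 fun ω ω' _ _ h => (Prod.ext_iff.mp h).2
  linarith

/-- **Dropping the exact base coordinates** from the condition of a row. -/
theorem row_drop {p : Ω → ℝ} (h0 : ∀ ω, 0 ≤ p ω) (A : Ω → 𝒩) (B : Ω → 𝒴) (V : Ω → 𝒱) (G : Ω → γ)
    {U F e : ℝ} (hrow : CH p A (fun ω => (B ω, (V ω, G ω))) ≤ U) (hbox : CH p V G ≤ F)
    (hful : F - e ≤ CH p V (fun ω => ((A ω, B ω), G ω))) :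
    CH p A (fun ω => (B ω, G ω)) ≤ U + e := by
  have h1 := CH_chain2 h0 A V (fun ω => (B ω, G ω))
  have h2 := CH_chain h0 A V (fun ω => (B ω, G ω))
  have h3 : CH p V (fun ω => (B ω, G ω)) ≤ CH p V G :=
    CH_mono_cond h0 fun ω ω' _ _ h => (Prod.ext_iff.mp h).2
  have h4 : CH p A (fun ω => (V ω, (B ω, G ω))) ≤ CH p A (fun ω => (B ω, (V ω, G ω))) :=
    CH_mono_cond h0 fun ω ω' _ _ h => by
      simp only [Prod.mk.injEq] at h ⊢
      tauto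
  have h5 : CH p V (fun ω => ((A ω, B ω), G ω)) ≤ CH p V (fun ω => (A ω, (B ω, G ω))) :=
    CH_mono_cond h0 fun ω ω' _ _ h => by
      simp only [Prod.mk.injEq] at h ⊢
      tauto
  linarith

/-- **The rows of L1 from the rows given the exact base coordinates `V`.** -/
theorem h5_of {p : Ω → ℝ} (hp : IsLaw p) (N : Ω → ℤ) (V : Ω → 𝒱) (T : Ω → Τ) (g : Ω → γ)
    {X h : ℕ} {F e π₀ U : ℝ} (he : 0 ≤ e) (hπ : 0 < π₀)
    (hbox : ∀ q : Ω → ℝ, IsLaw q → (∀ ω, 0 < q ω → 0 < p ω) →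
      CH q V (fun ω => (T ω, g ω)) ≤ F)
    (hful : F - e ≤ CH p V (fun ω => (N ω, (T ω, g ω))))
    (hrow : ∀ j : ℕ, (j + 1) * h ≤ X → ∀ E : Set Ω, π₀ ≤ Pr p E →
      CH (rs p E) (fun ω => N ω / 2 ^ (X - (j + 1) * h))
        (fun ω => (N ω / 2 ^ (X - j * h), (V ω, (T ω, g ω)))) ≤ U) :
    ∀ j : ℕ, (j + 1) * h ≤ X → ∀ E : Set Ω, π₀ ≤ Pr p E →
      CH (rs p E) (fun ω => N ω / 2 ^ (X - (j + 1) * h))
        (fun ω => ((N ω / 2 ^ (X - j * h), T ω), g ω)) ≤ U + (e + Real.log 2) / π₀ := by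
  intro j hj E hE
  have p0 := hp.nonneg
  have hE' : π₀ ≤ law p (fun ω => ω ∈ E) True := hE
  have hE0 : 0 < law p (fun ω => ω ∈ E) True := hπ.trans_le hE'
  have hql : IsLaw (rs p E) :=
    ⟨cond_nonneg p0 (fun ω => ω ∈ E) True, sum_cond p (fun ω => ω ∈ E) hE0.ne'⟩
  have q0 := hql.nonneg
  have hqp : ∀ ω, 0 < rs p E ω → 0 < p ω := fun ω hω =>
    ((cond_pos_iff p0 (fun ω => ω ∈ E) True ω).mp hω).1
  have hf := deficit_ev2 hp V (fun ω => (N ω, (T ω, g ω))) (L := F) (e := e) hπ he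
    (fun q hq hqp' => le_trans (CH_mono_cond hq.nonneg fun ω ω' _ _ h => (Prod.ext_iff.mp h).2)
      (hbox q hq hqp')) hful (fun ω => ω ∈ E) hE'
  have h1 := row_drop q0 (fun ω => N ω / 2 ^ (X - (j + 1) * h)) (fun ω => N ω / 2 ^ (X - j * h)) V
    (fun ω => (T ω, g ω)) (hrow j hj E hE) (hbox _ hql hqp)
    (e := (e + Real.log 2) / π₀) (hf.trans (CH_mono_cond q0 fun ω ω' _ _ h => by
      simp only [Prod.mk.injEq] at h ⊢
      refine ⟨⟨?_, ?_⟩, h.2⟩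
      · rw [h.1]
      · rw [h.1]))
  refine le_trans (CH_mono_cond q0 fun ω ω' _ _ h => ?_) h1
  simp only [Prod.mk.injEq] at h ⊢
  tauto

end

end Pool.D2P
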