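import Pool.Agent.H4.D2.C61

/-!
# D2, `(1,2,2;3)`, case [1]: the constants as powers of two

`c61_pow`: `c61` with `μ = 2^(-x)`, `μ₁ = 2^(-x₁)`, and labels which agree up to `2^(s-y)`.
-/

set_option autoImplicit false

namespace Pool.D2P

open Finset Real
open Pool.Agent.H49.Ent Pool.Agent.H32.Dense Pool.STK
open Pool.K2S
open Pool.KM7 (P2 P2_isLaw P2_pos)
open Pool.D2A Pool.D2N
open Pool.D2G (w2)

/-- The error `eC` in powers of two. -/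
theorem eC_pow {L K : ℝ} {l x x₁ k s : ℕ} (hL : 1 ≤ L) (hL2 : L ≤ 2 ^ l) (hK : 0 ≤ K)
    (hK2 : K ≤ 2 ^ l) (hs : x₁ ≤ s) :
    eC L (1 / 2 ^ x) (1 / 2 ^ x₁) K (2 ^ k) (2 ^ s) ≤
      2 ^ s * 2 ^ (5 * l + 9 + k + 3 * x) / 2 ^ x₁ := by
  have hL0 : 0 ≤ L := by linarith
  have hl1 : (1 : ℝ) ≤ 2 ^ l := one_le_pow₀ (by norm_num)
  have hx1 : (1 : ℝ) ≤ 2 ^ x := one_le_pow₀ (by norm_num)
  have h2 : L ^ 2 ≤ (2 ^ l) ^ 2 := pow_le_pow_left₀ hL0 hL2 2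
  have h3 : L ^ 3 ≤ (2 ^ l) ^ 3 := pow_le_pow_left₀ hL0 hL2 3
  obtain ⟨a, ha⟩ : ∃ a : ℝ, a = 2 ^ l := ⟨_, rfl⟩
  obtain ⟨u, hu⟩ : ∃ u : ℝ, u = 2 ^ x := ⟨_, rfl⟩
  obtain ⟨v, hv⟩ : ∃ v : ℝ, v = 2 ^ x₁ := ⟨_, rfl⟩
  obtain ⟨Z, hZ⟩ : ∃ Z : ℝ, Z = 2 ^ s := ⟨_, rfl⟩
  obtain ⟨M, hM⟩ : ∃ M : ℝ, M = 2 ^ k := ⟨_, rfl⟩
  have hv1 : 1 ≤ v := by
    rw [hv]
    exact one_le_pow₀ (by norm_num)
  have hM1 : 1 ≤ M := by
    rw [hM]
    exact one_le_pow₀ (by norm_num)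
  have hvZ : v ≤ Z := by
    rw [hv, hZ]
    exact pow_le_pow_right₀ (by norm_num) hs
  have e : (2 : ℝ) ^ (5 * l + 9 + k + 3 * x) = 512 * a ^ 5 * M * u ^ 3 := by
    rw [ha, hM, hu]
    rw [pow_add, pow_add, pow_add, pow_mul', pow_mul']
    norm_num
    ring
  rw [← ha] at h2 h3 hL2 hK2 hl1
  rw [← hu] at hx1
  rw [e, ← hu, ← hv, ← hZ, ← hM]
  unfold eC
  have hv0 : 0 < v := by linarith
  have hu0 : 0 < u := by linarith
  have hZ0 : 0 ≤ Z := by linarith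
  rw [le_div_iff₀ hv0]
  have e2 : 6 * L ^ 2 * M * (2 * (K + 8 * L ^ 3 * (1 / v) * Z / (1 / u) ^ 2) / (1 / u) + 2 * L) * v =
      6 * L ^ 2 * M * (2 * K * u * v + 16 * L ^ 3 * Z * u ^ 3 + 2 * L * v) := by
    field_simp
    ring
  rw [e2]
  have h4 : 2 * K * u * v + 16 * L ^ 3 * Z * u ^ 3 + 2 * L * v ≤ 20 * a ^ 3 * Z * u ^ 3 := by
    have hu3 : 1 ≤ u ^ 3 := one_le_pow₀ hx1
    have huu : u ≤ u ^ 3 := by nlinarith [sq_nonneg (u - 1)]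
    have haa : a ≤ a ^ 3 := by nlinarith [sq_nonneg (a - 1)]
    have k1 : K * (u * v) ≤ a ^ 3 * (u ^ 3 * Z) :=
      mul_le_mul (hK2.trans haa) (mul_le_mul huu hvZ hv0.le (by positivity)) (by positivity)
        (by positivity)
    have k2 : L ^ 3 * (Z * u ^ 3) ≤ a ^ 3 * (Z * u ^ 3) :=
      mul_le_mul_of_nonneg_right h3 (by positivity)
    have k3 : L * v ≤ a ^ 3 * (u ^ 3 * Z) := by
      refine mul_le_mul (hL2.trans haa) ?_ hv0.le (by positivity)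
      have := mul_le_mul hu3 hvZ hv0.le (by positivity)
      linarith
    linarith
  have h5 : 6 * L ^ 2 * M ≤ 6 * a ^ 2 * M := by
    have := mul_le_mul_of_nonneg_right h2 (by linarith : (0 : ℝ) ≤ M)
    linarith
  have h6 := mul_le_mul h5 h4 (by positivity) (by positivity)
  refine h6.trans ?_
  have h7 : 0 ≤ a ^ 5 * M * Z * u ^ 3 := by positivity
  nlinarith

/-- The precision of the reading. -/
theorem pw_mu {L Kj a Z G M m : ℝ} {A : ℕ} (hL : 1 ≤ L) (hL2 : L ≤ a) (hA2 : (A : ℝ) ≤ a)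
    (hZ0 : 0 < Z) (hG0 : 0 < G) (hM1 : 1 ≤ M) (hE0 : 0 ≤ Kj) (hKG : Kj ≤ Z / G)
    (hm : m = 2048 * a ^ 3 * M ^ 2 / G) :
    ((3 + 2 * L) * M) ^ 2 * (3 * ((2 * A : ℕ) : ℝ) / G + Kj * (3 + 2 * L) / Z) < m := by
  have ha0 : 0 < a := by linarith
  have hM0 : 0 < M := by linarith
  push_cast
  have h1 : 3 + 2 * L ≤ 5 * a := by linarith
  have h2 : ((3 + 2 * L) * M) ^ 2 ≤ (5 * a * M) ^ 2 :=
    pow_le_pow_left₀ (by positivity) (mul_le_mul_of_nonneg_right h1 hM0.le) 2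
  have h3 : 3 * (2 * (A : ℝ)) / G + Kj * (3 + 2 * L) / Z ≤ 11 * a / G := by
    have h4 : Kj * (3 + 2 * L) / Z ≤ 5 * a / G := by
      rw [div_le_div_iff₀ hZ0 hG0]
      have h5 := mul_le_mul hKG h1 (by positivity) (by positivity)
      have h6 := mul_le_mul_of_nonneg_right h5 hG0.le
      have h7 : Z / G * (5 * a) * G = 5 * a * Z := by
        field_simp
      linarith
    have h5 : 3 * (2 * (A : ℝ)) / G ≤ 6 * a / G := by
      apply div_le_div_of_nonneg_right _ hG0.le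
      linarith
    have h6 : 11 * a / G = 6 * a / G + 5 * a / G := by ring
    rw [h6]
    exact add_le_add h5 h4
  have h4 : 0 ≤ 3 * (2 * (A : ℝ)) / G + Kj * (3 + 2 * L) / Z := by positivity
  refine lt_of_le_of_lt (mul_le_mul h2 h3 h4 (by positivity)) ?_
  have h5 : (5 * a * M) ^ 2 * (11 * a / G) = 275 * (a ^ 3 * M ^ 2) / G := by ring
  rw [h5, hm]
  apply div_lt_div_of_pos_right _ hG0
  have h6 : 0 < a ^ 3 * M ^ 2 := by positivity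
  linarith

/-- The threshold of the labels. -/
theorem pw_th {L Kj a m : ℝ} {A s g : ℕ} (hL : 1 ≤ L) (hL2 : L ≤ a) (hA1 : (1 : ℝ) ≤ A)
    (hA2 : (A : ℝ) ≤ a) (hm0 : 0 < m) (hGm : 1 / 2 ^ g ≤ m) (hE0 : 0 ≤ Kj)
    (hKm : Kj ≤ 2 ^ s * m) :
    th1 (2 * A) s g L L Kj 2 m ≤ 64 * a ^ 3 * (2 ^ s * m) := by
  have ha1 : 1 ≤ a := by linarith
  have ha0 : 0 < a := by linarith
  unfold th1
  obtain ⟨Z, hZ⟩ : ∃ Z : ℝ, Z = 2 ^ s := ⟨_, rfl⟩
  have hZ0 : 0 < Z := by rw [hZ]; positivity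
  rw [← hZ] at hKm ⊢
  push_cast
  have hAa : 2 * (A : ℝ) ≤ 2 * a := by linarith
  have h1 : 2 * L * (m * Z * (1 + 2 * (2 * (A : ℝ))) + 2 * Kj) ≤ 2 * a * (7 * a * (Z * m)) := by
    refine mul_le_mul (by linarith) ?_ (by positivity) (by positivity)
    have k1 : m * Z * (1 + 2 * (2 * (A : ℝ))) ≤ m * Z * (5 * a) :=
      mul_le_mul_of_nonneg_left (by linarith) (by positivity)
    have k2 : 2 * Kj ≤ 2 * a * (Z * m) := by
      have := mul_le_mul_of_nonneg_right ha1 (by positivity : 0 ≤ Z * m)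
      linarith
    linarith
  have h2 : 2 * L * (2 * (A : ℝ) * Z * (2 * m * (1 + L))) ≤
      2 * a * (2 * a * Z * (2 * m * (2 * a))) := by
    refine mul_le_mul (by linarith) ?_ (by positivity) (by positivity)
    refine mul_le_mul (mul_le_mul_of_nonneg_right hAa hZ0.le) ?_ (by positivity) (by positivity)
    exact mul_le_mul_of_nonneg_left (by linarith) (by positivity)
  have h3 : 2 * (A : ℝ) * Z * (1 / 2 ^ g + 2 * L * (m * (1 + L))) ≤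
      2 * a * Z * (m + 2 * a * (m * (2 * a))) := by
    refine mul_le_mul (mul_le_mul_of_nonneg_right hAa hZ0.le) (add_le_add hGm ?_) (by positivity)
      (by positivity)
    refine mul_le_mul (by linarith) ?_ (by positivity) (by positivity)
    exact mul_le_mul_of_nonneg_left (by linarith) hm0.le
  have e1 : 2 * L * (m * Z * (1 + 2 * (2 * (A : ℝ))) + 2 * Kj +
      2 * (A : ℝ) * Z * (2 * m * (1 + L))) =
      2 * L * (m * Z * (1 + 2 * (2 * (A : ℝ))) + 2 * Kj) +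
      2 * L * (2 * (A : ℝ) * Z * (2 * m * (1 + L))) := by ring
  rw [e1]
  refine (add_le_add (add_le_add (add_le_add h1 h2) h3) hKm).trans ?_
  obtain ⟨q, hq⟩ : ∃ q : ℝ, q = Z * m := ⟨_, rfl⟩
  have hq0 : 0 ≤ q := by rw [hq]; positivity
  have e2 : 2 * a * (7 * a * (Z * m)) + 2 * a * (2 * a * Z * (2 * m * (2 * a))) +
      2 * a * Z * (m + 2 * a * (m * (2 * a))) + Z * m =
      14 * (a ^ 2 * q) + 24 * (a ^ 3 * q) + 2 * (a * q) + 1 * q := by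
    rw [hq]
    ring
  rw [e2, ← hq]
  have k1 : a ^ 2 * q ≤ a ^ 3 * q :=
    mul_le_mul_of_nonneg_right (pow_le_pow_right₀ ha1 (by norm_num)) hq0
  have k2 : a * q ≤ a ^ 3 * q := by
    have : a ≤ a ^ 3 := by nlinarith [sq_nonneg (a - 1)]
    exact mul_le_mul_of_nonneg_right this hq0
  have k3 : 1 * q ≤ a ^ 3 * q := mul_le_mul_of_nonneg_right (one_le_pow₀ ha1) hq0
  have k4 : 64 * a ^ 3 * q = 64 * (a ^ 3 * q) := by ring
  rw [k4]
  linarith [mul_nonneg (by positivity : 0 ≤ a ^ 3) hq0]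

/-- The final threshold. -/
theorem pw_fin {T a M m : ℝ} {s g x y : ℕ} (ha : 1 ≤ a) (hM1 : 1 ≤ M)
    (hm : m = 2048 * a ^ 3 * M ^ 2 / 2 ^ g) (hT : T ≤ 64 * a ^ 3 * (2 ^ s * m))
    (hG : (2 : ℝ) ^ g = 262144 * (a ^ 6 * M ^ 2 * 2 ^ x * 2 ^ y)) (hs : y + 2 ≤ s) :
    T / (3 * (1 / 2 ^ x)) + 2 ≤ 2 ^ s / 2 ^ y := by
  obtain ⟨Z, hZ⟩ : ∃ Z : ℝ, Z = 2 ^ s := ⟨_, rfl⟩
  have hZ0 : 0 < Z := by rw [hZ]; positivity
  have h3 : 2 ≤ 1 / 2 * (Z / 2 ^ y) := by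
    have : (2 : ℝ) ^ (y + 2) ≤ 2 ^ s := pow_le_pow_right₀ (by norm_num) hs
    rw [← hZ, pow_add] at this
    have h4 : (4 : ℝ) ≤ Z / 2 ^ y := by
      rw [le_div_iff₀ (by positivity)]
      linarith
    linarith
  have h1 : T / (3 * (1 / 2 ^ x)) ≤ 64 * a ^ 3 * (2 ^ s * m) / (3 * (1 / 2 ^ x)) :=
    div_le_div_of_nonneg_right hT (by positivity)
  have ha0 : a ≠ 0 := by linarith
  have hM0 : M ≠ 0 := by linarith
  have h2 : 64 * a ^ 3 * (2 ^ s * m) / (3 * (1 / 2 ^ x)) = 1 / 6 * (Z / 2 ^ y) := by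
    rw [hm, hG, ← hZ]
    field_simp
    norm_num
  rw [h2] at h1
  rw [← hZ]
  have h4 : 0 ≤ Z / 2 ^ y := by positivity
  linarith

/-- The argument of the logarithm. -/
theorem pw_log {L Kj a Q : ℝ} {A : ℕ} (hL : 1 ≤ L) (hL2 : L ≤ a) (hA2 : (A : ℝ) ≤ a)
    (hE0 : 0 ≤ Kj) (hK : Kj ≤ Q) (hQ1 : 1 ≤ Q) :
    2 * (2 * ((1 + 2 * L) * (Kj * (3 + 2 * L))) + 3 * ((2 * A : ℕ) : ℝ) + 1) + 1 ≤
      256 * a ^ 2 * Q := by
  have ha1 : 1 ≤ a := by linarith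
  push_cast
  have h1 : (1 + 2 * L) * (Kj * (3 + 2 * L)) ≤ 3 * a * (Q * (5 * a)) :=
    mul_le_mul (by linarith) (mul_le_mul hK (by linarith) (by positivity) (by linarith))
      (by positivity) (by positivity)
  have h1' : 3 * a * (Q * (5 * a)) = 15 * (a ^ 2 * Q) := by ring
  rw [h1'] at h1
  have h2 : a ≤ a ^ 2 := by nlinarith
  have h3 : 1 ≤ a ^ 2 := one_le_pow₀ ha1
  have h4 : a ^ 2 ≤ a ^ 2 * Q := le_mul_of_one_le_right (by positivity) hQ1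
  have h5 : 256 * a ^ 2 * Q = 256 * (a ^ 2 * Q) := by ring
  rw [h5]
  linarith

/-- **Case [1], powers of two.** -/
theorem c61_pow {Ω σ ζ ζ' ε : Type} [Fintype Ω]
    {p : Ω → ℝ} {S : Ω → σ} {z : Ω → ζ} {z' : Ω → ζ'} {e : Ω → ε} {E0 : ζ → ε → ℝ}
    {A0 T0 : ζ → ε → Fin 2 → ℝ} {b ek : Ω → ℤ} {P : Ω → Fin 2 → ℤ} {U : Ω → Fin 2 → Fin 2 → ℤ}
    {A s k K₀ : ℕ} {L K cE eF eH eP : ℝ}
    (D : PrD p S z z' e E0 A0 T0 b ek P U A s k K₀ L K cE eF eH eP)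
    {l x x₁ y : ℕ} {c c₁ : ℝ} (hL2 : L ≤ 2 ^ l) (hA2 : (A : ℝ) ≤ 2 ^ l) (hK2 : K ≤ 2 ^ l)
    (hx₁ : 2 * (13 * l + 35 + 4 * x + 3 * k + y) ≤ x₁) (hs : x₁ + y + 2 ≤ s)
    (hc : 0 < c) (hc₁ : 0 ≤ c₁)
    (hpar : c₁ ≤ law (PL p S z' sd10) (fun w => Pll (1 / 2 ^ x) (1 / 2 ^ x₁)
      (A0 (z w.1.1) (e w.1.1)) (A0 (z w.1.1) (e (cp sd10 (ja 0) w)))) True)
    (hn : (10 * (eF + eH) + Real.log 2) / c + Real.log (3 * 2 : ℕ) < (1 - cE / c) * Real.log K₀)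
    (hN : 2 * eP + 11 * eF + 11 * eH + (3 * l + 11) * Real.log 2 ≤ c * (x₁ / 2 * Real.log 2))
    (hτ : eP + (l + 3) * Real.log 2 ≤ c * ((s - 2) * Real.log 2)) :
    ∃ (i : Fin 2) (f : ζ' → Ω), (∀ ω, 0 < p ω → 0 < p (f (z' ω)) ∧ z' (f (z' ω)) = z' ω) ∧
      c₁ ^ 4 / 2 - 9 * c ≤ law (P2 p S) (fun v => Lbl i (1 / 2 ^ x) (1 / 2 ^ x₁) (2 ^ s / 2 ^ y)
        (A0 (z v.1) (e (f (z' v.1)))) (A0 (z v.2) (e (f (z' v.2)))) (U v.1) (U v.2)) True := by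
  have hL := D.hL
  have hL0 : 0 ≤ L := by linarith
  have hlog : 0 < Real.log 2 := Real.log_pos (by norm_num)
  have hl1 : (1 : ℝ) ≤ 2 ^ l := one_le_pow₀ (by norm_num)
  obtain ⟨g, hg⟩ : ∃ g : ℕ, g = 6 * l + 18 + x + 2 * k + y := ⟨_, rfl⟩
  obtain ⟨h, hh⟩ : ∃ h : ℕ, h = 5 * l + 9 + k + 3 * x := ⟨_, rfl⟩
  have hx2 : 2 * (g + 2 * l + 8 + h) ≤ x₁ := by omega
  have hEC := eC_pow (x := x) (x₁ := x₁) (k := k) (s := s) hL hL2 D.hK hK2 (by omega)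
  rw [← hh] at hEC
  have hE0 : 0 ≤ eC L (1 / 2 ^ x) (1 / 2 ^ x₁) K (2 ^ k) (2 ^ s) := by
    have := D.hK
    unfold eC
    positivity
  obtain ⟨Kj, hKj⟩ : ∃ Kj : ℝ, Kj = eC L (1 / 2 ^ x) (1 / 2 ^ x₁) K (2 ^ k) (2 ^ s) := ⟨_, rfl⟩
  rw [← hKj] at hEC hE0
  -- powers of two as letters
  obtain ⟨a, ha⟩ : ∃ a : ℝ, a = 2 ^ l := ⟨_, rfl⟩
  obtain ⟨Z, hZ⟩ : ∃ Z : ℝ, Z = 2 ^ s := ⟨_, rfl⟩
  obtain ⟨G, hG⟩ : ∃ G : ℝ, G = 2 ^ g := ⟨_, rfl⟩
  have ha1 : 1 ≤ a := by rw [ha]; exact hl1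
  have hZ0 : 0 < Z := by rw [hZ]; positivity
  have hG0 : 0 < G := by rw [hG]; positivity
  have hA1 : (1 : ℝ) ≤ A := by exact_mod_cast D.hA
  -- Kj is small
  have hKG : Kj ≤ Z / G := by
    refine hEC.trans ?_
    rw [hZ, hG, div_le_div_iff₀ (by positivity) (by positivity), mul_assoc, ← pow_add]
    refine mul_le_mul_of_nonneg_left (pow_le_pow_right₀ (by norm_num) (by omega)) (by positivity)
  -- the precision
  obtain ⟨M, hM⟩ : ∃ M : ℝ, M = 2 ^ k := ⟨_, rfl⟩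
  have hM1 : 1 ≤ M := by
    rw [hM]
    exact one_le_pow₀ (by norm_num)
  obtain ⟨m, hm⟩ : ∃ m : ℝ, m = 2048 * a ^ 3 * M ^ 2 / G := ⟨_, rfl⟩
  have hm0 : 0 < m := by
    rw [hm]
    have : 0 < a := by linarith
    positivity
  have hGm : 1 / G ≤ m := by
    rw [hm]
    apply div_le_div_of_nonneg_right _ hG0.le
    have h1 : 1 ≤ a ^ 3 := one_le_pow₀ ha1
    have h2 : 1 ≤ M ^ 2 := one_le_pow₀ hM1
    have h3 := mul_le_mul h1 h2 (by norm_num) (by positivity)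
    linarith
  have hKm : Kj ≤ Z * m := by
    refine hKG.trans ?_
    have : Z / G = Z * (1 / G) := by ring
    rw [this]
    exact mul_le_mul_of_nonneg_left hGm hZ0.le
  rw [← ha] at hL2 hA2
  have hμ₃ := pw_mu hL hL2 hA2 hZ0 hG0 hM1 hE0 hKG hm
  have hth := pw_th (s := s) (g := g) hL hL2 hA1 hA2 hm0 (by rw [← hG]; exact hGm) hE0
    (by rw [← hZ]; exact hKm)
  have hGe : (2 : ℝ) ^ g = 262144 * (a ^ 6 * M ^ 2 * 2 ^ x * 2 ^ y) := by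
    rw [hg, ha, hM, pow_add, pow_add, pow_add, pow_add, pow_mul', pow_mul']
    norm_num
    ring
  have hth2 := pw_fin (s := s) (g := g) (x := x) (y := y) ha1 hM1 (by rw [← hG]; exact hm) hth hGe
    (by omega)
  rw [hG, hZ, hM, hKj] at hμ₃
  rw [hKj] at hth2
  -- the logarithm
  have hlin : Real.log (2 * (2 * ((1 + 2 * L) * (eC L (1 / 2 ^ x) (1 / 2 ^ x₁) K (2 ^ k) (2 ^ s) *
      (3 + 2 * L))) + 3 * ((2 * A : ℕ) : ℝ) + 1) + 1) ≤
      ((s : ℝ) + (2 * l + 8 + h) - x₁) * Real.log 2 := by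
    have e1 : ((s : ℝ) + (2 * l + 8 + h) - x₁) * Real.log 2 =
        Real.log (2 ^ s * 2 ^ (2 * l + 8 + h) / 2 ^ x₁) := by
      rw [Real.log_div (by positivity) (by positivity), Real.log_mul (by positivity)
        (by positivity), Real.log_pow, Real.log_pow, Real.log_pow]
      push_cast
      ring
    rw [e1, ← hKj]
    refine Real.log_le_log (by push_cast; positivity) ?_
    obtain ⟨Q, hQ⟩ : ∃ Q : ℝ, Q = 2 ^ s * 2 ^ h / 2 ^ x₁ := ⟨_, rfl⟩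
    have hQ1 : 1 ≤ Q := by
      rw [hQ, le_div_iff₀ (by positivity), one_mul, ← pow_add]
      exact pow_le_pow_right₀ (by norm_num) (by omega)
    have e2 : (2 : ℝ) ^ s * 2 ^ (2 * l + 8 + h) / 2 ^ x₁ = 256 * a ^ 2 * Q := by
      rw [hQ, ha, pow_add, pow_add, pow_mul']
      norm_num
      ring
    rw [e2]
    rw [← hQ] at hEC
    exact pw_log hL hL2 hA2 hE0 hEC hQ1
  have hX : (x₁ : ℝ) / 2 * Real.log 2 ≤ ((s : ℝ) - g) * Real.log 2 - Real.log (2 * (2 *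
      ((1 + 2 * L) * (eC L (1 / 2 ^ x) (1 / 2 ^ x₁) K (2 ^ k) (2 ^ s) * (3 + 2 * L))) +
        3 * ((2 * A : ℕ) : ℝ) + 1) + 1) := by
    have h1 : (2 * (g + 2 * l + 8 + h) : ℝ) ≤ x₁ := by exact_mod_cast hx2
    have h2 : (x₁ : ℝ) / 2 * Real.log 2 ≤
        ((x₁ : ℝ) - g - (2 * l + 8 + h)) * Real.log 2 :=
      mul_le_mul_of_nonneg_right (by linarith) hlog.le
    linarith
  have hx1pos : (0 : ℝ) < x₁ := by
    have : 0 < x₁ := by omega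
    exact_mod_cast this
  have hl3 : Real.log (2 * A + 1) ≤ (l + 2) * Real.log 2 := by
    have e1 : ((l : ℝ) + 2) * Real.log 2 = Real.log (2 ^ l * 4) := by
      have : Real.log 4 = 2 * Real.log 2 := by
        rw [show (4 : ℝ) = 2 ^ 2 by norm_num, Real.log_pow]
        norm_num
      rw [Real.log_mul (by positivity) (by norm_num), Real.log_pow, this]
      ring
    rw [e1, ← ha]
    exact Real.log_le_log (by positivity) (by linarith)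
  have hl4 : Real.log (2 * ((2 * A : ℕ) : ℝ) + 1) ≤ (l + 3) * Real.log 2 := by
    have e1 : ((l : ℝ) + 3) * Real.log 2 = Real.log (2 ^ l * 8) := by
      have : Real.log 8 = 3 * Real.log 2 := by
        rw [show (8 : ℝ) = 2 ^ 3 by norm_num, Real.log_pow]
        norm_num
      rw [Real.log_mul (by positivity) (by norm_num), Real.log_pow, this]
      ring
    rw [e1, ← ha]
    push_cast
    exact Real.log_le_log (by positivity) (by linarith)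
  have hl5 : Real.log 4 = 2 * Real.log 2 := by
    rw [show (4 : ℝ) = 2 ^ 2 by norm_num, Real.log_pow]
    norm_num
  have hl6 : Real.log 3 ≤ 2 * Real.log 2 := by
    rw [← hl5]
    exact Real.log_le_log (by norm_num) (by norm_num)
  have hs2 : (2 : ℝ) < s := by
    have : 2 < s := by omega
    exact_mod_cast this
  have hpos : 0 < ((s : ℝ) - g) * Real.log 2 - Real.log (2 * (2 *
      ((1 + 2 * L) * (eC L (1 / 2 ^ x) (1 / 2 ^ x₁) K (2 ^ k) (2 ^ s) * (3 + 2 * L))) +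
        3 * ((2 * A : ℕ) : ℝ) + 1) + 1) := lt_of_lt_of_le (by positivity) hX
  have hc61 := c61 D (μ := 1 / 2 ^ x) (μ₁ := 1 / 2 ^ x₁) (μ₃ := m) (c := c) (c₁ := c₁) (g := g)
    (by positivity) (by
      rw [div_le_one (by positivity)]
      exact one_le_pow₀ (by norm_num)) (by positivity) (by
      rw [one_div_pow, ← pow_mul, mul_one_div, div_le_div_iff₀ (by positivity) (by positivity),
        one_mul, ← pow_succ']
      exact pow_le_pow_right₀ (by norm_num) (by omega)) hc hc₁ hpar hn hμ₃ hpos (by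
      have := mul_le_mul_of_nonneg_left hX hc.le
      rw [hl5]
      linarith) (by
      have := mul_lt_mul_of_pos_right hs2 hlog
      linarith) (by
      have h1 : c * ((s - 2) * Real.log 2) ≤ c * (s * Real.log 2 - Real.log 3) :=
        mul_le_mul_of_nonneg_left (by linarith) hc.le
      linarith)
  obtain ⟨i, f, hf, hlaw⟩ := hc61
  refine ⟨i, f, hf, hlaw.trans ?_⟩
  refine Pool.D2Con.law_mono' (P2_isLaw D.isLaw S).nonneg fun v _ hv => ?_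
  exact ⟨hv.big, hv.big', hv.half, hv.half', hv.rat, fun j => (hv.lab j).trans hth2⟩

end Pool.D2P
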