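import Pool.Agent.H90.D2.PrA
import Pool.Agent.H66.D2.Join1
import Pool.Agent.H44.D2.Germ2

/-!
# D2, `(1,2,2;3)`, case [1]: pointwise algebra of parallel coefficient vectors

`Pll`: two large, nearly parallel vectors. `side1`: two nearly parallel copies give the germ of the
combination `U l + ρ U (1 - l)`. `rel3`, `rel4`, `rel5`: the relations of `join1` for the combination.
`eC`: one error for all of them.
-/

set_option autoImplicit false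

namespace Pool.D2P

open Finset Real
open Pool.D2G (w2)
open Pool.D2A (XE)

/-! ### Pointwise algebra -/

theorem or_l : ∀ l j : Fin 2, j = l ∨ j = 1 - l := by decide

/-- The determinant, from the index `l`. -/
theorem w2_l (l : Fin 2) (u v : Fin 2 → ℝ) : |w2 u v| = |u l * v (1 - l) - u (1 - l) * v l| := by
  unfold w2
  revert l
  refine Fin.forall_fin_two.mpr ⟨?_, ?_⟩
  · have e : (1 : Fin 2) - 0 = 1 := by decide
    rw [e]
  · have e : (1 : Fin 2) - 1 = 0 := by decide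
    rw [e, ← abs_neg]
    congr 1
    ring

theorem sum_l (l : Fin 2) (f : Fin 2 → ℝ) : ∑ i, f i = f l + f (1 - l) := by
  rw [Fin.sum_univ_two]
  revert l
  refine Fin.forall_fin_two.mpr ⟨?_, ?_⟩
  · have e : (1 : Fin 2) - 0 = 1 := by decide
    rw [e]
  · have e : (1 : Fin 2) - 1 = 0 := by decide
    rw [e, add_comm]

/-- Two nearly parallel large vectors. -/
def Pll (μ μ₁ : ℝ) (A a : Fin 2 → ℝ) : Prop :=
  (∃ i, μ ≤ |A i|) ∧ (∃ i, μ ≤ |a i|) ∧ |w2 A a| ≤ μ₁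

/-- The component `l` is large for both vectors. -/
theorem Pll.big {l : Fin 2} {μ μ₁ : ℝ} {A a : Fin 2 → ℝ} (h : Pll μ μ₁ A a) (hμ : 0 < μ)
    (hμ₁ : 2 * μ₁ ≤ μ ^ 2) (hl : ∀ i, |A i| ≤ |A l|) :
    μ ≤ |A l| ∧ μ / 2 ≤ |a l| ∧ |a (1 - l)| ≤ 2 * |a l| := by
  obtain ⟨⟨i, hi⟩, ⟨j, hj⟩, hw⟩ := h
  have hA : μ ≤ |A l| := hi.trans (hl i)
  have hA0 : 0 < |A l| := hμ.trans_le hA
  rw [w2_l l] at hw
  have h1 : |A l| * |a (1 - l)| ≤ |A l| * |a l| + μ₁ := by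
    have e : A l * a (1 - l) = (A l * a (1 - l) - A (1 - l) * a l) + A (1 - l) * a l := by ring
    rw [← abs_mul, e]
    refine (abs_add_le _ _).trans ?_
    rw [abs_mul (A (1 - l))]
    have := mul_le_mul_of_nonneg_right (hl (1 - l)) (abs_nonneg (a l))
    linarith
  have h2 : |a (1 - l)| ≤ |a l| + μ / 2 := by
    have h3 : μ₁ ≤ |A l| * (μ / 2) := by
      have := mul_le_mul_of_nonneg_right hA (by positivity : (0 : ℝ) ≤ μ / 2)
      nlinarith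
    have h4 : |A l| * |a (1 - l)| ≤ |A l| * (|a l| + μ / 2) := by
      rw [mul_add]
      linarith
    exact le_of_mul_le_mul_left h4 hA0
  have h5 : μ / 2 ≤ |a l| := by
    rcases or_l l j with h | h
    · rw [h] at hj
      linarith
    · rw [h] at hj
      linarith
  exact ⟨hA, h5, by linarith⟩

/-- The ratios. -/
theorem rat_le {l : Fin 2} {μ μ₁ : ℝ} {A a : Fin 2 → ℝ} (hμ : 0 < μ) (hA : μ ≤ |A l|)
    (ha : μ / 2 ≤ |a l|) (hw : |w2 A a| ≤ μ₁) :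
    |A (1 - l) - A l * (a (1 - l) / a l)| ≤ 2 * μ₁ / μ ∧
      |a (1 - l) / a l - A (1 - l) / A l| ≤ 2 * μ₁ / μ ^ 2 := by
  have hA0 : 0 < |A l| := hμ.trans_le hA
  have ha0 : 0 < |a l| := (half_pos hμ).trans_le ha
  have hA1 : A l ≠ 0 := abs_pos.mp hA0
  have ha1 : a l ≠ 0 := abs_pos.mp ha0
  have hμ₁ : 0 ≤ μ₁ := (abs_nonneg _).trans hw
  rw [w2_l l] at hw
  constructor
  · have e : A (1 - l) - A l * (a (1 - l) / a l) = -(A l * a (1 - l) - A (1 - l) * a l) / a l := by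
      field_simp
      ring
    rw [e, abs_div, abs_neg, div_le_div_iff₀ ha0 hμ]
    have h1 := mul_le_mul hw (le_refl μ) hμ.le hμ₁
    have h2 := mul_le_mul_of_nonneg_left ha (by positivity : (0 : ℝ) ≤ 2 * μ₁)
    linarith
  · have e : a (1 - l) / a l - A (1 - l) / A l = (A l * a (1 - l) - A (1 - l) * a l) /
        (a l * A l) := by
      field_simp
    rw [e, abs_div, abs_mul, div_le_div_iff₀ (by positivity) (by positivity)]
    have h1 := mul_le_mul hw (le_refl (μ ^ 2)) (by positivity) hμ₁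
    have h2 : μ / 2 * μ ≤ |a l| * |A l| := mul_le_mul ha hA hμ.le ha0.le
    have h3 := mul_le_mul_of_nonneg_left h2 (by positivity : (0 : ℝ) ≤ 2 * μ₁)
    nlinarith

/-- Two vectors which are nearly parallel to a third one. -/
theorem par_two {l : Fin 2} {L μ μ₁ : ℝ} {A a a' : Fin 2 → ℝ} (hμ : 0 < μ) (hA : μ ≤ |A l|)
    (h0 : |a l| ≤ L) (h1 : |a' l| ≤ L) (hw : |w2 A a| ≤ μ₁) (hw' : |w2 A a'| ≤ μ₁) :
    |w2 a a'| ≤ 2 * L * μ₁ / μ := by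
  have hA0 : 0 < |A l| := hμ.trans_le hA
  have hL : 0 ≤ L := (abs_nonneg _).trans h0
  have hμ₁ : 0 ≤ μ₁ := (abs_nonneg _).trans hw
  rw [w2_l l] at hw hw' ⊢
  have e : A l * (a l * a' (1 - l) - a (1 - l) * a' l) =
      a l * (A l * a' (1 - l) - A (1 - l) * a' l) - a' l * (A l * a (1 - l) - A (1 - l) * a l) := by
    ring
  have h2 : |A l| * |a l * a' (1 - l) - a (1 - l) * a' l| ≤ L * μ₁ + L * μ₁ := by
    rw [← abs_mul, e]
    refine (abs_sub _ _).trans ?_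
    rw [abs_mul, abs_mul]
    exact add_le_add (mul_le_mul h0 hw' (abs_nonneg _) hL) (mul_le_mul h1 hw (abs_nonneg _) hL)
  rw [le_div_iff₀ hμ]
  have h3 := mul_le_mul_of_nonneg_right hA (abs_nonneg (a l * a' (1 - l) - a (1 - l) * a' l))
  linarith

/-- The germ which is read from two copies. -/
noncomputable def gr (E x : Fin 2 → ℝ) (i : Fin 2) : ℝ :=
  if i = 0 then x 0 - E 0 * ((x 1 - x 0) / (E 1 - E 0)) else (x 1 - x 0) / (E 1 - E 0)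

theorem gr0 (E x : Fin 2 → ℝ) : gr E x 0 = x 0 - E 0 * ((x 1 - x 0) / (E 1 - E 0)) := by
  simp [gr]

theorem gr1 (E x : Fin 2 → ℝ) : gr E x 1 = (x 1 - x 0) / (E 1 - E 0) := by
  simp [gr]

theorem gr_add (E x y : Fin 2 → ℝ) (i : Fin 2) : gr E (fun k => x k + y k) i = gr E x i + gr E y i := by
  revert i
  refine Fin.forall_fin_two.mpr ⟨?_, ?_⟩
  · simp only [gr0]
    ring
  · simp only [gr1]
    ring

theorem gr_mul (E x : Fin 2 → ℝ) (t : ℝ) (i : Fin 2) : gr E (fun k => x k * t) i = gr E x i * t := by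
  revert i
  refine Fin.forall_fin_two.mpr ⟨?_, ?_⟩
  · simp only [gr0]
    ring
  · simp only [gr1]
    ring

/-- The size of the germ. -/
theorem gr_le {L δ M : ℝ} {E x : Fin 2 → ℝ} (hL : 1 ≤ L) (hM : 1 ≤ M) (hE : |E 0| ≤ L)
    (hs : 1 / M ≤ |E 1 - E 0|) (hx : ∀ k, |x k| ≤ δ) (i : Fin 2) : |gr E x i| ≤ 3 * L * M * δ := by
  have hδ : 0 ≤ δ := (abs_nonneg _).trans (hx 0)
  have hM0 : 0 < M := by linarith
  have hs0 : 0 < |E 1 - E 0| := lt_of_lt_of_le (by positivity) hs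
  have h1 : |(x 1 - x 0) / (E 1 - E 0)| ≤ 2 * M * δ := by
    rw [abs_div, div_le_iff₀ hs0]
    have h2 := abs_sub (x 1) (x 0)
    have h3 := hx 0
    have h4 := hx 1
    have h5 : 1 ≤ M * |E 1 - E 0| := by
      rw [div_le_iff₀ hM0] at hs
      linarith
    have h6 := mul_le_mul_of_nonneg_left h5 (by positivity : (0 : ℝ) ≤ 2 * δ)
    linarith
  have hLM : M * δ ≤ L * (M * δ) := le_mul_of_one_le_left (by positivity) hL
  have hδM : δ ≤ M * δ := le_mul_of_one_le_left hδ hM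
  revert i
  refine Fin.forall_fin_two.mpr ⟨?_, ?_⟩
  · rw [gr0]
    refine (abs_sub _ _).trans ?_
    rw [abs_mul]
    have h2 : |E 0| * |(x 1 - x 0) / (E 1 - E 0)| ≤ L * (2 * M * δ) :=
      mul_le_mul hE h1 (abs_nonneg _) (by linarith)
    have h3 := hx 0
    nlinarith
  · rw [gr1]
    refine h1.trans ?_
    nlinarith [mul_nonneg hM0.le hδ]

/-- The germ is exact. -/
theorem gr_eq {E : Fin 2 → ℝ} (h : E 1 - E 0 ≠ 0) (r : Fin 2 → ℝ) (i : Fin 2) :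
    gr E (fun k => r 0 + E k * r 1) i = r i := by
  revert i
  refine Fin.forall_fin_two.mpr ⟨?_, ?_⟩
  · rw [gr0]
    field_simp
    ring
  · rw [gr1]
    field_simp
    ring

/-- The combination. -/
noncomputable def cmb (l : Fin 2) (ρ : ℝ) (U : Fin 2 → Fin 2 → ℝ) (j : Fin 2) : ℝ :=
  U l j + ρ * U (1 - l) j

/-- **One side**: two nearly parallel copies give the germ of the combination. -/
theorem side1 {l : Fin 2} {L μ ν K M Z : ℝ} {a T U : Fin 2 → Fin 2 → ℝ} {E b P : Fin 2 → ℝ}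
    {r : Fin 2 → ℝ}
    (hL : 1 ≤ L) (hM : 1 ≤ M) (hμ : 0 < μ) (hK : 0 ≤ K)
    (ha : ∀ k, μ / 2 ≤ |a k l|) (hν : |w2 (a 0) (a 1)| ≤ ν) (hE : ∀ k, |E k| ≤ L)
    (hs : 1 / M ≤ |E 1 - E 0|) (hZ : 0 ≤ Z) (hU : ∀ i j, |U i j| ≤ L * Z)
    (hb : ∀ k, |b k - ∑ j, T k j * P j - ∑ i, a k i * (U i 0 + E k * U i 1)| ≤ K)
    (hr : ∀ j, |r j - cmb l (a 0 (1 - l) / a 0 l) U j| ≤ 1) (i : Fin 2) :
    |r i - gr E (fun k => b k / a k l) i - ∑ j, gr E (fun k => -(T k j / a k l)) i * P j| ≤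
      3 * L * M * (2 * (K + 4 * L ^ 2 * ν * Z / μ) / μ + 2 * L) := by
  have hM0 : 0 < M := by linarith
  have hs0 : 0 < |E 1 - E 0| := lt_of_lt_of_le (by positivity) hs
  have hν0 : 0 ≤ ν := (abs_nonneg _).trans hν
  have ha0 : ∀ k, 0 < |a k l| := fun k => (half_pos hμ).trans_le (ha k)
  have ha1 : ∀ k, a k l ≠ 0 := fun k => abs_pos.mp (ha0 k)
  -- the parallelism
  have hpar : ∀ k, |a k (1 - l) - a k l * (a 0 (1 - l) / a 0 l)| ≤ 2 * ν / μ := by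
    intro k
    have h1 : ∀ k, |a 0 l * a k (1 - l) - a 0 (1 - l) * a k l| ≤ ν := by
      refine Fin.forall_fin_two.mpr ⟨?_, ?_⟩
      · have e : a 0 l * a 0 (1 - l) - a 0 (1 - l) * a 0 l = 0 := by ring
        rw [e, abs_zero]
        exact hν0
      · rw [← w2_l l]
        exact hν
    have e : a k (1 - l) - a k l * (a 0 (1 - l) / a 0 l) =
        (a 0 l * a k (1 - l) - a 0 (1 - l) * a k l) / a 0 l := by
      have := ha1 0
      field_simp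
    rw [e, abs_div, div_le_div_iff₀ (ha0 0) hμ]
    have h2 := mul_le_mul_of_nonneg_right (h1 k) hμ.le
    have h3 := mul_le_mul_of_nonneg_left (ha 0) (by positivity : (0 : ℝ) ≤ 2 * ν)
    linarith
  obtain ⟨ρ, hρ⟩ : ∃ ρ : ℝ, ρ = a 0 (1 - l) / a 0 l := ⟨_, rfl⟩
  rw [← hρ] at hpar hr
  have hx : ∀ k, |(r 0 + E k * r 1) - (b k - ∑ j, T k j * P j) / a k l| ≤
      2 * (K + 4 * L ^ 2 * ν * Z / μ) / μ + 2 * L := by
    intro k
    obtain ⟨V, hV⟩ : ∃ V : ℝ, V = U (1 - l) 0 + E k * U (1 - l) 1 := ⟨_, rfl⟩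
    have hVl : |V| ≤ 2 * L ^ 2 * Z := by
      rw [hV]
      refine (abs_add_le _ _).trans ?_
      rw [abs_mul]
      have h1 := hU (1 - l) 0
      have h2 := mul_le_mul (hE k) (hU (1 - l) 1) (abs_nonneg _) (by linarith)
      nlinarith [mul_nonneg (by linarith : (0 : ℝ) ≤ L) hZ]
    have h1 := hb k
    rw [sum_l l (fun i => a k i * (U i 0 + E k * U i 1)), ← hV] at h1
    obtain ⟨B, hB⟩ : ∃ B : ℝ, B = b k - ∑ j, T k j * P j := ⟨_, rfl⟩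
    rw [← hB] at h1 ⊢
    -- the number, with the combination
    have h2 : |B - a k l * (cmb l ρ U 0 + E k * cmb l ρ U 1)| ≤ K + 4 * L ^ 2 * ν * Z / μ := by
      have e : B - a k l * (cmb l ρ U 0 + E k * cmb l ρ U 1) =
          (B - (a k l * (U l 0 + E k * U l 1) + a k (1 - l) * V)) +
          (a k (1 - l) - a k l * ρ) * V := by
        rw [hV]
        unfold cmb
        ring
      rw [e]
      refine (abs_add_le _ _).trans (add_le_add h1 ?_)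
      rw [abs_mul]
      refine (mul_le_mul (hpar k) hVl (abs_nonneg _) (by positivity)).trans (le_of_eq ?_)
      ring
    have h3 : |(cmb l ρ U 0 + E k * cmb l ρ U 1) - B / a k l| ≤
        2 * (K + 4 * L ^ 2 * ν * Z / μ) / μ := by
      have e : (cmb l ρ U 0 + E k * cmb l ρ U 1) - B / a k l =
          -(B - a k l * (cmb l ρ U 0 + E k * cmb l ρ U 1)) / a k l := by
        have := ha1 k
        field_simp
        ring
      rw [e, abs_div, abs_neg, div_le_div_iff₀ (ha0 k) hμ]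
      have h4 := mul_le_mul_of_nonneg_right h2 hμ.le
      have h5 := mul_le_mul_of_nonneg_left (ha k)
        (by positivity : (0 : ℝ) ≤ 2 * (K + 4 * L ^ 2 * ν * Z / μ))
      linarith
    have h4 : |(r 0 + E k * r 1) - (cmb l ρ U 0 + E k * cmb l ρ U 1)| ≤ 2 * L := by
      have e : (r 0 + E k * r 1) - (cmb l ρ U 0 + E k * cmb l ρ U 1) =
          (r 0 - cmb l ρ U 0) + E k * (r 1 - cmb l ρ U 1) := by ring
      rw [e]
      refine (abs_add_le _ _).trans ?_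
      rw [abs_mul]
      have h5 := hr 0
      have h6 := mul_le_mul (hE k) (hr 1) (abs_nonneg _) (by linarith)
      linarith
    have e : (r 0 + E k * r 1) - B / a k l = ((r 0 + E k * r 1) -
        (cmb l ρ U 0 + E k * cmb l ρ U 1)) + ((cmb l ρ U 0 + E k * cmb l ρ U 1) - B / a k l) := by
      ring
    rw [e]
    refine (abs_add_le _ _).trans ?_
    linarith
  have h1 := gr_le hL hM (hE 0) hs hx i
  have h2 : gr E (fun k => (r 0 + E k * r 1) - (b k - ∑ j, T k j * P j) / a k l) i =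
      r i - gr E (fun k => b k / a k l) i - ∑ j, gr E (fun k => -(T k j / a k l)) i * P j := by
    clear h1
    revert i
    refine Fin.forall_fin_two.mpr ⟨?_, ?_⟩
    · have h3 := gr_eq (abs_pos.mp hs0) r 0
      simp only [gr0, Fin.sum_univ_two] at h3 ⊢
      linear_combination h3
    · have h3 := gr_eq (abs_pos.mp hs0) r 1
      simp only [gr1, Fin.sum_univ_two] at h3 ⊢
      linear_combination h3
  rw [h2] at h1
  exact h1

/-- The error of all relations. -/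
noncomputable def eC (L μ μ₁ K M Z : ℝ) : ℝ :=
  6 * L ^ 2 * M * (2 * (K + 8 * L ^ 3 * μ₁ * Z / μ ^ 2) / μ + 2 * L)

section err

variable {L μ μ₁ K M Z : ℝ}

theorem eC_aux (hL : 1 ≤ L) (hμ : 0 < μ) (hμ₁ : 0 ≤ μ₁) (hK : 0 ≤ K) (hZ : 0 ≤ Z) :
    0 ≤ 2 * (K + 8 * L ^ 3 * μ₁ * Z / μ ^ 2) / μ + 2 * L := by
  have : 0 ≤ L := by linarith
  positivity

theorem eC_side (hL : 1 ≤ L) (hμ : 0 < μ) (hμ₁ : 0 ≤ μ₁) (hK : 0 ≤ K) (hM : 1 ≤ M) (hZ : 0 ≤ Z) :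
    3 * L * M * (2 * (K + 4 * L ^ 2 * (2 * L * μ₁ / μ) * Z / μ) / μ + 2 * L) +
      3 * L * M * (2 * L / μ) * K ≤ eC L μ μ₁ K M Z := by
  have hL0 : 0 ≤ L := by linarith
  have hM0 : 0 ≤ M := by linarith
  have e : 4 * L ^ 2 * (2 * L * μ₁ / μ) * Z / μ = 8 * L ^ 3 * μ₁ * Z / μ ^ 2 := by
    field_simp
    ring
  rw [e]
  unfold eC
  obtain ⟨X, hX⟩ : ∃ X : ℝ, X = 8 * L ^ 3 * μ₁ * Z / μ ^ 2 := ⟨_, rfl⟩
  have hX0 : 0 ≤ X := by
    rw [hX]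
    positivity
  rw [← hX]
  obtain ⟨D, hD⟩ : ∃ D : ℝ, D = 2 * (K + X) / μ + 2 * L := ⟨_, rfl⟩
  have hD1 : 2 / μ * K ≤ D := by
    rw [hD]
    have h1 : 2 * (K + X) / μ = 2 / μ * K + 2 / μ * X := by ring
    have h2 : 0 ≤ 2 / μ * X := by positivity
    linarith
  have hD0 : 0 ≤ D := le_trans (by positivity) hD1
  rw [← hD]
  have h1 : L * M ≤ L ^ 2 * M := by
    have : 0 ≤ (L - 1) * (L * M) := mul_nonneg (by linarith) (by positivity)
    linarith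
  have h2 : 3 * L * M * (2 * L / μ) * K = 3 * L ^ 2 * M * (2 / μ * K) := by ring
  have h3 : 3 * L ^ 2 * M * (2 / μ * K) ≤ 3 * L ^ 2 * M * D :=
    mul_le_mul_of_nonneg_left hD1 (by positivity)
  have h4 : 3 * (L * M) * D ≤ 3 * (L ^ 2 * M) * D :=
    mul_le_mul_of_nonneg_right (by linarith) hD0
  rw [h2]
  linarith

theorem eC_ge (hL : 1 ≤ L) (hμ : 0 < μ) (hμ1 : μ ≤ 1) (hμ₁ : 0 ≤ μ₁) (hK : 0 ≤ K) (hM : 1 ≤ M)
    (hZ : 0 ≤ Z) : 3 * K + 8 * L ^ 2 * (μ₁ * Z / μ ^ 2) + 4 * L ^ 2 ≤ eC L μ μ₁ K M Z := by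
  have hL0 : 0 ≤ L := by linarith
  obtain ⟨Y, hY⟩ : ∃ Y : ℝ, Y = μ₁ * Z / μ ^ 2 := ⟨_, rfl⟩
  have hY0 : 0 ≤ Y := by
    rw [hY]
    positivity
  have e : 8 * L ^ 3 * μ₁ * Z / μ ^ 2 = 8 * L ^ 3 * Y := by
    rw [hY]
    ring
  unfold eC
  rw [e, ← hY]
  have hL1 : (1 : ℝ) ≤ L ^ 2 := one_le_pow₀ hL
  have hL2 : L ^ 2 ≤ L ^ 3 := pow_le_pow_right₀ hL (by norm_num)
  have h1 : K + 8 * L ^ 3 * Y ≤ (K + 8 * L ^ 3 * Y) / μ := by
    rw [le_div_iff₀ hμ]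
    have : 0 ≤ (K + 8 * L ^ 3 * Y) * (1 - μ) := mul_nonneg (by positivity) (by linarith)
    linarith
  have h2 : 2 * (K + 8 * L ^ 3 * Y) + 2 * L ≤ 2 * (K + 8 * L ^ 3 * Y) / μ + 2 * L := by
    have : 2 * (K + 8 * L ^ 3 * Y) / μ = 2 * ((K + 8 * L ^ 3 * Y) / μ) := by ring
    rw [this]
    linarith
  have h3 : 6 * L ^ 2 * 1 * (2 * (K + 8 * L ^ 3 * Y) + 2 * L) ≤
      6 * L ^ 2 * M * (2 * (K + 8 * L ^ 3 * Y) / μ + 2 * L) :=
    mul_le_mul (mul_le_mul_of_nonneg_left hM (by positivity)) h2 (by positivity) (by positivity)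
  refine le_trans ?_ h3
  have h4 : K ≤ L ^ 2 * K := le_mul_of_one_le_left hK hL1
  have h5 : Y ≤ L ^ 3 * Y := le_mul_of_one_le_left hY0 (hL1.trans hL2)
  have h6 : L ^ 2 * Y ≤ L ^ 2 * (L ^ 3 * Y) := mul_le_mul_of_nonneg_left h5 (by positivity)
  have h7 : 0 ≤ L ^ 2 * Y := by positivity
  nlinarith

end err

/-- The own relation of the combinations. -/
theorem rel3 {l : Fin 2} {L K Z ρ ρ' ε E : ℝ} {U U' : Fin 2 → Fin 2 → ℝ} {r r' : Fin 2 → ℝ}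
    (hL : 1 ≤ L) (hZ : 0 ≤ Z) (hρ : |ρ| ≤ 2) (hρ' : |ρ' - ρ| ≤ ε) (hE : |E| ≤ L)
    (hU' : ∀ i j, |U' i j| ≤ L * Z)
    (hv : ∀ i, |(U' i 0 - U i 0) + E * (U' i 1 - U i 1)| ≤ K)
    (hr : ∀ j, |r j - cmb l ρ U j| ≤ 1) (hr' : ∀ j, |r' j - cmb l ρ' U' j| ≤ 1) :
    |∑ i, (r' i - r i) * XE E i| ≤ 3 * K + 2 * L ^ 2 * ε * Z + 4 * L := by
  have hε : 0 ≤ ε := (abs_nonneg _).trans hρ'
  have x0 : XE E 0 = 1 := by simp [XE]
  have x1 : XE E 1 = E := by simp [XE]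
  rw [Fin.sum_univ_two, x0, x1]
  have e : (r' 0 - r 0) * 1 + (r' 1 - r 1) * E =
      (((U' l 0 - U l 0) + E * (U' l 1 - U l 1)) +
        ρ * ((U' (1 - l) 0 - U (1 - l) 0) + E * (U' (1 - l) 1 - U (1 - l) 1))) +
      (ρ' - ρ) * (U' (1 - l) 0 + E * U' (1 - l) 1) +
      (((r' 0 - cmb l ρ' U' 0) - (r 0 - cmb l ρ U 0)) +
        E * ((r' 1 - cmb l ρ' U' 1) - (r 1 - cmb l ρ U 1))) := by
    unfold cmb
    ring
  rw [e]
  have h1 := hv l
  have h2 : |ρ * ((U' (1 - l) 0 - U (1 - l) 0) + E * (U' (1 - l) 1 - U (1 - l) 1))| ≤ 2 * K := by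
    rw [abs_mul]
    exact mul_le_mul hρ (hv (1 - l)) (abs_nonneg _) (by norm_num)
  have h3 : |(ρ' - ρ) * (U' (1 - l) 0 + E * U' (1 - l) 1)| ≤ 2 * L ^ 2 * ε * Z := by
    rw [abs_mul]
    have h4 : |U' (1 - l) 0 + E * U' (1 - l) 1| ≤ 2 * L ^ 2 * Z := by
      refine (abs_add_le _ _).trans ?_
      rw [abs_mul]
      have h5 := hU' (1 - l) 0
      have h6 := mul_le_mul hE (hU' (1 - l) 1) (abs_nonneg _) (by linarith)
      nlinarith [mul_nonneg (by linarith : (0 : ℝ) ≤ L) hZ]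
    refine (mul_le_mul hρ' h4 (abs_nonneg _) hε).trans (le_of_eq ?_)
    ring
  have h4 : |((r' 0 - cmb l ρ' U' 0) - (r 0 - cmb l ρ U 0)) +
        E * ((r' 1 - cmb l ρ' U' 1) - (r 1 - cmb l ρ U 1))| ≤ 4 * L := by
    refine (abs_add_le _ _).trans ?_
    rw [abs_mul]
    have k1 := abs_sub (r' 0 - cmb l ρ' U' 0) (r 0 - cmb l ρ U 0)
    have k2 := abs_sub (r' 1 - cmb l ρ' U' 1) (r 1 - cmb l ρ U 1)
    have k3 : |(r' 1 - cmb l ρ' U' 1) - (r 1 - cmb l ρ U 1)| ≤ 2 := by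
      linarith [hr 1, hr' 1]
    have k4 := mul_le_mul hE k3 (abs_nonneg _) (by linarith)
    linarith [hr 0, hr' 0]
  refine (abs_add_le _ _).trans (add_le_add ((abs_add_le _ _).trans (add_le_add
    ((abs_add_le _ _).trans (add_le_add h1 h2)) h3)) h4) |>.trans ?_
  linarith

/-- The own number and the combination. -/
theorem rel4 {l : Fin 2} {L K Z ρ ε E b : ℝ} {A T P r : Fin 2 → ℝ} {U : Fin 2 → Fin 2 → ℝ}
    (hL : 1 ≤ L) (hZ : 0 ≤ Z) (hε : |A (1 - l) - A l * ρ| ≤ ε) (hE : |E| ≤ L) (hA : |A l| ≤ L)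
    (hU : ∀ i j, |U i j| ≤ L * Z)
    (hb : |b - ∑ j, T j * P j - ∑ i, A i * (U i 0 + E * U i 1)| ≤ K)
    (hr : ∀ j, |r j - cmb l ρ U j| ≤ 1) :
    |2 * b - ∑ j, 2 * T j * P j - 2 * A l * ∑ i, r i * XE E i| ≤
      2 * K + 4 * L ^ 2 * ε * Z + 4 * L ^ 2 := by
  have hε0 : 0 ≤ ε := (abs_nonneg _).trans hε
  have x0 : XE E 0 = 1 := by simp [XE]
  have x1 : XE E 1 = E := by simp [XE]
  rw [sum_l l (fun i => A i * (U i 0 + E * U i 1)), Fin.sum_univ_two] at hb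
  rw [Fin.sum_univ_two, Fin.sum_univ_two, x0, x1]
  have e : 2 * b - (2 * T 0 * P 0 + 2 * T 1 * P 1) - 2 * A l * (r 0 * 1 + r 1 * E) =
      2 * (b - (T 0 * P 0 + T 1 * P 1) - (A l * (U l 0 + E * U l 1) +
        A (1 - l) * (U (1 - l) 0 + E * U (1 - l) 1))) +
      2 * ((A (1 - l) - A l * ρ) * (U (1 - l) 0 + E * U (1 - l) 1)) -
      2 * (A l * ((r 0 - cmb l ρ U 0) + E * (r 1 - cmb l ρ U 1))) := by
    unfold cmb
    ring
  rw [e]
  have h4 : |U (1 - l) 0 + E * U (1 - l) 1| ≤ 2 * L ^ 2 * Z := by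
    refine (abs_add_le _ _).trans ?_
    rw [abs_mul]
    have h5 := hU (1 - l) 0
    have h6 := mul_le_mul hE (hU (1 - l) 1) (abs_nonneg _) (by linarith)
    nlinarith [mul_nonneg (by linarith : (0 : ℝ) ≤ L) hZ]
  have h5 : |(A (1 - l) - A l * ρ) * (U (1 - l) 0 + E * U (1 - l) 1)| ≤ 2 * L ^ 2 * ε * Z := by
    rw [abs_mul]
    refine (mul_le_mul hε h4 (abs_nonneg _) hε0).trans (le_of_eq ?_)
    ring
  have h6 : |A l * ((r 0 - cmb l ρ U 0) + E * (r 1 - cmb l ρ U 1))| ≤ 2 * L ^ 2 := by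
    rw [abs_mul]
    have k1 : |(r 0 - cmb l ρ U 0) + E * (r 1 - cmb l ρ U 1)| ≤ 2 * L := by
      refine (abs_add_le _ _).trans ?_
      rw [abs_mul]
      have k2 := mul_le_mul hE (hr 1) (abs_nonneg _) (by linarith)
      linarith [hr 0]
    refine (mul_le_mul hA k1 (abs_nonneg _) (by linarith)).trans (le_of_eq ?_)
    ring
  obtain ⟨x, hx⟩ : ∃ x : ℝ, x = b - (T 0 * P 0 + T 1 * P 1) - (A l * (U l 0 + E * U l 1) +
        A (1 - l) * (U (1 - l) 0 + E * U (1 - l) 1)) := ⟨_, rfl⟩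
  obtain ⟨y, hy⟩ : ∃ y : ℝ, y = (A (1 - l) - A l * ρ) * (U (1 - l) 0 + E * U (1 - l) 1) :=
    ⟨_, rfl⟩
  obtain ⟨u, hu⟩ : ∃ u : ℝ, u = A l * ((r 0 - cmb l ρ U 0) + E * (r 1 - cmb l ρ U 1)) := ⟨_, rfl⟩
  rw [← hx] at hb ⊢
  rw [← hy] at h5 ⊢
  rw [← hu] at h6 ⊢
  rw [abs_le] at hb h5 h6 ⊢
  constructor <;> linarith [hb.1, hb.2, h5.1, h5.2, h6.1, h6.2]

/-- The two-time relation and the combination. -/
theorem rel5 {l : Fin 2} {L K Z ρ ρ' ε₁ ε₂ τ : ℝ} {A T r r' : Fin 2 → ℝ}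
    {U U' : Fin 2 → Fin 2 → ℝ} (hL : 1 ≤ L) (hε₁ : |A (1 - l) - A l * ρ| ≤ ε₁)
    (hε₂ : |ρ' - ρ| ≤ ε₂) (hA : |A l| ≤ L) (hU : ∀ i j, |U i j| ≤ L * Z)
    (hU' : ∀ i j, |U' i j| ≤ L * Z)
    (hb : ∀ j, |2 * τ * T j + ∑ i, A i * (U' i j - U i j)| ≤ K)
    (hr : ∀ j, |r j - cmb l ρ U j| ≤ 1) (hr' : ∀ j, |r' j - cmb l ρ' U' j| ≤ 1) (j : Fin 2) :
    |τ * (2 * T j) + A l * (r' j - r j)| ≤ K + 2 * L * ε₁ * Z + L ^ 2 * ε₂ * Z + 2 * L := by
  have hε₁0 : 0 ≤ ε₁ := (abs_nonneg _).trans hε₁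
  have hε₂0 : 0 ≤ ε₂ := (abs_nonneg _).trans hε₂
  have h0 := hb j
  rw [sum_l l (fun i => A i * (U' i j - U i j))] at h0
  have e : τ * (2 * T j) + A l * (r' j - r j) =
      (2 * τ * T j + (A l * (U' l j - U l j) + A (1 - l) * (U' (1 - l) j - U (1 - l) j))) -
      (A (1 - l) - A l * ρ) * (U' (1 - l) j - U (1 - l) j) +
      A l * ((ρ' - ρ) * U' (1 - l) j) +
      A l * ((r' j - cmb l ρ' U' j) - (r j - cmb l ρ U j)) := by
    unfold cmb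
    ring
  rw [e]
  have h1 : |(A (1 - l) - A l * ρ) * (U' (1 - l) j - U (1 - l) j)| ≤ 2 * L * ε₁ * Z := by
    rw [abs_mul]
    have k1 : |U' (1 - l) j - U (1 - l) j| ≤ 2 * (L * Z) := by
      have := abs_sub (U' (1 - l) j) (U (1 - l) j)
      linarith [hU (1 - l) j, hU' (1 - l) j]
    refine (mul_le_mul hε₁ k1 (abs_nonneg _) hε₁0).trans (le_of_eq ?_)
    ring
  have h2 : |A l * ((ρ' - ρ) * U' (1 - l) j)| ≤ L ^ 2 * ε₂ * Z := by
    rw [abs_mul, abs_mul]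
    have k1 := mul_le_mul hε₂ (hU' (1 - l) j) (abs_nonneg _) hε₂0
    refine (mul_le_mul hA k1 (by positivity) (by linarith)).trans (le_of_eq ?_)
    ring
  have h3 : |A l * ((r' j - cmb l ρ' U' j) - (r j - cmb l ρ U j))| ≤ 2 * L := by
    rw [abs_mul]
    have k1 : |(r' j - cmb l ρ' U' j) - (r j - cmb l ρ U j)| ≤ 2 := by
      have := abs_sub (r' j - cmb l ρ' U' j) (r j - cmb l ρ U j)
      linarith [hr j, hr' j]
    refine (mul_le_mul hA k1 (abs_nonneg _) (by linarith)).trans (le_of_eq ?_)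
    ring
  obtain ⟨x, hx⟩ : ∃ x : ℝ, x = 2 * τ * T j + (A l * (U' l j - U l j) +
    A (1 - l) * (U' (1 - l) j - U (1 - l) j)) := ⟨_, rfl⟩
  obtain ⟨y, hy⟩ : ∃ y : ℝ, y = (A (1 - l) - A l * ρ) * (U' (1 - l) j - U (1 - l) j) := ⟨_, rfl⟩
  obtain ⟨u, hu⟩ : ∃ u : ℝ, u = A l * ((ρ' - ρ) * U' (1 - l) j) := ⟨_, rfl⟩
  obtain ⟨t, ht⟩ : ∃ t : ℝ, t = A l * ((r' j - cmb l ρ' U' j) - (r j - cmb l ρ U j)) := ⟨_, rfl⟩
  rw [← hx] at h0 ⊢
  rw [← hy] at h1 ⊢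
  rw [← hu] at h2 ⊢
  rw [← ht] at h3 ⊢
  rw [abs_le] at h0 h1 h2 h3 ⊢
  constructor <;> linarith [h0.1, h0.2, h1.1, h1.2, h2.1, h2.2, h3.1, h3.2]

end Pool.D2P
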