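import Pool.Agent.H4.D2.Nrv

/-!
# The number of the digits of a code

`ch_dig`, `cnt_dig`: more digits of the same height. `Dig`: a code with fewer digits over the same
label; `FewC`: few bits up to a constant, on events of positive share.
-/

set_option autoImplicit false

namespace Pool.D2F2

open Finset Real MvPolynomial
open Pool.Agent.H49.Ent Pool.Agent.H32.Dense Pool.STK Pool.KA Pool.KSAT Pool.K2S Pool.PB Pool.GEN
open Pool.S6C Pool.LA91 Pool.RCD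
open Pool.OWN83 (ch_part)

section law

variable {Ω T : Type} [Fintype Ω]

/-- **More digits** of the same number. -/
theorem ch_dig {q : Ω → ℝ} (hq : IsLaw q) (h : Ω → ℝ) (Z : Ω → T) {N M J : ℝ}
    (hNM : N * J ≤ M * J)
    (hZ : ∀ ω ω', 0 < q ω → 0 < q ω' → Z ω = Z ω' →
      ⌊(2 : ℝ) ^ (N * J) * h ω⌋ = ⌊(2 : ℝ) ^ (N * J) * h ω'⌋) :
    CH q (fun ω => ⌊(2 : ℝ) ^ (M * J) * h ω⌋) Z ≤ (M - N) * Real.log 2 * J + 3 := by
  obtain ⟨L, hL⟩ : ∃ L : ℝ, L = (2 : ℝ) ^ (M * J - N * J) := ⟨_, rfl⟩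
  have hL1 : 1 ≤ L := by
    rw [hL]
    exact Real.one_le_rpow (by norm_num) (by linarith)
  have h2 : ∀ ω, (2 : ℝ) ^ (M * J) * h ω = L * ((2 : ℝ) ^ (N * J) * h ω) := fun ω => by
    rw [hL, ← mul_assoc, ← Real.rpow_add two_pos]
    congr 2
    ring
  have h1 := CH_le_int hq.nonneg hq.sum_one (fun ω => ⌊(2 : ℝ) ^ (M * J) * h ω⌋) Z
    (fun _ => L + 1) (fun ω ω' hω hω' hz => by
      have e0 := hZ ω ω' hω hω' hz
      have a1 := Int.floor_le ((2 : ℝ) ^ (N * J) * h ω)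
      have a2 := Int.lt_floor_add_one ((2 : ℝ) ^ (N * J) * h ω)
      have a3 := Int.floor_le ((2 : ℝ) ^ (N * J) * h ω')
      have a4 := Int.lt_floor_add_one ((2 : ℝ) ^ (N * J) * h ω')
      have b1 := Int.floor_le ((2 : ℝ) ^ (M * J) * h ω)
      have b2 := Int.lt_floor_add_one ((2 : ℝ) ^ (M * J) * h ω)
      have b3 := Int.floor_le ((2 : ℝ) ^ (M * J) * h ω')
      have b4 := Int.lt_floor_add_one ((2 : ℝ) ^ (M * J) * h ω')
      rw [e0] at a1 a2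
      have c1 : |(2 : ℝ) ^ (M * J) * h ω - (2 : ℝ) ^ (M * J) * h ω'| ≤ L := by
        rw [h2 ω, h2 ω', ← mul_sub, abs_mul, abs_of_pos (by linarith : (0 : ℝ) < L)]
        have : |(2 : ℝ) ^ (N * J) * h ω - (2 : ℝ) ^ (N * J) * h ω'| ≤ 1 := by
          rw [abs_le]
          constructor <;> linarith
        nlinarith
      obtain ⟨c1, c2⟩ := abs_le.1 c1
      push_cast
      rw [abs_le]
      constructor <;> linarith)
  rw [Ex_const hq.sum_one] at h1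
  have h3 : Real.log (2 * (L + 1) + 1) ≤ Real.log L + 3 := by
    have e1 : (5 : ℝ) ≤ Real.exp 3 := by
      have := Real.add_one_le_exp (3 : ℝ)
      have h4 : (2.7 : ℝ) ≤ Real.exp 1 := by
        have := Real.exp_one_gt_d9
        linarith
      have h5 : Real.exp 3 = Real.exp 1 * Real.exp 1 * Real.exp 1 := by
        rw [← Real.exp_add, ← Real.exp_add]
        norm_num
      rw [h5]
      nlinarith [mul_pos (Real.exp_pos 1) (Real.exp_pos 1)]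
    have e2 : 2 * (L + 1) + 1 ≤ L * Real.exp 3 := by nlinarith
    refine (Real.log_le_log (by linarith) e2).trans (le_of_eq ?_)
    rw [Real.log_mul (by linarith) (Real.exp_pos _).ne', Real.log_exp]
  have h4 : Real.log L = (M - N) * Real.log 2 * J := by
    rw [hL, Real.log_rpow two_pos]
    ring
  linarith

theorem cnt_set {β : Type} (p : Ω → ℝ) (Y : Ω → β) (A : Ω → Prop) :
    ∃ I : Finset β, I.card = cnt p Y A ∧ ∀ ω, 0 < p ω → A ω → Y ω ∈ I := by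
  classical
  refine ⟨(univ.filter fun ω => 0 < p ω ∧ A ω).image Y, ?_, fun ω h0 hA => ?_⟩
  · unfold cnt
    rfl
  · exact mem_image_of_mem Y (mem_filter.2 ⟨mem_univ _, h0, hA⟩)

/-- **Fewer digits** have few more values. -/
theorem cnt_dig {p : Ω → ℝ} {A : Ω → Prop} (h : Ω → ℝ) {N M J : ℝ} (hNM : N * J ≤ M * J) :
    cnt p (fun ω => ⌊(2 : ℝ) ^ (N * J) * h ω⌋) A ≤
      2 * cnt p (fun ω => ⌊(2 : ℝ) ^ (M * J) * h ω⌋) A := by
  obtain ⟨d, hd⟩ : ∃ d : ℝ, d = (2 : ℝ) ^ (N * J - M * J) := ⟨_, rfl⟩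
  have hd0 : 0 < d := by
    rw [hd]
    exact Real.rpow_pos_of_pos two_pos _
  have hd1 : d ≤ 1 := by
    rw [hd]
    exact Real.rpow_le_one_of_one_le_of_nonpos (by norm_num) (by linarith)
  have h2 : ∀ ω, (2 : ℝ) ^ (N * J) * h ω = d * ((2 : ℝ) ^ (M * J) * h ω) := fun ω => by
    rw [hd, ← mul_assoc, ← Real.rpow_add two_pos]
    congr 2
    ring
  obtain ⟨I, hI1, hI2⟩ := cnt_set p (fun ω => ⌊(2 : ℝ) ^ (M * J) * h ω⌋) A
  rw [← hI1]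
  refine (cnt_le_card p _ (I.biUnion
    fun b : ℤ => ({⌊d * (b : ℝ)⌋, ⌊d * (b : ℝ)⌋ + 1} : Finset ℤ)) fun ω h0 hA => ?_).trans ?_
  · refine Finset.mem_biUnion.2 ⟨_, hI2 ω h0 hA, ?_⟩
    have b1 := Int.floor_le ((2 : ℝ) ^ (M * J) * h ω)
    have b2 := Int.lt_floor_add_one ((2 : ℝ) ^ (M * J) * h ω)
    have c1 := mul_le_mul_of_nonneg_left b1 hd0.le
    have c2 : d * ((2 : ℝ) ^ (M * J) * h ω) <
        d * ((⌊(2 : ℝ) ^ (M * J) * h ω⌋ : ℤ) : ℝ) + 1 := by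
      have := mul_lt_mul_of_pos_left b2 hd0
      linarith
    rw [← h2] at c1 c2
    have a1 : ⌊d * ((⌊(2 : ℝ) ^ (M * J) * h ω⌋ : ℤ) : ℝ)⌋ ≤ ⌊(2 : ℝ) ^ (N * J) * h ω⌋ :=
      Int.floor_le_floor c1
    have a2 : ⌊(2 : ℝ) ^ (N * J) * h ω⌋ <
        ⌊d * ((⌊(2 : ℝ) ^ (M * J) * h ω⌋ : ℤ) : ℝ)⌋ + 2 := by
      rw [Int.floor_lt]
      push_cast
      have := Int.lt_floor_add_one (d * ((⌊(2 : ℝ) ^ (M * J) * h ω⌋ : ℤ) : ℝ))
      linarith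
    rw [Finset.mem_insert, Finset.mem_singleton]
    omega
  · refine card_biUnion_le.trans ((Finset.sum_le_sum fun b _ => card_insert_le _ _).trans ?_)
    simp only [card_singleton]
    rw [Finset.sum_const, smul_eq_mul, mul_comm]

end law

section

variable {m : ℕ} {U U' V V' : Type} {α β γ : ∀ J : ℕ, Fam m J → Type}
  {f : ∀ (J : ℕ) (F : Fam m J), F.Ω → α J F} {g : ∀ (J : ℕ) (F : Fam m J), F.Ω → β J F}
  {y : ∀ (J : ℕ) (F : Fam m J), F.Ω → γ J F} {S : PCl m}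

/-- **A code with fewer digits** over the same label. -/
def Dig (Q' : Qt m U') (Q : Qt m U) (c d : ℝ) : Prop :=
  ∀ (K : ℕ) (e : ℝ) (J : ℕ) (F : Fam m J) (A : F.Ω → Prop) (b : F.Ω → U'), 1 ≤ J →
    Q'.P K e J F A b → ∃ a : F.Ω → U, Q.P (K + 1) e J F A a ∧
      ∀ q : F.Ω → ℝ, IsLaw q → (∀ ω, 0 < q ω → A ω) → CH q b a ≤ c * J + d

theorem two_exp {x : ℝ} {K J : ℕ} (hJ : 1 ≤ J) (h : x ≤ Real.exp (K * J)) :
    2 * x ≤ Real.exp (((K + 1 : ℕ) : ℝ) * J) := by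
  have h1 : (2 : ℝ) ≤ Real.exp J := by
    have h2 := Real.add_one_le_exp (J : ℝ)
    have h3 : (1 : ℝ) ≤ J := by exact_mod_cast hJ
    linarith
  have h2 : Real.exp (((K + 1 : ℕ) : ℝ) * J) = Real.exp J * Real.exp (K * J) := by
    rw [← Real.exp_add]
    congr 1
    push_cast
    ring
  rw [h2]
  have h3 := mul_le_mul_of_nonneg_right h1 (Real.exp_pos (K * (J : ℝ))).le
  linarith

/-- A code over one label. -/
theorem dig_jet {I : Finset (Fin m)} {k : Fin m} {j : ℕ} {w p N M : ℝ} (hNM : N ≤ M) :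
    Dig (qJet m I k j w p M) (qJet m I k j w p N) ((M - N) * Real.log 2) 3 := by
  intro K e J F A b hJ hb
  have hJ0 : (0 : ℝ) ≤ J := Nat.cast_nonneg J
  have hNJ : N * J ≤ M * J := mul_le_mul_of_nonneg_right hNM hJ0
  obtain ⟨hc, V, z, z', G, hl, hu⟩ := hb
  obtain ⟨h, hh⟩ : ∃ h : F.Ω → ℝ, h = fun ω => ojet F k j (G (z' (slam F ⌊w * J⌋₊ ω))) ω :=
    ⟨_, rfl⟩
  have e1 : cnt F.p (fun ω => ⌊(2 : ℝ) ^ (M * J) * h ω⌋) A ≤ cnt F.p b A :=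
    cnt_comp_le F.p b _ id fun ω _ hω => by
      show _ = b ω
      rw [hu ω hω, hh]
  refine ⟨fun ω => ⌊(2 : ℝ) ^ (N * J) * h ω⌋, ⟨?_, V, z, z', G, ?_, fun ω _ => ?_⟩, ?_⟩
  · have h1 := cnt_dig (p := F.p) (A := A) h hNJ
    have h2 : ((cnt F.p (fun ω => ⌊(2 : ℝ) ^ (N * J) * h ω⌋) A : ℕ) : ℝ) ≤
        2 * (cnt F.p b A : ℝ) := by
      have h4 : cnt F.p (fun ω => ⌊(2 : ℝ) ^ (N * J) * h ω⌋) A ≤ 2 * cnt F.p b A := by omega
      exact_mod_cast h4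
    exact h2.trans (two_exp hJ hc)
  · exact hl.mono (Finset.Subset.refl _) (Nat.le_succ K) le_rfl
  · rw [hh]
  · intro q hq hqA
    have h3 := ch_dig hq h (fun ω => ⌊(2 : ℝ) ^ (N * J) * h ω⌋) hNJ
      (fun ω ω' _ _ hz => hz)
    refine le_trans (CH_mono_left hq.nonneg fun ω ω' hω hω' hh' => ?_) h3
    rw [hu ω (hqA ω hω), hu ω' (hqA ω' hω')]
    rw [hh] at hh'
    exact (Prod.ext_iff.mp hh').1

/-- A code over one affine label. -/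
theorem dig_qA {I : Finset (Fin m)} {ι k : Fin m} {j : ℕ} {w p N M : ℝ} (hNM : N ≤ M) :
    Dig (qA m I ι k j w p M) (qA m I ι k j w p N) ((M - N) * Real.log 2) 3 := by
  intro K e J F A b hJ hb
  have hJ0 : (0 : ℝ) ≤ J := Nat.cast_nonneg J
  have hNJ : N * J ≤ M * J := mul_le_mul_of_nonneg_right hNM hJ0
  obtain ⟨hc, V, z, z', G, c, hl, ha, hu⟩ := hb
  obtain ⟨h, hh⟩ : ∃ h : F.Ω → ℝ, h = fun ω => ojet F k j (G (z' (slam F ⌊w * J⌋₊ ω))) ω :=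
    ⟨_, rfl⟩
  have e1 : cnt F.p (fun ω => ⌊(2 : ℝ) ^ (M * J) * h ω⌋) A ≤ cnt F.p b A :=
    cnt_comp_le F.p b _ id fun ω _ hω => by
      show _ = b ω
      rw [hu ω hω, hh]
  refine ⟨fun ω => ⌊(2 : ℝ) ^ (N * J) * h ω⌋, ⟨?_, V, z, z', G, c, ?_, ha, fun ω _ => ?_⟩, ?_⟩
  · have h1 := cnt_dig (p := F.p) (A := A) h hNJ
    have h2 : ((cnt F.p (fun ω => ⌊(2 : ℝ) ^ (N * J) * h ω⌋) A : ℕ) : ℝ) ≤
        2 * (cnt F.p b A : ℝ) := by
      have h4 : cnt F.p (fun ω => ⌊(2 : ℝ) ^ (N * J) * h ω⌋) A ≤ 2 * cnt F.p b A := by omega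
      exact_mod_cast h4
    exact h2.trans (two_exp hJ hc)
  · exact hl.mono (Finset.Subset.refl _) (Nat.le_succ K) le_rfl
  · rw [hh]
  · intro q hq hqA
    have h3 := ch_dig hq h (fun ω => ⌊(2 : ℝ) ^ (N * J) * h ω⌋) hNJ
      (fun ω ω' _ _ hz => hz)
    refine le_trans (CH_mono_left hq.nonneg fun ω ω' hω hω' hh' => ?_) h3
    rw [hu ω (hqA ω hω), hu ω' (hqA ω' hω')]
    rw [hh] at hh'
    exact (Prod.ext_iff.mp hh').1

theorem Dig.prod {Q₁' : Qt m U'} {Q₁ : Qt m U} {Q₂' : Qt m V'} {Q₂ : Qt m V} {c₁ c₂ d₁ d₂ : ℝ}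
    (h₁ : Dig Q₁' Q₁ c₁ d₁) (h₂ : Dig Q₂' Q₂ c₂ d₂) :
    Dig (Q₁'.prod Q₂') (Q₁.prod Q₂) (c₁ + c₂) (d₁ + d₂) := by
  intro K e J F A b hJ hb
  obtain ⟨a₁, x1, x2⟩ := h₁ K e J F A (fun ω => (b ω).1) hJ hb.1
  obtain ⟨a₂, y1, y2⟩ := h₂ K e J F A (fun ω => (b ω).2) hJ hb.2
  refine ⟨fun ω => (a₁ ω, a₂ ω), ⟨x1, y1⟩, fun q hq hqA => ?_⟩
  have s1 := CH_chain hq.nonneg (fun ω => (b ω).1) (fun ω => (b ω).2) (fun ω => (a₁ ω, a₂ ω))
  have s2 : CH q (fun ω => (b ω).2) (fun ω => (a₁ ω, a₂ ω)) ≤ CH q (fun ω => (b ω).2) a₂ :=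
    CH_mono_cond hq.nonneg fun ω ω' _ _ hh => (Prod.ext_iff.mp hh).2
  have s3 : CH q (fun ω => (b ω).1) (fun ω => ((b ω).2, (a₁ ω, a₂ ω))) ≤
      CH q (fun ω => (b ω).1) a₁ :=
    CH_mono_cond hq.nonneg fun ω ω' _ _ hh => by
      simp only [Prod.mk.injEq] at hh
      exact hh.2.1
  have s4 := x2 q hq hqA
  have s5 := y2 q hq hqA
  change CH q b (fun ω => (a₁ ω, a₂ ω)) ≤ (c₁ + c₂) * J + (d₁ + d₂)
  have s6 : CH q b (fun ω => (a₁ ω, a₂ ω)) ≤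
      CH q (fun ω => ((b ω).1, (b ω).2)) (fun ω => (a₁ ω, a₂ ω)) := le_rfl
  linarith

/-- **Few bits up to a constant**, given the record, on events of positive share. -/
def FewC (S : PCl m) (f : ∀ (J : ℕ) (F : Fam m J), F.Ω → α J F)
    (g : ∀ (J : ℕ) (F : Fam m J), F.Ω → β J F) (y : ∀ (J : ℕ) (F : Fam m J), F.Ω → γ J F)
    (Q : Qt m U) (Q' : Qt m U') (c c₀ : ℝ) : Prop :=
  ∀ h : ℝ, 0 < h → ∃ k : ℝ, 0 < k ∧ ∃ e₀ : ℝ, 0 < e₀ ∧ ∀ K : ℕ, Bas S (fun J F A =>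
    ∀ (V : Type) (z : F.Ω → V), Mx f g k F A z → ∀ u u', Q.P K e₀ J F A u →
    Q'.P K e₀ J F A u' → ∀ B : F.Ω → Prop, Sub B A → c₀ * Pe F.p A ≤ Pe F.p B →
    CH (Pool.Agent.H49.Ent.cond F.p B True) u' (fun ω => (u ω, (z ω, y J F ω))) ≤ (c + h) * J)

theorem FewC.of
    (hpos : ∀ (τ : ℝ) (J : ℕ) (F : Fam m J) (A : F.Ω → Prop), S.St τ J F A → 0 < Pe F.p A)
    {Q : Qt m U} {Q₁ : Qt m V} {Q' : Qt m U'} {c d c₀ : ℝ} (hc₀ : 0 < c₀)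
    (hf : Few S f g y Q Q₁) (hd : Dig Q' Q₁ c d) : FewC S f g y Q Q' c c₀ := by
  intro h hh
  have hch : 0 < c₀ * (h / 2) := by positivity
  obtain ⟨e₀, he₀, H⟩ := hf.mx hpos (c₀ * (h / 2)) hch
  refine ⟨c₀ * (h / 2) / 2, by positivity, e₀, he₀, fun K => ?_⟩
  refine Bas.mono (max 1 ⌈2 * d / h⌉₊) ((H (K + 1)).and (pos_bas hpos)) ?_
  rintro J hJ F A ⟨H, hAp⟩ V' z hz u u' hu hu' B hB hBc
  have hJ1 : 1 ≤ J := (le_max_left _ _).trans hJ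
  have hJd : d ≤ h / 2 * J := by
    have h1 : 2 * d / h ≤ J := Nat.ceil_le.1 ((le_max_right _ _).trans hJ)
    rw [div_le_iff₀ hh] at h1
    linarith
  have hBp : 0 < Pe F.p B := lt_of_lt_of_le (mul_pos hc₀ hAp) hBc
  have hcl := isLaw_cond F.isLaw hBp
  obtain ⟨a, ha1, ha2⟩ := hd K e₀ J F A u' hJ1 hu'
  have s1 := ch_part F.isLaw hB hAp hc₀ hBc a (fun ω => (u ω, (z ω, y J F ω)))
    (by rw [← mul_assoc]; exact H V' z hz u a (Q.mono (Nat.le_succ K) le_rfl hu) ha1)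
  have s2 := ha2 _ hcl fun ω hω => hB ω (of_cond_pos hω)
  have s3 := CH_le_add hcl.nonneg u' a (fun ω => (u ω, (z ω, y J F ω)))
  have s4 : CH (Pool.Agent.H49.Ent.cond F.p B True) u'
      (fun ω => (a ω, (u ω, (z ω, y J F ω)))) ≤
      CH (Pool.Agent.H49.Ent.cond F.p B True) u' a :=
    CH_mono_cond hcl.nonneg fun ω ω' _ _ hh => (Prod.ext_iff.mp hh).1
  linarith

end

end Pool.D2F2
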