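import Pool.Agent.H4.D2.Two

/-!
# A chain of pairs

`μ` is a law of pairs whose two components have the same law of the line `L`. The chain has the pairs
`P 0, P 1, ..., P k`, each with the law `μ`; the first component of `P (j + 1)` is a copy of the second
component of `P j` given the line. This is the walk: hop (inside a pair), slide (between two pairs).
-/

set_option autoImplicit false

namespace Pool.D2P

open Finset Real
open Pool.Agent.H49.Ent Pool.Agent.H32.Dense Pool.STK Pool.OWN68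

section

variable {Ω : Type} [Fintype Ω] {lam : Type}

/-- The past of a chain. -/
def pst {W X : Type} (P : ℕ → W → X) (j : ℕ) (w : W) (i : Fin (j + 1)) : X := P i w

/-- **The chain.** -/
structure Chain (μ : Ω × Ω → ℝ) (L : Ω → lam) (k : ℕ) {W : Type} [Fintype W] (q : W → ℝ)
    (P : ℕ → W → Ω × Ω) : Prop where
  isLaw : IsLaw q
  marg : ∀ j ≤ k, Marg q μ (P j)
  line : ∀ j < k, ∀ w, 0 < q w → L (P (j + 1) w).1 = L (P j w).2
  indep : ∀ j < k, ∀ (S T : Type) (X : Ω × Ω → S) (Y : Ω × Ω → T),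
    Det μ Y (fun x => L x.1) →
    CH q (fun w => X (P (j + 1) w)) (fun w => (Y (P (j + 1) w), pst P j w)) = CH μ X Y

theorem chain_ex {μ : Ω × Ω → ℝ} (hμ : IsLaw μ) (L : Ω → lam)
    (hL : ∀ z, law μ (fun x => L x.2) z = law μ (fun x => L x.1) z) (k : ℕ) :
    ∃ (W : Type) (_ : Fintype W) (q : W → ℝ) (P : ℕ → W → Ω × Ω), Chain μ L k q P := by
  classical
  induction k with
  | zero =>
    exact ⟨Ω × Ω, inferInstance, μ, fun _ w => w, hμ, fun _ _ => Marg.id μ,
      fun j hj => absurd hj (Nat.not_lt_zero j), fun j hj => absurd hj (Nat.not_lt_zero j)⟩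
  | succ k ih =>
    obtain ⟨W, iW, q, P, h⟩ := ih
    have hq0 := h.isLaw.nonneg
    have hp0 := hμ.nonneg
    have hZ : ∀ z, law q (fun w => L (P k w).2) z = law μ (fun x => L x.1) z := fun z =>
      ((h.marg k le_rfl).law (fun x => L x.2) z).trans (hL z)
    obtain ⟨q', hq'⟩ : ∃ q', q' = glue q μ (fun w => L (P k w).2) (fun x => L x.1) := ⟨_, rfl⟩
    have m1 : Marg q' q (fun w => w.1) := by
      rw [hq']
      exact marg_fst hq0 hZ
    have m2 : Marg q' μ (fun w => w.2) := by
      rw [hq']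
      exact marg_snd hp0 hZ
    have hq'0 : ∀ w, 0 ≤ q' w := by
      rw [hq']
      exact fun w => glue_nonneg hq0 hp0 w
    obtain ⟨P', hP'⟩ : ∃ P' : ℕ → W × (Ω × Ω) → Ω × Ω,
        P' = fun j w => if j ≤ k then P j w.1 else w.2 := ⟨_, rfl⟩
    have hP1 : ∀ j ≤ k, P' j = fun w => P j w.1 := fun j hj => by
      rw [hP']
      funext w
      exact if_pos hj
    have hP2 : P' (k + 1) = fun w => w.2 := by
      rw [hP']
      funext w
      exact if_neg (by omega)
    refine ⟨W × (Ω × Ω), inferInstance, q', P', ⟨hq'0, ?_⟩, ?_, ?_, ?_⟩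
    · rw [m1.sum]
      exact h.isLaw.sum_one
    · intro j hj
      rcases Nat.lt_or_ge k j with h1 | h1
      · have : j = k + 1 := by omega
        rw [this, hP2]
        exact m2
      · rw [hP1 j h1]
        exact m1.comp (h.marg j h1)
    · intro j hj w hw
      rcases Nat.lt_or_ge j k with h1 | h1
      · rw [hP1 (j + 1) h1, hP1 j h1.le]
        exact h.line j h1 w.1 (m1.pos hq'0 hw)
      · have : j = k := by omega
        rw [this, hP2, hP1 k le_rfl]
        rw [hq'] at hw
        exact ((glue_pos_iff hq0 hp0 w).mp hw).2.2.symm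
    · intro j hj S T X Y hY
      have e1 : pst P' j = fun w => pst P j w.1 := by
        funext w i
        unfold pst
        rw [hP1 i (by omega)]
      rcases Nat.lt_or_ge j k with h1 | h1
      · rw [hP1 (j + 1) h1, e1]
        exact (m1.CH (fun w => X (P (j + 1) w)) (fun w => (Y (P (j + 1) w), pst P j w))).trans
          (h.indep j h1 S T X Y hY)
      · have e2 : j = k := by omega
        subst e2
        rw [hP2, e1, hq']
        exact CH_glue_snd hq0 hp0 hZ X (pst P j) hY

variable {W : Type} [Fintype W] {q : W → ℝ} {P : ℕ → W → Ω × Ω} {μ : Ω × Ω → ℝ} {L : Ω → lam} {k : ℕ}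

/-- A record of the next pair given the past. -/
theorem Chain.next (h : Chain μ L k q P) {j : ℕ} (hj : j < k) {S T : Type} (X : Ω × Ω → S)
    (Z : W → T) (hZ : Det q (pst P j) Z) :
    CH μ X (fun x => L x.1) ≤ CH q (fun w => X (P (j + 1) w)) Z := by
  rw [← h.indep j hj S lam X (fun x => L x.1) (fun _ _ _ _ hh => hh)]
  refine CH_mono_cond h.isLaw.nonneg fun w w' hw hw' hh => ?_
  exact hZ w w' hw hw' (Prod.ext_iff.mp hh).2

/-- The line of the first component of `P (j+1)` is determined by the past. -/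
theorem Chain.next_eq (h : Chain μ L k q P) {j : ℕ} (hj : j < k) {S : Type} (X : Ω × Ω → S) :
    CH q (fun w => X (P (j + 1) w)) (pst P j) = CH μ X (fun x => L x.1) := by
  rw [← h.indep j hj S lam X (fun x => L x.1) (fun _ _ _ _ hh => hh)]
  refine CH_congr h.isLaw.nonneg (fun _ _ _ _ hh => (Prod.ext_iff.mp hh).1)
    (fun _ _ _ _ hh => (Prod.ext_iff.mp hh).1) ?_ (fun _ _ _ _ hh => (Prod.ext_iff.mp hh).2)
  intro w w' hw hw' hh
  refine Prod.ext ?_ hh
  have h1 := congrFun hh ⟨j, Nat.lt_succ_self j⟩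
  unfold pst at h1
  simp only [] at h1 ⊢
  rw [h.line j hj w hw, h.line j hj w' hw', h1]

end

/-! ### The budget -/

section Budget

variable {Ω : Type} [Fintype Ω] {lam γ α : Type}
  {W : Type} [Fintype W] {q : W → ℝ} {P : ℕ → W → Ω × Ω} {μ : Ω × Ω → ℝ} {L : Ω → lam} {K : ℕ}

/-- The record of the first `j` pairs. -/
def rc {S : Type} (P : ℕ → W → Ω × Ω) (X : Ω × Ω → S) (j : ℕ) (w : W) (i : Fin j) : S := X (P i w)

omit [Fintype Ω] in
theorem rc_succ {S T : Type} (h0 : ∀ w, 0 ≤ q w) (X : Ω × Ω → S) (Z : W → T) (j : ℕ) :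
    CH q (rc P X (j + 1)) Z = CH q (rc P X j) Z +
      CH q (fun w => X (P j w)) (fun w => (rc P X j w, Z w)) := by
  have h1 := CH_chain2 h0 (rc P X j) (fun w => X (P j w)) Z
  rw [← h1]
  refine CH_congr h0 ?_ ?_ (fun _ _ _ _ h => h) (fun _ _ _ _ h => h)
  · intro w w' _ _ hh
    have h2 := (Prod.ext_iff.mp hh).1
    simp only [Prod.mk.injEq]
    refine ⟨?_, congrFun h2 (Fin.last j)⟩
    funext i
    exact congrFun h2 i.castSucc
  · intro w w' _ _ hh
    simp only [Prod.mk.injEq] at hh
    funext i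
    refine Fin.lastCases ?_ (fun i => ?_) i
    · exact hh.1.2
    · exact congrFun hh.1.1 i

omit [Fintype Ω] in
theorem rc_le {S T : Type} (h0 : ∀ w, 0 ≤ q w) (X : Ω × Ω → S) (Z : W → T) (j : ℕ) {c : ℝ}
    (hc : ∀ i < j, CH q (fun w => X (P i w)) Z ≤ c) : CH q (rc P X j) Z ≤ j * c := by
  induction j with
  | zero =>
    rw [Nat.cast_zero, zero_mul]
    refine le_of_eq (CH_eq_zero h0 fun w w' _ _ _ => ?_)
    funext i
    exact i.elim0
  | succ j ih =>
    rw [rc_succ h0]
    have h1 := ih fun i hi => hc i (Nat.lt_succ_of_lt hi)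
    have h2 := hc j (Nat.lt_succ_self j)
    have h3 : CH q (fun w => X (P j w)) (fun w => (rc P X j w, Z w)) ≤ CH q (fun w => X (P j w)) Z :=
      CH_mono_cond h0 fun _ _ _ _ hh => (Prod.ext_iff.mp hh).2
    push_cast
    linarith

/-- Lower bound for the record of a chain given the first line. -/
theorem Chain.rc_ge (h : Chain μ L K q P) {S : Type} (X : Ω × Ω → S) {j : ℕ} (hj : j ≤ K + 1) {c : ℝ}
    (hc : c ≤ CH μ X (fun x => L x.1)) : j * c ≤ CH q (rc P X j) (fun w => L (P 0 w).1) := by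
  have h0 := h.isLaw.nonneg
  induction j with
  | zero =>
    rw [Nat.cast_zero, zero_mul]
    exact CH_nonneg h0 _ _
  | succ j ih =>
    rw [rc_succ h0]
    have h1 := ih (by omega)
    have h2 : c ≤ CH q (fun w => X (P j w)) (fun w => (rc P X j w, L (P 0 w).1)) := by
      rcases j with _ | j
      · refine hc.trans ?_
        have h3 := (h.marg 0 (Nat.zero_le _)).CH X (fun x => L x.1)
        rw [← h3]
        refine CH_mono_cond h0 fun w w' _ _ hh => ?_
        simp only [Prod.mk.injEq]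
        refine ⟨?_, hh⟩
        funext i
        exact i.elim0
      · refine hc.trans (h.next (by omega) X _ ?_)
        intro w w' _ _ hh
        simp only [Prod.mk.injEq]
        constructor
        · funext i
          have := congrFun hh i
          unfold pst at this
          unfold rc
          rw [this]
        · have := congrFun hh ⟨0, Nat.succ_pos _⟩
          unfold pst at this
          simp only [] at this
          rw [this]
    push_cast
    linarith

/-- What is constant along the pairs and along the lines is constant along the chain. -/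
theorem Chain.const (h : Chain μ L K q P) (C : lam → γ) (hC : ∀ x, 0 < μ x → C (L x.1) = C (L x.2))
    {j : ℕ} (hj : j ≤ K) {w : W} (hw : 0 < q w) :
    C (L (P j w).1) = C (L (P 0 w).1) ∧ C (L (P j w).2) = C (L (P 0 w).1) := by
  have h0 := h.isLaw.nonneg
  induction j with
  | zero =>
    exact ⟨rfl, (hC _ ((h.marg 0 (Nat.zero_le _)).pos h0 hw)).symm⟩
  | succ j ih =>
    have h1 := ih (by omega)
    have h2 := h.line j (by omega) w hw
    have h3 : C (L (P (j + 1) w).1) = C (L (P 0 w).1) := by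
      rw [h2]
      exact h1.2
    exact ⟨h3, by rw [← hC _ ((h.marg (j + 1) hj).pos h0 hw)]; exact h3⟩

/-- **The budget of the walk**: the times of the hops are full given the first line, all velocities
and the last time. -/
theorem Chain.budget (h : Chain μ L K q P) (hK : 1 ≤ K) (C : lam → γ)
    (hC : ∀ x, 0 < μ x → C (L x.1) = C (L x.2)) (T : Ω → ℤ) (a : Ω → α) {t e₁ e₂ : ℝ}
    (hT : t - e₁ ≤ CH μ (fun x => T x.1) (fun x => L x.1))
    (hT' : CH q (fun w => T (P K w).1)
      (fun w => (L (P 0 w).1, rc P (fun x => a x.2) K w)) ≤ t)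
    (ha : CH μ (fun x => a x.2) (fun x => C (L x.2)) - e₂ ≤ CH μ (fun x => a x.2) (fun x => x.1)) :
    K * t - ((K + 1) * e₁ + K * e₂) ≤
      CH q (rc P (fun x => T x.1) K)
        (fun w => (T (P K w).1, (L (P 0 w).1, rc P (fun x => a x.2) K w))) := by
  have h0 := h.isLaw.nonneg
  have m0 : ∀ x, 0 ≤ μ x := fun x => by
    rw [← h.marg 0 (Nat.zero_le _) x]
    classical
    exact Finset.sum_nonneg fun w _ => by split_ifs; exacts [h0 w, le_rfl]
  obtain ⟨α₁, hα₁⟩ : ∃ x, x = CH μ (fun x => a x.2) (fun x => x.1) := ⟨_, rfl⟩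
  obtain ⟨α₀, hα₀⟩ : ∃ x, x = CH μ (fun x => a x.2) (fun x => C (L x.2)) := ⟨_, rfl⟩
  have h1 : (t - e₁) + α₁ ≤ CH μ (fun x => (T x.1, a x.2)) (fun x => L x.1) := by
    rw [CH_chain2 m0 (fun x : Ω × Ω => T x.1) (fun x => a x.2) (fun x => L x.1), hα₁]
    refine add_le_add hT (CH_mono_cond m0 fun x x' _ _ hh => ?_)
    have h9 : x.1 = x'.1 := hh
    simp only [h9]
  have h2 := h.rc_ge (fun x => (T x.1, a x.2)) (j := K) (Nat.le_succ K) h1
  obtain ⟨RT, hRT⟩ : ∃ R, R = rc P (fun x => T x.1) K := ⟨_, rfl⟩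
  obtain ⟨RA, hRA⟩ : ∃ R, R = rc P (fun x => a x.2) K := ⟨_, rfl⟩
  have h3 : CH q (rc P (fun x => (T x.1, a x.2)) K) (fun w => L (P 0 w).1) =
      CH q RA (fun w => L (P 0 w).1) + CH q RT (fun w => (RA w, L (P 0 w).1)) := by
    rw [← CH_chain h0, hRT, hRA]
    refine CH_congr h0 ?_ ?_ (fun _ _ _ _ hh => hh) (fun _ _ _ _ hh => hh)
    · intro w w' _ _ hh
      have h4 := (Prod.ext_iff.mp hh).1
      refine Prod.ext ?_ ?_
      · funext i
        exact (Prod.ext_iff.mp (congrFun h4 i)).1
      · funext i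
        exact (Prod.ext_iff.mp (congrFun h4 i)).2
    · intro w w' _ _ hh
      have h4 := (Prod.ext_iff.mp hh).1
      have h5 := Prod.ext_iff.mp h4
      funext i
      exact Prod.ext (congrFun h5.1 i) (congrFun h5.2 i)
  have h4 : CH q RA (fun w => L (P 0 w).1) ≤ K * α₀ := by
    rw [hRA]
    refine rc_le h0 _ _ K fun i hi => ?_
    rw [hα₀, ← (h.marg i hi.le).CH (fun x => a x.2) (fun x => C (L x.2))]
    refine CH_mono_cond h0 fun w w' hw hw' hh => ?_
    have h9 : L (P 0 w).1 = L (P 0 w').1 := hh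
    show C (L (P i w).2) = C (L (P i w').2)
    rw [(h.const C hC hi.le hw).2, (h.const C hC hi.le hw').2, h9]
  have h5 : CH μ (fun x => T x.1) (fun x => L x.1) ≤
      CH q (fun w => T (P K w).1) (fun w => (RT w, (L (P 0 w).1, RA w))) := by
    obtain ⟨K', rfl⟩ := Nat.exists_eq_add_of_le' hK
    refine h.next (Nat.lt_succ_self K') (fun x => T x.1) _ ?_
    intro w w' _ _ hh
    have g : ∀ i : Fin (K' + 1), P i w = P i w' := fun i => congrFun hh i
    rw [hRT, hRA]
    simp only [Prod.mk.injEq]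
    refine ⟨?_, ?_, ?_⟩
    · funext i
      unfold rc
      rw [g]
    · have g0 : P 0 w = P 0 w' := g ⟨0, Nat.succ_pos _⟩
      rw [g0]
    · funext i
      unfold rc
      rw [g]
  have h6 : CH q RT (fun w => (RA w, L (P 0 w).1)) = CH q RT (fun w => (L (P 0 w).1, RA w)) := by
    refine CH_congr h0 (fun _ _ _ _ hh => (Prod.ext_iff.mp hh).1)
      (fun _ _ _ _ hh => (Prod.ext_iff.mp hh).1) ?_ ?_ <;>
    · intro w w' _ _ hh
      simp only [Prod.mk.injEq] at hh ⊢
      exact ⟨hh.2, hh.1⟩
  have h7 := CH_chain2 h0 (fun w => T (P K w).1) RT (fun w => (L (P 0 w).1, RA w))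
  have h8 := CH_chain h0 (fun w => T (P K w).1) RT (fun w => (L (P 0 w).1, RA w))
  rw [← hRA] at hT'
  rw [← hRT, ← hRA]
  rw [← hα₁, ← hα₀] at ha
  have hK0 : (0 : ℝ) ≤ K := Nat.cast_nonneg K
  have h9 : (K : ℝ) * α₀ - K * e₂ ≤ K * α₁ := by
    have := mul_le_mul_of_nonneg_left ha hK0
    linarith
  linarith

end Budget

end Pool.D2P
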