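import Pool.Agent.H4.D2.Vnv
import Pool.Agent.H4.D2.Gst

/-!
# Natural heights over the charts and coordinates in the frame

`Pw.mix`: for two points of one natural box, near heights over the charts and near coordinates in
the frame are the same thing. `Gw.hnv`: near digits of the coordinates in the frame are as full as
near digits of the heights.
-/

set_option autoImplicit false

namespace Pool.D2F2

open Finset Real MvPolynomial
open Pool.Agent.H49.Ent Pool.Agent.H32.Dense Pool.STK Pool.KA Pool.KSAT Pool.K2S Pool.PB Pool.GEN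
open Pool.S6C Pool.LA91 Pool.CHT Pool.CHX
open Pool.OWN68 (opl tw uw CH_pair floor_sub_le)
open Pool.D2R (dd hs co)
open Pool.D2F (cv CvC)
open Pool.D2Z (en en_eq en_succ en_zero en_nonneg en_mono)
open Pool.D2H (uw_eq of_floor_mul CH_step CH_pi_le)
open Pool.D2S (Pr Sg NtB yk dst dst_nonneg dst_le)
open Pool.F5 (NatH)

variable {m J : ℕ}

/-- **Two points of one natural box, in a frame.** -/
structure Pw (c : ℕ → Fin m) (g : ℕ → ℕ) (W k r : ℕ)
    (G : ℕ → MvPolynomial (Option (Fin m)) ℝ) (t : ℝ) (ψ : ℕ → Option (Fin m) → ℝ)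
    (x x' : Option (Fin m) → ℝ) : Prop where
  inj : Set.InjOn c (Set.Iio r)
  dep : ∀ l, DepC c l (G l)
  nat : ∀ l < r, NtB c g W G t k l
  t0 : |x none - t| ≤ 1 / 2 ^ W
  t1 : x' none = x none
  px : ∀ l < r, |x (some (c l)) - eval x (G l)| ≤ 1 / 2 ^ g l
  px' : ∀ l < r, |x' (some (c l)) - eval x' (G l)| ≤ 1 / 2 ^ g l
  frm : ∀ l < r, ∀ V : Option (Fin m) → ℝ,
    |cv (ψ l) V - dd (G l) x V| ≤ 2 ^ k / 2 ^ g l * en c g W ψ l V

section

variable {c : ℕ → Fin m} {g : ℕ → ℕ} {W k r : ℕ}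
  {G : ℕ → MvPolynomial (Option (Fin m)) ℝ} {t : ℝ} {ψ : ℕ → Option (Fin m) → ℝ}
  {x x' : Option (Fin m) → ℝ} {Y : ℝ}

theorem Pw.sg (H : Pw c g W k r G t ψ x x') {l : ℕ} (hl : l < r) : Sg c g W k l G t x x' :=
  ⟨H.inj.mono (Set.Iio_subset_Iio hl.le), H.dep, fun i hi => H.nat i (by omega),
    ⟨H.t0, fun i hi => H.px i (by omega)⟩,
    ⟨by rw [H.t1]; exact H.t0, fun i hi => H.px' i (by omega)⟩⟩

/-- **Near heights and near coordinates in the frame.** -/
theorem Pw.mix (H : Pw c g W k r G t ψ x x') (hY : (2 * r + 2) * 2 ^ k ≤ Y) {M : ℝ}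
    (hM : 0 ≤ M)
    (h : ∀ l < r, 2 ^ g l * |(x' - x) (some (c l)) - cv (ψ l) (x' - x)| ≤ M ∨
      2 ^ g l * |(x' (some (c l)) - eval x' (G l)) - (x (some (c l)) - eval x (G l))| ≤ M)
    {l : ℕ} (hl : l ≤ r) :
    en c g W ψ l (x' - x) ≤ Y ^ ((r + 4) * l) * M ∧
    dst c g W G l x x' ≤ Y ^ ((r + 4) * l) * M := by
  obtain ⟨y2, yk1, yr, yr2, yk2, yk3, -⟩ := yk hY
  have hk0 : (0 : ℝ) < 2 ^ k := by positivity
  have e0 : (x' - x) none = 0 := by
    rw [Pi.sub_apply, H.t1, sub_self]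
  induction l with
  | zero =>
    rw [en_zero, e0, abs_zero, mul_zero, mul_zero, pow_zero, one_mul]
    refine ⟨hM, ?_⟩
    unfold dst
    rw [H.t1, sub_self, abs_zero, mul_zero, zero_add, Finset.range_zero, Finset.sum_empty]
    exact hM
  | succ l ih =>
    have hl' : l < r := by omega
    obtain ⟨i1, i2⟩ := ih hl'.le
    obtain ⟨E, hE⟩ : ∃ E : ℝ, E = Y ^ ((r + 4) * l) * M := ⟨_, rfl⟩
    rw [← hE] at i1 i2
    have hY0 : 0 < Y := by linarith
    have hYl : (1 : ℝ) ≤ Y ^ ((r + 4) * l) := one_le_pow₀ (by linarith)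
    have hME : M ≤ E := by
      rw [hE]
      exact le_mul_of_one_le_left hM hYl
    have hE0 : 0 ≤ E := hM.trans hME
    have hg : (0 : ℝ) < 2 ^ g l := by positivity
    have hD0 := dst_nonneg c g W G l x x'
    have hen0 := en_nonneg c g W ψ l (x' - x)
    -- the distance is natural
    have hD2 : dst c g W G l x x' ≤ r * 2 := by
      have h1 := dst_le (c := c) (g := g) (a := W) (G := G) (r := l) (x := x) (x' := x') (U := 1)
        H.t1 (fun j hj => H.px j (by omega)) (fun j hj => H.px' j (by omega))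
      rw [mul_one] at h1
      have h2 : (l : ℝ) ≤ r := by exact_mod_cast hl'.le
      linarith
    -- the second order
    have h3 := (H.sg hl').main.2.2 l le_rfl
    have h1 : 1 + 2 ^ k * dst c g W G l x x' ≤ Y := by
      have := mul_le_mul_of_nonneg_left hD2 hk0.le
      linarith
    have h2 : (1 + 2 ^ k * dst c g W G l x x') ^ l ≤ Y ^ r :=
      (pow_le_pow_left₀ (by positivity) h1 l).trans
        (pow_le_pow_right₀ (by linarith) hl'.le)
    have h4 : 2 ^ g l * |eval x' (G l) - eval x (G l) - dd (G l) x (x' - x)| ≤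
        Y ^ (r + 2) * E := by
      refine (mul_le_mul_of_nonneg_left h3 hg.le).trans ?_
      have e1 : (2 : ℝ) ^ g l * (2 ^ k / 2 ^ g l * dst c g W G l x x' *
          ((1 + 2 ^ k * dst c g W G l x x') ^ l * dst c g W G l x x')) =
          2 ^ k * dst c g W G l x x' *
          ((1 + 2 ^ k * dst c g W G l x x') ^ l * dst c g W G l x x') := by
        field_simp
      have e2 : Y ^ (r + 2) * E = Y * Y * (Y ^ r * E) := by
        rw [pow_add]
        ring
      rw [e1, e2]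
      exact mul_le_mul (mul_le_mul yk1 (hD2.trans yr2) hD0 hY0.le)
        (mul_le_mul h2 i2 hD0 (by positivity)) (by positivity) (by positivity)
    have h5 : 2 ^ g l * |cv (ψ l) (x' - x) - dd (G l) x (x' - x)| ≤ Y * E := by
      refine (mul_le_mul_of_nonneg_left (H.frm l hl' (x' - x)) hg.le).trans ?_
      have e1 : (2 : ℝ) ^ g l * (2 ^ k / 2 ^ g l * en c g W ψ l (x' - x)) =
          2 ^ k * en c g W ψ l (x' - x) := by
        field_simp
      rw [e1]
      exact mul_le_mul yk1 i1 hen0 hY0.le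
    -- the two
    obtain ⟨a, ha⟩ : ∃ a : ℝ, a = (x' - x) (some (c l)) := ⟨_, rfl⟩
    have hh : (x' (some (c l)) - eval x' (G l)) - (x (some (c l)) - eval x (G l)) =
        a - (eval x' (G l) - eval x (G l)) := by
      rw [ha, Pi.sub_apply]
      ring
    have h6 := h l hl'
    rw [hh, ← ha] at h6
    obtain ⟨v, hv⟩ : ∃ v : ℝ, v = 2 ^ g l * |a - cv (ψ l) (x' - x)| := ⟨_, rfl⟩
    obtain ⟨z, hz⟩ : ∃ z : ℝ, z = 2 ^ g l * |a - (eval x' (G l) - eval x (G l))| := ⟨_, rfl⟩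
    have hvz : |v - z| ≤ Y ^ (r + 2) * E + Y * E := by
      have h7 : |v - z| ≤ 2 ^ g l * |cv (ψ l) (x' - x) - (eval x' (G l) - eval x (G l))| := by
        rw [hv, hz, ← mul_sub, abs_mul, abs_of_pos hg]
        refine mul_le_mul_of_nonneg_left ?_ hg.le
        refine (abs_abs_sub_abs_le_abs_sub _ _).trans (le_of_eq ?_)
        rw [abs_sub_comm]
        congr 1
        ring
      refine h7.trans ?_
      have e1 : cv (ψ l) (x' - x) - (eval x' (G l) - eval x (G l)) =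
          (cv (ψ l) (x' - x) - dd (G l) x (x' - x)) -
          (eval x' (G l) - eval x (G l) - dd (G l) x (x' - x)) := by ring
      rw [e1]
      have h8 := mul_le_mul_of_nonneg_left (abs_sub (cv (ψ l) (x' - x) - dd (G l) x (x' - x))
        (eval x' (G l) - eval x (G l) - dd (G l) x (x' - x))) hg.le
      rw [mul_add] at h8
      linarith
    rw [← hv, ← hz] at h6
    have hvb : v ≤ M + (Y ^ (r + 2) * E + Y * E) ∧ z ≤ M + (Y ^ (r + 2) * E + Y * E) := by
      rw [abs_le] at hvz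
      have hpos : 0 ≤ Y ^ (r + 2) * E + Y * E := by positivity
      rcases h6 with h9 | h9
      · exact ⟨by linarith, by linarith [hvz.1]⟩
      · exact ⟨by linarith [hvz.2], by linarith⟩
    have hfin : E + (M + (Y ^ (r + 2) * E + Y * E)) ≤ Y ^ ((r + 4) * (l + 1)) * M := by
      have f1 : Y ^ ((r + 4) * (l + 1)) * M = Y ^ (r + 4) * E := by
        rw [hE, mul_add, mul_one, pow_add]
        ring
      rw [f1]
      have f2 : Y ^ (r + 4) = Y * Y * Y ^ (r + 2) := by ring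
      have f3 : 4 ≤ Y * Y := by nlinarith
      have f4 : Y * Y ≤ Y ^ (r + 2) := by
        have : Y * Y = Y ^ 2 := by ring
        rw [this]
        exact pow_le_pow_right₀ (by linarith) (by omega)
      have f5 : 4 * Y ^ (r + 2) ≤ Y ^ (r + 4) := by
        rw [f2]
        exact mul_le_mul_of_nonneg_right f3 (by positivity)
      have f6 : 2 + Y ≤ 2 * Y ^ (r + 2) := by nlinarith
      have f7 : (1 + 1 + Y ^ (r + 2) + Y) ≤ Y ^ (r + 4) := by linarith
      have f8 := mul_le_mul_of_nonneg_right f7 hE0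
      linarith
    refine ⟨?_, ?_⟩
    · rw [en_succ, ← ha, ← hv]
      linarith [hvb.1]
    · have f9 : dst c g W G (l + 1) x x' = dst c g W G l x x' + z := by
        unfold dst
        rw [Finset.sum_range_succ, hh, ← hz, add_assoc]
      rw [f9]
      linarith [hvb.2]

end

/-- **A natural box with its charts**, and a frame. -/
structure Gw (F : Fam m J) (c : ℕ → Fin m) (g : ℕ → ℕ) (W k r : ℕ)
    (ψH : LnT F → ℕ → Option (Fin m) → ℝ) (G : PtT F → ℕ → MvPolynomial (Option (Fin m)) ℝ)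
    (B : F.Ω → Prop) : Prop where
  inj : Set.InjOn c (Set.Iio r)
  depG : ∀ y l, DepC c l (G y l)
  pos : ∀ ω, B ω → ∀ l < r, |F.x ω (c l) - eval (bt F ω) (G (ptr F J ω) l)| ≤ 1 / 2 ^ g l
  nat : ∀ l < r, NatH F c W g B G k l
  frm : ∀ ω, B ω → ∀ l < r, ∀ V : Option (Fin m) → ℝ,
    |cv (ψH (slam F W ω) l) V - dd (G (ptr F J ω) l) (bt F ω) V| ≤
      2 ^ k / 2 ^ g l * en c g W (ψH (slam F W ω)) l V

/-- The height over the chart. -/
noncomputable def hgc (F : Fam m J) (c : ℕ → Fin m)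
    (G : PtT F → ℕ → MvPolynomial (Option (Fin m)) ℝ) (l : ℕ) (ω : F.Ω) : ℝ :=
  F.x ω (c l) - eval (bt F ω) (G (ptr F J ω) l)

section

variable {F : Fam m J} {c : ℕ → Fin m} {g : ℕ → ℕ} {W k r D : ℕ}
    {ψH : LnT F → ℕ → Option (Fin m) → ℝ} {G : PtT F → ℕ → MvPolynomial (Option (Fin m)) ℝ}
    {B : F.Ω → Prop}

/-- The two points. -/
theorem Gw.pw (H : Gw F c g W k r ψH G B) {ω ω' : F.Ω} (hω : B ω)
    (hω' : B ω') (hT : F.T ω = F.T ω') (hG : ∀ l < r, G (ptr F J ω) l = G (ptr F J ω') l) :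
    Pw c g W k r (G (ptr F J ω)) (F.t ω) (ψH (slam F W ω)) (bt F ω) (bt F ω') := by
  have ht : F.t ω' = F.t ω := by
    unfold Fam.t
    rw [hT]
  have e0 : ∀ ν : F.Ω, bt F ν none = F.t ν := fun _ => rfl
  refine ⟨H.inj, H.depG _, fun l hl => H.nat l hl ω hω, ?_, ?_, H.pos ω hω, fun l hl => ?_,
    H.frm ω hω⟩
  · rw [e0, sub_self, abs_zero]
    positivity
  · rw [e0, e0, ht]
  · rw [hG l hl]
    exact H.pos ω' hω' l hl

/-- The heights and the coordinates in the frame of two samples. -/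
theorem Gw.mix (H : Gw F c g W k r ψH G B) {d : Dat F (ℕ → Option (Fin m) → ℝ) r D}
    (hdv : ∀ l < r, ∀ ω ω', F.T ω = F.T ω' → ψH (slam F W ω) = ψH (slam F W ω') →
      d.v W l ω' - d.v W l ω = (bt F ω' - bt F ω) (some (c l)) -
        cv (ψH (slam F W ω) l) (bt F ω' - bt F ω))
    {Y : ℝ} (hY : (2 * r + 2) * 2 ^ k ≤ Y) {ω ω' : F.Ω} (hω : B ω) (hω' : B ω')
    (hT : F.T ω = F.T ω') (hψ : ψH (slam F W ω) = ψH (slam F W ω'))
    (hG : ∀ l < r, G (ptr F J ω) l = G (ptr F J ω') l) {M : ℝ} (hM : 0 ≤ M)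
    (h : ∀ l < r, 2 ^ g l * |d.v W l ω' - d.v W l ω| ≤ M ∨
      2 ^ g l * |hgc F c G l ω' - hgc F c G l ω| ≤ M) :
    ∀ l < r, 2 ^ g l * |d.v W l ω' - d.v W l ω| ≤ Y ^ ((r + 4) * r) * M ∧
      2 ^ g l * |hgc F c G l ω' - hgc F c G l ω| ≤ Y ^ ((r + 4) * r) * M := by
  have hp := H.pw hω hω' hT hG
  obtain ⟨y2, -⟩ := yk hY
  have hh : ∀ l < r, hgc F c G l ω' - hgc F c G l ω =
      ((bt F ω') (some (c l)) - eval (bt F ω') (G (ptr F J ω) l)) -
        ((bt F ω) (some (c l)) - eval (bt F ω) (G (ptr F J ω) l)) := by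
    intro l hl
    unfold hgc
    rw [← hG l hl]
    rfl
  intro l hl
  obtain ⟨m1, m2⟩ := hp.mix hY hM (fun j hj => by
    rw [← hdv j hj ω ω' hT hψ, ← hh j hj]
    exact h j hj) (l := l + 1) hl
  have hY1 : Y ^ ((r + 4) * (l + 1)) ≤ Y ^ ((r + 4) * r) :=
    pow_le_pow_right₀ (by linarith) (Nat.mul_le_mul_left _ hl)
  have hY2 := mul_le_mul_of_nonneg_right hY1 hM
  have hen0 := en_nonneg c g W (ψH (slam F W ω)) l (bt F ω' - bt F ω)
  have hD0 := dst_nonneg c g W (G (ptr F J ω)) l (bt F ω) (bt F ω')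
  refine ⟨?_, ?_⟩
  · rw [hdv l hl ω ω' hT hψ]
    rw [en_succ] at m1
    linarith
  · rw [hh l hl]
    unfold dst at m2 hD0
    rw [Finset.sum_range_succ] at m2
    linarith

/-- **Near digits of the coordinates in the frame are as full as near digits of the heights.** -/
theorem Gw.hnv (H : Gw F c g W k r ψH G B) {d : Dat F (ℕ → Option (Fin m) → ℝ) r D}
    (hdv : ∀ l < r, ∀ ω ω', F.T ω = F.T ω' → ψH (slam F W ω) = ψH (slam F W ω') →
      d.v W l ω' - d.v W l ω = (bt F ω' - bt F ω) (some (c l)) -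
        cv (ψH (slam F W ω) l) (bt F ω' - bt F ω))
    {p : F.Ω → ℝ} (hp : IsLaw p) (hpB : ∀ ω, 0 < p ω → B ω) {k₀ q q' K : ℕ}
    (hk : k₀ ≤ r) (hqq : q ≤ q') {γ : Type} {Y : F.Ω → γ}
    (hY : ∀ ω ω', 0 < p ω → 0 < p ω' → Y ω = Y ω' → F.T ω = F.T ω' ∧
      ψH (slam F W ω) = ψH (slam F W ω') ∧ (∀ l < r, G (ptr F J ω) l = G (ptr F J ω') l) ∧
      (∀ l < k₀, 2 ^ (g l + q') * |d.v W l ω' - d.v W l ω| ≤ K) ∧
      ∀ l, k₀ ≤ l → l < r → 2 ^ (g l + q) * |hgc F c G l ω' - hgc F c G l ω| ≤ K)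
    {β : ℕ → ℝ} (hβ : ∀ l, k₀ ≤ l → l < r → 0 ≤ β l ∧ β l ≤ K * 2 ^ (g l + q')) {L : ℕ}
    (hL : K + K * (((2 * r + 2) * 2 ^ k) ^ ((r + 4) * r) * (K + 1)) +
      ((2 * r + 2) * 2 ^ k) ^ ((r + 4) * r) * (K + 1) + 1 ≤ L) :
    CH p (fun ω (l : Fin (r - k₀)) => ⌊β (k₀ + l) * hgc F c G (k₀ + l) ω⌋) Y ≤
      CH p (fun ω (l : Fin (r - k₀)) => Nfd d W (fun l => g l + q') (fun l => g l + q)
        (k₀ + l) ω) Y + 2 * (r * Real.log (2 * (L : ℕ) + 1)) := by
  have h0 := hp.nonneg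
  obtain ⟨C, hC⟩ : ∃ C : ℕ, C = ((2 * r + 2) * 2 ^ k) ^ ((r + 4) * r) := ⟨_, rfl⟩
  have hCr : (((2 * (r : ℝ) + 2) * 2 ^ k) ^ ((r + 4) * r)) = C := by
    rw [hC]
    push_cast
    rfl
  rw [← hC] at hL
  have hK0 : (0 : ℝ) ≤ K := Nat.cast_nonneg K
  have hC0 : (0 : ℝ) ≤ C := Nat.cast_nonneg C
  have hLr : (K : ℝ) + K * (C * (K + 1)) + C * (K + 1) + 1 ≤ L := by exact_mod_cast hL
  have hlog : ∀ x : ℕ, x ≤ L → Real.log (2 * (x : ℕ) + 1) ≤ Real.log (2 * (L : ℕ) + 1) := by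
    intro x hx
    refine Real.log_le_log (by positivity) ?_
    have : (x : ℝ) ≤ L := by exact_mod_cast hx
    linarith
  have hlog0 : 0 ≤ Real.log (2 * (L : ℕ) + 1) := Real.log_nonneg (by
    have : (0 : ℝ) ≤ L := Nat.cast_nonneg L
    linarith)
  have hrk : ((r - k₀ : ℕ) : ℝ) ≤ r := by exact_mod_cast Nat.sub_le r k₀
  -- the first step: the positions in the frame
  have s1 : CH p (fun ω (l : Fin (r - k₀)) => ⌊(2 : ℝ) ^ (g (k₀ + l) + q') * d.v W (k₀ + l) ω⌋)
      (fun ω => ((fun l : Fin (r - k₀) => Nfd d W (fun l => g l + q') (fun l => g l + q)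
        (k₀ + l) ω), Y ω)) ≤ r * Real.log (2 * (L : ℕ) + 1) := by
    have a1 := CH_pi_le h0 (fun ω (l : Fin (r - k₀)) =>
      ⌊(2 : ℝ) ^ (g (k₀ + l) + q') * d.v W (k₀ + l) ω⌋)
      (fun ω => ((fun l : Fin (r - k₀) => Nfd d W (fun l => g l + q') (fun l => g l + q)
        (k₀ + l) ω), Y ω)) (B := Real.log (2 * (L : ℕ) + 1)) fun l => ?_
    · refine a1.trans ?_
      rw [Fintype.card_fin]
      exact mul_le_mul_of_nonneg_right hrk hlog0
    · refine (mod_few hp (fun ω => d.v W (k₀ + l) ω) _ (u := g (k₀ + l) + q')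
        (v := g (k₀ + l) + q) (K := C * (K + 1)) (by omega) fun ω ω' hω hω' e => ?_).trans
        (hlog _ (by
          have : C * (K + 1) + 1 ≤ K + K * (C * (K + 1)) + C * (K + 1) + 1 := by omega
          omega))
      obtain ⟨e1, e2⟩ := Prod.ext_iff.1 e
      dsimp only at e1 e2
      obtain ⟨f1, f2, f3, f4, f5⟩ := hY ω ω' hω hω' e2
      refine ⟨congrFun e1 l, ?_⟩
      have hl : k₀ + (l : ℕ) < r := by omega
      obtain ⟨b1, -⟩ := H.mix hdv (le_of_eq rfl) (hpB ω hω) (hpB ω' hω') f1 f2 f3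
        (M := (K + 1) / 2 ^ q) (by positivity) (fun j hj => by
          rcases Nat.lt_or_ge j k₀ with h1 | h1
          · left
            have h2 := f4 j h1
            rw [le_div_iff₀ (by positivity)]
            have h3 : (2 : ℝ) ^ g j * |d.v W j ω' - d.v W j ω| * 2 ^ q ≤
                2 ^ (g j + q') * |d.v W j ω' - d.v W j ω| := by
              have h4 : (2 : ℝ) ^ (g j + q) ≤ 2 ^ (g j + q') :=
                pow_le_pow_right₀ (by norm_num) (by omega)
              have h5 := mul_le_mul_of_nonneg_right h4 (abs_nonneg (d.v W j ω' - d.v W j ω))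
              rw [pow_add] at h5
              linarith
            linarith
          · right
            have h2 := f5 j h1 hj
            rw [le_div_iff₀ (by positivity)]
            rw [pow_add] at h2
            linarith) (k₀ + l) hl
      rw [hCr] at b1
      rw [← mul_sub, abs_mul, abs_of_pos (by positivity : (0 : ℝ) < 2 ^ (g (k₀ + l) + q)),
        abs_sub_comm, pow_add]
      have b2 := mul_le_mul_of_nonneg_right b1 (by positivity : (0 : ℝ) ≤ 2 ^ q)
      have b3 : (C : ℝ) * ((K + 1) / 2 ^ q) * 2 ^ q = C * (K + 1) := by field_simp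
      rw [b3] at b2
      push_cast
      linarith
  -- the second step: the heights
  have s2 : CH p (fun ω (l : Fin (r - k₀)) => ⌊β (k₀ + l) * hgc F c G (k₀ + l) ω⌋)
      (fun ω => ((fun l : Fin (r - k₀) =>
        ⌊(2 : ℝ) ^ (g (k₀ + l) + q') * d.v W (k₀ + l) ω⌋),
        ((fun l : Fin (r - k₀) => Nfd d W (fun l => g l + q') (fun l => g l + q)
        (k₀ + l) ω), Y ω))) ≤ r * Real.log (2 * (L : ℕ) + 1) := by
    have a1 := CH_pi_le h0 (fun ω (l : Fin (r - k₀)) => ⌊β (k₀ + l) * hgc F c G (k₀ + l) ω⌋)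
      (fun ω => ((fun l : Fin (r - k₀) =>
        ⌊(2 : ℝ) ^ (g (k₀ + l) + q') * d.v W (k₀ + l) ω⌋),
        ((fun l : Fin (r - k₀) => Nfd d W (fun l => g l + q') (fun l => g l + q)
        (k₀ + l) ω), Y ω))) (B := Real.log (2 * (L : ℕ) + 1)) fun l => ?_
    · refine a1.trans ?_
      rw [Fintype.card_fin]
      exact mul_le_mul_of_nonneg_right hrk hlog0
    · refine (CH_pair hp _ _ (D := K * (C * (K + 1)) + 1) fun ω ω' hω hω' e => ?_).trans
        (hlog _ (by
          have : K * (C * (K + 1)) + 1 ≤ K + K * (C * (K + 1)) + C * (K + 1) + 1 := by omega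
          omega))
      simp only [Prod.mk.injEq] at e
      obtain ⟨e1, -, e2⟩ := e
      obtain ⟨f1, f2, f3, f4, -⟩ := hY ω ω' hω hω' e2
      have hl : k₀ + (l : ℕ) < r := by omega
      obtain ⟨-, b1⟩ := H.mix hdv (le_of_eq rfl) (hpB ω hω) (hpB ω' hω') f1 f2 f3
        (M := (K + 1) / 2 ^ q') (by positivity) (fun j hj => by
          left
          rw [le_div_iff₀ (by positivity)]
          rcases Nat.lt_or_ge j k₀ with h1 | h1
          · have h2 := f4 j h1
            rw [pow_add] at h2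
            linarith
          · have h2 := of_floor_mul (by positivity : (0 : ℝ) < 2 ^ (g (k₀ + (j - k₀)) + q'))
              (congrFun e1 ⟨j - k₀, by omega⟩)
            rw [Nat.add_sub_cancel' h1, abs_sub_comm, le_div_iff₀ (by positivity)] at h2
            rw [pow_add] at h2
            linarith) (k₀ + l) hl
      rw [hCr] at b1
      obtain ⟨β0, β1⟩ := hβ (k₀ + l) (by omega) hl
      have b2 : |β (k₀ + l) * hgc F c G (k₀ + l) ω - β (k₀ + l) * hgc F c G (k₀ + l) ω'| ≤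
          ((K * (C * (K + 1)) : ℕ) : ℝ) := by
        rw [← mul_sub, abs_mul, abs_of_nonneg β0, abs_sub_comm]
        refine (mul_le_mul_of_nonneg_right β1 (abs_nonneg _)).trans ?_
        rw [pow_add]
        have b3 := mul_le_mul_of_nonneg_right b1 (by positivity : (0 : ℝ) ≤ 2 ^ q')
        have b4 : (C : ℝ) * ((K + 1) / 2 ^ q') * 2 ^ q' = C * (K + 1) := by field_simp
        rw [b4] at b3
        have b5 := mul_le_mul_of_nonneg_left b3 hK0
        push_cast
        linarith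
      exact floor_sub_le b2
  -- the chain
  have t1 := CH_step h0 (fun ω (l : Fin (r - k₀)) => ⌊β (k₀ + l) * hgc F c G (k₀ + l) ω⌋)
    (fun ω (l : Fin (r - k₀)) => Nfd d W (fun l => g l + q') (fun l => g l + q) (k₀ + l) ω) Y
  have t2 := CH_step h0 (fun ω (l : Fin (r - k₀)) => ⌊β (k₀ + l) * hgc F c G (k₀ + l) ω⌋)
    (fun ω (l : Fin (r - k₀)) => ⌊(2 : ℝ) ^ (g (k₀ + l) + q') * d.v W (k₀ + l) ω⌋)
    (fun ω => ((fun l : Fin (r - k₀) => Nfd d W (fun l => g l + q') (fun l => g l + q)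
        (k₀ + l) ω), Y ω))
  linarith

end

end Pool.D2F2
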