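import Pool.Agent.H4.D2.Dic

/-!
# The height of the target over its chart and its coordinate in the frame

`Pw.dif`: the difference of the two for two points whose first coordinates are near. `Gw.dif`: the
same for two samples.
-/

set_option autoImplicit false

namespace Pool.D2F2

open Finset Real MvPolynomial
open Pool.Agent.H49.Ent Pool.Agent.H32.Dense Pool.STK Pool.KA Pool.KSAT Pool.K2S Pool.PB Pool.GEN
open Pool.S6C Pool.LA91 Pool.CHT Pool.CHX
open Pool.D2R (dd hs co)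
open Pool.D2F (cv CvC)
open Pool.D2Z (en en_eq en_succ en_zero en_nonneg en_mono)
open Pool.D2S (Pr Sg NtB yk dst dst_nonneg dst_le)
open Pool.F5 (NatH)

variable {m J : ℕ}

section

variable {c : ℕ → Fin m} {g : ℕ → ℕ} {W k r : ℕ}
  {G : ℕ → MvPolynomial (Option (Fin m)) ℝ} {t : ℝ} {ψ : ℕ → Option (Fin m) → ℝ}
  {x x' : Option (Fin m) → ℝ} {Y : ℝ}

theorem Pw.le (H : Pw c g W k r G t ψ x x') {l : ℕ} (hl : l ≤ r) : Pw c g W k l G t ψ x x' :=
  ⟨H.inj.mono (Set.Iio_subset_Iio hl), H.dep, fun i hi => H.nat i (by omega), H.t0, H.t1,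
    fun i hi => H.px i (by omega), fun i hi => H.px' i (by omega), fun i hi => H.frm i (by omega)⟩

/-- **The chart and the frame** for near first coordinates. -/
theorem Pw.dif (H : Pw c g W k r G t ψ x x') (hY : (2 * r + 2) * 2 ^ k ≤ Y) {M : ℝ}
    (hM : 0 ≤ M) {l : ℕ} (hl : l < r)
    (h : ∀ j < l, 2 ^ g j * |(x' - x) (some (c j)) - cv (ψ j) (x' - x)| ≤ M ∨
      2 ^ g j * |(x' (some (c j)) - eval x' (G j)) - (x (some (c j)) - eval x (G j))| ≤ M) :
    2 ^ g l * |cv (ψ l) (x' - x) - (eval x' (G l) - eval x (G l))| ≤ Y ^ ((r + 4) * r) * M := by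
  obtain ⟨y2, yk1, yr, yr2, yk2, yk3, -⟩ := yk hY
  have hk0 : (0 : ℝ) < 2 ^ k := by positivity
  have hlr : (l : ℝ) ≤ r := by exact_mod_cast hl.le
  obtain ⟨i1, i2⟩ := (H.le hl.le).mix (Y := Y) (le_trans (mul_le_mul_of_nonneg_right
    (by linarith) hk0.le) hY) hM h (l := l) le_rfl
  obtain ⟨E, hE⟩ : ∃ E : ℝ, E = Y ^ ((l + 4) * l) * M := ⟨_, rfl⟩
  rw [← hE] at i1 i2
  have hY0 : 0 < Y := by linarith
  have hE0 : 0 ≤ E := by
    rw [hE]
    positivity
  have hg : (0 : ℝ) < 2 ^ g l := by positivity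
  have hD0 := dst_nonneg c g W G l x x'
  have hen0 := en_nonneg c g W ψ l (x' - x)
  have hD2 : dst c g W G l x x' ≤ r * 2 := by
    have h1 := dst_le (c := c) (g := g) (a := W) (G := G) (r := l) (x := x) (x' := x') (U := 1)
      H.t1 (fun j hj => H.px j (by omega)) (fun j hj => H.px' j (by omega))
    rw [mul_one] at h1
    linarith
  have h3 := (H.sg hl).main.2.2 l le_rfl
  have h1 : 1 + 2 ^ k * dst c g W G l x x' ≤ Y := by
    have := mul_le_mul_of_nonneg_left hD2 hk0.le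
    linarith
  have h2 : (1 + 2 ^ k * dst c g W G l x x') ^ l ≤ Y ^ r :=
    (pow_le_pow_left₀ (by positivity) h1 l).trans (pow_le_pow_right₀ (by linarith) hl.le)
  have h4 : 2 ^ g l * |eval x' (G l) - eval x (G l) - dd (G l) x (x' - x)| ≤
      Y ^ (r + 2) * E := by
    refine (mul_le_mul_of_nonneg_left h3 hg.le).trans ?_
    have e1 : (2 : ℝ) ^ g l * (2 ^ k / 2 ^ g l * dst c g W G l x x' *
        ((1 + 2 ^ k * dst c g W G l x x') ^ l * dst c g W G l x x')) =
        2 ^ k * dst c g W G l x x' *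
        ((1 + 2 ^ k * dst c g W G l x x') ^ l * dst c g W G l x x') := by
      field_simp
    have e2 : Y ^ (r + 2) * E = Y * Y * (Y ^ r * E) := by
      rw [pow_add]
      ring
    rw [e1, e2]
    exact mul_le_mul (mul_le_mul yk1 (hD2.trans yr2) hD0 hY0.le)
      (mul_le_mul h2 i2 hD0 (by positivity)) (by positivity) (by positivity)
  have h5 : 2 ^ g l * |cv (ψ l) (x' - x) - dd (G l) x (x' - x)| ≤ Y * E := by
    refine (mul_le_mul_of_nonneg_left (H.frm l hl (x' - x)) hg.le).trans ?_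
    have e1 : (2 : ℝ) ^ g l * (2 ^ k / 2 ^ g l * en c g W ψ l (x' - x)) =
        2 ^ k * en c g W ψ l (x' - x) := by
      field_simp
    rw [e1]
    exact mul_le_mul yk1 i1 hen0 hY0.le
  have e1 : cv (ψ l) (x' - x) - (eval x' (G l) - eval x (G l)) =
      (cv (ψ l) (x' - x) - dd (G l) x (x' - x)) -
      (eval x' (G l) - eval x (G l) - dd (G l) x (x' - x)) := by ring
  rw [e1]
  refine (mul_le_mul_of_nonneg_left (abs_sub _ _) hg.le).trans ?_
  rw [mul_add]
  have f1 : Y ^ (r + 2) * E + Y * E ≤ Y ^ (r + 3) * E := by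
    have f2 : Y ^ (r + 3) = Y * Y ^ (r + 2) := by ring
    have f3 : Y ≤ Y ^ (r + 2) := le_self_pow₀ (by linarith) (by omega)
    have f4 : Y ^ (r + 2) + Y ≤ Y ^ (r + 3) := by
      rw [f2]
      nlinarith
    rw [← add_mul]
    exact mul_le_mul_of_nonneg_right f4 hE0
  have f5 : Y ^ (r + 3) * E ≤ Y ^ ((r + 4) * r) * M := by
    rw [hE, ← mul_assoc, ← pow_add]
    refine mul_le_mul_of_nonneg_right (pow_le_pow_right₀ (by linarith) ?_) hM
    nlinarith
  linarith

end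

section

variable {F : Fam m J} {c : ℕ → Fin m} {g : ℕ → ℕ} {W k r D : ℕ}
    {ψH : LnT F → ℕ → Option (Fin m) → ℝ} {G : PtT F → ℕ → MvPolynomial (Option (Fin m)) ℝ}
    {B : F.Ω → Prop}

/-- **The height of the target over its chart and its coordinate in the frame**, of two samples
whose first coordinates are near. -/
theorem Gw.dif (H : Gw F c g W k (r + 1) ψH G B) {d : Dat F (ℕ → Option (Fin m) → ℝ) r D}
    (hdv : ∀ l ≤ r, ∀ ω ω', F.T ω = F.T ω' → ψH (slam F W ω) = ψH (slam F W ω') →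
      d.v W l ω' - d.v W l ω = (bt F ω' - bt F ω) (some (c l)) -
        cv (ψH (slam F W ω) l) (bt F ω' - bt F ω))
    {Y : ℝ} (hY : (2 * (r + 1 : ℕ) + 2) * 2 ^ k ≤ Y) {ω ω' : F.Ω} (hω : B ω) (hω' : B ω')
    (hT : F.T ω = F.T ω') (hψ : ψH (slam F W ω) = ψH (slam F W ω'))
    (hG : ∀ l ≤ r, G (ptr F J ω) l = G (ptr F J ω') l) {M : ℝ} (hM : 0 ≤ M)
    (h : ∀ l < r, 2 ^ g l * |d.v W l ω' - d.v W l ω| ≤ M ∨
      2 ^ g l * |hgc F c G l ω' - hgc F c G l ω| ≤ M) :
    2 ^ g r * |(hgc F c G r ω' - hgc F c G r ω) - (d.v W r ω' - d.v W r ω)| ≤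
      Y ^ ((r + 5) * (r + 1)) * M := by
  have hp := H.pw hω hω' hT fun l hl => hG l (by omega)
  have hh : ∀ l ≤ r, hgc F c G l ω' - hgc F c G l ω =
      ((bt F ω') (some (c l)) - eval (bt F ω') (G (ptr F J ω) l)) -
        ((bt F ω) (some (c l)) - eval (bt F ω) (G (ptr F J ω) l)) := by
    intro l hl
    unfold hgc
    rw [← hG l hl]
    rfl
  have h1 := hp.dif hY hM (l := r) (Nat.lt_succ_self r) fun j hj => by
    rw [← hdv j hj.le ω ω' hT hψ, ← hh j hj.le]
    exact h j hj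
  have e1 : (hgc F c G r ω' - hgc F c G r ω) - (d.v W r ω' - d.v W r ω) =
      cv (ψH (slam F W ω) r) (bt F ω' - bt F ω) -
        (eval (bt F ω') (G (ptr F J ω) r) - eval (bt F ω) (G (ptr F J ω) r)) := by
    rw [hh r le_rfl, hdv r le_rfl ω ω' hT hψ, Pi.sub_apply]
    ring
  rw [e1]
  exact h1

end

end Pool.D2F2
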