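import Pool.Agent.H4.D2.Nvs
import Pool.Agent.H17.COR.Cnr
import Pool.Agent.H83.REC.Exi
import Pool.Agent.H1.GEN.Clx
import Pool.Agent.H72.KE.Acf

/-!
# The near digits of a pair: one subclass for almost all windows

`PtV`: the conditions at a window: the labels of the pair have the same slope larger than one.
`nv_cls`: in one subclass `NvAt` holds at almost all windows with `PtV` (after 62's `cor_cls`).
-/

set_option autoImplicit false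

namespace Pool.D2F2

open Finset Real MvPolynomial Filter Topology MeasureTheory
open Pool.Agent.H49.Ent Pool.Agent.H32.Dense Pool.STK Pool.KA Pool.KSAT Pool.K2S Pool.PB Pool.S6C
  Pool.GEN Pool.RCD Pool.LA91 Pool.MIC6 Pool.REX Pool.REX83 Pool.OWN72 Pool.OWN43 Pool.OWN17

variable {m : ℕ}

theorem bas_leS {S S' : PCl m} (h : S'.Le S) {Φ : Stat m} (hb : Bas S Φ) : Bas S' Φ := by
  obtain ⟨τ₀, hτ₀, h⟩ := h
  obtain ⟨τ, hτ, J₁, hb⟩ := hb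
  exact ⟨min τ τ₀, lt_min hτ hτ₀, J₁, fun J hJ F A hA => hb J hJ F A
    (S.mono (min_le_left _ _) (h _ (lt_min hτ hτ₀) (min_le_right _ _) J F A hA))⟩

/-- **The diagonal**: countably many properties of classes, which hold in smaller classes. -/
theorem diag_subS {S : PCl m} (hS : S.Ne) {ι : Type} [Countable ι] (Q : ι → PCl m → Prop)
    (down : ∀ (i : ι) (S₁ S₂ : PCl m), S₂.Le S₁ → Q i S₁ → Q i S₂)
    (ex : ∀ (i : ι) (S₁ : PCl m), S₁.Ne →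
      (∀ (τ : ℝ) (J : ℕ) (F : Fam m J) (A : F.Ω → Prop), S₁.St τ J F A → S.St τ J F A) →
      ∃ S₂ : PCl m, S₂.Ne ∧
        (∀ (τ : ℝ) (J : ℕ) (F : Fam m J) (A : F.Ω → Prop), S₂.St τ J F A → S₁.St τ J F A) ∧
        Q i S₂) :
    ∃ S' : PCl m, S'.Ne ∧
      (∀ (τ : ℝ) (J : ℕ) (F : Fam m J) (A : F.Ω → Prop), S'.St τ J F A → S.St τ J F A) ∧
      ∀ i, Q i S' := by
  refine diag_all hS Q down fun i S₁ hle hne => ?_
  obtain ⟨τ₀, hτ₀, hl⟩ := hle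
  obtain ⟨P₁, hP₁⟩ : ∃ P₁ : Sld m, P₁ = ⟨S.St, S.mono, S.res⟩ := ⟨_, rfl⟩
  have hne1 : (S₁.sl P₁).Ne := by
    intro τ hτ J₁
    obtain ⟨J, hJ, F, A, hA⟩ := hne (min τ τ₀) (lt_min hτ hτ₀) J₁
    refine ⟨J, hJ, F, A, S₁.mono (min_le_left _ _) hA, ?_⟩
    rw [hP₁]
    exact S.mono (min_le_left _ _) (hl _ (lt_min hτ hτ₀) (min_le_right _ _) J F A hA)
  obtain ⟨S₂, h1, h2, h3⟩ := ex i (S₁.sl P₁) hne1 fun τ J F A h => by
    have := h.2
    rw [hP₁] at this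
    exact this
  refine ⟨⟨S₂.St, S₂.mono, S₂.res⟩, down i S₂ _ ⟨1, one_pos, fun _ _ _ _ _ _ h => h.2⟩ h3, ?_⟩
  intro τ hτ J₁
  obtain ⟨J, hJ, F, A, hA⟩ := h1 τ hτ J₁
  exact ⟨J, hJ, F, A, (h2 τ J F A hA).1, hA⟩

/-- Near digits in a smaller class. -/
theorem NvAt.leS {S S' : PCl m} (hs : S'.Le S) {y u v : Fin m} {L₁ L₂ : ℝ → ℝ} {g : ℝ}
    (h : NvAt S y u v L₁ L₂ g) : NvAt S' y u v L₁ L₂ g := by
  intro C e κ hC he hκ hκe
  obtain ⟨i₀, h⟩ := h C e κ hC he hκ hκe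
  refine ⟨i₀, fun i hi => ?_⟩
  obtain ⟨ρ, hρ, h⟩ := h i hi
  refine ⟨ρ, hρ, fun R a1 a2 w j a3 a4 a5 q p Na Ma Nb Mb Nd Md b1 b2 b3 b4 b5 b6 b7 b8 b9 d1 d2
    c₀ hc₀ => ?_⟩
  obtain ⟨k, hk, e₀, he₀, H⟩ := h R a1 a2 w j a3 a4 a5 q p Na Ma Nb Mb Nd Md b1 b2 b3 b4 b5 b6
    b7 b8 b9 d1 d2 c₀ hc₀
  exact ⟨k, hk, e₀, he₀, fun K => bas_leS hs (H K)⟩

/-- **The conditions at a window** `g`: the labels of `u` over `y` and of `v` over `y`, `u` have the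
precisions `u₀`, `u₀ + φ` and the slope `Sl > 1`. -/
structure PtV (L : Finset (Fin m) → Fin m → ℝ → ℝ → ℝ) (y u v : Fin m) (g u₀ φ Sl : ℝ) :
    Prop where
  g0 : 0 < g
  gu : g < u₀
  φ0 : 0 ≤ φ
  φ1 : u₀ + φ < 1
  S1 : 1 < Sl
  der : ∀ e : ℝ, 0 < e → ∃ r₀ : ℝ, 0 < r₀ ∧ ∀ r : ℝ, 0 < r → r < r₀ → ∀ w : ℝ, |w - g| ≤ r →
    |L {y} u w w - (u₀ + Sl * (w - g))| ≤ e * r ∧
    |L {y, u} v w w - (u₀ + φ + Sl * (w - g))| ≤ e * r ∧
    u₀ + Sl * (w - g) - e * r ≤ L {y} v w w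

/-- A slope larger than one gives deep windows. -/
theorem deep_ofS {f : ℝ → ℝ} {g u₀ Sl : ℝ} (g0 : 0 < g) (g1 : g < 1) (S1 : 1 < Sl)
    (h : ∀ e : ℝ, 0 < e → ∃ r₀ : ℝ, 0 < r₀ ∧ ∀ r : ℝ, 0 < r → r < r₀ → ∀ w : ℝ, |w - g| ≤ r →
      u₀ + Sl * (w - g) - e * r ≤ f w) :
    ∃ a₀ a : ℝ, 0 ≤ a₀ ∧ a₀ < a ∧ a < 1 ∧ u₀ - g < f a₀ - a := by
  obtain ⟨r₀, hr₀, h1⟩ := h ((Sl - 1) / 4) (by linarith)
  obtain ⟨r, hr⟩ : ∃ r, r = min (r₀ / 2) ((1 - g) / (2 * (1 + Sl))) := ⟨_, rfl⟩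
  have hS : 0 < 2 * (1 + Sl) := by linarith
  have r0 : 0 < r := by rw [hr]; exact lt_min (by linarith) (div_pos (by linarith) hS)
  have r1 : r < r₀ := by
    have : r ≤ r₀ / 2 := by rw [hr]; exact min_le_left _ _
    linarith
  have r2 : r * (2 * (1 + Sl)) ≤ 1 - g := by
    have : r ≤ (1 - g) / (2 * (1 + Sl)) := by rw [hr]; exact min_le_right _ _
    rwa [le_div_iff₀ hS] at this
  have h2 := h1 r r0 r1 (g + r) (by rw [add_sub_cancel_left, abs_of_pos r0])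
  rw [add_sub_cancel_left] at h2
  have h3 : 0 < (Sl - 1) * r := mul_pos (by linarith) r0
  refine ⟨g + r, g + r + (Sl - 1) / 4 * r, by linarith, ?_, ?_, ?_⟩
  · have : 0 < (Sl - 1) / 4 * r := by linarith
    linarith
  · nlinarith
  · nlinarith

section

variable {L : Finset (Fin m) → Fin m → ℝ → ℝ → ℝ} {y u v : Fin m} {g u₀ φ Sl : ℝ}

/-- A function which is linear up to small multiples of the radius. -/
theorem hda_of {f : ℝ → ℝ} {a s g : ℝ} (h : ∀ e : ℝ, 0 < e → ∃ r₀ : ℝ, 0 < r₀ ∧ ∀ r : ℝ,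
    0 < r → r < r₀ → ∀ w : ℝ, |w - g| ≤ r → |f w - (a + s * (w - g))| ≤ e * r) :
    f g = a ∧ HasDerivAt f s g := by
  have h0 : f g = a := by
    by_contra hne
    have h0 : 0 < |f g - a| := abs_pos.2 (sub_ne_zero.2 hne)
    obtain ⟨r₀, hr₀, h1⟩ := h 1 one_pos
    obtain ⟨r, hr⟩ : ∃ r, r = min (r₀ / 2) (|f g - a| / 2) := ⟨_, rfl⟩
    have r0 : 0 < r := by rw [hr]; exact lt_min (by linarith) (by linarith)
    have r1 : r < r₀ := by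
      have : r ≤ r₀ / 2 := by rw [hr]; exact min_le_left _ _
      linarith
    have r2 : r ≤ |f g - a| / 2 := by rw [hr]; exact min_le_right _ _
    have h2 := h1 r r0 r1 g (by rw [sub_self, abs_zero]; exact r0.le)
    rw [sub_self, mul_zero, add_zero, one_mul] at h2
    linarith
  refine ⟨h0, ?_⟩
  rw [hasDerivAt_iff_isLittleO, Asymptotics.isLittleO_iff]
  intro e he
  obtain ⟨r₀, hr₀, h1⟩ := h e he
  refine Metric.eventually_nhds_iff.2 ⟨r₀, hr₀, fun w hw => ?_⟩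
  rw [Real.dist_eq] at hw
  rw [Real.norm_eq_abs, Real.norm_eq_abs, smul_eq_mul, h0]
  rcases eq_or_ne w g with rfl | hne
  · rw [h0]
    simp
  · have h2 := h1 |w - g| (abs_pos.2 (sub_ne_zero.2 hne)) hw w le_rfl
    have h3 : f w - a - (w - g) * s = f w - (a + s * (w - g)) := by ring
    rw [h3]
    exact h2

theorem PtV.d1 (P : PtV L y u v g u₀ φ Sl) :
    L {y} u g g = u₀ ∧ HasDerivAt (fun w => L {y} u w w) Sl g :=
  hda_of fun e he => by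
    obtain ⟨r₀, hr₀, h⟩ := P.der e he
    exact ⟨r₀, hr₀, fun r a b w c => (h r a b w c).1⟩

theorem PtV.d2 (P : PtV L y u v g u₀ φ Sl) :
    L {y, u} v g g = u₀ + φ ∧ HasDerivAt (fun w => L {y, u} v w w) Sl g :=
  hda_of fun e he => by
    obtain ⟨r₀, hr₀, h⟩ := P.der e he
    exact ⟨r₀, hr₀, fun r a b w c => (h r a b w c).2.1⟩

theorem PtV.uv (P : PtV L y u v g u₀ φ Sl) : L {y} u g g ≤ L {y} v g g := by
  rw [P.d1.1]
  by_contra hcon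
  push Not at hcon
  obtain ⟨r₀, hr₀, h1⟩ := P.der 1 one_pos
  obtain ⟨r, hr⟩ : ∃ r, r = min (r₀ / 2) ((u₀ - L {y} v g g) / 2) := ⟨_, rfl⟩
  have r0 : 0 < r := by rw [hr]; exact lt_min (by linarith) (by linarith)
  have r1 : r < r₀ := by
    have : r ≤ r₀ / 2 := by rw [hr]; exact min_le_left _ _
    linarith
  have r2 : r ≤ (u₀ - L {y} v g g) / 2 := by rw [hr]; exact min_le_right _ _
  have h2 := (h1 r r0 r1 g (by rw [sub_self, abs_zero]; exact r0.le)).2.2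
  rw [sub_self, mul_zero, add_zero, one_mul] at h2
  linarith

theorem PtV.du (P : PtV L y u v g u₀ φ Sl) :
    ∃ a₀ a : ℝ, 0 ≤ a₀ ∧ a₀ < a ∧ a < 1 ∧ u₀ - g < L {y} u a₀ a₀ - a := by
  refine deep_ofS P.g0 (by linarith [P.gu, P.φ0, P.φ1]) P.S1 fun e he => ?_
  obtain ⟨r₀, hr₀, h⟩ := P.der e he
  refine ⟨r₀, hr₀, fun r a b w hw => ?_⟩
  have := (abs_le.1 (h r a b w hw).1).1
  linarith

theorem PtV.dv (P : PtV L y u v g u₀ φ Sl) :
    ∃ a₀ a : ℝ, 0 ≤ a₀ ∧ a₀ < a ∧ a < 1 ∧ u₀ - g < L {y} v a₀ a₀ - a := by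
  refine deep_ofS P.g0 (by linarith [P.gu, P.φ0, P.φ1]) P.S1 fun e he => ?_
  obtain ⟨r₀, hr₀, h⟩ := P.der e he
  exact ⟨r₀, hr₀, fun r a b w hw => (h r a b w hw).2.2⟩

/-- The good windows near a window with `PtV`. -/
theorem PtV.near (P : PtV L y u v g u₀ φ Sl) : ∃ δ : ℝ, 0 < δ ∧ ∀ t : ℝ, |t - g| ≤ δ →
      0 < t ∧ t < 1 ∧ t < L {y} u t t ∧ t < L {y, u} v t t ∧ L {y} u t t < 1 ∧
      L {y, u} v t t < 1 ∧ ∃ a₀ a : ℝ, 0 ≤ a₀ ∧ a₀ < a ∧ a < 1 ∧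
        L {y} u t t - t < L {y} u a₀ a₀ - a := by
  obtain ⟨a₀, a, ha0, haa, ha1, hd⟩ := P.du
  obtain ⟨d, hd'⟩ : ∃ d, d = min (min (u₀ - g) (1 - (u₀ + φ)))
    (min (L {y} u a₀ a₀ - a - (u₀ - g)) g) := ⟨_, rfl⟩
  have d0 : 0 < d := by
    rw [hd']
    refine lt_min (lt_min ?_ ?_) (lt_min ?_ P.g0)
    · linarith [P.gu]
    · linarith [P.φ1]
    · linarith
  have q : d ≤ u₀ - g ∧ d ≤ 1 - (u₀ + φ) ∧ d ≤ L {y} u a₀ a₀ - a - (u₀ - g) ∧ d ≤ g := by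
    have := hd'.le
    simp only [le_min_iff] at this
    tauto
  obtain ⟨q1, q2, q3, q4⟩ := q
  obtain ⟨r₀, hr₀, h⟩ := P.der 1 one_pos
  have hS : 0 < 2 * (2 + Sl) := by linarith [P.S1]
  obtain ⟨r, hr⟩ : ∃ r, r = min (r₀ / 2) (d / (2 * (2 + Sl))) := ⟨_, rfl⟩
  have r0 : 0 < r := by rw [hr]; exact lt_min (by linarith) (div_pos d0 hS)
  have r1 : r < r₀ := by
    have : r ≤ r₀ / 2 := by rw [hr]; exact min_le_left _ _
    linarith
  have r2 : r * (2 * (2 + Sl)) ≤ d := by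
    have : r ≤ d / (2 * (2 + Sl)) := by rw [hr]; exact min_le_right _ _
    rwa [le_div_iff₀ hS] at this
  have r3 : Sl * r + 2 * r ≤ d / 2 := by linarith
  refine ⟨r, r0, fun t ht => ?_⟩
  obtain ⟨h1, h2, -⟩ := h r r0 r1 t ht
  have hS0 : 0 < Sl := by linarith [P.S1]
  have h3 : |Sl * (t - g)| ≤ Sl * r := by
    rw [abs_mul, abs_of_pos hS0]
    exact mul_le_mul_of_nonneg_left ht hS0.le
  obtain ⟨h3, h3'⟩ := abs_le.1 h3
  obtain ⟨h1, h1'⟩ := abs_le.1 h1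
  obtain ⟨h2, h2'⟩ := abs_le.1 h2
  obtain ⟨ht, ht'⟩ := abs_le.1 ht
  have hSr : 0 < Sl * r := by positivity
  have := P.φ0
  refine ⟨by linarith, by linarith, by linarith, by linarith, by linarith, by linarith,
    a₀, a, ha0, haa, ha1, by linarith⟩

end

/-- **The near digits of a pair**: one subclass for almost all windows. -/
theorem nv_cls (hFn : ∀ k, 1 ≤ k → k ≤ 3 → FZX k) {S : PCl m} (hS : S.Ne) {C₀ : ℝ}
    (hC₀ : 0 ≤ C₀) (htm : TmC S C₀)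
    (hpos : ∀ (τ : ℝ) (J : ℕ) (F : Fam m J) (A : F.Ω → Prop), S.St τ J F A → 0 < Pe F.p A)
    {L : Finset (Fin m) → Fin m → ℝ → ℝ → ℝ} (hL : LamW S L) {Na : ℚ → ℚ → ℝ} {al : ℝ}
    {g₀ : ℝ → ℝ} (hal : 0 < al) (hg₀ : ∀ e, 0 < e → 0 < g₀ e) (hM : ActM Na al g₀) {y : Fin m}
    (hB : ActB Na S y) {M : ℝ}
    (hcnt : Bas S (fun J F A => (cnt F.p (ptr F J) A : ℝ) ≤ Real.exp (M * J))) :
    ∃ S' : PCl m, S'.Ne ∧
      (∀ (τ : ℝ) (J : ℕ) (F : Fam m J) (A : F.Ω → Prop), S'.St τ J F A → S.St τ J F A) ∧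
      ∀ u v : Fin m, y ≠ u → y ≠ v → u ≠ v → ∀ᵐ g : ℝ, ∀ u₀ φ Sl : ℝ,
        PtV L y u v g u₀ φ Sl →
        NvAt S' y u v (fun w => L {y} u w w) (fun w => L {y, u} v w w) g := by
  classical
  have hposB : Bas S (fun _ F A => 0 < Pe F.p A) :=
    ⟨1, one_pos, 0, fun J _ F A hA => hpos 1 J F A hA⟩
  have hact : ActF S y := actF_of hposB hal hg₀ hM hB
  -- the countable set of the bad windows
  have hbu : ∀ u : Fin m, ∃ B : Set ℝ, B.Countable ∧ (y ≠ u → ∀ w : ℝ, 0 < w → w < 1 → w ∉ B →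
      L {y} u w w < 1 → Chn S (fun i => if i = 0 then y else u) 1 2 w w (L {y} u w w)
        (fun i => if i = 0 then w else L {y} u w w) (fun _ => w)) := by
    intro u
    by_cases h : y = u
    · exact ⟨∅, Set.countable_empty, fun h' => absurd h h'⟩
    · obtain ⟨B, h1, h2⟩ := chn_pair (hFn 2 (by norm_num) (by norm_num)) hS hC₀ htm hL hal hg₀ hM
        h hB (c := fun i => if i = 0 then y else u) (by simp) (by simp)
      exact ⟨B, h1, fun _ => h2⟩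
  choose Bd hBd1 hBd2 using hbu
  obtain ⟨Z, hZ⟩ : ∃ Z : Set ℝ, Z = (⋃ u, Bd u) ∪ ⋃ p : Finset (Fin m) × Fin m,
      {W | ¬ ContinuousAt (fun W => L p.1 p.2 W W) W} := ⟨_, rfl⟩
  have hZc : Z.Countable := by
    rw [hZ]
    exact (Set.countable_iUnion hBd1).union (Set.countable_iUnion fun p => (cnt_L hL p.1 p.2).2)
  obtain ⟨s, hs⟩ : ∃ s : ℝ, ∀ q : ℚ, (q : ℝ) + s ∉ Z := by
    have h1 : (⋃ q : ℚ, (fun z : ℝ => z - q) '' Z).Countable :=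
      Set.countable_iUnion fun q => hZc.image _
    obtain ⟨s, hs⟩ := (h1.dense_compl ℝ).nonempty
    refine ⟨s, fun q hq => hs ?_⟩
    exact Set.mem_iUnion.2 ⟨q, (q : ℝ) + s, hq, by ring⟩
  have hsB : ∀ (u : Fin m) (q : ℚ), (q : ℝ) + s ∉ Bd u := fun u q h => hs q (by
    rw [hZ]
    exact Or.inl (Set.mem_iUnion.2 ⟨u, h⟩))
  have hsC : ∀ (I : Finset (Fin m)) (k : Fin m) (q : ℚ),
      ContinuousAt (fun W => L I k W W) ((q : ℝ) + s) := by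
    intro I k q
    by_contra h
    refine hs q ?_
    rw [hZ]
    exact Or.inr (Set.mem_iUnion.2 ⟨(I, k), h⟩)
  -- the numbers of activity and of the records
  obtain ⟨S₁, Ns, hS₁, sub₁, hNs⟩ := actN_exists' hS hpos
  obtain ⟨f, hf⟩ := exists_surjective_nat ℚ
  obtain ⟨S₂, hS₂, sub₂, hη⟩ := ext_rec hS₁
    (fun τ J F A h => hpos τ J F A (sub₁ τ J F A h)) (fun _ _ F => PtT F) (fun _ _ F => LnT F)
    (fun _ J F => ptr F J) (fun i => vg ((f i : ℝ) + s)) (fun _ => M) (fun _ => hcnt.sub sub₁)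
  have sub₂₀ : ∀ (τ : ℝ) (J : ℕ) (F : Fam m J) (A : F.Ω → Prop), S₂.St τ J F A → S.St τ J F A :=
    fun τ J F A h => sub₁ τ J F A (sub₂ τ J F A h)
  have hRN : ∀ q : ℚ, ∃ η, RNum S₂ (fun J F => ptr F J) (vg ((q : ℝ) + s)) η := fun q => by
    obtain ⟨i, rfl⟩ := hf q
    exact hη i
  obtain ⟨GI, hGI⟩ : ∃ GI : Fin m → Fin m → ℚ → ℚ → Prop, GI = fun u v (A B : ℚ) =>
      ∀ q : ℚ, (A : ℝ) < q → (q : ℝ) < B → 0 < (q : ℝ) + s ∧ (q : ℝ) + s < 1 ∧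
        Gdw L y u v ((q : ℝ) + s) ∧ L {y, u} v ((q : ℝ) + s) ((q : ℝ) + s) < 1 := ⟨_, rfl⟩
  obtain ⟨Q, hQ⟩ : ∃ Q : (Fin m × Fin m) × (ℚ × ℚ) → PCl m → Prop, Q = fun i S' =>
      y ≠ i.1.1 → y ≠ i.1.2 → i.1.1 ≠ i.1.2 → GI i.1.1 i.1.2 i.2.1 i.2.2 →
      ∀ᵐ x : ℝ, x ∈ Set.Ioo (i.2.1 : ℝ) (i.2.2 : ℝ) → ∀ u₀ φ Sl : ℝ,
        PtV L y i.1.1 i.1.2 (x + s) u₀ φ Sl →
        NvAt S' y i.1.1 i.1.2 (fun w => L {y} i.1.1 w w) (fun w => L {y, i.1.1} i.1.2 w w)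
          (x + s) := ⟨_, rfl⟩
  obtain ⟨S', hS', sub', hall⟩ := diag_subS hS₂ Q (by
      rw [hQ]
      intro i T₁ T₂ hle h a1 a2 a3 a4
      filter_upwards [h a1 a2 a3 a4] with x hx hxA u₀ φ Sl hP
      exact (hx hxA u₀ φ Sl hP).leS hle) (by
    rw [hQ]
    rintro ⟨⟨u, v⟩, ⟨A, B⟩⟩ S₃ hS₃ sub₃
    by_cases hc : y ≠ u ∧ y ≠ v ∧ u ≠ v ∧ GI u v A B
    · obtain ⟨hyu, hyv, huv, hgi⟩ := hc
      rw [hGI] at hgi
      have sub₃₀ : ∀ (τ : ℝ) (J : ℕ) (F : Fam m J) (A : F.Ω → Prop),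
          S₃.St τ J F A → S.St τ J F A := fun τ J F A h => sub₂₀ τ J F A (sub₃ τ J F A h)
      have htm₃ : TmC S₃ C₀ := fun τ J F A hτ h => htm τ J F A hτ (sub₃₀ τ J F A h)
      obtain ⟨T, hT⟩ : ∃ T : Set ℝ, T = {t | ∃ q : ℚ, (A : ℝ) < q ∧ (q : ℝ) < B ∧
        t = (q : ℝ) + s} := ⟨_, rfl⟩
      have hTc : T.Countable := by
        refine (Set.countable_range (fun q : ℚ => (q : ℝ) + s)).mono ?_
        rw [hT]
        rintro t ⟨q, -, -, rfl⟩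
        exact ⟨q, rfl⟩
      have hact₃ : ActF S₃ y := actF_of (hposB.sub sub₃₀) hal hg₀ hM
        (fun q q' a b c h hh => (hB q q' a b c h hh).sub sub₃₀)
      obtain ⟨S₄, hS₄, sub₄, hatt⟩ := att_all hS₃ hC₀ htm₃ (hL.sub sub₃₀) hyu hact₃ hTc
        (v := v) (by
          rw [hT]
          rintro t ⟨q, a, b, rfl⟩
          exact (hgi q a b).2.2.1)
      have sub₄₀ : ∀ (τ : ℝ) (J : ℕ) (F : Fam m J) (A : F.Ω → Prop),
          S₄.St τ J F A → S.St τ J F A := fun τ J F A h => sub₃₀ τ J F A (sub₄ τ J F A h)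
      have sub₄₂ : ∀ (τ : ℝ) (J : ℕ) (F : Fam m J) (A : F.Ω → Prop),
          S₄.St τ J F A → S₂.St τ J F A := fun τ J F A h => sub₃ τ J F A (sub₄ τ J F A h)
      have htm₄ : TmC S₄ C₀ := fun τ J F A hτ h => htm τ J F A hτ (sub₄₀ τ J F A h)
      have hpos₄ : ∀ (τ : ℝ) (J : ℕ) (F : Fam m J) (A : F.Ω → Prop), S₄.St τ J F A →
          0 < Pe F.p A := fun τ J F A h => hpos τ J F A (sub₄₀ τ J F A h)
      have hB₄ : ActB Na S₄ y := fun q q' a b c h hh => (hB q q' a b c h hh).sub sub₄₀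
      have hact₄ : ActF S₄ y := actF_of (hposB.sub sub₄₀) hal hg₀ hM hB₄
      have hW : WinG S₄ {y} u v {q : ℚ | (A : ℝ) < q ∧ (q : ℝ) < B} s
          (fun q => L {y} u ((q : ℝ) + s) ((q : ℝ) + s))
          (fun q => L {y, u} v ((q : ℝ) + s) ((q : ℝ) + s)) := by
        refine win_of hS₄ htm₄ (hL.sub sub₄₀) (c := fun i => if i = 0 then y else u) (by simp)
          (by simp) (fun q hq => ?_) (fun q hq => ?_) (fun q hq => ?_) (fun q hq => ?_)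
          (fun q hq j hj => ?_)
        · obtain ⟨a, b⟩ := hq
          exact ⟨(hgi q a b).1, (hgi q a b).2.1⟩
        · obtain ⟨a, b⟩ := hq
          exact (hgi q a b).2.2.1.U1
        · obtain ⟨a, b⟩ := hq
          exact (hgi q a b).2.2.2
        · obtain ⟨a, b⟩ := hq
          exact (hBd2 u hyu _ (hgi q a b).1 (hgi q a b).2.1 (hsB u q)
            (hgi q a b).2.2.1.U1).sub sub₄₀
        · obtain ⟨a, b⟩ := hq
          exact hatt _ (by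
            rw [hT]
            exact ⟨q, a, b, rfl⟩) j hj
      obtain ⟨S₅, hS₅, sub₅, hae⟩ := cor_near hFn hS₄ hC₀ htm₄ hpos₄ (hL.sub sub₄₀)
        (actN_of_bas (fun Φ h => h.sub fun τ J F A hA => sub₂ τ J F A (sub₄₂ τ J F A hA)) hNs)
        hal hg₀ hM hB₄ hact₄ hyu hyv huv hW (A := A) (B := B)
        (fun q a b => ⟨a, b⟩) (fun _ _ => rfl) (fun _ _ => rfl)
        (fun q hq => by
          obtain ⟨a, b⟩ := hq
          exact (hgi q a b).2.2.1)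
        (fun q _ _ => by
          obtain ⟨η, hη⟩ := hRN q
          exact ⟨η, hη.sub sub₄₂⟩)
      refine ⟨S₅, hS₅, fun τ J F A h => sub₄ τ J F A (sub₅ τ J F A h), fun _ _ _ _ => ?_⟩
      have sub₅₀ : ∀ (τ : ℝ) (J : ℕ) (F : Fam m J) (A : F.Ω → Prop),
          S₅.St τ J F A → S.St τ J F A := fun τ J F A h => sub₄₀ τ J F A (sub₅ τ J F A h)
      filter_upwards [hae] with x hx hxAB u₀ φ Sl P
      have e1 : x + s - s = x := by ring
      have e2 : ∀ w : ℚ, (w : ℝ) + s - (x + s) = w - x := fun w => by ring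
      have hPC : PtC L y u v (fun q => L {y} u ((q : ℝ) + s) ((q : ℝ) + s))
          (fun q => L {y, u} v ((q : ℝ) + s) ((q : ℝ) + s)) s x u₀ φ Sl := by
        refine ⟨P.gu, P.φ0, P.φ1, P.S1, ?_, P.uv, P.du, P.dv⟩
        intro e he
        obtain ⟨r₀, hr₀, h⟩ := P.der e he
        refine ⟨r₀, hr₀, fun r a b w c d => ?_⟩
        have h3 : |(w : ℝ) + s - (x + s)| ≤ r := by
          rw [e2, abs_le]
          constructor <;> linarith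
        obtain ⟨k1, k2, -⟩ := h r a b _ h3
        rw [e2] at k1 k2
        exact ⟨k1, k2⟩
      refine nv_at (s := s) (A := A) (B := B) (Sl := Sl)
        (U := fun q => L {y} u ((q : ℝ) + s) ((q : ℝ) + s))
        (D := fun q => L {y, u} v ((q : ℝ) + s) ((q : ℝ) + s))
        (fun τ J F A hτ h => htm τ J F A hτ (sub₅₀ τ J F A h))
        (fun τ J F A h => hpos τ J F A (sub₅₀ τ J F A h)) (hW.sub sub₅)
        (fun q _ _ => by
          obtain ⟨η, hη⟩ := hRN q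
          exact ⟨η, hη.sub fun τ J F A h => sub₄₂ τ J F A (sub₅ τ J F A h)⟩)
        (fun _ _ _ => rfl) (fun _ _ _ => rfl) (by rw [e1]; exact hxAB.1)
        (by rw [e1]; exact hxAB.2) (by linarith [P.gu, P.φ0, P.φ1]) P.S1 P.d1.2 P.d2.2 ?_
      have e3 : L {y, u} v (x + s) (x + s) - L {y} u (x + s) (x + s) = φ := by
        rw [P.d1.1, P.d2.1]
        ring
      rw [e1, e3]
      exact hx hxAB u₀ φ Sl hPC
    · refine ⟨S₃, hS₃, fun _ _ _ _ h => h, fun a1 a2 a3 a4 => absurd ⟨a1, a2, a3, a4⟩ hc⟩)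
  refine ⟨S', hS', fun τ J F A h => sub₂₀ τ J F A (sub' τ J F A h), ?_⟩
  intro u v hyu hyv huv
  have h1 : ∀ᵐ x : ℝ, ∀ p : ℚ × ℚ, GI u v p.1 p.2 → x ∈ Set.Ioo (p.1 : ℝ) (p.2 : ℝ) →
      ∀ u₀ φ Sl : ℝ, PtV L y u v (x + s) u₀ φ Sl →
        NvAt S' y u v (fun w => L {y} u w w) (fun w => L {y, u} v w w) (x + s) := by
    rw [ae_all_iff]
    intro p
    by_cases hg : GI u v p.1 p.2
    · have h2 := hall ((u, v), p)
      rw [hQ] at h2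
      filter_upwards [h2 hyu hyv huv hg] with x hx _ hxA
      exact hx hxA
    · exact Filter.Eventually.of_forall fun x h => absurd h hg
  have h2 := (measurePreserving_sub_right (volume : Measure ℝ) s).quasiMeasurePreserving.ae h1
  filter_upwards [h2] with g hg u₀ φ Sl P
  obtain ⟨δ, hδ, hnear⟩ := P.near
  obtain ⟨A, hA1, hA2⟩ := exists_rat_btwn (by linarith : g - s - δ < g - s)
  obtain ⟨B, hB1, hB2⟩ := exists_rat_btwn (by linarith : g - s < g - s + δ)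
  have e1 : g - s + s = g := by ring
  have h3 := hg (A, B) (by
    rw [hGI]
    intro q a b
    have h3 : |(q : ℝ) + s - g| ≤ δ := by
      rw [abs_le]
      constructor <;> linarith
    obtain ⟨k1, k2, k3, k4, k5, k6, k7⟩ := hnear _ h3
    exact ⟨k1, k2, ⟨k1, hsC _ _ q, hsC _ _ q, k3, k4, k5, k7⟩, k6⟩) ⟨hA2, hB1⟩ u₀ φ Sl
  rw [e1] at h3
  exact h3 P

end Pool.D2F2
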