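import Pool.Agent.H4.D2.Fln

/-!
# The places 1 and 2 behind their own paths, from the numbers at windows

`flp_one`: the jets of the place 1 of all orders over any label. `fl_src`: the jets of both places.
`fl_num`: the lower bound for the heights of both places, given the jets of all orders, from the
numbers at the windows `w' ≤ j < j'' ≤ l` of the class; the orders `≥ 2` by affine labels.
-/

set_option autoImplicit false

namespace Pool.D2F2

open Finset Real MvPolynomial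
open Pool.Agent.H49.Ent Pool.Agent.H32.Dense Pool.STK Pool.KA Pool.KSAT Pool.K2S Pool.PB Pool.GEN
open Pool.S6C Pool.LA91 Pool.RCD
open Pool.AVG96 (LowN few_lmap few_cut)
open Pool.CDX (AffL)

section

variable {m : ℕ} {S : PCl m} {C₀ : ℝ} {G : Set ℚ} {s : ℝ}
  {U D : ℚ → ℝ} {α γ γ' : ∀ J : ℕ, Fam m J → Type}
  {f : ∀ (J : ℕ) (F : Fam m J), F.Ω → α J F}
  {y : ∀ (J : ℕ) (F : Fam m J), F.Ω → γ J F} {y' : ∀ (J : ℕ) (F : Fam m J), F.Ω → γ' J F}
  {lam : ℝ} {c : ℕ → Fin m}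

theorem img_one (c : ℕ → Fin m) : (range 1).image c = {c 0} := by
  rw [range_one, image_singleton]

theorem img_two' (c : ℕ → Fin m) : (range 2).image c = insert (c 1) {c 0} := by
  rw [range_add_one, image_insert, img_one]

theorem dig_self {U : Type} {Q : Qt m U} : Dig Q Q 0 0 := fun K e J F A b _ hb =>
  ⟨b, Q.mono (Nat.le_succ K) le_rfl hb, fun q hq _ => by
    rw [zero_mul, add_zero, CH_eq_zero hq.nonneg fun _ _ _ _ h => h]⟩

/-- A larger bound of the gradient. -/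
theorem att_up {I : Finset (Fin m)} {k : Fin m} {w p r r' : ℝ} (h : Att S I k w p r)
    (hr : r ≤ r') : Att S I k w p r' := fun e he => by
  obtain ⟨K, hK⟩ := h e he
  refine ⟨K, Bas.mono 0 hK ?_⟩
  rintro J - F A ⟨V, z, z', G, h⟩
  exact ⟨V, z, z', G, h.mono (Finset.Subset.refl _) le_rfl le_rfl
    (Nat.floor_le_floor (mul_le_mul_of_nonneg_right (by linarith) (Nat.cast_nonneg J))) le_rfl⟩

/-- **The jets of the place 1** over any label, given the heights and velocities of the window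
`w' + s`; the orders `≥ 2` by an affine label. -/
theorem flp_one (htm : TmC S C₀)
    (hpos : ∀ (τ : ℝ) (J : ℕ) (F : Fam m J) (A : F.Ω → Prop), S.St τ J F A → 0 < Pe F.p A)
    (hf : ∀ (J : ℕ) (F : Fam m J), ∃ φ : α J F → PtT F, ∀ ω, ptr F J ω = φ (f J F ω))
    (hy : Kn {c 0} 1 lam y) (H : WinG S {c 0} (c 1) (c 2) G s U D) {w' j l g' : ℚ}
    (hw' : w' ∈ G) {b q v₁ q₁ N mm : ℝ} (hb : b ≤ (w' : ℝ) + s) (hv : v₁ ≤ (w' : ℝ) + s)
    (hA : AffL S {c 0} (c 1) v₁ q₁) (hmm : mm = min lam (1 - ((w' : ℝ) + s))) {i : ℕ}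
    (h0 : i = 0 → N ≤ U j) (h1 : i = 1 → N ≤ U l - (l + s))
    (h2 : N + i * ((w' : ℝ) + s) < min (U w') q + mm)
    (h3 : N + i * ((w' : ℝ) + s) < min q₁ q + mm) :
    Few S f (vg ((w' : ℝ) + s)) y ((gX m {c 0} (c 1) (c 2) s U g' w' j).prod
      (gD m {c 0} (c 1) (c 2) s U g' w' l)) (qJet m {c 0} (c 1) i b q N) := by
  subst hmm
  have w0 := H.w0 w' hw'
  have w1 := H.w1 w' hw'
  rcases Nat.lt_or_ge i 2 with hi | hi
  · rcases Nat.lt_or_ge i 1 with hi' | hi'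
    · obtain rfl : i = 0 := by omega
      have g0 : Few S f (vg ((w' : ℝ) + s)) y
          (qJet m {c 0} (c 1) 0 ((w' : ℝ) + s) (U w') (U j)) (qJet m {c 0} (c 1) 0 b q N) :=
        few_jet htm le_rfl hb w1.le le_rfl w0.le w1 le_rfl (H.ful w' hw') hf hy (h0 rfl) h2
      exact Few.fst hpos (Few.fst hpos g0)
    · obtain rfl : i = 1 := by omega
      have g0 : Few S f (vg ((w' : ℝ) + s)) y
          (qJet m {c 0} (c 1) 1 ((w' : ℝ) + s) (U w') (U l - (l + s)))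
          (qJet m {c 0} (c 1) 1 b q N) :=
        few_jet htm le_rfl hb w1.le le_rfl w0.le w1 le_rfl (H.ful w' hw') hf hy (h1 rfl) h2
      exact Few.snd hpos (Few.fst hpos g0)
  · refine few_aff htm hA hi (N := N) (Few.snd hpos ?_)
    exact few_jet htm hv hb w1.le le_rfl w0.le w1 le_rfl (H.ful w' hw') hf hy le_rfl h3

/-- **The jets of both places, of all orders,** are few bits given the heights and the velocities of
the window `w' + s`. -/
theorem fl_src (htm : TmC S C₀)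
    (hpos : ∀ (τ : ℝ) (J : ℕ) (F : Fam m J) (A : F.Ω → Prop), S.St τ J F A → 0 < Pe F.p A)
    (hf : ∀ (J : ℕ) (F : Fam m J), ∃ φ : α J F → PtT F, ∀ ω, ptr F J ω = φ (f J F ω))
    (hy : Kn {c 0} 1 lam y) (hlam : 0 < lam) (H : WinG S {c 0} (c 1) (c 2) G s U D)
    {w' j l g' : ℚ} (hw' : w' ∈ G) {u₁ : ℝ} {sX rX : ℕ → ℝ}
    (hch : Chn S c 1 2 ((w' : ℝ) + s) ((w' : ℝ) + s) u₁ sX rX) (hs1 : sX 1 = U w')
    {b v₁ q₁ v₂ q₂ mm lv σ₀ P₁ P₂ Um dK : ℝ} {p : ℕ → ℝ} {K : ℕ} {Nt : ℕ → ℕ → ℝ}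
    (hb : b ≤ (w' : ℝ) + s) (hv₁ : v₁ ≤ (w' : ℝ) + s) (hv₂ : v₂ ≤ (w' : ℝ) + s)
    (hA1 : AffL S ((range 1).image c) (c 1) v₁ q₁)
    (hA2 : AffL S ((range 2).image c) (c 2) v₂ q₂)
    (hmm : mm = min lam (1 - ((w' : ℝ) + s))) (hσ₀ : 0 < σ₀) (hlv : 0 < lv)
    (hN1 : ∀ i, Nt 1 i = P₁ - (i : ℝ) * b) (hN2 : ∀ i, Nt 2 i = P₂ - (i : ℝ) * b)
    (hdK : dK = K * ((w' : ℝ) + s - b))
    (a0 : P₁ ≤ U j) (a1 : P₁ - b ≤ U l - (l + s)) (a2 : P₁ + dK < min (U w') (p 1) + mm)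
    (a3 : P₁ + dK < min q₁ (p 1) + mm) (m0 : Um ≤ U j) (m1 : Um - ((w' : ℝ) + s) ≤ U l - (l + s))
    (m2 : Um < U w' + mm) (m3 : Um < min q₁ (U w') + mm) (c1 : lv + σ₀ ≤ mm)
    (c2 : U w' + lv + σ₀ ≤ Um) (c3 : P₂ + dK + σ₀ ≤ min (U w' + g') (p 2) + lv)
    (c4 : P₂ + dK + σ₀ ≤ min q₂ (p 2) + lv) (c5 : P₂ ≤ U j + g')
    (c6 : P₂ - b ≤ U l + g' - (l + s)) :
    Few S f (vg ((w' : ℝ) + s)) y ((gX m {c 0} (c 1) (c 2) s U g' w' j).prod
      (gD m {c 0} (c 1) (c 2) s U g' w' l))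
      (qJets m c 1 3 K (fun _ _ => b) (fun l _ => p l) Nt) := by
  have w0 := H.w0 w' hw'
  have w1 := H.w1 w' hw'
  have i2 := img_two' c
  have hy1 : Kn ((range 1).image c) 1 lam y := by rw [img_one]; exact hy
  have hA1' : AffL S {c 0} (c 1) v₁ q₁ := by rw [← img_one]; exact hA1
  have hwb : 0 ≤ (w' : ℝ) + s - b := by linarith
  have hi : ∀ i ≤ K, (i : ℝ) * ((w' : ℝ) + s - b) ≤ dK := fun i hi => by
    rw [hdK]
    exact mul_le_mul_of_nonneg_right (by exact_mod_cast hi) hwb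
  have hdK0 : 0 ≤ dK := by
    rw [hdK]
    positivity
  -- the middle
  obtain ⟨Nm, hNm⟩ : ∃ Nm : ℕ → ℕ → ℝ, Nm = fun (_ : ℕ) (i : ℕ) =>
      Um - (i : ℝ) * ((w' : ℝ) + s) := ⟨_, rfl⟩
  have hmid : ∀ i, Few S f (vg ((w' : ℝ) + s)) y ((gX m {c 0} (c 1) (c 2) s U g' w' j).prod
      (gD m {c 0} (c 1) (c 2) s U g' w' l))
      (qJets m c 1 2 i (fun _ _ => (w' : ℝ) + s) (fun _ _ => U w') Nm) := fun i => by
    refine few_qjets hpos fun l' hl0 hl1 j' _ => ?_
    obtain rfl : l' = 1 := by omega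
    rw [img_one]
    refine flp_one htm hpos hf hy H hw' le_rfl hv₁ hA1' hmm (fun h => ?_) (fun h => ?_) ?_ ?_
    · rw [hNm, h]
      simp only [Nat.cast_zero, zero_mul, sub_zero]
      exact m0
    · rw [hNm, h]
      simp only [Nat.cast_one, one_mul]
      exact m1
    · rw [hNm, min_self]
      simp only [sub_add_cancel]
      exact m2
    · rw [hNm]
      simp only [sub_add_cancel]
      exact m3
  have hexm : ∀ i, Exs S (qJets m c 1 2 i (fun _ _ => (w' : ℝ) + s) (fun _ _ => U w') Nm) :=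
    fun i => exs_qjets fun l' hl0 hl1 j' _ => by
      obtain rfl : l' = 1 := by omega
      rw [← hs1]
      exact exs_jet (le_max_right _ _) (att_up (hch.att 1 le_rfl (by norm_num))
        (le_max_left (rX 1) 0))
  refine few_qjets hpos fun l' hl0 hl1 i hiK => ?_
  have hl' : l' = 1 ∨ l' = 2 := by omega
  rcases hl' with rfl | rfl
  · rw [img_one, hN1]
    have e1 : P₁ - (i : ℝ) * b + i * ((w' : ℝ) + s) ≤ P₁ + dK := by
      have := hi i hiK
      have e2 : (i : ℝ) * ((w' : ℝ) + s - b) = i * ((w' : ℝ) + s) - i * b := by ring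
      rw [e2] at this
      linarith
    refine flp_one htm hpos hf hy H hw' hb hv₁ hA1' hmm (fun h => ?_) (fun h => ?_) ?_ ?_
    · rw [h]
      simp only [Nat.cast_zero, zero_mul, sub_zero]
      exact a0
    · rw [h]
      simp only [Nat.cast_one, one_mul]
      exact a1
    · linarith
    · linarith
  · rw [hN2]
    have e1 : P₂ - (i : ℝ) * b + i * ((w' : ℝ) + s) ≤ P₂ + dK := by
      have := hi i hiK
      have e2 : (i : ℝ) * ((w' : ℝ) + s - b) = i * ((w' : ℝ) + s) - i * b := by ring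
      rw [e2] at this
      linarith
    have one : ∀ {i : ℕ}, 1 ≤ i → i < 2 → i = 1 := fun a b => by omega
    -- the change over the middle
    have hjn : ∀ {x q' N₁ : ℝ}, x ≤ (w' : ℝ) + s → P₂ - (i : ℝ) * b ≤ N₁ →
        P₂ + dK + σ₀ ≤ min q' (p 2) + lv →
        Few S f (vg ((w' : ℝ) + s)) y
          ((qJets m c 1 2 i (fun _ _ => (w' : ℝ) + s) (fun _ _ => U w') Nm).prod
            (qJet m ((range 2).image c) (c 2) i x q' N₁))
          (qJet m ((range 2).image c) (c 2) i b (p 2) (P₂ - (i : ℝ) * b)) := by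
      intro x q' N₁ hx hN hq
      refine few_jetN htm hch (k := c 2) (j := i) (wv := fun _ _ => (w' : ℝ) + s)
        (pv := fun _ _ => U w') (Nv := Nm) (lv := fun _ => lv) (w₁ := x) (w₂ := b) (p₁ := q')
        (p₂ := p 2) (N₁ := N₁) (N₂ := P₂ - (i : ℝ) * b) (p₀ := 1) (lam := lam) (σ₀ := σ₀)
        (fun _ _ _ _ _ => le_rfl) hx hb w1 le_rfl hlam hσ₀ (fun _ _ _ => hlv)
        (fun l a b' i' hi' => ?_) (fun l a b' i' hi' => ?_)
        (fun l a b' i' hi' l' c1 c2 => by omega) hN ?_ (fun _ _ _ => ?_) hf hy1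
      · have h1 := one a b'
        subst h1
        rw [hs1, hNm]
        simp only [sub_add_cancel]
        exact c2
      · have h1 := one a b'
        subst h1
        rw [hs1, min_self, ← hmm]
        linarith
      · rw [← hmm]
        linarith
      · linarith
    rcases Nat.lt_or_ge i 2 with hi2 | hi2
    · rcases Nat.lt_or_ge i 1 with hi' | hi'
      · obtain rfl : i = 0 := by omega
        refine few_cut hpos (hexm 0) (hmid 0) (few_lmap hpos
          (Qa := (qJets m c 1 2 0 (fun _ _ => (w' : ℝ) + s) (fun _ _ => U w') Nm).prod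
            (qJet m ((range 2).image c) (c 2) 0 ((w' : ℝ) + s) (U w' + g') (U j + g')))
          (fun t => (t.2, t.1.1.2)) ?_ (hjn le_rfl (by
            simp only [Nat.cast_zero, zero_mul, sub_zero]
            exact c5) c3))
        rintro K' e J F A t ⟨⟨h1, h2⟩, h3⟩
        refine ⟨h3, ?_⟩
        rw [i2]
        exact qA_jet h1.2
      · obtain rfl : i = 1 := by omega
        refine few_cut hpos (hexm 1) (hmid 1) (few_lmap hpos
          (Qa := (qJets m c 1 2 1 (fun _ _ => (w' : ℝ) + s) (fun _ _ => U w') Nm).prod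
            (qJet m ((range 2).image c) (c 2) 1 ((w' : ℝ) + s) (U w' + g')
              (U l + g' - (l + s))))
          (fun t => (t.2, t.1.2.2)) ?_ (hjn le_rfl (by
            simp only [Nat.cast_one, one_mul]
            exact c6) c3))
        rintro K' e J F A t ⟨⟨h1, h2⟩, h3⟩
        refine ⟨h3, ?_⟩
        rw [i2]
        exact qA_jet h2.2
    · refine few_cut hpos (hexm i) (hmid i) (few_aff htm hA2 hi2 (N := P₂ - (i : ℝ) * b)
        (few_lmap hpos
          (Qa := (qJets m c 1 2 i (fun _ _ => (w' : ℝ) + s) (fun _ _ => U w') Nm).prod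
            (qJet m ((range 2).image c) (c 2) i v₂ q₂ (P₂ - (i : ℝ) * b)))
          (fun t => (t.1.2, t.2)) ?_ (hjn hv₂ le_rfl c4)))
      rintro K' e J F A t ⟨⟨h1, h2⟩, h3⟩
      exact ⟨h2, h3⟩

/-- **The heights of both places are full behind their own paths**, from the numbers at windows,
the same number of digits of both. -/
theorem fl_num (htm : TmC S C₀)
    (hpos : ∀ (τ : ℝ) (J : ℕ) (F : Fam m J) (A : F.Ω → Prop), S.St τ J F A → 0 < Pe F.p A)
    (hf : ∀ (J : ℕ) (F : Fam m J), ∃ φ : α J F → PtT F, ∀ ω, ptr F J ω = φ (f J F ω))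
    (hy : Kn {c 0} 1 lam y) (hlam : 0 < lam)
    (hyy : ∀ (J : ℕ) (F : Fam m J) (ω ω' : F.Ω), y J F ω = y J F ω' → y' J F ω = y' J F ω')
    (H : WinG S {c 0} (c 1) (c 2) G s U D) {w' j j'' l g' : ℚ} (hw' : w' ∈ G)
    (hg' : g' + U w' ≤ D w') (rx : ∃ η, RNum S f (vg ((w' : ℝ) + s)) η)
    (rx' : ∃ η, RNum S f (vg ((j : ℝ) + s)) η) {u₁ : ℝ} {sX rX : ℕ → ℝ}
    (hch : Chn S c 1 2 ((w' : ℝ) + s) ((w' : ℝ) + s) u₁ sX rX) (hs1 : sX 1 = U w') {θ₀ : ℝ}
    (h : NrJ S f y (gX m {c 0} (c 1) (c 2) s U g' w' j) (gX m {c 0} (c 1) (c 2) s U g' w' j'')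
      (gD m {c 0} (c 1) (c 2) s U g' w' l) ((w' : ℝ) + s) ((j : ℝ) + s) θ₀ 1)
    {b v₁ q₁ v₂ q₂ mm lv lv' σ₀ P₁ P₂ M₁ M₂ Um dK : ℝ} {p : ℕ → ℝ} {K : ℕ} {Nt : ℕ → ℕ → ℝ}
    (hb : b ≤ (w' : ℝ) + s) (hv₁ : v₁ ≤ (w' : ℝ) + s) (hv₂ : v₂ ≤ (w' : ℝ) + s)
    (hA1 : AffL S ((range 1).image c) (c 1) v₁ q₁)
    (hA2 : AffL S ((range 2).image c) (c 2) v₂ q₂)
    (hmm : mm = min lam (1 - ((w' : ℝ) + s))) (hσ₀ : 0 < σ₀) (hlv : 0 < lv) (hlv' : 0 < lv')
    (hN1 : ∀ i, Nt 1 i = P₁ - (i : ℝ) * b) (hN2 : ∀ i, Nt 2 i = P₂ - (i : ℝ) * b)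
    (hdK : dK = K * ((w' : ℝ) + s - b))
    (a0 : P₁ ≤ U j) (a1 : P₁ - b ≤ U l - (l + s)) (a2 : P₁ + dK < min (U w') (p 1) + mm)
    (a3 : P₁ + dK < min q₁ (p 1) + mm) (m0 : Um ≤ U j) (m1 : Um - ((w' : ℝ) + s) ≤ U l - (l + s))
    (m2 : Um < U w' + mm) (m3 : Um < min q₁ (U w') + mm) (c1 : lv + σ₀ ≤ mm)
    (c2 : U w' + lv + σ₀ ≤ Um) (c3 : P₂ + dK + σ₀ ≤ min (U w' + g') (p 2) + lv)
    (c4 : P₂ + dK + σ₀ ≤ min q₂ (p 2) + lv) (c5 : P₂ ≤ U j + g')
    (c6 : P₂ - b ≤ U l + g' - (l + s))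
    (d1 : U j'' ≤ M₁) (d2 : U j'' < min (p 1) (U w') + mm) (d3 : U w' + lv' + σ₀ ≤ M₁)
    (d4 : U w' + lv' + σ₀ ≤ min (p 1) (U w') + mm) (d5 : U j'' + g' ≤ M₂)
    (d6 : U j'' + g' + σ₀ ≤ min (p 2) (U w' + g') + mm)
    (d7 : U j'' + g' + σ₀ ≤ min (p 2) (U w' + g') + lv') :
    LowN S f (vg b) y' (qJets m c 1 3 K (fun _ _ => b) (fun l _ => p l) Nt)
      ((qJet m ((range 1).image c) (c 1) 0 b (p 1) M₁).prod
        (qJet m ((range 2).image c) (c 2) 0 b (p 2) M₂)) θ₀ := by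
  have w0 := H.w0 w' hw'
  have w1 := H.w1 w' hw'
  have i2 := img_two' c
  have hy1 : Kn ((range 1).image c) 1 lam y := by rw [img_one]; exact hy
  have xA : ∀ v' : ℚ, Exs S (gX m {c 0} (c 1) (c 2) s U g' w' v') := fun v' => by
    rw [← gX_eq]
    exact exs_gP H (by norm_num) hw' hg'
  have xD : ∀ v' : ℚ, Exs S (gD m {c 0} (c 1) (c 2) s U g' w' v') := fun v' => by
    rw [← gD_eq]
    exact exs_gP H le_rfl hw' hg'
  have one : ∀ {i : ℕ}, 1 ≤ i → i < 2 → i = 1 := fun a b => by omega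
  have f1 : FewC S f (vg ((w' : ℝ) + s)) y ((gX m {c 0} (c 1) (c 2) s U g' w' j).prod
      (gD m {c 0} (c 1) (c 2) s U g' w' l))
      (qJets m c 1 3 K (fun _ _ => b) (fun l _ => p l) Nt) 0 1 :=
    FewC.of hpos one_pos (fl_src htm hpos hf hy hlam H hw' hch hs1 hb hv₁ hv₂ hA1 hA2 hmm hσ₀ hlv
      hN1 hN2 hdK a0 a1 a2 a3 m0 m1 m2 m3 c1 c2 c3 c4 c5 c6) dig_self
  have f5 : FewC S f (vg ((w' : ℝ) + s)) y ((qJet m ((range 1).image c) (c 1) 0 b (p 1) M₁).prod
        (qJet m ((range 2).image c) (c 2) 0 b (p 2) M₂))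
      (gX m {c 0} (c 1) (c 2) s U g' w' j'') 0 1 := by
    have g1 : Few S f (vg ((w' : ℝ) + s)) y (qJet m ((range 1).image c) (c 1) 0 b (p 1) M₁)
        (qJet m {c 0} (c 1) 0 ((w' : ℝ) + s) (U w') (U j'')) := by
      rw [img_one]
      exact few_jet htm hb le_rfl w1.le le_rfl w0.le w1 le_rfl (H.ful w' hw') hf hy d1 (by
        push_cast
        rw [← hmm]
        linarith)
    have g2 := few_jetN htm hch (k := c 2) (j := 0) (wv := fun _ _ => b)
      (pv := fun l _ => p l) (Nv := fun _ _ => M₁) (lv := fun _ => lv') (w₁ := b)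
      (w₂ := (w' : ℝ) + s) (p₁ := p 2) (p₂ := U w' + g') (N₁ := M₂) (N₂ := U j'' + g')
      (p₀ := 1) (lam := lam) (σ₀ := σ₀) (f := f) (y := y)
      (fun _ _ _ _ _ => hb) hb le_rfl w1 le_rfl hlam hσ₀ (fun _ _ _ => hlv')
      (fun i a b' i' hi' => by
        have h1 := one a b'
        subst h1
        have h2 : i' = 0 := by omega
        subst h2
        rw [hs1]
        push_cast
        linarith)
      (fun i a b' i' hi' => by
        have h1 := one a b'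
        subst h1
        rw [hs1, ← hmm]
        exact d4)
      (fun i a b' i' hi' l' c1 c2 => by omega) d5 (by
        push_cast
        rw [← hmm]
        linarith)
      (fun _ _ _ => by
        push_cast
        linarith) hf hy1
    have g3 : Few S f (vg ((w' : ℝ) + s)) y ((qJet m ((range 1).image c) (c 1) 0 b (p 1) M₁).prod
        (qJet m ((range 2).image c) (c 2) 0 b (p 2) M₂))
        (qJet m ((range 2).image c) (c 2) 0 ((w' : ℝ) + s) (U w' + g') (U j'' + g')) := by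
      refine few_lmap hpos (fun t => (fun i i' => if i = 1 ∧ i' = 0 then t.1 else 0, t.2)) ?_ g2
      rintro K' e J F A t ⟨h1, h2⟩
      refine ⟨⟨fun i a b' i' hi' => ?_, fun ω _ i i' hn => if_neg fun h5 => hn ?_⟩, h2⟩
      · have h3 := one a b'
        subst h3
        have h4 : i' = 0 := by omega
        subst h4
        exact h1
      · omega
    have g4 := Dig.prod (dig_jet (I := {c 0}) (k := c 1) (j := 0) (w := (w' : ℝ) + s)
      (p := U w') (le_refl (U j''))) (dig_qAJ (I := {c 0}) (ι := c 1) (k := c 2) (j := 0)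
      (w := (w' : ℝ) + s) (p := U w' + g') (le_refl (U j'' + g')))
    rw [sub_self, sub_self, zero_mul, zero_add, ← i2] at g4
    exact FewC.of hpos one_pos (Few.pair hpos (Few.fst hpos g1) g3) g4
  have key := low_nrj (b := b) hpos hyy hb w1.le h rx rx' (xA j) (xA j'') (xD l) f1 f5
  rw [sub_zero, sub_zero] at key
  exact key

end

end Pool.D2F2
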