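import Pool.Agent.H4.D2.Vfn
import Pool.Agent.H71.CDX.Cdl
import Pool.Agent.H96.AVG.Vla

/-!
# Lower bounds given the labels of an earlier window

`Upg`: a code with more digits over the same label. `few_aff`: the orders `≥ 2` over a label of
degree at most one. `low_nrj`: a lower bound for codes over the labels of an earlier window, from the
numbers at a later window.
-/

set_option autoImplicit false

namespace Pool.D2F2

open Finset Real MvPolynomial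
open Pool.Agent.H49.Ent Pool.Agent.H32.Dense Pool.STK Pool.KA Pool.KSAT Pool.K2S Pool.PB Pool.GEN
open Pool.S6C Pool.LA91 Pool.RCD
open Pool.AVG96 (LowN)
open Pool.CDX (AffL F1_aff)

section

variable {m : ℕ} {W₁ W₂ W₃ U U' V V' : Type} {α β γ γ' : ∀ J : ℕ, Fam m J → Type}
  {f : ∀ (J : ℕ) (F : Fam m J), F.Ω → α J F} {g : ∀ (J : ℕ) (F : Fam m J), F.Ω → β J F}
  {y : ∀ (J : ℕ) (F : Fam m J), F.Ω → γ J F} {y' : ∀ (J : ℕ) (F : Fam m J), F.Ω → γ' J F}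
  {S : PCl m}

/-- **A code with more digits** over the same label. -/
def Upg (Q : Qt m U) (Q' : Qt m U') (c d : ℝ) : Prop :=
  ∃ K₁ : ℕ, ∀ (K : ℕ) (e : ℝ) (J : ℕ) (F : Fam m J) (A : F.Ω → Prop) (b : F.Ω → U), 1 ≤ J →
    Q.P K e J F A b → ∃ a : F.Ω → U', Q'.P (K + K₁) e J F A a ∧
      ∀ q : F.Ω → ℝ, IsLaw q → (∀ ω, 0 < q ω → A ω) → CH q a b ≤ c * J + d

/-- More digits of a jet. -/
theorem upg_jet {I : Finset (Fin m)} {k : Fin m} {j : ℕ} {w p N M : ℝ} (hNM : N ≤ M) :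
    Upg (qJet m I k j w p N) (qJet m I k j w p M) ((M - N) * Real.log 2) 3 := by
  refine ⟨⌈M - N⌉₊ + 2, ?_⟩
  intro K e J F A b hJ hb
  have hJ0 : (0 : ℝ) ≤ J := Nat.cast_nonneg J
  have hJ1 : (1 : ℝ) ≤ J := by exact_mod_cast hJ
  have hNJ : N * J ≤ M * J := mul_le_mul_of_nonneg_right hNM hJ0
  obtain ⟨hc, V, z, z', G, hl, hu⟩ := hb
  obtain ⟨h, hh⟩ : ∃ h : F.Ω → ℝ, h = fun ω => ojet F k j (G (z' (slam F ⌊w * J⌋₊ ω))) ω :=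
    ⟨_, rfl⟩
  have hu' : ∀ ω, A ω → b ω = ⌊(2 : ℝ) ^ (N * J) * h ω⌋ := fun ω hω => by
    rw [hu ω hω, hh]
  obtain ⟨L, hL⟩ : ∃ L : ℝ, L = (2 : ℝ) ^ ((M - N) * J) := ⟨_, rfl⟩
  have hL1 : 1 ≤ L := by
    rw [hL]
    exact Real.one_le_rpow (by norm_num) (mul_nonneg (by linarith) hJ0)
  have h2 : ∀ ω, (2 : ℝ) ^ (M * J) * h ω = L * ((2 : ℝ) ^ (N * J) * h ω) := fun ω => by
    rw [hL, ← mul_assoc, ← Real.rpow_add two_pos]
    congr 2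
    ring
  obtain ⟨r, hr⟩ : ∃ r : F.Ω → ℤ, r = fun ω => ⌊(2 : ℝ) ^ (M * J) * h ω⌋ - ⌊L * b ω⌋ := ⟨_, rfl⟩
  have c1 : (cnt F.p r A : ℝ) ≤ 2 * (L + 1) + 1 := by
    refine cnt_le_of_abs (by linarith) fun ω hω => ?_
    have a1 := Int.floor_le ((2 : ℝ) ^ (N * J) * h ω)
    have a2 := Int.lt_floor_add_one ((2 : ℝ) ^ (N * J) * h ω)
    rw [← hu' ω hω] at a1 a2
    have b1 := Int.floor_le ((2 : ℝ) ^ (M * J) * h ω)
    have b2 := Int.lt_floor_add_one ((2 : ℝ) ^ (M * J) * h ω)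
    have b3 := Int.floor_le (L * b ω)
    have b4 := Int.lt_floor_add_one (L * b ω)
    rw [h2] at b1 b2
    have d1 := mul_le_mul_of_nonneg_left a1 (by linarith : 0 ≤ L)
    have d2 := mul_le_mul_of_nonneg_left a2.le (by linarith : 0 ≤ L)
    rw [hr]
    simp only
    push_cast
    rw [h2, abs_le]
    constructor <;> linarith
  have c2 : cnt F.p (fun ω => ⌊(2 : ℝ) ^ (M * J) * h ω⌋) A ≤ cnt F.p b A * cnt F.p r A :=
    (cnt_comp_le F.p (fun ω => (b ω, r ω)) _ (fun x => x.2 + ⌊L * x.1⌋) fun ω _ hω => by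
      rw [hr]
      simp only
      ring).trans (cnt_pair F.p b r A)
  have c3 : 2 * (L + 1) + 1 ≤ Real.exp (((⌈M - N⌉₊ + 2 : ℕ) : ℝ) * J) := by
    have e1 : (5 : ℝ) ≤ Real.exp (2 * J) := by
      have h4 : (2.7 : ℝ) ≤ Real.exp 1 := by
        have := Real.exp_one_gt_d9
        linarith
      have h5 : Real.exp 1 * Real.exp 1 ≤ Real.exp (2 * J) := by
        rw [← Real.exp_add]
        exact Real.exp_le_exp.2 (by linarith)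
      nlinarith
    have e2 : L ≤ Real.exp ((⌈M - N⌉₊ : ℝ) * J) := by
      have h6 : L = Real.exp ((M - N) * J * Real.log 2) := by
        rw [hL, Real.rpow_def_of_pos two_pos]
        congr 1
        ring
      rw [h6]
      refine Real.exp_le_exp.2 ?_
      have h7 : Real.log 2 ≤ 1 := by
        have := Real.log_two_lt_d9
        linarith
      have h8 : (M - N) * J * Real.log 2 ≤ (M - N) * J * 1 :=
        mul_le_mul_of_nonneg_left h7 (mul_nonneg (by linarith) hJ0)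
      have h9 := mul_le_mul_of_nonneg_right (Nat.le_ceil (M - N)) hJ0
      linarith
    have e3 : Real.exp (((⌈M - N⌉₊ + 2 : ℕ) : ℝ) * J) =
        Real.exp ((⌈M - N⌉₊ : ℝ) * J) * Real.exp (2 * J) := by
      rw [← Real.exp_add]
      congr 1
      push_cast
      ring
    rw [e3]
    have e4 : L * 5 ≤ Real.exp ((⌈M - N⌉₊ : ℝ) * J) * Real.exp (2 * J) :=
      mul_le_mul e2 e1 (by norm_num) (Real.exp_pos _).le
    linarith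
  refine ⟨fun ω => ⌊(2 : ℝ) ^ (M * J) * h ω⌋, ⟨?_, V, z, z', G, ?_, fun ω _ => ?_⟩, ?_⟩
  · have h3 : (cnt F.p (fun ω => ⌊(2 : ℝ) ^ (M * J) * h ω⌋) A : ℝ) ≤
        (cnt F.p b A : ℝ) * cnt F.p r A := by exact_mod_cast c2
    have h4 : Real.exp (((K + (⌈M - N⌉₊ + 2) : ℕ) : ℝ) * J) =
        Real.exp (K * J) * Real.exp (((⌈M - N⌉₊ + 2 : ℕ) : ℝ) * J) := by
      rw [← Real.exp_add]
      congr 1
      push_cast
      ring
    rw [h4]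
    exact h3.trans (mul_le_mul hc (c1.trans c3) (Nat.cast_nonneg _) (Real.exp_pos _).le)
  · exact hl.mono (Finset.Subset.refl _) (Nat.le_add_right K _) le_rfl
  · rw [hh]
  · intro q hq hqA
    exact ch_dig hq h b hNJ (fun ω ω' hω hω' hz => by
      rw [← hu' ω (hqA ω hω), ← hu' ω' (hqA ω' hω'), hz])

theorem Upg.prod {Q₁ : Qt m U} {Q₁' : Qt m U'} {Q₂ : Qt m V} {Q₂' : Qt m V'} {c₁ c₂ d₁ d₂ : ℝ}
    (h₁ : Upg Q₁ Q₁' c₁ d₁) (h₂ : Upg Q₂ Q₂' c₂ d₂) :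
    Upg (Q₁.prod Q₂) (Q₁'.prod Q₂') (c₁ + c₂) (d₁ + d₂) := by
  obtain ⟨K₁, h₁⟩ := h₁
  obtain ⟨K₂, h₂⟩ := h₂
  refine ⟨K₁ + K₂, fun K e J F A b hJ hb => ?_⟩
  obtain ⟨a₁, x1, x2⟩ := h₁ K e J F A (fun ω => (b ω).1) hJ hb.1
  obtain ⟨a₂, y1, y2⟩ := h₂ K e J F A (fun ω => (b ω).2) hJ hb.2
  refine ⟨fun ω => (a₁ ω, a₂ ω), ⟨Q₁'.mono (by omega) le_rfl x1, Q₂'.mono (by omega) le_rfl y1⟩,
    fun q hq hqA => ?_⟩
  have s1 := CH_subadd hq.nonneg a₁ a₂ b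
  have s2 : CH q a₁ b ≤ CH q a₁ (fun ω => (b ω).1) :=
    CH_mono_cond hq.nonneg fun ω ω' _ _ hh => (Prod.ext_iff.mp hh).1
  have s3 : CH q a₂ b ≤ CH q a₂ (fun ω => (b ω).2) :=
    CH_mono_cond hq.nonneg fun ω ω' _ _ hh => (Prod.ext_iff.mp hh).2
  have s4 := x2 q hq hqA
  have s5 := y2 q hq hqA
  linarith

/-- **Fewer digits of the target** of a lower bound. -/
theorem LowN.upg
    (hpos : ∀ (τ : ℝ) (J : ℕ) (F : Fam m J) (A : F.Ω → Prop), S.St τ J F A → 0 < Pe F.p A)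
    {Q₀ : Qt m V} {Q : Qt m U} {Q' : Qt m U'} {θ c d : ℝ} (h : LowN S f g y Q₀ Q' θ)
    (hd : Upg Q Q' c d) : LowN S f g y Q₀ Q (θ - c) := by
  obtain ⟨K₁, hd⟩ := hd
  intro x hx
  obtain ⟨k, hk, e, he, H⟩ := h (x / 2) (half_pos hx)
  refine ⟨k, hk, e, he, fun K => ?_⟩
  refine Bas.mono (max 1 ⌈2 * d / x⌉₊) ((H (K + K₁)).and (pos_bas hpos)) ?_
  rintro J hJ F A ⟨H, hA⟩ V z hz u₀ u hu₀ hu
  have hJ1 : 1 ≤ J := (le_max_left _ _).trans hJ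
  have hJd : d ≤ x / 2 * J := by
    have h1 : 2 * d / x ≤ J := Nat.ceil_le.1 ((le_max_right _ _).trans hJ)
    rw [div_le_iff₀ hx] at h1
    linarith
  have hcl := isLaw_cond F.isLaw hA
  obtain ⟨a, ha1, ha2⟩ := hd K e J F A u hJ1 hu
  have s1 := H V z hz u₀ a (Q₀.mono (Nat.le_add_right K K₁) le_rfl hu₀) ha1
  have s2 := ha2 _ hcl fun ω hω => of_cond_pos hω
  have s3 := CH_le_add hcl.nonneg a u (fun ω => (z ω, (u₀ ω, y J F ω)))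
  have s4 : CH (Pool.Agent.H49.Ent.cond F.p A True) a
      (fun ω => (u ω, (z ω, (u₀ ω, y J F ω)))) ≤
      CH (Pool.Agent.H49.Ent.cond F.p A True) a u :=
    CH_mono_cond hcl.nonneg fun ω ω' _ _ hh => (Prod.ext_iff.mp hh).1
  linarith

/-- **The jet of order `≥ 2` over an affine label is no information.** -/
theorem few_aff {C₀ : ℝ} (htm : TmC S C₀) {I : Finset (Fin m)} {k : Fin m} {j : ℕ} {b p N : ℝ}
    (hA : AffL S I k b p) (hj : 2 ≤ j) {Q : Qt m U} {Q' : Qt m U'}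
    (h : Few S f g y (Q.prod (qJet m I k j b p N)) Q') : Few S f g y Q Q' := by
  intro x hx
  obtain ⟨e, he, H⟩ := h x hx
  exact ⟨e, he, F1_aff htm hA hj he H⟩

/-- **A lower bound over the labels of an earlier window** `b`, from the numbers at the window
`x`. -/
theorem low_nrj
    (hpos : ∀ (τ : ℝ) (J : ℕ) (F : Fam m J) (A : F.Ω → Prop), S.St τ J F A → 0 < Pe F.p A)
    (hyy : ∀ (J : ℕ) (F : Fam m J) (ω ω' : F.Ω), y J F ω = y J F ω' → y' J F ω = y' J F ω')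
    {QA : Qt m W₁} {QB : Qt m W₂} {QD : Qt m W₃} {Q₀ : Qt m U} {Q : Qt m V}
    {b x x' θ c1 c5 : ℝ} (hbx : b ≤ x) (hx : x ≤ 1)
    (h : NrJ S f y QA QB QD x x' θ 1) (rx : ∃ η, RNum S f (vg x) η)
    (rx' : ∃ η, RNum S f (vg x') η) (xA : Exs S QA) (xB : Exs S QB) (xD : Exs S QD)
    (f1 : FewC S f (vg x) y (QA.prod QD) Q₀ c1 1) (f5 : FewC S f (vg x) y Q QB c5 1) :
    LowN S f (vg b) y' Q₀ Q (θ - c1 - c5) := by
  intro η hη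
  obtain ⟨ε, hε⟩ : ∃ ε : ℝ, ε = η / 4 := ⟨_, rfl⟩
  have hε0 : 0 < ε := by rw [hε]; positivity
  obtain ⟨k0, hk0, e0, he0, H0⟩ := h
  obtain ⟨k1, hk1, e1, he1, H1⟩ := f1 ε hε0
  obtain ⟨k5, hk5, e5, he5, H5⟩ := f5 ε hε0
  obtain ⟨k, hk, l0, l1, l5, l6⟩ : ∃ k : ℝ, 0 < k ∧ k ≤ k0 ∧ k ≤ k1 ∧ k ≤ k5 ∧ k ≤ ε := by
    refine ⟨min (min k0 k1) (min k5 ε), by positivity, ?_, ?_, ?_, ?_⟩
    · exact (min_le_left _ _).trans (min_le_left _ _)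
    · exact (min_le_left _ _).trans (min_le_right _ _)
    · exact (min_le_right _ _).trans (min_le_left _ _)
    · exact (min_le_right _ _).trans (min_le_right _ _)
  obtain ⟨e', he', m0, m1, m5⟩ : ∃ e' : ℝ, 0 < e' ∧ e' ≤ e0 ∧ e' ≤ e1 ∧ e' ≤ e5 := by
    refine ⟨min e0 (min e1 e5), by positivity, min_le_left _ _, ?_, ?_⟩
    · exact (min_le_right _ _).trans (min_le_left _ _)
    · exact (min_le_right _ _).trans (min_le_right _ _)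
  obtain ⟨KA, MA, XA⟩ := xA e' he'
  obtain ⟨KB, MB, XB⟩ := xB e' he'
  obtain ⟨KD, MD, XD⟩ := xD e' he'
  obtain ⟨η1, r1⟩ := rx
  obtain ⟨η2, r2⟩ := rx'
  refine ⟨k, hk, e', he', fun K => ?_⟩
  obtain ⟨L, n0, n1, n2, n3⟩ : ∃ L : ℕ, K ≤ L ∧ KA ≤ L ∧ KB ≤ L ∧ KD ≤ L :=
    ⟨max K (max KA (max KB KD)), le_max_left _ _, (le_max_left _ _).trans (le_max_right _ _),
      (le_max_left _ _).trans ((le_max_right _ _).trans (le_max_right _ _)),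
      (le_max_right _ _).trans ((le_max_right _ _).trans (le_max_right _ _))⟩
  refine Bas.mono 0 (((H0 L).and ((H1 L).and (H5 L))).and
    (((XA.and XB).and (XD.and (mx_ex hpos r1 k hk))).and
    ((mx_ex hpos r2 k hk).and (pos_bas hpos)))) ?_
  rintro J - F A ⟨⟨H0, H1, H5⟩, ⟨⟨⟨a₀, ha₀, -⟩, b₀, hb₀, -⟩, ⟨d₀, hd₀, -⟩, Rx, Zx, hZx⟩,
    ⟨Rj, Zj, hZj⟩, hA⟩ V z hz u₀ u hu₀ hu
  have hcl := isLaw_cond F.isLaw hA
  have h0 := hcl.nonneg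
  have hJ0 : (0 : ℝ) ≤ J := Nat.cast_nonneg J
  have hAA : Sub A A := fun _ h => h
  have hc1 : (1 : ℝ) * Pe F.p A ≤ Pe F.p A := by rw [one_mul]
  have t0 := H0 Rx Rj Zx Zj (hZx.le' l0) (hZj.le' l0) a₀ b₀ d₀ (QA.mono n1 m0 ha₀)
    (QB.mono n2 m0 hb₀) (QD.mono n3 m0 hd₀) A hAA hc1
  have t1 := H1 Rx Zx (hZx.le' l1) (fun ω => (a₀ ω, d₀ ω)) u₀
    ⟨QA.mono n1 m1 ha₀, QD.mono n3 m1 hd₀⟩ (Q₀.mono n0 m1 hu₀) A hAA hc1
  have t5 := H5 Rx Zx (hZx.le' l5) u b₀ (Q.mono n0 m5 hu) (QB.mono n2 m5 hb₀) A hAA hc1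
  have t6 : CH (Pool.Agent.H49.Ent.cond F.p A True) z Zx ≤ ε * J :=
    (hZx.2 V z (Pool.OWN68.cl2_vg hbx hx hz.1)).trans (mul_le_mul_of_nonneg_right l6 hJ0)
  obtain ⟨q, hq⟩ : ∃ q, q = Pool.Agent.H49.Ent.cond F.p A True := ⟨_, rfl⟩
  rw [← hq] at t0 t1 t5 t6 h0 ⊢
  obtain ⟨C₀, hC₀⟩ : ∃ C₀ : F.Ω → _, C₀ = fun ω => (a₀ ω, (d₀ ω, (Zj ω, (Zx ω, y J F ω)))) :=
    ⟨_, rfl⟩
  have hC : ∀ ω ω', C₀ ω = C₀ ω' → a₀ ω = a₀ ω' ∧ d₀ ω = d₀ ω' ∧ Zx ω = Zx ω' ∧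
      y J F ω = y J F ω' := fun ω ω' hh => by
    rw [hC₀] at hh
    simp only [Prod.mk.injEq] at hh
    exact ⟨hh.1, hh.2.1, hh.2.2.2.1, hh.2.2.2.2⟩
  rw [← hC₀] at t0
  have mc : ∀ {T C D : Type} (x : F.Ω → T) (s : F.Ω → C) (t : F.Ω → D), (∀ ω ω', t ω = t ω' →
      s ω = s ω') → CH q x t ≤ CH q x s := fun x s t h =>
    CH_mono_cond h0 fun ω ω' _ _ hh => h ω ω' hh
  have k0 := CH_le_add h0 b₀ u₀ C₀
  have k1 := mc u₀ (fun ω => ((a₀ ω, d₀ ω), (Zx ω, y J F ω))) C₀ fun ω ω' hh => by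
    obtain ⟨g1, g2, g3, g4⟩ := hC ω ω' hh
    simp only [Prod.mk.injEq]
    exact ⟨⟨g1, g2⟩, g3, g4⟩
  have k2 := CH_le_add h0 b₀ z (fun ω => (u₀ ω, C₀ ω))
  have k3 := mc z Zx (fun ω => (u₀ ω, C₀ ω)) fun ω ω' hh => (hC ω ω' (Prod.ext_iff.mp hh).2).2.2.1
  have k4 := CH_le_add h0 b₀ u (fun ω => (z ω, (u₀ ω, C₀ ω)))
  have k5 := mc b₀ (fun ω => (u ω, (Zx ω, y J F ω))) (fun ω => (u ω, (z ω, (u₀ ω, C₀ ω))))
    fun ω ω' hh => by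
      simp only [Prod.mk.injEq] at hh ⊢
      obtain ⟨g1, g2, g3, g4⟩ := hC ω ω' hh.2.2.2
      exact ⟨hh.1, g3, g4⟩
  have k6 := mc u (fun ω => (z ω, (u₀ ω, y' J F ω))) (fun ω => (z ω, (u₀ ω, C₀ ω)))
    fun ω ω' hh => by
      simp only [Prod.mk.injEq] at hh ⊢
      obtain ⟨g1, g2, g3, g4⟩ := hC ω ω' hh.2.2
      exact ⟨hh.1, hh.2.1, hyy J F ω ω' g4⟩
  have s0 : (0 : ℝ) ≤ ε * J := mul_nonneg hε0.le hJ0
  have hee : η = 4 * ε := by rw [hε]; ring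
  have q1 : (θ - c1 - c5 - η) * J = θ * J - (c1 + ε) * J - (c5 + ε) * J - ε * J - ε * J := by
    rw [hee]
    ring
  rw [q1]
  linarith

end

end Pool.D2F2
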