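import Pool.Agent.H4.D2.Vfn

/-!
# The moved place is full, near a window

`VuAt`: the near digits of the second coordinate given the near path of the first one, at all real
windows near `g`. `vf_at`: from the numbers near `g` (`CrN`) and the chains at the windows.
-/

set_option autoImplicit false

namespace Pool.D2F2

open Finset Real MvPolynomial
open Pool.Agent.H49.Ent Pool.Agent.H32.Dense Pool.STK Pool.KA Pool.KSAT Pool.K2S Pool.PB Pool.GEN
open Pool.S6C Pool.LA91 Pool.RCD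
open Pool.OWN17 (yF kn_yF)

variable {m : ℕ}

/-- **The near digits of `c 2` given the near path of `c 1` over `c 0`** at the windows near `g`:
`L₁` and `L₂` are the precisions of the labels of `c 1` and of `c 2`, `μ` the room. -/
def VuAt (S : PCl m) (c : ℕ → Fin m) (L₁ L₂ : ℝ → ℝ) (g : ℝ) : Prop :=
  ∀ C e μ : ℝ, 0 ≤ C → 0 < e → 0 < μ → ∃ κ : ℝ, 0 < κ ∧ ∃ i₀ : ℕ, ∀ i ≥ i₀, ∃ ρ : ℝ, 0 < ρ ∧
    ∀ R : ℝ, 0 < R → R < ρ → ∀ w j : ℝ, g - R ≤ w → w ≤ j → j ≤ g + R →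
    ∀ (pv Nv : ℕ → ℕ → ℝ) (q p N₁ N₁' Na Nb Nd : ℝ), pv 1 0 = q → pv 1 1 = q → Nv 1 0 = N₁ →
    Nv 1 1 = N₁' → L₁ w - C * R ≤ q → L₂ w - κ * R ≤ p → N₁ ≤ L₁ w + C * R →
    N₁' + w ≤ L₁ w + C * R → L₁ w + μ * R ≤ N₁' + w → L₂ j ≤ Na + κ * R → Na ≤ Nb →
    Nb + μ * R ≤ L₂ w + (N₁ - L₁ w) → Nd + w + μ * R ≤ L₂ w + (N₁ - L₁ w) →
    Nd + w + μ * R ≤ L₂ w + (N₁' + w - L₁ w) → ∀ c₀ : ℝ, 0 < c₀ →
    VfP S (fun J F => ptr F J) (fun J F => yF F (c 0) ⌊(1 / 2 : ℝ) ^ i * J⌋₊)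
      (qJets m c 1 2 1 (fun _ _ => w) pv Nv) (qJet m ((range 2).image c) (c 2) 0 w p Na)
      (qJet m ((range 2).image c) (c 2) 0 w p Nb) (qJet m ((range 2).image c) (c 2) 1 w p Nd)
      w j ((Nb - Na) * Real.log 2 - e * R) c₀

theorem VuAt.sub {S S' : PCl m} (hs : ∀ (τ : ℝ) (J : ℕ) (F : Fam m J) (A : F.Ω → Prop),
    S'.St τ J F A → S.St τ J F A) {c : ℕ → Fin m} {L₁ L₂ : ℝ → ℝ} {g : ℝ}
    (h : VuAt S c L₁ L₂ g) : VuAt S' c L₁ L₂ g := by
  intro C e μ hC he hμ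
  obtain ⟨κ, hκ, i₀, h⟩ := h C e μ hC he hμ
  refine ⟨κ, hκ, i₀, fun i hi => ?_⟩
  obtain ⟨ρ, hρ, h⟩ := h i hi
  refine ⟨ρ, hρ, fun R a1 a2 w j a3 a4 a5 pv Nv q p N₁ N₁' Na Nb Nd b1 b2 b3 b4 b5 b6 b7 b8 b9 d1
    d2 d3 d4 d5 c₀ hc₀ => ?_⟩
  exact (h R a1 a2 w j a3 a4 a5 pv Nv q p N₁ N₁' Na Nb Nd b1 b2 b3 b4 b5 b6 b7 b8 b9 d1 d2 d3 d4
    d5 c₀ hc₀).sub hs

/-- **The moved place is full near a window**, from the numbers. -/
theorem vf_at {S : PCl m} {C₀ : ℝ} (htm : TmC S C₀)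
    (hpos : ∀ (τ : ℝ) (J : ℕ) (F : Fam m J) (A : F.Ω → Prop), S.St τ J F A → 0 < Pe F.p A)
    {c : ℕ → Fin m} {s : ℝ} {U D : ℚ → ℝ} {A B g Sl : ℝ} {L₁ L₂ : ℝ → ℝ}
    (hW : WinG S {c 0} (c 1) (c 2) {q : ℚ | A < q ∧ (q : ℝ) < B} s U D)
    (hR : ∀ q : ℚ, A < q → (q : ℝ) < B →
      ∃ η, RNum S (fun J F => ptr F J) (vg ((q : ℝ) + s)) η)
    (hCh : ∀ q : ℚ, A < q → (q : ℝ) < B → ∃ (u₁ : ℝ) (sX rX : ℕ → ℝ),
      Chn S c 1 2 ((q : ℝ) + s) ((q : ℝ) + s) u₁ sX rX ∧ sX 1 = U q)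
    (hU : ∀ q : ℚ, A < q → (q : ℝ) < B → U q = L₁ ((q : ℝ) + s))
    (hD : ∀ q : ℚ, A < q → (q : ℝ) < B → D q = L₂ ((q : ℝ) + s))
    (hA : A < g - s) (hB : g - s < B) (g1 : g < 1) (hSl : 1 < Sl) (h1 : HasDerivAt L₁ Sl g)
    (h2 : HasDerivAt L₂ Sl g) (hC : CrN S (c 0) (c 1) (c 2) s U (g - s) (L₂ g - L₁ g) Sl) :
    VuAt S c L₁ L₂ g := by
  intro C e μ hC0 he hμ
  obtain ⟨e1, he1, he1e, he11, he1μ⟩ : ∃ e1 : ℝ, 0 < e1 ∧ e1 ≤ e ∧ e1 ≤ 1 ∧ e1 ≤ 8 * μ :=
    ⟨min (min e 1) (8 * μ), lt_min (lt_min he one_pos) (by positivity),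
      (min_le_left _ _).trans (min_le_left _ _), (min_le_left _ _).trans (min_le_right _ _),
      min_le_right _ _⟩
  obtain ⟨a, ha⟩ : ∃ a : ℝ, a = (C + 2) / (Sl - 1) := ⟨_, rfl⟩
  have hSl1 : 0 < Sl - 1 := by linarith
  have ha0 : 0 < a := by
    rw [ha]
    exact div_pos (by linarith) hSl1
  have ha' : a * (Sl - 1) = C + 2 := by
    rw [ha]
    exact div_mul_cancel₀ _ hSl1.ne'
  obtain ⟨T, hT⟩ : ∃ T : ℝ, T = a + 3 := ⟨_, rfl⟩
  have hT0 : 0 < T := by rw [hT]; linarith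
  obtain ⟨e', he'⟩ : ∃ e' : ℝ, e' = e1 / (1000 * T) := ⟨_, rfl⟩
  have he'0 : 0 < e' := by rw [he']; positivity
  obtain ⟨i₀, hC⟩ := hC e' he'0
  refine ⟨e1 / 16, by positivity, i₀, fun i hi => ?_⟩
  obtain ⟨r₀, hr₀, hC⟩ := hC i hi
  obtain ⟨r₁, hr₁, k1⟩ := lin_near h1 (ε := e' / 100) (by positivity)
  obtain ⟨r₂, hr₂, k2⟩ := lin_near h2 (ε := e' / 100) (by positivity)
  obtain ⟨M0, hM0⟩ : ∃ M0 : ℝ, M0 = min ((1 / 2 : ℝ) ^ i) ((1 - g) / 2) := ⟨_, rfl⟩
  have hM00 : 0 < M0 := by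
    rw [hM0]
    exact lt_min (by positivity) (by linarith)
  obtain ⟨d, hd0, hd1, hd2, hd3, hd4, hd5, hd6⟩ : ∃ d : ℝ, 0 < d ∧ d ≤ r₀ ∧ d ≤ r₁ ∧ d ≤ r₂ ∧
      d ≤ g - s - A ∧ d ≤ B - (g - s) ∧ d ≤ (1 - g) / 2 := by
    refine ⟨min (min (min r₀ r₁) (min r₂ (g - s - A))) (min (B - (g - s)) ((1 - g) / 2)),
      lt_min (lt_min (lt_min hr₀ hr₁) (lt_min hr₂ (by linarith)))
        (lt_min (by linarith) (by linarith)), ?_, ?_, ?_, ?_, ?_, ?_⟩
    · exact (min_le_left _ _).trans ((min_le_left _ _).trans (min_le_left _ _))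
    · exact (min_le_left _ _).trans ((min_le_left _ _).trans (min_le_right _ _))
    · exact (min_le_left _ _).trans ((min_le_right _ _).trans (min_le_left _ _))
    · exact (min_le_left _ _).trans ((min_le_right _ _).trans (min_le_right _ _))
    · exact (min_le_right _ _).trans (min_le_left _ _)
    · exact (min_le_right _ _).trans (min_le_right _ _)
  obtain ⟨Q, hQ⟩ : ∃ Q : ℝ, Q = 4 * Sl + 2 * C + 10 := ⟨_, rfl⟩
  have hQ0 : 0 < Q := by rw [hQ]; linarith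
  refine ⟨min (d / T) (M0 / Q), lt_min (by positivity) (by positivity), ?_⟩
  intro R hR0 hRr w j hw hwj hj pv Nv q p N₁ N₁' Na Nb Nd v1 v2 v3 v4 c1 c2 c3 c4 c5 c6 c7 c8 c9
    c10 c₀ hc₀
  have hTR : T * R < d := by
    have : R < d / T := lt_of_lt_of_le hRr (min_le_left _ _)
    rw [lt_div_iff₀ hT0] at this
    linarith
  have hQR : Q * R < M0 := by
    have : R < M0 / Q := lt_of_lt_of_le hRr (min_le_right _ _)
    rw [lt_div_iff₀ hQ0] at this
    linarith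
  obtain ⟨η, hη⟩ : ∃ η : ℝ, η = e1 * R / 100000 := ⟨_, rfl⟩
  have hη0 : 0 < η := by rw [hη]; positivity
  have hηR : 100000 * η ≤ R := by
    rw [hη]
    have := mul_le_mul_of_nonneg_right he11 hR0.le
    linarith
  have hκ : e1 / 16 * R = 6250 * η := by rw [hη]; ring
  have hμR : 12500 * η ≤ μ * R := by
    rw [hη]
    have := mul_le_mul_of_nonneg_right he1μ hR0.le
    linarith
  have heR : 100000 * η ≤ e * R := by
    rw [hη]
    have := mul_le_mul_of_nonneg_right he1e hR0.le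
    linarith
  have hTR0 : 0 < T * R := mul_pos hT0 hR0
  have he'r : e' * (T * R) = 100 * η := by
    rw [he', hη]
    field_simp
    ring
  have hεr : e' / 100 * (T * R) = η := by
    have : e' / 100 * (T * R) = e' * (T * R) / 100 := by ring
    rw [this, he'r]
    ring
  rw [hκ] at c2 c6
  -- the precisions near the window
  have k1' : ∀ x : ℝ, |x - g| ≤ T * R → L₁ g + Sl * (x - g) - η ≤ L₁ x ∧
      L₁ x ≤ L₁ g + Sl * (x - g) + η := fun x hx => by
    have := k1 (T * R) hTR0 (by linarith) x hx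
    rw [hεr] at this
    obtain ⟨h3, h4⟩ := abs_le.1 this
    constructor <;> linarith
  have k2' : ∀ x : ℝ, |x - g| ≤ T * R → L₂ g + Sl * (x - g) - η ≤ L₂ x ∧
      L₂ x ≤ L₂ g + Sl * (x - g) + η := fun x hx => by
    have := k2 (T * R) hTR0 (by linarith) x hx
    rw [hεr] at this
    obtain ⟨h3, h4⟩ := abs_le.1 this
    constructor <;> linarith
  have hTR' : T * R = a * R + 3 * R := by rw [hT]; ring
  have haR0 : 0 < a * R := mul_pos ha0 hR0
  have haSR : Sl * (a * R) = C * R + 2 * R + a * R := by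
    have : Sl * (a * R) = a * (Sl - 1) * R + a * R := by ring
    rw [this, ha']
    ring
  have hCR0 : 0 ≤ C * R := mul_nonneg hC0 hR0.le
  -- the small step
  obtain ⟨δ, hδ⟩ : ∃ δ : ℝ, δ = η / Sl := ⟨_, rfl⟩
  have hSl0 : 0 < Sl := by linarith
  have hδ0 : 0 < δ := by rw [hδ]; positivity
  have hSδ : Sl * δ = η := by rw [hδ]; exact mul_div_cancel₀ _ hSl0.ne'
  have hδη : δ ≤ η := by
    rw [← hSδ]
    exact le_mul_of_one_le_left hδ0.le hSl.le
  have smul : ∀ {x x' : ℝ}, x ≤ x' → Sl * x ≤ Sl * x' := fun h =>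
    mul_le_mul_of_nonneg_left h hSl0.le
  have hww := k1' w (by rw [abs_le]; constructor <;> linarith)
  have hww2 := k2' w (by rw [abs_le]; constructor <;> linarith)
  have hjj2 := k2' j (by rw [abs_le]; constructor <;> linarith)
  obtain ⟨w', hw1, hw2⟩ := exists_rat_btwn (by linarith : w - s < w - s + δ)
  obtain ⟨j', hj1, hj2⟩ := exists_rat_btwn
    (max_lt (by linarith) (by linarith) : max (w' : ℝ) (j - s) < j - s + δ)
  have hj3 : (w' : ℝ) < j' := lt_of_le_of_lt (le_max_left _ _) hj1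
  have hj4 : j - s < j' := lt_of_le_of_lt (le_max_right _ _) hj1
  have hGw : A < (w' : ℝ) ∧ (w' : ℝ) < B := ⟨by linarith, by linarith⟩
  have hGj : A < (j' : ℝ) ∧ (j' : ℝ) < B := ⟨by linarith, by linarith⟩
  have hw'1 := k1' ((w' : ℝ) + s) (by rw [abs_le]; constructor <;> linarith)
  have hw'2 := k2' ((w' : ℝ) + s) (by rw [abs_le]; constructor <;> linarith)
  have hj'1 := k1' ((j' : ℝ) + s) (by rw [abs_le]; constructor <;> linarith)
  rw [← hU w' hGw.1 hGw.2] at hw'1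
  rw [← hD w' hGw.1 hGw.2] at hw'2
  rw [← hU j' hGj.1 hGj.2] at hj'1
  have s1 : Sl * (w - g) ≤ Sl * ((w' : ℝ) + s - g) := smul (by linarith)
  have s2 : Sl * ((w' : ℝ) + s - g) ≤ Sl * (w - g) + η := by
    have : Sl * ((w' : ℝ) + s - g) ≤ Sl * (w - g + δ) := smul (by linarith)
    rw [mul_add, hSδ] at this
    exact this
  have s3 : Sl * (j - g) ≤ Sl * ((j' : ℝ) + s - g) := smul (by linarith)
  have s4 : Sl * ((j' : ℝ) + s - g) ≤ Sl * (j - g) + η := by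
    have : Sl * ((j' : ℝ) + s - g) ≤ Sl * (j - g + δ) := smul (by linarith)
    rw [mul_add, hSδ] at this
    exact this
  have s5 : Sl * (j - g) ≤ Sl * R := smul (by linarith)
  have s6 : -(Sl * R) ≤ Sl * (w - g) := by
    have : Sl * (-R) ≤ Sl * (w - g) := smul (by linarith)
    linarith
  have s7 : Sl * (w - g) ≤ Sl * (j - g) := smul (by linarith)
  have hSR0 : 0 < Sl * R := mul_pos hSl0 hR0
  have hl0 : 0 < Real.log 2 := Real.log_pos one_lt_two
  have hl1 : Real.log 2 ≤ 7 / 10 := by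
    have := Real.log_two_lt_d9
    linarith
  obtain ⟨φ, hφ⟩ : ∃ φ : ℝ, φ = L₂ g - L₁ g := ⟨_, rfl⟩
  have hφ' : L₂ g = L₁ g + φ := by rw [hφ]; ring
  rw [hφ'] at k2' hww2 hjj2 hw'2
  rw [← hφ] at hC
  obtain ⟨t, ht⟩ : ∃ t : ℝ, t = g + (N₁ - 5 * η - L₁ g) / Sl := ⟨_, rfl⟩
  have hSt : Sl * (t - g) = N₁ - 5 * η - L₁ g := by
    rw [ht, add_sub_cancel_left]
    exact mul_div_cancel₀ _ hSl0.ne'
  rcases le_or_gt (t - s) (j' : ℝ) with hcase | hcase
  · -- nothing to prove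
    have s8 : Sl * (t - g) ≤ Sl * ((j' : ℝ) + s - g) := smul (by linarith)
    refine vfp_triv hpos hc₀ ?_
    have s9 : Nb - Na ≤ 0 := by linarith [hww.1, hww2.2, hjj2.1]
    have s10 : (Nb - Na) * Real.log 2 ≤ 0 := mul_nonpos_of_nonpos_of_nonneg s9 hl0.le
    linarith
  obtain ⟨j'', hp1, hp2⟩ := exists_rat_btwn
    (max_lt hcase (by linarith) : max (j' : ℝ) (t - s - δ) < t - s)
  have hp3 : (j' : ℝ) < j'' := lt_of_le_of_lt (le_max_left _ _) hp1
  have hp4 : t - s - δ < j'' := lt_of_le_of_lt (le_max_right _ _) hp1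
  have htw : t ≤ w + a * R := by
    by_contra hcon
    push Not at hcon
    have : Sl * (w + a * R - g) ≤ Sl * (t - g) := smul (by linarith)
    have h5 : Sl * (w + a * R - g) = Sl * (w - g) + Sl * (a * R) := by ring
    rw [h5, haSR, hSt] at this
    linarith [hww.2]
  obtain ⟨l, hl2, hl3⟩ := exists_rat_btwn (by linarith : w + a * R - s < w + a * R - s + δ)
  have hGp : A < (j'' : ℝ) ∧ (j'' : ℝ) < B := ⟨by linarith, by linarith⟩
  have hGl : A < (l : ℝ) ∧ (l : ℝ) < B := ⟨by linarith, by linarith⟩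
  have hp'1 := k1' ((j'' : ℝ) + s) (by rw [abs_le]; constructor <;> linarith)
  have hl'1 := k1' ((l : ℝ) + s) (by rw [abs_le]; constructor <;> linarith)
  rw [← hU j'' hGp.1 hGp.2] at hp'1
  rw [← hU l hGl.1 hGl.2] at hl'1
  have s12 : Sl * ((j'' : ℝ) + s - g) ≤ N₁ - 5 * η - L₁ g := by
    rw [← hSt]
    exact smul (by linarith)
  have s13 : N₁ - 5 * η - L₁ g - η ≤ Sl * ((j'' : ℝ) + s - g) := by
    have : Sl * (t - g - δ) ≤ Sl * ((j'' : ℝ) + s - g) := smul (by linarith)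
    rw [mul_sub, hSδ, hSt] at this
    exact this
  have s15 : Sl * ((j' : ℝ) + s - g) ≤ Sl * ((j'' : ℝ) + s - g) := smul (by linarith)
  have s14 : Sl * (w - g) + (C * R + 2 * R + a * R) ≤ Sl * ((l : ℝ) + s - g) := by
    have h5 : Sl * (w - g) + Sl * (a * R) = Sl * (w + a * R - g) := by ring
    rw [← haSR, h5]
    exact smul (by linarith)
  have hlu : Sl * ((l : ℝ) + s - g) - ((l : ℝ) + s) ≥ Sl * (w - g) - w + (C * R + 2 * R) := by
    have h5 : (Sl - 1) * (w + a * R) ≤ (Sl - 1) * ((l : ℝ) + s) :=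
      mul_le_mul_of_nonneg_left (by linarith) hSl1.le
    have h6 : (Sl - 1) * (w + a * R) = Sl * w - w + (C * R + 2 * R) := by
      have : (Sl - 1) * (w + a * R) = Sl * w - w + a * (Sl - 1) * R := by ring
      rw [this, ha']
      ring
    rw [h6] at h5
    linarith
  obtain ⟨g', hg1, hg2⟩ := exists_rat_btwn
    (by linarith : φ - 100 * η < φ - 25 * η)
  have hmm : Q * R < min ((1 / 2 : ℝ) ^ i) (1 - ((w' : ℝ) + s)) := by
    refine lt_of_lt_of_le hQR ?_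
    rw [hM0]
    exact min_le_min le_rfl (by linarith)
  obtain ⟨mm, hmm'⟩ : ∃ mm : ℝ, mm = min ((1 / 2 : ℝ) ^ i) (1 - ((w' : ℝ) + s)) := ⟨_, rfl⟩
  rw [← hmm'] at hmm
  have hQR' : Q * R = 4 * (Sl * R) + 2 * (C * R) + 10 * R := by rw [hQ]; ring
  rw [hQR'] at hmm
  -- the numbers
  have hnr := hC (T * R) hTR0 (by linarith) w' j' j'' l (by linarith)
    (by exact_mod_cast hj3.le) (by exact_mod_cast hp3)
    (by
      have : (j'' : ℝ) ≤ l := by linarith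
      exact_mod_cast this) (by linarith) g' (by rw [he'r]; linarith)
    (by
      have : e' / 4 * (T * R) = 25 * η := by
        have h6 : e' / 4 * (T * R) = e' * (T * R) / 4 := by ring
        rw [h6, he'r]
        ring
      rw [this]
      linarith) c₀ hc₀
  rw [he'r] at hnr
  have hu1 := hw'1.1
  have hu2 := hw'1.2
  have hu3 := hj'1.1
  have hu4 := hj'1.2
  have hu5 := hp'1.1
  have hu6 := hp'1.2
  have hu7 := hl'1.1
  have hv1 := hww.1
  have hv2 := hww.2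
  have hv3 := hww2.1
  have hv4 := hww2.2
  have hv5 := hjj2.1
  obtain ⟨u₁, sX, rX, hch, hsX⟩ := hCh w' hGw.1 hGw.2
  have hmA : min Na (U j' + g') ≤ U j' + g' := min_le_right _ _
  have hmA' : min Na (U j' + g') ≤ Na := min_le_left _ _
  -- the levels, up to `η`
  obtain ⟨Lw, hLw⟩ : ∃ Lw : ℝ, Lw = L₁ g + Sl * (w - g) := ⟨_, rfl⟩
  obtain ⟨Lj, hLj⟩ : ∃ Lj : ℝ, Lj = L₁ g + Sl * (j - g) := ⟨_, rfl⟩
  have f1 : U w' ≤ Lw + 2 * η := by rw [hLw]; linarith
  have f2 : Lw - η ≤ U w' := by rw [hLw]; linarith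
  have f3 : U j' ≤ Lj + 2 * η := by rw [hLj]; linarith
  have f4 : U j'' ≤ N₁ - 4 * η := by linarith
  have f5 : N₁ - 7 * η ≤ U j'' := by linarith
  have f6 : L₁ w ≤ Lw + η := by rw [hLw]; linarith
  have f7 : Lw - η ≤ L₁ w := by rw [hLw]; linarith
  have f8 : L₂ w ≤ Lw + φ + η := by rw [hLw]; linarith
  have f9 : Lw + φ - η ≤ L₂ w := by rw [hLw]; linarith
  have f10 : Lj + φ - η ≤ L₂ j := by rw [hLj]; linarith
  have f11 : Lj - Lw ≤ 2 * (Sl * R) := by rw [hLj, hLw]; linarith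
  have f12 : Lw ≤ Lj := by rw [hLj, hLw]; linarith
  have f13 : U j' - 2 * η ≤ U j'' := by linarith
  have f14 : Lw - w + (C * R + 2 * R) - η ≤ U l - (l + s) := by rw [hLw]; linarith
  have f15 : U w' ≤ N₁ - 2 * η := by
    have := hW.um w' hGw j'' hGp (by exact_mod_cast (hj3.trans hp3).le)
    have h5 : (w' : ℝ) < j'' := hj3.trans hp3
    linarith
  have key := vfp_num (u := c 1) (v := c 2) (x := c 0) (w := w) (j := j) (q := q) (p := p)
    (N₁ := N₁) (N₁' := N₁') (Na := Na) (Nb := Nb) (Nd := Nd) (j'' := j'') (l := l) (g' := g')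
    (σ₀ := η) (pv := pv) (Nv := Nv) (f := fun J F => ptr F J)
    (y := fun J F => yF F (c 0) ⌊(1 / 2 : ℝ) ^ i * J⌋₊) htm hpos (fun J F => ⟨id, fun _ => rfl⟩)
    (kn_yF (c 0) ((1 / 2 : ℝ) ^ i)) (by positivity) hW (w' := w') (j' := j') hGw hGj
    (by linarith [hw'2.1]) (hR w' hGw.1 hGw.2) (hR j' hGj.1 hGj.2) rfl rfl hch hsX v1 v2 v3 v4
    hc₀ hη0 hnr (by linarith) (by linarith) hmm' hη0
    (by
      rw [← sub_lt_iff_lt_add, lt_min_iff]
      constructor <;> linarith)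
    (by linarith)
    (by
      rw [← sub_lt_iff_lt_add, lt_min_iff]
      constructor <;> linarith)
    (by linarith)
    (by
      rw [← sub_lt_iff_lt_add, lt_min_iff]
      constructor <;> linarith)
    (by linarith)
    (by
      rw [← sub_le_iff_le_add, le_min_iff]
      constructor <;> linarith)
    (by linarith)
    (by
      rw [← sub_le_iff_le_add, le_min_iff]
      constructor <;> linarith)
    (by
      rw [← sub_le_iff_le_add, le_min_iff]
      constructor <;> linarith)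
    (by linarith)
    (by
      rw [← sub_le_iff_le_add, le_min_iff]
      constructor <;> linarith)
    (by
      rw [← sub_le_iff_le_add, le_min_iff]
      constructor <;> linarith)
    (by linarith)
    (by
      rw [← sub_le_iff_le_add, le_min_iff]
      constructor <;> linarith)
    (by
      rw [← sub_le_iff_le_add, le_min_iff]
      constructor <;> linarith)
    (by
      rw [← sub_le_iff_le_add, le_min_iff]
      constructor <;> linarith)
  -- the losses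
  have hsj : U j'' - U j' - 2 * η ≤ Sl * ((j'' : ℝ) - j') := by
    have : Sl * ((j'' : ℝ) - j') = Sl * ((j'' : ℝ) + s - g) - Sl * ((j' : ℝ) + s - g) := by ring
    rw [this]
    linarith
  have hm1 : U j' - 0 ≤ min N₁ (U j') := le_min (by linarith) (by linarith)
  have hm2 : U j' + g' - 6300 * η ≤ min Na (U j' + g') := le_min (by linarith) (by linarith)
  have hloss : (Nb - Na) - 6400 * η ≤ 2 * (Sl * ((j'' : ℝ) - j')) - (N₁ - min N₁ (U j')) -
      (Na - min Na (U j' + g')) - (U j'' + g' - Nb) := by linarith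
  have l1 := mul_le_mul_of_nonneg_right hloss hl0.le
  have l2 := mul_le_mul_of_nonneg_left hl1 (by positivity : 0 ≤ 6400 * η)
  exact key.le (by linarith)

end Pool.D2F2
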