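import Pool.Agent.H4.D2.Flm
import Pool.Agent.H4.D2.Vfs

/-!
# The places 1 and 2 are full behind their own paths, near a window

`FlAt`: the heights of the places 1 and 2 are full given the jets of both places of all orders, at
all real windows near `g`. `fl_at`: from the numbers near `g` (`CrN`) and the chains at the windows.
-/

set_option autoImplicit false

namespace Pool.D2F2

open Finset Real MvPolynomial
open Pool.Agent.H49.Ent Pool.Agent.H32.Dense Pool.STK Pool.KA Pool.KSAT Pool.K2S Pool.PB Pool.GEN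
open Pool.S6C Pool.LA91 Pool.RCD
open Pool.OWN17 (yF kn_yF)
open Pool.AVG96 (LowN)
open Pool.CDX (AffL)

variable {m : ℕ}

/-- **The places 1 and 2 are full behind their own paths** near `g`: `L₁`, `L₂` the precisions, the
affine labels are those of the class `S₀`. -/
def FlAt (S₀ S : PCl m) (c : ℕ → Fin m) (L₁ L₂ : ℝ → ℝ) (g : ℝ) : Prop :=
  ∀ (K : ℕ) (e C : ℝ), 0 < e → 0 < C → ∃ (i₀ : ℕ) (κ : ℝ), 0 < κ ∧ ∀ i ≥ i₀, ∃ ρ : ℝ, 0 < ρ ∧
    ∀ R : ℝ, 0 < R → R < ρ → ∀ b : ℝ, g - C * R ≤ b → b ≤ g + C * R →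
    ∀ (p sv : ℕ → ℝ) (P N₁ N₂ v₁ q₁ v₂ q₂ : ℝ), 0 ≤ P → P ≤ N₁ → P ≤ N₂ → N₁ ≤ C * R →
    N₂ ≤ C * R → |sv 1 - L₁ b| ≤ κ * R → |sv 2 - L₂ b| ≤ κ * R → sv 1 - κ * R ≤ p 1 →
    sv 2 - κ * R ≤ p 2 → v₁ ≤ b → v₂ ≤ b → sv 1 - κ * R ≤ q₁ → sv 2 - κ * R ≤ q₂ →
    AffL S₀ ((range 1).image c) (c 1) v₁ q₁ → AffL S₀ ((range 2).image c) (c 2) v₂ q₂ →
    ∀ (γ : ∀ J : ℕ, Fam m J → Type) (y : ∀ (J : ℕ) (F : Fam m J), F.Ω → γ J F),
    (∀ (J : ℕ) (F : Fam m J) (ω ω' : F.Ω), yF F (c 0) ⌊(1 / 2 : ℝ) ^ i * J⌋₊ ω =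
      yF F (c 0) ⌊(1 / 2 : ℝ) ^ i * J⌋₊ ω' → y J F ω = y J F ω') →
    LowN S (fun J F => ptr F J) (vg b) y
      (qJets m c 1 3 K (fun _ _ => b) (fun l _ => p l) (fun l j' => sv l - (j' : ℝ) * b + P))
      ((qJet m ((range 1).image c) (c 1) 0 b (p 1) (sv 1 + N₁)).prod
        (qJet m ((range 2).image c) (c 2) 0 b (p 2) (sv 2 + N₂)))
      (((N₁ - P) + (N₂ - P)) * Real.log 2 - e * R)

/-- A nonpositive lower bound. -/
theorem low_triv {U V : Type} {S : PCl m} {α β γ : ∀ J : ℕ, Fam m J → Type}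
    {f : ∀ (J : ℕ) (F : Fam m J), F.Ω → α J F} {g : ∀ (J : ℕ) (F : Fam m J), F.Ω → β J F}
    {y : ∀ (J : ℕ) (F : Fam m J), F.Ω → γ J F}
    (hpos : ∀ (τ : ℝ) (J : ℕ) (F : Fam m J) (A : F.Ω → Prop), S.St τ J F A → 0 < Pe F.p A)
    {Q₀ : Qt m U} {Q : Qt m V} {θ : ℝ} (hθ : θ ≤ 0) : LowN S f g y Q₀ Q θ := by
  intro h hh
  refine ⟨1, one_pos, 1, one_pos, fun K => Bas.mono 0 (pos_bas hpos) ?_⟩
  intro J _ F A hA V z hz u₀ u hu₀ hu
  exact (mul_nonpos_of_nonpos_of_nonneg (by linarith) (Nat.cast_nonneg J)).trans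
    (CH_nonneg (isLaw_cond F.isLaw hA).nonneg _ _)

/-- **The places 1 and 2 are full behind their own paths near a window**, from the numbers. -/
theorem fl_at {S₀ S : PCl m} (hs₀ : ∀ (τ : ℝ) (J : ℕ) (F : Fam m J) (A : F.Ω → Prop),
    S.St τ J F A → S₀.St τ J F A) {C₀ : ℝ} (htm : TmC S C₀)
    (hpos : ∀ (τ : ℝ) (J : ℕ) (F : Fam m J) (A : F.Ω → Prop), S.St τ J F A → 0 < Pe F.p A)
    {c : ℕ → Fin m} {s : ℝ} {U D : ℚ → ℝ} {A B g Sl : ℝ} {L₁ L₂ : ℝ → ℝ}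
    (hW : WinG S {c 0} (c 1) (c 2) {q : ℚ | A < q ∧ (q : ℝ) < B} s U D)
    (hR : ∀ q : ℚ, A < q → (q : ℝ) < B →
      ∃ η, RNum S (fun J F => ptr F J) (vg ((q : ℝ) + s)) η)
    (hCh : ∀ q : ℚ, A < q → (q : ℝ) < B → ∃ (u₁ : ℝ) (sX rX : ℕ → ℝ),
      Chn S c 1 2 ((q : ℝ) + s) ((q : ℝ) + s) u₁ sX rX ∧ sX 1 = U q)
    (hU : ∀ q : ℚ, A < q → (q : ℝ) < B → U q = L₁ ((q : ℝ) + s))
    (hD : ∀ q : ℚ, A < q → (q : ℝ) < B → D q = L₂ ((q : ℝ) + s))
    (hA : A < g - s) (hB : g - s < B) (g1 : g < 1) (hSl : 1 < Sl) (h1 : HasDerivAt L₁ Sl g)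
    (h2 : HasDerivAt L₂ Sl g) (hC : CrN S (c 0) (c 1) (c 2) s U (g - s) (L₂ g - L₁ g) Sl) :
    FlAt S₀ S c L₁ L₂ g := by
  intro K e C he hC0
  obtain ⟨e1, he1, he1e, he11⟩ : ∃ e1 : ℝ, 0 < e1 ∧ e1 ≤ e ∧ e1 ≤ 1 :=
    ⟨min e 1, lt_min he one_pos, min_le_left _ _, min_le_right _ _⟩
  obtain ⟨a, ha⟩ : ∃ a : ℝ, a = (C + 2) / (Sl - 1) := ⟨_, rfl⟩
  have hSl1 : 0 < Sl - 1 := by linarith
  have ha0 : 0 < a := by
    rw [ha]
    exact div_pos (by linarith) hSl1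
  have ha' : a * (Sl - 1) = C + 2 := by
    rw [ha]
    exact div_mul_cancel₀ _ hSl1.ne'
  obtain ⟨T, hT⟩ : ∃ T : ℝ, T = C + a + 3 := ⟨_, rfl⟩
  have hT0 : 0 < T := by rw [hT]; linarith
  obtain ⟨e', he'⟩ : ∃ e' : ℝ, e' = e1 / (1000 * T) := ⟨_, rfl⟩
  have he'0 : 0 < e' := by rw [he']; positivity
  obtain ⟨i₀, hC⟩ := hC e' he'0
  refine ⟨i₀, e1 / 100, by positivity, fun i hi => ?_⟩
  obtain ⟨r₀, hr₀, hC⟩ := hC i hi
  obtain ⟨r₁, hr₁, k1⟩ := lin_near h1 (ε := e' / 100) (by positivity)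
  obtain ⟨r₂, hr₂, k2⟩ := lin_near h2 (ε := e' / 100) (by positivity)
  obtain ⟨M0, hM0⟩ : ∃ M0 : ℝ, M0 = min ((1 / 2 : ℝ) ^ i) ((1 - g) / 2) := ⟨_, rfl⟩
  have hM00 : 0 < M0 := by
    rw [hM0]
    exact lt_min (by positivity) (by linarith)
  obtain ⟨d, hd0, hd1, hd2, hd3, hd4, hd5, hd6⟩ : ∃ d : ℝ, 0 < d ∧ d ≤ r₀ ∧ d ≤ r₁ ∧ d ≤ r₂ ∧
      d ≤ g - s - A ∧ d ≤ B - (g - s) ∧ d ≤ (1 - g) / 2 := by
    refine ⟨min (min (min r₀ r₁) (min r₂ (g - s - A))) (min (B - (g - s)) ((1 - g) / 2)),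
      lt_min (lt_min (lt_min hr₀ hr₁) (lt_min hr₂ (by linarith)))
        (lt_min (by linarith) (by linarith)), ?_, ?_, ?_, ?_, ?_, ?_⟩
    · exact (min_le_left _ _).trans ((min_le_left _ _).trans (min_le_left _ _))
    · exact (min_le_left _ _).trans ((min_le_left _ _).trans (min_le_right _ _))
    · exact (min_le_left _ _).trans ((min_le_right _ _).trans (min_le_left _ _))
    · exact (min_le_left _ _).trans ((min_le_right _ _).trans (min_le_right _ _))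
    · exact (min_le_right _ _).trans (min_le_left _ _)
    · exact (min_le_right _ _).trans (min_le_right _ _)
  obtain ⟨Q, hQ⟩ : ∃ Q : ℝ, Q = C + 10 := ⟨_, rfl⟩
  have hQ0 : 0 < Q := by rw [hQ]; linarith
  refine ⟨min (d / T) (M0 / Q), lt_min (by positivity) (by positivity), ?_⟩
  intro R hR0 hRr b hb1 hb2 p sv P N₁ N₂ v₁ q₁ v₂ q₂ hP0 hPN1 hPN2 hN1 hN2 x1 x2 x3 x4 hv1 hv2 x5
    x6 hA1 hA2 γ y hyy
  have hTR : T * R < d := by
    have : R < d / T := lt_of_lt_of_le hRr (min_le_left _ _)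
    rw [lt_div_iff₀ hT0] at this
    linarith
  have hQR : Q * R < M0 := by
    have : R < M0 / Q := lt_of_lt_of_le hRr (min_le_right _ _)
    rw [lt_div_iff₀ hQ0] at this
    linarith
  obtain ⟨η, hη⟩ : ∃ η : ℝ, η = e1 * R / 100000 := ⟨_, rfl⟩
  have hη0 : 0 < η := by rw [hη]; positivity
  have hηR : 100000 * η ≤ R := by
    rw [hη]
    have := mul_le_mul_of_nonneg_right he11 hR0.le
    linarith
  have hκ : e1 / 100 * R = 1000 * η := by rw [hη]; ring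
  have heR : 100000 * η ≤ e * R := by
    rw [hη]
    have := mul_le_mul_of_nonneg_right he1e hR0.le
    linarith
  have hTR0 : 0 < T * R := mul_pos hT0 hR0
  have he'r : e' * (T * R) = 100 * η := by
    rw [he', hη]
    field_simp
    ring
  have hεr : e' / 100 * (T * R) = η := by
    have : e' / 100 * (T * R) = e' * (T * R) / 100 := by ring
    rw [this, he'r]
    ring
  rw [hκ] at x1 x2 x3 x4 x5 x6
  -- the precisions near the window
  have k1' : ∀ x : ℝ, |x - g| ≤ T * R → L₁ g + Sl * (x - g) - η ≤ L₁ x ∧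
      L₁ x ≤ L₁ g + Sl * (x - g) + η := fun x hx => by
    have := k1 (T * R) hTR0 (by linarith) x hx
    rw [hεr] at this
    obtain ⟨h3, h4⟩ := abs_le.1 this
    constructor <;> linarith
  have k2' : ∀ x : ℝ, |x - g| ≤ T * R → L₂ g + Sl * (x - g) - η ≤ L₂ x ∧
      L₂ x ≤ L₂ g + Sl * (x - g) + η := fun x hx => by
    have := k2 (T * R) hTR0 (by linarith) x hx
    rw [hεr] at this
    obtain ⟨h3, h4⟩ := abs_le.1 this
    constructor <;> linarith
  have hTR' : T * R = C * R + a * R + 3 * R := by rw [hT]; ring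
  have haR0 : 0 < a * R := mul_pos ha0 hR0
  have haSR : Sl * (a * R) = C * R + 2 * R + a * R := by
    have : Sl * (a * R) = a * (Sl - 1) * R + a * R := by ring
    rw [this, ha']
    ring
  have hCR0 : 0 < C * R := mul_pos hC0 hR0
  -- the small step
  have hSl0 : 0 < Sl := by linarith
  have hK0 : (0 : ℝ) ≤ K := Nat.cast_nonneg K
  obtain ⟨δ, hδ⟩ : ∃ δ : ℝ, δ = η / (Sl + K) := ⟨_, rfl⟩
  have hSK : 0 < Sl + K := by linarith
  have hδ0 : 0 < δ := by rw [hδ]; positivity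
  have hSKδ : Sl * δ + K * δ = η := by
    rw [hδ, ← add_mul]
    exact mul_div_cancel₀ _ hSK.ne'
  have hSδ : Sl * δ ≤ η := by
    have : 0 ≤ K * δ := by positivity
    linarith
  have hKδ : K * δ ≤ η := by
    have : 0 ≤ Sl * δ := by positivity
    linarith
  have hδη : δ ≤ η := (le_mul_of_one_le_left hδ0.le hSl.le).trans hSδ
  have smul : ∀ {x x' : ℝ}, x ≤ x' → Sl * x ≤ Sl * x' := fun h =>
    mul_le_mul_of_nonneg_left h hSl0.le
  have hl0 : 0 < Real.log 2 := Real.log_pos one_lt_two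
  have hl1 : Real.log 2 ≤ 7 / 10 := by
    have := Real.log_two_lt_d9
    linarith
  -- the number of the digits
  obtain ⟨N, hN⟩ : ∃ N : ℝ, N = max N₁ N₂ := ⟨_, rfl⟩
  have hN1' : N₁ ≤ N := by rw [hN]; exact le_max_left _ _
  have hN2' : N₂ ≤ N := by rw [hN]; exact le_max_right _ _
  have hNC : N ≤ C * R := by rw [hN]; exact max_le hN1 hN2
  rcases le_or_gt (N - P) (6100 * η) with hcase | hcase
  · refine low_triv hpos ?_
    have s1 : ((N₁ - P) + (N₂ - P)) * Real.log 2 ≤ (12200 * η) * Real.log 2 :=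
      mul_le_mul_of_nonneg_right (by linarith) hl0.le
    have s2 := mul_le_mul_of_nonneg_left hl1 (by positivity : 0 ≤ 12200 * η)
    linarith
  obtain ⟨φ, hφ⟩ : ∃ φ : ℝ, φ = L₂ g - L₁ g := ⟨_, rfl⟩
  have hφ' : L₂ g = L₁ g + φ := by rw [hφ]; ring
  rw [hφ'] at k2'
  rw [← hφ] at hC
  have hbb := k1' b (by rw [abs_le]; constructor <;> linarith)
  have hbb2 := k2' b (by rw [abs_le]; constructor <;> linarith)
  obtain ⟨Lw, hLw⟩ : ∃ Lw : ℝ, Lw = L₁ g + Sl * (b - g) := ⟨_, rfl⟩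
  have hLw2 : L₁ g + φ + Sl * (b - g) = Lw + φ := by rw [hLw]; ring
  rw [hLw2] at hbb2
  rw [← hLw] at hbb
  obtain ⟨x1a, x1b⟩ := abs_le.1 x1
  obtain ⟨x2a, x2b⟩ := abs_le.1 x2
  have y1 : sv 1 ≤ Lw + 1001 * η := by linarith [hbb.2]
  have y2 : Lw - 1001 * η ≤ sv 1 := by linarith [hbb.1]
  have y3 : sv 2 ≤ Lw + φ + 1001 * η := by linarith [hbb2.2]
  have y4 : Lw + φ - 1001 * η ≤ sv 2 := by linarith [hbb2.1]
  clear x1 x2 x1a x1b x2a x2b
  -- the windows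
  obtain ⟨t₁, ht₁⟩ : ∃ t : ℝ, t = b + (P + 3021 * η) / Sl := ⟨_, rfl⟩
  have hSt₁ : Sl * (t₁ - b) = P + 3021 * η := by
    rw [ht₁, add_sub_cancel_left]
    exact mul_div_cancel₀ _ hSl0.ne'
  obtain ⟨t₂, ht₂⟩ : ∃ t : ℝ, t = b + (N - 3020 * η) / Sl := ⟨_, rfl⟩
  have hSt₂ : Sl * (t₂ - b) = N - 3020 * η := by
    rw [ht₂, add_sub_cancel_left]
    exact mul_div_cancel₀ _ hSl0.ne'
  have lt_of_mul : ∀ {x x' : ℝ}, Sl * x < Sl * x' → x < x' := fun h =>
    lt_of_mul_lt_mul_left h hSl0.le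
  have z1 : b + δ < t₁ := by
    have : Sl * δ < Sl * (t₁ - b) := by rw [hSt₁]; linarith
    linarith [lt_of_mul this]
  have z2 : t₁ + δ < t₂ - δ := by
    have : Sl * (t₁ - b + δ + δ) < Sl * (t₂ - b) := by
      have e1 : Sl * (t₁ - b + δ + δ) = Sl * (t₁ - b) + Sl * δ + Sl * δ := by ring
      rw [e1, hSt₁, hSt₂]
      linarith
    linarith [lt_of_mul this]
  have z3 : t₂ < b + a * R := by
    have : Sl * (t₂ - b) < Sl * (a * R) := by
      rw [hSt₂, haSR]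
      linarith
    linarith [lt_of_mul this]
  obtain ⟨w', hw1, hw2⟩ := exists_rat_btwn (by linarith : b - s < b - s + δ)
  obtain ⟨j, hj1, hj2⟩ := exists_rat_btwn (by linarith : t₁ - s < t₁ - s + δ)
  obtain ⟨j'', hp1, hp2⟩ := exists_rat_btwn (by linarith : t₂ - s - δ < t₂ - s)
  obtain ⟨l, hl2, hl3⟩ := exists_rat_btwn (by linarith : b + a * R - s < b + a * R - s + δ)
  have hGw : A < (w' : ℝ) ∧ (w' : ℝ) < B := ⟨by linarith, by linarith⟩
  have hGj : A < (j : ℝ) ∧ (j : ℝ) < B := ⟨by linarith, by linarith⟩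
  have hGp : A < (j'' : ℝ) ∧ (j'' : ℝ) < B := ⟨by linarith, by linarith⟩
  have hGl : A < (l : ℝ) ∧ (l : ℝ) < B := ⟨by linarith, by linarith⟩
  have hw'1 := k1' ((w' : ℝ) + s) (by rw [abs_le]; constructor <;> linarith)
  have hw'2 := k2' ((w' : ℝ) + s) (by rw [abs_le]; constructor <;> linarith)
  have hj'1 := k1' ((j : ℝ) + s) (by rw [abs_le]; constructor <;> linarith)
  have hp'1 := k1' ((j'' : ℝ) + s) (by rw [abs_le]; constructor <;> linarith)
  have hl'1 := k1' ((l : ℝ) + s) (by rw [abs_le]; constructor <;> linarith)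
  rw [← hU w' hGw.1 hGw.2] at hw'1
  rw [← hD w' hGw.1 hGw.2] at hw'2
  rw [← hU j hGj.1 hGj.2] at hj'1
  rw [← hU j'' hGp.1 hGp.2] at hp'1
  rw [← hU l hGl.1 hGl.2] at hl'1
  have sp : ∀ x : ℝ, L₁ g + Sl * (x - g) = Lw + Sl * (x - b) := fun x => by rw [hLw]; ring
  have sp2 : ∀ x : ℝ, L₁ g + φ + Sl * (x - g) = Lw + φ + Sl * (x - b) := fun x => by
    rw [hLw]
    ring
  rw [sp] at hw'1 hj'1 hp'1 hl'1
  rw [sp2] at hw'2
  have s1 : 0 ≤ Sl * ((w' : ℝ) + s - b) := mul_nonneg hSl0.le (by linarith)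
  have s2 : Sl * ((w' : ℝ) + s - b) ≤ η := (smul (by linarith)).trans hSδ
  have s3 : P + 3021 * η ≤ Sl * ((j : ℝ) + s - b) := by
    rw [← hSt₁]
    exact smul (by linarith)
  have s4 : Sl * ((j : ℝ) + s - b) ≤ P + 3022 * η := by
    have : Sl * ((j : ℝ) + s - b) ≤ Sl * (t₁ - b + δ) := smul (by linarith)
    rw [mul_add, hSt₁] at this
    linarith
  have s5 : Sl * ((j'' : ℝ) + s - b) ≤ N - 3020 * η := by
    rw [← hSt₂]
    exact smul (by linarith)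
  have s6 : N - 3021 * η ≤ Sl * ((j'' : ℝ) + s - b) := by
    have : Sl * (t₂ - b - δ) ≤ Sl * ((j'' : ℝ) + s - b) := smul (by linarith)
    rw [mul_sub, hSt₂] at this
    linarith
  have hlu : -b + (C * R + 2 * R) ≤ Sl * ((l : ℝ) + s - b) - ((l : ℝ) + s) := by
    have h5 : (Sl - 1) * (a * R) ≤ (Sl - 1) * ((l : ℝ) + s - b) :=
      mul_le_mul_of_nonneg_left (by linarith) hSl1.le
    have h6 : (Sl - 1) * (a * R) = C * R + 2 * R := by
      have : (Sl - 1) * (a * R) = a * (Sl - 1) * R := by ring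
      rw [this, ha']
      ring
    rw [h6] at h5
    linarith
  obtain ⟨g', hg1, hg2⟩ := exists_rat_btwn
    (by linarith : φ - 100 * η < φ - 25 * η)
  have hmm : Q * R < min ((1 / 2 : ℝ) ^ i) (1 - ((w' : ℝ) + s)) := by
    refine lt_of_lt_of_le hQR ?_
    rw [hM0]
    exact min_le_min le_rfl (by linarith)
  obtain ⟨mm, hmm'⟩ : ∃ mm : ℝ, mm = min ((1 / 2 : ℝ) ^ i) (1 - ((w' : ℝ) + s)) := ⟨_, rfl⟩
  rw [← hmm'] at hmm
  have hQR' : Q * R = C * R + 10 * R := by rw [hQ]; ring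
  rw [hQR'] at hmm
  -- the numbers
  have hnr := hC (T * R) hTR0 (by linarith) w' j j'' l (by linarith)
    (by
      have : (w' : ℝ) ≤ j := by linarith
      exact_mod_cast this)
    (by
      have : (j : ℝ) < j'' := by linarith
      exact_mod_cast this)
    (by
      have : (j'' : ℝ) ≤ l := by linarith
      exact_mod_cast this) (by linarith) g' (by rw [he'r]; linarith)
    (by
      have : e' / 4 * (T * R) = 25 * η := by
        have h6 : e' / 4 * (T * R) = e' * (T * R) / 4 := by ring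
        rw [h6, he'r]
        ring
      rw [this]
      linarith) 1 one_pos
  rw [he'r] at hnr
  obtain ⟨hu1, hu2⟩ := hw'1
  obtain ⟨hu3, hu4⟩ := hj'1
  obtain ⟨hu5, hu6⟩ := hp'1
  have hu7 := hl'1.1
  obtain ⟨u₁, sX, rX, hch, hsX⟩ := hCh w' hGw.1 hGw.2
  -- the levels, up to `η`
  have f1 : U w' ≤ Lw + 2 * η := by linarith
  have f2 : Lw - η ≤ U w' := by linarith
  have f3 : Lw + P + 3020 * η ≤ U j := by linarith
  have f4 : U j'' ≤ Lw + N - 3019 * η := by linarith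
  have f5 : Lw - b + (C * R + 2 * R) - η ≤ U l - (l + s) := by linarith
  have f6 : Lw + φ - η ≤ D w' := by linarith [hw'2.1]
  have hwb0 : 0 ≤ (w' : ℝ) + s - b := by linarith
  have hwb1 : (K : ℝ) * ((w' : ℝ) + s - b) ≤ η :=
    (mul_le_mul_of_nonneg_left (by linarith) hK0).trans hKδ
  have hwb2 : 0 ≤ (K : ℝ) * ((w' : ℝ) + s - b) := mul_nonneg hK0 hwb0
  obtain ⟨dK, hdK⟩ : ∃ dK : ℝ, dK = K * ((w' : ℝ) + s - b) := ⟨_, rfl⟩
  rw [← hdK] at hwb1 hwb2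
  clear hw'2 hbb hbb2 k1' k2' k1 k2 hl'1 hu1 hu2 hu3 hu5 hu6 hu7
  have key := fl_num (c := c) (b := b) (v₁ := v₁) (q₁ := q₁) (v₂ := v₂) (q₂ := q₂)
    (lv := P + 3010 * η) (lv' := N - 1010 * η) (σ₀ := η) (P₁ := sv 1 + P) (P₂ := sv 2 + P)
    (M₁ := sv 1 + N) (M₂ := sv 2 + N) (Um := Lw + P + 3020 * η) (dK := dK) (p := p) (K := K)
    (Nt := fun l j' => sv l - (j' : ℝ) * b + P)
    (g' := g') (j := j) (j'' := j'') (l := l) (f := fun J F => ptr F J)
    (y := fun J F => yF F (c 0) ⌊(1 / 2 : ℝ) ^ i * J⌋₊) (y' := y) htm hpos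
    (fun J F => ⟨id, fun _ => rfl⟩) (kn_yF (c 0) ((1 / 2 : ℝ) ^ i)) (by positivity) hyy hW
    (w' := w') hGw (by linarith) (hR w' hGw.1 hGw.2) (hR j hGj.1 hGj.2) hch hsX hnr (by linarith) (by linarith)
    (by linarith) (hA1.sub hs₀) (hA2.sub hs₀) hmm' hη0 (by linarith) (by linarith)
    (fun i => by ring) (fun i => by ring) hdK
    (by linarith) (by linarith)
    (by
      rw [← sub_lt_iff_lt_add, lt_min_iff]
      constructor <;> linarith)
    (by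
      rw [← sub_lt_iff_lt_add, lt_min_iff]
      constructor <;> linarith)
    (by linarith) (by linarith) (by linarith)
    (by
      rw [← sub_lt_iff_lt_add, lt_min_iff]
      constructor <;> linarith)
    (by linarith) (by linarith)
    (by
      rw [← sub_le_iff_le_add, le_min_iff]
      constructor <;> linarith)
    (by
      rw [← sub_le_iff_le_add, le_min_iff]
      constructor <;> linarith)
    (by linarith) (by linarith) (by linarith)
    (by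
      rw [← sub_lt_iff_lt_add, lt_min_iff]
      constructor <;> linarith)
    (by linarith)
    (by
      rw [← sub_le_iff_le_add, le_min_iff]
      constructor <;> linarith)
    (by linarith)
    (by
      rw [← sub_le_iff_le_add, le_min_iff]
      constructor <;> linarith)
    (by
      rw [← sub_le_iff_le_add, le_min_iff]
      constructor <;> linarith)
  -- fewer digits
  have up := Upg.prod (upg_jet (I := (range 1).image c) (k := c 1) (j := 0) (w := b) (p := p 1)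
    (by linarith : sv 1 + N₁ ≤ sv 1 + N)) (upg_jet (I := (range 2).image c) (k := c 2) (j := 0)
    (w := b) (p := p 2) (by linarith : sv 2 + N₂ ≤ sv 2 + N))
  refine (LowN.upg hpos key up).le ?_
  -- the losses
  have hsj : N - P - 6043 * η ≤ Sl * ((j'' : ℝ) - j) := by
    have : Sl * ((j'' : ℝ) - j) = Sl * ((j'' : ℝ) + s - b) - Sl * ((j : ℝ) + s - b) := by ring
    rw [this]
    linarith
  have l1 := mul_le_mul_of_nonneg_right hsj hl0.le
  have l2 := mul_le_mul_of_nonneg_left hl1 (by positivity : 0 ≤ 12086 * η)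
  have l3 : (N - P - 6043 * η) * Real.log 2 = (N - P) * Real.log 2 - 6043 * η * Real.log 2 := by
    ring
  rw [l3] at l1
  have l4 : (N₁ - P + (N₂ - P)) * Real.log 2 = 2 * ((N - P) * Real.log 2) -
      ((sv 1 + N - (sv 1 + N₁)) * Real.log 2 + (sv 2 + N - (sv 2 + N₂)) * Real.log 2) := by ring
  rw [l4]
  linarith

end Pool.D2F2
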