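import Pool.Agent.H4.D2.Gst
import Pool.Agent.H53.JM.Nf
import Pool.Agent.H35.LBK.Lbk
import Pool.Agent.H5.M3F.KerC
import Pool.Agent.H2.GEN.CloB

/-!
# The rows of the own height over a ball, for a class

`row_cls`: the row law of the target, from the rate of its rows. `nfg_cls`: the rows of the own
height over the balls of the large events of a class, from the rate of the rows, the fullness of
the other coordinates behind the ball, and the fullness of their near digits.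
-/

set_option autoImplicit false

namespace Pool.D2F2

open Finset Real MvPolynomial
open Pool.Agent.H49.Ent Pool.Agent.H32.Dense Pool.STK Pool.KA Pool.KSAT Pool.K2S Pool.PB Pool.GEN
open Pool.S6C Pool.LA91 Pool.CHT Pool.CHX Pool.KM7 Pool.M3F
open Pool.ALL (RateOf)
open Pool.ISO (Clsd)
open Pool.OWN68 (opl tw uw)
open Pool.GEN.N83 (oth)
open Pool.D2R (dd hs co co_slam)
open Pool.D2F (cv CvC)
open Pool.D2Z (en)

variable {m : ℕ}

/-- **The row law of the target**, from the rate of its rows. -/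
theorem row_cls {S : PCl m} {κ : Fin m} {rt : ℝ → ℝ} (hr : RateOf S κ rt)
    (hpos : Bas S (fun _ F A => 0 < Pe F.p A)) {α β h δ e : ℝ} (hδe : δ < e)
    (hrt : ∀ y₁ y₃ : ℝ, α ≤ y₁ → y₁ ≤ y₃ → y₃ ≤ β → rt y₃ - rt y₁ ≤ (1 - h) * (y₃ - y₁) + δ)
    (hδ : 0 ≤ δ) :
    Bas S (fun J F A => ∀ n₁ n₃ : ℕ, n₁ ≤ n₃ → n₃ ≤ J → α * J ≤ n₁ → n₃ ≤ β * J →
      CH (Pool.Agent.H49.Ent.cond F.p A True) (fun ω => F.X n₃ ω κ)
        (fun ω => (F.X n₁ ω κ, oth κ J F (ptr F J ω))) ≤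
        (1 - h) * ((n₃ : ℝ) - n₁) * Real.log 2 + e * J) := by
  have hl2 : 0 < Real.log 2 := Real.log_pos (by norm_num)
  have hl21 : Real.log 2 ≤ 1 := by
    have := Real.log_two_lt_d9
    linarith
  refine (Pool.JPN.rate_row hr hpos (sub_pos.2 hδe)).mono 1 ?_
  intro J hJ F A h1 n₁ n₃ h13 h3J hα hβ
  have hJ0 : (0 : ℝ) < J := by exact_mod_cast hJ
  refine (h1 n₁ n₃ h13 h3J).trans ?_
  have h2 := hrt (n₁ / J) (n₃ / J) (by rwa [le_div_iff₀ hJ0]) (by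
    refine div_le_div_of_nonneg_right ?_ hJ0.le
    exact_mod_cast h13) (by rwa [div_le_iff₀ hJ0])
  have h3 : (rt ((n₃ : ℝ) / J) - rt ((n₁ : ℝ) / J)) * Real.log 2 * J ≤
      ((1 - h) * ((n₃ : ℝ) / J - n₁ / J) + δ) * Real.log 2 * J :=
    mul_le_mul_of_nonneg_right (mul_le_mul_of_nonneg_right h2 hl2.le) hJ0.le
  have h4 : ((1 - h) * ((n₃ : ℝ) / J - n₁ / J) + δ) * Real.log 2 * J =
      (1 - h) * ((n₃ : ℝ) - n₁) * Real.log 2 + δ * Real.log 2 * J := by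
    field_simp
  have h5 : δ * Real.log 2 * J ≤ δ * J :=
    mul_le_mul_of_nonneg_right (mul_le_of_le_one_right hδ hl21) hJ0.le
  linarith

/-- **The rows of the own height over the balls of the large events of a class.** -/
theorem nfg_cls {S : PCl m} {c : ℕ → Fin m} {r : ℕ} {rt : ℝ → ℝ} (hr : RateOf S (c r) rt)
    (hpos : Bas S (fun _ F A => 0 < Pe F.p A)) {α β h δ e : ℝ} (hδe : δ < e) (hδ : 0 ≤ δ)
    (hrt : ∀ y₁ y₃ : ℝ, α ≤ y₁ → y₁ ≤ y₃ → y₃ ≤ β → rt y₃ - rt y₁ ≤ (1 - h) * (y₃ - y₁) + δ)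
    (hcr : ∀ l < r, c l ≠ c r) (hc : ∀ j, j ≠ c r → ∃ l < r, c l = j)
    {a : ℝ} {I : Finset (Fin m)} (hI : ∀ i ∈ I, ∃ l < r, c l = i) {cV : ℝ}
    (hex : ExvY S a (fun J F ω (i : {x // x ∈ I}) => F.X J ω i) cV)
    {c₀ c₁ : ℝ} (hc₀ : 0 < c₀) (hc₁ : 0 < c₁) (hh : 0 ≤ h) (hh1 : h ≤ 1) :
    Bas S (fun J F A => ∀ A₁ : F.Ω → Prop, Sub A₁ A → c₁ * Pe F.p A ≤ Pe F.p A₁ →
      ∀ (g ga : ℕ → ℕ) (W n k D sg M q E₀ N₀ K : ℕ)
        (ψH : LnT F → ℕ → Option (Fin m) → ℝ) (Ht : LnT F → MvPolynomial (Option (Fin m)) ℝ)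
        (hD : ∀ s, (Ht s).totalDegree ≤ D)
        (G : PtT F → ℕ → MvPolynomial (Option (Fin m)) ℝ)
        (HG : LnT F → ℕ → MvPolynomial (Option (Fin m)) ℝ)
        (zψ : PtT F → ℕ → Option (Fin m) → ℝ) (o : ℕ → ℕ) (x e' : ℝ),
      Gb F c g ga W n ⌊a * J⌋₊ k r D sg M ψH Ht G A₁ →
      W ≤ ⌊a * J⌋₊ → ⌊a * J⌋₊ ≤ J →
      (∀ ω, A₁ ω → zψ (ptr F J ω) = ψH (slam F W ω)) → Clsd F (r + 1) ⌊a * J⌋₊ A₁ G HG →
      (∀ ω, A₁ ω → ∀ V : Option (Fin m) → ℝ, V none = 0 →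
        |cv (ψH (slam F W ω) r) V - dd (G (ptr F J ω) r) (bt F ω) V| ≤
          2 ^ k / 2 ^ g r * en c g W (ψH (slam F W ω)) r V) →
      (∀ ω, A₁ ω → ∀ l < r, ∀ j, 1 ≤ j →
        |((hdt F c g W n r D q sg ψH Ht hD).gp l (slam F W ω)).coeff j| ≤
          2 ^ k * (2 ^ g l / 2 ^ g r)) →
      (∀ ω, A₁ ω → ∀ l ≤ r, ∀ j < l, |ψH (slam F W ω) l (some (c j))| ≤ E₀) →
      (∀ l < r, o l ≤ ga l) → (∀ l < r, o l ≤ g l + (q + sg)) →
      (∀ l < r, g l + (q + sg) ≤ J) → g r + (q + sg) ≤ J → g r + (q + sg) ≤ ga r →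
      0 ≤ x → x * J ≤ (g r + (q + sg) : ℕ) → 0 < N₀ →
      α * J ≤ (g r + (q + sg) : ℕ) - (x * J + 1) → (g r + (q + sg) : ℕ) ≤ β * J →
      ∑ l ∈ range r, ((J - o l : ℕ) : ℝ) * Real.log 2 - e * J ≤ cV * Real.log 2 * J →
      r * Real.log (2 * (2 * ((2 * r + 2) * 2 ^ k) ^ (r + 4) + 1 : ℕ) + 1) ≤ e * J →
      4 * (e * J) + 2 * Real.log 2 +
        ((2 * r + 2) * Real.log (2 * (2 + r * E₀ : ℕ) + 1) +
          Real.log (2 * (2 * ((2 * r + 2) * 2 ^ k) ^ (r + 4) + 1 : ℕ) + 1)) +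
        (r * Real.log (2 * (3 : ℕ) + 1) +
        2 * Real.log (2 * (r * ((D + 1) * ((D + 2) * 2 ^ k)) + 2 : ℕ) + 1) +
        ((r * (D + 3)) * Real.log (2 * ((2 * K : ℕ) + 1) + 1) +
          2 * Real.log (2 * (K * (1 + r * (D + 1) ^ 2) + 1 : ℕ) + 1))) ≤ e' * J →
      (∀ B : F.Ω → Prop, Sub B A₁ → c₀ * Pe F.p A₁ ≤ Pe F.p B →
        ∃ (γ' : Type) (G' : F.Ω → γ'),
          HopP (hdt F c g W n r D q sg ψH Ht hD) B W (2 ^ (g r + (q + sg))) K G' ∧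
          r * sg * Real.log 2 - e * J ≤ CH (Pool.Agent.H49.Ent.cond F.p B True)
            (Vfd (hds F c g W n r D q sg ψH Ht hD) W (fun l => g l + (q + sg))
              fun l => g l + q) G') →
      Pool.AJ18.NFg F A₁ (fun s => Polynomial.C ((2 : ℝ) ^ (g r + (q + sg))) *
        (hds F c g W n r D q sg ψH Ht hD).hL W A₁ s)
        (fun s => (hds F c g W n r D q sg ψH Ht hD).cx s) W x h e' c₀ N₀) := by
  have hcc : 0 < c₀ * c₁ := mul_pos hc₀ hc₁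
  refine (((Pool.LBK.Bas.ev (row_cls hr hpos hδe hrt hδ) hcc).and (Pool.LBK.Bas.ev hex hcc)).and hpos).mono 0 ?_
  rintro J - F A ⟨⟨h1, h2⟩, hA⟩ A₁ hA₁ hPA g ga W n k D sg M q E₀ N₀ K ψH Ht hD G HG zψ o x e'
    H hWa haJ hψc hGc hfr siz hE ho hou hu hr1 hr2 hx hxn hN₀ hα hβ hsum he0 he hP5
  have hA₁0 : 0 < Pe F.p A₁ := lt_of_lt_of_le (mul_pos hc₁ hA) hPA
  refine nfg_gb H hA₁0 hfr siz hE hcr hc ho hou hu hr1 hr2 hx hxn hh1 hh hc₀ hN₀ he0 he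
    fun B hBA hBc => ?_
  have hBA' : Sub B A := fun ω hω => hA₁ ω (hBA ω hω)
  have hBc' : c₀ * c₁ * Pe F.p A ≤ Pe F.p B := by
    refine le_trans ?_ hBc
    rw [mul_assoc]
    exact mul_le_mul_of_nonneg_left hPA hc₀.le
  refine ⟨fun n₁ n₃ a1 a2 a3 => ?_, ?_, hP5 B hBA hBc⟩
  · exact h1 B hBA' hBc' n₁ n₃ a1 (a2.trans hr1) (by linarith) (by
      refine le_trans ?_ hβ
      exact_mod_cast a2)
  · obtain ⟨z, hz⟩ : ∃ z : PtT F → (ℕ → Option (Fin m) → ℝ) ×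
        (ℕ → MvPolynomial (Option (Fin m)) ℝ),
        z = fun y => (zψ y, fun l => if l ≤ r then G y l else 0) := ⟨_, rfl⟩
    obtain ⟨z', hz'⟩ : ∃ z' : LnT F → (ℕ → Option (Fin m) → ℝ) ×
        (ℕ → MvPolynomial (Option (Fin m)) ℝ),
        z' = fun s => (ψH (co (⌊a * J⌋₊ - W) s), fun l => if l ≤ r then HG s l else 0) :=
      ⟨_, rfl⟩
    have e1 : ∀ ω, A₁ ω → z (ptr F J ω) = z' (slam F ⌊a * J⌋₊ ω) := by
      intro ω hω
      rw [hz, hz']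
      refine Prod.ext ?_ (_root_.funext fun l => ?_)
      · dsimp only
        rw [co_slam F hWa haJ]
        exact hψc ω hω
      · dsimp only
        split_ifs with hl
        · exact hGc ω hω l (by omega)
        · rfl
    have h3 := h2 B hBA' hBc' _ z z' fun ω hω => e1 ω (hBA ω hω)
    refine ⟨_, _, (fun ω (i : {x // x ∈ I}) => F.X J ω i),
      (fun ω => (z' (slam F ⌊a * J⌋₊ ω), F.W ω)), fun ω ω' _ _ e2 => ?_, fun ω ω' hω hω' e2 => ?_,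
      hsum.trans h3⟩
    · refine _root_.funext fun i => ?_
      obtain ⟨l, hl, hl'⟩ := hI i i.2
      change F.X J ω (i : Fin m) = F.X J ω' (i : Fin m)
      rw [← hl']
      exact e2 l hl
    · obtain ⟨e3, e4⟩ := Prod.ext_iff.1 e2
      dsimp only at e3 e4
      rw [hz'] at e3
      obtain ⟨e5, e6⟩ := Prod.ext_iff.1 e3
      dsimp only at e5 e6
      rw [co_slam F hWa haJ, co_slam F hWa haJ] at e5
      refine ⟨e4, e5, fun l hl => ?_⟩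
      have e7 := congrFun e6 l
      rw [if_pos hl, if_pos hl] at e7
      rw [hGc ω (hBA ω hω) l (by omega), hGc ω' (hBA ω' hω') l (by omega)]
      exact e7

end Pool.D2F2
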