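import Pool.Agent.H4.D2.Adr
import Pool.Agent.H4.D2.Ngc
import Pool.Agent.H4.D2.Dif

/-!
# A deep ball with natural charts and the record of stage 1

`Gd`: a ball of the window `a` with natural charts and a frame of the window `W`, of all the
coordinates with the target. `Gd.vfew`, `Gd.vcount`, `Gd.recS`: the record of stage 1. `recS_cls`:
the same for the large events of a class.
-/

set_option autoImplicit false

namespace Pool.D2F2

open Finset Real MvPolynomial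
open Pool.Agent.H49.Ent Pool.Agent.H32.Dense Pool.STK Pool.KA Pool.KSAT Pool.K2S Pool.PB Pool.GEN
open Pool.S6C Pool.LA91 Pool.CHT Pool.CHX Pool.KM7 Pool.M3F
open Pool.OWN68 (opl tw uw CH_pair floor_sub_le)
open Pool.D2R (dd hs co co_slam)
open Pool.D2F (cv CvC grd cv_grd)
open Pool.D2Z (en en_eq en_succ en_zero en_nonneg en_mono)
open Pool.D2H (uw_eq of_floor_mul)
open Pool.D2S (Pr Sg NtB yk)
open Pool.F5 (NatH)

variable {m J : ℕ}

/-- **A deep ball with natural charts**, and a frame of the window `W`. -/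
structure Gd (F : Fam m J) (c : ℕ → Fin m) (g ga : ℕ → ℕ) (W a k r : ℕ)
    (ψH : LnT F → ℕ → Option (Fin m) → ℝ) (G : PtT F → ℕ → MvPolynomial (Option (Fin m)) ℝ)
    (B : F.Ω → Prop) : Prop where
  inj : Set.InjOn c (Set.Iio r)
  depG : ∀ y l, DepC c l (G y l)
  pos : ∀ ω, B ω → ∀ l ≤ r, |F.x ω (c l) - eval (bt F ω) (G (ptr F J ω) l)| ≤ 1 / 2 ^ ga l
  nat : ∀ l ≤ r, NatH F c a ga B G k l
  frm : ∀ ω, B ω → ∀ l ≤ r, ∀ V : Option (Fin m) → ℝ, V none = 0 →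
    |cv (ψH (slam F W ω) l) V - dd (G (ptr F J ω) l) (bt F ω) V| ≤
      2 ^ k / 2 ^ g l * en c g W (ψH (slam F W ω)) l V

/-- The ball of the hop. -/
theorem Gb.gd {F : Fam m J} {c : ℕ → Fin m} {g ga : ℕ → ℕ} {W n a k r D sg M : ℕ}
    {ψH : LnT F → ℕ → Option (Fin m) → ℝ} {Ht : LnT F → MvPolynomial (Option (Fin m)) ℝ}
    {G : PtT F → ℕ → MvPolynomial (Option (Fin m)) ℝ} {A : F.Ω → Prop}
    (H : Gb F c g ga W n a k r D sg M ψH Ht G A)
    (hfr : ∀ ω, A ω → ∀ V : Option (Fin m) → ℝ, V none = 0 →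
      |cv (ψH (slam F W ω) r) V - dd (G (ptr F J ω) r) (bt F ω) V| ≤
        2 ^ k / 2 ^ g r * en c g W (ψH (slam F W ω)) r V) :
    Gd F c g ga W a k r ψH G A :=
  ⟨H.inj, H.depG, H.pos, H.nat, fun ω hω l hl V hV => by
    rcases Nat.lt_or_eq_of_le hl with h | h
    · exact H.frm ω hω l h V
    · subst h
      exact hfr ω hω V hV⟩

section

variable {F : Fam m J} {c : ℕ → Fin m} {g ga : ℕ → ℕ} {W a k r D : ℕ}
    {ψH : LnT F → ℕ → Option (Fin m) → ℝ} {G : PtT F → ℕ → MvPolynomial (Option (Fin m)) ℝ}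
    {A B : F.Ω → Prop} {d : Dat F (ℕ → Option (Fin m) → ℝ) r D}

/-- **The own paths are the coordinates in the frame.** -/
def Fdv (F : Fam m J) {r D : ℕ} (d : Dat F (ℕ → Option (Fin m) → ℝ) r D) (c : ℕ → Fin m)
    (W : ℕ) (ψH : LnT F → ℕ → Option (Fin m) → ℝ) : Prop :=
  d.fc = ψH ∧ ∀ l ≤ r, ∀ ω ω', F.T ω = F.T ω' → ψH (slam F W ω) = ψH (slam F W ω') →
    d.v W l ω' - d.v W l ω = (bt F ω' - bt F ω) (some (c l)) -
      cv (ψH (slam F W ω) l) (bt F ω' - bt F ω)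

theorem hds_fdv {n q sg : ℕ} {Ht : LnT F → MvPolynomial (Option (Fin m)) ℝ}
    {hD : ∀ s, (Ht s).totalDegree ≤ D} (hW : W ≤ J) (hc : Set.InjOn c (Set.Iio r))
    (hψ : ∀ s l, CvC c l (ψH s l)) : Fdv F (hds F c g W n r D q sg ψH Ht hD) c W ψH :=
  ⟨rfl, fun _ hl _ _ hT e => hds_dv hW hc hψ hl hT e⟩

theorem Gd.sub (H : Gd F c g ga W a k r ψH G A) (hB : Sub B A) : Gd F c g ga W a k r ψH G B :=
  ⟨H.inj, H.depG, fun ω hω => H.pos ω (hB ω hω), fun l hl => (H.nat l hl).sub hB le_rfl,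
    fun ω hω => H.frm ω (hB ω hω)⟩

/-- **In a ball the frame digits of the first coordinates determine the next coordinate in the
frame**, up to the digits of the ball. -/
theorem Gd.vfew (H : Gd F c g ga W a k r ψH G A) (hd : Fdv F d c W ψH)
    {Y : ℝ} (hY : (2 * r + 2) * 2 ^ k ≤ Y) {ω ω' : F.Ω} (hω : A ω) (hω' : A ω')
    (hT : F.T ω = F.T ω') (hψ : ψH (slam F W ω) = ψH (slam F W ω'))
    (hG : ∀ l ≤ r, G (ptr F J ω) l = G (ptr F J ω') l) {l : ℕ} (hl : l ≤ r) {q' : ℕ}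
    (hq : ∀ j < l, |d.v W j ω' - d.v W j ω| ≤ 1 / 2 ^ (g j + q')) {N : ℕ} (h1 : N ≤ ga l)
    (h2 : N ≤ g l + q') :
    |d.v W l ω' - d.v W l ω| ≤ 2 * Y ^ (r + 4) / 2 ^ N := by
  obtain ⟨y2, yk1, yr, yr2, yk2, yk3, -⟩ := yk hY
  have e0 : ∀ ν : F.Ω, bt F ν none = F.t ν := fun _ => rfl
  have ht : F.t ω' = F.t ω := by
    unfold Fam.t
    rw [hT]
  have hx' : ∀ l ≤ r, |bt F ω' (some (c l)) - eval (bt F ω') (G (ptr F J ω) l)| ≤
      1 / 2 ^ ga l := fun l hl => by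
    rw [hG l hl]
    exact H.pos ω' hω' l hl
  have hp : Pr c g ga W a k r (G (ptr F J ω)) (F.t ω)
      (fun l => grd (G (ptr F J ω) l) (bt F ω)) (bt F ω) (bt F ω') := by
    refine ⟨⟨H.inj, H.depG _, fun l hl => ?_, ⟨?_, fun l hl => H.pos ω hω l hl.le⟩,
      ⟨?_, fun l hl => hx' l hl.le⟩⟩, ?_, fun l hl => H.pos ω hω l hl, hx', fun l _ V => ?_⟩
    · exact H.nat l hl ω hω
    · rw [e0, sub_self, abs_zero]
      positivity
    · rw [e0, ht, sub_self, abs_zero]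
      positivity
    · rw [e0, e0, ht]
    · rw [cv_grd, sub_self, abs_zero]
      have := en_nonneg c g W (fun l => grd (G (ptr F J ω) l) (bt F ω)) l V
      positivity
  have h0 : (bt F ω' - bt F ω) none = 0 := by
    rw [Pi.sub_apply, e0, e0, ht, sub_self]
  obtain ⟨x, hx⟩ : ∃ x : Option (Fin m) → ℝ, x = bt F ω' - bt F ω := ⟨_, rfl⟩
  have hen : ∀ j ≤ l, en c g W (ψH (slam F W ω)) j x ≤ j * (1 / 2 ^ q') := by
    intro j
    induction j with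
    | zero =>
      intro _
      rw [en_zero, hx, h0, abs_zero, mul_zero]
      simp
    | succ j ih =>
      intro hj
      have b1 := ih (by omega)
      have b2 := hq j (by omega)
      rw [hd.2 j (by omega) ω ω' hT hψ, ← hx] at b2
      rw [en_succ]
      have b3 : (2 : ℝ) ^ g j * |x (some (c j)) - cv (ψH (slam F W ω) j) x| ≤ 1 / 2 ^ q' := by
        refine (mul_le_mul_of_nonneg_left b2 (by positivity)).trans (le_of_eq ?_)
        rw [pow_add]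
        field_simp
      push_cast
      linarith
  rw [hd.2 l hl ω ω' hT hψ, ← hx]
  have c1 := hp.lin hY hl
  rw [← hx] at c1
  have c2 : |cv (ψH (slam F W ω) l) x - dd (G (ptr F J ω) l) (bt F ω) x| ≤
      2 ^ k / 2 ^ g l * en c g W (ψH (slam F W ω)) l x :=
    H.frm ω hω l hl x (by rw [hx]; exact h0)
  have c3 : (2 : ℝ) ^ k / 2 ^ g l * en c g W (ψH (slam F W ω)) l x ≤ Y ^ (r + 4) / 2 ^ N := by
    refine (mul_le_mul_of_nonneg_left (hen l le_rfl) (by positivity)).trans ?_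
    have d1 : (2 : ℝ) ^ k / 2 ^ g l * (l * (1 / 2 ^ q')) = (2 ^ k * l) / 2 ^ (g l + q') := by
      rw [pow_add]
      field_simp
    rw [d1]
    have hl' : (l : ℝ) ≤ r := by exact_mod_cast hl
    have d2 : (2 : ℝ) ^ k * l ≤ Y ^ (r + 4) := by
      have d3 : (2 : ℝ) ^ k * l ≤ Y * Y :=
        mul_le_mul yk1 (hl'.trans yr) (Nat.cast_nonneg l) (by linarith)
      have d4 : Y * Y = Y ^ 2 := by ring
      have d5 : Y ^ 2 ≤ Y ^ (r + 4) := pow_le_pow_right₀ (by linarith) (by omega)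
      linarith
    have d6 : (2 : ℝ) ^ N ≤ 2 ^ (g l + q') := pow_le_pow_right₀ (by norm_num) h2
    exact div_le_div₀ (by positivity) d2 (by positivity) d6
  have c4 : Y ^ (r + 4) / 2 ^ ga l ≤ Y ^ (r + 4) / 2 ^ N :=
    div_le_div_of_nonneg_left (by positivity) (by positivity)
      (pow_le_pow_right₀ (by norm_num) h1)
  have e1 : x (some (c l)) - cv (ψH (slam F W ω) l) x =
      (x (some (c l)) - dd (G (ptr F J ω) l) (bt F ω) x) -
      (cv (ψH (slam F W ω) l) x - dd (G (ptr F J ω) l) (bt F ω) x) := by ring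
  rw [e1]
  refine (abs_sub _ _).trans ?_
  have e2 : 2 * Y ^ (r + 4) / 2 ^ N = Y ^ (r + 4) / 2 ^ N + Y ^ (r + 4) / 2 ^ N := by ring
  rw [e2]
  linarith

/-- **The number of the values of the frame digits over a ball.** -/
theorem Gd.vcount (H : Gd F c g ga W a k r ψH G A) (hd : Fdv F d c W ψH)
    {p : F.Ω → ℝ} (hp : IsLaw p) (hpA : ∀ ω, 0 < p ω → A ω) {γ : Type} (G₁ : F.Ω → γ)
    (hG₁ : ∀ ω ω', 0 < p ω → 0 < p ω' → G₁ ω = G₁ ω' → F.W ω = F.W ω' ∧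
      ψH (slam F W ω) = ψH (slam F W ω') ∧ ∀ l ≤ r, G (ptr F J ω) l = G (ptr F J ω') l)
    {o : ℕ → ℕ} {q' : ℕ} (ho : ∀ l < r, o l ≤ ga l) (hou : ∀ l < r, o l ≤ g l + q') :
    CH p (Vfu d W fun l => g l + q') G₁ ≤
      ∑ l ∈ range r, ((g l + q' - o l : ℕ) : ℝ) * Real.log 2 +
      r * Real.log (2 * (2 * ((2 * r + 2) * 2 ^ k) ^ (r + 4) + 1 : ℕ) + 1) := by
  have h0 := hp.nonneg
  obtain ⟨K, hK⟩ : ∃ K : ℕ, K = 2 * ((2 * r + 2) * 2 ^ k) ^ (r + 4) := ⟨_, rfl⟩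
  have hKr : (K : ℝ) = 2 * ((2 * r + 2) * 2 ^ k) ^ (r + 4) := by
    rw [hK]
    push_cast
    ring
  rw [← hK]
  have h1 := CH_tri h0 (fun l ω => ⌊(2 : ℝ) ^ (g l + q') * d.v W l ω⌋) G₁ (n := r)
    (b := fun l => ((g l + q' - o l : ℕ) : ℝ) * Real.log 2 +
      Real.log (2 * (K + 1 : ℕ) + 1)) ?_
  · refine h1.trans (le_of_eq ?_)
    rw [Finset.sum_add_distrib, Finset.sum_const, Finset.card_range, nsmul_eq_mul]
  · intro l hl
    have h2 : CH p (fun ω => ⌊(2 : ℝ) ^ (g l + q') * d.v W l ω⌋)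
        (fun ω => ((fun j : Fin l => ⌊(2 : ℝ) ^ (g j + q') * d.v W j ω⌋), G₁ ω)) ≤
        Real.log (2 * (K * 2 ^ (g l + q' - o l) + 1 : ℕ) + 1) := by
      refine CH_pair hp _ _ fun ω ω' hω hω' e => ?_
      obtain ⟨e1, e2⟩ := Prod.ext_iff.1 e
      dsimp only at e1 e2
      obtain ⟨f1, f2, f3⟩ := hG₁ ω ω' hω hω' e2
      have f4 := H.vfew hd (le_of_eq rfl) (hpA ω hω) (hpA ω' hω') (Prod.ext_iff.1 f1).1 f2 f3
        hl.le (q' := q') (fun j hj => by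
          rw [abs_sub_comm]
          exact of_floor_mul (by positivity : (0 : ℝ) < 2 ^ (g j + q')) (congrFun e1 ⟨j, hj⟩))
        (ho l hl) (hou l hl)
      rw [← hKr, abs_sub_comm] at f4
      have f5 : |(2 : ℝ) ^ (g l + q') * d.v W l ω - 2 ^ (g l + q') * d.v W l ω'| ≤
          ((K * 2 ^ (g l + q' - o l) : ℕ) : ℝ) := by
        rw [← mul_sub, abs_mul, abs_of_pos (by positivity : (0 : ℝ) < 2 ^ (g l + q'))]
        refine (mul_le_mul_of_nonneg_left f4 (by positivity)).trans (le_of_eq ?_)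
        have f6 : (2 : ℝ) ^ (g l + q') = 2 ^ (g l + q' - o l) * 2 ^ o l := by
          rw [← pow_add]
          congr 1
          have := hou l hl
          omega
        rw [f6]
        push_cast
        field_simp
      have f7 := floor_sub_le f5
      exact_mod_cast f7
    refine h2.trans ?_
    have h3 : (2 : ℝ) * ((K * 2 ^ (g l + q' - o l) + 1 : ℕ) : ℝ) + 1 ≤
        2 ^ (g l + q' - o l) * (2 * ((K + 1 : ℕ) : ℝ) + 1) := by
      push_cast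
      have := one_le_pow₀ (by norm_num : (1 : ℝ) ≤ 2) (n := g l + q' - o l)
      nlinarith
    have h4 := Real.log_le_log (by positivity) h3
    rw [Real.log_mul (by positivity) (by positivity), Real.log_pow] at h4
    exact h4

/-- **The record of stage 1 over a deep ball.** -/
theorem Gd.recS (H : Gd F c g ga W a k r ψH G A) (hd : Fdv F d c W ψH) (hBA : Sub B A)
    (hB : 0 < Pe F.p B) {o : ℕ → ℕ} {q' n₂ : ℕ} (ho : ∀ l < r, o l ≤ ga l)
    (hou : ∀ l < r, o l ≤ g l + q') (hn1 : n₂ ≤ ga r) (hn2 : n₂ ≤ g r + q') {η : ℝ}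
    (hη : r * Real.log (2 * (2 * ((2 * r + 2) * 2 ^ k) ^ (r + 4) + 1 : ℕ) + 1) ≤ η)
    {β γ₁ : Type} (Yv : F.Ω → β) (G₁ : F.Ω → γ₁)
    (y1 : ∀ ω ω', B ω → B ω' → (∀ l < r, F.X J ω (c l) = F.X J ω' (c l)) → Yv ω = Yv ω')
    (y2 : ∀ ω ω', B ω → B ω' → G₁ ω = G₁ ω' → F.W ω = F.W ω' ∧
      ψH (slam F W ω) = ψH (slam F W ω') ∧ ∀ l ≤ r, G (ptr F J ω) l = G (ptr F J ω') l)
    (y3 : ∑ l ∈ range r, ((J - o l : ℕ) : ℝ) * Real.log 2 - η ≤
      CH (Pool.Agent.H49.Ent.cond F.p B True) Yv G₁) :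
    RecS F d W c (fun l => g l + q') o n₂ (2 * ((2 * r + 2) * 2 ^ k) ^ (r + 4)) η B := by
  have hp := isLaw_cond F.isLaw hB
  have hBp : ∀ ω, 0 < Pool.Agent.H49.Ent.cond F.p B True ω → B ω := fun ω hω => of_cond_pos hω
  have hKr : ((2 * ((2 * r + 2) * 2 ^ k) ^ (r + 4) : ℕ) : ℝ) =
      2 * ((2 * r + 2) * 2 ^ k) ^ (r + 4) := by
    push_cast
    ring
  refine ⟨β, γ₁, Yv, G₁, y1, fun ω ω' a b e1 => (y2 ω ω' a b e1).1, fun ω ω' a b e1 => ?_,
    ?_, ?_, y3⟩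
  · rw [hd.1]
    exact (y2 ω ω' a b e1).2.1
  · intro ω ω' hω hω' e1 e2
    obtain ⟨f1, f2, f3⟩ := y2 ω ω' hω hω' e1
    have f4 := H.vfew hd (le_of_eq rfl) (hBA ω hω) (hBA ω' hω') (Prod.ext_iff.1 f1).1 f2 f3
      le_rfl (q' := q') (fun j hj => by
        rw [abs_sub_comm]
        exact of_floor_mul (by positivity : (0 : ℝ) < 2 ^ (g j + q')) (e2 j hj))
      hn1 hn2
    rw [abs_sub_comm] at f4
    rw [← mul_sub, abs_mul, abs_of_pos (by positivity : (0 : ℝ) < 2 ^ n₂), hKr]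
    refine (mul_le_mul_of_nonneg_left f4 (by positivity)).trans (le_of_eq ?_)
    field_simp
  · have h1 := H.vcount hd hp (fun ω hω => hBA ω (hBp ω hω)) G₁ (fun ω ω' a b e1 =>
      y2 ω ω' (hBp ω a) (hBp ω' b) e1) ho hou
    exact h1.trans (add_le_add le_rfl hη)

end

/-- **The record of stage 1**, for the large events of a class. -/
theorem recS_cls {S : PCl m} {c : ℕ → Fin m} {r : ℕ}
    (hpos : Bas S (fun _ F A => 0 < Pe F.p A))
    {a : ℝ} {I : Finset (Fin m)} (hI : ∀ i ∈ I, ∃ l < r, c l = i) {cV : ℝ}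
    (hex : ExvY S a (fun J F ω (i : {x // x ∈ I}) => F.X J ω i) cV)
    {c₀ c₁ : ℝ} (hc₀ : 0 < c₀) (hc₁ : 0 < c₁) :
    Bas S (fun J F A => ∀ A₁ : F.Ω → Prop, Sub A₁ A → c₁ * Pe F.p A ≤ Pe F.p A₁ →
      ∀ (g ga : ℕ → ℕ) (W k D q' n₂ : ℕ) (ψH : LnT F → ℕ → Option (Fin m) → ℝ)
        (d : Dat F (ℕ → Option (Fin m) → ℝ) r D)
        (G : PtT F → ℕ → MvPolynomial (Option (Fin m)) ℝ)
        (HG : LnT F → ℕ → MvPolynomial (Option (Fin m)) ℝ)
        (zψ : PtT F → ℕ → Option (Fin m) → ℝ) (o : ℕ → ℕ) (η : ℝ),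
      Gd F c g ga W ⌊a * J⌋₊ k r ψH G A₁ → Fdv F d c W ψH →
      W ≤ ⌊a * J⌋₊ → ⌊a * J⌋₊ ≤ J →
      (∀ ω, A₁ ω → zψ (ptr F J ω) = ψH (slam F W ω)) →
      Pool.ISO.Clsd F (r + 1) ⌊a * J⌋₊ A₁ G HG →
      (∀ l < r, o l ≤ ga l) → (∀ l < r, o l ≤ g l + q') → n₂ ≤ ga r → n₂ ≤ g r + q' →
      ∑ l ∈ range r, ((J - o l : ℕ) : ℝ) * Real.log 2 - η ≤ cV * Real.log 2 * J →
      r * Real.log (2 * (2 * ((2 * r + 2) * 2 ^ k) ^ (r + 4) + 1 : ℕ) + 1) ≤ η →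
      ∀ B : F.Ω → Prop, Sub B A₁ → c₀ * Pe F.p A₁ ≤ Pe F.p B →
      RecS F d W c (fun l => g l + q') o n₂ (2 * ((2 * r + 2) * 2 ^ k) ^ (r + 4)) η B) := by
  have hcc : 0 < c₀ * c₁ := mul_pos hc₀ hc₁
  refine ((Pool.LBK.Bas.ev hex hcc).and hpos).mono 0 ?_
  rintro J - F A ⟨h2, hA⟩ A₁ hA₁ hPA g ga W k D q' n₂ ψH d G HG zψ o η
    H hd hWa haJ hψc hGc ho hou hn1 hn2 hsum hη B hBA hBc
  have hA₁0 : 0 < Pe F.p A₁ := lt_of_lt_of_le (mul_pos hc₁ hA) hPA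
  have hB : 0 < Pe F.p B := lt_of_lt_of_le (mul_pos hc₀ hA₁0) hBc
  have hBA' : Sub B A := fun ω hω => hA₁ ω (hBA ω hω)
  have hBc' : c₀ * c₁ * Pe F.p A ≤ Pe F.p B := by
    refine le_trans ?_ hBc
    rw [mul_assoc]
    exact mul_le_mul_of_nonneg_left hPA hc₀.le
  obtain ⟨z, hz⟩ : ∃ z : PtT F → (ℕ → Option (Fin m) → ℝ) ×
      (ℕ → MvPolynomial (Option (Fin m)) ℝ),
      z = fun y => (zψ y, fun l => if l ≤ r then G y l else 0) := ⟨_, rfl⟩
  obtain ⟨z', hz'⟩ : ∃ z' : LnT F → (ℕ → Option (Fin m) → ℝ) ×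
      (ℕ → MvPolynomial (Option (Fin m)) ℝ),
      z' = fun s => (ψH (co (⌊a * J⌋₊ - W) s), fun l => if l ≤ r then HG s l else 0) :=
    ⟨_, rfl⟩
  have e1 : ∀ ω, A₁ ω → z (ptr F J ω) = z' (slam F ⌊a * J⌋₊ ω) := by
    intro ω hω
    rw [hz, hz']
    refine Prod.ext ?_ (_root_.funext fun l => ?_)
    · dsimp only
      rw [co_slam F hWa haJ]
      exact hψc ω hω
    · dsimp only
      split_ifs with hl
      · exact hGc ω hω l (by omega)
      · rfl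
  have h3 := h2 B hBA' hBc' _ z z' fun ω hω => e1 ω (hBA ω hω)
  refine H.recS hd hBA hB ho hou hn1 hn2 hη (fun ω (i : {x // x ∈ I}) => F.X J ω i)
    (fun ω => (z' (slam F ⌊a * J⌋₊ ω), F.W ω)) (fun ω ω' _ _ e2 => ?_)
    (fun ω ω' hω hω' e2 => ?_) (hsum.trans h3)
  · refine _root_.funext fun i => ?_
    obtain ⟨l, hl, hl'⟩ := hI i i.2
    rw [← hl']
    exact e2 l hl
  · obtain ⟨e3, e4⟩ := Prod.ext_iff.1 e2
    dsimp only at e3 e4
    rw [hz'] at e3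
    obtain ⟨e5, e6⟩ := Prod.ext_iff.1 e3
    dsimp only at e5 e6
    rw [co_slam F hWa haJ, co_slam F hWa haJ] at e5
    refine ⟨e4, e5, fun l hl => ?_⟩
    have e7 := congrFun e6 l
    rw [if_pos hl, if_pos hl] at e7
    rw [hGc ω (hBA ω hω) l (by omega), hGc ω' (hBA ω' hω') l (by omega)]
    exact e7

end Pool.D2F2
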