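import Pool.Agent.H4.D2.Hnh

/-!
# The near frame digits of the hop are full, from the numbers of the pair

`CrN`: near digits of a pair given its velocities, near a point (= the conclusion of `cor_near`).
`hnv_cor`: the near frame digits at the windows of the ball.
-/

set_option autoImplicit false

namespace Pool.D2F2

open Finset Real MvPolynomial
open Pool.Agent.H49.Ent Pool.Agent.H32.Dense Pool.STK Pool.KA Pool.KSAT Pool.K2S Pool.PB Pool.GEN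
open Pool.S6C Pool.LA91 Pool.RCD Pool.CHT Pool.CHX
open Pool.OWN17 (yF kn_yF)
open Pool.ISO (Clsd)

variable {m : ℕ}

/-- **The near digits of a pair are full given its velocities**, near the window `x + s`: the
conclusion of `cor_near`, for all errors. -/
def CrN (S : PCl m) (y u v : Fin m) (s : ℝ) (U : ℚ → ℝ) (x φ Sl : ℝ) : Prop :=
  ∀ e : ℝ, 0 < e → ∃ i₀ : ℕ, ∀ i ≥ i₀, ∃ r₀ : ℝ, 0 < r₀ ∧ ∀ r : ℝ, 0 < r → r < r₀ →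
    ∀ w j j' l : ℚ, x - r ≤ w → w ≤ j → j < j' → j' ≤ l → (l : ℝ) ≤ x + r →
    ∀ g : ℚ, φ - e * r ≤ g → (g : ℝ) < φ - e / 4 * r → ∀ c₀ : ℝ, 0 < c₀ →
    ∃ k : ℝ, 0 < k ∧ ∃ e₀ : ℝ, 0 < e₀ ∧ ∀ K : ℕ, Bas S (fun J F A' =>
    ∀ (V₁ V₂ : Type) (z : F.Ω → V₁) (zj : F.Ω → V₂),
    Mx (fun J F => ptr F J) (vg ((w : ℝ) + s)) k F A' z →
    Mx (fun J F => ptr F J) (vg ((j : ℝ) + s)) k F A' zj → ∀ a b d,
    (gX m {y} u v s U g w j).P K e₀ J F A' a → (gX m {y} u v s U g w j').P K e₀ J F A' b →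
    (gD m {y} u v s U g w l).P K e₀ J F A' d →
    ∀ B' : F.Ω → Prop, Sub B' A' → c₀ * Pe F.p A' ≤ Pe F.p B' →
    (2 * (Sl * (j' - j) * Real.log 2) - 200 * (e * r)) * J ≤
      CH (Pool.Agent.H49.Ent.cond F.p B' True) b
        (fun ω => (a ω, (d ω, (zj ω, (z ω, yF F y ⌊(1 / 2 : ℝ) ^ i * J⌋₊ ω))))))

/-- **The near frame digits of the hop are full**, from the numbers of the pair: `o` the window of
the ball, `j'` the window of the last digits, `l` the window of the velocities, `ζ` the loss of the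
charts of the event. -/
theorem hnv_cor {S : PCl m} {C₀ : ℝ} (htm : TmC S C₀)
    (hpos : ∀ (τ : ℝ) (J : ℕ) (F : Fam m J) (A : F.Ω → Prop), S.St τ J F A → 0 < Pe F.p A)
    {c : ℕ → Fin m} {s : ℝ} {U : ℚ → ℝ} {x φ Sl : ℝ}
    (hC : CrN S (c 0) (c 1) (c 2) s U x φ Sl) {e : ℝ} (he : 0 < e) :
    ∃ i₀ : ℕ, ∀ i ≥ i₀, ∃ r₀ : ℝ, 0 < r₀ ∧ ∀ r : ℝ, 0 < r → r < r₀ →
    ∀ o j' l : ℚ, x - r ≤ o → o < j' → j' ≤ l → (l : ℝ) ≤ x + r →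
    ∀ g' : ℚ, φ - e * r ≤ g' → (g' : ℝ) < φ - e / 4 * r →
    ∀ {G : Set ℚ} {D₀ : ℚ → ℝ}, WinG S {c 0} (c 1) (c 2) G s U D₀ → o ∈ G → g' + U o ≤ D₀ o →
    ∀ ζ : ℝ, 0 ≤ ζ → 0 < U o + g' - ζ → U o ≤ 1 → U o + g' ≤ 1 → U j' + ζ ≤ 1 → U j' + g' ≤ 1 →
    U l - (l + s) ≤ 1 → U l - (l + s) + g' ≤ 1 →
    U j' - U o + 2 * ζ < min ((1 / 2 : ℝ) ^ i) (1 - ((o : ℝ) + s)) →
    (U l - ((l : ℝ) + s)) - (U o - ((o : ℝ) + s)) + ζ < min ((1 / 2 : ℝ) ^ i) (1 - ((o : ℝ) + s)) →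
    ∀ c₀ : ℝ, 0 < c₀ → ∃ κ : ℝ, 0 < κ ∧ ∃ e₁ : ℝ, 0 < e₁ ∧ ∀ D' : ℕ, Bas S (fun J F A₁ =>
      ∀ (D W n k q₀ q sg Mo : ℕ) (g go : ℕ → ℕ) (ψH : LnT F → ℕ → Option (Fin m) → ℝ)
        (zψ : PtT F → ℕ → Option (Fin m) → ℝ) (Ht : LnT F → MvPolynomial (Option (Fin m)) ℝ)
        (hD : ∀ s, (Ht s).totalDegree ≤ D) (Go : PtT F → ℕ → MvPolynomial (Option (Fin m)) ℝ)
        (Ho : LnT F → ℕ → MvPolynomial (Option (Fin m)) ℝ) (V : Type) (zo : F.Ω → V),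
      Gb F c g go W n ⌊((o : ℝ) + s) * J⌋₊ k 3 D sg Mo ψH Ht Go A₁ →
      Clsd F 3 ⌊((o : ℝ) + s) * J⌋₊ A₁ Go Ho →
      (∀ ω, A₁ ω → ∀ l < 3, (Go (ptr F J ω) l).totalDegree ≤ D') →
      (∀ ω, A₁ ω → zψ (ptr F J ω) = ψH (slam F W ω)) → W ≤ ⌊((o : ℝ) + s) * J⌋₊ →
      (∀ l < 3, l ≠ 0 → g l + q ≤ go l) → g 0 + (q + sg) ≤ J → go 0 + sg ≤ J →
      g 0 + q₀ ≤ W + 1 + ⌊(1 / 2 : ℝ) ^ i * J⌋₊ → g 0 + q ≤ W + 1 + ⌊(1 / 2 : ℝ) ^ i * J⌋₊ →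
      go 0 ≤ W + 1 + ⌊(1 / 2 : ℝ) ^ i * J⌋₊ → go 0 + ⌊((o : ℝ) + s) * J⌋₊ ≤ W + 1 + J → k ≤ J →
      (U o - ζ - e₁) * J ≤ go 1 → (U o + g' - ζ - e₁) * J + 4 * k ≤ go 2 →
      (U o + g' - ζ - e₁) * J + 4 * k + g 1 ≤ go 1 + g 2 →
      (g 1 : ℝ) + q ≤ W + 1 + k + (U l - (l + s)) * J →
      (g 2 : ℝ) + q ≤ W + 1 + k + (U l - (l + s) + g' - ζ) * J →
      (U j' + ζ) * J ≤ g 1 + (q + sg) → (U j' + g') * J ≤ g 2 + (q + sg) →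
      Mx (fun J F => ptr F J) (vg ((o : ℝ) + s)) κ F A₁ zo → KeyZ F W 3 ψH Go A₁ zo →
      ∀ B : F.Ω → Prop, Sub B A₁ → c₀ * Pe F.p A₁ ≤ Pe F.p B →
      (2 * (Sl * (j' - o) * Real.log 2) - 202 * (e * r)) * J - 700 * k ≤
        CH (Pool.Agent.H49.Ent.cond F.p B True)
        (fun ω (l : Fin (3 - 1)) =>
          Nfd (hdt2 F c g W n 3 D q₀ q sg ψH Ht hD) W (uu g q₀ q sg)
            (fun l => g l + qv q₀ q l) (1 + l) ω)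
        (fun ω => (zo ω, (F.W ω, (F.X J ω (c 0),
          cE (hdt2 F c g W n 3 D q₀ q sg ψH Ht hD) W ω))))) := by
  obtain ⟨i₀, h⟩ := hC e he
  refine ⟨i₀, fun i hi => ?_⟩
  obtain ⟨r₀, hr₀, h⟩ := h i hi
  refine ⟨r₀, hr₀, fun r hr hrr o j' l h1 h2 h3 h4 g' g1 g2 {G D₀} H hoG hgD ζ hζ z0 z1 z2 z3 z4
    z5 z6 z7 z8 c₀ hc₀ => ?_⟩
  have her : 0 < e * r := mul_pos he hr
  have w1 := H.w1 o hoG
  have n1 := nrp_unit (f := fun J F => ptr F J)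
    (y := fun J F => yF F (c 0) ⌊(1 / 2 : ℝ) ^ i * J⌋₊) hpos hc₀
    (h r hr hrr o o j' l h1 le_rfl h2 h3 h4 g' g1 g2 c₀ hc₀)
  have n2 := nrp_win htm hpos H (f := fun J F => ptr F J) (fun J F => ⟨id, fun _ => rfl⟩)
    (kn_yF (c 0) ((1 / 2 : ℝ) ^ i)) hoG hgD (q := U o - ζ) (p := U o + g' - ζ)
    (Na := U o - ζ) (Ma := U o + g' - ζ) (Nb := U j' + ζ) (Mb := U j' + g')
    (Nd := U l - (l + s)) (Md := U l - (l + s) + g' - ζ) (by linarith) (by linarith)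
    (lt_min (by positivity) (by linarith)) le_rfl le_rfl (by linarith) le_rfl (by linarith)
    (by linarith) (by linarith) le_rfl (by linarith) (by linarith) (by linarith) hc₀ n1
    (e := e * r) her
  obtain ⟨κ, hκ, e₁, he₁, K⟩ := hnv_p8 (c := c) hpos (Finset.mem_singleton_self (c 0))
    (kn_yF (c 0) ((1 / 2 : ℝ) ^ i)) (fun J F ω ω' hh => by
      unfold yF at hh
      simp only [Prod.mk.injEq] at hh
      exact ⟨Prod.ext hh.1 hh.2.2.2, hh.2.1⟩) exs_unit hc₀ z0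
    ⟨by linarith, z3, z5, by linarith, z4, by linarith⟩ n2 her
  refine ⟨κ, hκ, e₁, he₁, fun D' => Bas.mono 0 (K D') ?_⟩
  intro J _ F A₁ hh D W n k q₀ q sg Mo g go ψH zψ Ht hD Go Ho V zo a1 a2 a3 a4 a5 a6 a7 a8 a9 b1 b2
    b3 b4 b5 b6 b7 b8 b9 c1 c2 c3 c4 B hB hBc
  have hx : ⌊((o : ℝ) + s) * J⌋₊ ≤ J := Nat.floor_le_of_le (by
    have : (0 : ℝ) ≤ J := Nat.cast_nonneg J
    nlinarith)
  have h5 := hh D W n k q₀ q sg Mo g go ψH zψ Ht hD Go Ho V zo a1 a2 a3 a4 a5 hx a6 a7 a8 a9 b1 b2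
    b3 b4 b5 b6 b7 b8 b9 c1 c2 c3 c4 B hB hBc
  refine le_trans (le_of_eq ?_) h5
  ring

end Pool.D2F2
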