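import Pool.Agent.H4.D2.Hnw
import Pool.Agent.H23.D2.Fam

/-!
# Near frame digits are full, class form

`HvC`: the windows and the labels on an event. `hnv_cls`: for two rough coordinates over one slow
coordinate, the near frame digits are full given the record, the slow coordinate and the cells of
the velocities, from `NrP` (the output of `near_rel`).
-/

set_option autoImplicit false

namespace Pool.D2F2

open Finset Real MvPolynomial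
open Pool.Agent.H49.Ent Pool.Agent.H32.Dense Pool.STK Pool.KA Pool.KSAT Pool.K2S Pool.PB Pool.GEN
open Pool.S6C Pool.LA91 Pool.RCD Pool.CHT Pool.CHX
open Pool.ISO (Clsd)
open Pool.D2R (dd hs co nrm nrm_nonneg co_slam)
open Pool.D2F (cv CvC grd)
open Pool.D2S (dst)

variable {m : ℕ}

section

variable {J : ℕ} {F : Fam m J} {c : ℕ → Fin m} {g ga : ℕ → ℕ} {W a k r P : ℕ}
  {ψH : LnT F → ℕ → Option (Fin m) → ℝ} {G : PtT F → ℕ → MvPolynomial (Option (Fin m)) ℝ}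
  {B : F.Ω → Prop} {ω ω' : F.Ω}

/-- The velocity over the label which is affine in the first rough coordinate. -/
theorem Hgb.avel (H : Hgb F c g ga W a k r ψH G B) (hr : 3 ≤ r) (hω : B ω)
    (hg : g 1 ≤ ga 1 + g 2) : |vlp F (c 2) (afG F c W ψH G ω) ω| ≤ 2 ^ (4 * k + a + 6) := by
  have hp := (H.pm hω hω rfl fun _ _ => rfl).le hr
  have h1 := hp.pw.afl_vel (fun l => Pool.D2Z.cvc_grd (H.depG _ l) _) (i := 1) (by norm_num)
    (V := bd F ω) (E := 2 ^ (k + a))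
    (by
      change (2 : ℝ) ^ a * |(1 : ℝ)| ≤ _
      rw [abs_one, mul_one]
      exact pow_le_pow_right₀ (by norm_num) (by omega))
    (fun l hl => by
      have h2 := H.vel ω hω l (by omega)
      rw [le_div_iff₀ (by positivity), mul_comm] at h2
      exact h2)
  have h0 := hp.slp (i := 1) (by norm_num)
  have h2 := H.vel ω hω 1 (by omega)
  obtain ⟨x, hx⟩ : ∃ x, x = bd F ω (some (c 1)) - dd (G (ptr F J ω) 1) (bt F ω) (bd F ω) :=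
    ⟨_, rfl⟩
  obtain ⟨s, hs⟩ : ∃ s, s = ψH (slam F W ω) 2 (some (c 1)) := ⟨_, rfl⟩
  obtain ⟨s', hs'⟩ : ∃ s, s = grd (G (ptr F J ω) (1 + 1)) (bt F ω) (some (c 1)) := ⟨_, rfl⟩
  rw [← hs'] at h1 h0
  rw [← hx] at h2
  change 2 ^ g (1 + 1) * |ψH (slam F W ω) 2 (some (c 1)) - s'| ≤ 2 ^ k * 2 ^ g 1 at h0
  unfold afG
  rw [← hs] at h0 ⊢
  have e1 : vlp F (c 2) (afl c (G (ptr F J ω)) 1 s) ω =
      (bd F ω (some (c (1 + 1))) - dd (afl c (G (ptr F J ω)) 1 s') (bt F ω) (bd F ω)) -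
      (s - s') * x := by
    have e2 : ∀ j, bd F ω (some j) = F.d ω j := fun _ => rfl
    unfold vlp
    rw [dd_afl, dd_afl, hx, e2, e2]
    ring
  rw [e1]
  have h3 : |bd F ω (some (c (1 + 1))) - dd (afl c (G (ptr F J ω)) 1 s') (bt F ω) (bd F ω)| ≤
      2 ^ (4 * k + a + 5) := by
    have q1 : (1 : ℝ) ≤ 2 ^ ga (1 + 1) := one_le_pow₀ (by norm_num)
    have q2 := mul_le_mul_of_nonneg_right q1 (abs_nonneg
      (bd F ω (some (c (1 + 1))) - dd (afl c (G (ptr F J ω)) 1 s') (bt F ω) (bd F ω)))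
    rw [one_mul] at q2
    refine (q2.trans h1).trans (le_of_eq ?_)
    have e3 : (((1 + 3 : ℕ)) : ℝ) = 2 ^ 2 := by norm_num
    rw [e3, ← pow_add, ← pow_add]
    congr 1
    ring
  have h4 : |(s - s') * x| ≤ 2 ^ (2 * k + a) := by
    have q1 : |s - s'| ≤ 2 ^ k * 2 ^ g 1 / 2 ^ g 2 := by
      rw [le_div_iff₀ (by positivity), mul_comm]
      exact h0
    rw [abs_mul]
    calc |s - s'| * |x| ≤ 2 ^ k * 2 ^ g 1 / 2 ^ g 2 * (2 ^ (k + a) / 2 ^ ga 1) :=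
          mul_le_mul q1 h2 (abs_nonneg _) (by positivity)
      _ = 2 ^ (2 * k + a) * (2 ^ g 1 / (2 ^ ga 1 * 2 ^ g 2)) := by
          have : (2 : ℝ) ^ (2 * k + a) = 2 ^ k * 2 ^ (k + a) := by
            rw [← pow_add]
            congr 1
            ring
          rw [this]
          field_simp
      _ ≤ 2 ^ (2 * k + a) * 1 := by
          refine mul_le_mul_of_nonneg_left ?_ (by positivity)
          rw [div_le_one (by positivity), ← pow_add]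
          exact pow_le_pow_right₀ (by norm_num) hg
      _ = _ := mul_one _
  refine (abs_sub _ _).trans ?_
  have q1 : (2 : ℝ) ^ (2 * k + a) ≤ 2 ^ (4 * k + a + 5) :=
    pow_le_pow_right₀ (by norm_num) (by omega)
  have q2 : (2 : ℝ) ^ (4 * k + a + 6) = 2 * 2 ^ (4 * k + a + 5) := by
    rw [pow_succ]
    ring
  rw [q2]
  linarith

/-- The slow coordinate from the digits. -/
theorem sm1_of {j : Fin m} {P : ℕ} (hj : c 0 = j) (hT : F.T ω = F.T ω')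
    (hX : F.X J ω j = F.X J ω' j) (hD : F.D P ω j = F.D P ω' j) : Sm1 F c P ω ω' := by
  have e1 : ∀ {n : ℕ} {x y : ℝ}, ⌊(2 : ℝ) ^ n * x⌋ = ⌊(2 : ℝ) ^ n * y⌋ → |y - x| ≤ 1 / 2 ^ n :=
    fun {n x y} h => by
      rw [abs_sub_comm]
      exact Pool.D2H.of_floor_mul (by positivity) h
  refine ⟨hT, ?_, ?_⟩
  · rw [hj]
    exact e1 hX
  · rw [hj]
    exact e1 hD

end

/-- **The windows and the labels on an event.** -/
structure HvC {J : ℕ} (F : Fam m J) (c : ℕ → Fin m) (g ga u v s : ℕ → ℕ) (W a k P D : ℕ)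
    (ψH : LnT F → ℕ → Option (Fin m) → ℝ) (zψ : PtT F → ℕ → Option (Fin m) → ℝ)
    (G : PtT F → ℕ → MvPolynomial (Option (Fin m)) ℝ)
    (H : LnT F → ℕ → MvPolynomial (Option (Fin m)) ℝ) (A : F.Ω → Prop) : Prop where
  ball : Hgb F c g ga W a k 3 ψH G A
  cls : Clsd F 3 a A G H
  deg : ∀ ω, A ω → ∀ l < 3, (G (ptr F J ω) l).totalDegree ≤ D
  zψ : ∀ ω, A ω → zψ (ptr F J ω) = ψH (slam F W ω)
  Wa : W ≤ a
  aJ : a ≤ J
  lev : HvN J W a P g ga u v s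

theorem erH_le (k : ℕ) : erH k ≤ 700 * k + 1000 := by
  have hl7 : Real.log 2 ≤ 0.7 := by
    have := Real.log_two_lt_d9
    linarith
  have h1 : ∀ n : ℕ, Real.log (2 * ((2 ^ n : ℕ) + 1 : ℕ) + 1) ≤ ((n : ℝ) + 3) * 0.7 := by
    intro n
    have a1 : (2 * (((2 ^ n : ℕ) + 1 : ℕ) : ℝ) + 1) ≤ 2 ^ (n + 3) := by
      have : (1 : ℝ) ≤ 2 ^ n := one_le_pow₀ (by norm_num)
      rw [pow_add]
      push_cast
      linarith
    have a2 := Real.log_le_log (by positivity) a1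
    rw [Real.log_pow] at a2
    refine a2.trans ?_
    push_cast
    exact mul_le_mul_of_nonneg_left hl7 (by positivity)
  have h2 := h1 (kH k)
  have h3 := h1 (kH k + 2)
  unfold erH
  have h4 : ((kH k : ℕ) : ℝ) = 127 * k + 194 := by
    unfold kH
    push_cast
    ring
  push_cast at h2 h3 ⊢
  rw [h4] at h2 h3
  have hk : (0 : ℝ) ≤ k := Nat.cast_nonneg k
  linarith

theorem hnc_num {e₀ e₁ p x n : ℝ} (h : n ≤ (p - e₀) * x ∨ n = 0) (q1 : e₁ ≤ e₀ / 20)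
    (q4 : e₁ ≤ p / 20) (hx : 0 ≤ x) (j2 : 5 ≤ e₀ / 2 * x)
    (j4 : 5 ≤ p / 2 * x) : n + 5 ≤ (p - e₁) * x := by
  have m1 := mul_le_mul_of_nonneg_right q1 hx
  have m4 := mul_le_mul_of_nonneg_right q4 hx
  rcases h with h | h
  · linarith
  · linarith

/-- **Near frame digits are full given the record, the slow coordinate and the velocities**, class
form. -/
theorem hnv_cls {U₀ : Type} {S : PCl m} {α γ' : ∀ J : ℕ, Fam m J → Type}
    {f : ∀ (J : ℕ) (F : Fam m J), F.Ω → α J F} {y : ∀ (J : ℕ) (F : Fam m J), F.Ω → γ' J F}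
    (hpos : ∀ (τ : ℝ) (J : ℕ) (F : Fam m J) (A : F.Ω → Prop), S.St τ J F A → 0 < Pe F.p A)
    {c : ℕ → Fin m} {I : Finset (Fin m)} (hI : c 0 ∈ I) {lam : ℝ} (hy : Kn I 1 lam y)
    {Q₀ : Qt m U₀} (hQ₀ : Exs S Q₀) {x q p Na Nb Nd Ma Mb Md θ c₀ : ℝ} (hc₀ : 0 < c₀)
    (hp0 : 0 < p) (hN : Na ≤ 1 ∧ Nb ≤ 1 ∧ Nd ≤ 1 ∧ Ma ≤ 1 ∧ Mb ≤ 1 ∧ Md ≤ 1)
    (h : NrP S f y Q₀ (qP m I (c 1) (c 2) 0 x q Na p Ma) (qP m I (c 1) (c 2) 0 x q Nb p Mb)
      (qP m I (c 1) (c 2) 1 x q Nd p Md) x θ c₀) {e : ℝ} (he : 0 < e) :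
    ∃ κ : ℝ, 0 < κ ∧ ∃ e₁ : ℝ, 0 < e₁ ∧ ∀ D' : ℕ, Bas S (fun J F A =>
      ∀ (D W k : ℕ) (g ga u v s : ℕ → ℕ) (ψH : LnT F → ℕ → Option (Fin m) → ℝ)
        (zψ : PtT F → ℕ → Option (Fin m) → ℝ)
        (G : PtT F → ℕ → MvPolynomial (Option (Fin m)) ℝ)
        (H : LnT F → ℕ → MvPolynomial (Option (Fin m)) ℝ)
        (d : Dat F (ℕ → Option (Fin m) → ℝ) 3 D) (V T₂ : Type) (z : F.Ω → V) (w : F.Ω → T₂),
      HvC F c g ga u v s W ⌊x * J⌋₊ k ⌊lam * J⌋₊ D' ψH zψ G H A →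
      Fdl F d c W ψH → (∀ l < 3, d.SE l = 2 ^ s l) → k ≤ J →
      (q - e₁) * J ≤ ga 1 → (p - e₁) * J + 4 * k ≤ ga 2 →
      (p - e₁) * J + 4 * k + g 1 ≤ ga 1 + g 2 →
      (s 1 : ℝ) ≤ W + 1 + k + Nd * J → (s 2 : ℝ) ≤ W + 1 + k + Md * J →
      Nb * J ≤ u 1 → Mb * J ≤ u 2 → Mx f (vg x) κ F A z →
      (∀ ω ω', A ω → A ω' → z ω = z ω' → ψH (slam F W ω) = ψH (slam F W ω') ∧
        ∀ l < 3, G (ptr F J ω) l = G (ptr F J ω') l) →
      (∀ ω ω', A ω → A ω' → z ω = z ω' → y J F ω = y J F ω' → w ω = w ω') →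
      ∀ B : F.Ω → Prop, Sub B A → c₀ * Pe F.p A ≤ Pe F.p B →
      (θ - e) * J - 700 * k ≤ CH (Pool.Agent.H49.Ent.cond F.p B True)
        (fun ω (l : Fin 2) => Nfd d W u v (1 + l) ω)
        (fun ω => (z ω, (w ω, cE d W ω)))) := by
  obtain ⟨hNa, hNb, hNd, hMa, hMb, hMd⟩ := hN
  obtain ⟨κ, hκ, e₀, he₀, hH⟩ := h
  obtain ⟨K₀, M₀, hex⟩ := hQ₀ e₀ he₀
  have hpc : Bas S (fun _ F A => 0 < Pe F.p A) := ⟨1, one_pos, 0, fun J _ F A hA =>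
    hpos 1 J F A hA⟩
  obtain ⟨e₁, he1⟩ : ∃ e₁ : ℝ, e₁ = min (e₀ / 20) (p / 20) := ⟨_, rfl⟩
  have he₁ : 0 < e₁ := by
    rw [he1]
    exact lt_min (by positivity) (by positivity)
  have q1 : e₁ ≤ e₀ / 20 := by
    rw [he1]
    exact min_le_left _ _
  have q4 : e₁ ≤ p / 20 := by
    rw [he1]
    exact min_le_right _ _
  obtain ⟨J₁, hJ₁⟩ := exists_nat_ge (5 / (e₀ / 2) + 2000 / (e / 2) + 10 + 5 / (p / 2))
  refine ⟨κ, hκ, e₁, he₁, fun D' => ?_⟩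
  obtain ⟨K, hK⟩ : ∃ K, K = max K₀ ((D' + 1) * (D' + 1) + 20) := ⟨_, rfl⟩
  refine Bas.mono J₁ (((hH K).and hex).and hpc) ?_
  rintro J hJ F A ⟨⟨hJN, u₀, hu₀, -⟩, hA⟩ D W k g ga u v s ψH zψ G H d V T₂ z w HC hd hSE kJ
    c1 c2 c3 c4 c5 c6 c7 hz hzk hw B hB hBc
  have hJ1' : (J₁ : ℝ) ≤ J := by exact_mod_cast hJ
  have hJ0 : (0 : ℝ) ≤ J := Nat.cast_nonneg J
  have t1 : (0 : ℝ) ≤ 5 / (e₀ / 2) := by positivity
  have t2 : (0 : ℝ) ≤ 2000 / (e / 2) := by positivity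
  have t3 : (0 : ℝ) ≤ 5 / (p / 2) := by positivity
  have j1 : (10 : ℝ) ≤ J := by linarith
  have j2 : 5 ≤ e₀ / 2 * J := by
    have : 5 / (e₀ / 2) ≤ J := by linarith
    rw [div_le_iff₀ (by positivity)] at this
    linarith
  have j3 : 2000 ≤ e / 2 * J := by
    have : 2000 / (e / 2) ≤ J := by linarith
    rw [div_le_iff₀ (by positivity)] at this
    linarith
  have j4 : 5 ≤ p / 2 * J := by
    have : 5 / (p / 2) ≤ J := by linarith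
    rw [div_le_iff₀ (by positivity)] at this
    linarith
  have jn : 10 ≤ J := by exact_mod_cast j1
  have hKD : (D' + 1) * (D' + 1) ≤ K := by
    rw [hK]
    exact (Nat.le_add_right _ _).trans (le_max_right _ _)
  have hKD1 : D' ≤ K := by nlinarith
  have hK20 : 20 ≤ K := by
    rw [hK]
    exact (Nat.le_add_left _ _).trans (le_max_right _ _)
  have hK0 : K₀ ≤ K := by
    rw [hK]
    exact le_max_left _ _
  -- the labels
  have hcl1 : ∀ ω, A ω → G (ptr F J ω) 1 = H (slam F ⌊x * J⌋₊ ω) 1 := fun ω hω =>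
    HC.cls ω hω 1 (by norm_num)
  have hcc : ∀ l < 1, c l ≠ c 1 := fun l hl e => by
    have := HC.ball.inj (Set.mem_Iio.2 (by omega : l < 3))
      (Set.mem_Iio.2 (by omega : 1 < 3)) e
    omega
  obtain ⟨Q, hQ⟩ : ∃ Q : PtT F → MvPolynomial (Option (Fin m)) ℝ × ℝ,
    Q = fun s => (afl c (G s) 1 (zψ s 2 (some (c 1))), zψ s 2 (some (c 1))) := ⟨_, rfl⟩
  obtain ⟨QH, hQH⟩ : ∃ Q : LnT F → MvPolynomial (Option (Fin m)) ℝ × ℝ,
    Q = fun s => (afl c (H s) 1 (ψH (co (⌊x * J⌋₊ - W) s) 2 (some (c 1))),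
      ψH (co (⌊x * J⌋₊ - W) s) 2 (some (c 1))) := ⟨_, rfl⟩
  have hQe : ∀ ω, A ω → (Q (ptr F J ω)).1 = afG F c W ψH G ω := fun ω hω => by
    rw [hQ]
    unfold afG
    dsimp only
    rw [HC.zψ ω hω]
  have hQc : ∀ ω, A ω → Q (ptr F J ω) = QH (slam F ⌊x * J⌋₊ ω) := fun ω hω => by
    have e1 : afl c (G (ptr F J ω)) 1 = afl c (H (slam F ⌊x * J⌋₊ ω)) 1 := by
      funext s
      unfold afl
      rw [HC.cls ω hω 1 (by norm_num), HC.cls ω hω (1 + 1) (by norm_num)]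
    rw [hQ, hQH]
    dsimp only
    rw [HC.zψ ω hω, co_slam F HC.Wa HC.aJ ω, e1]
  have hQd : ∀ ω, A ω → DepC c (1 + 1) (Q (ptr F J ω)).1 := fun ω _ => by
    rw [hQ]
    exact afl_dep hcc (HC.ball.depG _ 1) (HC.ball.depG _ (1 + 1))
  have hQa : ∀ ω, A ω → AfI (c 1) (Q (ptr F J ω)).2 (Q (ptr F J ω)).1 := fun ω _ => by
    rw [hQ]
    exact afl_afi hcc (HC.ball.depG _ 1)
  have hQg : ∀ ω, A ω → (Q (ptr F J ω)).1.totalDegree ≤ K := fun ω hω => by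
    rw [hQ]
    refine (afl_deg (D := D' + 1) (by omega) ((HC.deg ω hω 1 (by norm_num)).trans (by omega))
      ((HC.deg ω hω (1 + 1) (by norm_num)).trans (by omega))).trans hKD
  have hG1 : ∀ ω, A ω → (G (ptr F J ω) 1).totalDegree ≤ K := fun ω hω =>
    (HC.deg ω hω 1 (by norm_num)).trans hKD1
  have hI' : ∀ l < 1, c l ∈ I := fun l hl => by
    have : l = 0 := by omega
    rw [this]
    exact hI
  have hg1 : g 1 ≤ ga 1 + g 2 := by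
    have := HC.lev.va3
    omega
  -- the positions
  have hp1 : ∀ ω, A ω → |F.x ω (c 1) - eval (bt F ω) (G (ptr F J ω) 1)| ≤
      1 / 2 ^ ⌊(q - e₀) * J⌋₊ := fun ω hω => by
    refine (HC.ball.pos ω hω 1 (by norm_num)).trans (one_div_le_one_div_of_le (by positivity)
      (pow_le_pow_right₀ (by norm_num) (Nat.floor_le_of_le (le_trans ?_ c1))))
    exact mul_le_mul_of_nonneg_right (by linarith) hJ0
  have hp2 : ∀ ω, A ω → |F.x ω (c 2) - eval (bt F ω) (Q (ptr F J ω)).1| ≤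
      1 / 2 ^ ⌊(p - e₀) * J⌋₊ := fun ω hω => by
    rw [hQe ω hω]
    have f1 := HC.ball.apos le_rfl hω
    change |F.x ω (c 2) - eval (bt F ω) (afG F c W ψH G ω)| ≤ _ at f1
    refine f1.trans ?_
    obtain ⟨n, hn⟩ : ∃ n, n = ⌊(p - e₀) * J⌋₊ := ⟨_, rfl⟩
    rw [← hn]
    have n1 : (n : ℝ) + 5 ≤ (p - e₁) * J := by
      refine hnc_num (e₀ := e₀) ?_ q1 q4 hJ0 j2 j4
      rcases Nat.eq_zero_or_pos n with h0 | h0
      · right
        rw [h0]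
        exact Nat.cast_zero
      · left
        rw [hn]
        refine Nat.floor_le (le_of_lt ?_)
        by_contra hcon
        push Not at hcon
        rw [Nat.floor_of_nonpos hcon] at hn
        omega
    have n2 : n + 4 * k + 5 ≤ ga 2 := by
      have : ((n + 4 * k + 5 : ℕ) : ℝ) ≤ ga 2 := by
        push_cast
        linarith
      exact_mod_cast this
    have n3 : n + 4 * k + 5 + g 1 ≤ ga 1 + g 2 := by
      have : ((n + 4 * k + 5 + g 1 : ℕ) : ℝ) ≤ ((ga 1 + g 2 : ℕ) : ℝ) := by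
        push_cast
        linarith
      exact_mod_cast this
    have e1 : (1 : ℝ) / 2 ^ n = 1 / 2 ^ (n + 1) + 1 / 2 ^ (n + 1) := by
      rw [pow_succ]
      field_simp
      norm_num
    rw [e1]
    refine add_le_add ?_ ?_
    · rw [div_le_div_iff₀ (by positivity) (by positivity), one_mul, ← pow_add]
      exact pow_le_pow_right₀ (by norm_num) (by omega)
    · rw [div_div, ← mul_div_assoc, div_le_div_iff₀ (by positivity) (by positivity), one_mul,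
        ← pow_add, ← pow_add, ← pow_add]
      exact pow_le_pow_right₀ (by norm_num) (by omega)
  -- the numbers of values
  have big : ∀ {n n' : ℕ} {X : ℝ}, |X| ≤ 2 ^ n → n ≤ n' * J → |X| ≤ 2 ^ (n' * J) := fun h1 h2 =>
    h1.trans (pow_le_pow_right₀ (by norm_num) h2)
  have aJ := HC.aJ
  have x1 : ∀ ω, A ω → |ojet F (c 1) 0 (G (ptr F J ω) 1) ω| ≤ 2 ^ (11 * J) := fun ω hω => by
    rw [ojet_hgp]
    refine (HC.ball.pos ω hω 1 (by norm_num)).trans ?_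
    have a1 : (1 : ℝ) / 2 ^ ga 1 ≤ 1 := by
      rw [div_le_one (by positivity)]
      exact one_le_pow₀ (by norm_num)
    exact a1.trans (one_le_pow₀ (by norm_num))
  have x2 : ∀ ω, A ω → |ojet F (c 2) 0 (Q (ptr F J ω)).1 ω| ≤ 2 ^ (11 * J) := fun ω hω => by
    rw [ojet_hgp]
    refine (hp2 ω hω).trans ?_
    have a1 : (1 : ℝ) / 2 ^ ⌊(p - e₀) * J⌋₊ ≤ 1 := by
      rw [div_le_one (by positivity)]
      exact one_le_pow₀ (by norm_num)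
    exact a1.trans (one_le_pow₀ (by norm_num))
  have x3 : ∀ ω, A ω → |ojet F (c 1) 1 (G (ptr F J ω) 1) ω| ≤ 2 ^ (11 * J) := fun ω hω => by
    rw [ojet_vlp]
    refine (HC.ball.vel ω hω 1 (by norm_num)).trans ?_
    rw [div_le_iff₀ (by positivity)]
    have a1 : (1 : ℝ) ≤ 2 ^ ga 1 := one_le_pow₀ (by norm_num)
    have a2 : (2 : ℝ) ^ (k + ⌊x * J⌋₊) ≤ 2 ^ (11 * J) :=
      pow_le_pow_right₀ (by norm_num) (by omega)
    have a3 : (0 : ℝ) < 2 ^ (11 * J) := by positivity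
    nlinarith
  have x4 : ∀ ω, A ω → |ojet F (c 2) 1 (Q (ptr F J ω)).1 ω| ≤ 2 ^ (11 * J) := fun ω hω => by
    rw [ojet_vlp, hQe ω hω]
    exact big (HC.ball.avel le_rfl hω hg1) (by omega)
  have hJ1 : 1 ≤ J := by omega
  -- the codes
  have PA : (qP m I (c 1) (c 2) 0 x q Na p Ma).P K e₀ J F A
      (fun ω => (⌊(2 : ℝ) ^ (Na * J) * ojet F (c 1) 0 (G (ptr F J ω) 1) ω⌋,
        ⌊(2 : ℝ) ^ (Ma * J) * ojet F (c 2) 0 (Q (ptr F J ω)).1 ω⌋)) :=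
    ⟨qjet_mk (Q := fun s => G s 1) (H := fun s => H s 1) hI' hcl1
      (fun ω _ => HC.ball.depG _ 1) hG1 hp1 (cnt_fl hJ1 hNa x1 (by omega)),
      qa_mk hI' hQc hQd hQa hQg hp2 (cnt_fl hJ1 hMa x2 (by omega))⟩
  have PB : (qP m I (c 1) (c 2) 0 x q Nb p Mb).P K e₀ J F A
      (fun ω => (⌊(2 : ℝ) ^ (Nb * J) * ojet F (c 1) 0 (G (ptr F J ω) 1) ω⌋,
        ⌊(2 : ℝ) ^ (Mb * J) * ojet F (c 2) 0 (Q (ptr F J ω)).1 ω⌋)) :=
    ⟨qjet_mk (Q := fun s => G s 1) (H := fun s => H s 1) hI' hcl1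
      (fun ω _ => HC.ball.depG _ 1) hG1 hp1 (cnt_fl hJ1 hNb x1 (by omega)),
      qa_mk hI' hQc hQd hQa hQg hp2 (cnt_fl hJ1 hMb x2 (by omega))⟩
  have PD : (qP m I (c 1) (c 2) 1 x q Nd p Md).P K e₀ J F A
      (fun ω => (⌊(2 : ℝ) ^ (Nd * J) * ojet F (c 1) 1 (G (ptr F J ω) 1) ω⌋,
        ⌊(2 : ℝ) ^ (Md * J) * ojet F (c 2) 1 (Q (ptr F J ω)).1 ω⌋)) :=
    ⟨qjet_mk (Q := fun s => G s 1) (H := fun s => H s 1) hI' hcl1
      (fun ω _ => HC.ball.depG _ 1) hG1 hp1 (cnt_fl hJ1 hNd x3 (by omega)),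
      qa_mk hI' hQc hQd hQa hQg hp2 (cnt_fl hJ1 hMd x4 (by omega))⟩
  have hB0 : 0 < Pe F.p B := lt_of_lt_of_le (mul_pos hc₀ hA) hBc
  have hcl := isLaw_cond F.isLaw hB0
  have hsu : ∀ ω, 0 < Pool.Agent.H49.Ent.cond F.p B True ω → A ω := fun ω hω =>
    hB ω (of_cond_pos hω)
  have key := hJN V z hz u₀ _ _ _ (Q₀.mono hK0 le_rfl hu₀) PA PB PD B hB hBc
  obtain ⟨ζ, hζ⟩ := hy J F
  have hr : ∀ {n : ℕ} {N x : ℝ}, (n : ℝ) ≤ x + N * J → (2 : ℝ) ^ n ≤ 2 ^ x * 2 ^ (N * J) :=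
    fun {n N x} h => by
      rw [← Real.rpow_natCast, ← Real.rpow_add two_pos]
      exact Real.rpow_le_rpow_of_exponent_le (by norm_num) h
  have hr' : ∀ {n : ℕ} {N : ℝ}, N * J ≤ n → (2 : ℝ) ^ (N * J) ≤ 2 ^ n := fun {n N} h => by
    rw [← Real.rpow_natCast]
    exact Real.rpow_le_rpow_of_exponent_le (by norm_num) h
  have hWk : (2 : ℝ) ^ ((W : ℝ) + 1 + k) = 2 ^ (W + 1) * 2 ^ k := by
    have : (W : ℝ) + 1 + k = ((W + 1 + k : ℕ) : ℝ) := by push_cast; ring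
    rw [this, Real.rpow_natCast, pow_add]
  have h2 := hnv_ev (P := ⌊lam * J⌋₊) (B := A) hcl HC.ball hsu hd HC.lev hSE
    (σ₀ := 2 ^ (Nd * J)) (σ₁ := 2 ^ (Md * J)) (Real.rpow_pos_of_pos two_pos _)
    (Real.rpow_pos_of_pos two_pos _) (by rw [← hWk]; exact hr c4) (by rw [← hWk]; exact hr c5)
    (β₀ := 2 ^ (Nb * J)) (β₁ := 2 ^ (Mb * J)) (Real.rpow_pos_of_pos two_pos _).le
    (Real.rpow_pos_of_pos two_pos _).le (hr' c6) (hr' c7)
    (fun ω => ((⌊(2 : ℝ) ^ (Na * J) * ojet F (c 1) 0 (G (ptr F J ω) 1) ω⌋,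
        ⌊(2 : ℝ) ^ (Ma * J) * ojet F (c 2) 0 (Q (ptr F J ω)).1 ω⌋),
      ((⌊(2 : ℝ) ^ (Nd * J) * ojet F (c 1) 1 (G (ptr F J ω) 1) ω⌋,
        ⌊(2 : ℝ) ^ (Md * J) * ojet F (c 2) 1 (Q (ptr F J ω)).1 ω⌋), (z ω, (u₀ ω, y J F ω)))))
    z w (fun ω ω' hω hω' e => by
      have hω1 := hsu ω hω
      have hω2 := hsu ω' hω'
      simp only [Prod.mk.injEq] at e
      obtain ⟨-, ⟨e2, e3⟩, e4, -, e5⟩ := e
      obtain ⟨k1, k2⟩ := hzk ω ω' hω1 hω2 e4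
      have k3 : ζ (y J F ω) = ζ (y J F ω') := by rw [e5]
      rw [hζ, hζ] at k3
      simp only [Prod.mk.injEq] at k3
      obtain ⟨k4, k5, k6⟩ := k3
      have k7 := congrFun k5 (c 0)
      have k8 := congrFun k6 (c 0)
      rw [if_pos hI, if_pos hI] at k7 k8
      have e1J : ⌊(1 : ℝ) * J⌋₊ = J := by rw [one_mul, Nat.floor_natCast]
      rw [e1J] at k7
      rw [ojet_vlp, ojet_vlp] at e2 e3
      rw [hQe ω hω1, hQe ω' hω2] at e3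
      exact ⟨e4, hw ω ω' hω1 hω2 e4 e5, sm1_of rfl k4 k7 k8, k1, k2, e2, e3⟩)
  have h3 : CH (Pool.Agent.H49.Ent.cond F.p B True)
      (fun ω => (⌊(2 : ℝ) ^ (Nb * J) * ojet F (c 1) 0 (G (ptr F J ω) 1) ω⌋,
        ⌊(2 : ℝ) ^ (Mb * J) * ojet F (c 2) 0 (Q (ptr F J ω)).1 ω⌋))
      (fun ω => ((⌊(2 : ℝ) ^ (Na * J) * ojet F (c 1) 0 (G (ptr F J ω) 1) ω⌋,
        ⌊(2 : ℝ) ^ (Ma * J) * ojet F (c 2) 0 (Q (ptr F J ω)).1 ω⌋),
      ((⌊(2 : ℝ) ^ (Nd * J) * ojet F (c 1) 1 (G (ptr F J ω) 1) ω⌋,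
        ⌊(2 : ℝ) ^ (Md * J) * ojet F (c 2) 1 (Q (ptr F J ω)).1 ω⌋), (z ω, (u₀ ω, y J F ω))))) ≤
      CH (Pool.Agent.H49.Ent.cond F.p B True)
      (fun ω => (⌊(2 : ℝ) ^ (Nb * J) * hgp F (c 1) (G (ptr F J ω) 1) ω⌋,
        ⌊(2 : ℝ) ^ (Mb * J) * hgp F (c 2) (afG F c W ψH G ω) ω⌋))
      (fun ω => ((⌊(2 : ℝ) ^ (Na * J) * ojet F (c 1) 0 (G (ptr F J ω) 1) ω⌋,
        ⌊(2 : ℝ) ^ (Ma * J) * ojet F (c 2) 0 (Q (ptr F J ω)).1 ω⌋),
      ((⌊(2 : ℝ) ^ (Nd * J) * ojet F (c 1) 1 (G (ptr F J ω) 1) ω⌋,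
        ⌊(2 : ℝ) ^ (Md * J) * ojet F (c 2) 1 (Q (ptr F J ω)).1 ω⌋), (z ω, (u₀ ω, y J F ω))))) := by
    refine CH_mono_left hcl.nonneg fun ω ω' hω hω' e => ?_
    simp only [Prod.mk.injEq] at e ⊢
    rw [ojet_hgp, ojet_hgp, ojet_hgp, ojet_hgp, hQe ω (hsu ω hω), hQe ω' (hsu ω' hω')]
    exact e.1
  have h4 := erH_le k
  have h5 : (1000 : ℝ) ≤ e * J := by linarith
  have h6 := key.trans (h3.trans h2)
  rw [sub_mul]
  linarith

end Pool.D2F2
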