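import Pool.Agent.H4.D2.Hnv
import Pool.Agent.H91.LA.Nump

/-!
# Near digits over the charts of an event

`NrP.conv`: change of the labels in the statement about near digits given the velocities.
`nrp_win`: labels of smaller precision, for the windows of a pair.
-/

set_option autoImplicit false

namespace Pool.D2F2

open Finset Real MvPolynomial
open Pool.Agent.H49.Ent Pool.Agent.H32.Dense Pool.STK Pool.KA Pool.KSAT Pool.K2S Pool.PB Pool.GEN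
open Pool.S6C Pool.LA91 Pool.RCD
open Pool.OWN83 (ch_part)

variable {m : ℕ} {U₀ U₁ U₂ U₃ V₁ V₂ V₃ : Type} {α γ' : ∀ J : ℕ, Fam m J → Type}
  {S : PCl m} {f : ∀ (J : ℕ) (F : Fam m J), F.Ω → α J F}
  {y : ∀ (J : ℕ) (F : Fam m J), F.Ω → γ' J F}

/-- The change of three quantities, one law. -/
theorem ch_conv {Ω A B D A' B' D' R : Type} [Fintype Ω] {p : Ω → ℝ} (hp : ∀ ω, 0 ≤ p ω)
    (a : Ω → A) (b : Ω → B) (d : Ω → D) (a' : Ω → A') (b' : Ω → B') (d' : Ω → D') (z : Ω → R)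
    {e : ℝ} (ha : CH p a' (fun ω => (a ω, z ω)) ≤ e) (hd : CH p d' (fun ω => (d ω, z ω)) ≤ e)
    (hb : CH p b (fun ω => (b' ω, z ω)) ≤ e) :
    CH p b (fun ω => (a ω, (d ω, z ω))) ≤ CH p b' (fun ω => (a' ω, (d' ω, z ω))) + 3 * e := by
  have h1 := CH_le_add hp b a' (fun ω => (a ω, (d ω, z ω)))
  have h2 : CH p a' (fun ω => (a ω, (d ω, z ω))) ≤ CH p a' (fun ω => (a ω, z ω)) :=
    CH_mono_cond hp fun _ _ _ _ hh => by
      simp only [Prod.mk.injEq] at hh ⊢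
      exact ⟨hh.1, hh.2.2⟩
  have h3 := CH_le_add hp b d' (fun ω => (a' ω, (a ω, (d ω, z ω))))
  have h4 : CH p d' (fun ω => (a' ω, (a ω, (d ω, z ω)))) ≤ CH p d' (fun ω => (d ω, z ω)) :=
    CH_mono_cond hp fun _ _ _ _ hh => by
      simp only [Prod.mk.injEq] at hh ⊢
      exact hh.2.2
  have h5 := CH_le_add hp b b' (fun ω => (d' ω, (a' ω, (a ω, (d ω, z ω)))))
  have h6 : CH p b' (fun ω => (d' ω, (a' ω, (a ω, (d ω, z ω))))) ≤
      CH p b' (fun ω => (a' ω, (d' ω, z ω))) :=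
    CH_mono_cond hp fun _ _ _ _ hh => by
      simp only [Prod.mk.injEq] at hh ⊢
      exact ⟨hh.2.1, hh.1, hh.2.2.2.2⟩
  have h7 : CH p b (fun ω => (b' ω, (d' ω, (a' ω, (a ω, (d ω, z ω)))))) ≤
      CH p b (fun ω => (b' ω, z ω)) :=
    CH_mono_cond hp fun _ _ _ _ hh => by
      simp only [Prod.mk.injEq] at hh ⊢
      exact ⟨hh.1, hh.2.2.2.2.2⟩
  linarith

/-- **Change of the labels.** -/
theorem NrP.conv
    (hpos : ∀ (τ : ℝ) (J : ℕ) (F : Fam m J) (A : F.Ω → Prop), S.St τ J F A → 0 < Pe F.p A)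
    {Q₀ : Qt m U₀} {QA : Qt m U₁} {QB : Qt m U₂} {QD : Qt m U₃} {QA' : Qt m V₁} {QB' : Qt m V₂}
    {QD' : Qt m V₃} {x θ c₀ : ℝ} (hc₀ : 0 < c₀) (h : NrP S f y Q₀ QA QB QD x θ c₀)
    (xA : Exs S QA) (xB : Exs S QB) (xD : Exs S QD) (fA : Few S f (vg x) y QA QA')
    (fB : Few S f (vg x) y QB' QB) (fD : Few S f (vg x) y QD QD') {e : ℝ} (he : 0 < e) :
    NrP S f y Q₀ QA' QB' QD' x (θ - e) c₀ := by
  have hce : 0 < c₀ * (e / 3) := by positivity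
  obtain ⟨κ, hκ, e₀, he₀, hN⟩ := h
  obtain ⟨e1, he1, h1⟩ := fA.mx hpos (c₀ * (e / 3)) hce
  obtain ⟨e2, he2, h2⟩ := fB.mx hpos (c₀ * (e / 3)) hce
  obtain ⟨e3, he3, h3⟩ := fD.mx hpos (c₀ * (e / 3)) hce
  obtain ⟨e', he', m0, m1, m2, m3⟩ : ∃ e' : ℝ, 0 < e' ∧ e' ≤ e₀ ∧ e' ≤ e1 ∧ e' ≤ e2 ∧ e' ≤ e3 :=
    ⟨min (min e₀ e1) (min e2 e3), lt_min (lt_min he₀ he1) (lt_min he2 he3),
      (min_le_left _ _).trans (min_le_left _ _), (min_le_left _ _).trans (min_le_right _ _),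
      (min_le_right _ _).trans (min_le_left _ _), (min_le_right _ _).trans (min_le_right _ _)⟩
  obtain ⟨KA, MA, hA⟩ := xA e' he'
  obtain ⟨KB, MB, hB⟩ := xB e' he'
  obtain ⟨KD, MD, hD⟩ := xD e' he'
  refine ⟨min κ (c₀ * (e / 3) / 2), lt_min hκ (by positivity), e', he', fun K => ?_⟩
  obtain ⟨K', n0, n1, n2, n3⟩ : ∃ K' : ℕ, K ≤ K' ∧ KA ≤ K' ∧ KB ≤ K' ∧ KD ≤ K' :=
    ⟨max (max K KA) (max KB KD), (le_max_left _ _).trans (le_max_left _ _),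
      (le_max_right _ _).trans (le_max_left _ _), (le_max_left _ _).trans (le_max_right _ _),
      (le_max_right _ _).trans (le_max_right _ _)⟩
  refine Bas.mono 0 (((((hN K').and (h1 K')).and ((h2 K').and (h3 K'))).and
    ((hA.and hB).and hD)).and (pos_bas hpos)) ?_
  rintro J - F A ⟨⟨⟨⟨N, F1⟩, F2, F3⟩, ⟨⟨a, ha, -⟩, b, hb, -⟩, d, hd, -⟩, hAp⟩ V z hz u₀ a' b' d'
    hu₀ ha' hb' hd' B' hB' hBc
  have hBp : 0 < Pe F.p B' := lt_of_lt_of_le (mul_pos hc₀ hAp) hBc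
  have hcl := isLaw_cond F.isLaw hBp
  have hcA := isLaw_cond F.isLaw hAp
  have hJ0 : (0 : ℝ) ≤ J := Nat.cast_nonneg J
  have hz2 : Mx f (vg x) (c₀ * (e / 3) / 2) F A z := ⟨hz.1, fun V' z' hz' =>
    (hz.2 V' z' hz').trans (mul_le_mul_of_nonneg_right (min_le_right _ _) hJ0)⟩
  have hz1 : Mx f (vg x) κ F A z := ⟨hz.1, fun V' z' hz' =>
    (hz.2 V' z' hz').trans (mul_le_mul_of_nonneg_right (min_le_left _ _) hJ0)⟩
  have key : ∀ {X Y : Type} (s : F.Ω → X) (t : F.Ω → Y),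
      CH (Pool.Agent.H49.Ent.cond F.p A True) s (fun ω => (t ω, (z ω, y J F ω))) ≤
        c₀ * (e / 3) * J →
      CH (Pool.Agent.H49.Ent.cond F.p B' True) s
        (fun ω => (t ω, (z ω, (u₀ ω, y J F ω)))) ≤ e / 3 * J := by
    intro X Y s t h4
    refine le_trans (CH_mono_cond hcl.nonneg fun ω ω' _ _ hh => ?_)
      (ch_part F.isLaw hB' hAp hc₀ hBc s (fun ω => (t ω, (z ω, y J F ω)))
        (by rw [← mul_assoc]; exact h4))
    simp only [Prod.mk.injEq] at hh ⊢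
    exact ⟨hh.1, hh.2.1, hh.2.2.2⟩
  have g1 := N V z hz1 u₀ a b d (Q₀.mono n0 m0 hu₀) (QA.mono n1 m0 ha) (QB.mono n2 m0 hb)
    (QD.mono n3 m0 hd) B' hB' hBc
  have g2 := key a' a (F1 V z hz2 a a' (QA.mono n1 m1 ha) (QA'.mono n0 m1 ha'))
  have g3 := key b b' (F2 V z hz2 b' b (QB'.mono n0 m2 hb') (QB.mono n2 m2 hb))
  have g4 := key d' d (F3 V z hz2 d d' (QD.mono n3 m3 hd) (QD'.mono n0 m3 hd'))
  have g5 := ch_conv hcl.nonneg a b d a' b' d' (fun ω => (z ω, (u₀ ω, y J F ω))) g2 g4 g3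
  rw [sub_mul]
  linarith

/-- **Labels of smaller precision.** -/
theorem nrp_win {C₀ : ℝ} (htm : TmC S C₀)
    (hpos : ∀ (τ : ℝ) (J : ℕ) (F : Fam m J) (A : F.Ω → Prop), S.St τ J F A → 0 < Pe F.p A)
    {I : Finset (Fin m)} {ι k : Fin m} {G : Set ℚ} {s : ℝ} {U D : ℚ → ℝ}
    (H : WinG S I ι k G s U D)
    (hf : ∀ (J : ℕ) (F : Fam m J), ∃ φ : α J F → PtT F, ∀ ω, ptr F J ω = φ (f J F ω))
    {lam : ℝ} (hy : Kn I 1 lam y) {Q₀ : Qt m U₀} {g o j' l : ℚ} (ho : o ∈ G) (hg : g + U o ≤ D o)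
    {q p Na Ma Nb Mb Nd Md θ c₀ : ℝ} (hq : q ≤ U o) (hp : p ≤ U o + g)
    (hL : 0 < min lam (1 - ((o : ℝ) + s)))
    (a1 : Na ≤ q) (a2 : Ma ≤ p)
    (b1 : U j' ≤ Nb) (b2 : U j' + g ≤ Mb) (b3 : U j' + g ≤ Nb + (p - U o))
    (b4 : U j' < q + min lam (1 - ((o : ℝ) + s)))
    (b5 : U j' + g < q + (p - U o) + min lam (1 - ((o : ℝ) + s)))
    (d1 : Nd ≤ U l - ((l : ℝ) + s)) (d2 : Md ≤ U l - ((l : ℝ) + s) + (p - U o))
    (d3 : Nd + ((o : ℝ) + s) < q + min lam (1 - ((o : ℝ) + s)))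
    (d4 : Md + ((o : ℝ) + s) < p + min lam (1 - ((o : ℝ) + s))) (hc₀ : 0 < c₀)
    (h : NrP S f y Q₀ (gX m I ι k s U g o o) (gX m I ι k s U g o j') (gD m I ι k s U g o l)
      ((o : ℝ) + s) θ c₀) {e : ℝ} (he : 0 < e) :
    NrP S f y Q₀ (qP m I ι k 0 ((o : ℝ) + s) q Na p Ma) (qP m I ι k 0 ((o : ℝ) + s) q Nb p Mb)
      (qP m I ι k 1 ((o : ℝ) + s) q Nd p Md) ((o : ℝ) + s) (θ - e) c₀ := by
  have w0 := H.w0 o ho
  have w1 := H.w1 o ho
  have s1 := H.slo o ho ((o : ℝ) + s) ((o : ℝ) + s) (U o + g) p le_rfl le_rfl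
  have s2 := H.slo o ho ((o : ℝ) + s) ((o : ℝ) + s) p (U o + g) le_rfl le_rfl
  rw [min_eq_right hp] at s1
  rw [min_eq_left hp] at s2
  have x0 : ∀ v : ℚ, Exs S (gX m I ι k s U g o v) := fun v => by
    rw [← gX_eq]
    exact exs_gP H (by norm_num) ho hg
  have x1 : ∀ v : ℚ, Exs S (gD m I ι k s U g o v) := fun v => by
    rw [← gD_eq]
    exact exs_gP H le_rfl ho hg
  refine h.conv hpos hc₀ (x0 o) (x0 j') (x1 l) ?_ ?_ ?_ he
  · unfold gX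
    refine pair_few htm hpos s1 le_rfl le_rfl w1.le le_rfl w0.le w1 le_rfl (H.ful o ho) hf hy
      ?_ ?_ ?_ ?_ ?_
    · linarith
    · linarith
    · linarith
    · rw [min_eq_right hq]
      push_cast
      linarith
    · rw [min_eq_right hp, min_eq_left (by linarith)]
      push_cast
      linarith
  · unfold gX
    refine pair_few htm hpos s2 le_rfl le_rfl w1.le le_rfl w0.le w1 le_rfl (H.ful o ho) hf hy
      b1 b2 b3 ?_ ?_
    · rw [min_eq_left hq]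
      push_cast
      linarith
    · rw [min_eq_left hp, min_eq_right (by linarith)]
      push_cast
      linarith
  · unfold gD
    refine pair_few htm hpos s1 le_rfl le_rfl w1.le le_rfl w0.le w1 le_rfl (H.ful o ho) hf hy
      ?_ ?_ ?_ ?_ ?_
    · linarith
    · linarith
    · linarith
    · rw [min_eq_right hq]
      push_cast
      linarith
    · rw [min_eq_right hp, min_eq_left (by linarith)]
      push_cast
      linarith

end Pool.D2F2
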