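import Pool.Agent.H4.D2.Hnc
import Pool.Agent.H4.D2.Nrv
import Pool.Agent.H28.D2.P8b
import Pool.Agent.H17.COR.Cra

/-!
# The hypothesis on the near digits in the number of the hop

`hvn_p8`: the levels. `nrp_unit`: the output of `cor_near` at one window. `hnv_p8`: the near frame
digits of the hop are full, in the form of `p8_cls` (`r = 3`).
-/

set_option autoImplicit false

namespace Pool.D2F2

open Finset Real MvPolynomial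
open Pool.Agent.H49.Ent Pool.Agent.H32.Dense Pool.STK Pool.KA Pool.KSAT Pool.K2S Pool.PB Pool.GEN
open Pool.S6C Pool.LA91 Pool.RCD Pool.CHT Pool.CHX
open Pool.ISO (Clsd)
open Pool.D2R (dd hs co)
open Pool.D2F (cv CvC)

variable {m : ℕ}

/-- The levels. -/
theorem hvn_p8 {J W o P q₀ q sg : ℕ} {g go : ℕ → ℕ} (o1 : ∀ l < 3, l ≠ 0 → g l + q ≤ go l)
    (J1 : g 0 + (q + sg) ≤ J) (e1 : go 0 + sg ≤ J) (e2 : g 0 + q₀ ≤ W + 1 + P)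
    (e3 : g 0 + q ≤ W + 1 + P) (e4 : go 0 ≤ W + 1 + P) (e5 : go 0 + o ≤ W + 1 + J) :
    HvN J W o P g go (uu g q₀ q sg) (fun l => g l + qv q₀ q l)
      (fun l => g l + qv q₀ q l) := by
  have h1 := o1 1 (by norm_num) (by norm_num)
  have h2 := o1 2 (by norm_num) (by norm_num)
  have u1 : uu g q₀ q sg 1 = g 1 + (q + sg) := by
    unfold uu
    rw [qv_pos (by norm_num)]
    exact max_eq_right (by omega)
  have u2 : uu g q₀ q sg 2 = g 2 + (q + sg) := by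
    unfold uu
    rw [qv_pos (by norm_num)]
    exact max_eq_right (by omega)
  have q1 : qv q₀ q 1 = q := qv_pos (by norm_num)
  have q2 : qv q₀ q 2 = q := qv_pos (by norm_num)
  have q0 : qv q₀ q 0 = q₀ := qv_zero _ _
  have two : ∀ {p : ℕ → Prop}, p 1 → p 2 → ∀ l, 1 ≤ l → l ≤ 2 → p l := by
    intro p p1 p2 l a b
    rcases Nat.lt_or_ge l 2 with h | h
    · have : l = 1 := by omega
      rw [this]
      exact p1
    · have : l = 2 := by omega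
      rw [this]
      exact p2
  refine ⟨?_, ?_, ?_, ?_, ?_, ?_, two ?_ ?_, two ?_ ?_, ?_, ?_, two ?_ ?_, two ?_ ?_, two ?_ ?_⟩
  all_goals simp only [u1, u2, q1, q2, q0]
  all_goals omega

section

variable {U₁ U₂ U₃ : Type} {S : PCl m} {α γ' : ∀ J : ℕ, Fam m J → Type}
    {f : ∀ (J : ℕ) (F : Fam m J), F.Ω → α J F} {y : ∀ (J : ℕ) (F : Fam m J), F.Ω → γ' J F}

/-- The output of `cor_near` at one window. -/
theorem nrp_unit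
    (hpos : ∀ (τ : ℝ) (J : ℕ) (F : Fam m J) (A : F.Ω → Prop), S.St τ J F A → 0 < Pe F.p A)
    {QA : Qt m U₁} {QB : Qt m U₂} {QD : Qt m U₃} {x θ c₀ : ℝ} (hc₀ : 0 < c₀)
    (h : ∃ κ : ℝ, 0 < κ ∧ ∃ e₀ : ℝ, 0 < e₀ ∧ ∀ K : ℕ, Bas S (fun J F A' =>
      ∀ (V₁ V₂ : Type) (z : F.Ω → V₁) (zj : F.Ω → V₂), Mx f (vg x) κ F A' z →
      Mx f (vg x) κ F A' zj → ∀ a b d,
      QA.P K e₀ J F A' a → QB.P K e₀ J F A' b → QD.P K e₀ J F A' d →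
      ∀ B' : F.Ω → Prop, Sub B' A' → c₀ * Pe F.p A' ≤ Pe F.p B' →
      θ * J ≤ CH (Pool.Agent.H49.Ent.cond F.p B' True) b
          (fun ω => (a ω, (d ω, (zj ω, (z ω, y J F ω))))))) :
    NrP S f y (Qt.fn (fun _ _ _ => () : ∀ (J : ℕ) (F : Fam m J), F.Ω → Unit)) QA QB QD x θ
      c₀ := by
  obtain ⟨κ, hκ, e₀, he₀, H⟩ := h
  have hpc : Bas S (fun _ F A => 0 < Pe F.p A) := ⟨1, one_pos, 0, fun J _ F A hA =>
    hpos 1 J F A hA⟩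
  refine ⟨κ, hκ, e₀, he₀, fun K => Bas.mono 0 ((H K).and hpc) ?_⟩
  rintro J - F A ⟨H, hA⟩ V z hz u₀ a b d - ha hb hd B' hB' hBc
  have hB0 : 0 < Pe F.p B' := lt_of_lt_of_le (mul_pos hc₀ hA) hBc
  refine (H V V z z hz hz a b d ha hb hd B' hB' hBc).trans ?_
  refine CH_mono_cond (isLaw_cond F.isLaw hB0).nonneg fun ω ω' _ _ e => ?_
  simp only [Prod.mk.injEq] at e ⊢
  exact ⟨e.1, e.2.1, e.2.2.1, trivial, e.2.2.2.2⟩

theorem exs_unit :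
    Exs S (Qt.fn (fun _ _ _ => () : ∀ (J : ℕ) (F : Fam m J), F.Ω → Unit)) := fun _ _ =>
  ⟨0, 0, ⟨1, one_pos, 0, fun J _ F A _ => ⟨fun _ => (), fun _ _ => rfl, by
    rw [zero_mul, Real.exp_zero]
    have : Pool.S6C.cnt F.p (fun _ : F.Ω => ()) A ≤ 1 := by
      classical
      unfold Pool.S6C.cnt
      refine (Finset.card_le_card (Finset.subset_univ _)).trans ?_
      rw [Finset.card_univ, Fintype.card_unit]
    exact_mod_cast this⟩⟩⟩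

/-- **The near frame digits of the hop are full**, in the form of `p8_cls`. -/
theorem hnv_p8 {U₀ : Type}
    (hpos : ∀ (τ : ℝ) (J : ℕ) (F : Fam m J) (A : F.Ω → Prop), S.St τ J F A → 0 < Pe F.p A)
    {c : ℕ → Fin m} {I : Finset (Fin m)} (hI : c 0 ∈ I) {lam : ℝ} (hy : Kn I 1 lam y)
    (hyw : ∀ (J : ℕ) (F : Fam m J) (ω ω' : F.Ω), y J F ω = y J F ω' →
      F.W ω = F.W ω' ∧ F.X J ω (c 0) = F.X J ω' (c 0))
    {Q₀ : Qt m U₀} (hQ₀ : Exs S Q₀) {x q' p' Na Nb Nd Ma Mb Md θ c₀ : ℝ} (hc₀ : 0 < c₀)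
    (hp0 : 0 < p') (hN : Na ≤ 1 ∧ Nb ≤ 1 ∧ Nd ≤ 1 ∧ Ma ≤ 1 ∧ Mb ≤ 1 ∧ Md ≤ 1)
    (h : NrP S f y Q₀ (qP m I (c 1) (c 2) 0 x q' Na p' Ma) (qP m I (c 1) (c 2) 0 x q' Nb p' Mb)
      (qP m I (c 1) (c 2) 1 x q' Nd p' Md) x θ c₀) {e : ℝ} (he : 0 < e) :
    ∃ κ : ℝ, 0 < κ ∧ ∃ e₁ : ℝ, 0 < e₁ ∧ ∀ D' : ℕ, Bas S (fun J F A₁ =>
      ∀ (D W n k q₀ q sg Mo : ℕ) (g go : ℕ → ℕ) (ψH : LnT F → ℕ → Option (Fin m) → ℝ)
        (zψ : PtT F → ℕ → Option (Fin m) → ℝ) (Ht : LnT F → MvPolynomial (Option (Fin m)) ℝ)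
        (hD : ∀ s, (Ht s).totalDegree ≤ D) (Go : PtT F → ℕ → MvPolynomial (Option (Fin m)) ℝ)
        (Ho : LnT F → ℕ → MvPolynomial (Option (Fin m)) ℝ) (V : Type) (zo : F.Ω → V),
      Gb F c g go W n ⌊x * J⌋₊ k 3 D sg Mo ψH Ht Go A₁ → Clsd F 3 ⌊x * J⌋₊ A₁ Go Ho →
      (∀ ω, A₁ ω → ∀ l < 3, (Go (ptr F J ω) l).totalDegree ≤ D') →
      (∀ ω, A₁ ω → zψ (ptr F J ω) = ψH (slam F W ω)) → W ≤ ⌊x * J⌋₊ → ⌊x * J⌋₊ ≤ J →
      (∀ l < 3, l ≠ 0 → g l + q ≤ go l) → g 0 + (q + sg) ≤ J → go 0 + sg ≤ J →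
      g 0 + q₀ ≤ W + 1 + ⌊lam * J⌋₊ → g 0 + q ≤ W + 1 + ⌊lam * J⌋₊ →
      go 0 ≤ W + 1 + ⌊lam * J⌋₊ → go 0 + ⌊x * J⌋₊ ≤ W + 1 + J → k ≤ J →
      (q' - e₁) * J ≤ go 1 → (p' - e₁) * J + 4 * k ≤ go 2 →
      (p' - e₁) * J + 4 * k + g 1 ≤ go 1 + g 2 →
      (g 1 : ℝ) + q ≤ W + 1 + k + Nd * J → (g 2 : ℝ) + q ≤ W + 1 + k + Md * J →
      Nb * J ≤ g 1 + (q + sg) → Mb * J ≤ g 2 + (q + sg) → Mx f (vg x) κ F A₁ zo →
      KeyZ F W 3 ψH Go A₁ zo →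
      ∀ B : F.Ω → Prop, Sub B A₁ → c₀ * Pe F.p A₁ ≤ Pe F.p B →
      (θ - e) * J - 700 * k ≤ CH (Pool.Agent.H49.Ent.cond F.p B True)
        (fun ω (l : Fin (3 - 1)) =>
          Nfd (hdt2 F c g W n 3 D q₀ q sg ψH Ht hD) W (uu g q₀ q sg)
            (fun l => g l + qv q₀ q l) (1 + l) ω)
        (fun ω => (zo ω, (F.W ω, (F.X J ω (c 0),
          cE (hdt2 F c g W n 3 D q₀ q sg ψH Ht hD) W ω))))) := by
  obtain ⟨κ, hκ, e₁, he₁, H⟩ := hnv_cls (f := f) hpos hI hy hQ₀ hc₀ hp0 hN h he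
  refine ⟨κ, hκ, e₁, he₁, fun D' => ?_⟩
  have hpc : Bas S (fun _ F A => 0 < Pe F.p A) := ⟨1, one_pos, 0, fun J _ F A hA =>
    hpos 1 J F A hA⟩
  refine Bas.mono 0 ((H D').and hpc) ?_
  rintro J - F A ⟨H, hA⟩ D W n k q₀ q sg Mo g go ψH zψ Ht hD Go Ho V zo hG hcl hdeg hzψ hW hx o1 J1
    f1 f2 f3 f4 f5 hk c1 c2 c3 c4 c5 c6 c7 hz hK B hB hBc
  have hB0 : 0 < Pe F.p B := lt_of_lt_of_le (mul_pos hc₀ hA) hBc
  have hlaw := isLaw_cond F.isLaw hB0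
  have u1 : uu g q₀ q sg 1 = g 1 + (q + sg) := by
    unfold uu
    rw [qv_pos (by norm_num)]
    exact max_eq_right (by omega)
  have u2 : uu g q₀ q sg 2 = g 2 + (q + sg) := by
    unfold uu
    rw [qv_pos (by norm_num)]
    exact max_eq_right (by omega)
  have q1 : qv q₀ q 1 = q := qv_pos (by norm_num)
  have q2 : qv q₀ q 2 = q := qv_pos (by norm_num)
  have h1 := H D W k g go (uu g q₀ q sg) (fun l => g l + qv q₀ q l) (fun l => g l + qv q₀ q l)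
    ψH zψ Go Ho (hdt2 F c g W n 3 D q₀ q sg ψH Ht hD) V _ zo
    (fun ω => (F.W ω, F.X J ω (c 0)))
    ⟨hG.hgb, hcl, hdeg, hzψ, hW, hx, hvn_p8 o1 J1 f1 f2 f3 f4 f5⟩ (hdt2_fdl hG.hW)
    (fun l _ => rfl) hk c1 c2 c3
    (by rw [q1]; push_cast; exact c4) (by rw [q2]; push_cast; exact c5)
    (by rw [u1]; push_cast; exact c6) (by rw [u2]; push_cast; exact c7) hz
    (fun ω ω' a b e3 => ⟨(hK ω ω' a b e3).1, fun l hl => (hK ω ω' a b e3).2 l hl.le⟩)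
    (fun ω ω' _ _ _ e4 => Prod.ext (hyw J F ω ω' e4).1 (hyw J F ω ω' e4).2) B hB hBc
  refine h1.trans ?_
  refine CH_mono_cond hlaw.nonneg fun ω ω' _ _ e3 => ?_
  simp only [Prod.mk.injEq] at e3 ⊢
  exact ⟨e3.1, e3.2.1.1, e3.2.1.2, e3.2.2⟩

end

end Pool.D2F2
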