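import Pool.Agent.H4.D2.Afv

/-!
# Heights, velocities and frame coordinates, charts and frame at different windows

`Pm`: two points of one natural box of the window `a` (levels `ga`), and a frame of the window `W`
(levels `g`). `Pm.hgt0`, `Pm.hgt1`: heights over the chart of the place `i` and over the label of the
place `i + 1` which is affine in the place `i` with the slope of the frame, against the coordinates
in the frame. `Pm.vel0`, `Pm.vel1`: the same for the velocities.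
-/

set_option autoImplicit false

namespace Pool.D2F2

open Finset Real MvPolynomial
open Pool.Agent.H49.Ent Pool.Agent.H32.Dense Pool.STK Pool.KA Pool.KSAT Pool.K2S Pool.PB Pool.GEN
open Pool.S6C Pool.LA91 Pool.CHT Pool.CHX
open Pool.D2R (dd hs co nrm nrm_nonneg)
open Pool.D2F (cv CvC cv_congr cv_eq grd cv_grd cv_sub)
open Pool.D2Z (en en_eq en_succ en_zero en_nonneg en_mono Nc nrm_en cv_subl pow1 cvc_grd)
open Pool.D2S (Pr Sg NtB yk dst dst_nonneg dst_le)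

variable {m : ℕ}

/-- **Two points of one natural box and a frame**, at different windows. -/
structure Pm (c : ℕ → Fin m) (g ga : ℕ → ℕ) (W a k r : ℕ)
    (G : ℕ → MvPolynomial (Option (Fin m)) ℝ) (t : ℝ) (ψ : ℕ → Option (Fin m) → ℝ)
    (x x' : Option (Fin m) → ℝ) : Prop where
  pw : Pw c ga a k r G t (fun l => grd (G l) x) x x'
  cvc : ∀ l, CvC c l (ψ l)
  frm : ∀ l < r, ∀ V : Option (Fin m) → ℝ,
    |cv (ψ l) V - dd (G l) x V| ≤ 2 ^ k / 2 ^ g l * en c g W ψ l V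

section

variable {c : ℕ → Fin m} {g ga : ℕ → ℕ} {W a k r : ℕ}
  {G : ℕ → MvPolynomial (Option (Fin m)) ℝ} {t : ℝ} {ψ : ℕ → Option (Fin m) → ℝ}
  {x x' : Option (Fin m) → ℝ} {Y : ℝ}

/-- The slopes of the frame and of the chart. -/
theorem Pm.slp (H : Pm c g ga W a k r G t ψ x x') {i : ℕ} (hi : i + 1 < r) :
    2 ^ g (i + 1) * |ψ (i + 1) (some (c i)) - grd (G (i + 1)) x (some (c i))| ≤
      2 ^ k * 2 ^ g i := by
  obtain ⟨V, hV⟩ : ∃ V : Option (Fin m) → ℝ, V = Pi.single (some (c i)) 1 := ⟨_, rfl⟩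
  have hcv : ∀ φ : Option (Fin m) → ℝ, cv φ V = φ (some (c i)) := fun φ => by
    unfold cv
    rw [hV, Finset.sum_eq_single (some (c i))]
    · rw [Pi.single_eq_same, mul_one]
    · intro o _ ho
      rw [Pi.single_eq_of_ne ho, mul_zero]
    · intro h
      exact absurd (Finset.mem_univ _) h
  have hz : ∀ j ≤ i, ψ j (some (c i)) = 0 := fun j hj =>
    H.cvc j (c i) fun l hl => (H.pw.ne (by omega) (by omega) (by omega)).symm
  have hen : en c g W ψ (i + 1) V = 2 ^ g i := by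
    rw [en_eq, Finset.sum_range_succ, Finset.sum_eq_zero fun j hj => ?_]
    · rw [hcv, hz i le_rfl, hV, Pi.single_eq_same, Pi.single_eq_of_ne (by simp), abs_zero,
        mul_zero, sub_zero, abs_one, mul_one]
      ring
    · have hj' := Finset.mem_range.1 hj
      rw [hcv, hz j hj'.le, hV, Pi.single_eq_of_ne fun e => H.pw.ne (i := i) (l := j) (by omega)
        (by omega) (by omega) (Option.some.inj e), sub_zero, abs_zero, mul_zero]
  have h1 := H.frm (i + 1) hi V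
  rw [hen, ← cv_grd, hcv, hcv] at h1
  have hg : (0 : ℝ) < 2 ^ g (i + 1) := by positivity
  refine (mul_le_mul_of_nonneg_left h1 hg.le).trans (le_of_eq ?_)
  field_simp

/-- **The height over the chart and the coordinate in the frame.** -/
theorem Pm.hgt0 (H : Pm c g ga W a k r G t ψ x x') (hY : (2 * r + 2) * 2 ^ k ≤ Y) {i : ℕ}
    (hi : i < r) {M M' : ℝ} (hM : 0 ≤ M') (hW : en c g W ψ i (x' - x) ≤ M)
    (hh : ∀ j < i, 2 ^ ga j * |(x' (some (c j)) - eval x' (G j)) -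
      (x (some (c j)) - eval x (G j))| ≤ M') :
    |((x' - x) (some (c i)) - cv (ψ i) (x' - x)) -
      ((x' (some (c i)) - eval x' (G i)) - (x (some (c i)) - eval x (G i)))| ≤
      2 ^ k * (M / 2 ^ g i) + Y ^ ((r + 4) * r) * (M' / 2 ^ ga i) := by
  have hga : (0 : ℝ) < 2 ^ ga i := by positivity
  have h1 := H.pw.dif hY hM hi fun j hj => Or.inr (hh j hj)
  have h2 := H.frm i hi (x' - x)
  simp only [cv_grd] at h1
  have h3 : |dd (G i) x (x' - x) - (eval x' (G i) - eval x (G i))| ≤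
      Y ^ ((r + 4) * r) * (M' / 2 ^ ga i) := by
    rw [← mul_div_assoc, le_div_iff₀ hga, mul_comm]
    exact h1
  have h4 : 2 ^ k / 2 ^ g i * en c g W ψ i (x' - x) ≤ 2 ^ k * (M / 2 ^ g i) := by
    refine (mul_le_mul_of_nonneg_left hW (by positivity)).trans (le_of_eq ?_)
    ring
  have e1 : ((x' - x) (some (c i)) - cv (ψ i) (x' - x)) -
      ((x' (some (c i)) - eval x' (G i)) - (x (some (c i)) - eval x (G i))) =
      -((cv (ψ i) (x' - x) - dd (G i) x (x' - x)) +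
        (dd (G i) x (x' - x) - (eval x' (G i) - eval x (G i)))) := by
    rw [Pi.sub_apply]
    ring
  rw [e1, abs_neg]
  refine (abs_add_le _ _).trans ?_
  linarith

/-- **The height over the affine label and the coordinate in the frame.** -/
theorem Pm.hgt1 (H : Pm c g ga W a k r G t ψ x x') {i : ℕ} (hi : i + 1 < r)
    (hY : (2 * (i + 2 : ℕ) + 2) * 2 ^ kp k i ≤ Y) {M M' : ℝ} (hM : 0 ≤ M')
    (hW : en c g W ψ i (x' - x) ≤ M)
    (hh : ∀ j < i, 2 ^ ga j * |(x' (some (c j)) - eval x' (G j)) -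
      (x (some (c j)) - eval x (G j))| ≤ M') :
    |((x' - x) (some (c (i + 1))) - cv (ψ (i + 1)) (x' - x)) -
      ((x' (some (c (i + 1))) - eval x' (afl c G i (ψ (i + 1) (some (c i))))) -
      (x (some (c (i + 1))) - eval x (afl c G i (ψ (i + 1) (some (c i))))))| ≤
      2 ^ k * (M / 2 ^ g (i + 1)) + Y ^ ((i + 2 + 4) * (i + 2)) * (M' / 2 ^ ga (i + 1)) +
      2 ^ k * (2 ^ g i / 2 ^ g (i + 1)) * (|(x' - x) (some (c i)) - cv (ψ i) (x' - x)| +
        |(x' (some (c i)) - eval x' (G i)) - (x (some (c i)) - eval x (G i))|) := by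
  have hga : (0 : ℝ) < 2 ^ ga (i + 1) := by positivity
  have hg : (0 : ℝ) < 2 ^ g (i + 1) := by positivity
  have h1 := H.pw.afl_dif (fun l => cvc_grd (H.pw.dep l) x) hi hY hM fun j hj =>
    Or.inr (hh j hj)
  have h2 := H.frm (i + 1) hi (x' - x)
  have h0 := H.slp hi
  simp only [cv_grd] at h1
  obtain ⟨s, hs⟩ : ∃ s, s = ψ (i + 1) (some (c i)) := ⟨_, rfl⟩
  obtain ⟨s', hs'⟩ : ∃ s', s' = grd (G (i + 1)) x (some (c i)) := ⟨_, rfl⟩
  rw [← hs'] at h1 h0
  rw [← hs] at h0 ⊢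
  obtain ⟨Δ, hΔ⟩ : ∃ Δ, Δ = x' - x := ⟨_, rfl⟩
  rw [← hΔ] at h1 h2 hW ⊢
  obtain ⟨h, hhd⟩ : ∃ h, h = (x' (some (c i)) - eval x' (G i)) -
    (x (some (c i)) - eval x (G i)) := ⟨_, rfl⟩
  have h3 : |(Δ (some (c (i + 1))) - dd (G (i + 1)) x Δ) -
      ((x' (some (c (i + 1))) - eval x' (afl c G i s')) -
      (x (some (c (i + 1))) - eval x (afl c G i s')))| ≤
      Y ^ ((i + 2 + 4) * (i + 2)) * (M' / 2 ^ ga (i + 1)) := by
    rw [← mul_div_assoc, le_div_iff₀ hga, mul_comm]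
    exact h1
  have h4 : 2 ^ k / 2 ^ g (i + 1) * en c g W ψ (i + 1) Δ ≤ 2 ^ k * (M / 2 ^ g (i + 1)) +
      2 ^ k * (2 ^ g i / 2 ^ g (i + 1)) * |Δ (some (c i)) - cv (ψ i) Δ| := by
    rw [en_succ]
    have a1 : 2 ^ k / 2 ^ g (i + 1) * en c g W ψ i Δ ≤ 2 ^ k / 2 ^ g (i + 1) * M :=
      mul_le_mul_of_nonneg_left hW (by positivity)
    have e1 : (2 : ℝ) ^ k / 2 ^ g (i + 1) * (en c g W ψ i Δ + 2 ^ g i *
        |Δ (some (c i)) - cv (ψ i) Δ|) = 2 ^ k / 2 ^ g (i + 1) * en c g W ψ i Δ +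
        2 ^ k * (2 ^ g i / 2 ^ g (i + 1)) * |Δ (some (c i)) - cv (ψ i) Δ| := by ring
    have e2 : (2 : ℝ) ^ k / 2 ^ g (i + 1) * M = 2 ^ k * (M / 2 ^ g (i + 1)) := by ring
    rw [e1]
    linarith
  have h5 : |(s - s') * h| ≤ 2 ^ k * (2 ^ g i / 2 ^ g (i + 1)) * |h| := by
    rw [abs_mul]
    refine mul_le_mul_of_nonneg_right ?_ (abs_nonneg _)
    rw [← mul_div_assoc, le_div_iff₀ hg, mul_comm]
    exact h0
  have e1 : (Δ (some (c (i + 1))) - cv (ψ (i + 1)) Δ) -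
      ((x' (some (c (i + 1))) - eval x' (afl c G i s)) -
      (x (some (c (i + 1))) - eval x (afl c G i s))) =
      ((Δ (some (c (i + 1))) - dd (G (i + 1)) x Δ) -
      ((x' (some (c (i + 1))) - eval x' (afl c G i s')) -
      (x (some (c (i + 1))) - eval x (afl c G i s')))) -
      (cv (ψ (i + 1)) Δ - dd (G (i + 1)) x Δ) + (s - s') * h := by
    rw [eval_afl, eval_afl, eval_afl, eval_afl, hhd]
    ring
  rw [e1, ← hhd]
  have h6 := abs_add_le (((Δ (some (c (i + 1))) - dd (G (i + 1)) x Δ) -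
      ((x' (some (c (i + 1))) - eval x' (afl c G i s')) -
      (x (some (c (i + 1))) - eval x (afl c G i s')))) -
      (cv (ψ (i + 1)) Δ - dd (G (i + 1)) x Δ)) ((s - s') * h)
  have h7 := abs_sub ((Δ (some (c (i + 1))) - dd (G (i + 1)) x Δ) -
      ((x' (some (c (i + 1))) - eval x' (afl c G i s')) -
      (x (some (c (i + 1))) - eval x (afl c G i s'))))
      (cv (ψ (i + 1)) Δ - dd (G (i + 1)) x Δ)
  rw [mul_add (2 ^ k * (2 ^ g i / 2 ^ g (i + 1)))]
  linarith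

/-- **The velocity over the chart and the velocity in the frame.** -/
theorem Pm.vel0 (H : Pm c g ga W a k r G t ψ x x') (hY : (2 * r + 2) * 2 ^ k ≤ Y) {i : ℕ}
    (hi : i < r) {V V' : Option (Fin m) → ℝ} {E M M' N : ℝ} (hE0 : 2 ^ a * |V' none| ≤ E)
    (hE : ∀ j < i, 2 ^ ga j * |V' (some (c j)) - dd (G j) x' V'| ≤ E)
    (hW : en c g W ψ i (V' - V) ≤ M)
    (hM : en c ga a (fun l => grd (G l) x) i (V' - V) ≤ M') (hN : dst c ga a G i x x' ≤ N) :
    |((V' - V) (some (c i)) - cv (ψ i) (V' - V)) -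
      ((V' (some (c i)) - dd (G i) x' V') - (V (some (c i)) - dd (G i) x V))| ≤
      2 ^ k * (M / 2 ^ g i) + (Y * M' + Y ^ (2 * r + 2) * (N * E)) / 2 ^ ga i := by
  have hga : (0 : ℝ) < 2 ^ ga i := by positivity
  have h1 := H.pw.vdif hY hi hE0 hE hM hN
  have h2 := H.frm i hi (V' - V)
  simp only [cv_grd] at h1
  have h3 : |dd (G i) x (V' - V) - (dd (G i) x' V' - dd (G i) x V)| ≤
      (Y * M' + Y ^ (2 * r + 2) * (N * E)) / 2 ^ ga i := by
    rw [le_div_iff₀ hga, mul_comm]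
    exact h1
  have h4 : 2 ^ k / 2 ^ g i * en c g W ψ i (V' - V) ≤ 2 ^ k * (M / 2 ^ g i) := by
    refine (mul_le_mul_of_nonneg_left hW (by positivity)).trans (le_of_eq ?_)
    ring
  have e1 : ((V' - V) (some (c i)) - cv (ψ i) (V' - V)) -
      ((V' (some (c i)) - dd (G i) x' V') - (V (some (c i)) - dd (G i) x V)) =
      -((cv (ψ i) (V' - V) - dd (G i) x (V' - V)) +
        (dd (G i) x (V' - V) - (dd (G i) x' V' - dd (G i) x V))) := by
    rw [Pi.sub_apply]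
    ring
  rw [e1, abs_neg]
  refine (abs_add_le _ _).trans ?_
  linarith

/-- **The velocity over the affine label and the velocity in the frame.** -/
theorem Pm.vel1 (H : Pm c g ga W a k r G t ψ x x') {i : ℕ} (hi : i + 1 < r)
    (hY : (2 * (i + 2 : ℕ) + 2) * 2 ^ kp k i ≤ Y) {V V' : Option (Fin m) → ℝ} {E M M' N : ℝ}
    (hE0 : 2 ^ a * |V' none| ≤ E)
    (hE : ∀ j < i, 2 ^ ga j * |V' (some (c j)) - dd (G j) x' V'| ≤ E)
    (hW : en c g W ψ i (V' - V) ≤ M)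
    (hM : en c ga a (fun l => grd (G l) x) i (V' - V) ≤ M') (hN : dst c ga a G i x x' ≤ N) :
    |((V' - V) (some (c (i + 1))) - cv (ψ (i + 1)) (V' - V)) -
      ((V' (some (c (i + 1))) - dd (afl c G i (ψ (i + 1) (some (c i)))) x' V') -
      (V (some (c (i + 1))) - dd (afl c G i (ψ (i + 1) (some (c i)))) x V))| ≤
      2 ^ k * (M / 2 ^ g (i + 1)) + Y ^ (2 * i + 8) * (M' + N * E) / 2 ^ ga (i + 1) +
      2 ^ k * (2 ^ g i / 2 ^ g (i + 1)) * (|(V' - V) (some (c i)) - cv (ψ i) (V' - V)| +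
        |(V' (some (c i)) - dd (G i) x' V') - (V (some (c i)) - dd (G i) x V)|) := by
  have hga : (0 : ℝ) < 2 ^ ga (i + 1) := by positivity
  have hg : (0 : ℝ) < 2 ^ g (i + 1) := by positivity
  have h1 := H.pw.afl_vdif (fun l => cvc_grd (H.pw.dep l) x) hi hY hE0 hE hM hN
  have h2 := H.frm (i + 1) hi (V' - V)
  have h0 := H.slp hi
  simp only [cv_grd] at h1
  obtain ⟨s, hs⟩ : ∃ s, s = ψ (i + 1) (some (c i)) := ⟨_, rfl⟩
  obtain ⟨s', hs'⟩ : ∃ s', s' = grd (G (i + 1)) x (some (c i)) := ⟨_, rfl⟩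
  rw [← hs'] at h1 h0
  rw [← hs] at h0 ⊢
  obtain ⟨Δ, hΔ⟩ : ∃ Δ, Δ = V' - V := ⟨_, rfl⟩
  rw [← hΔ] at h1 h2 hW ⊢
  obtain ⟨h, hhd⟩ : ∃ h, h = (V' (some (c i)) - dd (G i) x' V') -
    (V (some (c i)) - dd (G i) x V) := ⟨_, rfl⟩
  have h3 : |(Δ (some (c (i + 1))) - dd (G (i + 1)) x Δ) -
      ((V' (some (c (i + 1))) - dd (afl c G i s') x' V') -
      (V (some (c (i + 1))) - dd (afl c G i s') x V))| ≤
      Y ^ (2 * i + 8) * (M' + N * E) / 2 ^ ga (i + 1) := by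
    rw [le_div_iff₀ hga, mul_comm]
    exact h1
  have h4 : 2 ^ k / 2 ^ g (i + 1) * en c g W ψ (i + 1) Δ ≤ 2 ^ k * (M / 2 ^ g (i + 1)) +
      2 ^ k * (2 ^ g i / 2 ^ g (i + 1)) * |Δ (some (c i)) - cv (ψ i) Δ| := by
    rw [en_succ]
    have a1 : 2 ^ k / 2 ^ g (i + 1) * en c g W ψ i Δ ≤ 2 ^ k / 2 ^ g (i + 1) * M :=
      mul_le_mul_of_nonneg_left hW (by positivity)
    have e1 : (2 : ℝ) ^ k / 2 ^ g (i + 1) * (en c g W ψ i Δ + 2 ^ g i *
        |Δ (some (c i)) - cv (ψ i) Δ|) = 2 ^ k / 2 ^ g (i + 1) * en c g W ψ i Δ +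
        2 ^ k * (2 ^ g i / 2 ^ g (i + 1)) * |Δ (some (c i)) - cv (ψ i) Δ| := by ring
    have e2 : (2 : ℝ) ^ k / 2 ^ g (i + 1) * M = 2 ^ k * (M / 2 ^ g (i + 1)) := by ring
    rw [e1]
    linarith
  have h5 : |(s - s') * h| ≤ 2 ^ k * (2 ^ g i / 2 ^ g (i + 1)) * |h| := by
    rw [abs_mul]
    refine mul_le_mul_of_nonneg_right ?_ (abs_nonneg _)
    rw [← mul_div_assoc, le_div_iff₀ hg, mul_comm]
    exact h0
  have e1 : (Δ (some (c (i + 1))) - cv (ψ (i + 1)) Δ) -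
      ((V' (some (c (i + 1))) - dd (afl c G i s) x' V') -
      (V (some (c (i + 1))) - dd (afl c G i s) x V)) =
      ((Δ (some (c (i + 1))) - dd (G (i + 1)) x Δ) -
      ((V' (some (c (i + 1))) - dd (afl c G i s') x' V') -
      (V (some (c (i + 1))) - dd (afl c G i s') x V))) -
      (cv (ψ (i + 1)) Δ - dd (G (i + 1)) x Δ) + (s - s') * h := by
    rw [dd_afl, dd_afl, dd_afl, dd_afl, hhd]
    ring
  rw [e1, ← hhd]
  have h6 := abs_add_le (((Δ (some (c (i + 1))) - dd (G (i + 1)) x Δ) -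
      ((V' (some (c (i + 1))) - dd (afl c G i s') x' V') -
      (V (some (c (i + 1))) - dd (afl c G i s') x V))) -
      (cv (ψ (i + 1)) Δ - dd (G (i + 1)) x Δ)) ((s - s') * h)
  have h7 := abs_sub ((Δ (some (c (i + 1))) - dd (G (i + 1)) x Δ) -
      ((V' (some (c (i + 1))) - dd (afl c G i s') x' V') -
      (V (some (c (i + 1))) - dd (afl c G i s') x V)))
      (cv (ψ (i + 1)) Δ - dd (G (i + 1)) x Δ)
  rw [mul_add (2 ^ k * (2 ^ g i / 2 ^ g (i + 1)))]
  linarith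

end

end Pool.D2F2
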