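import Pool.Agent.H4.D2.Hnp
import Pool.Agent.H4.D2.Hvf
import Pool.Agent.H28.D2.Vrec

/-!
# Two rough coordinates over one slow coordinate which is known to finitely many digits

`hnv_pr2`: near frame digits and heights, one law, from facts about pairs. `Hgb`: ball of the window
`a`, frame of the window `W`. `HvN`: the levels. `Hgb.hts`, `Hgb.vls`: the facts about pairs.
-/

set_option autoImplicit false

namespace Pool.D2F2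

open Finset Real MvPolynomial
open Pool.Agent.H49.Ent Pool.Agent.H32.Dense Pool.STK Pool.KA Pool.KSAT Pool.K2S Pool.PB Pool.GEN
open Pool.S6C Pool.LA91 Pool.CHT Pool.CHX
open Pool.F5 (NatH)
open Pool.OWN68 (CH_pair floor_sub_le)
open Pool.D2R (dd hs co nrm nrm_nonneg)
open Pool.D2F (cv CvC cv_congr cv_eq grd cv_grd cv_sub)
open Pool.D2Z (en en_eq en_succ en_zero en_nonneg)
open Pool.D2S (Sg NtB dst dst_nonneg)
open Pool.D2H (of_floor_mul CH_step CH_pi_le)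

variable {m J : ℕ}

section

variable {F : Fam m J} {κ : Type} {r D : ℕ} {d : Dat F κ r D} {W : ℕ}

/-- **Two rough coordinates**, one law, from facts about pairs. -/
theorem hnv_pr2 {p : F.Ω → ℝ} (hp : IsLaw p) {T T' : Type} (Z : F.Ω → T) (Y : F.Ω → T') {i k : ℕ}
    {u v : ℕ → ℕ} (uv0 : v i ≤ u i) (uv1 : v (i + 1) ≤ u (i + 1)) {h0 h1 : F.Ω → ℝ}
    (n0 : ∀ ω, 0 < p ω → 2 ^ v i * |h0 ω| ≤ 2 ^ k)
    (n1 : ∀ ω, 0 < p ω → 2 ^ v (i + 1) * |h1 ω| ≤ 2 ^ k)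
    (a0 : ∀ ω ω', 0 < p ω → 0 < p ω' → Z ω = Z ω' →
      2 ^ u i * |(d.v W i ω' - d.v W i ω) - (h0 ω' - h0 ω)| ≤ 2 ^ k)
    (a1 : ∀ ω ω', 0 < p ω → 0 < p ω' → Z ω = Z ω' →
      2 ^ u i * |d.v W i ω' - d.v W i ω| ≤ 1 →
      2 ^ u (i + 1) * |(d.v W (i + 1) ω' - d.v W (i + 1) ω) - (h1 ω' - h1 ω)| ≤ 2 ^ k)
    {β₀ β₁ : ℝ} (b0 : 0 ≤ β₀) (b1 : 0 ≤ β₁) (b2 : β₀ ≤ 2 ^ u i) (b3 : β₁ ≤ 2 ^ u (i + 1))
    {η : ℝ} (hY : CH p Y Z ≤ η) :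
    CH p (fun ω => (⌊β₀ * h0 ω⌋, ⌊β₁ * h1 ω⌋)) Z ≤
      CH p (fun ω (l : Fin 2) => Nfd d W u v (i + l) ω) Y + η +
        4 * Real.log (2 * ((2 ^ (k + 2) : ℕ) + 1 : ℕ) + 1) := by
  have hK : (((2 ^ (k + 2) : ℕ)) : ℝ) = 4 * 2 ^ k := by
    push_cast
    rw [pow_add]
    ring
  have hk1 : (1 : ℝ) ≤ 2 ^ k := one_le_pow₀ (by norm_num)
  -- the upper digits
  have nat : ∀ {n n' : ℕ} {x x' y : ℝ}, n ≤ n' → 2 ^ n * |x| ≤ 2 ^ k → 2 ^ n * |x'| ≤ 2 ^ k →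
      2 ^ n' * |y - (x' - x)| ≤ 2 ^ k → 2 ^ n * |y| ≤ 4 * 2 ^ k := by
    intro n n' x x' y hn q1 q2 q3
    have q4 : (2 : ℝ) ^ n * |y - (x' - x)| ≤ 2 ^ k :=
      (mul_le_mul_of_nonneg_right (pow_le_pow_right₀ (by norm_num) hn) (abs_nonneg _)).trans q3
    have q5 : |y| ≤ |y - (x' - x)| + (|x'| + |x|) := by
      have := abs_add_le (y - (x' - x)) (x' - x)
      rw [sub_add_cancel] at this
      linarith [abs_sub x' x]
    have q6 := mul_le_mul_of_nonneg_left q5 (by positivity : (0 : ℝ) ≤ 2 ^ n)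
    rw [mul_add, mul_add] at q6
    linarith
  have low : ∀ {n : ℕ} {x y : ℝ}, 2 ^ n * |y| ≤ 1 → 2 ^ n * |y - x| ≤ 2 ^ k →
      2 ^ n * |x| ≤ 4 * 2 ^ k := by
    intro n x y q1 q2
    have q5 : |x| ≤ |y - x| + |y| := by
      have := abs_sub y (y - x)
      rw [sub_sub_cancel] at this
      linarith
    have q6 := mul_le_mul_of_nonneg_left q5 (by positivity : (0 : ℝ) ≤ 2 ^ n)
    rw [mul_add] at q6
    linarith
  have h2 := hnv_law (d := d) (W := W) hp Z Y (k₀ := i) (n := 2) (u := u) (v := v)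
    (fun l hl => by
      interval_cases l
      · exact uv0
      · exact uv1)
    (fun l ω => if l = 0 then h0 ω else h1 ω)
    (fun l => if l = 0 then β₀ else β₁)
    (fun l hl => by
      interval_cases l
      · exact b0
      · exact b1)
    (fun l hl => by
      interval_cases l
      · exact b2
      · exact b3) (K := 2 ^ (k + 2))
    (fun ω ω' hω hω' e l hl hpr => by
      rw [hK, abs_sub_comm]
      interval_cases l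
      · exact nat uv0 (n0 ω hω) (n0 ω' hω') (a0 ω ω' hω hω' e)
      · refine nat uv1 (n1 ω hω) (n1 ω' hω') (a1 ω ω' hω hω' e ?_)
        rw [abs_sub_comm]
        exact hpr 0 (by norm_num))
    (fun ω ω' hω hω' e l hl hpr => by
      have a2 : 2 ^ u i * |d.v W i ω' - d.v W i ω| ≤ 1 := by
        rw [abs_sub_comm]
        exact hpr 0 (by omega)
      rw [hK, abs_sub_comm]
      interval_cases l
      · rw [if_pos rfl, if_pos rfl, Nat.add_zero]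
        exact low a2 (a0 ω ω' hω hω' e)
      · rw [if_neg (by norm_num), if_neg (by norm_num)]
        refine low ?_ (a1 ω ω' hω hω' e a2)
        rw [abs_sub_comm]
        exact hpr 1 le_rfl) hY
  have h3 : CH p (fun ω => (⌊β₀ * h0 ω⌋, ⌊β₁ * h1 ω⌋)) Z ≤
      CH p (fun ω (l : Fin 2) => ⌊(if (l : ℕ) = 0 then β₀ else β₁) *
        (if (l : ℕ) = 0 then h0 ω else h1 ω)⌋) Z := by
    refine CH_mono_left hp.nonneg fun ω ω' _ _ e => ?_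
    obtain ⟨e1, e2⟩ := Prod.ext_iff.1 e
    dsimp only at e1 e2
    have f1 := congrFun e1 0
    have f2 := congrFun e1 1
    simp only [Fin.val_zero, if_true, Fin.val_one, one_ne_zero, if_false] at f1 f2
    exact Prod.ext f1 f2
  refine h3.trans (h2.trans (le_of_eq ?_))
  push_cast
  ring

end

/-- **Ball of the window `a` and frame of the window `W`.** -/
structure Hgb (F : Fam m J) (c : ℕ → Fin m) (g ga : ℕ → ℕ) (W a k r : ℕ)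
    (ψH : LnT F → ℕ → Option (Fin m) → ℝ) (G : PtT F → ℕ → MvPolynomial (Option (Fin m)) ℝ)
    (B : F.Ω → Prop) : Prop where
  inj : Set.InjOn c (Set.Iio r)
  depG : ∀ y l, DepC c l (G y l)
  cvH : ∀ s l, CvC c l (ψH s l)
  pos : ∀ ω, B ω → ∀ l < r, |F.x ω (c l) - eval (bt F ω) (G (ptr F J ω) l)| ≤ 1 / 2 ^ ga l
  nat : ∀ l < r, NatH F c a ga B G k l
  vel : ∀ ω, B ω → ∀ l < r, |bd F ω (some (c l)) - dd (G (ptr F J ω) l) (bt F ω) (bd F ω)| ≤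
    2 ^ (k + a) / 2 ^ ga l
  frm : ∀ ω, B ω → ∀ l < r, ∀ V : Option (Fin m) → ℝ,
    |cv (ψH (slam F W ω) l) V - dd (G (ptr F J ω) l) (bt F ω) V| ≤
      2 ^ k / 2 ^ g l * en c g W (ψH (slam F W ω)) l V

theorem Pm.le {c : ℕ → Fin m} {g ga : ℕ → ℕ} {W a k r : ℕ}
    {G : ℕ → MvPolynomial (Option (Fin m)) ℝ} {t : ℝ} {ψ : ℕ → Option (Fin m) → ℝ}
    {x x' : Option (Fin m) → ℝ} (H : Pm c g ga W a k r G t ψ x x') {l : ℕ} (hl : l ≤ r) :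
    Pm c g ga W a k l G t ψ x x' :=
  ⟨H.pw.le hl, H.cvc, fun i hi => H.frm i (by omega)⟩

/-- The ball of the hop. -/
theorem _root_.Pool.D2F2.Gb.hgb {F : Fam m J} {c : ℕ → Fin m} {g ga : ℕ → ℕ}
    {W n a k r D sg M : ℕ} {ψH : LnT F → ℕ → Option (Fin m) → ℝ}
    {Ht : LnT F → MvPolynomial (Option (Fin m)) ℝ}
    {G : PtT F → ℕ → MvPolynomial (Option (Fin m)) ℝ} {A : F.Ω → Prop}
    (H : Gb F c g ga W n a k r D sg M ψH Ht G A) : Hgb F c g ga W a k r ψH G A :=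
  ⟨H.inj, H.depG, H.cvH, fun ω hω l hl => H.pos ω hω l hl.le, fun l hl => H.nat l hl.le,
    fun ω hω l hl => H.vel ω hω l hl.le, H.frm⟩

section

variable {F : Fam m J} {c : ℕ → Fin m} {g ga : ℕ → ℕ} {W a k r : ℕ}
  {ψH : LnT F → ℕ → Option (Fin m) → ℝ} {G : PtT F → ℕ → MvPolynomial (Option (Fin m)) ℝ}
  {B : F.Ω → Prop} {ω ω' : F.Ω}

/-- The two points. -/
theorem Hgb.pm (H : Hgb F c g ga W a k r ψH G B) (hω : B ω) (hω' : B ω')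
    (hT : F.T ω = F.T ω') (hG : ∀ l < r, G (ptr F J ω) l = G (ptr F J ω') l) :
    Pm c g ga W a k r (G (ptr F J ω)) (F.t ω) (ψH (slam F W ω)) (bt F ω) (bt F ω') := by
  have ht : F.t ω' = F.t ω := by
    unfold Fam.t
    rw [hT]
  have e0 : ∀ ν : F.Ω, bt F ν none = F.t ν := fun _ => rfl
  refine ⟨⟨H.inj, H.depG _, fun l hl => H.nat l hl ω hω, ?_, by rw [e0, e0, ht],
    fun l hl => H.pos ω hω l hl, fun l hl => ?_, fun l hl V => ?_⟩, H.cvH _, H.frm ω hω⟩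
  · rw [e0, sub_self, abs_zero]
    positivity
  · rw [hG l hl]
    exact H.pos ω' hω' l hl
  · rw [cv_grd, sub_self, abs_zero]
    exact mul_nonneg (by positivity) (en_nonneg _ _ _ _ _ _)

/-- **The slow coordinate is near.** -/
structure Sm1 (F : Fam m J) (c : ℕ → Fin m) (P : ℕ) (ω ω' : F.Ω) : Prop where
  t : F.T ω = F.T ω'
  x : |F.x ω' (c 0) - F.x ω (c 0)| ≤ 1 / 2 ^ J
  d : |F.d ω' (c 0) - F.d ω (c 0)| ≤ 1 / 2 ^ P

theorem Sm1.t0 {P : ℕ} (h : Sm1 F c P ω ω') : (bt F ω' - bt F ω) none = 0 := by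
  change F.t ω' - F.t ω = 0
  unfold Fam.t
  rw [h.t, sub_self]

theorem bd_none (F : Fam m J) (ω ω' : F.Ω) : (bd F ω' - bd F ω) none = 0 := by
  change (1 : ℝ) - 1 = 0
  exact sub_self _

/-- A covector of the first place. -/
theorem cv_place0 {ψ V : Option (Fin m) → ℝ} (hψ : CvC c 0 ψ) (h : V none = 0) : cv ψ V = 0 := by
  rw [cv_congr hψ (W := V) (W' := 0) (by rw [h]; rfl) fun j hj => absurd hj (Nat.not_lt_zero j)]
  unfold cv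
  simp

/-- The natural size of a direction over one coordinate. -/
theorem en_one {ψ : ℕ → Option (Fin m) → ℝ} {g : ℕ → ℕ} {W : ℕ} {V : Option (Fin m) → ℝ}
    (hψ : CvC c 0 (ψ 0)) (h : V none = 0) : en c g W ψ 1 V = 2 ^ g 0 * |V (some (c 0))| := by
  rw [en_eq, h, abs_zero, mul_zero, zero_add, Finset.sum_range_one, cv_place0 hψ h, sub_zero]

end

/-- **The levels.** -/
structure HvN (J W a P : ℕ) (g ga u v s : ℕ → ℕ) : Prop where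
  uv1 : v 1 ≤ u 1
  uv2 : v 2 ≤ u 2
  va1 : v 1 ≤ ga 1
  va2 : v 2 ≤ ga 2
  va3 : v 2 + g 1 ≤ ga 1 + g 2
  u21 : u 2 + g 1 ≤ u 1 + g 2
  xg : ∀ l, 1 ≤ l → l ≤ 2 → u l + g 0 ≤ J + g l
  xa : ∀ l, 1 ≤ l → l ≤ 2 → u l + ga 0 ≤ J + ga l
  s0 : s 0 ≤ W + 1 + P
  s21 : s 2 + g 1 ≤ s 1 + g 2
  pg : ∀ l, 1 ≤ l → l ≤ 2 → s l + g 0 ≤ W + 1 + P + g l
  pa : ∀ l, 1 ≤ l → l ≤ 2 → s l + ga 0 ≤ W + 1 + P + ga l
  ja : ∀ l, 1 ≤ l → l ≤ 2 → s l + ga 0 + a ≤ W + 1 + J + ga l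

/-- Powers of two. -/
theorem pdl {n x y z : ℕ} (h : n + x ≤ y + z) : (2 : ℝ) ^ n * (2 ^ x / 2 ^ y / 2 ^ z) ≤ 1 := by
  rw [div_div, ← mul_div_assoc, div_le_one (by positivity), ← pow_add, ← pow_add]
  exact pow_le_pow_right₀ (by norm_num) h

/-- The number of the lemma. -/
def kH (k : ℕ) : ℕ := 127 * k + 194

section

variable {F : Fam m J} {c : ℕ → Fin m} {g ga : ℕ → ℕ} {W a k r P : ℕ}
  {ψH : LnT F → ℕ → Option (Fin m) → ℝ} {G : PtT F → ℕ → MvPolynomial (Option (Fin m)) ℝ}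
  {B : F.Ω → Prop} {ω ω' : F.Ω}

theorem Sm1.enx (h : Sm1 F c P ω ω') {ψ : ℕ → Option (Fin m) → ℝ} {n : ℕ → ℕ} {w : ℕ}
    (hψ : CvC c 0 (ψ 0)) : en c n w ψ 1 (bt F ω' - bt F ω) ≤ 2 ^ n 0 / 2 ^ J := by
  rw [en_one hψ h.t0]
  refine (mul_le_mul_of_nonneg_left h.x (by positivity)).trans (le_of_eq ?_)
  ring

theorem Sm1.env (h : Sm1 F c P ω ω') {ψ : ℕ → Option (Fin m) → ℝ} {n : ℕ → ℕ} {w : ℕ}
    (hψ : CvC c 0 (ψ 0)) : en c n w ψ 1 (bd F ω' - bd F ω) ≤ 2 ^ n 0 / 2 ^ P := by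
  rw [en_one hψ (bd_none F ω ω')]
  refine (mul_le_mul_of_nonneg_left h.d (by positivity)).trans (le_of_eq ?_)
  ring

theorem Sm1.ev0 (h : Sm1 F c P ω ω') {Q : MvPolynomial (Option (Fin m)) ℝ} (hQ : DepC c 0 Q) :
    eval (bt F ω') Q = eval (bt F ω) Q :=
  hQ _ _ (by
    change F.t ω' = F.t ω
    unfold Fam.t
    rw [h.t]) fun j hj => absurd hj (Nat.not_lt_zero j)

theorem Sm1.hh (h : Sm1 F c P ω ω') {Q : ℕ → MvPolynomial (Option (Fin m)) ℝ}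
    (hQ : DepC c 0 (Q 0)) : ∀ j < 1, 2 ^ ga j * |(bt F ω' (some (c j)) - eval (bt F ω') (Q j)) -
      (bt F ω (some (c j)) - eval (bt F ω) (Q j))| ≤ 2 ^ ga 0 / 2 ^ J := by
  intro j hj
  have h0 : j = 0 := by omega
  rw [h0, h.ev0 hQ]
  have e1 : (bt F ω' (some (c 0)) - eval (bt F ω) (Q 0)) -
      (bt F ω (some (c 0)) - eval (bt F ω) (Q 0)) = F.x ω' (c 0) - F.x ω (c 0) := by
    change (F.x ω' (c 0) - _) - (F.x ω (c 0) - _) = _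
    ring
  rw [e1]
  refine (mul_le_mul_of_nonneg_left h.x (by positivity)).trans (le_of_eq ?_)
  ring

theorem Sm1.dst (h : Sm1 F c P ω ω') {Q : ℕ → MvPolynomial (Option (Fin m)) ℝ}
    (hQ : DepC c 0 (Q 0)) : Pool.D2S.dst c ga a Q 1 (bt F ω) (bt F ω') ≤ 2 ^ ga 0 / 2 ^ J := by
  unfold Pool.D2S.dst
  have h1 : bt F ω' none - bt F ω none = 0 := h.t0
  rw [h1, abs_zero, mul_zero, zero_add, Finset.sum_range_one]
  exact h.hh hQ 0 (by norm_num)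

/-- The constants of the lemma. -/
theorem kH_num (k : ℕ) : (2 * (3 : ℕ) + 2) * (2 : ℝ) ^ k ≤ 2 ^ (6 * k + 9) ∧
    (2 * ((1 + 2 : ℕ) : ℝ) + 2) * 2 ^ kp k 1 ≤ 2 ^ (6 * k + 9) := by
  constructor
  · have e1 : (2 * ((3 : ℕ) : ℝ) + 2) * (2 : ℝ) ^ k = 2 ^ (k + 3) := by
      rw [pow_add]
      push_cast
      ring
    rw [e1]
    exact pow_le_pow_right₀ (by norm_num) (by omega)
  · have e1 : (2 * ((1 + 2 : ℕ) : ℝ) + 2) * (2 : ℝ) ^ kp k 1 = 2 ^ (kp k 1 + 3) := by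
      rw [pow_add]
      push_cast
      ring
    rw [e1]
    refine pow_le_pow_right₀ (by norm_num) ?_
    unfold kp
    omega

/-- **Heights and coordinates in the frame**, the first rough place. -/
theorem Hgb.hts0 (H : Hgb F c g ga W a k r ψH G B) (hr : 3 ≤ r) (hω : B ω) (hω' : B ω')
    (hG : ∀ l < r, G (ptr F J ω) l = G (ptr F J ω') l) (h : Sm1 F c P ω ω')
    {u v s : ℕ → ℕ} (N : HvN J W a P g ga u v s) :
    2 ^ u 1 * |((bt F ω' - bt F ω) (some (c 1)) - cv (ψH (slam F W ω) 1) (bt F ω' - bt F ω)) -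
      (hgp F (c 1) (G (ptr F J ω') 1) ω' - hgp F (c 1) (G (ptr F J ω) 1) ω)| ≤
      2 ^ (126 * k + 190) := by
  have hp := (H.pm hω hω' h.t hG).le hr
  have h1 := hp.hgt0 (kH_num k).1 (i := 1) (by norm_num) (M := 2 ^ g 0 / 2 ^ J)
    (M' := 2 ^ ga 0 / 2 ^ J) (by positivity) (h.enx (H.cvH _ 0)) (h.hh (H.depG _ 0))
  have n1 := pdl (N.xg 1 le_rfl (by norm_num))
  have n2 := pdl (N.xa 1 le_rfl (by norm_num))
  have e2 : hgp F (c 1) (G (ptr F J ω') 1) ω' - hgp F (c 1) (G (ptr F J ω) 1) ω =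
      (bt F ω' (some (c 1)) - eval (bt F ω') (G (ptr F J ω) 1)) -
      (bt F ω (some (c 1)) - eval (bt F ω) (G (ptr F J ω) 1)) := by
    rw [← hG 1 (by omega)]
    rfl
  rw [e2]
  have h2 := mul_le_mul_of_nonneg_left h1 (by positivity : (0 : ℝ) ≤ 2 ^ u 1)
  refine h2.trans ?_
  have e3 : (2 : ℝ) ^ u 1 * (2 ^ k * (2 ^ g 0 / 2 ^ J / 2 ^ g 1) +
      (2 ^ (6 * k + 9)) ^ ((3 + 4) * 3) * (2 ^ ga 0 / 2 ^ J / 2 ^ ga 1)) =
      2 ^ k * (2 ^ u 1 * (2 ^ g 0 / 2 ^ J / 2 ^ g 1)) +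
      2 ^ (126 * k + 189) * (2 ^ u 1 * (2 ^ ga 0 / 2 ^ J / 2 ^ ga 1)) := by
    have : ((2 : ℝ) ^ (6 * k + 9)) ^ ((3 + 4) * 3) = 2 ^ (126 * k + 189) := by
      rw [← pow_mul]
      congr 1
      ring
    rw [this]
    ring
  rw [e3]
  have n3 : (2 : ℝ) ^ k * (2 ^ u 1 * (2 ^ g 0 / 2 ^ J / 2 ^ g 1)) ≤ 2 ^ k * 1 :=
    mul_le_mul_of_nonneg_left n1 (by positivity)
  have n4 : (2 : ℝ) ^ (126 * k + 189) * (2 ^ u 1 * (2 ^ ga 0 / 2 ^ J / 2 ^ ga 1)) ≤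
      2 ^ (126 * k + 189) * 1 := mul_le_mul_of_nonneg_left n2 (by positivity)
  have n5 : (2 : ℝ) ^ k ≤ 2 ^ (126 * k + 189) := pow_le_pow_right₀ (by norm_num) (by omega)
  have e4 : (2 : ℝ) ^ (126 * k + 190) = 2 * 2 ^ (126 * k + 189) := by
    rw [pow_succ]
    ring
  rw [e4]
  linarith

/-- **Heights and coordinates in the frame**, the second rough place. -/
theorem Hgb.hts1 (H : Hgb F c g ga W a k r ψH G B) (hr : 3 ≤ r) (hω : B ω) (hω' : B ω')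
    (hG : ∀ l < r, G (ptr F J ω) l = G (ptr F J ω') l)
    (hψ : ψH (slam F W ω) = ψH (slam F W ω')) (h : Sm1 F c P ω ω')
    {u v s : ℕ → ℕ} (N : HvN J W a P g ga u v s)
    (h0 : 2 ^ u 1 * |(bt F ω' - bt F ω) (some (c 1)) -
      cv (ψH (slam F W ω) 1) (bt F ω' - bt F ω)| ≤ 1) :
    2 ^ u 2 * |((bt F ω' - bt F ω) (some (c 2)) - cv (ψH (slam F W ω) 2) (bt F ω' - bt F ω)) -
      (hgp F (c 2) (afl c (G (ptr F J ω')) 1 (ψH (slam F W ω') 2 (some (c 1)))) ω' -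
        hgp F (c 2) (afl c (G (ptr F J ω)) 1 (ψH (slam F W ω) 2 (some (c 1)))) ω)| ≤
      2 ^ kH k := by
  have hp := (H.pm hω hω' h.t hG).le hr
  have h1 := hp.hgt1 (i := 1) (by norm_num) (kH_num k).2 (M := 2 ^ g 0 / 2 ^ J)
    (M' := 2 ^ ga 0 / 2 ^ J) (by positivity) (h.enx (H.cvH _ 0)) (h.hh (H.depG _ 0))
  have hA := H.hts0 hr hω hω' hG h N
  have n1 := pdl (N.xg 2 (by norm_num) le_rfl)
  have n2 := pdl (N.xa 2 (by norm_num) le_rfl)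
  have ea : afl c (G (ptr F J ω')) 1 (ψH (slam F W ω') 2 (some (c 1))) =
      afl c (G (ptr F J ω)) 1 (ψH (slam F W ω) 2 (some (c 1))) := by
    unfold afl
    rw [← hG 1 (by omega), ← hG (1 + 1) (by omega), ← hψ]
  rw [ea]
  rw [← hG 1 (by omega)] at hA
  have e2 : ∀ (Q : MvPolynomial (Option (Fin m)) ℝ) (j : Fin m), hgp F j Q ω' - hgp F j Q ω =
      (bt F ω' (some j) - eval (bt F ω') Q) - (bt F ω (some j) - eval (bt F ω) Q) :=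
    fun _ _ => rfl
  rw [e2] at hA ⊢
  obtain ⟨x, hx⟩ : ∃ x, x = (bt F ω' - bt F ω) (some (c 1)) -
    cv (ψH (slam F W ω) 1) (bt F ω' - bt F ω) := ⟨_, rfl⟩
  obtain ⟨z, hz⟩ : ∃ z, z = (bt F ω' (some (c 1)) - eval (bt F ω') (G (ptr F J ω) 1)) -
    (bt F ω (some (c 1)) - eval (bt F ω) (G (ptr F J ω) 1)) := ⟨_, rfl⟩
  rw [← hx] at h0
  rw [← hx, ← hz] at hA h1
  have hz1 : 2 ^ u 1 * |z| ≤ 1 + 2 ^ (126 * k + 190) := by
    have q1 : |z| ≤ |x - z| + |x| := by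
      have := abs_sub x (x - z)
      rw [sub_sub_cancel] at this
      linarith
    have q2 := mul_le_mul_of_nonneg_left q1 (by positivity : (0 : ℝ) ≤ 2 ^ u 1)
    rw [mul_add] at q2
    linarith
  have h2 := mul_le_mul_of_nonneg_left h1 (by positivity : (0 : ℝ) ≤ 2 ^ u 2)
  refine h2.trans ?_
  have n3 : (2 : ℝ) ^ u 2 * (2 ^ g 1 / 2 ^ g (1 + 1)) ≤ 2 ^ u 1 := by
    rw [← mul_div_assoc, div_le_iff₀ (by positivity), ← pow_add, ← pow_add]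
    exact pow_le_pow_right₀ (by norm_num) N.u21
  have n4 : (2 : ℝ) ^ u 2 * (2 ^ k * (2 ^ g 1 / 2 ^ g (1 + 1)) * (|x| + |z|)) ≤
      2 ^ k * (2 + 2 ^ (126 * k + 190)) := by
    calc (2 : ℝ) ^ u 2 * (2 ^ k * (2 ^ g 1 / 2 ^ g (1 + 1)) * (|x| + |z|)) =
          2 ^ k * ((2 ^ u 2 * (2 ^ g 1 / 2 ^ g (1 + 1))) * (|x| + |z|)) := by ring
      _ ≤ 2 ^ k * (2 ^ u 1 * (|x| + |z|)) := mul_le_mul_of_nonneg_left
          (mul_le_mul_of_nonneg_right n3 (by positivity)) (by positivity)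
      _ ≤ _ := mul_le_mul_of_nonneg_left (by rw [mul_add]; linarith) (by positivity)
  have e3 : (2 : ℝ) ^ u 2 * (2 ^ k * (2 ^ g 0 / 2 ^ J / 2 ^ g (1 + 1)) +
      (2 ^ (6 * k + 9)) ^ ((1 + 2 + 4) * (1 + 2)) * (2 ^ ga 0 / 2 ^ J / 2 ^ ga (1 + 1)) +
      2 ^ k * (2 ^ g 1 / 2 ^ g (1 + 1)) * (|x| + |z|)) =
      2 ^ k * (2 ^ u 2 * (2 ^ g 0 / 2 ^ J / 2 ^ g 2)) +
      2 ^ (126 * k + 189) * (2 ^ u 2 * (2 ^ ga 0 / 2 ^ J / 2 ^ ga 2)) +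
      2 ^ u 2 * (2 ^ k * (2 ^ g 1 / 2 ^ g (1 + 1)) * (|x| + |z|)) := by
    have : ((2 : ℝ) ^ (6 * k + 9)) ^ ((1 + 2 + 4) * (1 + 2)) = 2 ^ (126 * k + 189) := by
      rw [← pow_mul]
      congr 1
      ring
    rw [this]
    ring
  rw [e3]
  have n5 : (2 : ℝ) ^ k * (2 ^ u 2 * (2 ^ g 0 / 2 ^ J / 2 ^ g 2)) ≤ 2 ^ k * 1 :=
    mul_le_mul_of_nonneg_left n1 (by positivity)
  have n6 : (2 : ℝ) ^ (126 * k + 189) * (2 ^ u 2 * (2 ^ ga 0 / 2 ^ J / 2 ^ ga 2)) ≤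
      2 ^ (126 * k + 189) * 1 := mul_le_mul_of_nonneg_left n2 (by positivity)
  obtain ⟨X, hX⟩ : ∃ X : ℝ, X = 2 ^ (126 * k + 190) := ⟨_, rfl⟩
  have hX1 : 1 ≤ X := by rw [hX]; exact one_le_pow₀ (by norm_num)
  have e5 : (2 : ℝ) ^ (126 * k + 189) ≤ X := by
    rw [hX]
    exact pow_le_pow_right₀ (by norm_num) (by omega)
  have hk1 : (1 : ℝ) ≤ 2 ^ k := one_le_pow₀ (by norm_num)
  have e6 : (2 : ℝ) ^ kH k = 2 ^ k * (16 * X) := by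
    rw [hX]
    unfold kH
    have : 127 * k + 194 = k + (4 + (126 * k + 190)) := by ring
    rw [this, pow_add, pow_add]
    norm_num
  rw [e6]
  rw [← hX] at n4
  have q1 : 2 ^ k * 1 ≤ (2 : ℝ) ^ k * X := mul_le_mul_of_nonneg_left hX1 (by positivity)
  have q2 : X ≤ 2 ^ k * X := le_mul_of_one_le_left (by linarith) hk1
  have q3 : (2 : ℝ) ^ k * (2 + X) ≤ 2 ^ k * (3 * X) :=
    mul_le_mul_of_nonneg_left (by linarith) (by positivity)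
  linarith

/-- **The label which is affine in the first rough coordinate is natural.** -/
theorem Hgb.apos (H : Hgb F c g ga W a k r ψH G B) (hr : 3 ≤ r) (hω : B ω) :
    |hgp F (c 2) (afl c (G (ptr F J ω)) 1 (ψH (slam F W ω) 2 (some (c 1)))) ω| ≤
      2 ^ (4 * k + 4) / 2 ^ ga 2 + 2 ^ k * (2 ^ g 1 / 2 ^ g 2 / 2 ^ ga 1) := by
  have hp := (H.pm hω hω rfl fun _ _ => rfl).le hr
  have h1 := hp.pw.afl_pos (fun l => Pool.D2Z.cvc_grd (H.depG _ l) _) (i := 1) (by norm_num)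
  have h0 := hp.slp (i := 1) (by norm_num)
  have h2 := H.pos ω hω 1 (by omega)
  obtain ⟨x, hx⟩ : ∃ x, x = F.x ω (c 1) - eval (bt F ω) (G (ptr F J ω) 1) := ⟨_, rfl⟩
  obtain ⟨s, hs⟩ : ∃ s, s = ψH (slam F W ω) 2 (some (c 1)) := ⟨_, rfl⟩
  obtain ⟨s', hs'⟩ : ∃ s, s = grd (G (ptr F J ω) (1 + 1)) (bt F ω) (some (c 1)) := ⟨_, rfl⟩
  rw [← hs'] at h1 h0
  rw [← hx] at h2
  change 2 ^ g (1 + 1) * |ψH (slam F W ω) 2 (some (c 1)) - s'| ≤ 2 ^ k * 2 ^ g 1 at h0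
  rw [← hs] at h0 ⊢
  have e1 : hgp F (c 2) (afl c (G (ptr F J ω)) 1 s) ω =
      (bt F ω (some (c (1 + 1))) - eval (bt F ω) (afl c (G (ptr F J ω)) 1 s')) -
      (s - s') * x := by
    have e2 : ∀ j, bt F ω (some j) = F.x ω j := fun _ => rfl
    unfold hgp
    rw [eval_afl, eval_afl, hx, e2, e2]
    ring
  rw [e1]
  refine (abs_sub _ _).trans (add_le_add (h1.trans (le_of_eq ?_)) ?_)
  · congr 2
    ring
  · rw [abs_mul]
    have h3 : |s - s'| ≤ 2 ^ k * (2 ^ g 1 / 2 ^ g 2) := by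
      rw [← mul_div_assoc, le_div_iff₀ (by positivity), mul_comm]
      exact h0
    calc |s - s'| * |x| ≤ 2 ^ k * (2 ^ g 1 / 2 ^ g 2) * (1 / 2 ^ ga 1) :=
          mul_le_mul h3 h2 (abs_nonneg _) (by positivity)
      _ = _ := by ring

theorem pdl2 {n x y z w : ℕ} (h : n + x ≤ w + y + z) :
    (2 : ℝ) ^ n * (2 ^ x / 2 ^ y / 2 ^ z) ≤ 2 ^ w := by
  rw [div_div, ← mul_div_assoc, div_le_iff₀ (by positivity), ← pow_add, ← pow_add, ← pow_add]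
  exact pow_le_pow_right₀ (by norm_num) (by omega)

/-- The frame coordinate of the velocity. -/
noncomputable def fve (F : Fam m J) (c : ℕ → Fin m) (W : ℕ)
    (ψH : LnT F → ℕ → Option (Fin m) → ℝ) (ω ω' : F.Ω) (l : ℕ) : ℝ :=
  (bd F ω' - bd F ω) (some (c l)) - cv (ψH (slam F W ω) l) (bd F ω' - bd F ω)

/-- **Velocities**, the slow place. -/
theorem Sm1.vls (h : Sm1 F c P ω ω') (hψ : ∀ s l, CvC c l (ψH s l)) {u v s : ℕ → ℕ}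
    (N : HvN J W a P g ga u v s) : 2 ^ s 0 * |fve F c W ψH ω ω' 0| ≤ 2 ^ (W + 1) := by
  unfold fve
  rw [cv_place0 (hψ _ 0) (bd_none F ω ω'), sub_zero]
  refine (mul_le_mul_of_nonneg_left h.d (by positivity)).trans ?_
  rw [← mul_div_assoc, mul_one, div_le_iff₀ (by positivity), ← pow_add]
  exact pow_le_pow_right₀ (by norm_num) N.s0

/-- **Velocities**, the first rough place. -/
theorem Hgb.vls0 (H : Hgb F c g ga W a k r ψH G B) (hr : 3 ≤ r) (hω : B ω) (hω' : B ω')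
    (hG : ∀ l < r, G (ptr F J ω) l = G (ptr F J ω') l) (h : Sm1 F c P ω ω')
    {u v s : ℕ → ℕ} (N : HvN J W a P g ga u v s) :
    2 ^ s 1 * |fve F c W ψH ω ω' 1 -
      (vlp F (c 1) (G (ptr F J ω') 1) ω' - vlp F (c 1) (G (ptr F J ω) 1) ω)| ≤
      2 ^ (W + 1) * 2 ^ (49 * k + 74) := by
  have hp := (H.pm hω hω' h.t hG).le hr
  have h1 := hp.vel0 (kH_num k).1 (i := 1) (by norm_num) (V := bd F ω) (V' := bd F ω')
    (E := 2 ^ (k + a)) (M := 2 ^ g 0 / 2 ^ P) (M' := 2 ^ ga 0 / 2 ^ P) (N := 2 ^ ga 0 / 2 ^ J)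
    (by
      change (2 : ℝ) ^ a * |(1 : ℝ)| ≤ _
      rw [abs_one, mul_one]
      exact pow_le_pow_right₀ (by norm_num) (by omega))
    (fun j hj => by
      have h2 := H.vel ω' hω' j (by omega)
      rw [← hG j (by omega), le_div_iff₀ (by positivity), mul_comm] at h2
      exact h2) (h.env (H.cvH _ 0)) (h.env (Pool.D2Z.cvc_grd (H.depG _ 0) _))
    (h.dst (H.depG _ 0))
  have n1 : (2 : ℝ) ^ s 1 * (2 ^ g 0 / 2 ^ P / 2 ^ g 1) ≤ 2 ^ (W + 1) :=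
    pdl2 (by have := N.pg 1 le_rfl (by norm_num); omega)
  have n2 : (2 : ℝ) ^ s 1 * (2 ^ ga 0 / 2 ^ P / 2 ^ ga 1) ≤ 2 ^ (W + 1) :=
    pdl2 (by have := N.pa 1 le_rfl (by norm_num); omega)
  have n3 : (2 : ℝ) ^ s 1 * (2 ^ (ga 0 + a) / 2 ^ J / 2 ^ ga 1) ≤ 2 ^ (W + 1) :=
    pdl2 (by have := N.ja 1 le_rfl (by norm_num); omega)
  have e2 : vlp F (c 1) (G (ptr F J ω') 1) ω' - vlp F (c 1) (G (ptr F J ω) 1) ω =
      (bd F ω' (some (c 1)) - dd (G (ptr F J ω) 1) (bt F ω') (bd F ω')) -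
      (bd F ω (some (c 1)) - dd (G (ptr F J ω) 1) (bt F ω) (bd F ω)) := by
    rw [← hG 1 (by omega)]
    rfl
  rw [e2]
  unfold fve
  have h2 := mul_le_mul_of_nonneg_left h1 (by positivity : (0 : ℝ) ≤ 2 ^ s 1)
  refine h2.trans ?_
  obtain ⟨Y, hY⟩ : ∃ Y : ℝ, Y = 2 ^ (6 * k + 9) := ⟨_, rfl⟩
  have e3 : (2 : ℝ) ^ s 1 * (2 ^ k * (2 ^ g 0 / 2 ^ P / 2 ^ g 1) +
      (2 ^ (6 * k + 9) * (2 ^ ga 0 / 2 ^ P) +
        (2 ^ (6 * k + 9)) ^ (2 * 3 + 2) * (2 ^ ga 0 / 2 ^ J * 2 ^ (k + a))) / 2 ^ ga 1) =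
      2 ^ k * (2 ^ s 1 * (2 ^ g 0 / 2 ^ P / 2 ^ g 1)) +
      2 ^ (6 * k + 9) * (2 ^ s 1 * (2 ^ ga 0 / 2 ^ P / 2 ^ ga 1)) +
      2 ^ (49 * k + 72) * (2 ^ s 1 * (2 ^ (ga 0 + a) / 2 ^ J / 2 ^ ga 1)) := by
    have e4 : ((2 : ℝ) ^ (6 * k + 9)) ^ (2 * 3 + 2) * 2 ^ k = 2 ^ (49 * k + 72) := by
      rw [← pow_mul, ← pow_add]
      congr 1
      ring
    rw [← e4, pow_add 2 k a, pow_add 2 (ga 0) a]
    ring
  rw [e3]
  have m1 : (2 : ℝ) ^ k * (2 ^ s 1 * (2 ^ g 0 / 2 ^ P / 2 ^ g 1)) ≤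
      2 ^ (49 * k + 72) * 2 ^ (W + 1) :=
    mul_le_mul (pow_le_pow_right₀ (by norm_num) (by omega)) n1 (by positivity) (by positivity)
  have m2 : (2 : ℝ) ^ (6 * k + 9) * (2 ^ s 1 * (2 ^ ga 0 / 2 ^ P / 2 ^ ga 1)) ≤
      2 ^ (49 * k + 72) * 2 ^ (W + 1) :=
    mul_le_mul (pow_le_pow_right₀ (by norm_num) (by omega)) n2 (by positivity) (by positivity)
  have m3 : (2 : ℝ) ^ (49 * k + 72) * (2 ^ s 1 * (2 ^ (ga 0 + a) / 2 ^ J / 2 ^ ga 1)) ≤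
      2 ^ (49 * k + 72) * 2 ^ (W + 1) := mul_le_mul_of_nonneg_left n3 (by positivity)
  have e5 : (2 : ℝ) ^ (49 * k + 74) = 4 * 2 ^ (49 * k + 72) := by
    rw [pow_add, pow_add]
    ring
  rw [e5]
  have : (0 : ℝ) ≤ 2 ^ (49 * k + 72) * 2 ^ (W + 1) := by positivity
  linarith

/-- **Velocities**, the second rough place. -/
theorem Hgb.vls1 (H : Hgb F c g ga W a k r ψH G B) (hr : 3 ≤ r) (hω : B ω) (hω' : B ω')
    (hG : ∀ l < r, G (ptr F J ω) l = G (ptr F J ω') l)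
    (hψ : ψH (slam F W ω) = ψH (slam F W ω')) (h : Sm1 F c P ω ω')
    {u v s : ℕ → ℕ} (N : HvN J W a P g ga u v s)
    (h0 : 2 ^ s 1 * |vlp F (c 1) (G (ptr F J ω') 1) ω' - vlp F (c 1) (G (ptr F J ω) 1) ω| ≤
      2 ^ (W + 1) * 2 ^ k) :
    2 ^ s 2 * |fve F c W ψH ω ω' 2 -
      (vlp F (c 2) (afl c (G (ptr F J ω')) 1 (ψH (slam F W ω') 2 (some (c 1)))) ω' -
        vlp F (c 2) (afl c (G (ptr F J ω)) 1 (ψH (slam F W ω) 2 (some (c 1)))) ω)| ≤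
      2 ^ (W + 1) * 2 ^ (61 * k + 94) := by
  have hp := (H.pm hω hω' h.t hG).le hr
  have h1 := hp.vel1 (i := 1) (by norm_num) (kH_num k).2 (V := bd F ω) (V' := bd F ω')
    (E := 2 ^ (k + a)) (M := 2 ^ g 0 / 2 ^ P) (M' := 2 ^ ga 0 / 2 ^ P) (N := 2 ^ ga 0 / 2 ^ J)
    (by
      change (2 : ℝ) ^ a * |(1 : ℝ)| ≤ _
      rw [abs_one, mul_one]
      exact pow_le_pow_right₀ (by norm_num) (by omega))
    (fun j hj => by
      have h2 := H.vel ω' hω' j (by omega)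
      rw [← hG j (by omega), le_div_iff₀ (by positivity), mul_comm] at h2
      exact h2) (h.env (H.cvH _ 0)) (h.env (Pool.D2Z.cvc_grd (H.depG _ 0) _))
    (h.dst (H.depG _ 0))
  have hA := H.vls0 hr hω hω' hG h N
  have n1 : (2 : ℝ) ^ s 2 * (2 ^ g 0 / 2 ^ P / 2 ^ g 2) ≤ 2 ^ (W + 1) :=
    pdl2 (by have := N.pg 2 (by norm_num) le_rfl; omega)
  have n2 : (2 : ℝ) ^ s 2 * (2 ^ ga 0 / 2 ^ P / 2 ^ ga 2) ≤ 2 ^ (W + 1) :=
    pdl2 (by have := N.pa 2 (by norm_num) le_rfl; omega)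
  have n3 : (2 : ℝ) ^ s 2 * (2 ^ (ga 0 + a) / 2 ^ J / 2 ^ ga 2) ≤ 2 ^ (W + 1) :=
    pdl2 (by have := N.ja 2 (by norm_num) le_rfl; omega)
  have ea : afl c (G (ptr F J ω')) 1 (ψH (slam F W ω') 2 (some (c 1))) =
      afl c (G (ptr F J ω)) 1 (ψH (slam F W ω) 2 (some (c 1))) := by
    unfold afl
    rw [← hG 1 (by omega), ← hG (1 + 1) (by omega), ← hψ]
  rw [ea]
  rw [← hG 1 (by omega)] at hA h0
  have e2 : ∀ (Q : MvPolynomial (Option (Fin m)) ℝ) (j : Fin m), vlp F j Q ω' - vlp F j Q ω =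
      (bd F ω' (some j) - dd Q (bt F ω') (bd F ω')) -
      (bd F ω (some j) - dd Q (bt F ω) (bd F ω)) := fun _ _ => rfl
  rw [e2] at hA h0 ⊢
  unfold fve at hA ⊢
  obtain ⟨x, hx⟩ : ∃ x, x = (bd F ω' - bd F ω) (some (c 1)) -
    cv (ψH (slam F W ω) 1) (bd F ω' - bd F ω) := ⟨_, rfl⟩
  obtain ⟨z, hz⟩ : ∃ z, z = (bd F ω' (some (c 1)) -
    dd (G (ptr F J ω) 1) (bt F ω') (bd F ω')) -
    (bd F ω (some (c 1)) - dd (G (ptr F J ω) 1) (bt F ω) (bd F ω)) := ⟨_, rfl⟩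
  rw [← hz] at h0
  rw [← hx, ← hz] at hA h1
  have hx1 : 2 ^ s 1 * (|x| + |z|) ≤ 2 ^ (W + 1) * (2 * 2 ^ k + 2 ^ (49 * k + 74)) := by
    have q1 : |x| ≤ |x - z| + |z| := by
      have := abs_add_le (x - z) z
      rw [sub_add_cancel] at this
      exact this
    have q2 := mul_le_mul_of_nonneg_left q1 (by positivity : (0 : ℝ) ≤ 2 ^ s 1)
    rw [mul_add] at q2 ⊢
    linarith
  have h2 := mul_le_mul_of_nonneg_left h1 (by positivity : (0 : ℝ) ≤ 2 ^ s 2)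
  refine h2.trans ?_
  have n4 : (2 : ℝ) ^ s 2 * (2 ^ g 1 / 2 ^ g (1 + 1)) ≤ 2 ^ s 1 := by
    rw [← mul_div_assoc, div_le_iff₀ (by positivity), ← pow_add, ← pow_add]
    exact pow_le_pow_right₀ (by norm_num) N.s21
  have n5 : (2 : ℝ) ^ s 2 * (2 ^ k * (2 ^ g 1 / 2 ^ g (1 + 1)) * (|x| + |z|)) ≤
      2 ^ k * (2 ^ (W + 1) * (2 * 2 ^ k + 2 ^ (49 * k + 74))) := by
    calc (2 : ℝ) ^ s 2 * (2 ^ k * (2 ^ g 1 / 2 ^ g (1 + 1)) * (|x| + |z|)) =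
          2 ^ k * ((2 ^ s 2 * (2 ^ g 1 / 2 ^ g (1 + 1))) * (|x| + |z|)) := by ring
      _ ≤ 2 ^ k * (2 ^ s 1 * (|x| + |z|)) := mul_le_mul_of_nonneg_left
          (mul_le_mul_of_nonneg_right n4 (by positivity)) (by positivity)
      _ ≤ _ := mul_le_mul_of_nonneg_left hx1 (by positivity)
  have e3 : (2 : ℝ) ^ s 2 * (2 ^ k * (2 ^ g 0 / 2 ^ P / 2 ^ g (1 + 1)) +
      (2 ^ (6 * k + 9)) ^ (2 * 1 + 8) * (2 ^ ga 0 / 2 ^ P + 2 ^ ga 0 / 2 ^ J * 2 ^ (k + a)) /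
        2 ^ ga (1 + 1) + 2 ^ k * (2 ^ g 1 / 2 ^ g (1 + 1)) * (|x| + |z|)) =
      2 ^ k * (2 ^ s 2 * (2 ^ g 0 / 2 ^ P / 2 ^ g 2)) +
      2 ^ (60 * k + 90) * (2 ^ s 2 * (2 ^ ga 0 / 2 ^ P / 2 ^ ga 2)) +
      2 ^ (61 * k + 90) * (2 ^ s 2 * (2 ^ (ga 0 + a) / 2 ^ J / 2 ^ ga 2)) +
      2 ^ s 2 * (2 ^ k * (2 ^ g 1 / 2 ^ g (1 + 1)) * (|x| + |z|)) := by
    have e4 : ((2 : ℝ) ^ (6 * k + 9)) ^ (2 * 1 + 8) = 2 ^ (60 * k + 90) := by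
      rw [← pow_mul]
      congr 1
      ring
    have e5 : (2 : ℝ) ^ (61 * k + 90) = 2 ^ (60 * k + 90) * 2 ^ k := by
      rw [← pow_add]
      congr 1
      ring
    rw [e4, e5, pow_add 2 k a, pow_add 2 (ga 0) a]
    ring
  rw [e3]
  have m1 : (2 : ℝ) ^ k * (2 ^ s 2 * (2 ^ g 0 / 2 ^ P / 2 ^ g 2)) ≤
      2 ^ (61 * k + 90) * 2 ^ (W + 1) :=
    mul_le_mul (pow_le_pow_right₀ (by norm_num) (by omega)) n1 (by positivity) (by positivity)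
  have m2 : (2 : ℝ) ^ (60 * k + 90) * (2 ^ s 2 * (2 ^ ga 0 / 2 ^ P / 2 ^ ga 2)) ≤
      2 ^ (61 * k + 90) * 2 ^ (W + 1) :=
    mul_le_mul (pow_le_pow_right₀ (by norm_num) (by omega)) n2 (by positivity) (by positivity)
  have m3 : (2 : ℝ) ^ (61 * k + 90) * (2 ^ s 2 * (2 ^ (ga 0 + a) / 2 ^ J / 2 ^ ga 2)) ≤
      2 ^ (61 * k + 90) * 2 ^ (W + 1) := mul_le_mul_of_nonneg_left n3 (by positivity)
  have m4 : (2 : ℝ) ^ k * (2 ^ (W + 1) * (2 * 2 ^ k + 2 ^ (49 * k + 74))) ≤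
      2 ^ (61 * k + 90) * 2 ^ (W + 1) := by
    have a1 : 2 * (2 : ℝ) ^ k + 2 ^ (49 * k + 74) ≤ 2 ^ (49 * k + 75) := by
      have b1 : (2 : ℝ) ^ (k + 1) ≤ 2 ^ (49 * k + 74) :=
        pow_le_pow_right₀ (by norm_num) (by omega)
      have b2 : (2 : ℝ) ^ (49 * k + 75) = 2 * 2 ^ (49 * k + 74) := by
        rw [pow_succ]
        ring
      have b3 : (2 : ℝ) ^ (k + 1) = 2 * 2 ^ k := by
        rw [pow_succ]
        ring
      rw [b2]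
      linarith
    have a2 : (2 : ℝ) ^ k * 2 ^ (49 * k + 75) ≤ 2 ^ (61 * k + 90) := by
      rw [← pow_add]
      exact pow_le_pow_right₀ (by norm_num) (by omega)
    calc (2 : ℝ) ^ k * (2 ^ (W + 1) * (2 * 2 ^ k + 2 ^ (49 * k + 74))) ≤
          2 ^ k * (2 ^ (W + 1) * 2 ^ (49 * k + 75)) := mul_le_mul_of_nonneg_left
          (mul_le_mul_of_nonneg_left a1 (by positivity)) (by positivity)
      _ = (2 ^ k * 2 ^ (49 * k + 75)) * 2 ^ (W + 1) := by ring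
      _ ≤ _ := mul_le_mul_of_nonneg_right a2 (by positivity)
  have e5 : (2 : ℝ) ^ (61 * k + 94) = 16 * 2 ^ (61 * k + 90) := by
    rw [pow_add, pow_add]
    ring
  rw [e5]
  have : (0 : ℝ) ≤ 2 ^ (61 * k + 90) * 2 ^ (W + 1) := by positivity
  linarith

end

end Pool.D2F2
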