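import Pool.Agent.H4.D2.Hvf
import Pool.Agent.H91.FR.Mxl
import Pool.Agent.H83.OWN.Nrc

/-!
# Near frame digits are full given the slow coordinates and the velocities, class form

`NrP`: near digits given velocities, at one window (output of `near_rel`). `hnv_two`: one law, two
rough coordinates. `qjet_mk`, `qa_mk`: the codes of heights and velocities over closed labels.
`hnv_cls2`: the class form for two rough coordinates.
-/

set_option autoImplicit false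

namespace Pool.D2F2

open Finset Real MvPolynomial
open Pool.Agent.H49.Ent Pool.Agent.H32.Dense Pool.STK Pool.KA Pool.KSAT Pool.K2S Pool.PB Pool.GEN
open Pool.S6C Pool.LA91 Pool.RCD Pool.CHT Pool.CHX
open Pool.ISO (Clsd)
open Pool.GRD (LbP)
open Pool.OWN68 (CH_pair floor_sub_le)
open Pool.D2R (dd hs co co_slam)
open Pool.D2F (cv CvC)
open Pool.D2H (of_floor_mul CH_step CH_pi_le)

variable {m : ℕ}

/-! ### One law -/

section

variable {J : ℕ} {F : Fam m J} {c : ℕ → Fin m} {g : ℕ → ℕ} {W i r D : ℕ}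
  {ψH : LnT F → ℕ → Option (Fin m) → ℝ} {d : Dat F (ℕ → Option (Fin m) → ℝ) r D}

/-- **Two rough coordinates over exact slow coordinates**, one law. -/
theorem hnv_two {p : F.Ω → ℝ} (hp : IsLaw p) {T T' : Type} (Z : F.Ω → T) (Y : F.Ω → T')
    (hd : Fdl F d c W ψH) (hc : Set.InjOn c (Set.Iio r)) (hψ : ∀ s l, CvC c l (ψH s l))
    (hir : i + 1 < r) {Q : F.Ω → ℕ → MvPolynomial (Option (Fin m)) ℝ} {s : F.Ω → ℝ}
    (hQ : ∀ ω l, DepC c l (Q ω l)) {k : ℕ}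
    (hZ : ∀ ω ω', 0 < p ω → 0 < p ω' → Z ω = Z ω' → Ex0 F c i ω ω' ∧
      ψH (slam F W ω) = ψH (slam F W ω') ∧ Q ω i = Q ω' i ∧ Q ω (i + 1) = Q ω' (i + 1) ∧
      s ω = s ω')
    (hs : ∀ ω, 0 < p ω → 2 ^ g (i + 1) * |s ω - ψH (slam F W ω) (i + 1) (some (c i))| ≤
      2 ^ k * 2 ^ g i) {u v : ℕ → ℕ}
    (h0 : ∀ ω, 0 < p ω → 2 ^ v i * |hgp F (c i) (Q ω i) ω| ≤ 2 ^ k)
    (h1 : ∀ ω, 0 < p ω → 2 ^ v (i + 1) * |hgp F (c (i + 1)) (afl c (Q ω) i (s ω)) ω| ≤ 2 ^ k)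
    (uv0 : v i ≤ u i) (uv1 : v (i + 1) ≤ u (i + 1)) (ug : u (i + 1) + g i ≤ u i + g (i + 1))
    {β₀ β₁ : ℝ} (b0 : 0 ≤ β₀) (b1 : 0 ≤ β₁) (b2 : β₀ ≤ 2 ^ u i) (b3 : β₁ ≤ 2 ^ u (i + 1))
    {η : ℝ} (hY : CH p Y Z ≤ η) :
    CH p (fun ω => (⌊β₀ * hgp F (c i) (Q ω i) ω⌋,
        ⌊β₁ * hgp F (c (i + 1)) (afl c (Q ω) i (s ω)) ω⌋)) Z ≤
      CH p (fun ω (l : Fin 2) => Nfd d W u v (i + l) ω) Y + η +
        4 * Real.log (2 * ((2 ^ (k + 2) : ℕ) + 1 : ℕ) + 1) := by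
  have hcc : ∀ l < i, c l ≠ c i := fun l hl e => by
    have := hc (Set.mem_Iio.2 (by omega : l < r)) (Set.mem_Iio.2 (by omega : i < r)) e
    omega
  have key : ∀ ω ω', 0 < p ω → 0 < p ω' → Z ω = Z ω' →
      (d.v W i ω - d.v W i ω' = hgp F (c i) (Q ω i) ω - hgp F (c i) (Q ω' i) ω') ∧
      ∃ t : ℝ, 2 ^ g (i + 1) * |t| ≤ 2 ^ k * 2 ^ g i ∧
        d.v W (i + 1) ω - d.v W (i + 1) ω' =
          (hgp F (c (i + 1)) (afl c (Q ω) i (s ω)) ω -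
            hgp F (c (i + 1)) (afl c (Q ω') i (s ω')) ω') +
          t * (d.v W i ω - d.v W i ω') := by
    intro ω ω' hω hω' e
    obtain ⟨e0, e1, e2, e3, e4⟩ := hZ ω ω' hω hω' e
    have ea : afl c (Q ω') i (s ω') = afl c (Q ω) i (s ω) := by
      unfold afl
      rw [e2, e3, e4]
    obtain ⟨f1, -⟩ := hd.fst hψ e0 e1 (by omega)
    obtain ⟨f2, -⟩ := hd.snd hc hψ e0 e1 hir
    have f3 := e0.hgp0 (hQ ω i)
    have f4 := e0.hgp1 (s := s ω) hcc (hQ ω i) (hQ ω (i + 1))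
    rw [ea, ← e2]
    refine ⟨by linarith, s ω - ψH (slam F W ω) (i + 1) (some (c i)), hs ω hω, ?_⟩
    have f5 : d.v W i ω - d.v W i ω' = -(F.x ω' (c i) - F.x ω (c i)) := by linarith
    rw [f5]
    linarith
  have hK : (((2 ^ (k + 2) : ℕ)) : ℝ) = 4 * 2 ^ k := by
    push_cast
    rw [pow_add]
    ring
  have hk1 : (1 : ℝ) ≤ 2 ^ k := one_le_pow₀ (by norm_num)
  -- the slope times the near height
  have sl : ∀ {t x : ℝ} {n : ℕ}, n + g i ≤ u i + g (i + 1) →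
      2 ^ g (i + 1) * |t| ≤ 2 ^ k * 2 ^ g i → 2 ^ u i * |x| ≤ 1 → 2 ^ n * |t * x| ≤ 2 ^ k := by
    intro t x n hn h2 h3
    have a1 : (2 : ℝ) ^ (u i + g (i + 1)) * |t * x| ≤ 2 ^ k * 2 ^ g i := by
      calc (2 : ℝ) ^ (u i + g (i + 1)) * |t * x| = (2 ^ g (i + 1) * |t|) * (2 ^ u i * |x|) := by
            rw [abs_mul, pow_add]
            ring
        _ ≤ (2 ^ k * 2 ^ g i) * 1 := mul_le_mul h2 h3 (by positivity) (by positivity)
        _ = _ := mul_one _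
    have a2 : (2 : ℝ) ^ (n + g i) * |t * x| ≤ 2 ^ (u i + g (i + 1)) * |t * x| :=
      mul_le_mul_of_nonneg_right (pow_le_pow_right₀ (by norm_num) hn) (abs_nonneg _)
    have a3 : (2 : ℝ) ^ g i * (2 ^ n * |t * x|) ≤ 2 ^ g i * 2 ^ k := by
      calc (2 : ℝ) ^ g i * (2 ^ n * |t * x|) = 2 ^ (n + g i) * |t * x| := by
            rw [pow_add]
            ring
        _ ≤ _ := a2.trans a1
        _ = _ := by ring
    exact le_of_mul_le_mul_left a3 (by positivity)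
  have h2 := hnv_law (d := d) (W := W) hp Z Y (k₀ := i) (n := 2) (u := u) (v := v)
    (fun l hl => by
      interval_cases l
      · exact uv0
      · exact uv1)
    (fun l ω => if l = 0 then hgp F (c i) (Q ω i) ω else
      hgp F (c (i + 1)) (afl c (Q ω) i (s ω)) ω)
    (fun l => if l = 0 then β₀ else β₁)
    (fun l hl => by
      interval_cases l
      · exact b0
      · exact b1)
    (fun l hl => by
      interval_cases l
      · exact b2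
      · exact b3) (K := 2 ^ (k + 2))
    (fun ω ω' hω hω' e l hl hpr => by
      obtain ⟨k1, t, k2, k3⟩ := key ω ω' hω hω' e
      rw [hK]
      interval_cases l
      · rw [Nat.add_zero, k1]
        have a1 := mul_le_mul_of_nonneg_left (abs_sub (hgp F (c i) (Q ω i) ω)
          (hgp F (c i) (Q ω' i) ω')) (by positivity : (0 : ℝ) ≤ 2 ^ v i)
        have a2 := h0 ω hω
        have a3 := h0 ω' hω'
        rw [mul_add] at a1
        linarith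
      · rw [k3]
        have a0 : 2 ^ u i * |d.v W i ω - d.v W i ω'| ≤ 1 := hpr 0 (by norm_num)
        have a1 := mul_le_mul_of_nonneg_left (abs_add_le
          (hgp F (c (i + 1)) (afl c (Q ω) i (s ω)) ω -
            hgp F (c (i + 1)) (afl c (Q ω') i (s ω')) ω') (t * (d.v W i ω - d.v W i ω')))
          (by positivity : (0 : ℝ) ≤ 2 ^ v (i + 1))
        have a2 := mul_le_mul_of_nonneg_left (abs_sub
          (hgp F (c (i + 1)) (afl c (Q ω) i (s ω)) ω)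
          (hgp F (c (i + 1)) (afl c (Q ω') i (s ω')) ω'))
          (by positivity : (0 : ℝ) ≤ 2 ^ v (i + 1))
        have a3 := h1 ω hω
        have a4 := h1 ω' hω'
        have a5 := sl (by omega : v (i + 1) + g i ≤ u i + g (i + 1)) k2 a0
        rw [mul_add] at a1 a2
        linarith)
    (fun ω ω' hω hω' e l hl hpr => by
      obtain ⟨k1, t, k2, k3⟩ := key ω ω' hω hω' e
      have a0 : 2 ^ u i * |d.v W i ω - d.v W i ω'| ≤ 1 := hpr 0 (by omega)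
      rw [hK]
      interval_cases l
      · rw [if_pos rfl, if_pos rfl, Nat.add_zero, ← k1]
        linarith
      · rw [if_neg (by norm_num), if_neg (by norm_num)]
        have a1 : 2 ^ u (i + 1) * |d.v W (i + 1) ω - d.v W (i + 1) ω'| ≤ 1 := hpr 1 le_rfl
        have a5 := sl ug k2 a0
        have a6 : hgp F (c (i + 1)) (afl c (Q ω) i (s ω)) ω -
            hgp F (c (i + 1)) (afl c (Q ω') i (s ω')) ω' =
            (d.v W (i + 1) ω - d.v W (i + 1) ω') - t * (d.v W i ω - d.v W i ω') := by linarith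
        rw [a6]
        have a7 := mul_le_mul_of_nonneg_left (abs_sub
          (d.v W (i + 1) ω - d.v W (i + 1) ω') (t * (d.v W i ω - d.v W i ω')))
          (by positivity : (0 : ℝ) ≤ 2 ^ u (i + 1))
        rw [mul_add] at a7
        linarith) hY
  have h3 : CH p (fun ω => (⌊β₀ * hgp F (c i) (Q ω i) ω⌋,
        ⌊β₁ * hgp F (c (i + 1)) (afl c (Q ω) i (s ω)) ω⌋)) Z ≤
      CH p (fun ω (l : Fin 2) => ⌊(if (l : ℕ) = 0 then β₀ else β₁) *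
        (if (l : ℕ) = 0 then hgp F (c i) (Q ω i) ω else
        hgp F (c (i + 1)) (afl c (Q ω) i (s ω)) ω)⌋) Z := by
    refine CH_mono_left hp.nonneg fun ω ω' _ _ e => ?_
    obtain ⟨e1, e2⟩ := Prod.ext_iff.1 e
    dsimp only at e1 e2
    have f1 := congrFun e1 0
    have f2 := congrFun e1 1
    simp only [Fin.val_zero, if_true, Fin.val_one, one_ne_zero, if_false] at f1 f2
    exact Prod.ext f1 f2
  refine h3.trans (h2.trans (le_of_eq ?_))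
  push_cast
  ring

/-- **The velocities in the frame are known.** -/
theorem vel_two (hd : Fdl F d c W ψH) (hc : Set.InjOn c (Set.Iio r))
    (hψ : ∀ s l, CvC c l (ψH s l)) (hir : r = i + 2)
    {Q : ℕ → MvPolynomial (Option (Fin m)) ℝ} {s : ℝ} (hQ : ∀ l, DepC c l (Q l)) {k : ℕ}
    {ω ω' : F.Ω} (e0 : Ex0 F c i ω ω') (e1 : ψH (slam F W ω) = ψH (slam F W ω'))
    (hs : 2 ^ g (i + 1) * |s - ψH (slam F W ω) (i + 1) (some (c i))| ≤ 2 ^ k * 2 ^ g i)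
    {σ₀ σ₁ : ℝ} (hσ₀ : 0 < σ₀) (hσ₁ : 0 < σ₁)
    (v0 : ⌊σ₀ * vlp F (c i) (Q i) ω⌋ = ⌊σ₀ * vlp F (c i) (Q i) ω'⌋)
    (v1 : ⌊σ₁ * vlp F (c (i + 1)) (afl c Q i s) ω⌋ =
      ⌊σ₁ * vlp F (c (i + 1)) (afl c Q i s) ω'⌋) {SE : ℕ → ℝ} (hSE : ∀ l, 0 ≤ SE l)
    (c0 : SE i ≤ 2 ^ (W + 1) * 2 ^ k * σ₀) (c1 : SE (i + 1) ≤ 2 ^ (W + 1) * 2 ^ k * σ₁)
    (c2 : SE (i + 1) * 2 ^ g i ≤ 2 ^ (W + 1) * 2 ^ k * σ₀ * 2 ^ g (i + 1)) :
    ∀ l < i + 2, SE l * |d.e W l ω - d.e W l ω'| ≤ ((2 ^ (2 * k + 1) : ℕ) : ℝ) := by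
  have hcc : ∀ l < i, c l ≠ c i := fun l hl e => by
    have := hc (Set.mem_Iio.2 (by omega : l < r)) (Set.mem_Iio.2 (by omega : i < r)) e
    omega
  have hW0 : (0 : ℝ) < 2 ^ (W + 1) := by positivity
  have hk1 : (1 : ℝ) ≤ 2 ^ k := one_le_pow₀ (by norm_num)
  have hK : (((2 ^ (2 * k + 1) : ℕ)) : ℝ) = 2 * (2 ^ k * 2 ^ k) := by
    push_cast
    rw [pow_succ, two_mul, pow_add]
    ring
  have hkk : (2 : ℝ) ^ k ≤ 2 ^ k * 2 ^ k := le_mul_of_one_le_left (by positivity) hk1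
  have g0 := of_floor_mul hσ₀ v0
  have g1 := of_floor_mul hσ₁ v1
  have f3 := e0.vlp0 (hQ i)
  have f4 := e0.vlp1 (s := s) hcc (hQ i) (hQ (i + 1))
  obtain ⟨x, hx⟩ : ∃ x, x = F.d ω' (c i) - F.d ω (c i) := ⟨_, rfl⟩
  have hx1 : σ₀ * |x| ≤ 1 := by
    have : |x| ≤ 1 / σ₀ := by
      rw [hx, ← f3, abs_sub_comm]
      exact g0
    rw [le_div_iff₀ hσ₀] at this
    linarith
  intro l hl
  rw [abs_sub_comm, hK]
  rcases Nat.lt_or_ge l i with h | h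
  · rw [(hd.slow hψ e0 e1 (by omega) h).2, sub_self, abs_zero, mul_zero]
    positivity
  rcases Nat.eq_or_lt_of_le h with h' | h'
  · rw [← h', (hd.fst hψ e0 e1 (by omega)).2, ← hx, abs_mul,
      abs_of_pos (by positivity : (0 : ℝ) < 1 / 2 ^ (W + 1))]
    calc SE i * (1 / 2 ^ (W + 1) * |x|) ≤
          (2 ^ (W + 1) * 2 ^ k * σ₀) * (1 / 2 ^ (W + 1) * |x|) :=
          mul_le_mul_of_nonneg_right c0 (by positivity)
      _ = 2 ^ k * (σ₀ * |x|) := by field_simp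
      _ ≤ 2 ^ k * 1 := mul_le_mul_of_nonneg_left hx1 (by positivity)
      _ ≤ _ := by linarith
  · have h'' : l = i + 1 := by omega
    rw [h'', (hd.snd hc hψ e0 e1 (by omega)).2, ← hx]
    obtain ⟨y, hy⟩ : ∃ y, y = vlp F (c (i + 1)) (afl c Q i s) ω' -
      vlp F (c (i + 1)) (afl c Q i s) ω := ⟨_, rfl⟩
    have hy1 : σ₁ * |y| ≤ 1 := by
      have : |y| ≤ 1 / σ₁ := by
        rw [hy, abs_sub_comm]
        exact g1
      rw [le_div_iff₀ hσ₁] at this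
      linarith
    obtain ⟨t, ht⟩ : ∃ t, t = s - ψH (slam F W ω) (i + 1) (some (c i)) := ⟨_, rfl⟩
    rw [← ht] at hs
    have e5 : (F.d ω' (c (i + 1)) - F.d ω (c (i + 1))) -
        ψH (slam F W ω) (i + 1) (some (c i)) * x = y + t * x := by
      rw [hy, f4, ht, ← hx]
      ring
    rw [e5, abs_mul, abs_of_pos (by positivity : (0 : ℝ) < 1 / 2 ^ (W + 1))]
    have a1 : SE (i + 1) * (1 / 2 ^ (W + 1) * |y|) ≤ 2 ^ k := by
      calc SE (i + 1) * (1 / 2 ^ (W + 1) * |y|) ≤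
            (2 ^ (W + 1) * 2 ^ k * σ₁) * (1 / 2 ^ (W + 1) * |y|) :=
            mul_le_mul_of_nonneg_right c1 (by positivity)
        _ = 2 ^ k * (σ₁ * |y|) := by field_simp
        _ ≤ 2 ^ k * 1 := mul_le_mul_of_nonneg_left hy1 (by positivity)
        _ = _ := mul_one _
    have a2 : SE (i + 1) * (1 / 2 ^ (W + 1) * |t * x|) ≤ 2 ^ k * 2 ^ k := by
      have b1 : 2 ^ g i * (SE (i + 1) * (1 / 2 ^ (W + 1) * |t * x|)) ≤
          2 ^ g i * (2 ^ k * 2 ^ k) := by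
        calc 2 ^ g i * (SE (i + 1) * (1 / 2 ^ (W + 1) * |t * x|)) =
              (SE (i + 1) * 2 ^ g i) * (1 / 2 ^ (W + 1) * |t * x|) := by ring
          _ ≤ (2 ^ (W + 1) * 2 ^ k * σ₀ * 2 ^ g (i + 1)) * (1 / 2 ^ (W + 1) * |t * x|) :=
              mul_le_mul_of_nonneg_right c2 (by positivity)
          _ = 2 ^ k * (2 ^ g (i + 1) * |t|) * (σ₀ * |x|) := by
              rw [abs_mul]
              field_simp
          _ ≤ 2 ^ k * (2 ^ k * 2 ^ g i) * 1 :=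
              mul_le_mul (mul_le_mul_of_nonneg_left hs (by positivity)) hx1 (by positivity)
                (by positivity)
          _ = _ := by ring
      exact le_of_mul_le_mul_left b1 (by positivity)
    have a3 := mul_le_mul_of_nonneg_left (mul_le_mul_of_nonneg_left (abs_add_le y (t * x))
      (by positivity : (0 : ℝ) ≤ 1 / 2 ^ (W + 1))) (hSE (i + 1))
    rw [mul_add, mul_add] at a3
    linarith

end

/-! ### Codes -/

/-- The number of the values of digits. -/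
theorem cnt_fl {Ω : Type} [Fintype Ω] {p : Ω → ℝ} {A : Ω → Prop} {N : ℝ} {J : ℕ} (hJ : 1 ≤ J)
    (hN1 : N ≤ 1) {X : Ω → ℝ} {n : ℕ} (hX : ∀ ω, A ω → |X ω| ≤ 2 ^ (n * J)) {K : ℕ}
    (hK : n + 3 ≤ K) :
    (Pool.S6C.cnt p (fun ω => ⌊(2 : ℝ) ^ (N * J) * X ω⌋) A : ℝ) ≤ Real.exp (K * J) := by
  have hJ0 : (0 : ℝ) ≤ J := Nat.cast_nonneg J
  have hJ1 : (1 : ℝ) ≤ J := by exact_mod_cast hJ
  have p0 : (0 : ℝ) < 2 ^ (N * J) := Real.rpow_pos_of_pos two_pos _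
  have p1 : (2 : ℝ) ^ (N * J) ≤ 2 ^ J := by
    rw [← Real.rpow_natCast]
    exact Real.rpow_le_rpow_of_exponent_le (by norm_num) (by nlinarith)
  have h1 : ∀ ω, A ω → |((⌊(2 : ℝ) ^ (N * J) * X ω⌋ : ℤ) : ℝ)| ≤ 2 ^ J * 2 ^ (n * J) + 1 := by
    intro ω hω
    have f1 := Int.floor_le ((2 : ℝ) ^ (N * J) * X ω)
    have f2 := Int.lt_floor_add_one ((2 : ℝ) ^ (N * J) * X ω)
    have f3 : |(2 : ℝ) ^ (N * J) * X ω| ≤ 2 ^ J * 2 ^ (n * J) := by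
      rw [abs_mul, abs_of_pos p0]
      exact mul_le_mul p1 (hX ω hω) (abs_nonneg _) (by positivity)
    rw [abs_le] at f3
    rw [abs_le]
    constructor <;> linarith [f3.1, f3.2]
  have h2 := cnt_le_of_abs (p := p) (A := A)
    (by positivity : (0 : ℝ) ≤ 2 ^ J * 2 ^ (n * J) + 1) h1
  refine h2.trans ?_
  have h3 : (2 : ℝ) ≤ Real.exp 1 := by
    have := Real.add_one_le_exp (1 : ℝ)
    linarith
  have e1 : ∀ N' : ℕ, (2 : ℝ) ^ N' ≤ Real.exp N' := fun N' => by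
    calc (2 : ℝ) ^ N' ≤ Real.exp 1 ^ N' := pow_le_pow_left₀ (by norm_num) h3 N'
      _ = Real.exp N' := by rw [← Real.exp_nat_mul, mul_one]
  have e2 : (2 : ℝ) ^ J * 2 ^ (n * J) ≤ Real.exp (((n + 1 : ℕ) : ℝ) * J) := by
    rw [← pow_add]
    refine (e1 (J + n * J)).trans (Real.exp_le_exp.2 (le_of_eq ?_))
    push_cast
    ring
  have e4 : (5 : ℝ) ≤ Real.exp (2 * J) := by
    have h4 : (2.7 : ℝ) ≤ Real.exp 1 := by
      have := Real.exp_one_gt_d9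
      linarith
    have h5 : Real.exp 1 * Real.exp 1 ≤ Real.exp (2 * J) := by
      rw [← Real.exp_add]
      exact Real.exp_le_exp.2 (by linarith)
    nlinarith
  have e5 : (1 : ℝ) ≤ 2 ^ J * 2 ^ (n * J) :=
    one_le_mul_of_one_le_of_one_le (one_le_pow₀ (by norm_num)) (one_le_pow₀ (by norm_num))
  have e6 : 2 * ((2 : ℝ) ^ J * 2 ^ (n * J) + 1) + 1 ≤ 5 * (2 ^ J * 2 ^ (n * J)) := by linarith
  refine e6.trans ((mul_le_mul e4 e2 (by positivity) (Real.exp_pos _).le).trans ?_)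
  rw [← Real.exp_add]
  refine Real.exp_le_exp.2 ?_
  have h7 : ((n + 3 : ℕ) : ℝ) ≤ K := by exact_mod_cast hK
  have h8 := mul_le_mul_of_nonneg_right h7 hJ0
  push_cast at h8 ⊢
  linarith

/-- The labels over the first places. -/
abbrev Lb1 (m : ℕ) (c : ℕ → Fin m) (i K : ℕ) : Type :=
  {Q : MvPolynomial (Option (Fin m)) ℝ // Q.totalDegree ≤ K ∧ DepC c i Q}

open Classical in
/-- The label of a polynomial. -/
noncomputable def mk1 (c : ℕ → Fin m) (i K : ℕ) (Q : MvPolynomial (Option (Fin m)) ℝ) :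
    Lb1 m c i K :=
  if h : Q.totalDegree ≤ K ∧ DepC c i Q then ⟨Q, h⟩ else
    ⟨0, by rw [totalDegree_zero]; exact Nat.zero_le _, fun _ _ _ _ => by rw [map_zero, map_zero]⟩

theorem mk1_val {c : ℕ → Fin m} {i K : ℕ} {Q : MvPolynomial (Option (Fin m)) ℝ}
    (h : Q.totalDegree ≤ K ∧ DepC c i Q) : (mk1 c i K Q).1 = Q := by
  unfold mk1
  rw [dif_pos h]

/-- The labels affine in one coordinate. -/
abbrev Lb2 (m : ℕ) (c : ℕ → Fin m) (i K : ℕ) : Type :=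
  {Q : MvPolynomial (Option (Fin m)) ℝ × ℝ // Q.1.totalDegree ≤ K ∧ DepC c (i + 1) Q.1 ∧
    AfI (c i) Q.2 Q.1}

open Classical in
/-- The label of a polynomial with a slope. -/
noncomputable def mk2 (c : ℕ → Fin m) (i K : ℕ) (Q : MvPolynomial (Option (Fin m)) ℝ × ℝ) :
    Lb2 m c i K :=
  if h : Q.1.totalDegree ≤ K ∧ DepC c (i + 1) Q.1 ∧ AfI (c i) Q.2 Q.1 then ⟨Q, h⟩ else
    ⟨(0, 0), by rw [totalDegree_zero]; exact Nat.zero_le _,
      fun _ _ _ _ => by rw [map_zero, map_zero], fun _ _ => by rw [map_zero, map_zero]; ring⟩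

theorem mk2_val {c : ℕ → Fin m} {i K : ℕ} {Q : MvPolynomial (Option (Fin m)) ℝ × ℝ}
    (h : Q.1.totalDegree ≤ K ∧ DepC c (i + 1) Q.1 ∧ AfI (c i) Q.2 Q.1) :
    (mk2 c i K Q).1 = Q := by
  unfold mk2
  rw [dif_pos h]

section

variable {J : ℕ} {F : Fam m J} {c : ℕ → Fin m} {i : ℕ} {A : F.Ω → Prop}

/-- **The code over a closed chart.** -/
theorem qjet_mk {I : Finset (Fin m)} (hI : ∀ l < i, c l ∈ I) {k : Fin m} {j : ℕ} {x U N : ℝ}
    {K : ℕ} {e : ℝ} {Q : PtT F → MvPolynomial (Option (Fin m)) ℝ}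
    {H : LnT F → MvPolynomial (Option (Fin m)) ℝ}
    (hcl : ∀ ω, A ω → Q (ptr F J ω) = H (slam F ⌊x * J⌋₊ ω))
    (hdep : ∀ ω, A ω → DepC c i (Q (ptr F J ω)))
    (hdeg : ∀ ω, A ω → (Q (ptr F J ω)).totalDegree ≤ K)
    (hpos : ∀ ω, A ω → |F.x ω k - eval (bt F ω) (Q (ptr F J ω))| ≤ 1 / 2 ^ ⌊(U - e) * J⌋₊)
    (hcnt : (Pool.S6C.cnt F.p (fun ω => ⌊(2 : ℝ) ^ (N * J) *
      ojet F k j (Q (ptr F J ω)) ω⌋) A : ℝ) ≤ Real.exp (K * J)) :
    (qJet m I k j x U N).P K e J F A (fun ω => ⌊(2 : ℝ) ^ (N * J) *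
      ojet F k j (Q (ptr F J ω)) ω⌋) := by
  have e1 : ∀ ω, A ω → (mk1 c i K (H (slam F ⌊x * J⌋₊ ω))).1 = Q (ptr F J ω) := fun ω hω => by
    rw [← hcl ω hω]
    exact mk1_val ⟨hdeg ω hω, hdep ω hω⟩
  refine ⟨hcnt, Lb1 m c i K, fun y => mk1 c i K (Q y), fun s => mk1 c i K (H s),
    fun x => x.1, ⟨fun v => v.2.1, fun v b b' h0 h1 => v.2.2 b b' h0 fun l hl => h1 _ (hI l hl),
    fun ω hω => ?_, fun ω hω => ?_⟩, fun ω hω => ?_⟩
  · show mk1 c i K (Q (ptr F J ω)) = mk1 c i K (H (slam F ⌊x * J⌋₊ ω))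
    rw [hcl ω hω]
  · rw [e1 ω hω]
    exact hpos ω hω
  · show _ = ⌊(2 : ℝ) ^ (N * J) * ojet F k j (mk1 c i K (H (slam F ⌊x * J⌋₊ ω))).1 ω⌋
    rw [e1 ω hω]

/-- **The code over a closed label which is affine in one coordinate.** -/
theorem qa_mk {I : Finset (Fin m)} (hI : ∀ l < i, c l ∈ I) {k : Fin m} {j : ℕ} {x U N : ℝ}
    {K : ℕ} {e : ℝ} {Q : PtT F → MvPolynomial (Option (Fin m)) ℝ × ℝ}
    {H : LnT F → MvPolynomial (Option (Fin m)) ℝ × ℝ}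
    (hcl : ∀ ω, A ω → Q (ptr F J ω) = H (slam F ⌊x * J⌋₊ ω))
    (hdep : ∀ ω, A ω → DepC c (i + 1) (Q (ptr F J ω)).1)
    (haf : ∀ ω, A ω → AfI (c i) (Q (ptr F J ω)).2 (Q (ptr F J ω)).1)
    (hdeg : ∀ ω, A ω → (Q (ptr F J ω)).1.totalDegree ≤ K)
    (hpos : ∀ ω, A ω → |F.x ω k - eval (bt F ω) (Q (ptr F J ω)).1| ≤ 1 / 2 ^ ⌊(U - e) * J⌋₊)
    (hcnt : (Pool.S6C.cnt F.p (fun ω => ⌊(2 : ℝ) ^ (N * J) *
      ojet F k j (Q (ptr F J ω)).1 ω⌋) A : ℝ) ≤ Real.exp (K * J)) :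
    (qA m I (c i) k j x U N).P K e J F A (fun ω => ⌊(2 : ℝ) ^ (N * J) *
      ojet F k j (Q (ptr F J ω)).1 ω⌋) := by
  have e1 : ∀ ω, A ω → (mk2 c i K (H (slam F ⌊x * J⌋₊ ω))).1 = Q (ptr F J ω) := fun ω hω => by
    rw [← hcl ω hω]
    exact mk2_val ⟨hdeg ω hω, hdep ω hω, haf ω hω⟩
  refine ⟨hcnt, Lb2 m c i K, fun y => mk2 c i K (Q y), fun s => mk2 c i K (H s),
    fun x => x.1.1, fun x => x.1.2, ⟨fun v => v.2.1, fun v b b' h0 h1 => v.2.2.1 b b' h0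
      fun l hl => h1 _ ?_, fun ω hω => ?_, fun ω hω => ?_⟩, fun x => x.2.2.2, fun ω hω => ?_⟩
  · rcases Nat.lt_succ_iff_lt_or_eq.1 hl with h | h
    · exact Finset.mem_insert_of_mem (hI l h)
    · rw [h]
      exact Finset.mem_insert_self _ _
  · show mk2 c i K (Q (ptr F J ω)) = mk2 c i K (H (slam F ⌊x * J⌋₊ ω))
    rw [hcl ω hω]
  · rw [e1 ω hω]
    exact hpos ω hω
  · show _ = ⌊(2 : ℝ) ^ (N * J) * ojet F k j (mk2 c i K (H (slam F ⌊x * J⌋₊ ω))).1.1 ω⌋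
    rw [e1 ω hω]

end

/-! ### Class form -/

variable {U₀ U₁ U₂ U₃ : Type} {α γ' : ∀ J : ℕ, Fam m J → Type}

/-- **Near digits given the velocities**, at one window: the output of `near_rel`. -/
def NrP (S : PCl m) (f : ∀ (J : ℕ) (F : Fam m J), F.Ω → α J F)
    (y : ∀ (J : ℕ) (F : Fam m J), F.Ω → γ' J F) (Q₀ : Qt m U₀) (QA : Qt m U₁) (QB : Qt m U₂)
    (QD : Qt m U₃) (x θ c₀ : ℝ) : Prop :=
  ∃ κ : ℝ, 0 < κ ∧ ∃ e₀ : ℝ, 0 < e₀ ∧ ∀ K : ℕ, Bas S (fun J F A' =>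
    ∀ (V : Type) (z : F.Ω → V), Mx f (vg x) κ F A' z → ∀ u₀ a b d, Q₀.P K e₀ J F A' u₀ →
      QA.P K e₀ J F A' a → QB.P K e₀ J F A' b → QD.P K e₀ J F A' d →
      ∀ B' : F.Ω → Prop, Sub B' A' → c₀ * Pe F.p A' ≤ Pe F.p B' →
      θ * J ≤ CH (Pool.Agent.H49.Ent.cond F.p B' True) b
          (fun ω => (a ω, (d ω, (z ω, (u₀ ω, y J F ω))))))

/-- The output of `near_rel` at equal windows of the labels and of the record. -/
theorem nrp_of {S : PCl m} {f : ∀ (J : ℕ) (F : Fam m J), F.Ω → α J F}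
    {y : ∀ (J : ℕ) (F : Fam m J), F.Ω → γ' J F}
    (hpos : ∀ (τ : ℝ) (J : ℕ) (F : Fam m J) (A : F.Ω → Prop), S.St τ J F A → 0 < Pe F.p A)
    {Q₀ : Qt m U₀} {QA : Qt m U₁} {QB : Qt m U₂} {QD : Qt m U₃} {x θ c₀ : ℝ} (hc₀ : 0 < c₀)
    (h : ∃ κ : ℝ, 0 < κ ∧ ∃ e₀ : ℝ, 0 < e₀ ∧ ∀ K : ℕ, Bas S (fun J F A' =>
      ∀ (V₁ V₂ : Type) (z : F.Ω → V₁) (zj : F.Ω → V₂), Mx f (vg x) κ F A' z →
      Mx f (vg x) κ F A' zj → ∀ u₀ a b d, Q₀.P K e₀ J F A' u₀ →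
      QA.P K e₀ J F A' a → QB.P K e₀ J F A' b → QD.P K e₀ J F A' d →
      ∀ B' : F.Ω → Prop, Sub B' A' → c₀ * Pe F.p A' ≤ Pe F.p B' →
      θ * J ≤ CH (Pool.Agent.H49.Ent.cond F.p B' True) b
          (fun ω => (a ω, (d ω, (zj ω, (z ω, (u₀ ω, y J F ω)))))))) :
    NrP S f y Q₀ QA QB QD x θ c₀ := by
  obtain ⟨κ, hκ, e₀, he₀, H⟩ := h
  have hpc : Bas S (fun _ F A => 0 < Pe F.p A) := ⟨1, one_pos, 0, fun J _ F A hA =>
    hpos 1 J F A hA⟩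
  refine ⟨κ, hκ, e₀, he₀, fun K => Bas.mono 0 ((H K).and hpc) ?_⟩
  rintro J - F A ⟨H, hA⟩ V z hz u₀ a b d hu ha hb hd B' hB' hBc
  have hB0 : 0 < Pe F.p B' := lt_of_lt_of_le (mul_pos hc₀ hA) hBc
  refine (H V V z z hz hz u₀ a b d hu ha hb hd B' hB' hBc).trans ?_
  refine CH_mono_cond (isLaw_cond F.isLaw hB0).nonneg fun ω ω' _ _ e => ?_
  simp only [Prod.mk.injEq] at e ⊢
  obtain ⟨e1, e2, e3, -, e4, e5⟩ := e
  exact ⟨e1, e2, e3, e4, e5⟩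

end Pool.D2F2
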