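import Pool.Agent.H4.D2.Hnr
import Pool.Agent.H4.D2.Hnv

/-!
# Near frame digits are full given the record, the slow coordinate and the velocities

`hnv_ev`: one law. `hnv_cls`: class form, from `NrP` (the output of `near_rel`).
-/

set_option autoImplicit false

namespace Pool.D2F2

open Finset Real MvPolynomial
open Pool.Agent.H49.Ent Pool.Agent.H32.Dense Pool.STK Pool.KA Pool.KSAT Pool.K2S Pool.PB Pool.GEN
open Pool.S6C Pool.LA91 Pool.RCD Pool.CHT Pool.CHX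
open Pool.ISO (Clsd)
open Pool.OWN68 (CH_pair floor_sub_le)
open Pool.D2R (dd hs co nrm nrm_nonneg)
open Pool.D2F (cv CvC)
open Pool.D2H (of_floor_mul CH_step CH_pi_le)

variable {m J : ℕ}

section

variable {F : Fam m J} {c : ℕ → Fin m} {g ga : ℕ → ℕ} {W a k P D : ℕ}
  {ψH : LnT F → ℕ → Option (Fin m) → ℝ} {G : PtT F → ℕ → MvPolynomial (Option (Fin m)) ℝ}
  {B : F.Ω → Prop} {d : Dat F (ℕ → Option (Fin m) → ℝ) 3 D}

/-- The label of the second rough coordinate. -/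
noncomputable def afG (F : Fam m J) (c : ℕ → Fin m) (W : ℕ)
    (ψH : LnT F → ℕ → Option (Fin m) → ℝ) (G : PtT F → ℕ → MvPolynomial (Option (Fin m)) ℝ)
    (ω : F.Ω) : MvPolynomial (Option (Fin m)) ℝ :=
  afl c (G (ptr F J ω)) 1 (ψH (slam F W ω) 2 (some (c 1)))

/-- The error of the theorem. -/
noncomputable def erH (k : ℕ) : ℝ :=
  3 * Real.log (2 * ((2 ^ kH k : ℕ) + 1 : ℕ) + 1) +
    4 * Real.log (2 * ((2 ^ (kH k + 2) : ℕ) + 1 : ℕ) + 1)

/-- **Two rough coordinates over one slow coordinate**, one law. -/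
theorem hnv_ev {p : F.Ω → ℝ} (hp : IsLaw p) (H : Hgb F c g ga W a k 3 ψH G B)
    (hB : ∀ ω, 0 < p ω → B ω) (hd : Fdl F d c W ψH) {u v s : ℕ → ℕ}
    (N : HvN J W a P g ga u v s) (hSE : ∀ l < 3, d.SE l = 2 ^ s l) {σ₀ σ₁ : ℝ}
    (hσ₀ : 0 < σ₀) (hσ₁ : 0 < σ₁) (q0 : 2 ^ s 1 ≤ 2 ^ (W + 1) * 2 ^ k * σ₀)
    (q1 : 2 ^ s 2 ≤ 2 ^ (W + 1) * 2 ^ k * σ₁) {β₀ β₁ : ℝ} (b0 : 0 ≤ β₀) (b1 : 0 ≤ β₁)
    (b2 : β₀ ≤ 2 ^ u 1) (b3 : β₁ ≤ 2 ^ u 2) {T T₁ T₂ : Type} (Z : F.Ω → T) (zo : F.Ω → T₁)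
    (w : F.Ω → T₂)
    (hZ : ∀ ω ω', 0 < p ω → 0 < p ω' → Z ω = Z ω' → zo ω = zo ω' ∧ w ω = w ω' ∧
      Sm1 F c P ω ω' ∧ ψH (slam F W ω) = ψH (slam F W ω') ∧
      (∀ l < 3, G (ptr F J ω) l = G (ptr F J ω') l) ∧
      ⌊σ₀ * vlp F (c 1) (G (ptr F J ω) 1) ω⌋ = ⌊σ₀ * vlp F (c 1) (G (ptr F J ω') 1) ω'⌋ ∧
      ⌊σ₁ * vlp F (c 2) (afG F c W ψH G ω) ω⌋ = ⌊σ₁ * vlp F (c 2) (afG F c W ψH G ω') ω'⌋) :
    CH p (fun ω => (⌊β₀ * hgp F (c 1) (G (ptr F J ω) 1) ω⌋,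
        ⌊β₁ * hgp F (c 2) (afG F c W ψH G ω) ω⌋)) Z ≤
      CH p (fun ω (l : Fin 2) => Nfd d W u v (1 + l) ω) (fun ω => (zo ω, (w ω, cE d W ω))) +
        erH k := by
  have hkH : kH k = 127 * k + 194 := rfl
  have h0 := hp.nonneg
  -- the cells of the velocities
  have hE : CH p (fun ω => (zo ω, (w ω, cE d W ω))) Z ≤
      3 * Real.log (2 * ((2 ^ kH k : ℕ) + 1 : ℕ) + 1) := by
    have a1 := CH_pi_le h0 (cE d W) Z (B := Real.log (2 * ((2 ^ kH k : ℕ) + 1 : ℕ) + 1))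
      fun l => by
        refine CH_pair hp _ _ fun ω ω' hω hω' e => ?_
        obtain ⟨-, -, hs, hψ, hG, e0, e1⟩ := hZ ω ω' hω hω' e
        have hb := hB ω hω
        have hb' := hB ω' hω'
        have hW0 : (0 : ℝ) < 2 ^ (W + 1) := by positivity
        -- the codes
        have k0 : 2 ^ s 1 * |vlp F (c 1) (G (ptr F J ω') 1) ω' -
            vlp F (c 1) (G (ptr F J ω) 1) ω| ≤ 2 ^ (W + 1) * 2 ^ k := by
          have f1 := of_floor_mul hσ₀ e0
          rw [abs_sub_comm, le_div_iff₀ hσ₀] at f1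
          calc (2 : ℝ) ^ s 1 * |vlp F (c 1) (G (ptr F J ω') 1) ω' -
                vlp F (c 1) (G (ptr F J ω) 1) ω| ≤ (2 ^ (W + 1) * 2 ^ k * σ₀) *
                |vlp F (c 1) (G (ptr F J ω') 1) ω' - vlp F (c 1) (G (ptr F J ω) 1) ω| :=
                mul_le_mul_of_nonneg_right q0 (abs_nonneg _)
            _ = 2 ^ (W + 1) * 2 ^ k * (|vlp F (c 1) (G (ptr F J ω') 1) ω' -
                vlp F (c 1) (G (ptr F J ω) 1) ω| * σ₀) := by ring
            _ ≤ 2 ^ (W + 1) * 2 ^ k * 1 := mul_le_mul_of_nonneg_left f1 (by positivity)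
            _ = _ := mul_one _
        have k1 : 2 ^ s 2 * |vlp F (c 2) (afG F c W ψH G ω') ω' -
            vlp F (c 2) (afG F c W ψH G ω) ω| ≤ 2 ^ (W + 1) * 2 ^ k := by
          have f1 := of_floor_mul hσ₁ e1
          rw [abs_sub_comm, le_div_iff₀ hσ₁] at f1
          calc (2 : ℝ) ^ s 2 * |vlp F (c 2) (afG F c W ψH G ω') ω' -
                vlp F (c 2) (afG F c W ψH G ω) ω| ≤ (2 ^ (W + 1) * 2 ^ k * σ₁) *
                |vlp F (c 2) (afG F c W ψH G ω') ω' - vlp F (c 2) (afG F c W ψH G ω) ω| :=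
                mul_le_mul_of_nonneg_right q1 (abs_nonneg _)
            _ = 2 ^ (W + 1) * 2 ^ k * (|vlp F (c 2) (afG F c W ψH G ω') ω' -
                vlp F (c 2) (afG F c W ψH G ω) ω| * σ₁) := by ring
            _ ≤ 2 ^ (W + 1) * 2 ^ k * 1 := mul_le_mul_of_nonneg_left f1 (by positivity)
            _ = _ := mul_one _
        -- the velocities in the frame
        have fin : ∀ {l : ℕ}, l < 3 → 2 ^ s l * |fve F c W ψH ω ω' l| ≤
            2 ^ (W + 1) * 2 ^ kH k → |d.SE l * d.e W l ω - d.SE l * d.e W l ω'| ≤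
            ((2 ^ kH k : ℕ) : ℝ) := by
          intro l hl h1
          have e2 := hd.e l hl ω ω' hs.t hψ
          rw [← mul_sub, abs_mul, abs_sub_comm, e2, hSE l hl, abs_mul,
            abs_of_pos (by positivity : (0 : ℝ) < 2 ^ s l),
            abs_of_pos (by positivity : (0 : ℝ) < 1 / 2 ^ (W + 1))]
          have e3 : (2 : ℝ) ^ s l * (1 / 2 ^ (W + 1) * |(bd F ω' - bd F ω) (some (c l)) -
              cv (ψH (slam F W ω) l) (bd F ω' - bd F ω)|) =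
              (2 ^ s l * |fve F c W ψH ω ω' l|) / 2 ^ (W + 1) := by
            unfold fve
            ring
          rw [e3, div_le_iff₀ hW0]
          push_cast
          linarith
        have pw : ∀ {n : ℕ}, n ≤ kH k → (2 : ℝ) ^ n ≤ 2 ^ kH k := fun hn =>
          pow_le_pow_right₀ (by norm_num) hn
        have tri : ∀ {x y : ℝ} {n n' : ℕ}, 2 ^ n * |x - y| ≤ 2 ^ (W + 1) * 2 ^ n' →
            2 ^ n * |y| ≤ 2 ^ (W + 1) * 2 ^ k → k ≤ n' → n' + 1 ≤ kH k →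
            2 ^ n * |x| ≤ 2 ^ (W + 1) * 2 ^ kH k := by
          intro x y n n' h1 h2 h3 h4
          have q1 : |x| ≤ |x - y| + |y| := by
            have := abs_add_le (x - y) y
            rwa [sub_add_cancel] at this
          have q2 := mul_le_mul_of_nonneg_left q1 (by positivity : (0 : ℝ) ≤ 2 ^ n)
          rw [mul_add] at q2
          have q3 : (2 : ℝ) ^ k ≤ 2 ^ n' := pow_le_pow_right₀ (by norm_num) h3
          have q4 : (2 : ℝ) ^ n' * 2 ≤ 2 ^ kH k := by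
            rw [← pow_succ]
            exact pw h4
          have q5 := mul_le_mul_of_nonneg_left q3 hW0.le
          have q6 := mul_le_mul_of_nonneg_left q4 hW0.le
          linarith
        have a4 : |d.SE l * d.e W l ω - d.SE l * d.e W l ω'| ≤ ((2 ^ kH k : ℕ) : ℝ) := by
          obtain ⟨l, hl⟩ := l
          refine fin hl ?_
          dsimp only
          interval_cases l
          · refine (hs.vls H.cvH N).trans (le_mul_of_one_le_right hW0.le ?_)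
            exact one_le_pow₀ (by norm_num)
          · exact tri (H.vls0 le_rfl hb hb' hG hs N) k0 (by omega) (by omega)
          · exact tri (H.vls1 le_rfl hb hb' hG hψ hs N k0) k1 (by omega) (by omega)
        have a5 := floor_sub_le a4
        push_cast at a5 ⊢
        exact a5
    rw [Fintype.card_fin] at a1
    have a2 := CH_step h0 (fun ω => (zo ω, (w ω, cE d W ω))) (cE d W) Z
    have a3 : CH p (fun ω => (zo ω, (w ω, cE d W ω))) (fun ω => (cE d W ω, Z ω)) = 0 :=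
      CH_eq_zero h0 fun ω ω' hω hω' e => by
        simp only [Prod.mk.injEq] at e ⊢
        obtain ⟨e1, e2⟩ := e
        obtain ⟨f1, f2, -⟩ := hZ ω ω' hω hω' e2
        exact ⟨f1, f2, e1⟩
    rw [a3, add_zero] at a2
    have e3 : ((3 : ℕ) : ℝ) = 3 := by norm_num
    rw [e3] at a1
    exact a2.trans a1
  -- the law
  have e1 : ∀ {ω : F.Ω}, 0 < p ω → 2 ^ v 1 * |hgp F (c 1) (G (ptr F J ω) 1) ω| ≤ 2 ^ kH k := by
    intro ω hω
    have f1 := H.pos ω (hB ω hω) 1 (by norm_num)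
    change |hgp F (c 1) (G (ptr F J ω) 1) ω| ≤ _ at f1
    refine (mul_le_mul_of_nonneg_left f1 (by positivity)).trans ?_
    rw [← mul_div_assoc, mul_one, div_le_iff₀ (by positivity)]
    have f2 : (2 : ℝ) ^ v 1 ≤ 2 ^ ga 1 := pow_le_pow_right₀ (by norm_num) N.va1
    have f3 : (1 : ℝ) ≤ 2 ^ kH k := one_le_pow₀ (by norm_num)
    have f4 := mul_le_mul f3 f2 (by positivity) (by positivity)
    rwa [one_mul] at f4
  have e2 : ∀ {ω : F.Ω}, 0 < p ω → 2 ^ v 2 * |hgp F (c 2) (afG F c W ψH G ω) ω| ≤ 2 ^ kH k := by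
    intro ω hω
    have f1 := H.apos le_rfl (hB ω hω)
    change |hgp F (c 2) (afG F c W ψH G ω) ω| ≤ _ at f1
    refine (mul_le_mul_of_nonneg_left f1 (by positivity)).trans ?_
    have f2 : (2 : ℝ) ^ v 2 * (2 ^ (4 * k + 4) / 2 ^ ga 2) ≤ 2 ^ (4 * k + 4) := by
      rw [← mul_div_assoc, div_le_iff₀ (by positivity), mul_comm]
      exact mul_le_mul_of_nonneg_left (pow_le_pow_right₀ (by norm_num) N.va2) (by positivity)
    have f3 : (2 : ℝ) ^ v 2 * (2 ^ k * (2 ^ g 1 / 2 ^ g 2 / 2 ^ ga 1)) ≤ 2 ^ k := by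
      have := pdl (n := v 2) (x := g 1) (y := g 2) (z := ga 1) (by have := N.va3; omega)
      calc (2 : ℝ) ^ v 2 * (2 ^ k * (2 ^ g 1 / 2 ^ g 2 / 2 ^ ga 1)) =
            2 ^ k * (2 ^ v 2 * (2 ^ g 1 / 2 ^ g 2 / 2 ^ ga 1)) := by ring
        _ ≤ 2 ^ k * 1 := mul_le_mul_of_nonneg_left this (by positivity)
        _ = _ := mul_one _
    rw [mul_add]
    have f4 : (2 : ℝ) ^ (4 * k + 4) * 2 ≤ 2 ^ kH k := by
      rw [← pow_succ]
      exact pow_le_pow_right₀ (by norm_num) (by omega)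
    have f5 : (2 : ℝ) ^ k ≤ 2 ^ (4 * k + 4) := pow_le_pow_right₀ (by norm_num) (by omega)
    linarith
  have h2 := hnv_pr2 (d := d) (W := W) hp Z (fun ω => (zo ω, (w ω, cE d W ω))) (i := 1)
    (k := kH k) (u := u) (v := v) N.uv1 N.uv2
    (h0 := fun ω => hgp F (c 1) (G (ptr F J ω) 1) ω)
    (h1 := fun ω => hgp F (c 2) (afG F c W ψH G ω) ω) (fun ω hω => e1 hω) (fun ω hω => e2 hω)
    (fun ω ω' hω hω' e => by
      obtain ⟨-, -, hs, hψ, hG, -, -⟩ := hZ ω ω' hω hω' e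
      have f1 := H.hts0 le_rfl (hB ω hω) (hB ω' hω') hG hs N
      rw [hd.v 1 (by norm_num) ω ω' hs.t hψ]
      exact f1.trans (pow_le_pow_right₀ (by norm_num) (by omega)))
    (fun ω ω' hω hω' e h3 => by
      obtain ⟨-, -, hs, hψ, hG, -, -⟩ := hZ ω ω' hω hω' e
      rw [hd.v 1 (by norm_num) ω ω' hs.t hψ] at h3
      have f1 := H.hts1 le_rfl (hB ω hω) (hB ω' hω') hG hψ hs N h3
      rw [hd.v (1 + 1) (by norm_num) ω ω' hs.t hψ]
      exact f1) b0 b1 b2 b3 hE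
  unfold erH
  linarith

end

end Pool.D2F2
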