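import Pool.Agent.H4.D2.Cdg
import Pool.Agent.H68.OWN.Jr

/-!
# Near digits of a pair, at other windows

`nv_law`: the change of the codes and of the records. `Nv3`: the near digits of the pair, and of each
coordinate given the near digits of the other one. `nv3_of`: from the number at later windows.
-/

set_option autoImplicit false

namespace Pool.D2F2

open Finset Real MvPolynomial
open Pool.Agent.H49.Ent Pool.Agent.H32.Dense Pool.STK Pool.KA Pool.KSAT Pool.K2S Pool.PB Pool.GEN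
open Pool.S6C Pool.LA91 Pool.RCD
open Pool.OWN83 (ch_part)

/-- The same conditions. -/
theorem ch_cc {Ω T A B : Type} [Fintype Ω] {p : Ω → ℝ} (hp : ∀ ω, 0 ≤ p ω) (b : Ω → T)
    (x : Ω → A) (y : Ω → B) (h : ∀ ω ω', x ω = x ω' ↔ y ω = y ω') : CH p b x = CH p b y :=
  le_antisymm (CH_mono_cond hp fun ω ω' _ _ hh => (h ω ω').1 hh)
    (CH_mono_cond hp fun ω ω' _ _ hh => (h ω ω').2 hh)

/-- **The change of the codes and of the records**, one law. -/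
theorem nv_law {Ω T₁ T₂ T₃ T₄ T₅ T₆ T₇ R₁ R₂ R₃ R₄ Y : Type} [Fintype Ω] {p : Ω → ℝ}
    (hp : ∀ ω, 0 ≤ p ω) {a₀ : Ω → T₁} {b₀ : Ω → T₂} {d₀ : Ω → T₃} {a : Ω → T₄} {b₁ : Ω → T₅}
    {b₂ : Ω → T₆} {d : Ω → T₇} {Zj : Ω → R₁} {Zw : Ω → R₂} {zj : Ω → R₃} {zw : Ω → R₄}
    {y : Ω → Y} {θ ca cd cb cz cx c1 c2 : ℝ}
    (H0 : θ ≤ CH p b₀ (fun ω => (a₀ ω, (d₀ ω, (Zj ω, (Zw ω, y ω))))))
    (Ha : CH p a (fun ω => (a₀ ω, (Zw ω, y ω))) ≤ ca)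
    (Hd : CH p d (fun ω => (d₀ ω, (Zw ω, y ω))) ≤ cd)
    (Hb : CH p b₀ (fun ω => ((b₁ ω, b₂ ω), (Zw ω, y ω))) ≤ cb)
    (Hzj : CH p zj Zj ≤ cz) (Hzw : CH p zw Zw ≤ cx)
    (H1 : CH p b₁ (fun ω => (a ω, (Zw ω, y ω))) ≤ c1)
    (H2 : CH p b₂ (fun ω => (a ω, (Zw ω, y ω))) ≤ c2) :
    θ - ca - cd - cb - cz - cx ≤
        CH p (fun ω => (b₁ ω, b₂ ω)) (fun ω => (a ω, (d ω, (zj ω, (zw ω, y ω))))) ∧
      θ - ca - cd - cb - cz - cx - c1 ≤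
        CH p b₂ (fun ω => (b₁ ω, (a ω, (d ω, (zj ω, (zw ω, y ω)))))) ∧
      θ - ca - cd - cb - cz - cx - c2 ≤
        CH p b₁ (fun ω => (b₂ ω, (a ω, (d ω, (zj ω, (zw ω, y ω)))))) := by
  have m1 : CH p a (fun ω => (a₀ ω, (Zj ω, (Zw ω, y ω)))) ≤ ca :=
    (CH_mono_cond hp fun _ _ _ _ hh => by
      simp only [Prod.mk.injEq] at hh ⊢
      exact ⟨hh.1, hh.2.2⟩).trans Ha
  have m2 : CH p d (fun ω => (d₀ ω, (Zj ω, (Zw ω, y ω)))) ≤ cd :=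
    (CH_mono_cond hp fun _ _ _ _ hh => by
      simp only [Prod.mk.injEq] at hh ⊢
      exact ⟨hh.1, hh.2.2⟩).trans Hd
  have m3 : CH p b₀ (fun ω => ((b₁ ω, b₂ ω), (Zj ω, (Zw ω, y ω)))) ≤ cb :=
    (CH_mono_cond hp fun _ _ _ _ hh => by
      simp only [Prod.mk.injEq] at hh ⊢
      exact ⟨hh.1, hh.2.2⟩).trans Hb
  -- the change of the codes
  have k1 : θ - ca - cd - cb ≤
      CH p (fun ω => (b₁ ω, b₂ ω)) (fun ω => (a ω, (d ω, (Zj ω, (Zw ω, y ω))))) := by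
    have h1 := CH_le_add hp b₀ a (fun ω => (a₀ ω, (d₀ ω, (Zj ω, (Zw ω, y ω)))))
    have h2 : CH p a (fun ω => (a₀ ω, (d₀ ω, (Zj ω, (Zw ω, y ω))))) ≤
        CH p a (fun ω => (a₀ ω, (Zj ω, (Zw ω, y ω)))) :=
      CH_mono_cond hp fun _ _ _ _ hh => by
        simp only [Prod.mk.injEq] at hh ⊢
        exact ⟨hh.1, hh.2.2⟩
    have h3 := CH_le_add hp b₀ d (fun ω => (a ω, (a₀ ω, (d₀ ω, (Zj ω, (Zw ω, y ω))))))
    have h4 : CH p d (fun ω => (a ω, (a₀ ω, (d₀ ω, (Zj ω, (Zw ω, y ω)))))) ≤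
        CH p d (fun ω => (d₀ ω, (Zj ω, (Zw ω, y ω)))) :=
      CH_mono_cond hp fun _ _ _ _ hh => by
        simp only [Prod.mk.injEq] at hh ⊢
        exact hh.2.2
    have h5 := CH_le_add hp b₀ (fun ω => (b₁ ω, b₂ ω))
      (fun ω => (d ω, (a ω, (a₀ ω, (d₀ ω, (Zj ω, (Zw ω, y ω)))))))
    have h6 : CH p (fun ω => (b₁ ω, b₂ ω))
        (fun ω => (d ω, (a ω, (a₀ ω, (d₀ ω, (Zj ω, (Zw ω, y ω))))))) ≤
        CH p (fun ω => (b₁ ω, b₂ ω)) (fun ω => (a ω, (d ω, (Zj ω, (Zw ω, y ω))))) :=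
      CH_mono_cond hp fun _ _ _ _ hh => by
        simp only [Prod.mk.injEq] at hh ⊢
        exact ⟨hh.2.1, hh.1, hh.2.2.2.2⟩
    have h7 : CH p b₀
        (fun ω => ((b₁ ω, b₂ ω), (d ω, (a ω, (a₀ ω, (d₀ ω, (Zj ω, (Zw ω, y ω)))))))) ≤
        CH p b₀ (fun ω => ((b₁ ω, b₂ ω), (Zj ω, (Zw ω, y ω)))) :=
      CH_mono_cond hp fun _ _ _ _ hh => by
        simp only [Prod.mk.injEq] at hh ⊢
        exact ⟨hh.1, hh.2.2.2.2.2⟩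
    linarith
  -- the change of the records
  have rcd : ∀ {T C : Type} (b : Ω → T) (c : Ω → C),
      CH p b (fun ω => (c ω, (Zj ω, (Zw ω, y ω)))) - cz - cx ≤
        CH p b (fun ω => (c ω, (zj ω, (zw ω, y ω)))) := by
    intro T C b c
    have h1 := CH_le_add hp b zj (fun ω => (c ω, (Zj ω, (Zw ω, y ω))))
    have h2 : CH p zj (fun ω => (c ω, (Zj ω, (Zw ω, y ω)))) ≤ CH p zj Zj :=
      CH_mono_cond hp fun _ _ _ _ hh => by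
        simp only [Prod.mk.injEq] at hh
        exact hh.2.1
    have h3 := CH_le_add hp b zw (fun ω => (zj ω, (c ω, (Zj ω, (Zw ω, y ω)))))
    have h4 : CH p zw (fun ω => (zj ω, (c ω, (Zj ω, (Zw ω, y ω))))) ≤ CH p zw Zw :=
      CH_mono_cond hp fun _ _ _ _ hh => by
        simp only [Prod.mk.injEq] at hh
        exact hh.2.2.2.1
    have h5 : CH p b (fun ω => (zw ω, (zj ω, (c ω, (Zj ω, (Zw ω, y ω)))))) ≤
        CH p b (fun ω => (c ω, (zj ω, (zw ω, y ω)))) :=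
      CH_mono_cond hp fun _ _ _ _ hh => by
        simp only [Prod.mk.injEq] at hh ⊢
        exact ⟨hh.2.2.1, hh.2.1, hh.1, hh.2.2.2.2.2⟩
    linarith
  have ass : ∀ {T A₁ A₂ R S' : Type} (b : Ω → T) (x : Ω → A₁) (u : Ω → A₂) (r : Ω → R)
      (s : Ω → S'), CH p b (fun ω => ((x ω, u ω), (r ω, s ω))) =
        CH p b (fun ω => (x ω, (u ω, (r ω, s ω)))) := by
    intro T A₁ A₂ R S' b x u r s
    refine ch_cc hp _ _ _ fun ω ω' => ?_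
    simp only [Prod.mk.injEq]
    tauto
  have r1 := rcd (fun ω => (b₁ ω, b₂ ω)) (fun ω => (a ω, d ω))
  rw [ass, ass] at r1
  have c1' := CH_chain hp b₂ b₁ (fun ω => (a ω, (d ω, (Zj ω, (Zw ω, y ω)))))
  have c2' := CH_chain hp b₁ b₂ (fun ω => (a ω, (d ω, (Zj ω, (Zw ω, y ω)))))
  have sw : CH p (fun ω => (b₂ ω, b₁ ω)) (fun ω => (a ω, (d ω, (Zj ω, (Zw ω, y ω))))) =
      CH p (fun ω => (b₁ ω, b₂ ω)) (fun ω => (a ω, (d ω, (Zj ω, (Zw ω, y ω))))) := by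
    refine CH_congr hp ?_ ?_ (fun _ _ _ _ h => h) (fun _ _ _ _ h => h) <;>
    · intro ω ω' _ _ h
      simp only [Prod.mk.injEq] at h ⊢
      tauto
  have n1 : CH p b₁ (fun ω => (a ω, (d ω, (Zj ω, (Zw ω, y ω))))) ≤ c1 :=
    (CH_mono_cond hp fun _ _ _ _ hh => by
      simp only [Prod.mk.injEq] at hh ⊢
      exact ⟨hh.1, hh.2.2.2⟩).trans H1
  have n2 : CH p b₂ (fun ω => (a ω, (d ω, (Zj ω, (Zw ω, y ω))))) ≤ c2 :=
    (CH_mono_cond hp fun _ _ _ _ hh => by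
      simp only [Prod.mk.injEq] at hh ⊢
      exact ⟨hh.1, hh.2.2.2⟩).trans H2
  have r2 := rcd b₂ (fun ω => (b₁ ω, (a ω, d ω)))
  have r3 := rcd b₁ (fun ω => (b₂ ω, (a ω, d ω)))
  rw [ass, ass] at r2 r3
  have e2 : CH p b₂ (fun ω => (b₁ ω, ((a ω, d ω), (Zj ω, (Zw ω, y ω))))) =
      CH p b₂ (fun ω => (b₁ ω, (a ω, (d ω, (Zj ω, (Zw ω, y ω)))))) := by
    refine ch_cc hp _ _ _ fun ω ω' => ?_
    simp only [Prod.mk.injEq]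
    tauto
  have e2' : CH p b₂ (fun ω => (b₁ ω, ((a ω, d ω), (zj ω, (zw ω, y ω))))) =
      CH p b₂ (fun ω => (b₁ ω, (a ω, (d ω, (zj ω, (zw ω, y ω)))))) := by
    refine ch_cc hp _ _ _ fun ω ω' => ?_
    simp only [Prod.mk.injEq]
    tauto
  have e3 : CH p b₁ (fun ω => (b₂ ω, ((a ω, d ω), (Zj ω, (Zw ω, y ω))))) =
      CH p b₁ (fun ω => (b₂ ω, (a ω, (d ω, (Zj ω, (Zw ω, y ω)))))) := by
    refine ch_cc hp _ _ _ fun ω ω' => ?_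
    simp only [Prod.mk.injEq]
    tauto
  have e3' : CH p b₁ (fun ω => (b₂ ω, ((a ω, d ω), (zj ω, (zw ω, y ω))))) =
      CH p b₁ (fun ω => (b₂ ω, (a ω, (d ω, (zj ω, (zw ω, y ω)))))) := by
    refine ch_cc hp _ _ _ fun ω ω' => ?_
    simp only [Prod.mk.injEq]
    tauto
  rw [e2, e2'] at r2
  rw [e3, e3'] at r3
  refine ⟨by linarith, by linarith, by linarith⟩

section

variable {m : ℕ} {W₁ W₂ W₃ V₁ V₂ V₃ V₄ : Type} {α γ' : ∀ J : ℕ, Fam m J → Type}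
  {S : PCl m} {f : ∀ (J : ℕ) (F : Fam m J), F.Ω → α J F}
  {y : ∀ (J : ℕ) (F : Fam m J), F.Ω → γ' J F}

/-- **Near digits given the velocities**: the charts and a record at the window `w`, a record at the
window `j`. -/
def NrJ (S : PCl m) (f : ∀ (J : ℕ) (F : Fam m J), F.Ω → α J F)
    (y : ∀ (J : ℕ) (F : Fam m J), F.Ω → γ' J F) (QA : Qt m W₁) (QB : Qt m W₂) (QD : Qt m W₃)
    (w j θ c₀ : ℝ) : Prop :=
  ∃ k : ℝ, 0 < k ∧ ∃ e₀ : ℝ, 0 < e₀ ∧ ∀ K : ℕ, Bas S (fun J F A' =>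
    ∀ (R₁ R₂ : Type) (z : F.Ω → R₁) (zj : F.Ω → R₂), Mx f (vg w) k F A' z →
    Mx f (vg j) k F A' zj → ∀ a b d, QA.P K e₀ J F A' a → QB.P K e₀ J F A' b →
    QD.P K e₀ J F A' d → ∀ B' : F.Ω → Prop, Sub B' A' → c₀ * Pe F.p A' ≤ Pe F.p B' →
    θ * J ≤ CH (Pool.Agent.H49.Ent.cond F.p B' True) b
      (fun ω => (a ω, (d ω, (zj ω, (z ω, y J F ω))))))

/-- **Near digits of a pair**, and of each coordinate given the near digits of the other one. -/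
def Nv3 (S : PCl m) (f : ∀ (J : ℕ) (F : Fam m J), F.Ω → α J F)
    (y : ∀ (J : ℕ) (F : Fam m J), F.Ω → γ' J F) (QA : Qt m V₁) (QB₁ : Qt m V₂) (QB₂ : Qt m V₃)
    (QD : Qt m V₄) (w j θ c1 c2 c₀ : ℝ) : Prop :=
  ∃ k : ℝ, 0 < k ∧ ∃ e₀ : ℝ, 0 < e₀ ∧ ∀ K : ℕ, Bas S (fun J F A' =>
    ∀ (R₁ R₂ : Type) (z : F.Ω → R₁) (zj : F.Ω → R₂), Mx f (vg w) k F A' z →
    Mx f (vg j) k F A' zj → ∀ a b₁ b₂ d, QA.P K e₀ J F A' a → QB₁.P K e₀ J F A' b₁ →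
    QB₂.P K e₀ J F A' b₂ → QD.P K e₀ J F A' d →
    ∀ B' : F.Ω → Prop, Sub B' A' → c₀ * Pe F.p A' ≤ Pe F.p B' →
    θ * J ≤ CH (Pool.Agent.H49.Ent.cond F.p B' True) (fun ω => (b₁ ω, b₂ ω))
        (fun ω => (a ω, (d ω, (zj ω, (z ω, y J F ω))))) ∧
      (θ - c1) * J ≤ CH (Pool.Agent.H49.Ent.cond F.p B' True) b₂
        (fun ω => (b₁ ω, (a ω, (d ω, (zj ω, (z ω, y J F ω)))))) ∧
      (θ - c2) * J ≤ CH (Pool.Agent.H49.Ent.cond F.p B' True) b₁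
        (fun ω => (b₂ ω, (a ω, (d ω, (zj ω, (z ω, y J F ω)))))))

theorem NrJ.le {QA : Qt m W₁} {QB : Qt m W₂} {QD : Qt m W₃} {w j θ θ' c₀ : ℝ}
    (h : NrJ S f y QA QB QD w j θ c₀) (hθ : θ' ≤ θ) : NrJ S f y QA QB QD w j θ' c₀ := by
  obtain ⟨k, hk, e, he, H⟩ := h
  refine ⟨k, hk, e, he, fun K => Bas.mono 0 (H K) ?_⟩
  intro J _ F A' H R₁ R₂ z zj hz hzj a b d ha hb hd B' hB hBc
  exact (mul_le_mul_of_nonneg_right hθ (Nat.cast_nonneg J)).trans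
    (H R₁ R₂ z zj hz hzj a b d ha hb hd B' hB hBc)

theorem Nv3.le {QA : Qt m V₁} {QB₁ : Qt m V₂} {QB₂ : Qt m V₃} {QD : Qt m V₄}
    {w j θ θ' c1 c2 c₀ : ℝ} (h : Nv3 S f y QA QB₁ QB₂ QD w j θ c1 c2 c₀) (hθ : θ' ≤ θ) :
    Nv3 S f y QA QB₁ QB₂ QD w j θ' c1 c2 c₀ := by
  obtain ⟨k, hk, e, he, H⟩ := h
  refine ⟨k, hk, e, he, fun K => Bas.mono 0 (H K) ?_⟩
  intro J _ F A' H R₁ R₂ z zj hz hzj a b₁ b₂ d ha hb1 hb2 hd B' hB hBc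
  have hJ : (0 : ℝ) ≤ J := Nat.cast_nonneg J
  obtain ⟨h1, h2, h3⟩ := H R₁ R₂ z zj hz hzj a b₁ b₂ d ha hb1 hb2 hd B' hB hBc
  exact ⟨(mul_le_mul_of_nonneg_right hθ hJ).trans h1,
    (mul_le_mul_of_nonneg_right (by linarith) hJ).trans h2,
    (mul_le_mul_of_nonneg_right (by linarith) hJ).trans h3⟩

theorem Nv3.sub {S' : PCl m} (hs : ∀ (τ : ℝ) (J : ℕ) (F : Fam m J) (A : F.Ω → Prop),
    S'.St τ J F A → S.St τ J F A) {QA : Qt m V₁} {QB₁ : Qt m V₂} {QB₂ : Qt m V₃}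
    {QD : Qt m V₄} {w j θ c1 c2 c₀ : ℝ} (h : Nv3 S f y QA QB₁ QB₂ QD w j θ c1 c2 c₀) :
    Nv3 S' f y QA QB₁ QB₂ QD w j θ c1 c2 c₀ := by
  obtain ⟨k, hk, e, he, H⟩ := h
  exact ⟨k, hk, e, he, fun K => (H K).sub hs⟩

/-- **The change of the codes and of the windows.** -/
theorem nv3_of
    (hpos : ∀ (τ : ℝ) (J : ℕ) (F : Fam m J) (A : F.Ω → Prop), S.St τ J F A → 0 < Pe F.p A)
    {QA₀ : Qt m W₁} {QB₀ : Qt m W₂} {QD₀ : Qt m W₃} {QA : Qt m V₁} {QB₁ : Qt m V₂}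
    {QB₂ : Qt m V₃} {QD : Qt m V₄} {w j x x' θ ca cd cb c1 c2 c₀ e : ℝ} (hc₀ : 0 < c₀)
    (hwx : w ≤ x) (hx : x ≤ 1) (hjx : j ≤ x') (hx' : x' ≤ 1)
    (h : NrJ S f y QA₀ QB₀ QD₀ x x' θ c₀)
    (rx : ∃ η, RNum S f (vg x) η) (rx' : ∃ η, RNum S f (vg x') η)
    (xA : Exs S QA₀) (xB : Exs S QB₀) (xD : Exs S QD₀)
    (fA : FewC S f (vg x) y QA₀ QA ca c₀) (fD : FewC S f (vg x) y QD₀ QD cd c₀)
    (fB : FewC S f (vg x) y (QB₁.prod QB₂) QB₀ cb c₀)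
    (f1 : FewC S f (vg x) y QA QB₁ c1 c₀) (f2 : FewC S f (vg x) y QA QB₂ c2 c₀) (he : 0 < e) :
    Nv3 S f y QA QB₁ QB₂ QD w j (θ - ca - cd - cb - e) c1 c2 c₀ := by
  obtain ⟨ε, hε⟩ : ∃ ε : ℝ, ε = e / 8 := ⟨_, rfl⟩
  have hε0 : 0 < ε := by rw [hε]; positivity
  obtain ⟨k0, hk0, e0, he0, H0⟩ := h
  obtain ⟨k1, hk1, e1, he1, H1⟩ := fA ε hε0
  obtain ⟨k2, hk2, e2, he2, H2⟩ := fD ε hε0
  obtain ⟨k3, hk3, e3, he3, H3⟩ := fB ε hε0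
  obtain ⟨k4, hk4, e4, he4, H4⟩ := f1 ε hε0
  obtain ⟨k5, hk5, e5, he5, H5⟩ := f2 ε hε0
  obtain ⟨k, hk, l0, l1, l2, l3, l4, l5, l6⟩ : ∃ k : ℝ, 0 < k ∧ k ≤ k0 ∧ k ≤ k1 ∧ k ≤ k2 ∧
      k ≤ k3 ∧ k ≤ k4 ∧ k ≤ k5 ∧ k ≤ c₀ * ε := by
    refine ⟨min (min (min k0 k1) (min k2 k3)) (min (min k4 k5) (c₀ * ε)), by positivity,
      ?_, ?_, ?_, ?_, ?_, ?_, ?_⟩
    · exact (min_le_left _ _).trans ((min_le_left _ _).trans (min_le_left _ _))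
    · exact (min_le_left _ _).trans ((min_le_left _ _).trans (min_le_right _ _))
    · exact (min_le_left _ _).trans ((min_le_right _ _).trans (min_le_left _ _))
    · exact (min_le_left _ _).trans ((min_le_right _ _).trans (min_le_right _ _))
    · exact (min_le_right _ _).trans ((min_le_left _ _).trans (min_le_left _ _))
    · exact (min_le_right _ _).trans ((min_le_left _ _).trans (min_le_right _ _))
    · exact (min_le_right _ _).trans (min_le_right _ _)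
  obtain ⟨e', he', m0, m1, m2, m3, m4, m5⟩ : ∃ e' : ℝ, 0 < e' ∧ e' ≤ e0 ∧ e' ≤ e1 ∧ e' ≤ e2 ∧
      e' ≤ e3 ∧ e' ≤ e4 ∧ e' ≤ e5 := by
    refine ⟨min (min (min e0 e1) (min e2 e3)) (min e4 e5), by positivity, ?_, ?_, ?_, ?_, ?_, ?_⟩
    · exact (min_le_left _ _).trans ((min_le_left _ _).trans (min_le_left _ _))
    · exact (min_le_left _ _).trans ((min_le_left _ _).trans (min_le_right _ _))
    · exact (min_le_left _ _).trans ((min_le_right _ _).trans (min_le_left _ _))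
    · exact (min_le_left _ _).trans ((min_le_right _ _).trans (min_le_right _ _))
    · exact (min_le_right _ _).trans (min_le_left _ _)
    · exact (min_le_right _ _).trans (min_le_right _ _)
  obtain ⟨KA, MA, XA⟩ := xA e' he'
  obtain ⟨KB, MB, XB⟩ := xB e' he'
  obtain ⟨KD, MD, XD⟩ := xD e' he'
  obtain ⟨η1, r1⟩ := rx
  obtain ⟨η2, r2⟩ := rx'
  refine ⟨k, hk, e', he', fun K => ?_⟩
  obtain ⟨L, n0, n1, n2, n3⟩ : ∃ L : ℕ, K ≤ L ∧ KA ≤ L ∧ KB ≤ L ∧ KD ≤ L :=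
    ⟨max K (max KA (max KB KD)), le_max_left _ _, (le_max_left _ _).trans (le_max_right _ _),
      (le_max_left _ _).trans ((le_max_right _ _).trans (le_max_right _ _)),
      (le_max_right _ _).trans ((le_max_right _ _).trans (le_max_right _ _))⟩
  refine Bas.mono 0 (((((H0 L).and (H1 L)).and ((H2 L).and (H3 L))).and
    ((H4 L).and (H5 L))).and (((XA.and XB).and (XD.and (mx_ex hpos r1 k hk))).and
    ((mx_ex hpos r2 k hk).and (pos_bas hpos)))) ?_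
  rintro J - F A' ⟨⟨⟨⟨H0, H1⟩, H2, H3⟩, H4, H5⟩, ⟨⟨⟨a₀, ha₀, -⟩, b₀, hb₀, -⟩, ⟨d₀, hd₀, -⟩,
    Rx, Zx, hZx⟩, ⟨Rj, Zj, hZj⟩, hAp⟩ R₁ R₂ z zj hz hzj a b₁ b₂ d ha hb1 hb2 hd B' hB' hBc
  have hBp : 0 < Pe F.p B' := lt_of_lt_of_le (mul_pos hc₀ hAp) hBc
  have hcl := isLaw_cond F.isLaw hBp
  have hJ0 : (0 : ℝ) ≤ J := Nat.cast_nonneg J
  have a1 := QA.mono n0 m1 ha
  have t0 := H0 Rx Rj Zx Zj (hZx.le' l0) (hZj.le' l0) a₀ b₀ d₀ (QA₀.mono n1 m0 ha₀)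
    (QB₀.mono n2 m0 hb₀) (QD₀.mono n3 m0 hd₀) B' hB' hBc
  have t1 := H1 Rx Zx (hZx.le' l1) a₀ a (QA₀.mono n1 m1 ha₀) (QA.mono n0 m1 ha) B' hB' hBc
  have t2 := H2 Rx Zx (hZx.le' l2) d₀ d (QD₀.mono n3 m2 hd₀) (QD.mono n0 m2 hd) B' hB' hBc
  have t3 := H3 Rx Zx (hZx.le' l3) (fun ω => (b₁ ω, b₂ ω)) b₀
    ⟨QB₁.mono n0 m3 hb1, QB₂.mono n0 m3 hb2⟩ (QB₀.mono n2 m3 hb₀) B' hB' hBc
  have t4 := H4 Rx Zx (hZx.le' l4) a b₁ (QA.mono n0 m4 ha) (QB₁.mono n0 m4 hb1) B' hB' hBc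
  have t5 := H5 Rx Zx (hZx.le' l5) a b₂ (QA.mono n0 m5 ha) (QB₂.mono n0 m5 hb2) B' hB' hBc
  have hkJ : k * J ≤ c₀ * ε * J := mul_le_mul_of_nonneg_right l6 hJ0
  have part : ∀ {T T' : Type} (X : F.Ω → T) (Y : F.Ω → T'),
      CH (Pool.Agent.H49.Ent.cond F.p A' True) X Y ≤ c₀ * ε * J →
      CH (Pool.Agent.H49.Ent.cond F.p B' True) X Y ≤ ε * J := fun X Y hXY =>
    ch_part F.isLaw hB' hAp hc₀ hBc X Y (by rw [← mul_assoc]; exact hXY)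
  have t6 := part _ _ ((hZj.2 R₂ zj (Pool.OWN68.cl2_vg hjx hx' hzj.1)).trans hkJ)
  have t7 := part _ _ ((hZx.2 R₁ z (Pool.OWN68.cl2_vg hwx hx hz.1)).trans hkJ)
  obtain ⟨g1, g2, g3⟩ := nv_law hcl.nonneg t0 t1 t2 t3 t6 t7 t4 t5
  have s0 : (0 : ℝ) ≤ ε * J := mul_nonneg hε0.le hJ0
  have hee : e = 8 * ε := by rw [hε]; ring
  refine ⟨?_, ?_, ?_⟩
  · have q : θ * J - (ca + ε) * J - (cd + ε) * J - (cb + ε) * J - ε * J - ε * J -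
        (θ - ca - cd - cb - e) * J = 3 * (ε * J) := by
      rw [hee]
      ring
    linarith
  · have q : θ * J - (ca + ε) * J - (cd + ε) * J - (cb + ε) * J - ε * J - ε * J - (c1 + ε) * J -
        (θ - ca - cd - cb - e - c1) * J = 2 * (ε * J) := by
      rw [hee]
      ring
    linarith
  · have q : θ * J - (ca + ε) * J - (cd + ε) * J - (cb + ε) * J - ε * J - ε * J - (c2 + ε) * J -
        (θ - ca - cd - cb - e - c2) * J = 2 * (ε * J) := by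
      rw [hee]
      ring
    linarith

end

end Pool.D2F2
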