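import Pool.Agent.H4.D2.Nvc
import Pool.Agent.H91.FR.QpG

/-!
# The near digits of a pair as a property of the windows

`NvAt.cong`: only the values and the slopes of the profiles matter. `gs_ptv`: at almost every window
of a closed set of good windows the numbers of the closed labels satisfy `PtV` when the diagonals of
the second and of the third coordinate have the same slope larger than one. `NvQ`: the property, for
the joints; `her_nv`, `aePG_nv`.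
-/

set_option autoImplicit false

namespace Pool.D2F2

open Finset Real MvPolynomial Filter Topology MeasureTheory
open Pool.Agent.H49.Ent Pool.Agent.H32.Dense Pool.STK Pool.KA Pool.KSAT Pool.K2S Pool.PB Pool.S6C
  Pool.GEN Pool.RCD Pool.LA91 Pool.PKG Pool.CHT Pool.GRW
open Pool.TOP (TopS)
open Pool.OWN72 (epo cc_epo cc_inj3 gs_exa gs_vs vs_img vse_one nlw_lo1 nlw_lo2 nlw_tie gs_act img)

/-- **Only the values and the slopes of the profiles matter.** -/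
theorem NvAt.cong {m : ℕ} {S : PCl m} {y u v : Fin m} {L₁ L₂ M₁ M₂ : ℝ → ℝ} {g s₁ s₂ : ℝ}
    (h : NvAt S y u v L₁ L₂ g) (a1 : HasDerivAt L₁ s₁ g) (b1 : HasDerivAt M₁ s₁ g)
    (e1 : L₁ g = M₁ g) (a2 : HasDerivAt L₂ s₂ g) (b2 : HasDerivAt M₂ s₂ g) (e2 : L₂ g = M₂ g) :
    NvAt S y u v M₁ M₂ g := by
  intro C e κ hC he hκ hκe
  obtain ⟨κ', hκ1, hκ2⟩ := exists_between hκe
  obtain ⟨i₀, h⟩ := h (C + 1) e κ' (by linarith) he (hκ.trans hκ1) hκ2
  refine ⟨i₀, fun i hi => ?_⟩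
  obtain ⟨ρ, hρ, h⟩ := h i hi
  obtain ⟨ε, hε0, hε1, hε2⟩ : ∃ ε : ℝ, 0 < ε ∧ ε ≤ (κ' - κ) / 4 ∧ ε ≤ 1 / 4 :=
    ⟨min ((κ' - κ) / 4) (1 / 4), lt_min (by linarith) (by norm_num), min_le_left _ _,
      min_le_right _ _⟩
  obtain ⟨r1, hr1, k1⟩ := lin_near a1 hε0
  obtain ⟨r2, hr2, k2⟩ := lin_near b1 hε0
  obtain ⟨r3, hr3, k3⟩ := lin_near a2 hε0
  obtain ⟨r4, hr4, k4⟩ := lin_near b2 hε0
  obtain ⟨d, hd0, d0, d1, d2, d3, d4⟩ : ∃ d : ℝ, 0 < d ∧ d ≤ ρ ∧ d ≤ r1 ∧ d ≤ r2 ∧ d ≤ r3 ∧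
      d ≤ r4 := by
    refine ⟨min ρ (min (min r1 r2) (min r3 r4)), by positivity, min_le_left _ _, ?_, ?_, ?_, ?_⟩
    · exact (min_le_right _ _).trans ((min_le_left _ _).trans (min_le_left _ _))
    · exact (min_le_right _ _).trans ((min_le_left _ _).trans (min_le_right _ _))
    · exact (min_le_right _ _).trans ((min_le_right _ _).trans (min_le_left _ _))
    · exact (min_le_right _ _).trans ((min_le_right _ _).trans (min_le_right _ _))
  refine ⟨d, hd0, fun R hR hRd w j hw hwj hj q p Na Ma Nb Mb Nd Md c1 c2 c3 c4 c5 c6 c7 c8 c9 c10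
    c11 c₀ hc₀ => ?_⟩
  have hεκ : 4 * (ε * R) ≤ κ' * R - κ * R := by
    have := mul_le_mul_of_nonneg_right hε1 hR.le
    linarith
  have hεR : ε * R ≤ 1 / 4 * R := mul_le_mul_of_nonneg_right hε2 hR.le
  have key1 : ∀ x : ℝ, |x - g| ≤ R → L₁ x - 2 * (ε * R) ≤ M₁ x ∧ M₁ x ≤ L₁ x + 2 * (ε * R) := by
    intro x hx
    have x1 := abs_le.1 (k1 R hR (by linarith) x hx)
    have x2 := abs_le.1 (k2 R hR (by linarith) x hx)
    rw [← e1] at x2
    constructor <;> linarith [x1.1, x1.2, x2.1, x2.2]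
  have key2 : ∀ x : ℝ, |x - g| ≤ R → L₂ x - 2 * (ε * R) ≤ M₂ x ∧ M₂ x ≤ L₂ x + 2 * (ε * R) := by
    intro x hx
    have x1 := abs_le.1 (k3 R hR (by linarith) x hx)
    have x2 := abs_le.1 (k4 R hR (by linarith) x hx)
    rw [← e2] at x2
    constructor <;> linarith [x1.1, x1.2, x2.1, x2.2]
  have w1 := key1 w (by rw [abs_le]; constructor <;> linarith)
  have w2 := key2 w (by rw [abs_le]; constructor <;> linarith)
  have j1 := key1 j (by rw [abs_le]; constructor <;> linarith)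
  have j2 := key2 j (by rw [abs_le]; constructor <;> linarith)
  have hCR : (C + 1) * R = C * R + R := by ring
  obtain ⟨c8, c8'⟩ := abs_le.1 c8
  refine h R hR (by linarith) w j hw hwj hj q p Na Ma Nb Mb Nd Md ?_ ?_ ?_ ?_ c5 c6 ?_ ?_ ?_ ?_ ?_
    c₀ hc₀
  · rw [hCR]
    linarith [w1.1, w1.2]
  · linarith [w2.1, w2.2]
  · linarith [j1.1, j1.2]
  · linarith [j2.1, j2.2]
  · rw [hCR]
    linarith [w1.1, w1.2]
  · rw [abs_le]
    constructor <;> linarith [w1.1, w1.2, w2.1, w2.2]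
  · linarith [w1.1, w1.2, w2.1, w2.2]
  · rw [hCR]
    linarith [w1.1, w1.2]
  · rw [hCR]
    linarith [w2.1, w2.2]

/-- The points of a set near a window, on both sides. -/
def Den2 (G : Set ℝ) (g : ℝ) : Prop :=
  ∀ τ : ℝ, 0 < τ → ∃ q₁ : ℝ, 0 < q₁ ∧ ∀ r : ℝ, 0 < r → r < q₁ → ∀ w : ℝ, |w - g| ≤ r →
    (∃ a ∈ G, w ≤ a ∧ a ≤ w + τ * r) ∧ ∃ a ∈ G, w - τ * r ≤ a ∧ a < w

theorem den2_ae (G : Set ℝ) : ∀ᵐ g : ℝ, g ∈ G → Den2 G g := by
  filter_upwards [pt_near G] with g hg hgG τ hτ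
  obtain ⟨q₁, hq₁, h⟩ := hg hgG (1 + τ) (τ / 2) (by linarith) (by linarith)
  refine ⟨q₁, hq₁, fun r hr hrq w hw => ?_⟩
  have hτr : 0 < τ * r := mul_pos hτ hr
  obtain ⟨b1, b2⟩ := abs_le.1 hw
  obtain ⟨a, ha, h1, h2⟩ := h r w hr hrq (by
    rw [abs_le]
    constructor <;> nlinarith)
  obtain ⟨a', ha', h3, h4⟩ := h r (w - τ * r) hr hrq (by
    rw [abs_le]
    constructor <;> nlinarith)
  exact ⟨⟨a, ha, h1, by linarith⟩, a', ha', h3, by linarith⟩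

/-- **From above.** -/
theorem near_up {f F : ℝ → ℝ} {G : Set ℝ} {g s ρ : ℝ} (hd : Den2 G g) (hf : HasDerivAt f s g)
    (hρ : 0 < ρ) (h : ∀ a ∈ G, ∀ w : ℝ, |w - g| ≤ ρ → w ≤ a → F w ≤ f a) :
    ∀ e : ℝ, 0 < e → ∃ r₀ : ℝ, 0 < r₀ ∧ ∀ r : ℝ, 0 < r → r < r₀ → ∀ w : ℝ, |w - g| ≤ r →
      F w ≤ f g + s * (w - g) + e * r := by
  intro e he
  obtain ⟨τ, hτ0, hτ1, hτ2⟩ : ∃ τ : ℝ, 0 < τ ∧ τ ≤ 1 ∧ |s| * τ ≤ e / 4 := by
    refine ⟨min 1 (e / (4 * (|s| + 1))), lt_min one_pos (by positivity), min_le_left _ _, ?_⟩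
    have h1 : min 1 (e / (4 * (|s| + 1))) ≤ e / (4 * (|s| + 1)) := min_le_right _ _
    have h2 := mul_le_mul_of_nonneg_left h1 (by positivity : 0 ≤ |s| + 1)
    have h3 : (|s| + 1) * (e / (4 * (|s| + 1))) = e / 4 := by
      field_simp
    have h4 : 0 < min 1 (e / (4 * (|s| + 1))) := lt_min one_pos (by positivity)
    linarith
  obtain ⟨r₁, hr₁, k⟩ := lin_near hf (ε := e / 4) (by positivity)
  obtain ⟨q₁, hq₁, hd⟩ := hd τ hτ0
  refine ⟨min (min (r₁ / 2) q₁) ρ, lt_min (lt_min (by positivity) hq₁) hρ,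
    fun r hr hrr w hw => ?_⟩
  have c1 : r < r₁ / 2 := hrr.trans_le ((min_le_left _ _).trans (min_le_left _ _))
  have c2 : r < q₁ := hrr.trans_le ((min_le_left _ _).trans (min_le_right _ _))
  have c3 : r < ρ := hrr.trans_le (min_le_right _ _)
  obtain ⟨⟨a, ha, a1, a2⟩, -⟩ := hd r hr c2 w hw
  have hτr : τ * r ≤ r := by nlinarith
  obtain ⟨b1, b2⟩ := abs_le.1 hw
  have h1 := h a ha w (by linarith) a1
  have h2 := (abs_le.1 (k (2 * r) (by linarith) (by linarith) a (by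
    rw [abs_le]
    constructor <;> linarith))).2
  have h3 : s * (a - g) ≤ s * (w - g) + |s| * τ * r := by
    have h4 : s * (a - g) = s * (w - g) + s * (a - w) := by ring
    have h5 : s * (a - w) ≤ |s| * (τ * r) :=
      (mul_le_mul_of_nonneg_right (le_abs_self s) (by linarith)).trans
        (mul_le_mul_of_nonneg_left (by linarith) (abs_nonneg s))
    rw [h4]
    linarith
  have h6 := mul_le_mul_of_nonneg_right hτ2 hr.le
  have h7 : 0 < e * r := mul_pos he hr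
  linarith

/-- **From below.** -/
theorem near_lo {f F : ℝ → ℝ} {G : Set ℝ} {g s ρ : ℝ} (hd : Den2 G g) (hf : HasDerivAt f s g)
    (hρ : 0 < ρ) (h : ∀ a ∈ G, ∀ w : ℝ, |w - g| ≤ ρ → a < w → f a ≤ F w) :
    ∀ e : ℝ, 0 < e → ∃ r₀ : ℝ, 0 < r₀ ∧ ∀ r : ℝ, 0 < r → r < r₀ → ∀ w : ℝ, |w - g| ≤ r →
      f g + s * (w - g) - e * r ≤ F w := by
  intro e he
  obtain ⟨τ, hτ0, hτ1, hτ2⟩ : ∃ τ : ℝ, 0 < τ ∧ τ ≤ 1 ∧ |s| * τ ≤ e / 4 := by
    refine ⟨min 1 (e / (4 * (|s| + 1))), lt_min one_pos (by positivity), min_le_left _ _, ?_⟩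
    have h1 : min 1 (e / (4 * (|s| + 1))) ≤ e / (4 * (|s| + 1)) := min_le_right _ _
    have h2 := mul_le_mul_of_nonneg_left h1 (by positivity : 0 ≤ |s| + 1)
    have h3 : (|s| + 1) * (e / (4 * (|s| + 1))) = e / 4 := by
      field_simp
    have h4 : 0 < min 1 (e / (4 * (|s| + 1))) := lt_min one_pos (by positivity)
    linarith
  obtain ⟨r₁, hr₁, k⟩ := lin_near hf (ε := e / 4) (by positivity)
  obtain ⟨q₁, hq₁, hd⟩ := hd τ hτ0
  refine ⟨min (min (r₁ / 2) q₁) ρ, lt_min (lt_min (by positivity) hq₁) hρ,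
    fun r hr hrr w hw => ?_⟩
  have c1 : r < r₁ / 2 := hrr.trans_le ((min_le_left _ _).trans (min_le_left _ _))
  have c2 : r < q₁ := hrr.trans_le ((min_le_left _ _).trans (min_le_right _ _))
  have c3 : r < ρ := hrr.trans_le (min_le_right _ _)
  obtain ⟨-, a, ha, a1, a2⟩ := hd r hr c2 w hw
  have hτr : τ * r ≤ r := by nlinarith
  obtain ⟨b1, b2⟩ := abs_le.1 hw
  have h1 := h a ha w (by linarith) a2
  have h2 := (abs_le.1 (k (2 * r) (by linarith) (by linarith) a (by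
    rw [abs_le]
    constructor <;> linarith))).1
  have h3 : s * (w - g) - |s| * τ * r ≤ s * (a - g) := by
    have h4 : s * (w - g) = s * (a - g) + s * (w - a) := by ring
    have h5 : s * (w - a) ≤ |s| * (τ * r) :=
      (mul_le_mul_of_nonneg_right (le_abs_self s) (by linarith)).trans
        (mul_le_mul_of_nonneg_left (by linarith) (abs_nonneg s))
    rw [h4]
    linarith
  have h6 := mul_le_mul_of_nonneg_right hτ2 hr.le
  have h7 : 0 < e * r := mul_pos he hr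
  linarith

section

variable {n : ℕ} {hn : 2 ≤ n} {S : PCl n} {P : ℝ → ℝ → ℝ} {rr : ℝ → ℝ}
  {P' : ℕ → List (Fin n) × Fin n → ℝ → ℝ → ℝ} {Λ : Finset (Fin n) → Fin n → ℝ → ℝ → ℝ}

theorem img1 (c : ℕ → Fin n) : img c 1 = {c 0} := by
  unfold img
  simp

theorem img2 (c : ℕ → Fin n) : img c 2 = {c 0, c 1} := by
  unfold img
  rw [show range 2 = {0, 1} from by decide, Finset.image_insert, Finset.image_singleton]

/-- **The conditions at a window** of a closed set of good windows, from the slopes of the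
diagonals. -/
theorem gs_ptv (H : Pk hn S P rr P' Λ) (hTop : TopS n) (hF : FZX (n - 1)) (hn4 : 4 ≤ n)
    {o : Od n} {G : Set ℝ} (hG : G ⊆ Gs P rr P' Λ o) {g Sl : ℝ} (hg : g ∈ G) (hd : Den2 G g)
    (hS : 1 < Sl) (h1 : HasDerivAt (fun w => LvL hn P P' o 1 w w) Sl g)
    (h2 : HasDerivAt (fun w => LvL hn P P' o 2 w w) Sl g) :
    PtV Λ (cc hn o.1.1 0) (cc hn o.1.1 1) (cc hn o.1.1 2) g (LvL hn P P' o 1 g g)
      (LvL hn P P' o 2 g g - LvL hn P P' o 1 g g) Sl := by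
  obtain ⟨y, hy⟩ : ∃ y, y = cc hn o.1.1 0 := ⟨_, rfl⟩
  obtain ⟨u, hu⟩ : ∃ u, u = cc hn o.1.1 1 := ⟨_, rfl⟩
  obtain ⟨v, hv⟩ : ∃ v, v = cc hn o.1.1 2 := ⟨_, rfl⟩
  obtain ⟨f1, hf1⟩ : ∃ f1 : ℝ → ℝ, f1 = fun w => LvL hn P P' o 1 w w := ⟨_, rfl⟩
  obtain ⟨f2, hf2⟩ : ∃ f2 : ℝ → ℝ, f2 = fun w => LvL hn P P' o 2 w w := ⟨_, rfl⟩
  rw [← hf1] at h1
  rw [← hf2] at h2
  have hmon := H.lam.mono
  -- the values at the windows of `G`
  have v1 : ∀ a ∈ G, f1 a = vs Λ (epo hn o) a 2 := fun a ha => by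
    rw [hf1]
    exact gs_lvl H hTop hF (hG ha) (by omega)
  have v2 : ∀ a ∈ G, f2 a = vs Λ (epo hn o) a 3 := fun a ha => by
    rw [hf2]
    exact gs_lvl H hTop hF (hG ha) (by omega)
  have w1 : ∀ a ∈ G, f1 a = Λ {y} u a a := fun a ha => by
    rw [v1 a ha, vs_img o a (l := 1) (by omega), img1, vse_one H o (hG ha).1.1.1.le
      (hG ha).1.1.2.1, hy, hu]
  have w2 : ∀ a ∈ G, f2 a = Λ {y, u} v a (f1 a) := fun a ha => by
    rw [v2 a ha, vs_img o a (l := 2) (by omega), img2, ← v1 a ha, hy, hu, hv]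
  have g0 : ∀ a ∈ G, 0 < a ∧ a < 1 := fun a ha => ⟨(hG ha).1.1.1, (hG ha).1.1.2.1⟩
  have ge1 : ∀ a ∈ G, a ≤ f1 a := fun a ha => by
    rw [v1 a ha]
    exact le_vs H.lam _ (g0 a ha).2.le 2
  have le12 : f1 g ≤ f2 g := by
    rw [v1 g hg, v2 g hg]
    exact ((hG hg).1.1.2.2.1.mono H.lam (g0 g hg).2.le) (by norm_num)
  have lt2 : f2 g < 1 := by
    obtain ⟨u₁, rd, -, hch⟩ := gs_chn H hTop hF (hG hg) (i := n - 1) le_rfl
    have h3 := (hch.s0 2 (Nat.zero_le _) (by omega)).2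
    rw [hf2]
    exact h3
  -- the first number
  have F1 : ∀ e : ℝ, 0 < e → ∃ r₀ : ℝ, 0 < r₀ ∧ ∀ r : ℝ, 0 < r → r < r₀ → ∀ w : ℝ,
      |w - g| ≤ r → Λ {y} u w w ≤ f1 g + Sl * (w - g) + e * r := by
    refine near_up hd h1 one_pos fun a ha w _ hwa => ?_
    rw [w1 a ha]
    exact hmon _ _ _ _ _ _ _ (Finset.Subset.refl _) hwa hwa
  have F1' : ∀ e : ℝ, 0 < e → ∃ r₀ : ℝ, 0 < r₀ ∧ ∀ r : ℝ, 0 < r → r < r₀ → ∀ w : ℝ,
      |w - g| ≤ r → f1 g + Sl * (w - g) - e * r ≤ Λ {y} u w 0 := by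
    refine near_lo hd h1 one_pos fun a ha w _ haw => ?_
    have h3 := nlw_lo1 H hTop hF (hG ha) haw (by omega)
    rw [gs_vs H hTop hF (hG ha) (by omega), ← v1 a ha, ← hy, ← hu] at h3
    exact h3
  have F3 : ∀ e : ℝ, 0 < e → ∃ r₀ : ℝ, 0 < r₀ ∧ ∀ r : ℝ, 0 < r → r < r₀ → ∀ w : ℝ,
      |w - g| ≤ r → f1 g + Sl * (w - g) - e * r ≤ Λ {y} v w 0 := by
    refine near_lo hd h1 one_pos fun a ha w _ haw => ?_
    have h3 := nlw_tie H hTop hF (hG ha) haw (by omega)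
    rw [gs_vs H hTop hF (hG ha) (by omega), ← v1 a ha, ← hy, ← hv] at h3
    exact h3
  have hgp := (g0 g hg).1
  have pos0 : ∀ {w r : ℝ}, |w - g| ≤ r → r < g → 0 ≤ w := fun hw hr => by
    have := (abs_le.1 hw).1
    linarith
  -- the value at `g`
  have hgu : g < f1 g := by
    obtain ⟨r₁, hr₁, k⟩ := lin_near h1 (ε := (Sl - 1) / 4) (by linarith)
    obtain ⟨q₁, hq₁, hd'⟩ := hd (1 / 2) (by norm_num)
    obtain ⟨r, hr0, hr1, hr2⟩ : ∃ r : ℝ, 0 < r ∧ r < r₁ ∧ r < q₁ :=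
      ⟨min r₁ q₁ / 2, by positivity, by
        have : min r₁ q₁ ≤ r₁ := min_le_left _ _
        linarith, by
        have : min r₁ q₁ ≤ q₁ := min_le_right _ _
        linarith⟩
    obtain ⟨-, a, ha, a1, a2⟩ := hd' r hr0 hr2 (g - r / 2) (by
      rw [abs_le]
      constructor <;> linarith)
    have h3 := (abs_le.1 (k r hr0 hr1 a (by
      rw [abs_le]
      constructor <;> linarith))).2
    have h4 := ge1 a ha
    have h5 : (Sl - 1) * (r / 2) ≤ (Sl - 1) * (g - a) :=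
      mul_le_mul_of_nonneg_left (by linarith) (by linarith)
    have h6 : 0 < (Sl - 1) * r := mul_pos (by linarith) hr0
    nlinarith
  -- the second number
  obtain ⟨a₀, a₁, ha0, haa, ha1, hda⟩ := deep_ofS (f := fun w => Λ {y} u w w) hgp (g0 g hg).2 hS
    (fun e he => by
      obtain ⟨r₀, hr₀, h⟩ := F1' e he
      refine ⟨min r₀ g, lt_min hr₀ hgp, fun r hr hrr w hw => ?_⟩
      exact (h r hr (hrr.trans_le (min_le_left _ _)) w hw).trans
        (hmon _ _ _ _ _ _ _ (Finset.Subset.refl _) le_rfl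
          (pos0 hw (hrr.trans_le (min_le_right _ _)))))
  obtain ⟨ρ, hρ, hnear⟩ : ∃ ρ : ℝ, 0 < ρ ∧ ∀ w : ℝ, |w - g| ≤ ρ → w < Λ {y} u w 0 ∧
      Λ {y} u w 0 < 1 ∧ Λ {y} u w 0 - w < Λ {y} u a₀ a₀ - a₁ := by
    obtain ⟨ra, hra, ka⟩ := F1 1 one_pos
    obtain ⟨rb, hrb, kb⟩ := F1' 1 one_pos
    obtain ⟨d, hd0, d1, d2, d3⟩ : ∃ d : ℝ, 0 < d ∧ d ≤ f1 g - g ∧ d ≤ 1 - f1 g ∧
        d ≤ Λ {y} u a₀ a₀ - a₁ - (f1 g - g) := by
      refine ⟨min (min (f1 g - g) (1 - f1 g)) (Λ {y} u a₀ a₀ - a₁ - (f1 g - g)),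
        lt_min (lt_min (by linarith) (by linarith)) (by linarith), ?_, ?_, ?_⟩
      · exact (min_le_left _ _).trans (min_le_left _ _)
      · exact (min_le_left _ _).trans (min_le_right _ _)
      · exact min_le_right _ _
    have hT : 0 < 2 * (Sl + 2) := by linarith
    obtain ⟨r, hr0, r1, r2, r3, r4⟩ : ∃ r : ℝ, 0 < r ∧ r < ra ∧ r < rb ∧
        r * (2 * (Sl + 2)) ≤ d ∧ r < g := by
      refine ⟨min (min (ra / 2) (rb / 2)) (min (d / (2 * (Sl + 2))) (g / 2)),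
        lt_min (lt_min (by linarith) (by linarith)) (lt_min (by positivity) (by linarith)),
        ?_, ?_, ?_, ?_⟩
      · exact lt_of_le_of_lt ((min_le_left _ _).trans (min_le_left _ _)) (by linarith)
      · exact lt_of_le_of_lt ((min_le_left _ _).trans (min_le_right _ _)) (by linarith)
      · have : min (min (ra / 2) (rb / 2)) (min (d / (2 * (Sl + 2))) (g / 2)) ≤
            d / (2 * (Sl + 2)) := (min_le_right _ _).trans (min_le_left _ _)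
        rwa [le_div_iff₀ hT] at this
      · exact lt_of_le_of_lt ((min_le_right _ _).trans (min_le_right _ _)) (by linarith)
    refine ⟨r, hr0, fun w hw => ?_⟩
    have h3 := ka r hr0 r1 w hw
    have h4 := kb r hr0 r2 w hw
    have h5 : Λ {y} u w 0 ≤ Λ {y} u w w :=
      hmon _ _ _ _ _ _ _ (Finset.Subset.refl _) le_rfl (pos0 hw r4)
    have h6 : |Sl * (w - g)| ≤ Sl * r := by
      rw [abs_mul, abs_of_pos (by linarith : (0 : ℝ) < Sl)]
      exact mul_le_mul_of_nonneg_left hw (by linarith)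
    obtain ⟨h6, h7⟩ := abs_le.1 h6
    obtain ⟨h8, h9⟩ := abs_le.1 hw
    have h10 : 0 < Sl * r := mul_pos (by linarith) hr0
    refine ⟨by linarith, by linarith, by linarith⟩
  have F2 : ∀ e : ℝ, 0 < e → ∃ r₀ : ℝ, 0 < r₀ ∧ ∀ r : ℝ, 0 < r → r < r₀ → ∀ w : ℝ,
      |w - g| ≤ r → Λ {y, u} v w w ≤ f2 g + Sl * (w - g) + e * r := by
    refine near_up hd h2 one_pos fun a ha w _ hwa => ?_
    rw [w2 a ha]
    exact hmon _ _ _ _ _ _ _ (Finset.Subset.refl _) hwa (hwa.trans (ge1 a ha))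
  have hcnt : {W : ℝ | ¬ ContinuousAt (fun W => Λ {y} u W 0) W}.Countable :=
    Monotone.countable_not_continuousAt fun a b hab =>
      hmon _ _ _ _ _ _ _ (Finset.Subset.refl _) hab le_rfl
  have F2' : ∀ e : ℝ, 0 < e → ∃ r₀ : ℝ, 0 < r₀ ∧ ∀ r : ℝ, 0 < r → r < r₀ → ∀ w : ℝ,
      |w - g| ≤ r → f2 g + Sl * (w - g) - e * r ≤ Λ {y, u} v w 0 := by
    refine near_lo hd h2 (half_pos hρ) fun a ha w hw haw => ?_
    obtain ⟨b1, b2⟩ := abs_le.1 hw
    obtain ⟨W, hWc, hW1, hW2⟩ := (hcnt.dense_compl ℝ).exists_between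
      (max_lt haw (by linarith) : max a (w - ρ / 2) < w)
    have hW3 : a < W := lt_of_le_of_lt (le_max_left _ _) hW1
    have hW4 : w - ρ / 2 < W := lt_of_le_of_lt (le_max_right _ _) hW1
    obtain ⟨m1, m2, m3⟩ := hnear W (by
      rw [abs_le]
      constructor <;> linarith)
    have hWc' : ContinuousAt (fun w => Λ {y} u w 0) W := by
      by_contra hcon
      exact hWc hcon
    rw [hy, hu] at hWc' m1 m2 m3
    have h3 := nlw_lo2 H hTop hF (hG ha) hW3 (by omega) hWc' m1 m2 ha0 haa m3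
    rw [gs_vs H hTop hF (hG ha) (by omega), ← v2 a ha, ← hy, ← hu, ← hv] at h3
    exact h3.trans (hmon _ _ _ _ _ _ _ (Finset.Subset.refl _) hW2.le le_rfl)
  rw [← hy, ← hu, ← hv]
  have q1 : LvL hn P P' o 1 g g = f1 g := by rw [hf1]
  have q2 : LvL hn P P' o 2 g g = f2 g := by rw [hf2]
  rw [q1, q2]
  refine ⟨hgp, hgu, by linarith, by linarith, hS, fun e he => ?_⟩
  obtain ⟨r1, hr1, k1⟩ := F1 e he
  obtain ⟨r2, hr2, k2⟩ := F1' e he
  obtain ⟨r3, hr3, k3⟩ := F2 e he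
  obtain ⟨r4, hr4, k4⟩ := F2' e he
  obtain ⟨r5, hr5, k5⟩ := F3 e he
  refine ⟨min (min (min r1 r2) (min r3 r4)) (min r5 g),
    lt_min (lt_min (lt_min hr1 hr2) (lt_min hr3 hr4)) (lt_min hr5 hgp), fun r hr hrr w hw => ?_⟩
  have c1 : r < r1 := hrr.trans_le ((min_le_left _ _).trans ((min_le_left _ _).trans
    (min_le_left _ _)))
  have c2 : r < r2 := hrr.trans_le ((min_le_left _ _).trans ((min_le_left _ _).trans
    (min_le_right _ _)))
  have c3 : r < r3 := hrr.trans_le ((min_le_left _ _).trans ((min_le_right _ _).trans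
    (min_le_left _ _)))
  have c4 : r < r4 := hrr.trans_le ((min_le_left _ _).trans ((min_le_right _ _).trans
    (min_le_right _ _)))
  have c5 : r < r5 := hrr.trans_le ((min_le_right _ _).trans (min_le_left _ _))
  have c6 : r < g := hrr.trans_le ((min_le_right _ _).trans (min_le_right _ _))
  have hw0 := pos0 hw c6
  have t1 := k1 r hr c1 w hw
  have t2 := k2 r hr c2 w hw
  have t3 := k3 r hr c3 w hw
  have t4 := k4 r hr c4 w hw
  have t5 := k5 r hr c5 w hw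
  have s1 : Λ {y} u w 0 ≤ Λ {y} u w w := hmon _ _ _ _ _ _ _ (Finset.Subset.refl _) le_rfl hw0
  have s2 : Λ {y, u} v w 0 ≤ Λ {y, u} v w w :=
    hmon _ _ _ _ _ _ _ (Finset.Subset.refl _) le_rfl hw0
  have s3 : Λ {y} v w 0 ≤ Λ {y} v w w := hmon _ _ _ _ _ _ _ (Finset.Subset.refl _) le_rfl hw0
  refine ⟨?_, ?_, by linarith⟩
  · rw [abs_le]
    constructor <;> linarith
  · rw [abs_le]
    constructor <;> linarith

end

/-- **The near digits of the pair of the places 1, 2** at a window, when their diagonals have the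
same slope larger than one. -/
def NvQ {n : ℕ} (_ : Unit) (_ : ℕ) (S : PCl n) (_ : List (Fin n) × Fin n → ℝ → ℝ → ℝ) (_ : ℝ)
    (c : ℕ → Fin n) (_ : ℝ → ℝ → ℝ) (_ : ℝ → ℝ) (L _ : ℕ → ℝ → ℝ → ℝ) (_ : ℕ → Kg) (_ : Set ℝ)
    (x : ℝ) : Prop :=
  ∀ Sl : ℝ, 1 < Sl → HasDerivAt (fun w => L 1 w w) Sl x → HasDerivAt (fun w => L 2 w w) Sl x →
    NvAt S (c 0) (c 1) (c 2) (fun w => L 1 w w) (fun w => L 2 w w) x

theorem her_nv (n : ℕ) : HerQ (NvQ : PropG n Unit) :=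
  fun _ _ _ _ _ _ _ _ _ _ _ _ _ _ hs h Sl h1 h2 h3 => (h Sl h1 h2 h3).sub hs

/-- **The property `NvQ` holds at almost every window**, in a subclass. -/
theorem aePG_nv {n : ℕ} (hn4 : 4 ≤ n) (hFn : ∀ k, 1 ≤ k → k ≤ 3 → FZX k) :
    AePG n (NvQ : PropG n Unit) := by
  intro hn S P r P' Λ PB PQ H hTop hF o G hG hGs
  obtain ⟨al, g₀, s, d', e', K₁, N₁, hal, hg₀, hC⟩ := H.cl
  have htm : TmC S 6 := Pool.GEN.N83.clx_tmc hC
  have hM : Bas S (fun J F A => (cnt F.p (ptr F J) A : ℝ) ≤ Real.exp ((4 * n + 1) * J)) :=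
    Bas.mono 0 hC.cnt fun J _ F A h => h J le_rfl
  have hB : ActB N₁ S (cc hn o.1.1 0) := by
    have h1 : cc hn o.1.1 0 = bse (o.1.1 ⟨0, by omega⟩) := cc_lt hn _ (by omega)
    rw [h1]
    exact hC.actb _ (o.1.2 _ rfl)
  obtain ⟨S', a1, a2, a3⟩ := nv_cls hFn hC.ne (by norm_num : (0 : ℝ) ≤ 6) htm hC.pos H.toPk.lam
    hal hg₀ hC.actm hB hM
  have ne : ∀ i j : ℕ, i < n → j < n → i ≠ j → cc hn o.1.1 i ≠ cc hn o.1.1 j :=
    fun i j hi hj hij h => hij (cc_inj' hn o.1.1 hi hj h)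
  refine ⟨S', a1, a2, ?_⟩
  filter_upwards [a3 (cc hn o.1.1 1) (cc hn o.1.1 2) (ne 0 1 (by omega) (by omega) (by norm_num))
    (ne 0 2 (by omega) (by omega) (by norm_num)) (ne 1 2 (by omega) (by omega) (by norm_num)),
    den2_ae G] with g h1 h2 hg κ _ p
  refine ⟨0, fun Sl hSl d1 d2 => ?_⟩
  have hP := gs_ptv H.toPk hTop hF hn4 hGs hg (h2 hg) hSl d1 d2
  refine (h1 _ _ _ hP).cong hP.d1.2 d1 hP.d1.1 hP.d2.2 d2 ?_
  show Λ {cc hn o.1.1 0, cc hn o.1.1 1} (cc hn o.1.1 2) g g = LvL hn P P' o 2 g g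
  rw [hP.d2.1]
  ring

end Pool.D2F2
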