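import Pool.Agent.H4.D2.Nvl
import Pool.Agent.H4.D2.Hcr

/-!
# Near digits of a pair at real windows

`fewc_pair`: the pair at a window of the numbers, with more digits at the cost of the digits.
`nv3_num`: the near digits at windows near those of the numbers, from inequalities between the
levels.
-/

set_option autoImplicit false

namespace Pool.D2F2

open Finset Real MvPolynomial
open Pool.Agent.H49.Ent Pool.Agent.H32.Dense Pool.STK Pool.KA Pool.KSAT Pool.K2S Pool.PB Pool.GEN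
open Pool.S6C Pool.LA91 Pool.RCD
open Pool.OWN17 (yF kn_yF)

variable {m : ℕ}

section

variable {S : PCl m} {C₀ : ℝ} {I : Finset (Fin m)} {ι k : Fin m} {G : Set ℚ} {s : ℝ}
  {U D : ℚ → ℝ} {α γ : ∀ J : ℕ, Fam m J → Type} {f : ∀ (J : ℕ) (F : Fam m J), F.Ω → α J F}
  {y : ∀ (J : ℕ) (F : Fam m J), F.Ω → γ J F} {lam : ℝ}

/-- **The pair over other charts with more digits**, at a window of the numbers. -/
theorem fewc_pair (htm : TmC S C₀)
    (hpos : ∀ (τ : ℝ) (J : ℕ) (F : Fam m J) (A : F.Ω → Prop), S.St τ J F A → 0 < Pe F.p A)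
    (hf : ∀ (J : ℕ) (F : Fam m J), ∃ φ : α J F → PtT F, ∀ ω, ptr F J ω = φ (f J F ω))
    (hy : Kn I 1 lam y) (H : WinG S I ι k G s U D) {o : ℚ} (ho : o ∈ G) {j : ℕ}
    {w₁ w₂ q₁ q₂ N₁ N p₁ p₂ M₁ M N₂ M₂ c₀ Δ : ℝ} (h1 : w₁ ≤ (o : ℝ) + s) (h2 : w₂ ≤ (o : ℝ) + s)
    (hΔ : Δ ≤ min p₁ p₂ - U o) (hN : N₂ ≤ N₁) (hM : M₂ ≤ M₁) (hNM : M₂ ≤ N₁ + Δ)
    (hlN : N₂ + j * ((o : ℝ) + s) < min q₁ q₂ + min lam (1 - ((o : ℝ) + s)))
    (hlM : M₂ + j * ((o : ℝ) + s) < min (min p₁ p₂) (q₁ + Δ) + min lam (1 - ((o : ℝ) + s)))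
    (hN2 : N₂ ≤ N) (hM2 : M₂ ≤ M) (hc₀ : 0 < c₀) :
    FewC S f (vg ((o : ℝ) + s)) y (qP m I ι k j w₁ q₁ N₁ p₁ M₁) (qP m I ι k j w₂ q₂ N p₂ M)
      (((N - N₂) + (M - M₂)) * Real.log 2) c₀ := by
  have w0 := H.w0 o ho
  have w1 := H.w1 o ho
  have hslo := H.slo o ho w₁ w₂ p₁ p₂ h1 h2
  have hd := Dig.prod (dig_jet (I := I) (k := ι) (j := j) (w := w₂) (p := q₂) hN2)
    (dig_qA (I := I) (ι := ι) (k := k) (j := j) (w := w₂) (p := p₂) hM2)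
  rw [← add_mul] at hd
  refine FewC.of hpos hc₀ (pair_few htm hpos hslo h1 h2 w1.le le_rfl w0.le w1 le_rfl (H.ful o ho)
    hf hy hN hM (hNM.trans (by linarith)) hlN (lt_of_lt_of_le hlM ?_)) hd
  have : min (min p₁ p₂) (q₁ + Δ) ≤ min (min p₁ p₂) (q₁ + (min p₁ p₂ - U o)) :=
    min_le_min le_rfl (by linarith)
  linarith

/-- The first coordinate of the pair with more digits. -/
theorem fewc_fst (htm : TmC S C₀)
    (hpos : ∀ (τ : ℝ) (J : ℕ) (F : Fam m J) (A : F.Ω → Prop), S.St τ J F A → 0 < Pe F.p A)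
    (hf : ∀ (J : ℕ) (F : Fam m J), ∃ φ : α J F → PtT F, ∀ ω, ptr F J ω = φ (f J F ω))
    (hy : Kn I 1 lam y) (H : WinG S I ι k G s U D) {o : ℚ} (ho : o ∈ G) {j : ℕ}
    {w q N₁ N p M₁ c₀ : ℝ} (h1 : w ≤ (o : ℝ) + s)
    (hlN : N₁ + j * ((o : ℝ) + s) < q + min lam (1 - ((o : ℝ) + s)))
    (hN : N₁ ≤ N) (hc₀ : 0 < c₀) :
    FewC S f (vg ((o : ℝ) + s)) y (qP m I ι k j w q N₁ p M₁) (qJet m I ι j w q N)
      ((N - N₁) * Real.log 2) c₀ := by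
  have w0 := H.w0 o ho
  have w1 := H.w1 o ho
  refine FewC.of hpos hc₀ (Few.fst hpos (few_jet (N₁ := N₁) (N₂ := N₁) htm h1 h1 w1.le le_rfl
    w0.le w1 le_rfl (H.ful o ho) hf hy le_rfl (by rw [min_self]; exact hlN))) (dig_jet hN)

/-- The second coordinate of the pair with more digits. -/
theorem fewc_snd (htm : TmC S C₀)
    (hpos : ∀ (τ : ℝ) (J : ℕ) (F : Fam m J) (A : F.Ω → Prop), S.St τ J F A → 0 < Pe F.p A)
    (hf : ∀ (J : ℕ) (F : Fam m J), ∃ φ : α J F → PtT F, ∀ ω, ptr F J ω = φ (f J F ω))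
    (hy : Kn I 1 lam y) (H : WinG S I ι k G s U D) {o : ℚ} (ho : o ∈ G) {j : ℕ}
    {w q N₁ p M₁ M₂ M c₀ : ℝ} (h1 : w ≤ (o : ℝ) + s) (hM : M₂ ≤ M₁)
    (hNM : M₂ ≤ N₁ + (p - U o))
    (hlM : M₂ + j * ((o : ℝ) + s) < min p (q + (p - U o)) + min lam (1 - ((o : ℝ) + s)))
    (hM2 : M₂ ≤ M) (hc₀ : 0 < c₀) :
    FewC S f (vg ((o : ℝ) + s)) y (qP m I ι k j w q N₁ p M₁) (qA m I ι k j w p M)
      ((M - M₂) * Real.log 2) c₀ := by
  have w0 := H.w0 o ho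
  have w1 := H.w1 o ho
  have hslo := H.slo o ho w w p p h1 h1
  rw [min_self] at hslo
  exact FewC.of hpos hc₀ (few_qA htm hslo h1 h1 h1 w1.le le_rfl w0.le w1 le_rfl (H.ful o ho)
    hf hy hM hNM (by rw [min_self]; exact hlM)) (dig_qA hM2)

/-- Nothing to prove when the number is not positive. -/
theorem nv3_triv {V₁ V₂ V₃ V₄ : Type}
    (hpos : ∀ (τ : ℝ) (J : ℕ) (F : Fam m J) (A : F.Ω → Prop), S.St τ J F A → 0 < Pe F.p A)
    {QA : Qt m V₁} {QB₁ : Qt m V₂} {QB₂ : Qt m V₃} {QD : Qt m V₄} {w j θ c1 c2 c₀ : ℝ}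
    (hc₀ : 0 < c₀) (hθ : θ ≤ 0) (h1 : 0 ≤ c1) (h2 : 0 ≤ c2) :
    Nv3 S f y QA QB₁ QB₂ QD w j θ c1 c2 c₀ := by
  refine ⟨1, one_pos, 1, one_pos, fun K => Bas.mono 0 (pos_bas hpos) ?_⟩
  intro J _ F A hA R₁ R₂ z zj hz hzj a b₁ b₂ d ha hb1 hb2 hd B hB hBc
  have hBp : 0 < Pe F.p B := lt_of_lt_of_le (mul_pos hc₀ hA) hBc
  have hcl := isLaw_cond F.isLaw hBp
  have hJ : (0 : ℝ) ≤ J := Nat.cast_nonneg J
  refine ⟨?_, ?_, ?_⟩
  · exact (mul_nonpos_of_nonpos_of_nonneg hθ hJ).trans (CH_nonneg hcl.nonneg _ _)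
  · exact (mul_nonpos_of_nonpos_of_nonneg (by linarith) hJ).trans (CH_nonneg hcl.nonneg _ _)
  · exact (mul_nonpos_of_nonpos_of_nonneg (by linarith) hJ).trans (CH_nonneg hcl.nonneg _ _)

/-- Other losses. -/
theorem Nv3.ch {V₁ V₂ V₃ V₄ : Type} {QA : Qt m V₁} {QB₁ : Qt m V₂} {QB₂ : Qt m V₃}
    {QD : Qt m V₄} {w j θ θ' c1 c2 c1' c2' c₀ : ℝ} (h : Nv3 S f y QA QB₁ QB₂ QD w j θ c1 c2 c₀)
    (hθ : θ' ≤ θ) (h1 : θ' - c1' ≤ θ - c1) (h2 : θ' - c2' ≤ θ - c2) :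
    Nv3 S f y QA QB₁ QB₂ QD w j θ' c1' c2' c₀ := by
  obtain ⟨k, hk, e, he, H⟩ := h
  refine ⟨k, hk, e, he, fun K => Bas.mono 0 (H K) ?_⟩
  intro J _ F A' H R₁ R₂ z zj hz hzj a b₁ b₂ d ha hb1 hb2 hd B' hB hBc
  have hJ : (0 : ℝ) ≤ J := Nat.cast_nonneg J
  obtain ⟨g1, g2, g3⟩ := H R₁ R₂ z zj hz hzj a b₁ b₂ d ha hb1 hb2 hd B' hB hBc
  exact ⟨(mul_le_mul_of_nonneg_right hθ hJ).trans g1, (mul_le_mul_of_nonneg_right h1 hJ).trans g2,
    (mul_le_mul_of_nonneg_right h2 hJ).trans g3⟩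

/-- **The near digits of a pair** at the windows `w ≤ j`, from the numbers at the windows
`w' ≤ j' < j'' ≤ l` of the class: inequalities between the levels. -/
theorem nv3_num (htm : TmC S C₀)
    (hpos : ∀ (τ : ℝ) (J : ℕ) (F : Fam m J) (A : F.Ω → Prop), S.St τ J F A → 0 < Pe F.p A)
    (hf : ∀ (J : ℕ) (F : Fam m J), ∃ φ : α J F → PtT F, ∀ ω, ptr F J ω = φ (f J F ω))
    (hy : Kn I 1 lam y) (H : WinG S I ι k G s U D) {w' j' j'' l g' : ℚ} (hw' : w' ∈ G)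
    (hj' : j' ∈ G) (hg' : g' + U w' ≤ D w')
    (rx : ∃ η, RNum S f (vg ((w' : ℝ) + s)) η) (rx' : ∃ η, RNum S f (vg ((j' : ℝ) + s)) η)
    {w j θ₀ q p Na Ma Nb Mb Nd Md c₀ e mm Δ : ℝ} (hc₀ : 0 < c₀) (he : 0 < e)
    (h : NrJ S f y (gX m I ι k s U g' w' j') (gX m I ι k s U g' w' j'')
      (gD m I ι k s U g' w' l) ((w' : ℝ) + s) ((j' : ℝ) + s) θ₀ c₀)
    (hwx : w ≤ (w' : ℝ) + s) (hjx : j ≤ (j' : ℝ) + s)
    (hmm : mm = min lam (1 - ((w' : ℝ) + s)))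
    (hΔ1 : Δ ≤ g') (hΔ2 : Δ ≤ p - U w')
    (a1 : U j' < min (U w') q + mm) (a2 : U j' + Δ < min (min (U w' + g') p) (U w' + Δ) + mm)
    (b1 : U j'' ≤ Nb) (b2 : U j'' + g' ≤ Mb) (b3 : U j'' + g' ≤ Nb + Δ)
    (b4 : U j'' < min q (U w') + mm) (b5 : U j'' + g' < min (min p (U w' + g')) (q + Δ) + mm)
    (d1 : Nd ≤ U l - (l + s)) (d2 : Md ≤ U l - (l + s) + Δ)
    (d3 : Nd + ((w' : ℝ) + s) < min (U w') q + mm)
    (d4 : Md + ((w' : ℝ) + s) < min (min (U w' + g') p) (U w' + Δ) + mm)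
    (f1 : Na < q + mm) (f2 : Na + (p - U w') < min p (q + (p - U w')) + mm) (n1 : Na ≤ Nb)
    (n2 : Ma ≤ Mb) :
    Nv3 S f y (qP m I ι k 0 w q Na p Ma) (qJet m I ι 0 w q Nb) (qA m I ι k 0 w p Mb)
      (qP m I ι k 1 w q Nd p Md) w j
      (θ₀ - ((Na - min Na (U j')) + (Ma - min Ma (U j' + Δ))) * Real.log 2 - e)
      ((Nb - Na) * Real.log 2) ((Mb - min Ma (Na + (p - U w'))) * Real.log 2) c₀ := by
  subst hmm
  have w0 := H.w0 w' hw'
  have w1 := H.w1 w' hw'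
  have xA : ∀ v : ℚ, Exs S (gX m I ι k s U g' w' v) := fun v => by
    rw [← gX_eq]
    exact exs_gP H (by norm_num) hw' hg'
  have xD : ∀ v : ℚ, Exs S (gD m I ι k s U g' w' v) := fun v => by
    rw [← gD_eq]
    exact exs_gP H le_rfl hw' hg'
  have hlog : 0 < Real.log 2 := Real.log_pos one_lt_two
  have m1 : Δ ≤ min (U w' + g') p - U w' := by
    have : U w' + Δ ≤ min (U w' + g') p := le_min (by linarith) (by linarith)
    linarith
  have m2 : Δ ≤ min p (U w' + g') - U w' := by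
    rw [min_comm]
    exact m1
  have fA : FewC S f (vg ((w' : ℝ) + s)) y (gX m I ι k s U g' w' j') (qP m I ι k 0 w q Na p Ma)
      (((Na - min Na (U j')) + (Ma - min Ma (U j' + Δ))) * Real.log 2) c₀ := by
    unfold gX
    refine fewc_pair htm hpos hf hy H hw' le_rfl hwx m1 (min_le_right _ _)
      ((min_le_right _ _).trans (by linarith)) (min_le_right _ _) ?_ ?_ (min_le_left _ _)
      (min_le_left _ _) hc₀
    · have : min Na (U j') ≤ U j' := min_le_right _ _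
      push_cast
      linarith
    · have : min Ma (U j' + Δ) ≤ U j' + Δ := min_le_right _ _
      push_cast
      linarith
  have fD : FewC S f (vg ((w' : ℝ) + s)) y (gD m I ι k s U g' w' l) (qP m I ι k 1 w q Nd p Md)
      0 c₀ := by
    have := fewc_pair (j := 1) (N := Nd) (M := Md) (q₁ := U w') (q₂ := q) (p₁ := U w' + g')
      (p₂ := p) (N₁ := U l - (l + s)) (M₁ := U l + g' - (l + s)) htm hpos hf hy H hw'
      (le_refl ((w' : ℝ) + s)) hwx m1 d1 (d2.trans (by linarith : U l - (l + s) + Δ ≤ U l + g' - (l + s))) d2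
      (by push_cast; linarith) (by push_cast; linarith) le_rfl le_rfl hc₀
    rw [sub_self, sub_self, add_zero, zero_mul] at this
    unfold gD
    exact this
  have fB : FewC S f (vg ((w' : ℝ) + s)) y ((qJet m I ι 0 w q Nb).prod (qA m I ι k 0 w p Mb))
      (gX m I ι k s U g' w' j'') 0 c₀ := by
    have := fewc_pair (j := 0) (N := U j'') (M := U j'' + g') (q₁ := q) (q₂ := U w')
      (p₁ := p) (p₂ := U w' + g') (N₁ := Nb) (M₁ := Mb) htm hpos hf hy H hw' hwx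
      (le_refl ((w' : ℝ) + s)) m2 b1 b2 b3 (by push_cast; linarith) (by push_cast; linarith)
      le_rfl le_rfl hc₀
    rw [sub_self, sub_self, add_zero, zero_mul] at this
    unfold gX
    exact this
  have f1' := fewc_fst (j := 0) (q := q) (p := p) (M₁ := Ma) (k := k) (N₁ := Na) (N := Nb) htm hpos hf hy H hw' hwx
    (by push_cast; linarith) n1 hc₀
  have f2' := fewc_snd (j := 0) (q := q) (N₁ := Na) (p := p) (M₁ := Ma) (M := Mb)
    (M₂ := min Ma (Na + (p - U w'))) htm hpos hf hy H hw' hwx (min_le_left _ _)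
    (min_le_right _ _) (by
      have : min Ma (Na + (p - U w')) ≤ Na + (p - U w') := min_le_right _ _
      push_cast
      linarith) ((min_le_left _ _).trans n2) hc₀
  have g := nv3_of hpos hc₀ hwx w1.le hjx (H.w1 j' hj').le h rx rx' (xA j') (xA j'') (xD l)
    fA fD fB f1' f2' he
  exact g.le (by linarith)

end

end Pool.D2F2
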