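import Pool.Agent.H4.D2.Nvr

/-!
# Near digits of a pair near a window

`NvAt`: the near digits of a pair at all real windows near `g`, up to a small multiple of the
radius. `nv_at`: from the numbers near `g` (`CrN`) when the two precisions have the same slope,
larger than one.
-/

set_option autoImplicit false

namespace Pool.D2F2

open Finset Real MvPolynomial
open Pool.Agent.H49.Ent Pool.Agent.H32.Dense Pool.STK Pool.KA Pool.KSAT Pool.K2S Pool.PB Pool.GEN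
open Pool.S6C Pool.LA91 Pool.RCD
open Pool.OWN17 (yF kn_yF)

variable {m : ℕ}

/-- **The near digits of the pair `u`, `v` over `y`** at the windows near `g`: `L₁` and `L₂` are the
precisions of the labels of `u` and of `v`, `κ` is the slack of the levels. -/
def NvAt (S : PCl m) (y u v : Fin m) (L₁ L₂ : ℝ → ℝ) (g : ℝ) : Prop :=
  ∀ C e κ : ℝ, 0 ≤ C → 0 < e → 0 < κ → κ < min e 1 / 16 → ∃ i₀ : ℕ, ∀ i ≥ i₀, ∃ ρ : ℝ, 0 < ρ ∧
    ∀ R : ℝ, 0 < R → R < ρ → ∀ w j : ℝ, g - R ≤ w → w ≤ j → j ≤ g + R →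
    ∀ q p Na Ma Nb Mb Nd Md : ℝ, L₁ w - C * R ≤ q → L₂ w - κ * R ≤ p → L₁ j ≤ Na + κ * R →
    L₂ j ≤ Ma + κ * R → Na ≤ Nb → Ma ≤ Mb → Nb ≤ L₁ w + C * R →
    |Mb - Nb - (L₂ w - L₁ w)| ≤ κ * R → Ma ≤ Na + (L₂ w - L₁ w) + κ * R →
    Nd + w ≤ L₁ w + C * R → Md + w ≤ L₂ w + C * R → ∀ c₀ : ℝ, 0 < c₀ →
    Nv3 S (fun J F => ptr F J) (fun J F => yF F y ⌊(1 / 2 : ℝ) ^ i * J⌋₊)
      (qP m {y} u v 0 w q Na p Ma) (qJet m {y} u 0 w q Nb) (qA m {y} u v 0 w p Mb)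
      (qP m {y} u v 1 w q Nd p Md) w j (((Nb - Na) + (Mb - Ma)) * Real.log 2 - e * R)
      ((Nb - Na) * Real.log 2) ((Mb - Ma) * Real.log 2) c₀

theorem NvAt.sub {S S' : PCl m} (hs : ∀ (τ : ℝ) (J : ℕ) (F : Fam m J) (A : F.Ω → Prop),
    S'.St τ J F A → S.St τ J F A) {y u v : Fin m} {L₁ L₂ : ℝ → ℝ} {g : ℝ}
    (h : NvAt S y u v L₁ L₂ g) : NvAt S' y u v L₁ L₂ g := by
  intro C e κ hC he hκ hκe
  obtain ⟨i₀, h⟩ := h C e κ hC he hκ hκe
  refine ⟨i₀, fun i hi => ?_⟩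
  obtain ⟨ρ, hρ, h⟩ := h i hi
  refine ⟨ρ, hρ, fun R a1 a2 w j a3 a4 a5 q p Na Ma Nb Mb Nd Md b1 b2 b3 b4 b5 b6 b7 b8 b9 d1 d2
    c₀ hc₀ => ?_⟩
  exact (h R a1 a2 w j a3 a4 a5 q p Na Ma Nb Mb Nd Md b1 b2 b3 b4 b5 b6 b7 b8 b9 d1 d2
    c₀ hc₀).sub hs

/-- The linear bound near a point with a derivative. -/
theorem lin_near {L : ℝ → ℝ} {Sl g : ℝ} (h : HasDerivAt L Sl g) {ε : ℝ} (hε : 0 < ε) :
    ∃ r₀ : ℝ, 0 < r₀ ∧ ∀ r : ℝ, 0 < r → r < r₀ → ∀ x : ℝ, |x - g| ≤ r →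
      |L x - (L g + Sl * (x - g))| ≤ ε * r := by
  have h1 := (hasDerivAt_iff_isLittleO.1 h).def hε
  obtain ⟨r₀, hr₀, h2⟩ := Metric.eventually_nhds_iff.1 h1
  refine ⟨r₀, hr₀, fun r hr hrr x hx => ?_⟩
  have h3 := h2 (y := x) (by
    rw [Real.dist_eq]
    linarith)
  rw [Real.norm_eq_abs, Real.norm_eq_abs, smul_eq_mul] at h3
  have h4 : L x - L g - (x - g) * Sl = L x - (L g + Sl * (x - g)) := by ring
  rw [h4] at h3
  exact h3.trans (mul_le_mul_of_nonneg_left hx hε.le)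

/-- **Near digits of a pair near a window**, from the numbers. -/
theorem nv_at {S : PCl m} {C₀ : ℝ} (htm : TmC S C₀)
    (hpos : ∀ (τ : ℝ) (J : ℕ) (F : Fam m J) (A : F.Ω → Prop), S.St τ J F A → 0 < Pe F.p A)
    {y u v : Fin m} {s : ℝ} {U D : ℚ → ℝ} {A B g Sl : ℝ} {L₁ L₂ : ℝ → ℝ}
    (hW : WinG S {y} u v {q : ℚ | A < q ∧ (q : ℝ) < B} s U D)
    (hR : ∀ q : ℚ, A < q → (q : ℝ) < B →
      ∃ η, RNum S (fun J F => ptr F J) (vg ((q : ℝ) + s)) η)
    (hU : ∀ q : ℚ, A < q → (q : ℝ) < B → U q = L₁ ((q : ℝ) + s))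
    (hD : ∀ q : ℚ, A < q → (q : ℝ) < B → D q = L₂ ((q : ℝ) + s))
    (hA : A < g - s) (hB : g - s < B) (g1 : g < 1) (hSl : 1 < Sl) (h1 : HasDerivAt L₁ Sl g)
    (h2 : HasDerivAt L₂ Sl g) (hC : CrN S y u v s U (g - s) (L₂ g - L₁ g) Sl) :
    NvAt S y u v L₁ L₂ g := by
  intro C e κ hC0 he hκ0 hκe
  obtain ⟨e1, he1, he1e, he11, hκ1⟩ : ∃ e1 : ℝ, 0 < e1 ∧ e1 ≤ e ∧ e1 ≤ 1 ∧ κ ≤ e1 / 16 :=
    ⟨min e 1, lt_min he one_pos, min_le_left _ _, min_le_right _ _, hκe.le⟩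
  obtain ⟨a, ha⟩ : ∃ a : ℝ, a = (C + 2) / (Sl - 1) := ⟨_, rfl⟩
  have hSl1 : 0 < Sl - 1 := by linarith
  have ha0 : 0 < a := by
    rw [ha]
    exact div_pos (by linarith) hSl1
  have ha' : a * (Sl - 1) = C + 2 := by
    rw [ha]
    exact div_mul_cancel₀ _ hSl1.ne'
  obtain ⟨T, hT⟩ : ∃ T : ℝ, T = a + 3 := ⟨_, rfl⟩
  have hT0 : 0 < T := by rw [hT]; linarith
  obtain ⟨e', he'⟩ : ∃ e' : ℝ, e' = e1 / (1000 * T) := ⟨_, rfl⟩
  have he'0 : 0 < e' := by rw [he']; positivity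
  obtain ⟨i₀, hC⟩ := hC e' he'0
  refine ⟨i₀, fun i hi => ?_⟩
  obtain ⟨r₀, hr₀, hC⟩ := hC i hi
  obtain ⟨r₁, hr₁, k1⟩ := lin_near h1 (ε := e' / 100) (by positivity)
  obtain ⟨r₂, hr₂, k2⟩ := lin_near h2 (ε := e' / 100) (by positivity)
  obtain ⟨M0, hM0⟩ : ∃ M0 : ℝ, M0 = min ((1 / 2 : ℝ) ^ i) ((1 - g) / 2) := ⟨_, rfl⟩
  have hM00 : 0 < M0 := by
    rw [hM0]
    exact lt_min (by positivity) (by linarith)
  obtain ⟨d, hd0, hd1, hd2, hd3, hd4, hd5, hd6⟩ : ∃ d : ℝ, 0 < d ∧ d ≤ r₀ ∧ d ≤ r₁ ∧ d ≤ r₂ ∧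
      d ≤ g - s - A ∧ d ≤ B - (g - s) ∧ d ≤ (1 - g) / 2 := by
    refine ⟨min (min (min r₀ r₁) (min r₂ (g - s - A))) (min (B - (g - s)) ((1 - g) / 2)),
      lt_min (lt_min (lt_min hr₀ hr₁) (lt_min hr₂ (by linarith)))
        (lt_min (by linarith) (by linarith)), ?_, ?_, ?_, ?_, ?_, ?_⟩
    · exact (min_le_left _ _).trans ((min_le_left _ _).trans (min_le_left _ _))
    · exact (min_le_left _ _).trans ((min_le_left _ _).trans (min_le_right _ _))
    · exact (min_le_left _ _).trans ((min_le_right _ _).trans (min_le_left _ _))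
    · exact (min_le_left _ _).trans ((min_le_right _ _).trans (min_le_right _ _))
    · exact (min_le_right _ _).trans (min_le_left _ _)
    · exact (min_le_right _ _).trans (min_le_right _ _)
  obtain ⟨Q, hQ⟩ : ∃ Q : ℝ, Q = 4 * Sl + 2 * C + 10 := ⟨_, rfl⟩
  have hQ0 : 0 < Q := by rw [hQ]; linarith
  refine ⟨min (d / T) (M0 / Q), lt_min (by positivity) (by positivity), ?_⟩
  intro R hR0 hRr w j hw hwj hj q p Na Ma Nb Mb Nd Md c1 c2 c3 c4 c5 c6 c7 c8 c9 c10 c11 c₀ hc₀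
  have hTR : T * R < d := by
    have : R < d / T := lt_of_lt_of_le hRr (min_le_left _ _)
    rw [lt_div_iff₀ hT0] at this
    linarith
  have hQR : Q * R < M0 := by
    have : R < M0 / Q := lt_of_lt_of_le hRr (min_le_right _ _)
    rw [lt_div_iff₀ hQ0] at this
    linarith
  obtain ⟨η, hη⟩ : ∃ η : ℝ, η = e1 * R / 100000 := ⟨_, rfl⟩
  have hη0 : 0 < η := by rw [hη]; positivity
  have hηR : 100000 * η ≤ R := by
    rw [hη]
    have := mul_le_mul_of_nonneg_right he11 hR0.le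
    linarith
  have hκ : κ * R ≤ 6250 * η := by
    have h5 : e1 / 16 * R = 6250 * η := by rw [hη]; ring
    rw [← h5]
    exact mul_le_mul_of_nonneg_right hκ1 hR0.le
  have heR : 100000 * η ≤ e * R := by
    rw [hη]
    have := mul_le_mul_of_nonneg_right he1e hR0.le
    linarith
  have hTR0 : 0 < T * R := mul_pos hT0 hR0
  have he'r : e' * (T * R) = 100 * η := by
    rw [he', hη]
    field_simp
    ring
  have hεr : e' / 100 * (T * R) = η := by
    have : e' / 100 * (T * R) = e' * (T * R) / 100 := by ring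
    rw [this, he'r]
    ring
  obtain ⟨c8, c8'⟩ := abs_le.1 (c8.trans hκ)
  replace c2 : L₂ w - 6250 * η ≤ p := by linarith
  replace c3 : L₁ j ≤ Na + 6250 * η := by linarith
  replace c4 : L₂ j ≤ Ma + 6250 * η := by linarith
  replace c9 : Ma ≤ Na + (L₂ w - L₁ w) + 6250 * η := by linarith
  -- the precisions near the window
  have k1' : ∀ x : ℝ, |x - g| ≤ T * R → L₁ g + Sl * (x - g) - η ≤ L₁ x ∧
      L₁ x ≤ L₁ g + Sl * (x - g) + η := fun x hx => by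
    have := k1 (T * R) hTR0 (by linarith) x hx
    rw [hεr] at this
    obtain ⟨h3, h4⟩ := abs_le.1 this
    constructor <;> linarith
  have k2' : ∀ x : ℝ, |x - g| ≤ T * R → L₂ g + Sl * (x - g) - η ≤ L₂ x ∧
      L₂ x ≤ L₂ g + Sl * (x - g) + η := fun x hx => by
    have := k2 (T * R) hTR0 (by linarith) x hx
    rw [hεr] at this
    obtain ⟨h3, h4⟩ := abs_le.1 this
    constructor <;> linarith
  have hTR' : T * R = a * R + 3 * R := by rw [hT]; ring
  have haR0 : 0 < a * R := mul_pos ha0 hR0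
  have haSR : Sl * (a * R) = C * R + 2 * R + a * R := by
    have : Sl * (a * R) = a * (Sl - 1) * R + a * R := by ring
    rw [this, ha']
    ring
  have hCR0 : 0 ≤ C * R := mul_nonneg hC0 hR0.le
  -- the small step
  obtain ⟨δ, hδ⟩ : ∃ δ : ℝ, δ = η / Sl := ⟨_, rfl⟩
  have hSl0 : 0 < Sl := by linarith
  have hδ0 : 0 < δ := by rw [hδ]; positivity
  have hSδ : Sl * δ = η := by rw [hδ]; exact mul_div_cancel₀ _ hSl0.ne'
  have hδη : δ ≤ η := by
    rw [← hSδ]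
    exact le_mul_of_one_le_left hδ0.le hSl.le
  have smul : ∀ {x x' : ℝ}, x ≤ x' → Sl * x ≤ Sl * x' := fun h =>
    mul_le_mul_of_nonneg_left h hSl0.le
  have hww := k1' w (by rw [abs_le]; constructor <;> linarith)
  have hww2 := k2' w (by rw [abs_le]; constructor <;> linarith)
  have hjj := k1' j (by rw [abs_le]; constructor <;> linarith)
  have hjj2 := k2' j (by rw [abs_le]; constructor <;> linarith)
  obtain ⟨w', hw1, hw2⟩ := exists_rat_btwn (by linarith : w - s < w - s + δ)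
  obtain ⟨j', hj1, hj2⟩ := exists_rat_btwn
    (max_lt (by linarith) (by linarith) : max (w' : ℝ) (j - s) < j - s + δ)
  have hj3 : (w' : ℝ) < j' := lt_of_le_of_lt (le_max_left _ _) hj1
  have hj4 : j - s < j' := lt_of_le_of_lt (le_max_right _ _) hj1
  have hGw : A < (w' : ℝ) ∧ (w' : ℝ) < B := ⟨by linarith, by linarith⟩
  have hGj : A < (j' : ℝ) ∧ (j' : ℝ) < B := ⟨by linarith, by linarith⟩
  have hw'1 := k1' ((w' : ℝ) + s) (by rw [abs_le]; constructor <;> linarith)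
  have hw'2 := k2' ((w' : ℝ) + s) (by rw [abs_le]; constructor <;> linarith)
  have hj'1 := k1' ((j' : ℝ) + s) (by rw [abs_le]; constructor <;> linarith)
  rw [← hU w' hGw.1 hGw.2] at hw'1
  rw [← hD w' hGw.1 hGw.2] at hw'2
  rw [← hU j' hGj.1 hGj.2] at hj'1
  have s1 : Sl * (w - g) ≤ Sl * ((w' : ℝ) + s - g) := smul (by linarith)
  have s2 : Sl * ((w' : ℝ) + s - g) ≤ Sl * (w - g) + η := by
    have : Sl * ((w' : ℝ) + s - g) ≤ Sl * (w - g + δ) := smul (by linarith)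
    rw [mul_add, hSδ] at this
    exact this
  have s3 : Sl * (j - g) ≤ Sl * ((j' : ℝ) + s - g) := smul (by linarith)
  have s4 : Sl * ((j' : ℝ) + s - g) ≤ Sl * (j - g) + η := by
    have : Sl * ((j' : ℝ) + s - g) ≤ Sl * (j - g + δ) := smul (by linarith)
    rw [mul_add, hSδ] at this
    exact this
  have s5 : Sl * (j - g) ≤ Sl * R := smul (by linarith)
  have s6 : -(Sl * R) ≤ Sl * (w - g) := by
    have : Sl * (-R) ≤ Sl * (w - g) := smul (by linarith)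
    linarith
  have s7 : Sl * (w - g) ≤ Sl * (j - g) := smul (by linarith)
  have hSR0 : 0 < Sl * R := mul_pos hSl0 hR0
  have hl0 : 0 < Real.log 2 := Real.log_pos one_lt_two
  have hl1 : Real.log 2 ≤ 7 / 10 := by
    have := Real.log_two_lt_d9
    linarith
  obtain ⟨φ, hφ⟩ : ∃ φ : ℝ, φ = L₂ g - L₁ g := ⟨_, rfl⟩
  have hφ' : L₂ g = L₁ g + φ := by rw [hφ]; ring
  rw [hφ'] at k2' hww2 hjj2 hw'2
  rw [← hφ] at hC
  obtain ⟨t, ht⟩ : ∃ t : ℝ, t = g + (Nb - 12505 * η - L₁ g) / Sl := ⟨_, rfl⟩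
  have hSt : Sl * (t - g) = Nb - 12505 * η - L₁ g := by
    rw [ht, add_sub_cancel_left]
    exact mul_div_cancel₀ _ hSl0.ne'
  rcases le_or_gt (t - s) (j' : ℝ) with hcase | hcase
  · -- nothing to prove
    have s8 : Sl * (t - g) ≤ Sl * ((j' : ℝ) + s - g) := smul (by linarith)
    refine nv3_triv hpos hc₀ ?_ (mul_nonneg (by linarith) hl0.le)
      (mul_nonneg (by linarith) hl0.le)
    have s9 : (Nb - Na) + (Mb - Ma) ≤ 50000 * η := by linarith [hww.1, hww2.2, hjj.2, hjj2.1]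
    have s10 := mul_le_mul_of_nonneg_right s9 hl0.le
    have s11 := mul_le_mul_of_nonneg_left hl1 (by positivity : 0 ≤ 50000 * η)
    linarith
  obtain ⟨j'', hp1, hp2⟩ := exists_rat_btwn
    (max_lt hcase (by linarith) : max (j' : ℝ) (t - s - δ) < t - s)
  have hp3 : (j' : ℝ) < j'' := lt_of_le_of_lt (le_max_left _ _) hp1
  have hp4 : t - s - δ < j'' := lt_of_le_of_lt (le_max_right _ _) hp1
  have htw : t ≤ w + a * R := by
    by_contra hcon
    push Not at hcon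
    have : Sl * (w + a * R - g) ≤ Sl * (t - g) := smul (by linarith)
    have h5 : Sl * (w + a * R - g) = Sl * (w - g) + Sl * (a * R) := by ring
    rw [h5, haSR, hSt] at this
    linarith [hww.2]
  obtain ⟨l, hl2, hl3⟩ := exists_rat_btwn (by linarith : w + a * R - s < w + a * R - s + δ)
  have hGp : A < (j'' : ℝ) ∧ (j'' : ℝ) < B := ⟨by linarith, by linarith⟩
  have hGl : A < (l : ℝ) ∧ (l : ℝ) < B := ⟨by linarith, by linarith⟩
  have hp'1 := k1' ((j'' : ℝ) + s) (by rw [abs_le]; constructor <;> linarith)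
  have hl'1 := k1' ((l : ℝ) + s) (by rw [abs_le]; constructor <;> linarith)
  rw [← hU j'' hGp.1 hGp.2] at hp'1
  rw [← hU l hGl.1 hGl.2] at hl'1
  have s12 : Sl * ((j'' : ℝ) + s - g) ≤ Nb - 12505 * η - L₁ g := by
    rw [← hSt]
    exact smul (by linarith)
  have s13 : Nb - 12505 * η - L₁ g - η ≤ Sl * ((j'' : ℝ) + s - g) := by
    have : Sl * (t - g - δ) ≤ Sl * ((j'' : ℝ) + s - g) := smul (by linarith)
    rw [mul_sub, hSδ, hSt] at this
    exact this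
  have s14 : Sl * (w - g) + (C * R + 2 * R + a * R) ≤ Sl * ((l : ℝ) + s - g) := by
    have h5 : Sl * (w - g) + Sl * (a * R) = Sl * (w + a * R - g) := by ring
    rw [← haSR, h5]
    exact smul (by linarith)
  have hlu : Sl * ((l : ℝ) + s - g) - ((l : ℝ) + s) ≥ Sl * (w - g) - w + (C * R + 2 * R) := by
    have h5 : (Sl - 1) * (w + a * R) ≤ (Sl - 1) * ((l : ℝ) + s) :=
      mul_le_mul_of_nonneg_left (by linarith) hSl1.le
    have h6 : (Sl - 1) * (w + a * R) = Sl * w - w + (C * R + 2 * R) := by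
      have : (Sl - 1) * (w + a * R) = Sl * w - w + a * (Sl - 1) * R := by ring
      rw [this, ha']
      ring
    rw [h6] at h5
    linarith
  obtain ⟨g', hg1, hg2⟩ := exists_rat_btwn
    (by linarith : φ - 100 * η < φ - 25 * η)
  obtain ⟨Δ, hΔ⟩ : ∃ Δ : ℝ, Δ = min (g' : ℝ) (p - U w') := ⟨_, rfl⟩
  have hΔ1 : Δ ≤ g' := by rw [hΔ]; exact min_le_left _ _
  have hΔ2 : Δ ≤ p - U w' := by rw [hΔ]; exact min_le_right _ _
  have hΔ3 : φ - 6253 * η ≤ Δ := by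
    rw [hΔ]
    exact le_min (by linarith) (by linarith [hww2.1, hw'1.2])
  have hΔ4 : Δ ≤ φ := by linarith
  have hmm : Q * R < min ((1 / 2 : ℝ) ^ i) (1 - ((w' : ℝ) + s)) := by
    refine lt_of_lt_of_le hQR ?_
    rw [hM0]
    exact min_le_min le_rfl (by linarith)
  obtain ⟨mm, hmm'⟩ : ∃ mm : ℝ, mm = min ((1 / 2 : ℝ) ^ i) (1 - ((w' : ℝ) + s)) := ⟨_, rfl⟩
  rw [← hmm'] at hmm
  have hQR' : Q * R = 4 * (Sl * R) + 2 * (C * R) + 10 * R := by rw [hQ]; ring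
  rw [hQR'] at hmm
  -- the numbers
  have hnr := hC (T * R) hTR0 (by linarith) w' j' j'' l (by linarith)
    (by exact_mod_cast hj3.le) (by exact_mod_cast hp3)
    (by
      have : (j'' : ℝ) ≤ l := by linarith
      exact_mod_cast this) (by linarith) g' (by rw [he'r]; linarith)
    (by
      have : e' / 4 * (T * R) = 25 * η := by
        have h6 : e' / 4 * (T * R) = e' * (T * R) / 4 := by ring
        rw [h6, he'r]
        ring
      rw [this]
      linarith) c₀ hc₀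
  rw [he'r] at hnr
  have hu1 := hw'1.1
  have hu2 := hw'1.2
  have hu3 := hj'1.1
  have hu4 := hj'1.2
  have hu5 := hp'1.1
  have hu6 := hp'1.2
  have hu7 := hl'1.1
  have hv1 := hww.1
  have hv2 := hww.2
  have hv3 := hww2.1
  have hv4 := hww2.2
  have key := nv3_num (I := {y}) (ι := u) (k := v) (w := w) (j := j) (q := q) (p := p) (Na := Na)
    (Ma := Ma) (Nb := Nb) (Mb := Mb) (Nd := Nd) (Md := Md) (Δ := Δ) (j'' := j'') (l := l)
    (g' := g') (f := fun J F => ptr F J)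
    (y := fun J F => yF F y ⌊(1 / 2 : ℝ) ^ i * J⌋₊) htm hpos (fun J F => ⟨id, fun _ => rfl⟩)
    (kn_yF y ((1 / 2 : ℝ) ^ i)) hW (w' := w') (j' := j') hGw hGj (by linarith [hw'2.1])
    (hR w' hGw.1 hGw.2) (hR j' hGj.1 hGj.2) hc₀ hη0 hnr (by linarith) (by linarith) hmm' hΔ1 hΔ2
    (by
      rw [← sub_lt_iff_lt_add, lt_min_iff]
      constructor <;> linarith)
    (by
      rw [← sub_lt_iff_lt_add, lt_min_iff, lt_min_iff]
      refine ⟨⟨?_, ?_⟩, ?_⟩ <;> linarith)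
    (by linarith) (by linarith) (by linarith)
    (by
      rw [← sub_lt_iff_lt_add, lt_min_iff]
      constructor <;> linarith)
    (by
      rw [← sub_lt_iff_lt_add, lt_min_iff, lt_min_iff]
      refine ⟨⟨?_, ?_⟩, ?_⟩ <;> linarith)
    (by linarith) (by linarith)
    (by
      rw [← sub_lt_iff_lt_add, lt_min_iff]
      constructor <;> linarith)
    (by
      rw [← sub_lt_iff_lt_add, lt_min_iff, lt_min_iff]
      refine ⟨⟨?_, ?_⟩, ?_⟩ <;> linarith)
    (by linarith)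
    (by
      rw [← sub_lt_iff_lt_add, lt_min_iff]
      constructor <;> linarith) c5 c6
  -- the losses
  have hsj : U j'' - U j' - 2 * η ≤ Sl * ((j'' : ℝ) - j') := by
    have : Sl * ((j'' : ℝ) - j') = Sl * ((j'' : ℝ) + s - g) - Sl * ((j' : ℝ) + s - g) := by ring
    rw [this]
    linarith
  have hm1 : U j' - 6253 * η ≤ min Na (U j') := le_min (by linarith [hjj.1]) (by linarith)
  have hm2 : U j' + φ - 12506 * η ≤ min Ma (U j' + Δ) :=
    le_min (by linarith [hjj2.1]) (by linarith)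
  have hm3 : Ma - 12505 * η ≤ min Ma (Na + (p - U w')) := le_min (by linarith) (by linarith)
  have hloss : (Nb - Na) + (Mb - Ma) - 50029 * η ≤ 2 * (Sl * ((j'' : ℝ) - j')) -
      ((Na - min Na (U j')) + (Ma - min Ma (U j' + Δ))) := by linarith
  have l1 := mul_le_mul_of_nonneg_right hloss hl0.le
  have l2 := mul_le_mul_of_nonneg_left hl1 (by positivity : 0 ≤ 50029 * η)
  have l3 := mul_le_mul_of_nonneg_right hm3 hl0.le
  have l4 := mul_le_mul_of_nonneg_left hl1 (by positivity : 0 ≤ 12505 * η)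
  refine key.ch ?_ ?_ ?_ <;> linarith

end Pool.D2F2
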