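import Mathlib

/-!
# Kernel vectors, and polynomials of one variable on the unit interval
-/

set_option autoImplicit false

namespace Pool.D2P

open Finset

/-- `m + 1` vectors of length `m` have a relation with all coefficients at most one in absolute value
and one coefficient equal to one. -/
theorem ker_vec {m : ℕ} (M : Fin (m + 1) → Fin m → ℝ) :
    ∃ ν : Fin (m + 1) → ℝ, ∃ j, ν j = 1 ∧ (∀ k, |ν k| ≤ 1) ∧ ∀ i, ∑ k, ν k * M k i = 0 := by
  obtain ⟨f, hf⟩ : ∃ f : (Fin (m + 1) → ℝ) →ₗ[ℝ] (Fin m → ℝ), f = Fintype.linearCombination ℝ M :=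
    ⟨_, rfl⟩
  have h1 : LinearMap.ker f ≠ ⊥ := LinearMap.ker_ne_bot_of_finrank_lt (by simp)
  obtain ⟨x, hx, hx0⟩ := (Submodule.ne_bot_iff _).mp h1
  obtain ⟨j, _, hj⟩ := Finset.exists_max_image (univ : Finset (Fin (m + 1))) (fun k => |x k|)
    ⟨0, Finset.mem_univ _⟩
  have hxj : x j ≠ 0 := by
    intro h0
    apply hx0
    funext k
    have := hj k (Finset.mem_univ _)
    rw [h0, abs_zero] at this
    exact abs_nonpos_iff.mp this
  refine ⟨fun k => x k / x j, j, div_self hxj, fun k => ?_, fun i => ?_⟩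
  · rw [abs_div, div_le_one (abs_pos.mpr hxj)]
    exact hj k (Finset.mem_univ _)
  · have h2 : f x i = 0 := by
      rw [LinearMap.mem_ker.mp hx]
      rfl
    rw [hf, Fintype.linearCombination_apply, Finset.sum_apply] at h2
    have h3 : ∑ k, x k / x j * M k i = (∑ k, (x k • M k) i) / x j := by
      rw [Finset.sum_div]
      refine Finset.sum_congr rfl fun k _ => ?_
      rw [Pi.smul_apply, smul_eq_mul]
      ring
    rw [h3, h2, zero_div]

/-- Second order expansion of a power. -/
theorem pow_two {x y : ℝ} (hx : |x| ≤ 1) (hy : |y| ≤ 1) (n : ℕ) :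
    |y ^ n - x ^ n - n * x ^ (n - 1) * (y - x)| ≤ n ^ 2 * (y - x) ^ 2 := by
  induction n with
  | zero => simp
  | succ n ih =>
    rcases Nat.eq_zero_or_pos n with h0 | h0
    · subst h0
      simp only [zero_add, pow_one, Nat.cast_one, Nat.sub_self, pow_zero, one_mul, sub_self, abs_zero]
      positivity
    · have e1 : y ^ (n + 1) - x ^ (n + 1) - ((n + 1 : ℕ) : ℝ) * x ^ (n + 1 - 1) * (y - x) =
          y * (y ^ n - x ^ n - n * x ^ (n - 1) * (y - x)) + n * x ^ (n - 1) * (y - x) ^ 2 := by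
        have e2 : x ^ n = x ^ (n - 1) * x := by
          rw [← pow_succ]
          congr 1
          omega
        rw [Nat.add_sub_cancel, pow_succ, pow_succ, e2]
        push_cast
        ring
      rw [e1]
      refine (abs_add_le _ _).trans ?_
      have h1 : |y * (y ^ n - x ^ n - n * x ^ (n - 1) * (y - x))| ≤ n ^ 2 * (y - x) ^ 2 := by
        rw [abs_mul]
        exact (mul_le_mul hy ih (abs_nonneg _) zero_le_one).trans (by rw [one_mul])
      have h2 : |n * x ^ (n - 1) * (y - x) ^ 2| ≤ n * (y - x) ^ 2 := by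
        rw [abs_mul, abs_mul, Nat.abs_cast, abs_pow, abs_of_nonneg (sq_nonneg (y - x))]
        refine mul_le_mul_of_nonneg_right ?_ (sq_nonneg _)
        have := pow_le_one₀ (n := n - 1) (abs_nonneg x) hx
        have hn : (0 : ℝ) ≤ n := Nat.cast_nonneg n
        nlinarith
      have h3 : ((n : ℝ) ^ 2 + n) * (y - x) ^ 2 ≤ ((n + 1 : ℕ) : ℝ) ^ 2 * (y - x) ^ 2 := by
        refine mul_le_mul_of_nonneg_right ?_ (sq_nonneg _)
        push_cast
        have hn : (0 : ℝ) ≤ n := Nat.cast_nonneg n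
        nlinarith
      linarith

open Polynomial

/-- Second order expansion of a polynomial with bounded coefficients. -/
theorem poly_two {D : ℕ} {B : ℝ} {f : ℝ[X]} (hf : f.natDegree ≤ D) (hB : ∀ n, |f.coeff n| ≤ B)
    {x y : ℝ} (hx : |x| ≤ 1) (hy : |y| ≤ 1) :
    |f.eval y - f.eval x - (derivative f).eval x * (y - x)| ≤ B * (D + 1) ^ 3 * (y - x) ^ 2 := by
  have hB0 : 0 ≤ B := (abs_nonneg _).trans (hB 0)
  have h1 := Polynomial.eval_eq_sum_range' (Nat.lt_succ_of_le hf) y
  have h2 := Polynomial.eval_eq_sum_range' (Nat.lt_succ_of_le hf) x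
  have h3 : (derivative f).eval x = ∑ n ∈ range D.succ, f.coeff n * (n * x ^ (n - 1)) := by
    have h4 : derivative f = ∑ n ∈ range D.succ, C (f.coeff n * n) * X ^ (n - 1) := by
      conv_lhs => rw [Polynomial.as_sum_range' f D.succ (Nat.lt_succ_of_le hf)]
      rw [Polynomial.derivative_sum]
      refine Finset.sum_congr rfl fun n _ => ?_
      rw [Polynomial.derivative_monomial, Polynomial.C_mul_X_pow_eq_monomial]
    rw [h4, Polynomial.eval_finsetSum]
    refine Finset.sum_congr rfl fun n _ => ?_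
    rw [eval_mul, eval_C, eval_pow, eval_X]
    ring
  rw [h1, h2, h3, Finset.sum_mul, ← Finset.sum_sub_distrib, ← Finset.sum_sub_distrib]
  refine (Finset.abs_sum_le_sum_abs _ _).trans ?_
  have h4 : ∀ n ∈ range D.succ, |f.coeff n * y ^ n - f.coeff n * x ^ n -
      f.coeff n * (n * x ^ (n - 1)) * (y - x)| ≤ B * (D + 1) ^ 2 * (y - x) ^ 2 := by
    intro n hn
    have e1 : f.coeff n * y ^ n - f.coeff n * x ^ n - f.coeff n * (n * x ^ (n - 1)) * (y - x) =
        f.coeff n * (y ^ n - x ^ n - n * x ^ (n - 1) * (y - x)) := by ring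
    rw [e1, abs_mul]
    refine (mul_le_mul (hB n) ((pow_two hx hy n).trans (?_ : _ ≤ (D + 1 : ℝ) ^ 2 * (y - x) ^ 2))
      (abs_nonneg _) hB0).trans (le_of_eq (by ring))
    refine mul_le_mul_of_nonneg_right ?_ (sq_nonneg _)
    refine pow_le_pow_left₀ (Nat.cast_nonneg n) ?_ 2
    have := Finset.mem_range.mp hn
    have h5 : (n : ℝ) ≤ D := by exact_mod_cast Nat.lt_succ_iff.mp this
    linarith
  refine (Finset.sum_le_sum h4).trans (le_of_eq ?_)
  rw [Finset.sum_const, Finset.card_range, nsmul_eq_mul]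
  push_cast
  ring

/-- The derivative of a polynomial with bounded coefficients. -/
theorem poly_der {D : ℕ} {B : ℝ} {f : ℝ[X]} (hf : f.natDegree ≤ D) (hB : ∀ n, |f.coeff n| ≤ B)
    {x : ℝ} (hx : |x| ≤ 1) : |(derivative f).eval x| ≤ B * (D + 1) ^ 2 := by
  have hB0 : 0 ≤ B := (abs_nonneg _).trans (hB 0)
  have h5 : (derivative f).natDegree < D.succ :=
    (Polynomial.natDegree_derivative_le f).trans_lt (by omega)
  rw [Polynomial.eval_eq_sum_range' h5 x]
  refine (Finset.abs_sum_le_sum_abs _ _).trans ?_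
  have h4 : ∀ n ∈ range D.succ, |(derivative f).coeff n * x ^ n| ≤ B * (D + 1) := by
    intro n hn
    rw [abs_mul, abs_pow, Polynomial.coeff_derivative, abs_mul]
    have h6 := pow_le_one₀ (n := n) (abs_nonneg x) hx
    have h7 : |((n : ℝ) + 1)| ≤ D + 1 := by
      rw [abs_of_nonneg (by positivity)]
      have := Finset.mem_range.mp hn
      have h5 : (n : ℝ) ≤ D := by exact_mod_cast Nat.lt_succ_iff.mp this
      linarith
    have h8 := mul_le_mul (hB (n + 1)) h7 (abs_nonneg _) hB0
    have h9 := mul_le_mul h8 h6 (pow_nonneg (abs_nonneg x) n) (by positivity)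
    linarith
  refine (Finset.sum_le_sum h4).trans (le_of_eq ?_)
  rw [Finset.sum_const, Finset.card_range, nsmul_eq_mul]
  push_cast
  ring

/-- A polynomial which is not nearly constant: the derivative of `(t - X) G` is not nearly constant. -/
theorem cof_big {d : ℕ} {G : ℝ[X]} (hG : G.natDegree ≤ d) {t ε : ℝ} (ht : |t| ≤ 1) (hε : 0 < ε)
    (h : ∃ r, 1 ≤ r ∧ ε ≤ |G.coeff r|) :
    ∃ j, 1 ≤ j ∧ ε / (d + 1) ≤ |(derivative ((C t - X) * G)).coeff j| := by
  by_contra hcon
  push Not at hcon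
  obtain ⟨κ, hκ⟩ : ∃ κ, κ = ε / (d + 1) := ⟨_, rfl⟩
  rw [← hκ] at hcon
  have hκ0 : 0 < κ := by rw [hκ]; positivity
  have h1 : ∀ r, 1 ≤ r → |t * G.coeff (r + 1) - G.coeff r| < κ := by
    intro r hr
    have h2 := hcon r hr
    rw [Polynomial.coeff_derivative, sub_mul, Polynomial.coeff_sub, Polynomial.coeff_C_mul,
      Polynomial.coeff_X_mul, abs_mul] at h2
    have h3 : (1 : ℝ) ≤ |((r : ℝ) + 1)| := by
      rw [abs_of_nonneg (by positivity)]
      have : (0 : ℝ) ≤ r := Nat.cast_nonneg r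
      linarith
    have h4 := mul_le_mul_of_nonneg_left h3 (abs_nonneg (t * G.coeff (r + 1) - G.coeff r))
    linarith
  have h2 : ∀ k r, d + 1 ≤ r + k → 1 ≤ r → |G.coeff r| ≤ k * κ := by
    intro k
    induction k with
    | zero =>
      intro r hr _
      rw [Polynomial.coeff_eq_zero_of_natDegree_lt (by omega), abs_zero, Nat.cast_zero, zero_mul]
    | succ k ih =>
      intro r hr h1r
      have h3 := ih (r + 1) (by omega) (by omega)
      have h4 := h1 r h1r
      have h5 : |t * G.coeff (r + 1)| ≤ k * κ := by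
        rw [abs_mul]
        have := mul_le_mul ht h3 (abs_nonneg _) zero_le_one
        linarith
      rw [abs_lt] at h4
      rw [abs_le] at h5 ⊢
      push_cast
      constructor <;> linarith [h4.1, h4.2, h5.1, h5.2]
  obtain ⟨r, hr, h3⟩ := h
  have h4 := h2 d r (by omega) hr
  have h5 : (d : ℝ) * κ < ε := by
    rw [hκ, mul_div_assoc', div_lt_iff₀ (by positivity)]
    linarith
  linarith

end Pool.D2P
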