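import Pool.Agent.H68.OWN.Uv

/-!
# Two sources, and reading a variable of positive rate

`two_src`: a variable which is few bits given `(Z, A)` and few bits given `(Z, B)`, where `A`, `B` are
nearly independent given `Z`, is few bits given `Z`.

`read_ev`: if `M` has few bits given `Z`, and on an event `G` it determines a variable `E` which has
positive rate on all large events, then `G` is not large.
-/

set_option autoImplicit false

namespace Pool.D2P

open Finset Real
open Pool.Agent.H49.Ent Pool.Agent.H32.Dense Pool.STK Pool.OWN68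

section

variable {Ω : Type} [Fintype Ω] {S T R V : Type}

/-- **Two sources.** -/
theorem two_src {p : Ω → ℝ} (h0 : ∀ ω, 0 ≤ p ω) (U : Ω → S) (A : Ω → T) (B : Ω → R) (Z : Ω → V) :
    CH p U Z ≤ CH p U (fun ω => (A ω, Z ω)) + CH p U (fun ω => (B ω, Z ω)) +
      (CH p A Z - CH p A (fun ω => (B ω, Z ω))) := by
  have h1 := CH_chain h0 U A Z
  have h2 := CH_chain h0 A U Z
  have h3 := CH_swap2 h0 U A Z
  have h4 : CH p A (fun ω => (U ω, (B ω, Z ω))) ≤ CH p A (fun ω => (U ω, Z ω)) :=
    CH_mono_cond h0 fun ω ω' _ _ hh => by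
      simp only [Prod.mk.injEq] at hh ⊢
      exact ⟨hh.1, hh.2.2⟩
  have h5 := CH_le_add h0 A U (fun ω => (B ω, Z ω))
  linarith

/-- Entropy on an event. -/
theorem CH_ev_le {p : Ω → ℝ} (hp : IsLaw p) (M : Ω → S) (Z : Ω → T) (G : Ω → Prop) :
    law p G True * CH (cond p G True) M Z ≤ CH p M Z := by
  classical
  have h0 := hp.nonneg
  have h1 : CH p M (fun ω => (Z ω, G ω)) ≤ CH p M Z :=
    CH_mono_cond h0 fun ω ω' _ _ hh => (Prod.ext_iff.mp hh).1
  rw [CH_split h0 M Z G] at h1
  by_cases hm : True ∈ univ.image G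
  · refine le_trans ?_ h1
    exact Finset.single_le_sum (f := fun j => law p G j * CH (cond p G j) M Z)
      (fun j _ => mul_nonneg (law_nonneg h0 G j) (CH_nonneg (cond_nonneg h0 G j) _ _)) hm
  · rw [law_eq_zero_of_notMem p G hm, zero_mul]
    exact CH_nonneg h0 _ _

/-- Entropy on an event of probability at least `c`. -/
theorem CH_ev_div {p : Ω → ℝ} (hp : IsLaw p) (M : Ω → S) (Z : Ω → T) (G : Ω → Prop) {c e : ℝ}
    (hc : 0 < c) (hG : c ≤ law p G True) (h : CH p M Z ≤ e) :
    CH (cond p G True) M Z ≤ e / c := by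
  have h1 := CH_ev_le hp M Z G
  rw [le_div_iff₀ hc]
  have h2 : CH (cond p G True) M Z * c ≤ law p G True * CH (cond p G True) M Z := by
    rw [mul_comm]
    exact mul_le_mul_of_nonneg_right hG (CH_nonneg (cond_nonneg hp.nonneg G True) _ _)
  linarith

/-- **Reading a variable of positive rate.** -/
theorem read_ev {p : Ω → ℝ} (hp : IsLaw p) (E : Ω → V) (M : Ω → S) (Z : Ω → T) (G : Ω → Prop)
    {c e l r : ℝ} (hc : 0 < c) (hM : CH p M Z ≤ e)
    (hE : c ≤ law p G True → r ≤ CH (cond p G True) E Z)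
    (hd : c ≤ law p G True → CH (cond p G True) E (fun ω => (M ω, Z ω)) ≤ l)
    (hn : e / c + l < r) : law p G True < c := by
  by_contra hcon
  rw [not_lt] at hcon
  have h1 := hE hcon
  have h2 := hd hcon
  have h3 := CH_ev_div hp M Z G hc hcon hM
  have h4 := CH_le_add (cond_nonneg hp.nonneg G True) E M Z
  linarith

/-- Reading an integer variable of positive rate: the form with a reading function. -/
theorem read_int {p : Ω → ℝ} (hp : IsLaw p) (E : Ω → ℤ) (M : Ω → S) (Z : Ω → T) (G : Ω → Prop)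
    (f : S → T → ℤ) (D : ℕ) {c e r : ℝ} (hc : 0 < c) (hM : CH p M Z ≤ e)
    (hE : c ≤ law p G True → r ≤ CH (cond p G True) E Z)
    (hd : ∀ ω, 0 < p ω → G ω → |E ω - f (M ω) (Z ω)| ≤ (D : ℤ))
    (hn : e / c + Real.log (2 * D + 1) < r) : law p G True < c := by
  refine read_ev hp E M Z G hc hM hE (fun hG => ?_) hn
  have hG0 : 0 < law p G True := hc.trans_le hG
  have hq : IsLaw (cond p G True) := ⟨cond_nonneg hp.nonneg G True, sum_cond p G hG0.ne'⟩
  refine CH_fn hq.nonneg hq.sum_one E _ (fun z => f z.1 z.2) D fun ω hω => ?_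
  have h1 := (cond_pos_iff hp.nonneg G True ω).mp hω
  exact hd ω h1.1 (by rw [h1.2]; trivial)

/-- A choice of a value for every key, from the agreement of two copies. -/
theorem agree_choice {p : Ω → ℝ} (hp : IsLaw p) (X : Ω → S) (Z : Ω → T) (Nr : S → S → Prop) :
    ∃ w : T → Ω, (∀ ω, 0 < p ω → Z (w (Z ω)) = Z ω) ∧
      law p (fun ω => ¬ Nr (X ω) (X (w (Z ω)))) True ≤
        law (dbl p Z) (fun w => ¬ Nr (X w.1) (X w.2)) True := by
  classical
  have h0 := hp.nonneg
  have hne : Nonempty Ω := by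
    by_contra hcon
    rw [not_nonempty_iff] at hcon
    have := hp.sum_one
    rw [Finset.univ_eq_empty, Finset.sum_empty] at this
    exact zero_ne_one this
  obtain ⟨F, hF⟩ : ∃ F : Ω → ℝ, F = fun ω' => (∑ ω, if Z ω = Z ω' ∧ ¬ Nr (X ω) (X ω') then p ω else 0) /
    law p Z (Z ω') := ⟨_, rfl⟩
  have hex : ∀ z : T, ∃ w : Ω, (∃ ω, 0 < p ω ∧ Z ω = z) →
      (0 < p w ∧ Z w = z ∧ ∀ ω, 0 < p ω → Z ω = z → F w ≤ F ω) := by
    intro z
    by_cases hz : ∃ ω, 0 < p ω ∧ Z ω = z
    · obtain ⟨ω₀, hω₀, hz₀⟩ := hz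
      obtain ⟨w, hw, hmin⟩ := Finset.exists_min_image (univ.filter fun ω => 0 < p ω ∧ Z ω = z) F
        ⟨ω₀, by rw [Finset.mem_filter]; exact ⟨Finset.mem_univ _, hω₀, hz₀⟩⟩
      rw [Finset.mem_filter] at hw
      exact ⟨w, fun _ => ⟨hw.2.1, hw.2.2, fun ω h1 h2 => hmin ω (by
        rw [Finset.mem_filter]; exact ⟨Finset.mem_univ _, h1, h2⟩)⟩⟩
    · exact ⟨hne.some, fun h => absurd h hz⟩
  choose w hw using hex
  have hw' : ∀ ω, 0 < p ω → (0 < p (w (Z ω)) ∧ Z (w (Z ω)) = Z ω ∧
      ∀ ω', 0 < p ω' → Z ω' = Z ω → F (w (Z ω)) ≤ F ω') := fun ω hω => hw (Z ω) ⟨ω, hω, rfl⟩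
  refine ⟨w, fun ω hω => (hw' ω hω).2.1, ?_⟩
  have e1 : law (dbl p Z) (fun w => ¬ Nr (X w.1) (X w.2)) True = ∑ ω', p ω' * F ω' := by
    unfold law
    rw [Fintype.sum_prod_type, Finset.sum_comm]
    refine Finset.sum_congr rfl fun ω' _ => ?_
    rw [hF]
    simp only []
    rw [Finset.sum_div, Finset.mul_sum]
    refine Finset.sum_congr rfl fun ω _ => ?_
    unfold dbl glue
    simp only [eq_iff_iff, iff_true]
    by_cases h1 : Z ω = Z ω'
    · by_cases h2 : Nr (X ω) (X ω')
      · simp [h1, h2]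
      · simp only [h1, h2, if_true, not_false_eq_true, and_self]
        ring
    · simp [h1]
  have e2 : law p (fun ω => ¬ Nr (X ω) (X (w (Z ω)))) True = ∑ ω', p ω' * F (w (Z ω')) := by
    have e3 : ∀ ω', p ω' * F (w (Z ω')) = ∑ ω, if Z ω = Z ω' ∧ ¬ Nr (X ω) (X (w (Z ω'))) then
        p ω' * p ω / law p Z (Z ω') else 0 := by
      intro ω'
      rcases (h0 ω').eq_or_lt with hz | hz
      · rw [← hz, zero_mul]
        symm
        refine Finset.sum_eq_zero fun ω _ => ?_
        simp
      · rw [hF]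
        simp only []
        rw [(hw' ω' hz).2.1, Finset.sum_div, Finset.mul_sum]
        refine Finset.sum_congr rfl fun ω _ => ?_
        split_ifs
        · ring
        · ring
    simp_rw [e3]
    rw [Finset.sum_comm]
    unfold law
    refine Finset.sum_congr rfl fun ω _ => ?_
    simp only [eq_iff_iff, iff_true]
    rcases (h0 ω).eq_or_lt with hz | hz
    · rw [← hz]
      simp
    · by_cases h2 : Nr (X ω) (X (w (Z ω)))
      · rw [if_neg (by simpa using h2)]
        symm
        refine Finset.sum_eq_zero fun ω' _ => ?_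
        by_cases h1 : Z ω = Z ω'
        · rw [if_neg]
          rw [← h1]
          simpa using h2
        · rw [if_neg (fun h => h1 h.1)]
      · rw [if_pos h2]
        have hl : 0 < law p Z (Z ω) := law_pos h0 Z hz
        have e4 : ∀ ω', (if Z ω = Z ω' ∧ ¬ Nr (X ω) (X (w (Z ω'))) then
            p ω' * p ω / law p Z (Z ω') else 0) =
            (if Z ω' = Z ω then p ω' else 0) * (p ω / law p Z (Z ω)) := by
          intro ω'
          by_cases h1 : Z ω = Z ω'
          · rw [if_pos ⟨h1, by rw [← h1]; exact h2⟩, if_pos h1.symm, ← h1]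
            ring
          · rw [if_neg (fun h => h1 h.1), if_neg (Ne.symm h1), zero_mul]
        refine Eq.symm ((Finset.sum_congr rfl fun ω' _ => e4 ω').trans ?_)
        rw [← Finset.sum_mul]
        have e5 : (∑ ω', if Z ω' = Z ω then p ω' else 0) = law p Z (Z ω) := rfl
        rw [e5]
        field_simp
  rw [e1, e2]
  refine Finset.sum_le_sum fun ω _ => ?_
  rcases (h0 ω).eq_or_lt with hz | hz
  · rw [← hz, zero_mul, zero_mul]
  · exact mul_le_mul_of_nonneg_left ((hw' ω hz).2.2 ω hz rfl) (h0 ω)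

/-- **A pair of copies which agree most of the time**: the variable is few bits given the key. -/
theorem agree_few {p : Ω → ℝ} (hp : IsLaw p) (X : Ω → S) (Z : Ω → T) {c L : ℝ} (hL : 0 ≤ L)
    (hX : ∀ q : Ω → ℝ, IsLaw q → (∀ ω, 0 < q ω → 0 < p ω) → CH q X Z ≤ L)
    (Nr : S → S → Prop) (N : ℕ) (hN : 1 ≤ N)
    (hnear : ∀ x, ∃ F : Finset S, F.card ≤ N ∧ ∀ y, Nr y x → y ∈ F)
    (hc : law (dbl p Z) (fun w => ¬ Nr (X w.1) (X w.2)) True ≤ c) :
    CH p X Z ≤ Real.log 2 + Real.log N + c * L := by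
  classical
  have h0 := hp.nonneg
  obtain ⟨w, hw1, hw2⟩ := agree_choice hp X Z Nr
  obtain ⟨G, hG⟩ : ∃ G : Ω → Prop, G = fun ω => ¬ Nr (X ω) (X (w (Z ω))) := ⟨_, rfl⟩
  rw [← hG] at hw2
  have hGc := hw2.trans hc
  have h1 := CH_le_add h0 X G Z
  have h2 : CH p G Z ≤ Real.log 2 := by
    have h3 := CH_le_card h0 hp.sum_one G Z (fun _ => (univ : Finset Prop)) (fun _ _ => Finset.mem_univ _)
    refine h3.trans (le_of_eq ?_)
    rw [Ex_const hp.sum_one, Finset.card_univ, Fintype.card_prop]
    norm_num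
  have h3 : CH p X (fun ω => (G ω, Z ω)) = CH p X (fun ω => (Z ω, G ω)) := by
    refine CH_congr h0 ?_ ?_ ?_ ?_ <;>
    · intro ω ω' _ _ h
      simp only [Prod.mk.injEq] at h ⊢
      tauto
  rw [h3, CH_split h0 X Z G] at h1
  have hs := sum_law_one hp.sum_one G
  have hlN : 0 ≤ Real.log N := Real.log_nonneg (by exact_mod_cast hN)
  have h4 : ∀ j ∈ univ.image G, law p G j * CH (cond p G j) X Z ≤
      (if j = True then c * L else 0) + law p G j * Real.log N := by
    intro j _
    have hj0 := law_nonneg h0 G j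
    by_cases hj : j = True
    · rw [if_pos hj, hj]
      have hj1 := law_nonneg h0 G True
      have h5 : law p G True * CH (cond p G True) X Z ≤ c * L := by
        rcases hj1.eq_or_lt with hz | hz
        · rw [← hz, zero_mul]
          exact mul_nonneg (by linarith) hL
        · have h6 := hX (cond p G True) ⟨cond_nonneg h0 G True, sum_cond p G hz.ne'⟩
            (fun ω hω => ((cond_pos_iff h0 G True ω).mp hω).1)
          exact (mul_le_mul_of_nonneg_left h6 hz.le).trans (mul_le_mul_of_nonneg_right hGc hL)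
      have h7 := mul_nonneg hj1 hlN
      linarith
    · rw [if_neg hj, zero_add]
      refine (hj0.eq_or_lt).elim (fun hz => by rw [← hz]; simp) fun hz => ?_
      refine mul_le_mul_of_nonneg_left ?_ hj0
      choose F hF1 hF2 using hnear
      have h8 := CH_le_card (cond_nonneg h0 G j) (sum_cond p G hz.ne') X Z
        (fun z => F (X (w z))) (fun ω hω => by
          have h9 := (cond_pos_iff h0 G j ω).mp hω
          refine hF2 _ _ ?_
          by_contra hcon
          apply hj
          rw [← h9.2, hG]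
          exact eq_true hcon)
      refine h8.trans ?_
      refine (Ex_mono (g := fun _ => Real.log N) (cond_nonneg h0 G j) fun ω hω => ?_).trans
        (le_of_eq (Ex_const (sum_cond p G hz.ne') _))
      have h9 := (cond_pos_iff h0 G j ω).mp hω
      have h10 : 0 < (F (X (w (Z ω)))).card := Finset.card_pos.mpr ⟨X ω, hF2 _ _ (by
          by_contra hcon
          apply hj
          rw [← h9.2, hG]
          exact eq_true hcon)⟩
      exact Real.log_le_log (by exact_mod_cast h10) (by exact_mod_cast hF1 _)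
  have h5 := Finset.sum_le_sum h4
  rw [Finset.sum_add_distrib, ← Finset.sum_mul, hs, one_mul] at h5
  have h6 : (∑ j ∈ univ.image G, if j = True then c * L else 0) ≤ c * L := by
    have h7 : 0 ≤ c * L := mul_nonneg ((law_nonneg h0 G True).trans hGc) hL
    by_cases hm : True ∈ univ.image G
    · rw [Finset.sum_eq_single_of_mem True hm (fun j _ hj => if_neg hj), if_pos rfl]
    · rw [Finset.sum_eq_zero fun j hj => if_neg (fun e => hm (by rw [← e]; exact hj))]
      exact h7
  linarith

end

end Pool.D2P
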