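import Pool.Agent.H4.D2.Vfs
import Pool.Agent.H4.D2.Nvc

/-!
# The moved place is full: one subclass for almost all windows

`vu_cls`: in one subclass `VuAt` holds at almost all windows with `PtV` (after `nv_cls`).
-/

set_option autoImplicit false

namespace Pool.D2F2

open Finset Real MvPolynomial Filter Topology MeasureTheory
open Pool.Agent.H49.Ent Pool.Agent.H32.Dense Pool.STK Pool.KA Pool.KSAT Pool.K2S Pool.PB Pool.S6C
  Pool.GEN Pool.RCD Pool.LA91 Pool.MIC6 Pool.REX Pool.REX83 Pool.OWN72 Pool.OWN43 Pool.OWN17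

variable {m : ℕ}

theorem VfP.leS {S S' : PCl m} (hs : S'.Le S) {V₁ V₂ V₃ V₄ : Type}
    {α γ' : ∀ J : ℕ, Fam m J → Type} {f : ∀ (J : ℕ) (F : Fam m J), F.Ω → α J F}
    {y : ∀ (J : ℕ) (F : Fam m J), F.Ω → γ' J F} {QU : Qt m V₁} {QA : Qt m V₂} {QB : Qt m V₃}
    {QD : Qt m V₄} {w j θ c₀ : ℝ} (h : VfP S f y QU QA QB QD w j θ c₀) :
    VfP S' f y QU QA QB QD w j θ c₀ := by
  obtain ⟨k, hk, e, he, H⟩ := h
  exact ⟨k, hk, e, he, fun K => bas_leS hs (H K)⟩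

theorem VuAt.leS {S S' : PCl m} (hs : S'.Le S) {c : ℕ → Fin m} {L₁ L₂ : ℝ → ℝ} {g : ℝ}
    (h : VuAt S c L₁ L₂ g) : VuAt S' c L₁ L₂ g := by
  intro C e μ hC he hμ
  obtain ⟨κ, hκ, i₀, h⟩ := h C e μ hC he hμ
  refine ⟨κ, hκ, i₀, fun i hi => ?_⟩
  obtain ⟨ρ, hρ, h⟩ := h i hi
  refine ⟨ρ, hρ, fun R a1 a2 w j a3 a4 a5 pv Nv q p N₁ N₁' Na Nb Nd b1 b2 b3 b4 b5 b6 b7 b8 b9 d1
    d2 d3 d4 d5 c₀ hc₀ => ?_⟩
  exact (h R a1 a2 w j a3 a4 a5 pv Nv q p N₁ N₁' Na Nb Nd b1 b2 b3 b4 b5 b6 b7 b8 b9 d1 d2 d3 d4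
    d5 c₀ hc₀).leS hs

/-- **The moved place is full**: one subclass for almost all windows. -/
theorem vu_cls (hFn : ∀ k, 1 ≤ k → k ≤ 3 → FZX k) {S : PCl m} (hS : S.Ne) {C₀ : ℝ}
    (hC₀ : 0 ≤ C₀) (htm : TmC S C₀)
    (hpos : ∀ (τ : ℝ) (J : ℕ) (F : Fam m J) (A : F.Ω → Prop), S.St τ J F A → 0 < Pe F.p A)
    {L : Finset (Fin m) → Fin m → ℝ → ℝ → ℝ} (hL : LamW S L) {Na : ℚ → ℚ → ℝ} {al : ℝ}
    {g₀ : ℝ → ℝ} (hal : 0 < al) (hg₀ : ∀ e, 0 < e → 0 < g₀ e) (hM : ActM Na al g₀)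
    {c : ℕ → Fin m} (hB : ActB Na S (c 0)) (hyu : c 0 ≠ c 1) (hyv : c 0 ≠ c 2) (huv : c 1 ≠ c 2)
    {M : ℝ} (hcnt : Bas S (fun J F A => (cnt F.p (ptr F J) A : ℝ) ≤ Real.exp (M * J))) :
    ∃ S' : PCl m, S'.Ne ∧
      (∀ (τ : ℝ) (J : ℕ) (F : Fam m J) (A : F.Ω → Prop), S'.St τ J F A → S.St τ J F A) ∧
      ∀ᵐ g : ℝ, ∀ u₀ φ Sl : ℝ, PtV L (c 0) (c 1) (c 2) g u₀ φ Sl →
        VuAt S' c (fun w => L {c 0} (c 1) w w) (fun w => L {c 0, c 1} (c 2) w w) g := by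
  classical
  have hposB : Bas S (fun _ F A => 0 < Pe F.p A) :=
    ⟨1, one_pos, 0, fun J _ F A hA => hpos 1 J F A hA⟩
  -- the countable set of the bad windows
  obtain ⟨Bd, hBd1, hBd2⟩ := chn_pair (hFn 2 (by norm_num) (by norm_num)) hS hC₀ htm hL hal hg₀
    hM hyu hB (c := c) rfl rfl
  obtain ⟨Z, hZ⟩ : ∃ Z : Set ℝ, Z = Bd ∪ ⋃ p : Finset (Fin m) × Fin m,
      {W | ¬ ContinuousAt (fun W => L p.1 p.2 W W) W} := ⟨_, rfl⟩
  have hZc : Z.Countable := by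
    rw [hZ]
    exact hBd1.union (Set.countable_iUnion fun p => (cnt_L hL p.1 p.2).2)
  obtain ⟨s, hs⟩ : ∃ s : ℝ, ∀ q : ℚ, (q : ℝ) + s ∉ Z := by
    have h1 : (⋃ q : ℚ, (fun z : ℝ => z - q) '' Z).Countable :=
      Set.countable_iUnion fun q => hZc.image _
    obtain ⟨s, hs⟩ := (h1.dense_compl ℝ).nonempty
    refine ⟨s, fun q hq => hs ?_⟩
    exact Set.mem_iUnion.2 ⟨q, (q : ℝ) + s, hq, by ring⟩
  have hsB : ∀ q : ℚ, (q : ℝ) + s ∉ Bd := fun q h => hs q (by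
    rw [hZ]
    exact Or.inl h)
  have hsC : ∀ (I : Finset (Fin m)) (k : Fin m) (q : ℚ),
      ContinuousAt (fun W => L I k W W) ((q : ℝ) + s) := by
    intro I k q
    by_contra h
    refine hs q ?_
    rw [hZ]
    exact Or.inr (Set.mem_iUnion.2 ⟨(I, k), h⟩)
  -- the numbers of activity and of the records
  obtain ⟨S₁, Ns, hS₁, sub₁, hNs⟩ := actN_exists' hS hpos
  obtain ⟨f, hf⟩ := exists_surjective_nat ℚ
  obtain ⟨S₂, hS₂, sub₂, hη⟩ := ext_rec hS₁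
    (fun τ J F A h => hpos τ J F A (sub₁ τ J F A h)) (fun _ _ F => PtT F) (fun _ _ F => LnT F)
    (fun _ J F => ptr F J) (fun i => vg ((f i : ℝ) + s)) (fun _ => M) (fun _ => hcnt.sub sub₁)
  have sub₂₀ : ∀ (τ : ℝ) (J : ℕ) (F : Fam m J) (A : F.Ω → Prop), S₂.St τ J F A → S.St τ J F A :=
    fun τ J F A h => sub₁ τ J F A (sub₂ τ J F A h)
  have hRN : ∀ q : ℚ, ∃ η, RNum S₂ (fun J F => ptr F J) (vg ((q : ℝ) + s)) η := fun q => by
    obtain ⟨i, rfl⟩ := hf q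
    exact hη i
  obtain ⟨GI, hGI⟩ : ∃ GI : ℚ → ℚ → Prop, GI = fun (A B : ℚ) =>
      ∀ q : ℚ, (A : ℝ) < q → (q : ℝ) < B → 0 < (q : ℝ) + s ∧ (q : ℝ) + s < 1 ∧
        Gdw L (c 0) (c 1) (c 2) ((q : ℝ) + s) ∧
        L {c 0, c 1} (c 2) ((q : ℝ) + s) ((q : ℝ) + s) < 1 := ⟨_, rfl⟩
  obtain ⟨Q, hQ⟩ : ∃ Q : (ℚ × ℚ) → PCl m → Prop, Q = fun i S' =>
      GI i.1 i.2 → ∀ᵐ x : ℝ, x ∈ Set.Ioo (i.1 : ℝ) (i.2 : ℝ) → ∀ u₀ φ Sl : ℝ,
        PtV L (c 0) (c 1) (c 2) (x + s) u₀ φ Sl →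
        VuAt S' c (fun w => L {c 0} (c 1) w w) (fun w => L {c 0, c 1} (c 2) w w)
          (x + s) := ⟨_, rfl⟩
  obtain ⟨S', hS', sub', hall⟩ := diag_subS hS₂ Q (by
      rw [hQ]
      intro i T₁ T₂ hle h a4
      filter_upwards [h a4] with x hx hxA u₀ φ Sl hP
      exact (hx hxA u₀ φ Sl hP).leS hle) (by
    rw [hQ]
    rintro ⟨A, B⟩ S₃ hS₃ sub₃
    by_cases hgi : GI A B
    · rw [hGI] at hgi
      have sub₃₀ : ∀ (τ : ℝ) (J : ℕ) (F : Fam m J) (A : F.Ω → Prop),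
          S₃.St τ J F A → S.St τ J F A := fun τ J F A h => sub₂₀ τ J F A (sub₃ τ J F A h)
      have htm₃ : TmC S₃ C₀ := fun τ J F A hτ h => htm τ J F A hτ (sub₃₀ τ J F A h)
      obtain ⟨T, hT⟩ : ∃ T : Set ℝ, T = {t | ∃ q : ℚ, (A : ℝ) < q ∧ (q : ℝ) < B ∧
        t = (q : ℝ) + s} := ⟨_, rfl⟩
      have hTc : T.Countable := by
        refine (Set.countable_range (fun q : ℚ => (q : ℝ) + s)).mono ?_
        rw [hT]
        rintro t ⟨q, -, -, rfl⟩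
        exact ⟨q, rfl⟩
      have hact₃ : ActF S₃ (c 0) := actF_of (hposB.sub sub₃₀) hal hg₀ hM
        (fun q q' a b c h hh => (hB q q' a b c h hh).sub sub₃₀)
      obtain ⟨S₄, hS₄, sub₄, hatt⟩ := att_all hS₃ hC₀ htm₃ (hL.sub sub₃₀) hyu hact₃ hTc
        (v := c 2) (by
          rw [hT]
          rintro t ⟨q, a, b, rfl⟩
          exact (hgi q a b).2.2.1)
      have sub₄₀ : ∀ (τ : ℝ) (J : ℕ) (F : Fam m J) (A : F.Ω → Prop),
          S₄.St τ J F A → S.St τ J F A := fun τ J F A h => sub₃₀ τ J F A (sub₄ τ J F A h)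
      have sub₄₂ : ∀ (τ : ℝ) (J : ℕ) (F : Fam m J) (A : F.Ω → Prop),
          S₄.St τ J F A → S₂.St τ J F A := fun τ J F A h => sub₃ τ J F A (sub₄ τ J F A h)
      have htm₄ : TmC S₄ C₀ := fun τ J F A hτ h => htm τ J F A hτ (sub₄₀ τ J F A h)
      have hpos₄ : ∀ (τ : ℝ) (J : ℕ) (F : Fam m J) (A : F.Ω → Prop), S₄.St τ J F A →
          0 < Pe F.p A := fun τ J F A h => hpos τ J F A (sub₄₀ τ J F A h)
      have hB₄ : ActB Na S₄ (c 0) := fun q q' a b c h hh => (hB q q' a b c h hh).sub sub₄₀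
      have hact₄ : ActF S₄ (c 0) := actF_of (hposB.sub sub₄₀) hal hg₀ hM hB₄
      have hW : WinG S₄ {c 0} (c 1) (c 2) {q : ℚ | (A : ℝ) < q ∧ (q : ℝ) < B} s
          (fun q => L {c 0} (c 1) ((q : ℝ) + s) ((q : ℝ) + s))
          (fun q => L {c 0, c 1} (c 2) ((q : ℝ) + s) ((q : ℝ) + s)) := by
        refine win_of hS₄ htm₄ (hL.sub sub₄₀) (c := c) rfl rfl (fun q hq => ?_)
          (fun q hq => ?_) (fun q hq => ?_) (fun q hq => ?_) (fun q hq j hj => ?_)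
        · obtain ⟨a, b⟩ := hq
          exact ⟨(hgi q a b).1, (hgi q a b).2.1⟩
        · obtain ⟨a, b⟩ := hq
          exact (hgi q a b).2.2.1.U1
        · obtain ⟨a, b⟩ := hq
          exact (hgi q a b).2.2.2
        · obtain ⟨a, b⟩ := hq
          exact (hBd2 _ (hgi q a b).1 (hgi q a b).2.1 (hsB q) (hgi q a b).2.2.1.U1).sub sub₄₀
        · obtain ⟨a, b⟩ := hq
          exact hatt _ (by
            rw [hT]
            exact ⟨q, a, b, rfl⟩) j hj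
      obtain ⟨S₅, hS₅, sub₅, hae⟩ := cor_near hFn hS₄ hC₀ htm₄ hpos₄ (hL.sub sub₄₀)
        (actN_of_bas (fun Φ h => h.sub fun τ J F A hA => sub₂ τ J F A (sub₄₂ τ J F A hA)) hNs)
        hal hg₀ hM hB₄ hact₄ hyu hyv huv hW (A := A) (B := B)
        (fun q a b => ⟨a, b⟩) (fun _ _ => rfl) (fun _ _ => rfl)
        (fun q hq => by
          obtain ⟨a, b⟩ := hq
          exact (hgi q a b).2.2.1)
        (fun q _ _ => by
          obtain ⟨η, hη⟩ := hRN q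
          exact ⟨η, hη.sub sub₄₂⟩)
      refine ⟨S₅, hS₅, fun τ J F A h => sub₄ τ J F A (sub₅ τ J F A h), fun _ => ?_⟩
      have sub₅₀ : ∀ (τ : ℝ) (J : ℕ) (F : Fam m J) (A : F.Ω → Prop),
          S₅.St τ J F A → S.St τ J F A := fun τ J F A h => sub₄₀ τ J F A (sub₅ τ J F A h)
      filter_upwards [hae] with x hx hxAB u₀ φ Sl P
      have e1 : x + s - s = x := by ring
      have e2 : ∀ w : ℚ, (w : ℝ) + s - (x + s) = w - x := fun w => by ring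
      have hPC : PtC L (c 0) (c 1) (c 2) (fun q => L {c 0} (c 1) ((q : ℝ) + s) ((q : ℝ) + s))
          (fun q => L {c 0, c 1} (c 2) ((q : ℝ) + s) ((q : ℝ) + s)) s x u₀ φ Sl := by
        refine ⟨P.gu, P.φ0, P.φ1, P.S1, ?_, P.uv, P.du, P.dv⟩
        intro e he
        obtain ⟨r₀, hr₀, h⟩ := P.der e he
        refine ⟨r₀, hr₀, fun r a b w c d => ?_⟩
        have h3 : |(w : ℝ) + s - (x + s)| ≤ r := by
          rw [e2, abs_le]
          constructor <;> linarith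
        obtain ⟨k1, k2, -⟩ := h r a b _ h3
        rw [e2] at k1 k2
        exact ⟨k1, k2⟩
      refine vf_at (s := s) (A := A) (B := B) (Sl := Sl)
        (U := fun q => L {c 0} (c 1) ((q : ℝ) + s) ((q : ℝ) + s))
        (D := fun q => L {c 0, c 1} (c 2) ((q : ℝ) + s) ((q : ℝ) + s))
        (fun τ J F A hτ h => htm τ J F A hτ (sub₅₀ τ J F A h))
        (fun τ J F A h => hpos τ J F A (sub₅₀ τ J F A h)) (hW.sub sub₅)
        (fun q _ _ => by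
          obtain ⟨η, hη⟩ := hRN q
          exact ⟨η, hη.sub fun τ J F A h => sub₄₂ τ J F A (sub₅ τ J F A h)⟩)
        (fun q a b => ⟨_, _, _, (hBd2 _ (hgi q a b).1 (hgi q a b).2.1 (hsB q)
          (hgi q a b).2.2.1.U1).sub sub₅₀, if_neg one_ne_zero⟩)
        (fun _ _ _ => rfl) (fun _ _ _ => rfl) (by rw [e1]; exact hxAB.1)
        (by rw [e1]; exact hxAB.2) (by linarith [P.gu, P.φ0, P.φ1]) P.S1 P.d1.2 P.d2.2 ?_
      have e3 : L {c 0, c 1} (c 2) (x + s) (x + s) - L {c 0} (c 1) (x + s) (x + s) = φ := by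
        rw [P.d1.1, P.d2.1]
        ring
      rw [e1, e3]
      exact hx hxAB u₀ φ Sl hPC
    · refine ⟨S₃, hS₃, fun _ _ _ _ h => h, fun a => absurd a hgi⟩)
  refine ⟨S', hS', fun τ J F A h => sub₂₀ τ J F A (sub' τ J F A h), ?_⟩
  have h1 : ∀ᵐ x : ℝ, ∀ p : ℚ × ℚ, GI p.1 p.2 → x ∈ Set.Ioo (p.1 : ℝ) (p.2 : ℝ) →
      ∀ u₀ φ Sl : ℝ, PtV L (c 0) (c 1) (c 2) (x + s) u₀ φ Sl →
        VuAt S' c (fun w => L {c 0} (c 1) w w) (fun w => L {c 0, c 1} (c 2) w w) (x + s) := by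
    rw [ae_all_iff]
    intro p
    by_cases hg : GI p.1 p.2
    · have h2 := hall p
      rw [hQ] at h2
      filter_upwards [h2 hg] with x hx _ hxA
      exact hx hxA
    · exact Filter.Eventually.of_forall fun x h => absurd h hg
  have h2 := (measurePreserving_sub_right (volume : Measure ℝ) s).quasiMeasurePreserving.ae h1
  filter_upwards [h2] with g hg u₀ φ Sl P
  obtain ⟨δ, hδ, hnear⟩ := P.near
  obtain ⟨A, hA1, hA2⟩ := exists_rat_btwn (by linarith : g - s - δ < g - s)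
  obtain ⟨B, hB1, hB2⟩ := exists_rat_btwn (by linarith : g - s < g - s + δ)
  have e1 : g - s + s = g := by ring
  have h3 := hg (A, B) (by
    rw [hGI]
    intro q a b
    have h3 : |(q : ℝ) + s - g| ≤ δ := by
      rw [abs_le]
      constructor <;> linarith
    obtain ⟨k1, k2, k3, k4, k5, k6, k7⟩ := hnear _ h3
    exact ⟨k1, k2, ⟨k1, hsC _ _ q, hsC _ _ q, k3, k4, k5, k7⟩, k6⟩) ⟨hA2, hB1⟩ u₀ φ Sl
  rw [e1] at h3
  exact h3 P

end Pool.D2F2
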