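import Pool.Agent.H4.D2.Nvs
import Pool.Agent.H91.LA.TwoN

/-!
# The moved place is full, given the near digits of the place below it

`vf_law`: from the near digits of a pair over other codes. `VfP`: the near digits of a place over
labels of any kind, given the near path of the lower place. `vfp_of`: from the numbers at later
windows.
-/

set_option autoImplicit false

namespace Pool.D2F2

open Finset Real MvPolynomial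
open Pool.Agent.H49.Ent Pool.Agent.H32.Dense Pool.STK Pool.KA Pool.KSAT Pool.K2S Pool.PB Pool.GEN
open Pool.S6C Pool.LA91 Pool.RCD
open Pool.OWN83 (ch_part)

/-- **The near digits of the second coordinate given the first one**, from the pair over other codes,
one law. -/
theorem vf_law {Ω T₁ T₂ T₃ T₄ T₅ T₆ T₇ T₈ T₉ R₁ R₂ R₃ R₄ Y : Type} [Fintype Ω] {p : Ω → ℝ}
    (hp : ∀ ω, 0 ≤ p ω) {a₀ : Ω → T₁} {bu : Ω → T₂} {bv : Ω → T₃} {d₀ : Ω → T₄} {a : Ω → T₅}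
    {b : Ω → T₆} {d : Ω → T₇} {u : Ω → T₈} {u' : Ω → T₉} {Zj : Ω → R₁} {Zw : Ω → R₂}
    {zj : Ω → R₃} {zw : Ω → R₄} {y : Ω → Y} {θ c1 c2 c3 c4 c5 cz cx : ℝ}
    (hu : ∀ ω ω', 0 < p ω → 0 < p ω' → u' ω = u' ω' → u ω = u ω')
    (H0 : θ ≤ CH p (fun ω => (bu ω, bv ω)) (fun ω => (a₀ ω, (d₀ ω, (Zj ω, (Zw ω, y ω))))))
    (H1 : CH p u' (fun ω => ((a₀ ω, d₀ ω), (Zw ω, y ω))) ≤ c1)
    (H2 : CH p a (fun ω => ((u ω, a₀ ω), (Zw ω, y ω))) ≤ c2)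
    (H3 : CH p d (fun ω => ((u ω, d₀ ω), (Zw ω, y ω))) ≤ c3)
    (H4 : CH p bu (fun ω => (u ω, (Zw ω, y ω))) ≤ c4)
    (H5 : CH p bv (fun ω => ((u ω, b ω), (Zw ω, y ω))) ≤ c5)
    (Hzj : CH p zj Zj ≤ cz) (Hzw : CH p zw Zw ≤ cx) :
    θ - c1 - c2 - c3 - c4 - c5 - cz - cx ≤
      CH p b (fun ω => (a ω, (d ω, (zj ω, (zw ω, (u ω, y ω)))))) := by
  have mc : ∀ {T C D : Type} (x : Ω → T) (s : Ω → C) (t : Ω → D), (∀ ω ω', t ω = t ω' →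
      s ω = s ω') → CH p x t ≤ CH p x s := fun x s t h =>
    CH_mono_cond hp fun ω ω' _ _ hh => h ω ω' hh
  have h1 : CH p u (fun ω => ((a₀ ω, d₀ ω), (Zw ω, y ω))) ≤ c1 :=
    (CH_mono_left hp fun ω ω' hω hω' hh => hu ω ω' hω hω' (Prod.ext_iff.mp hh).1).trans H1
  -- the records
  have r1 := CH_le_add hp b zj (fun ω => (a ω, (d ω, (Zj ω, (Zw ω, (u ω, y ω))))))
  have r2 := mc zj Zj (fun ω => (a ω, (d ω, (Zj ω, (Zw ω, (u ω, y ω)))))) fun ω ω' hh => by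
    simp only [Prod.mk.injEq] at hh
    exact hh.2.2.1
  have r3 := CH_le_add hp b zw (fun ω => (zj ω, (a ω, (d ω, (Zj ω, (Zw ω, (u ω, y ω)))))))
  have r4 := mc zw Zw (fun ω => (zj ω, (a ω, (d ω, (Zj ω, (Zw ω, (u ω, y ω)))))))
    fun ω ω' hh => by
      simp only [Prod.mk.injEq] at hh
      exact hh.2.2.2.2.1
  have r5 := mc b (fun ω => (a ω, (d ω, (zj ω, (zw ω, (u ω, y ω))))))
    (fun ω => (zw ω, (zj ω, (a ω, (d ω, (Zj ω, (Zw ω, (u ω, y ω)))))))) fun ω ω' hh => by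
      simp only [Prod.mk.injEq] at hh ⊢
      exact ⟨hh.2.2.1, hh.2.2.2.1, hh.2.1, hh.1, hh.2.2.2.2.2.2⟩
  -- the codes
  obtain ⟨C₀, hC₀⟩ : ∃ C₀ : Ω → _, C₀ = fun ω => (a₀ ω, (d₀ ω, (Zj ω, (Zw ω, y ω)))) := ⟨_, rfl⟩
  have hC : ∀ ω ω', C₀ ω = C₀ ω' → a₀ ω = a₀ ω' ∧ d₀ ω = d₀ ω' ∧ Zj ω = Zj ω' ∧ Zw ω = Zw ω' ∧
      y ω = y ω' := fun ω ω' hh => by
    rw [hC₀] at hh
    simp only [Prod.mk.injEq] at hh
    exact hh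
  rw [← hC₀] at H0
  have k0 := CH_le_add hp (fun ω => (bu ω, bv ω)) u C₀
  have k1 := mc u (fun ω => ((a₀ ω, d₀ ω), (Zw ω, y ω))) C₀ fun ω ω' hh => by
    obtain ⟨e1, e2, e3, e4, e5⟩ := hC ω ω' hh
    simp only [Prod.mk.injEq]
    exact ⟨⟨e1, e2⟩, e4, e5⟩
  have k2 := CH_le_add hp (fun ω => (bu ω, bv ω)) a (fun ω => (u ω, C₀ ω))
  have k3 := mc a (fun ω => ((u ω, a₀ ω), (Zw ω, y ω))) (fun ω => (u ω, C₀ ω)) fun ω ω' hh => by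
    obtain ⟨e1, e2, e3, e4, e5⟩ := hC ω ω' (Prod.ext_iff.mp hh).2
    simp only [Prod.mk.injEq]
    exact ⟨⟨(Prod.ext_iff.mp hh).1, e1⟩, e4, e5⟩
  have k4 := CH_le_add hp (fun ω => (bu ω, bv ω)) d (fun ω => (a ω, (u ω, C₀ ω)))
  have k5 := mc d (fun ω => ((u ω, d₀ ω), (Zw ω, y ω))) (fun ω => (a ω, (u ω, C₀ ω)))
    fun ω ω' hh => by
      obtain ⟨e1, e2, e3, e4, e5⟩ := hC ω ω' (Prod.ext_iff.mp (Prod.ext_iff.mp hh).2).2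
      simp only [Prod.mk.injEq]
      exact ⟨⟨(Prod.ext_iff.mp (Prod.ext_iff.mp hh).2).1, e2⟩, e4, e5⟩
  have k6 := CH_le_add hp (fun ω => (bu ω, bv ω)) b (fun ω => (d ω, (a ω, (u ω, C₀ ω))))
  have k7 := mc b (fun ω => (a ω, (d ω, (Zj ω, (Zw ω, (u ω, y ω))))))
    (fun ω => (d ω, (a ω, (u ω, C₀ ω)))) fun ω ω' hh => by
      simp only [Prod.mk.injEq] at hh
      obtain ⟨e1, e2, e3, e4, e5⟩ := hC ω ω' hh.2.2.2
      simp only [Prod.mk.injEq]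
      exact ⟨hh.2.1, hh.1, e3, e4, hh.2.2.1, e5⟩
  have k8 := CH_chain hp bu bv (fun ω => (b ω, (d ω, (a ω, (u ω, C₀ ω)))))
  have k9 := mc bu (fun ω => (u ω, (Zw ω, y ω)))
    (fun ω => (bv ω, (b ω, (d ω, (a ω, (u ω, C₀ ω)))))) fun ω ω' hh => by
      simp only [Prod.mk.injEq] at hh
      obtain ⟨e1, e2, e3, e4, e5⟩ := hC ω ω' hh.2.2.2.2.2
      simp only [Prod.mk.injEq]
      exact ⟨hh.2.2.2.2.1, e4, e5⟩
  have k10 := mc bv (fun ω => ((u ω, b ω), (Zw ω, y ω)))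
    (fun ω => (b ω, (d ω, (a ω, (u ω, C₀ ω))))) fun ω ω' hh => by
      simp only [Prod.mk.injEq] at hh
      obtain ⟨e1, e2, e3, e4, e5⟩ := hC ω ω' hh.2.2.2.2
      simp only [Prod.mk.injEq]
      exact ⟨⟨hh.2.2.2.1, hh.1⟩, e4, e5⟩
  linarith

section

variable {m : ℕ} {W₁ W₂ W₃ W₄ V₁ V₂ V₃ V₄ V₅ : Type} {α γ' : ∀ J : ℕ, Fam m J → Type}
  {S : PCl m} {f : ∀ (J : ℕ) (F : Fam m J), F.Ω → α J F}
  {y : ∀ (J : ℕ) (F : Fam m J), F.Ω → γ' J F}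

/-- **Near digits of a place given the near path of the lower places** `u`. -/
def VfP (S : PCl m) (f : ∀ (J : ℕ) (F : Fam m J), F.Ω → α J F)
    (y : ∀ (J : ℕ) (F : Fam m J), F.Ω → γ' J F) (QU : Qt m V₁) (QA : Qt m V₂) (QB : Qt m V₃)
    (QD : Qt m V₄) (w j θ c₀ : ℝ) : Prop :=
  ∃ k : ℝ, 0 < k ∧ ∃ e₀ : ℝ, 0 < e₀ ∧ ∀ K : ℕ, Bas S (fun J F A' =>
    ∀ (R₁ R₂ : Type) (z : F.Ω → R₁) (zj : F.Ω → R₂), Mx f (vg w) k F A' z →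
    Mx f (vg j) k F A' zj → ∀ u a b d, QU.P K e₀ J F A' u → QA.P K e₀ J F A' a →
    QB.P K e₀ J F A' b → QD.P K e₀ J F A' d →
    ∀ B' : F.Ω → Prop, Sub B' A' → c₀ * Pe F.p A' ≤ Pe F.p B' →
    θ * J ≤ CH (Pool.Agent.H49.Ent.cond F.p B' True) b
      (fun ω => (a ω, (d ω, (zj ω, (z ω, (u ω, y J F ω)))))))

theorem VfP.le {QU : Qt m V₁} {QA : Qt m V₂} {QB : Qt m V₃} {QD : Qt m V₄} {w j θ θ' c₀ : ℝ}
    (h : VfP S f y QU QA QB QD w j θ c₀) (hθ : θ' ≤ θ) : VfP S f y QU QA QB QD w j θ' c₀ := by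
  obtain ⟨k, hk, e, he, H⟩ := h
  refine ⟨k, hk, e, he, fun K => Bas.mono 0 (H K) ?_⟩
  intro J _ F A' H R₁ R₂ z zj hz hzj u a b d hu ha hb hd B' hB hBc
  exact (mul_le_mul_of_nonneg_right hθ (Nat.cast_nonneg J)).trans
    (H R₁ R₂ z zj hz hzj u a b d hu ha hb hd B' hB hBc)

theorem VfP.sub {S' : PCl m} (hs : ∀ (τ : ℝ) (J : ℕ) (F : Fam m J) (A : F.Ω → Prop),
    S'.St τ J F A → S.St τ J F A) {QU : Qt m V₁} {QA : Qt m V₂} {QB : Qt m V₃} {QD : Qt m V₄}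
    {w j θ c₀ : ℝ} (h : VfP S f y QU QA QB QD w j θ c₀) : VfP S' f y QU QA QB QD w j θ c₀ := by
  obtain ⟨k, hk, e, he, H⟩ := h
  exact ⟨k, hk, e, he, fun K => (H K).sub hs⟩

theorem vfp_triv
    (hpos : ∀ (τ : ℝ) (J : ℕ) (F : Fam m J) (A : F.Ω → Prop), S.St τ J F A → 0 < Pe F.p A)
    {QU : Qt m V₁} {QA : Qt m V₂} {QB : Qt m V₃} {QD : Qt m V₄} {w j θ c₀ : ℝ} (hc₀ : 0 < c₀)
    (hθ : θ ≤ 0) : VfP S f y QU QA QB QD w j θ c₀ := by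
  refine ⟨1, one_pos, 1, one_pos, fun K => Bas.mono 0 (pos_bas hpos) ?_⟩
  intro J _ F A hA R₁ R₂ z zj hz hzj u a b d hu ha hb hd B hB hBc
  have hBp : 0 < Pe F.p B := lt_of_lt_of_le (mul_pos hc₀ hA) hBc
  exact (mul_nonpos_of_nonpos_of_nonneg hθ (Nat.cast_nonneg J)).trans
    (CH_nonneg (isLaw_cond F.isLaw hBp).nonneg _ _)

/-- A source with more information. -/
theorem Few.src {β : ∀ J : ℕ, Fam m J → Type} {g : ∀ (J : ℕ) (F : Fam m J), F.Ω → β J F}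
    (hpos : ∀ (τ : ℝ) (J : ℕ) (F : Fam m J) (A : F.Ω → Prop), S.St τ J F A → 0 < Pe F.p A)
    {Q : Qt m V₁} {Q₁ : Qt m V₂} {Q' : Qt m V₃} (ψ : V₁ → V₂)
    (h : ∀ (K : ℕ) (e : ℝ) (J : ℕ) (F : Fam m J) (A : F.Ω → Prop) (u : F.Ω → V₁),
      Q.P K e J F A u → Q₁.P K e J F A (fun ω => ψ (u ω))) (hf : Few S f g y Q₁ Q') :
    Few S f g y Q Q' := by
  intro c hc
  obtain ⟨e, he, H⟩ := hf c hc
  refine ⟨e, he, fun K => Bas.mono 0 ((H K).and (pos_bas hpos)) ?_⟩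
  rintro J - F A ⟨H, hA⟩ u u' hu hu'
  obtain ⟨V, z, hz, h1⟩ := H (fun ω => ψ (u ω)) u' (h K e J F A u hu) hu'
  refine ⟨V, z, hz, le_trans (CH_mono_cond (isLaw_cond F.isLaw hA).nonneg ?_) h1⟩
  intro ω ω' _ _ hh
  simp only [Prod.mk.injEq] at hh ⊢
  exact ⟨by rw [hh.1], hh.2⟩

/-- **From the numbers of a pair at later windows**: `QU` the near path of the first coordinate,
with the parts `QU0`, `QU1`. -/
theorem vfp_of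
    (hpos : ∀ (τ : ℝ) (J : ℕ) (F : Fam m J) (A : F.Ω → Prop), S.St τ J F A → 0 < Pe F.p A)
    {QA₀ : Qt m W₁} {QBu : Qt m W₂} {QBv : Qt m W₃} {QD₀ : Qt m W₄} {QU : Qt m V₁}
    {QA : Qt m V₂} {QB : Qt m V₃} {QD : Qt m V₄} {QW : Qt m V₅} (ψ : V₁ → V₅)
    {w j x x' θ c1 c2 c5 c₀ e : ℝ} (hc₀ : 0 < c₀)
    (hwx : w ≤ x) (hx : x ≤ 1) (hjx : j ≤ x') (hx' : x' ≤ 1)
    (hU : ∀ (K : ℕ) (e : ℝ) (J : ℕ) (F : Fam m J) (A : F.Ω → Prop) (u : F.Ω → V₁),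
      QU.P K e J F A u → QW.P K e J F A (fun ω => ψ (u ω)) ∧
      ∀ ω ω', A ω → A ω' → ψ (u ω) = ψ (u ω') → u ω = u ω')
    (h : NrJ S f y QA₀ (QBu.prod QBv) QD₀ x x' θ c₀)
    (rx : ∃ η, RNum S f (vg x) η) (rx' : ∃ η, RNum S f (vg x') η)
    (xA : Exs S QA₀) (xB : Exs S (QBu.prod QBv)) (xD : Exs S QD₀)
    (f1 : FewC S f (vg x) y (QA₀.prod QD₀) QW c1 c₀)
    (f2 : FewC S f (vg x) y (QU.prod QA₀) QA c2 c₀)
    (f3 : FewC S f (vg x) y (QU.prod QD₀) QD 0 c₀)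
    (f4 : FewC S f (vg x) y QU QBu 0 c₀)
    (f5 : FewC S f (vg x) y (QU.prod QB) QBv c5 c₀) (he : 0 < e) :
    VfP S f y QU QA QB QD w j (θ - c1 - c2 - c5 - e) c₀ := by
  obtain ⟨ε, hε⟩ : ∃ ε : ℝ, ε = e / 8 := ⟨_, rfl⟩
  have hε0 : 0 < ε := by rw [hε]; positivity
  obtain ⟨k0, hk0, e0, he0, H0⟩ := h
  obtain ⟨k1, hk1, e1, he1, H1⟩ := f1 ε hε0
  obtain ⟨k2, hk2, e2, he2, H2⟩ := f2 ε hε0
  obtain ⟨k3, hk3, e3, he3, H3⟩ := f3 ε hε0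
  obtain ⟨k4, hk4, e4, he4, H4⟩ := f4 ε hε0
  obtain ⟨k5, hk5, e5, he5, H5⟩ := f5 ε hε0
  obtain ⟨k, hk, l0, l1, l2, l3, l4, l5, l6⟩ : ∃ k : ℝ, 0 < k ∧ k ≤ k0 ∧ k ≤ k1 ∧ k ≤ k2 ∧
      k ≤ k3 ∧ k ≤ k4 ∧ k ≤ k5 ∧ k ≤ c₀ * ε := by
    refine ⟨min (min (min k0 k1) (min k2 k3)) (min (min k4 k5) (c₀ * ε)), by positivity,
      ?_, ?_, ?_, ?_, ?_, ?_, ?_⟩
    · exact (min_le_left _ _).trans ((min_le_left _ _).trans (min_le_left _ _))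
    · exact (min_le_left _ _).trans ((min_le_left _ _).trans (min_le_right _ _))
    · exact (min_le_left _ _).trans ((min_le_right _ _).trans (min_le_left _ _))
    · exact (min_le_left _ _).trans ((min_le_right _ _).trans (min_le_right _ _))
    · exact (min_le_right _ _).trans ((min_le_left _ _).trans (min_le_left _ _))
    · exact (min_le_right _ _).trans ((min_le_left _ _).trans (min_le_right _ _))
    · exact (min_le_right _ _).trans (min_le_right _ _)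
  obtain ⟨e', he', m0, m1, m2, m3, m4, m5⟩ : ∃ e' : ℝ, 0 < e' ∧ e' ≤ e0 ∧ e' ≤ e1 ∧ e' ≤ e2 ∧
      e' ≤ e3 ∧ e' ≤ e4 ∧ e' ≤ e5 := by
    refine ⟨min (min (min e0 e1) (min e2 e3)) (min e4 e5), by positivity, ?_, ?_, ?_, ?_, ?_, ?_⟩
    · exact (min_le_left _ _).trans ((min_le_left _ _).trans (min_le_left _ _))
    · exact (min_le_left _ _).trans ((min_le_left _ _).trans (min_le_right _ _))
    · exact (min_le_left _ _).trans ((min_le_right _ _).trans (min_le_left _ _))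
    · exact (min_le_left _ _).trans ((min_le_right _ _).trans (min_le_right _ _))
    · exact (min_le_right _ _).trans (min_le_left _ _)
    · exact (min_le_right _ _).trans (min_le_right _ _)
  obtain ⟨KA, MA, XA⟩ := xA e' he'
  obtain ⟨KB, MB, XB⟩ := xB e' he'
  obtain ⟨KD, MD, XD⟩ := xD e' he'
  obtain ⟨η1, r1⟩ := rx
  obtain ⟨η2, r2⟩ := rx'
  refine ⟨k, hk, e', he', fun K => ?_⟩
  obtain ⟨L, n0, n1, n2, n3⟩ : ∃ L : ℕ, K ≤ L ∧ KA ≤ L ∧ KB ≤ L ∧ KD ≤ L :=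
    ⟨max K (max KA (max KB KD)), le_max_left _ _, (le_max_left _ _).trans (le_max_right _ _),
      (le_max_left _ _).trans ((le_max_right _ _).trans (le_max_right _ _)),
      (le_max_right _ _).trans ((le_max_right _ _).trans (le_max_right _ _))⟩
  refine Bas.mono 0 (((((H0 L).and (H1 L)).and ((H2 L).and (H3 L))).and
    ((H4 L).and (H5 L))).and (((XA.and XB).and (XD.and (mx_ex hpos r1 k hk))).and
    ((mx_ex hpos r2 k hk).and (pos_bas hpos)))) ?_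
  rintro J - F A' ⟨⟨⟨⟨H0, H1⟩, H2, H3⟩, H4, H5⟩, ⟨⟨⟨a₀, ha₀, -⟩, b₀, hb₀, -⟩, ⟨d₀, hd₀, -⟩,
    Rx, Zx, hZx⟩, ⟨Rj, Zj, hZj⟩, hAp⟩ R₁ R₂ z zj hz hzj u a b d hu ha hb hd B' hB' hBc
  have hBp : 0 < Pe F.p B' := lt_of_lt_of_le (mul_pos hc₀ hAp) hBc
  have hcl := isLaw_cond F.isLaw hBp
  have hJ0 : (0 : ℝ) ≤ J := Nat.cast_nonneg J
  obtain ⟨hW, hUd⟩ := hU K e' J F A' u hu
  have t0 := H0 Rx Rj Zx Zj (hZx.le' l0) (hZj.le' l0) a₀ b₀ d₀ (QA₀.mono n1 m0 ha₀)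
    ((QBu.prod QBv).mono n2 m0 hb₀) (QD₀.mono n3 m0 hd₀) B' hB' hBc
  have t1 := H1 Rx Zx (hZx.le' l1) (fun ω => (a₀ ω, d₀ ω)) (fun ω => ψ (u ω))
    ⟨QA₀.mono n1 m1 ha₀, QD₀.mono n3 m1 hd₀⟩ (QW.mono n0 m1 hW) B' hB' hBc
  have t2 := H2 Rx Zx (hZx.le' l2) (fun ω => (u ω, a₀ ω)) a
    ⟨QU.mono n0 m2 hu, QA₀.mono n1 m2 ha₀⟩ (QA.mono n0 m2 ha) B' hB' hBc
  have t3 := H3 Rx Zx (hZx.le' l3) (fun ω => (u ω, d₀ ω)) d
    ⟨QU.mono n0 m3 hu, QD₀.mono n3 m3 hd₀⟩ (QD.mono n0 m3 hd) B' hB' hBc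
  have t4 := H4 Rx Zx (hZx.le' l4) u (fun ω => (b₀ ω).1) (QU.mono n0 m4 hu)
    (QBu.mono n2 m4 hb₀.1) B' hB' hBc
  have t5 := H5 Rx Zx (hZx.le' l5) (fun ω => (u ω, b ω)) (fun ω => (b₀ ω).2)
    ⟨QU.mono n0 m5 hu, QB.mono n0 m5 hb⟩ (QBv.mono n2 m5 hb₀.2) B' hB' hBc
  have hkJ : k * J ≤ c₀ * ε * J := mul_le_mul_of_nonneg_right l6 hJ0
  have part : ∀ {T T' : Type} (X : F.Ω → T) (Y : F.Ω → T'),
      CH (Pool.Agent.H49.Ent.cond F.p A' True) X Y ≤ c₀ * ε * J →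
      CH (Pool.Agent.H49.Ent.cond F.p B' True) X Y ≤ ε * J := fun X Y hXY =>
    ch_part F.isLaw hB' hAp hc₀ hBc X Y (by rw [← mul_assoc]; exact hXY)
  have t6 := part _ _ ((hZj.2 R₂ zj (Pool.OWN68.cl2_vg hjx hx' hzj.1)).trans hkJ)
  have t7 := part _ _ ((hZx.2 R₁ z (Pool.OWN68.cl2_vg hwx hx hz.1)).trans hkJ)
  have g1 := vf_law (u' := fun ω => ψ (u ω)) hcl.nonneg
    (fun ω ω' hω hω' hh => hUd ω ω' (hB' ω (of_cond_pos hω)) (hB' ω' (of_cond_pos hω')) hh)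
    t0 t1 t2 t3 t4 t5 t6 t7
  have s0 : (0 : ℝ) ≤ ε * J := mul_nonneg hε0.le hJ0
  have hee : e = 8 * ε := by rw [hε]; ring
  have q : θ * J - (c1 + ε) * J - (c2 + ε) * J - (0 + ε) * J - (0 + ε) * J - (c5 + ε) * J -
      ε * J - ε * J - (θ - c1 - c2 - c5 - e) * J = ε * J := by
    rw [hee]
    ring
  linarith

end

end Pool.D2F2
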