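import Pool.Agent.H4.D2.Vfl

/-!
# The numbers at windows, for the moved place over the near path below

`vfp_num`: the near digits of the second coordinate given the near path of the first one, from the
numbers at the windows `w' ≤ j' < j'' ≤ l` of the class.
-/

set_option autoImplicit false

namespace Pool.D2F2

open Finset Real MvPolynomial
open Pool.Agent.H49.Ent Pool.Agent.H32.Dense Pool.STK Pool.KA Pool.KSAT Pool.K2S Pool.PB Pool.GEN
open Pool.S6C Pool.LA91 Pool.RCD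
open Pool.OWN17 (yF kn_yF)

variable {m : ℕ}

theorem qA_jet {I : Finset (Fin m)} {ι k : Fin m} {j : ℕ} {w p N : ℝ} {K : ℕ} {e : ℝ} {J : ℕ}
    {F : Fam m J} {A : F.Ω → Prop} {u : F.Ω → ℤ} (h : (qA m I ι k j w p N).P K e J F A u) :
    (qJet m (insert ι I) k j w p N).P K e J F A u := by
  obtain ⟨hc, V, z, z', G, c, hl, ha, hu⟩ := h
  exact ⟨hc, V, z, z', G, hl, hu⟩

/-- Fewer digits, and the label of the chain. -/
theorem dig_qAJ {I : Finset (Fin m)} {ι k : Fin m} {j : ℕ} {w p N M : ℝ} (hNM : N ≤ M) :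
    Dig (qA m I ι k j w p M) (qJet m (insert ι I) k j w p N) ((M - N) * Real.log 2) 3 :=
  fun K e J F A b hJ hb => dig_jet hNM K e J F A b hJ (qA_jet hb)

section

variable {S : PCl m} {C₀ : ℝ} {u v x : Fin m} {G : Set ℚ} {s : ℝ}
  {U D : ℚ → ℝ} {α γ : ∀ J : ℕ, Fam m J → Type} {f : ∀ (J : ℕ) (F : Fam m J), F.Ω → α J F}
  {y : ∀ (J : ℕ) (F : Fam m J), F.Ω → γ J F} {lam : ℝ}

/-- **The near digits of the second coordinate given the near path of the first one**, from the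
numbers at windows. -/
theorem vfp_num (htm : TmC S C₀)
    (hpos : ∀ (τ : ℝ) (J : ℕ) (F : Fam m J) (A : F.Ω → Prop), S.St τ J F A → 0 < Pe F.p A)
    (hf : ∀ (J : ℕ) (F : Fam m J), ∃ φ : α J F → PtT F, ∀ ω, ptr F J ω = φ (f J F ω))
    (hy : Kn {x} 1 lam y) (hlam : 0 < lam) (H : WinG S {x} u v G s U D) {w' j' j'' l g' : ℚ}
    (hw' : w' ∈ G) (hj' : j' ∈ G) (hg' : g' + U w' ≤ D w')
    (rx : ∃ η, RNum S f (vg ((w' : ℝ) + s)) η) (rx' : ∃ η, RNum S f (vg ((j' : ℝ) + s)) η)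
    {c : ℕ → Fin m} (hc0 : c 0 = x) (hc1 : c 1 = u) {u₁ : ℝ} {sX rX : ℕ → ℝ}
    (hch : Chn S c 1 2 ((w' : ℝ) + s) ((w' : ℝ) + s) u₁ sX rX) (hs1 : sX 1 = U w')
    {w j θ₀ q p N₁ N₁' Na Nb Nd c₀ e mm σ₀ : ℝ} {pv Nv : ℕ → ℕ → ℝ} (hp0 : pv 1 0 = q)
    (hp1 : pv 1 1 = q) (hN0 : Nv 1 0 = N₁) (hN1 : Nv 1 1 = N₁') (hc₀ : 0 < c₀) (he : 0 < e)
    (h : NrJ S f y (gX m {x} u v s U g' w' j') (gX m {x} u v s U g' w' j'')
      (gD m {x} u v s U g' w' l) ((w' : ℝ) + s) ((j' : ℝ) + s) θ₀ c₀)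
    (hwx : w ≤ (w' : ℝ) + s) (hjx : j ≤ (j' : ℝ) + s)
    (hmm : mm = min lam (1 - ((w' : ℝ) + s))) (hσ₀ : 0 < σ₀)
    (a1 : U j' < min (U w') q + mm) (b1 : U j'' ≤ N₁) (b2 : U j'' < min q (U w') + mm)
    (d1 : N₁' ≤ U l - (l + s)) (d2 : N₁' + ((w' : ℝ) + s) < min (U w') q + mm)
    (e1 : U w' + σ₀ < N₁) (e2 : N₁ ≤ min q (U w') + mm) (e3 : U w' + σ₀ < N₁' + ((w' : ℝ) + s))
    (k1 : min Na (U j' + g') + σ₀ ≤ min (U w' + g') p + mm)
    (k2 : min Na (U j' + g') + 2 * σ₀ ≤ min (U w' + g') p + (N₁ - U w'))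
    (k3 : Nb ≤ U j'' + g') (k4 : Nb + σ₀ ≤ min p (U w' + g') + mm)
    (k5 : Nb + 2 * σ₀ ≤ min p (U w' + g') + (N₁ - U w'))
    (m1 : Nd ≤ U l + g' - (l + s)) (m2 : Nd + ((w' : ℝ) + s) + σ₀ ≤ min (U w' + g') p + mm)
    (m3 : Nd + ((w' : ℝ) + s) + 2 * σ₀ ≤ min (U w' + g') p + (N₁ - U w'))
    (m4 : Nd + ((w' : ℝ) + s) + 2 * σ₀ ≤ min (U w' + g') p + (N₁' + ((w' : ℝ) + s) - U w')) :
    VfP S f y (qJets m c 1 2 1 (fun _ _ => w) pv Nv) (qJet m ((range 2).image c) v 0 w p Na)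
      (qJet m ((range 2).image c) v 0 w p Nb) (qJet m ((range 2).image c) v 1 w p Nd) w j
      (θ₀ - (N₁ - min N₁ (U j')) * Real.log 2 - (Na - min Na (U j' + g')) * Real.log 2 -
        (U j'' + g' - Nb) * Real.log 2 - e) c₀ := by
  subst hmm
  have w0 := H.w0 w' hw'
  have w1 := H.w1 w' hw'
  have i1 : (range 1).image c = {x} := by
    rw [range_one, image_singleton, hc0]
  have i2 : (range 2).image c = insert u {x} := by
    rw [range_add_one, image_insert, i1, hc1]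
  have hy1 : Kn ((range 1).image c) 1 lam y := by rw [i1]; exact hy
  have xA : ∀ v' : ℚ, Exs S (gX m {x} u v s U g' w' v') := fun v' => by
    rw [← gX_eq]
    exact exs_gP H (by norm_num) hw' hg'
  have xD : ∀ v' : ℚ, Exs S (gD m {x} u v s U g' w' v') := fun v' => by
    rw [← gD_eq]
    exact exs_gP H le_rfl hw' hg'
  have one : ∀ {i : ℕ}, 1 ≤ i → i < 2 → i = 1 := fun a b => by omega
  -- the parts of the path
  have hp : ∀ (K : ℕ) (e : ℝ) (J : ℕ) (F : Fam m J) (A : F.Ω → Prop) (t : F.Ω → ℕ → ℕ → ℤ),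
      (qJets m c 1 2 1 (fun _ _ => w) pv Nv).P K e J F A t →
      (qJet m {x} u 0 w q N₁).P K e J F A (fun ω => t ω 1 0) ∧
      (qJet m {x} u 1 w q N₁').P K e J F A (fun ω => t ω 1 1) := by
    intro K e J F A t ht
    have t0 := ht.1 1 le_rfl (by norm_num) 0 (by norm_num)
    have t1 := ht.1 1 le_rfl (by norm_num) 1 le_rfl
    rw [i1, hc1, hp0, hN0] at t0
    rw [i1, hc1, hp1, hN1] at t1
    exact ⟨t0, t1⟩
  have hU : ∀ (K : ℕ) (e : ℝ) (J : ℕ) (F : Fam m J) (A : F.Ω → Prop) (t : F.Ω → ℕ → ℕ → ℤ),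
      (qJets m c 1 2 1 (fun _ _ => w) pv Nv).P K e J F A t →
      ((qJet m {x} u 0 w q N₁).prod (qJet m {x} u 1 w q N₁')).P K e J F A
        (fun ω => (t ω 1 0, t ω 1 1)) ∧
      ∀ ω ω', A ω → A ω' → (t ω 1 0, t ω 1 1) = (t ω' 1 0, t ω' 1 1) → t ω = t ω' := by
    intro K e J F A t ht
    refine ⟨hp K e J F A t ht, fun ω ω' hω hω' hh => ?_⟩
    simp only [Prod.mk.injEq] at hh
    funext i i'
    by_cases hin : 1 ≤ i ∧ i < 2 ∧ i' ≤ 1
    · have h1 : i = 1 := one hin.1 hin.2.1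
      subst h1
      rcases Nat.lt_or_ge i' 1 with h2 | h2
      · have h3 : i' = 0 := by omega
        rw [h3]
        exact hh.1
      · have h3 : i' = 1 := by have := hin.2.2; omega
        rw [h3]
        exact hh.2
    · rw [ht.2 ω hω i i' hin, ht.2 ω' hω' i i' hin]
  -- the change of the charts of the first coordinate
  have f1 : FewC S f (vg ((w' : ℝ) + s)) y ((gX m {x} u v s U g' w' j').prod
      (gD m {x} u v s U g' w' l)) ((qJet m {x} u 0 w q N₁).prod (qJet m {x} u 1 w q N₁'))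
      ((N₁ - min N₁ (U j')) * Real.log 2) c₀ := by
    have g0 : Few S f (vg ((w' : ℝ) + s)) y (qJet m {x} u 0 ((w' : ℝ) + s) (U w') (U j'))
        (qJet m {x} u 0 w q (min N₁ (U j'))) :=
      few_jet htm le_rfl hwx w1.le le_rfl w0.le w1 le_rfl (H.ful w' hw') hf hy
        (min_le_right _ _) (by
          have : min N₁ (U j') ≤ U j' := min_le_right _ _
          push_cast
          linarith)
    have g1 : Few S f (vg ((w' : ℝ) + s)) y
        (qJet m {x} u 1 ((w' : ℝ) + s) (U w') (U l - (l + s))) (qJet m {x} u 1 w q N₁') :=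
      few_jet htm le_rfl hwx w1.le le_rfl w0.le w1 le_rfl (H.ful w' hw') hf hy d1 (by
          push_cast
          linarith)
    have g2 : Few S f (vg ((w' : ℝ) + s)) y ((gX m {x} u v s U g' w' j').prod
        (gD m {x} u v s U g' w' l)) ((qJet m {x} u 0 w q (min N₁ (U j'))).prod
          (qJet m {x} u 1 w q N₁')) :=
      Few.pair hpos (Few.fst hpos (Few.fst hpos g0)) (Few.snd hpos (Few.fst hpos g1))
    have g3 := Dig.prod (dig_jet (I := {x}) (k := u) (j := 0) (w := w) (p := q)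
      (min_le_left N₁ (U j'))) (dig_jet (I := {x}) (k := u) (j := 1) (w := w) (p := q)
      (le_refl N₁'))
    rw [sub_self, zero_mul, add_zero] at g3
    exact FewC.of hpos hc₀ g2 g3
  -- the change of the charts of the second coordinate
  have take0 : ∀ (K : ℕ) (e : ℝ) (J : ℕ) (F : Fam m J) (A : F.Ω → Prop) (t : F.Ω → ℕ → ℕ → ℤ),
      (qJets m c 1 2 1 (fun _ _ => w) pv Nv).P K e J F A t →
      (qJets m c 1 2 0 (fun _ _ => w) pv Nv).P K e J F A
        (fun ω i i' => if 1 ≤ i ∧ i < 2 ∧ i' ≤ 0 then t ω i i' else 0) :=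
    fun K e J F A t ht => qJets_take le_rfl (Nat.zero_le _) ht
  have f2 : FewC S f (vg ((w' : ℝ) + s)) y ((qJets m c 1 2 1 (fun _ _ => w) pv Nv).prod
      (gX m {x} u v s U g' w' j')) (qJet m ((range 2).image c) v 0 w p Na)
      ((Na - min Na (U j' + g')) * Real.log 2) c₀ := by
    have g0 := few_jetN htm hch (k := v) (j := 0) (wv := fun _ _ => w) (pv := pv) (Nv := Nv)
      (lv := fun _ => N₁ - U w' - σ₀) (w₁ := (w' : ℝ) + s) (w₂ := w) (p₁ := U w' + g')
      (p₂ := p) (N₁ := U j' + g') (N₂ := min Na (U j' + g')) (p₀ := 1) (lam := lam) (σ₀ := σ₀)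
      (fun _ _ _ _ _ => hwx) le_rfl hwx w1 le_rfl hlam hσ₀ (fun _ _ _ => by linarith)
      (fun i a b i' hi' => by
        have h1 := one a b
        subst h1
        have h2 : i' = 0 := by omega
        subst h2
        rw [hs1, hN0]
        push_cast
        linarith)
      (fun i a b i' hi' => by
        have h1 := one a b
        subst h1
        have h2 : i' = 0 := by omega
        subst h2
        rw [hs1, hp0]
        linarith)
      (fun i a b i' hi' l' c1 c2 => by omega) (min_le_right _ _) (by push_cast; linarith)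
      (fun _ _ _ => by push_cast; linarith) hf hy1
    refine FewC.of hpos hc₀ (Few.src hpos (Q₁ := (qJets m c 1 2 0 (fun _ _ => w) pv Nv).prod
      (qJet m ((range 2).image c) v 0 ((w' : ℝ) + s) (U w' + g') (U j' + g')))
      (fun t : (ℕ → ℕ → ℤ) × (ℤ × ℤ) =>
        (fun i i' => if 1 ≤ i ∧ i < 2 ∧ i' ≤ 0 then t.1 i i' else 0, t.2.2)) ?_ g0)
      (dig_jet (min_le_left _ _))
    rintro K e J F A t ⟨h1, h2⟩
    refine ⟨take0 K e J F A _ h1, ?_⟩
    rw [i2]
    exact qA_jet h2.2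
  have f3 : FewC S f (vg ((w' : ℝ) + s)) y ((qJets m c 1 2 1 (fun _ _ => w) pv Nv).prod
      (gD m {x} u v s U g' w' l)) (qJet m ((range 2).image c) v 1 w p Nd) 0 c₀ := by
    obtain ⟨mn, hmn⟩ : ∃ mn : ℝ, mn = min N₁ (N₁' + ((w' : ℝ) + s)) := ⟨_, rfl⟩
    have mn1 : mn ≤ N₁ := by rw [hmn]; exact min_le_left _ _
    have mn2 : mn ≤ N₁' + ((w' : ℝ) + s) := by rw [hmn]; exact min_le_right _ _
    have mn3 : U w' + σ₀ < mn := by rw [hmn]; exact lt_min e1 e3
    have mn4 : Nd + ((w' : ℝ) + s) + 2 * σ₀ ≤ min (U w' + g') p + (mn - U w') := by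
      rw [hmn]
      rcases min_choice N₁ (N₁' + ((w' : ℝ) + s)) with h5 | h5 <;> rw [h5] <;> linarith
    have g0 := few_jetN htm hch (k := v) (j := 1) (wv := fun _ _ => w) (pv := pv) (Nv := Nv)
      (lv := fun _ => mn - U w' - σ₀) (w₁ := (w' : ℝ) + s) (w₂ := w) (p₁ := U w' + g')
      (p₂ := p) (N₁ := U l + g' - (l + s)) (N₂ := Nd) (p₀ := 1) (lam := lam) (σ₀ := σ₀)
      (fun _ _ _ _ _ => hwx) le_rfl hwx w1 le_rfl hlam hσ₀ (fun _ _ _ => by linarith)
      (fun i a b i' hi' => by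
        have h1 := one a b
        subst h1
        rw [hs1]
        rcases Nat.lt_or_ge i' 1 with h2 | h2
        · have h3 : i' = 0 := by omega
          rw [h3, hN0]
          push_cast
          linarith
        · have h3 : i' = 1 := by omega
          rw [h3, hN1]
          push_cast
          linarith)
      (fun i a b i' hi' => by
        have h1 := one a b
        subst h1
        have h4 : pv 1 i' = q := by
          rcases Nat.lt_or_ge i' 1 with h2 | h2
          · have h3 : i' = 0 := by omega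
            rw [h3, hp0]
          · have h3 : i' = 1 := by omega
            rw [h3, hp1]
        rw [hs1, h4]
        linarith)
      (fun i a b i' hi' l' c1 c2 => by omega) m1 (by push_cast; linarith)
      (fun _ _ _ => by push_cast; linarith) hf hy1
    have g3 := dig_jet (I := (range 2).image c) (k := v) (j := 1) (w := w) (p := p) (le_refl Nd)
    rw [sub_self, zero_mul] at g3
    refine FewC.of hpos hc₀ (Few.src hpos (Q₁ := (qJets m c 1 2 1 (fun _ _ => w) pv Nv).prod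
      (qJet m ((range 2).image c) v 1 ((w' : ℝ) + s) (U w' + g') (U l + g' - (l + s))))
      (fun t : (ℕ → ℕ → ℤ) × (ℤ × ℤ) => (t.1, t.2.2)) ?_ g0) g3
    rintro K e J F A t ⟨h1, h2⟩
    refine ⟨h1, ?_⟩
    rw [i2]
    exact qA_jet h2.2
  have f4 : FewC S f (vg ((w' : ℝ) + s)) y (qJets m c 1 2 1 (fun _ _ => w) pv Nv)
      (qJet m {x} u 0 ((w' : ℝ) + s) (U w') (U j'')) 0 c₀ := by
    have g0 : Few S f (vg ((w' : ℝ) + s)) y (qJet m {x} u 0 w q N₁)
        (qJet m {x} u 0 ((w' : ℝ) + s) (U w') (U j'')) :=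
      few_jet htm hwx le_rfl w1.le le_rfl w0.le w1 le_rfl (H.ful w' hw') hf hy b1 (by
        push_cast
        linarith)
    have g3 := dig_jet (I := {x}) (k := u) (j := 0) (w := (w' : ℝ) + s) (p := U w')
      (le_refl (U j''))
    rw [sub_self, zero_mul] at g3
    exact FewC.of hpos hc₀ (Few.src hpos (fun t : ℕ → ℕ → ℤ => t 1 0)
      (fun K e J F A t ht => (hp K e J F A t ht).1) g0) g3
  have f5 : FewC S f (vg ((w' : ℝ) + s)) y ((qJets m c 1 2 1 (fun _ _ => w) pv Nv).prod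
      (qJet m ((range 2).image c) v 0 w p Nb))
      (qA m {x} u v 0 ((w' : ℝ) + s) (U w' + g') (U j'' + g'))
      ((U j'' + g' - Nb) * Real.log 2) c₀ := by
    have g0 := few_jetN htm hch (k := v) (j := 0) (wv := fun _ _ => w) (pv := pv) (Nv := Nv)
      (lv := fun _ => N₁ - U w' - σ₀) (w₁ := w) (w₂ := (w' : ℝ) + s) (p₁ := p)
      (p₂ := U w' + g') (N₁ := Nb) (N₂ := Nb) (p₀ := 1) (lam := lam) (σ₀ := σ₀)
      (fun _ _ _ _ _ => hwx) hwx le_rfl w1 le_rfl hlam hσ₀ (fun _ _ _ => by linarith)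
      (fun i a b i' hi' => by
        have h1 := one a b
        subst h1
        have h2 : i' = 0 := by omega
        subst h2
        rw [hs1, hN0]
        push_cast
        linarith)
      (fun i a b i' hi' => by
        have h1 := one a b
        subst h1
        have h2 : i' = 0 := by omega
        subst h2
        rw [hs1, hp0]
        linarith)
      (fun i a b i' hi' l' c1 c2 => by omega) le_rfl (by push_cast; linarith)
      (fun _ _ _ => by push_cast; linarith) hf hy1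
    have g3 := dig_qAJ (I := {x}) (ι := u) (k := v) (j := 0) (w := (w' : ℝ) + s)
      (p := U w' + g') k3
    rw [← i2] at g3
    refine FewC.of hpos hc₀ (Few.src hpos (Q₁ := (qJets m c 1 2 0 (fun _ _ => w) pv Nv).prod
      (qJet m ((range 2).image c) v 0 w p Nb))
      (fun t : (ℕ → ℕ → ℤ) × ℤ =>
        (fun i i' => if 1 ≤ i ∧ i < 2 ∧ i' ≤ 0 then t.1 i i' else 0, t.2)) ?_ g0) g3
    rintro K e J F A t ⟨h1, h2⟩
    exact ⟨take0 K e J F A _ h1, h2⟩
  exact vfp_of hpos (fun t : ℕ → ℕ → ℤ => (t 1 0, t 1 1)) hc₀ hwx w1.le hjx (H.w1 j' hj').le hU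
    h rx rx' (xA j') (xA j'') (xD l) f1 f2 f3 f4 f5 he

end

end Pool.D2F2
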