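import Pool.Agent.H4.D2.Evt

/-!
# The natural digits of all coordinates near a ball: two sources

`V0d`, `V1d` are the digits behind the record; `V0d` is full given the late record `Ra`, `V1d` is full
given the exact lower coordinates `V0x` and the early record `Ro`. Then the pair is full given the early
record, the velocities and the coarse digits.
-/

set_option autoImplicit false

namespace Pool.D2P

open Finset Real
open Pool.Agent.H49.Ent Pool.Agent.H32.Dense Pool.STK Pool.OWN68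

section

variable {Ω : Type} [Fintype Ω] {A₀ A₁ R₁ R₂ E Θ Δ Q₀ Q₁ X₀ C : Type}

/-- **Digits near a ball are full.** -/
theorem vnr {p : Ω → ℝ} (h0 : ∀ ω, 0 ≤ p ω) (V0d : Ω → A₀) (V1d : Ω → A₁) (Ra : Ω → R₁)
    (Ro : Ω → R₂) (e : Ω → E) (T : Ω → Θ) (D : Ω → Δ) (V0q : Ω → Q₀) (V1q : Ω → Q₁) (V0x : Ω → X₀)
    {F₀ F₁ x₁ x₂ x₃ x₄ x₅ : ℝ} (hd : Det p V0x V0d) (hq : Det p V0x V0q)
    (ha : F₀ - x₁ ≤ CH p V0d (fun ω => (Ra ω, (e ω, T ω))))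
    (hb : F₁ - x₂ ≤ CH p V1d (fun ω => (V0x ω, (Ro ω, (e ω, T ω)))))
    (hc : CH p D (fun ω => (V1q ω, (V0x ω, (Ro ω, (e ω, T ω))))) ≤ x₃)
    (hr : CH p (fun ω => (Ro ω, (D ω, (V0q ω, V1q ω)))) (fun ω => (Ra ω, (e ω, T ω))) ≤ x₄)
    (h1 : CH p V1q (fun ω => (V0x ω, (Ro ω, (e ω, T ω)))) ≤ x₅) :
    F₀ + F₁ - (x₁ + x₂ + x₃ + x₄ + x₅) ≤
      CH p (fun ω => (V0d ω, V1d ω)) (fun ω => (Ro ω, (D ω, (V0q ω, (V1q ω, (e ω, T ω)))))) := by
  rw [CH_chain2 h0]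
  have e1 := CH_cond_add h0 V0d (fun ω => (Ro ω, (D ω, (V0q ω, V1q ω)))) (fun ω => (Ra ω, (e ω, T ω)))
  have e2 : CH p V0d (fun ω => ((Ro ω, (D ω, (V0q ω, V1q ω))), (Ra ω, (e ω, T ω)))) ≤
      CH p V0d (fun ω => (Ro ω, (D ω, (V0q ω, (V1q ω, (e ω, T ω)))))) :=
    CH_mono_cond h0 fun ω ω' _ _ h => by
      simp only [Prod.mk.injEq] at h ⊢
      tauto
  have e3 := CH_cond_add h0 V1d V1q (fun ω => (V0x ω, (Ro ω, (e ω, T ω))))
  have e4 := CH_cond_add h0 V1d D (fun ω => (V1q ω, (V0x ω, (Ro ω, (e ω, T ω)))))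
  have e5 : CH p V1d (fun ω => (D ω, (V1q ω, (V0x ω, (Ro ω, (e ω, T ω)))))) ≤
      CH p V1d (fun ω => (V0d ω, (Ro ω, (D ω, (V0q ω, (V1q ω, (e ω, T ω))))))) :=
    CH_mono_cond h0 fun ω ω' hω hω' h => by
      simp only [Prod.mk.injEq] at h ⊢
      have h6 := hd ω ω' hω hω' h.2.2.1
      have h7 := hq ω ω' hω hω' h.2.2.1
      tauto
  linarith

end

end Pool.D2P
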